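import Pool.Agent.H68.OWN.Jr

/-!
# The height to the last digit, without the direction

`few_fam0`, `few_jet0`: change of the charts for the jet of order `0` (the proofs of `few_fam`,
`few_jet`); the direction is not needed. `jets0`: the own height over the label of the window `w` to
`P w + q` digits is few bits given the ball and the point to `w + lam` digits.
-/

set_option autoImplicit false

namespace Pool.OWN68

open Finset Real MvPolynomial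
open Pool.Agent.H49.Ent Pool.Agent.H32.Dense Pool.STK Pool.KA Pool.KSAT Pool.K2S Pool.PB Pool.GEN
open Pool.S6C Pool.RCD Pool.LA91
open Pool.GRD (LbP Pb_mono_pos)
open Pool.UNJ (ceI Tub)
open Pool.BFL (Pb)

variable {m : ℕ}

/-- `y` knows the time and `p₀ J` digits of the point over `I`. -/
def Kn0 (I : Finset (Fin m)) (p₀ : ℝ) {γ : ∀ J : ℕ, Fam m J → Type}
    (y : ∀ (J : ℕ) (F : Fam m J), F.Ω → γ J F) : Prop :=
  ∀ (J : ℕ) (F : Fam m J), ∃ φ : γ J F → ℕ × (Fin m → ℤ), ∀ ω,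
    φ (y J F ω) = (F.T ω, (fun i => if i ∈ I then F.X ⌊p₀ * J⌋₊ ω i else 0))

theorem jet_zero (H : MvPolynomial (Option (Fin m)) ℝ) (b v : Option (Fin m) → ℝ) :
    jet 0 H b v = eval b H := by
  unfold jet
  rw [Function.iterate_zero, id, Pool.LA91.eval_alp]
  congr 2
  funext o
  ring

/-- **Change of the charts**, for a family, order `0`. -/
theorem few_fam0 (m K : ℕ) : ∃ C : ℝ, 1 ≤ C ∧ ∀ (J : ℕ) (F : Fam m J) (A : F.Ω → Prop)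
    (I : Finset (Fin m)) (k : Fin m) (w u a P₁ P₂ : ℕ) (s₁ s₂ : ℝ) (V₁ V₂ : Type)
    (z₁ : PtT F → V₁) (z₁' : LnT F → V₁) (G₁ : V₁ → MvPolynomial (Option (Fin m)) ℝ)
    (z₂ : PtT F → V₂) (z₂' : LnT F → V₂) (G₂ : V₂ → MvPolynomial (Option (Fin m)) ℝ)
    (u₁ u₂ : F.Ω → ℤ) (Y : Type) (y : F.Ω → Y) (θ e η M : ℝ), 0 < Pe F.p A →
    (J : ℝ) * Real.log 2 - e ≤
      CH (Pool.Agent.H49.Ent.cond F.p A True) F.T (fun ω => (F.l ω, F.Z ω)) →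
    LbP F I k K J w P₁ A z₁ z₁' G₁ → LbP F I k K J w P₂ A z₂ z₂' G₂ →
    w ≤ u → u + 1 ≤ a → u ≤ J → 0 ≤ θ → 0 ≤ e → 0 < η → η ≤ 1 → 0 ≤ M →
    I.card * (((J - u : ℕ) : ℝ) * Real.log 2) - θ ≤ CH (Pool.Agent.H49.Ent.cond F.p A True)
      (fun ω => ceI I (fun _ => J) (F.x ω))
      (fun ω => (ceI I (fun _ => u) (F.x ω), (z₁' (slam F w ω), z₂' (slam F w ω)), F.W ω)) →
    C * (θ + e + 1) / η ≤ ((J - u : ℕ) : ℝ) * Real.log 2 → 0 < s₂ → s₂ ≤ s₁ →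
    s₂ * (C * (Real.exp (C * (θ + e + 1) / η) * (1 / 2 ^ P₁ + 1 / 2 ^ P₂)) *
      (2 * (2 ^ u / 2 ^ a))) ≤ 1 →
    (∃ φ : Y → ℕ × (Fin m → ℤ), ∀ ω, φ (y ω) = (F.T ω,
      (fun i => if i ∈ I then F.X a ω i else 0))) →
    (∀ ω, A ω → u₁ ω = ⌊s₁ * ojet F k 0 (G₁ (z₁' (slam F w ω))) ω⌋) →
    (∀ ω, A ω → u₂ ω = ⌊s₂ * ojet F k 0 (G₂ (z₂' (slam F w ω))) ω⌋) →
    (cnt F.p u₂ A : ℝ) ≤ Real.exp M →
    CH (Pool.Agent.H49.Ent.cond F.p A True) u₂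
      (fun ω => (u₁ ω, ((z₁' (slam F w ω), z₂' (slam F w ω)), y ω))) ≤
      Real.log 2 + Real.log 7 + η * M := by
  classical
  obtain ⟨C₁, hC₁, hdif⟩ := dif_ball m K
  obtain ⟨C₂, hC₂, hchg⟩ := chg_fam m K 0
  refine ⟨max C₁ C₂, hC₁.trans (le_max_left _ _), ?_⟩
  intro J F A I k w u a P₁ P₂ s₁ s₂ V₁ V₂ z₁ z₁' G₁ z₂ z₂' G₂ u₁ u₂ Y y θ e η M hA htm h₁ h₂
    hwu hua huJ hθ he hη hη1 hM hful hX p2 hn hsm hy hu₁ hu₂ hc
  have hq := isLaw_cond F.isLaw hA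
  have hqA : ∀ ω, 0 < Pool.Agent.H49.Ent.cond F.p A True ω → A ω := fun ω hω => of_cond_pos hω
  obtain ⟨φ, hφ⟩ := hy
  obtain ⟨Cm, hCm⟩ : ∃ Cm : ℝ, Cm = max C₁ C₂ := ⟨_, rfl⟩
  rw [← hCm] at hX hsm
  have m1 : C₁ ≤ Cm := by rw [hCm]; exact le_max_left _ _
  have m2 : C₂ ≤ Cm := by rw [hCm]; exact le_max_right _ _
  have mE : C₁ * (θ + e + 1) / η ≤ Cm * (θ + e + 1) / η :=
    div_le_div_of_nonneg_right (mul_le_mul_of_nonneg_right m1 (by linarith)) hη.le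
  have huX : u + (J - u) = J := by omega
  have key := hdif J F (Pool.Agent.H49.Ent.cond F.p A True) I k w u (J - u) A J P₁ J P₂ V₁ V₂
    z₁ z₁' G₁ z₂ z₂' G₂ θ e η hq hqA htm (by omega) h₁ h₂ hwu hθ he hη hη1 (by
      rw [huX]
      exact hful) (mE.trans hX)
  obtain ⟨B, hB⟩ : ∃ B : ℝ, B = Real.exp (Cm * (θ + e + 1) / η) * (1 / 2 ^ P₁ + 1 / 2 ^ P₂) :=
    ⟨_, rfl⟩
  have hB0 : 0 ≤ B := by
    rw [hB]
    positivity
  rw [← hB] at hsm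
  have hbb : Real.exp (C₁ * (θ + e + 1) / η) * (1 / 2 ^ P₁ + 1 / 2 ^ P₂) ≤ B := by
    rw [hB]
    exact mul_le_mul_of_nonneg_right (Real.exp_le_exp.2 mE) (by positivity)
  -- the function of the conditions
  obtain ⟨κ, hκ⟩ : ∃ κ : ℤ × ((V₁ × V₂) × Y) → ℝ, κ = fun x =>
      (x.1 : ℝ) * (s₂ / s₁) + s₂ * eval (Pool.LA91.bx I J a (φ x.2.2).1 (φ x.2.2).2)
        (G₁ x.2.1.1 - G₂ x.2.1.2) := ⟨_, rfl⟩
  have hlog : Real.log (2 * 3 + 1) = Real.log 7 := by norm_num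
  rw [← hlog]
  refine Pool.LA91.CH_near hq u₂ (fun ω => (u₁ ω, ((z₁' (slam F w ω), z₂' (slam F w ω)), y ω))) κ
    (fun ω => ¬ ∀ b : Option (Fin m) → ℝ, (∀ o, |b o - bt F ω o| ≤ 2 / 2 ^ u) →
      |eval b (G₁ (z₁' (slam F w ω)) - G₂ (z₂' (slam F w ω)))| ≤
        Real.exp (C₁ * (θ + e + 1) / η) * (1 / 2 ^ P₁ + 1 / 2 ^ P₂)) key hM (by norm_num) ?_ ?_
  · refine le_trans ?_ hc
    exact_mod_cast cnt_cond_le F.isLaw u₂ A
  · intro ω hω hgood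
    rw [not_not] at hgood
    have hAω := hqA ω hω
    have h3 := hchg J F I (G₁ (z₁' (slam F w ω)) - G₂ (z₂' (slam F w ω))) u a a B ω
      ((MvPolynomial.totalDegree_sub _ _).trans (max_le (h₁.deg _) (h₂.deg _)))
      (fun b b' hb hb' => by
        rw [map_sub, map_sub, h₁.dep _ b b' hb hb', h₂.dep _ b b' hb hb']) hua
      (fun b hb => (hgood b hb).trans hbb)
    have h4 := ojet_sub F k 0 (G₁ (z₁' (slam F w ω))) (G₂ (z₂' (slam F w ω))) ω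
    have h5 : κ (u₁ ω, ((z₁' (slam F w ω), z₂' (slam F w ω)), y ω)) = (u₁ ω : ℝ) * (s₂ / s₁) +
        s₂ * jet 0 (G₁ (z₁' (slam F w ω)) - G₂ (z₂' (slam F w ω)))
        (Pool.LA91.bx I J a (F.T ω) (fun i => if i ∈ I then F.X a ω i else 0))
        (vx I a (fun i => if i ∈ I then F.D a ω i else 0)) := by
      rw [hκ]
      simp only [hφ ω, jet_zero]
    rw [h5]
    obtain ⟨o₁, ho₁⟩ : ∃ o₁ : ℝ, o₁ = ojet F k 0 (G₁ (z₁' (slam F w ω))) ω := ⟨_, rfl⟩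
    obtain ⟨o₂, ho₂⟩ : ∃ o₂ : ℝ, o₂ = ojet F k 0 (G₂ (z₂' (slam F w ω))) ω := ⟨_, rfl⟩
    obtain ⟨Je, hJe⟩ : ∃ Je : ℝ, Je = jet 0 (G₁ (z₁' (slam F w ω)) - G₂ (z₂' (slam F w ω)))
      (bt F ω) (bd F ω) := ⟨_, rfl⟩
    obtain ⟨Jf, hJf⟩ : ∃ Jf : ℝ, Jf = jet 0 (G₁ (z₁' (slam F w ω)) - G₂ (z₂' (slam F w ω)))
        (Pool.LA91.bx I J a (F.T ω) (fun i => if i ∈ I then F.X a ω i else 0))
        (vx I a (fun i => if i ∈ I then F.D a ω i else 0)) := ⟨_, rfl⟩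
    rw [← ho₁, ← ho₂, ← hJe] at h4
    rw [← hJe, ← hJf] at h3
    rw [← hJf, hu₁ ω hAω, hu₂ ω hAω, ← ho₁, ← ho₂]
    have p1 : 0 < s₁ := lt_of_lt_of_le p2 hn
    -- the first floor
    have a1 := Int.floor_le (s₁ * o₁)
    have a2 := Int.lt_floor_add_one (s₁ * o₁)
    have a3 := Int.floor_le (s₂ * o₂)
    have a4 := Int.lt_floor_add_one (s₂ * o₂)
    have b1 : |(⌊s₁ * o₁⌋ : ℝ) * (s₂ / s₁) - s₂ * o₁| ≤ 1 := by
      have e1 : (⌊s₁ * o₁⌋ : ℝ) * (s₂ / s₁) - s₂ * o₁ =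
          ((⌊s₁ * o₁⌋ : ℝ) - s₁ * o₁) * (s₂ / s₁) := by
        field_simp
      have e2 : s₂ / s₁ ≤ 1 := (div_le_one p1).2 hn
      rw [e1, abs_mul, abs_of_pos (div_pos p2 p1)]
      have e3 : |(⌊s₁ * o₁⌋ : ℝ) - s₁ * o₁| ≤ 1 := by
        rw [abs_le]
        constructor <;> linarith
      exact mul_le_one₀ e3 (div_pos p2 p1).le e2
    have b2 : |s₂ * Je - s₂ * Jf| ≤ 1 := by
      rw [← mul_sub, abs_mul, abs_of_pos p2]
      refine le_trans (mul_le_mul_of_nonneg_left ?_ p2.le) hsm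
      refine h3.trans ?_
      rw [pow_zero, mul_one]
      have q1 : (0 : ℝ) ≤ 2 ^ u / 2 ^ a := by positivity
      have q2 : (1 : ℝ) / 2 ^ a ≤ 2 ^ u / 2 ^ a :=
        div_le_div_of_nonneg_right (one_le_pow₀ (by norm_num)) (by positivity)
      refine mul_le_mul (mul_le_mul_of_nonneg_right m2 hB0) (by linarith) (by positivity)
        (mul_nonneg (by linarith [hC₂.trans m2]) hB0)
    have b3 : s₂ * o₂ = s₂ * o₁ + s₂ * Je := by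
      rw [h4]
      ring
    rw [abs_le] at b1 b2 ⊢
    constructor <;> linarith [b1.1, b1.2, b2.1, b2.2]

/-- **Change of the charts**, order `0`, without the direction. -/
theorem few_jet0 {S : PCl m} {C₀ : ℝ} (htm : TmC S C₀) {I : Finset (Fin m)} {k : Fin m}
    {w w₁ w₂ p₁ p₂ N₁ N₂ p₀ u₀ : ℝ} (hw₁ : w₁ ≤ w) (hw₂ : w₂ ≤ w) (hw : w ≤ 1) (hwu : w ≤ u₀)
    (hu0 : 0 ≤ u₀) (hu1 : u₀ < p₀) (hp0 : p₀ ≤ 1) (hful : ∀ u : ℝ, u₀ < u → u < 1 → Ful S I w u)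
    {α γ : ∀ J : ℕ, Fam m J → Type} {f : ∀ (J : ℕ) (F : Fam m J), F.Ω → α J F}
    {y : ∀ (J : ℕ) (F : Fam m J), F.Ω → γ J F}
    (hf : ∀ (J : ℕ) (F : Fam m J), ∃ φ : α J F → PtT F, ∀ ω, ptr F J ω = φ (f J F ω))
    (hy : Kn0 I p₀ y) (hN : N₂ ≤ N₁)
    {σ : ℝ} (hσ0 : 0 < σ) (hlt : N₂ + σ ≤ min p₁ p₂ + (p₀ - u₀))
    {h : ℝ} (hh : 0 < h) :
    F1 S f (vg w) y (qJet m I k 0 w₁ p₁ N₁) (qJet m I k 0 w₂ p₂ N₂) (σ / 4) h := by
  classical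
  obtain ⟨p, hp⟩ : ∃ p, p = min p₁ p₂ := ⟨_, rfl⟩
  obtain ⟨L, hL⟩ : ∃ L, L = p₀ - u₀ := ⟨_, rfl⟩
  rw [← hp, ← hL] at hlt
  have hp1 : p ≤ p₁ := by rw [hp]; exact min_le_left _ _
  have hp2 : p ≤ p₂ := by rw [hp]; exact min_le_right _ _
  have hL2 : L ≤ p₀ - u₀ := by rw [hL]
  obtain ⟨δ, hδ⟩ : ∃ δ : ℝ, δ = min (σ / 8) ((p₀ - u₀) / 2) := ⟨_, rfl⟩
  have hδ0 : 0 < δ := by
    rw [hδ]
    refine lt_min (by positivity) (by linarith)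
  have hδ1 : δ ≤ σ / 8 := by rw [hδ]; exact min_le_left _ _
  have hδ2 : δ ≤ (p₀ - u₀) / 2 := by rw [hδ]; exact min_le_right _ _
  intro K
  obtain ⟨C, hC, hfam⟩ := few_fam0 m K
  have hC0 : 0 < C := by linarith
  have hl2 : 0 < Real.log 2 := Real.log_pos one_lt_two
  obtain ⟨η, hη⟩ : ∃ η : ℝ, η = min 1 (h / (2 * ((K : ℝ) + 1))) := ⟨_, rfl⟩
  have hη0 : 0 < η := by
    rw [hη]
    exact lt_min one_pos (by positivity)
  have hη1 : η ≤ 1 := by rw [hη]; exact min_le_left _ _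
  have hηK : η * K ≤ h / 2 := by
    have e1 : η ≤ h / (2 * ((K : ℝ) + 1)) := by rw [hη]; exact min_le_right _ _
    have e2 : (K : ℝ) * (h / (2 * ((K : ℝ) + 1))) ≤ h / 2 := by
      rw [mul_div_assoc', div_le_iff₀ (by positivity)]
      have : (0 : ℝ) ≤ K := Nat.cast_nonneg K
      nlinarith
    have e3 := mul_le_mul_of_nonneg_left e1 (Nat.cast_nonneg (α := ℝ) K)
    linarith
  obtain ⟨ψ, hψ⟩ : ∃ ψ : ℝ, ψ = η * min (σ / 8) ((p₀ - u₀) / 2) * Real.log 2 / (3 * C) := ⟨_, rfl⟩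
  have hmn0 : 0 < min (σ / 8) ((p₀ - u₀) / 2) := lt_min (by linarith) (by linarith)
  have hψ0 : 0 < ψ := by
    rw [hψ]
    positivity
  have hψ1 : C * (3 * ψ) / η = min (σ / 8) ((p₀ - u₀) / 2) * Real.log 2 := by
    rw [hψ]
    field_simp
  -- the limits
  obtain ⟨J₃, hJ₃⟩ := exists_nat_ge (Real.log (16 * C) / (σ / 8 * Real.log 2) + 1 / ψ +
    1 / ((p₀ - u₀) / 2) + (Real.log 2 + Real.log 7) / (h / 2))
  refine Bas.mono J₃ ((hful (u₀ + δ) (by linarith) (by linarith) ψ hψ0).and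
    (Pool.GRW.tmc_bas htm hψ0)) ?_
  rintro J hJ F A ⟨hF, hA, hT⟩ u u' ⟨-, V₁, z₁, z₁', G₁, hl₁, hu₁⟩ ⟨hc, V₂, z₂, z₂', G₂, hl₂, hu₂⟩
  have hJ3 : (J₃ : ℝ) ≤ J := by exact_mod_cast hJ
  have hJ0 : (0 : ℝ) ≤ J := Nat.cast_nonneg J
  have hl12 : 0 ≤ Real.log (16 * C) := Real.log_nonneg (by linarith)
  have hl7 : 0 < Real.log 7 := Real.log_pos (by norm_num)
  have t1 : 0 ≤ Real.log (16 * C) / (σ / 8 * Real.log 2) := by positivity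
  have t2 : 0 < 1 / ψ := by positivity
  have t3 : 0 < 1 / ((p₀ - u₀) / 2) := div_pos one_pos (by linarith)
  have t4 : 0 < (Real.log 2 + Real.log 7) / (h / 2) := by positivity
  have f1 : Real.log (16 * C) ≤ σ / 8 * Real.log 2 * J := by
    have : Real.log (16 * C) / (σ / 8 * Real.log 2) ≤ J := by linarith
    rw [div_le_iff₀ (by positivity)] at this
    linarith
  have f2 : 1 ≤ ψ * J := by
    have : 1 / ψ ≤ J := by linarith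
    rw [div_le_iff₀ hψ0] at this
    linarith
  have f3 : 1 ≤ (p₀ - u₀) / 2 * J := by
    have : 1 / ((p₀ - u₀) / 2) ≤ J := by linarith
    rw [div_le_iff₀ (by linarith)] at this
    linarith
  have f4 : Real.log 2 + Real.log 7 ≤ h / 2 * J := by
    have : (Real.log 2 + Real.log 7) / (h / 2) ≤ J := by linarith
    rw [div_le_iff₀ (by positivity)] at this
    linarith
  -- the integers
  have hwJ : ⌊w * J⌋₊ ≤ J := floor_le hw J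
  have hw1J : ⌊w₁ * J⌋₊ ≤ ⌊w * J⌋₊ := Nat.floor_le_floor (mul_le_mul_of_nonneg_right hw₁ hJ0)
  have hw2J : ⌊w₂ * J⌋₊ ≤ ⌊w * J⌋₊ := Nat.floor_le_floor (mul_le_mul_of_nonneg_right hw₂ hJ0)
  have huf : ((⌊(u₀ + δ) * J⌋₊ : ℕ) : ℝ) ≤ (u₀ + δ) * J := Nat.floor_le (by positivity)
  have hua1 : ⌊(u₀ + δ) * J⌋₊ + 1 ≤ ⌊p₀ * J⌋₊ := by
    refine Nat.le_floor ?_
    push_cast
    have : (u₀ + δ) * J ≤ (p₀ - (p₀ - u₀) / 2) * J :=
      mul_le_mul_of_nonneg_right (by linarith) hJ0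
    linarith
  have haJ : ⌊p₀ * J⌋₊ ≤ J := floor_le hp0 J
  have huJ1 : ⌊(u₀ + δ) * J⌋₊ ≤ J := by omega
  have hl₁' := hl₁.win hw1J hwJ
  have hl₂' := hl₂.win hw2J hwJ
  obtain ⟨y₁, hy₁⟩ : ∃ y₁ : LnT F → V₁, y₁ = fun s =>
    z₁' (s.1, s.2.1, s.2.2 / 2 ^ (⌊w * J⌋₊ - ⌊w₁ * J⌋₊)) := ⟨_, rfl⟩
  obtain ⟨y₂, hy₂⟩ : ∃ y₂ : LnT F → V₂, y₂ = fun s =>
    z₂' (s.1, s.2.1, s.2.2 / 2 ^ (⌊w * J⌋₊ - ⌊w₂ * J⌋₊)) := ⟨_, rfl⟩
  rw [← hy₁] at hl₁'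
  rw [← hy₂] at hl₂'
  have g1 : ∀ ω, y₁ (slam F ⌊w * J⌋₊ ω) = z₁' (slam F ⌊w₁ * J⌋₊ ω) := fun ω => by
    rw [hy₁]
    show z₁' ((slam F ⌊w * J⌋₊ ω).1, (slam F ⌊w * J⌋₊ ω).2.1,
      (slam F ⌊w * J⌋₊ ω).2.2 / 2 ^ (⌊w * J⌋₊ - ⌊w₁ * J⌋₊)) = _
    rw [← slam_coarse F hw1J hwJ ω]
  have g2 : ∀ ω, y₂ (slam F ⌊w * J⌋₊ ω) = z₂' (slam F ⌊w₂ * J⌋₊ ω) := fun ω => by
    rw [hy₂]
    show z₂' ((slam F ⌊w * J⌋₊ ω).1, (slam F ⌊w * J⌋₊ ω).2.1,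
      (slam F ⌊w * J⌋₊ ω).2.2 / 2 ^ (⌊w * J⌋₊ - ⌊w₂ * J⌋₊)) = _
    rw [← slam_coarse F hw2J hwJ ω]
  refine ⟨V₁ × V₂, fun ω => (y₁ (slam F ⌊w * J⌋₊ ω), y₂ (slam F ⌊w * J⌋₊ ω)), ⟨?_, ?_⟩, ?_⟩
  · obtain ⟨φ, hφ⟩ := hf J F
    refine ⟨fun a => (z₁ (φ a), z₂ (φ a)), fun ω hω => ?_⟩
    show (y₁ (slam F ⌊w * J⌋₊ ω), y₂ (slam F ⌊w * J⌋₊ ω)) = (z₁ (φ (f J F ω)), z₂ (φ (f J F ω)))
    rw [← hφ ω, hl₁'.cls ω hω, hl₂'.cls ω hω]
  · exact ⟨fun s => (y₁ s, y₂ s), fun ω _ => rfl⟩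
  have hexp : C * (ψ * J + ψ * J + 1) / η ≤ min (σ / 8) ((p₀ - u₀) / 2) * Real.log 2 * J := by
    rw [← hψ1]
    have e1 : C * (ψ * J + ψ * J + 1) ≤ C * (3 * ψ) * J := by nlinarith
    calc C * (ψ * J + ψ * J + 1) / η ≤ C * (3 * ψ) * J / η := div_le_div_of_nonneg_right e1 hη0.le
      _ = _ := by ring
  have key := hfam J F A I k ⌊w * J⌋₊ ⌊(u₀ + δ) * J⌋₊ ⌊p₀ * J⌋₊ ⌊(p₁ - σ / 4) * J⌋₊
    ⌊(p₂ - σ / 4) * J⌋₊ (2 ^ (N₁ * J)) (2 ^ (N₂ * J)) V₁ V₂ z₁ y₁ G₁ z₂ y₂ G₂ u u' (γ J F) (y J F)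
    (ψ * J) (ψ * J) η (K * J) hA (by linarith) hl₁' hl₂'
    (Nat.floor_le_floor (mul_le_mul_of_nonneg_right (by linarith) hJ0)) hua1 huJ1 (by positivity)
    (by positivity) hη0 hη1 (by positivity) ?_ ?_ (Real.rpow_pos_of_pos (by norm_num) _)
    (Real.rpow_le_rpow_of_exponent_le (by norm_num) (mul_le_mul_of_nonneg_right hN hJ0)) ?_
    (hy J F)
    (fun ω hω => by rw [g1 ω]; exact hu₁ ω hω) (fun ω hω => by rw [g2 ω]; exact hu₂ ω hω) hc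
  · refine key.trans ?_
    have : η * (K * J) ≤ h / 2 * J := by
      calc η * (K * J) = η * K * J := by ring
        _ ≤ h / 2 * J := mul_le_mul_of_nonneg_right hηK hJ0
    linarith
  · have h3 := hF (V₁ × V₂) (fun x => (z₁ x, z₂ x)) (fun x => (y₁ x, y₂ x)) (fun ω hω => by
      rw [hl₁'.cls ω hω, hl₂'.cls ω hω])
    exact h3
  · refine hexp.trans ?_
    rw [Nat.cast_sub huJ1]
    calc min (σ / 8) ((p₀ - u₀) / 2) * Real.log 2 * J ≤ (p₀ - u₀) / 2 * Real.log 2 * J :=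
          mul_le_mul_of_nonneg_right (mul_le_mul_of_nonneg_right (min_le_right _ _) hl2.le) hJ0
      _ = ((p₀ - u₀) / 2 * J) * Real.log 2 := by ring
      _ ≤ ((J : ℝ) - (⌊(u₀ + δ) * J⌋₊ : ℕ)) * Real.log 2 := by
        refine mul_le_mul_of_nonneg_right ?_ hl2.le
        have h1 : (u₀ + δ) * J ≤ (p₀ - (p₀ - u₀) / 2) * J :=
          mul_le_mul_of_nonneg_right (by linarith) hJ0
        have h2 : p₀ * J ≤ 1 * J := mul_le_mul_of_nonneg_right hp0 hJ0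
        linarith
  · -- the exponents
    have a2 : Real.exp (C * (ψ * J + ψ * J + 1) / η) ≤ 2 ^ (σ / 8 * J) := by
      rw [← exp_p2]
      refine Real.exp_le_exp.2 (hexp.trans ?_)
      have : min (σ / 8) ((p₀ - u₀) / 2) * Real.log 2 * J ≤ σ / 8 * Real.log 2 * J :=
        mul_le_mul_of_nonneg_right (mul_le_mul_of_nonneg_right (min_le_left _ _) hl2.le) hJ0
      linarith
    have a3 : 1 / (2 : ℝ) ^ ⌊(p₁ - σ / 4) * J⌋₊ ≤ 2 * 2 ^ (-((p - σ / 4) * J)) := by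
      refine (ip2_le _).trans (mul_le_mul_of_nonneg_left ?_ (by norm_num))
      refine Real.rpow_le_rpow_of_exponent_le (by norm_num) ?_
      have : (p - σ / 4) * J ≤ (p₁ - σ / 4) * J := mul_le_mul_of_nonneg_right (by linarith) hJ0
      linarith
    have a4 : 1 / (2 : ℝ) ^ ⌊(p₂ - σ / 4) * J⌋₊ ≤ 2 * 2 ^ (-((p - σ / 4) * J)) := by
      refine (ip2_le _).trans (mul_le_mul_of_nonneg_left ?_ (by norm_num))
      refine Real.rpow_le_rpow_of_exponent_le (by norm_num) ?_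
      have : (p - σ / 4) * J ≤ (p₂ - σ / 4) * J := mul_le_mul_of_nonneg_right (by linarith) hJ0
      linarith
    have a5 : (2 : ℝ) ^ ⌊(u₀ + δ) * J⌋₊ ≤ 2 ^ ((u₀ + δ) * J) := p2_le (by positivity)
    have a6 : (2 : ℝ) ^ ⌊(u₀ + δ) * J⌋₊ / 2 ^ ⌊p₀ * J⌋₊ ≤ 2 * 2 ^ (-((L - δ) * J)) := by
      rw [div_eq_mul_one_div]
      have e1 := ip2_le (p₀ * J)
      have e2 : (0 : ℝ) < 2 ^ ((u₀ + δ) * J) := Real.rpow_pos_of_pos (by norm_num) _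
      calc (2 : ℝ) ^ ⌊(u₀ + δ) * J⌋₊ * (1 / 2 ^ ⌊p₀ * J⌋₊)
          ≤ 2 ^ ((u₀ + δ) * J) * (2 * 2 ^ (-(p₀ * J))) :=
            mul_le_mul a5 e1 (by positivity) e2.le
        _ = 2 * 2 ^ ((u₀ + δ) * J + -(p₀ * J)) := by
            rw [Real.rpow_add (by norm_num)]
            ring
        _ ≤ 2 * 2 ^ (-((L - δ) * J)) := by
            refine mul_le_mul_of_nonneg_left ?_ (by norm_num)
            refine Real.rpow_le_rpow_of_exponent_le (by norm_num) ?_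
            have : (u₀ + δ) * J ≤ (p₀ - (L - δ)) * J :=
              mul_le_mul_of_nonneg_right (by linarith) hJ0
            linarith
    have b1 : (0 : ℝ) < 2 ^ (-((p - σ / 4) * J)) := Real.rpow_pos_of_pos (by norm_num) _
    have b2 : (0 : ℝ) < 2 ^ (-((L - δ) * J)) := Real.rpow_pos_of_pos (by norm_num) _
    have b3 : (0 : ℝ) < 2 ^ (σ / 8 * J) := Real.rpow_pos_of_pos (by norm_num) _
    have b4 : (0 : ℝ) < 2 ^ (N₂ * J) := Real.rpow_pos_of_pos (by norm_num) _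
    have c1 : Real.exp (C * (ψ * J + ψ * J + 1) / η) *
        (1 / 2 ^ ⌊(p₁ - σ / 4) * J⌋₊ + 1 / 2 ^ ⌊(p₂ - σ / 4) * J⌋₊) ≤
        2 ^ (σ / 8 * J) * (4 * 2 ^ (-((p - σ / 4) * J))) := by
      refine mul_le_mul a2 (by linarith) (by positivity) b3.le
    have c2 : 2 * ((2 : ℝ) ^ ⌊(u₀ + δ) * J⌋₊ / 2 ^ ⌊p₀ * J⌋₊) ≤
        4 * 2 ^ (-((L - δ) * J)) := by linarith
    calc (2 : ℝ) ^ (N₂ * J) * (C * (Real.exp (C * (ψ * J + ψ * J + 1) / η) *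
          (1 / 2 ^ ⌊(p₁ - σ / 4) * J⌋₊ + 1 / 2 ^ ⌊(p₂ - σ / 4) * J⌋₊)) *
          (2 * (2 ^ ⌊(u₀ + δ) * J⌋₊ / 2 ^ ⌊p₀ * J⌋₊)))
        ≤ 2 ^ (N₂ * J) * (C * (2 ^ (σ / 8 * J) * (4 * 2 ^ (-((p - σ / 4) * J)))) *
          (4 * 2 ^ (-((L - δ) * J)))) := by
          refine mul_le_mul_of_nonneg_left ?_ b4.le
          refine mul_le_mul ?_ c2 (by positivity) (by positivity)
          exact mul_le_mul_of_nonneg_left c1 hC0.le
      _ = 16 * C * (2 ^ (N₂ * J) * 2 ^ (σ / 8 * J) * 2 ^ (-((p - σ / 4) * J)) *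
          2 ^ (-((L - δ) * J))) := by ring
      _ = 16 * C * 2 ^ (N₂ * J + σ / 8 * J + -((p - σ / 4) * J) + -((L - δ) * J)) := by
          rw [Real.rpow_add (by norm_num), Real.rpow_add (by norm_num),
            Real.rpow_add (by norm_num)]
      _ ≤ 16 * C * 2 ^ (-(σ / 8 * J)) := by
          refine mul_le_mul_of_nonneg_left ?_ (by positivity)
          refine Real.rpow_le_rpow_of_exponent_le (by norm_num) ?_
          have e1 : N₂ * J + σ / 8 * J + -((p - σ / 4) * J) + -((L - δ) * J) =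
              (N₂ - (p + L) + σ / 8 + σ / 4 + δ) * J := by
            ring
          rw [e1]
          have : (N₂ - (p + L) + σ / 8 + σ / 4 + δ) * J ≤ (-(σ / 8)) * J :=
            mul_le_mul_of_nonneg_right (by linarith) hJ0
          linarith
      _ ≤ 1 := by
          have e1 : 16 * C = Real.exp (Real.log (16 * C)) := (Real.exp_log (by positivity)).symm
          rw [← exp_p2, e1, ← Real.exp_add, Real.exp_le_one_iff]
          linarith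

section chain

variable {α γ : ∀ J : ℕ, Fam m J → Type} {f : ∀ (J : ℕ) (F : Fam m J), F.Ω → α J F}
  {y : ∀ (J : ℕ) (F : Fam m J), F.Ω → γ J F}

/-- **A chain of windows**, order `0`. -/
theorem chain0 {S : PCl m} {C₀ : ℝ} (htm : TmC S C₀) {I : Finset (Fin m)} {κ : Fin m}
    {a r p₀ N ρ : ℝ} (hr : 0 ≤ r) (ha : a < 1) (hap : a < p₀) (hp0 : p₀ ≤ 1)
    (hf : ∀ (J : ℕ) (F : Fam m J), ∃ φ : α J F → PtT F, ∀ ω, ptr F J ω = φ (f J F ω))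
    (hy : Kn0 I p₀ y) (hρ : 0 < ρ) (b P : ℕ → ℝ) : ∀ n : ℕ,
    (∀ i ≤ n, 0 ≤ b i) → (∀ i ≤ n, b i ≤ a) → (∀ i ≤ n, Att S I κ (b i) (P i) r) →
    (∀ i ≤ n, ∀ u : ℝ, b i < u → u < 1 → Ful S I (b i) u) → N + ρ ≤ P 0 →
    (∀ i < n, N + ρ ≤ min (P i) (P (i + 1)) + (p₀ - max (b i) (b (i + 1)))) →
    ∀ h : ℝ, 0 < h → F0 S f (vg a) y (qJet m I κ 0 (b n) (P n) N) (ρ / 4) h := by
  intro n
  induction n with
  | zero =>
    intro h0 h1 h2 h3 h4 h5 h hh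
    refine few0_room htm (h0 0 le_rfl) (lt_of_le_of_lt (h1 0 le_rfl) ha) hρ ?_ f (vg a) y hh
    rw [Nat.cast_zero, zero_mul, add_zero]
    exact h4
  | succ n ih =>
    intro h0 h1 h2 h3 h4 h5 h hh
    have e1 := ih (fun i hi => h0 i (by omega)) (fun i hi => h1 i (by omega))
      (fun i hi => h2 i (by omega)) (fun i hi => h3 i (by omega)) h4
      (fun i hi => h5 i (by omega)) (h / 2) (half_pos hh)
    have hm1 : max (b n) (b (n + 1)) ≤ a := max_le (h1 n (by omega)) (h1 (n + 1) le_rfl)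
    have e2 := few_jet0 (y := y) htm (I := I) (k := κ)
      (w := max (b n) (b (n + 1))) (w₁ := b n) (w₂ := b (n + 1)) (p₁ := P n) (p₂ := P (n + 1))
      (N₁ := N) (N₂ := N) (p₀ := p₀) (u₀ := max (b n) (b (n + 1)))
      (le_max_left _ _) (le_max_right _ _) (hm1.trans ha.le) le_rfl
      ((h0 n (by omega)).trans (le_max_left _ _)) (lt_of_le_of_lt hm1 hap) hp0 (by
        intro u hu hu1
        rcases max_cases (b n) (b (n + 1)) with ⟨e, -⟩ | ⟨e, -⟩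
        · rw [e] at hu ⊢
          exact h3 n (by omega) u hu hu1
        · rw [e] at hu ⊢
          exact h3 (n + 1) le_rfl u hu hu1) hf hy le_rfl hρ (h5 n (by omega)) (half_pos hh)
    have e3 := F0.trans htm (exs_jet hr (h2 n (by omega))) (by positivity) e1
      (e2.up hm1 ha.le)
    have e4 : h / 2 + h / 2 = h := by ring
    rwa [e4] at e3

/-- **The own height to `P w + q` digits is few bits**, without the direction. -/
theorem jets0 {S : PCl m} {C₀ : ℝ} (htm : TmC S C₀) {I : Finset (Fin m)} {κ : Fin m}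
    {P : ℝ → ℝ} {r b₀ a S₁ S₂ τ w q lam ρ : ℝ} (hr : 0 ≤ r) (hb₀ : 0 ≤ b₀) (hbw : b₀ ≤ w)
    (hwa : w ≤ a) (ha : a < w + lam) (hwl : w + lam ≤ 1)
    (hP : Prof S I κ P r b₀ a S₁ S₂ τ)
    (hf : ∀ (J : ℕ) (F : Fam m J), ∃ φ : α J F → PtT F, ∀ ω, ptr F J ω = φ (f J F ω))
    (hy : Kn0 I (w + lam) y) (hρ : 0 < ρ) (hτ : 0 ≤ τ) (hlam : q + ρ + 2 * τ < lam)
    (hS : 1 ≤ S₁) (hj2 : q + ρ + τ ≤ a - w) {h : ℝ} (hh : 0 < h) :
    F0 S f (vg a) y (qJet m I κ 0 w (P w) (P w + q)) (ρ / 4) h := by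
  obtain ⟨n, hn⟩ := exists_nat_ge (S₁ * (a - w) / (lam - (q + ρ + 2 * τ)) + 1)
  have hd : 0 < lam - (q + ρ + 2 * τ) := by linarith
  have hwb : 0 ≤ a - w := by linarith
  have hS₁ : 0 ≤ S₁ := by linarith
  have t1 : 0 ≤ S₁ * (a - w) / (lam - (q + ρ + 2 * τ)) := by positivity
  have hn0 : (0 : ℝ) < n := by linarith
  have hmesh : S₁ * ((a - w) / n) ≤ lam - (q + ρ + 2 * τ) := by
    rw [mul_div_assoc', div_le_iff₀ hn0]
    have : S₁ * (a - w) / (lam - (q + ρ + 2 * τ)) ≤ n := by linarith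
    rw [div_le_iff₀ hd] at this
    linarith
  obtain ⟨μ, hμ⟩ : ∃ μ : ℝ, μ = (a - w) / n := ⟨_, rfl⟩
  have hμ0 : 0 ≤ μ := by
    rw [hμ]
    positivity
  have hnμ : n * μ = a - w := by
    rw [hμ]
    field_simp
  rw [← hμ] at hmesh
  obtain ⟨b, hb⟩ : ∃ b : ℕ → ℝ, b = fun i : ℕ => a - i * μ := ⟨_, rfl⟩
  have hb0 : b 0 = a := by
    rw [hb]
    simp
  have hbn : b n = w := by
    rw [hb]
    dsimp only
    linarith
  have hbi : ∀ i ≤ n, w ≤ b i ∧ b i ≤ a := by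
    intro i hi
    rw [hb]
    dsimp only
    have h1 : (0 : ℝ) ≤ i * μ := by positivity
    have h2 : (i : ℝ) * μ ≤ n * μ := mul_le_mul_of_nonneg_right (by exact_mod_cast hi) hμ0
    constructor <;> linarith
  have hbs : ∀ i : ℕ, b (i + 1) = b i - μ := by
    intro i
    rw [hb]
    push_cast
    ring
  have key := chain0 (y := y) htm (I := I) (κ := κ) (a := a) (r := r) (p₀ := w + lam)
    (N := P w + q) (ρ := ρ) hr (by linarith) ha hwl hf hy hρ b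
    (fun i => P (b i)) n (fun i hi => hb₀.trans (hbw.trans (hbi i hi).1))
    (fun i hi => (hbi i hi).2)
    (fun i hi => hP.att _ (hbw.trans (hbi i hi).1) (hbi i hi).2)
    (fun i hi => hP.ful _ (hbw.trans (hbi i hi).1) (hbi i hi).2) ?_ ?_ h hh
  · simp only [hbn] at key
    exact key
  · have h1 := hP.lo w a hbw hwa le_rfl
    simp only [hb0]
    have h2 : 1 * (a - w) ≤ S₁ * (a - w) := mul_le_mul_of_nonneg_right hS hwb
    linarith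
  · intro i hi
    have h2 := hbi i hi.le
    have h3 := hbi (i + 1) hi
    have e1 : max (b i) (b (i + 1)) = b i := by
      rw [hbs]
      exact max_eq_left (by linarith)
    rw [e1]
    have h4 := hP.lo w (b i) hbw h2.1 h2.2
    have h5 := hP.lo w (b (i + 1)) hbw h3.1 h3.2
    have h7 : b (i + 1) = b i - μ := hbs i
    have h8 : 1 * (b i - w) ≤ S₁ * (b i - w) :=
      mul_le_mul_of_nonneg_right hS (by linarith [h2.1])
    rcases min_cases (P (b i)) (P (b (i + 1))) with ⟨e, -⟩ | ⟨e, -⟩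
    · rw [e]
      linarith
    · rw [e]
      rw [h7] at h5 ⊢
      linarith

end chain

end Pool.OWN68
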