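import Pool.Agent.H68.OWN.Jd
import Pool.Agent.H91.LA.Own
import Pool.Agent.H50.K2.Piece

/-!
# The own path of a nonfull coordinate is few bits given the ball: classes

`F0`, `F1`: few bits with an error `η` for labels of the accuracy `e`. `JetH`: all own jets of order
different from `k` are few bits. `NfH`: the rows of the own height are not full, given the label, `b`
and the time. `path_cls`: then the whole own path over the labels of the window `w` (the context and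
all coefficients, to the last digit) is few bits given a closed function at the ball and `y`.
`jet_cls`: the same for the quantity `qJet` of order `k`.
-/

set_option autoImplicit false

namespace Pool.OWN68

open Finset Real MvPolynomial
open Pool.Agent.H49.Ent Pool.Agent.H32.Dense Pool.STK Pool.KA Pool.KSAT Pool.K2S Pool.PB Pool.GEN
open Pool.S6C Pool.RCD Pool.LA91
open Pool.GRD (LbP)

variable {m : ℕ}

section defs

variable {U U' : Type} {α β γ : ∀ J : ℕ, Fam m J → Type}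

/-- Few bits given a closed function and `y`, with the error `η`, for the accuracy `e`. -/
def F0 (S : PCl m) (f : ∀ (J : ℕ) (F : Fam m J), F.Ω → α J F)
    (g : ∀ (J : ℕ) (F : Fam m J), F.Ω → β J F) (y : ∀ (J : ℕ) (F : Fam m J), F.Ω → γ J F)
    (Q : Qt m U) (e η : ℝ) : Prop :=
  ∀ K : ℕ, Bas S (fun J F A => ∀ u, Q.P K e J F A u → ∃ (V : Type) (z : F.Ω → V),
    Cl2 (f J F) (g J F) A z ∧
      CH (Pool.Agent.H49.Ent.cond F.p A True) u (fun ω => (z ω, y J F ω)) ≤ η * J)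

/-- Few bits given another quantity, with the error `η`, for the accuracy `e`. -/
def F1 (S : PCl m) (f : ∀ (J : ℕ) (F : Fam m J), F.Ω → α J F)
    (g : ∀ (J : ℕ) (F : Fam m J), F.Ω → β J F) (y : ∀ (J : ℕ) (F : Fam m J), F.Ω → γ J F)
    (Q : Qt m U) (Q' : Qt m U') (e η : ℝ) : Prop :=
  ∀ K : ℕ, Bas S (fun J F A => ∀ u u', Q.P K e J F A u → Q'.P K e J F A u' →
    ∃ (V : Type) (z : F.Ω → V), Cl2 (f J F) (g J F) A z ∧
      CH (Pool.Agent.H49.Ent.cond F.p A True) u' (fun ω => (u ω, (z ω, y J F ω))) ≤ η * J)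

variable {S : PCl m} {f : ∀ (J : ℕ) (F : Fam m J), F.Ω → α J F}
  {g : ∀ (J : ℕ) (F : Fam m J), F.Ω → β J F} {y : ∀ (J : ℕ) (F : Fam m J), F.Ω → γ J F}
  {Q : Qt m U} {Q' : Qt m U'} {e e' η η' : ℝ}

theorem F0.mono (h : F0 S f g y Q e η) (he : e' ≤ e) (hη : η ≤ η') : F0 S f g y Q e' η' := by
  intro K
  refine Bas.mono 0 (h K) ?_
  rintro J - F A h1 u hu
  obtain ⟨V, z, hz, h2⟩ := h1 u (Q.mono le_rfl he hu)
  exact ⟨V, z, hz, h2.trans (mul_le_mul_of_nonneg_right hη (Nat.cast_nonneg J))⟩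

theorem F1.mono (h : F1 S f g y Q Q' e η) (he : e' ≤ e) (hη : η ≤ η') :
    F1 S f g y Q Q' e' η' := by
  intro K
  refine Bas.mono 0 (h K) ?_
  rintro J - F A h1 u u' hu hu'
  obtain ⟨V, z, hz, h2⟩ := h1 u u' (Q.mono le_rfl he hu) (Q'.mono le_rfl he hu')
  exact ⟨V, z, hz, h2.trans (mul_le_mul_of_nonneg_right hη (Nat.cast_nonneg J))⟩

theorem few0_iff : Few0 S f g y Q ↔ ∀ h : ℝ, 0 < h → ∃ e : ℝ, 0 < e ∧ F0 S f g y Q e h :=
  Iff.rfl

theorem few_iff : Few S f g y Q Q' ↔ ∀ h : ℝ, 0 < h → ∃ e : ℝ, 0 < e ∧ F1 S f g y Q Q' e h :=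
  Iff.rfl

/-- **All own jets of order different from `k` are few bits.** -/
def JetH (S : PCl m) (f : ∀ (J : ℕ) (F : Fam m J), F.Ω → α J F)
    (g : ∀ (J : ℕ) (F : Fam m J), F.Ω → β J F) (y : ∀ (J : ℕ) (F : Fam m J), F.Ω → γ J F)
    (I : Finset (Fin m)) (κ : Fin m) (k : ℕ) (w p q δ : ℝ) : Prop :=
  ∃ (j₀ : ℕ) (η : ℕ → ℝ) (e : ℝ), 0 < e ∧ (∀ j, 0 ≤ η j) ∧ ∑ j ∈ range j₀, η j ≤ δ ∧
    (∀ j < j₀, j ≠ k → F0 S f g y (qJet m I κ j w p (p + q - j * w)) e (η j)) ∧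
    ∀ j ≥ j₀, j ≠ k → ∀ h : ℝ, 0 < h → F0 S f g y (qJet m I κ j w p (p + q - j * w)) e h

end defs

/-- **The rows of the own height are not full**, given the label, `b` and the time. -/
def NfH (S : PCl m) (I : Finset (Fin m)) (κ : Fin m) (w p q r h δ : ℝ)
    {β : ∀ J : ℕ, Fam m J → Type} (b : ∀ (J : ℕ) (F : Fam m J), F.Ω → β J F) : Prop :=
  ∃ e₀ : ℝ, 0 < e₀ ∧ ∀ e : ℝ, 0 < e → e ≤ e₀ → ∀ (K : ℕ) (x : ℝ), 0 ≤ x → x ≤ q →
    Bas S (fun J F A => ∀ (V : Type) (z : PtT F → V) (z' : LnT F → V)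
      (G : V → MvPolynomial (Option (Fin m)) ℝ),
      LbOK F I κ K ⌊e * J⌋₊ J ⌊w * J⌋₊ ⌊(r + e) * J⌋₊ ⌊(p - e) * J⌋₊ A z z' G →
      CH (Pool.Agent.H49.Ent.cond F.p A True)
        (fun ω => ⌊(2 : ℝ) ^ ((p + q) * J) * ojet F κ 0 (G (z' (slam F ⌊w * J⌋₊ ω))) ω⌋)
        (fun ω => (⌊(2 : ℝ) ^ ((p + x) * J) * ojet F κ 0 (G (z' (slam F ⌊w * J⌋₊ ω))) ω⌋,
          (z' (slam F ⌊w * J⌋₊ ω), (b J F ω, F.W ω)))) ≤
        ((1 - h) * (q - x) * Real.log 2 + δ) * J)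

/-! ### Counting -/

/-- The number of the values of a jet over a label with a bounded gradient. -/
theorem cnt_jet (m K j : ℕ) {N e r w : ℝ} (hr : 0 ≤ r) (he : 0 < e) : ∃ M J₁ : ℕ, ∀ J ≥ J₁,
    ∀ (F : Fam m J) (I : Finset (Fin m)) (k : Fin m) (P : ℕ) (A : F.Ω → Prop) (V : Type)
      (z : PtT F → V) (z' : LnT F → V) (G : V → MvPolynomial (Option (Fin m)) ℝ),
      LbOK F I k K ⌊e * J⌋₊ J ⌊w * J⌋₊ ⌊(r + e) * J⌋₊ P A z z' G →
      (cnt F.p (fun ω => ⌊(2 : ℝ) ^ (N * J) *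
        ojet F k j (G (z' (slam F ⌊w * J⌋₊ ω))) ω⌋) A : ℝ) ≤ Real.exp (M * J) := by
  obtain ⟨C, hC, hbig⟩ := ojet_big m K j
  have hC0 : 0 < C := by linarith
  have hl2 : 0 < Real.log 2 := Real.log_pos one_lt_two
  obtain ⟨B, hB⟩ : ∃ B : ℝ, B = |N| + e + j * (r + e) := ⟨_, rfl⟩
  have hB0 : 0 ≤ B := by
    rw [hB]
    positivity
  obtain ⟨M, hM⟩ : ∃ M : ℕ, M = ⌈B * Real.log 2 + 1⌉₊ := ⟨_, rfl⟩
  have hM1 : B * Real.log 2 + 1 ≤ M := by
    rw [hM]
    exact Nat.le_ceil _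
  obtain ⟨J₁, hJ₁⟩ := exists_nat_ge (Real.log (2 * (C + 1) + 1))
  refine ⟨M, J₁, fun J hJ F I k P A V z z' G hlb => ?_⟩
  have hJ0 : (0 : ℝ) ≤ J := Nat.cast_nonneg J
  have hJ1 : (J₁ : ℝ) ≤ J := by exact_mod_cast hJ
  have b1 : (1 : ℝ) ≤ 2 ^ (B * J) := by
    rw [← exp_p2]
    exact Real.one_le_exp (by positivity)
  have h1 := cnt_le_of_abs (p := F.p) (u := fun ω => ⌊(2 : ℝ) ^ (N * J) *
    ojet F k j (G (z' (slam F ⌊w * J⌋₊ ω))) ω⌋) (A := A) (B := (C + 1) * 2 ^ (B * J))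
    (by positivity) (by
      intro ω hω
      have h2 := hbig J F I k _ _ _ _ A V z z' G hlb ω hω
      obtain ⟨o, ho⟩ : ∃ o, o = ojet F k j (G (z' (slam F ⌊w * J⌋₊ ω))) ω := ⟨_, rfl⟩
      rw [← ho] at h2 ⊢
      have h3 : |(2 : ℝ) ^ (N * J) * o| ≤ C * 2 ^ (B * J) := by
        rw [abs_mul, abs_of_pos (by positivity)]
        have a2 : (2 : ℝ) ^ ⌊e * J⌋₊ ≤ 2 ^ (e * J) := p2_le (by positivity)
        have a3 : ((2 : ℝ) ^ ⌊(r + e) * J⌋₊) ^ j ≤ 2 ^ (j * ((r + e) * J)) := by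
          refine (pow_le_pow_left₀ (by positivity) (p2_le (by positivity)) j).trans (le_of_eq ?_)
          rw [← Real.rpow_natCast, ← Real.rpow_mul (by norm_num)]
          congr 1
          ring
        have b3 : (0 : ℝ) < 2 ^ (N * J) := Real.rpow_pos_of_pos (by norm_num) _
        have b4 : (0 : ℝ) < 2 ^ (e * J) := Real.rpow_pos_of_pos (by norm_num) _
        have b5 : (0 : ℝ) < 2 ^ (j * ((r + e) * J)) := Real.rpow_pos_of_pos (by norm_num) _
        calc (2 : ℝ) ^ (N * J) * |o| ≤ 2 ^ (N * J) * (C * 2 ^ (e * J) *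
              2 ^ (j * ((r + e) * J))) := by
              refine mul_le_mul_of_nonneg_left (h2.trans ?_) b3.le
              exact mul_le_mul (mul_le_mul_of_nonneg_left a2 hC0.le) a3 (by positivity)
                (by positivity)
          _ = C * (2 ^ (N * J) * 2 ^ (e * J) * 2 ^ (j * ((r + e) * J))) := by ring
          _ ≤ C * 2 ^ (B * J) := by
              rw [← Real.rpow_add (by norm_num), ← Real.rpow_add (by norm_num)]
              refine mul_le_mul_of_nonneg_left ?_ hC0.le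
              refine Real.rpow_le_rpow_of_exponent_le (by norm_num) ?_
              have := mul_le_mul_of_nonneg_right (le_abs_self N) hJ0
              rw [hB]
              linarith
      have h4 := Int.floor_le ((2 : ℝ) ^ (N * J) * o)
      have h5 := Int.lt_floor_add_one ((2 : ℝ) ^ (N * J) * o)
      have h6 := abs_le.1 h3
      rw [abs_le]
      constructor <;> nlinarith [h6.1, h6.2])
  refine h1.trans ?_
  have h2 : 2 * ((C + 1) * 2 ^ (B * J)) + 1 ≤ (2 * (C + 1) + 1) * 2 ^ (B * J) := by linarith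
  refine h2.trans ?_
  rw [← exp_p2]
  calc (2 * (C + 1) + 1) * Real.exp (B * J * Real.log 2)
      = Real.exp (Real.log (2 * (C + 1) + 1)) * Real.exp (B * J * Real.log 2) := by
        rw [Real.exp_log (by positivity)]
    _ = Real.exp (Real.log (2 * (C + 1) + 1) + B * J * Real.log 2) := (Real.exp_add _ _).symm
    _ ≤ Real.exp (M * J) := by
        refine Real.exp_le_exp.2 ?_
        have := mul_le_mul_of_nonneg_right hM1 hJ0
        nlinarith [hJ₁.trans hJ1]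

/-! ### Scales -/

/-- The scales of the jets and of the coefficients. -/
theorem scale_le {s w : ℝ} (hw : 0 ≤ w) (J j : ℕ) :
    (2 : ℝ) ^ (s * J) * (1 / 2 ^ (⌊w * J⌋₊ + 1)) ^ j ≤ (2 : ℝ) ^ ((s - j * w) * J) ∧
      (2 : ℝ) ^ ((s - j * w) * J) ≤
        2 ^ j * ((2 : ℝ) ^ (s * J) * (1 / 2 ^ (⌊w * J⌋₊ + 1)) ^ j) := by
  have hJ0 : (0 : ℝ) ≤ J := Nat.cast_nonneg J
  have hf1 : ((⌊w * J⌋₊ : ℕ) : ℝ) ≤ w * J := Nat.floor_le (by positivity)
  have hf2 := Nat.lt_floor_add_one (w * J)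
  have e1 : (1 / (2 : ℝ) ^ (⌊w * J⌋₊ + 1)) ^ j = 2 ^ (-(j * ((⌊w * J⌋₊ : ℝ) + 1))) := by
    rw [one_div, ← Real.rpow_natCast (2 : ℝ) (⌊w * J⌋₊ + 1), ← Real.rpow_neg (by norm_num),
      ← Real.rpow_natCast, ← Real.rpow_mul (by norm_num)]
    congr 1
    push_cast
    ring
  have e2 : (2 : ℝ) ^ j = (2 : ℝ) ^ (j : ℝ) := (Real.rpow_natCast 2 j).symm
  have hj0 : (0 : ℝ) ≤ j := Nat.cast_nonneg j
  rw [e1, e2, ← Real.rpow_add (by norm_num)]
  constructor
  · refine Real.rpow_le_rpow_of_exponent_le (by norm_num) ?_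
    nlinarith [mul_le_mul_of_nonneg_left hf2.le hj0]
  · rw [← Real.rpow_add (by norm_num)]
    refine Real.rpow_le_rpow_of_exponent_le (by norm_num) ?_
    nlinarith [mul_le_mul_of_nonneg_left hf1 hj0]

/-- Equal floors at a scale, at a smaller scale. -/
theorem fl_scale {s t a b B : ℝ} (hs : 0 ≤ s) (hst : s ≤ B * t) (ht : 0 < t)
    (h : ⌊t * a⌋ = ⌊t * b⌋) : |s * a - s * b| ≤ B := by
  have g1 := Int.floor_le (t * a)
  have g2 := Int.lt_floor_add_one (t * a)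
  have g3 := Int.floor_le (t * b)
  have g4 := Int.lt_floor_add_one (t * b)
  rw [h] at g1 g2
  have h1 : |t * a - t * b| ≤ 1 := by
    rw [abs_le]
    constructor <;> linarith
  have e1 : s * a - s * b = s / t * (t * a - t * b) := by field_simp
  rw [e1, abs_mul, abs_of_nonneg (by positivity)]
  have h2 : s / t ≤ B := (div_le_iff₀ ht).2 hst
  calc s / t * |t * a - t * b| ≤ B * 1 :=
        mul_le_mul h2 h1 (abs_nonneg _) (le_trans (by positivity) h2)
    _ = B := mul_one B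

end Pool.OWN68
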