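import Pool.Agent.H68.OWN.Kt3

/-!
# The free time, integer form
-/

set_option autoImplicit false

namespace Pool.OWN68

open Finset Real
open Pool.Agent.H49.Ent Pool.Agent.H32.Dense Pool.STK

section

variable {Ω ζ : Type} [Fintype Ω]

theorem floor_int_div (A : ℤ) (m : ℕ) : ⌊(A : ℝ) / 2 ^ m⌋ = A / 2 ^ m := by
  have h := Int.floor_div_natCast (A : ℝ) (2 ^ m)
  rw [Int.floor_intCast] at h
  push_cast at h
  exact h

/-- **The free time, integer form.** -/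
theorem ktz {p : Ω → ℝ} (hp : IsLaw p) (W : Ω → ζ) {C : ℕ} (hC : 1 ≤ C) (s : ℕ)
    {b : ℕ} (hb : 1 ≤ b) (A N c X : Ω → ℤ) {K : ℕ}
    (hA : ∀ ω, 0 < p ω → |A ω| ≤ ((C * 2 ^ s : ℕ) : ℤ))
    (hc : ∀ ω, 0 < p ω → |c ω| ≤ ((C * 2 ^ s : ℕ) : ℤ))
    (hX : ∀ ω, 0 < p ω → |2 ^ s * X ω - (2 ^ s * N ω + A ω * c ω)| ≤ K * 2 ^ s)
    {h c₀ e₁ err : ℝ} (hh : 0 < h) (hc₀ : 0 ≤ c₀) (he₁ : 0 ≤ e₁)
    (herr : 2 * (Real.log (2 * (C * 2 ^ s : ℕ) + 1) - CH p c (fun ω => ((A ω, N ω), W ω))) +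
      (b * Real.log 2 + Real.log (2 * (s + 1)) + Real.log (nlb 1 C s)) +
      Real.log (2 * C + 5) + 2 * Real.log (2 * (K + 1) + 1) ≤ err)
    (hnf : ∀ E : Ω → Prop, (∀ ω ω', W ω = W ω' → A ω = A ω' → N ω = N ω' → (E ω ↔ E ω')) →
      0 < law p E True → c₀ ≤ law p E True → ∀ i, i ≤ s → b ∣ i →
      CH (cond p E True) X
        (fun ω => (c ω, ((A ω / 2 ^ (s - i), N ω / 2 ^ (s - i)), W ω))) ≤
        (1 - h) * (((s : ℝ) - i) * Real.log 2) + e₁) :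
    CH p (fun ω => (A ω, N ω)) (fun ω => (X ω, (c ω, W ω))) ≤
      (((s / b : ℕ) + 1) * (c₀ * (s * Real.log 2)) + (e₁ + err) / h) + err := by
  have h0 := hp.nonneg
  have hS : (0 : ℝ) < 2 ^ s := by positivity
  have hfl : ∀ (i : ℕ) (x : ℤ), i ≤ s → ⌊(2 : ℝ) ^ i * ((x : ℝ) / 2 ^ s)⌋ = x / 2 ^ (s - i) := by
    intro i x hi
    rw [← floor_int_div]
    congr 1
    have e : (2 : ℝ) ^ s = 2 ^ i * 2 ^ (s - i) := by
      rw [← pow_add]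
      congr 1
      omega
    rw [e]
    field_simp
  have hinj : ∀ x y : ℤ, (x : ℝ) / 2 ^ s = (y : ℝ) / 2 ^ s → x = y := by
    intro x y h
    rw [div_left_inj' hS.ne'] at h
    exact_mod_cast h
  have e0 : CH p c (fun ω => (((A ω : ℝ) / 2 ^ s, (N ω : ℝ) / 2 ^ s), W ω)) =
      CH p c (fun ω => ((A ω, N ω), W ω)) := by
    refine CH_congr h0 (fun ω ω' _ _ h => (Prod.ext_iff.mp h).1)
      (fun ω ω' _ _ h => (Prod.ext_iff.mp h).1) ?_ ?_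
    · intro ω ω' _ _ h
      simp only [Prod.mk.injEq] at h
      obtain ⟨⟨h1, h2⟩, h3⟩ := h
      show ((A ω, N ω), W ω) = ((A ω', N ω'), W ω')
      rw [hinj _ _ h1, hinj _ _ h2, h3]
    · intro ω ω' _ _ h
      simp only [Prod.mk.injEq] at h
      obtain ⟨⟨h1, h2⟩, h3⟩ := h
      show (((A ω : ℝ) / 2 ^ s, (N ω : ℝ) / 2 ^ s), W ω) = _
      rw [h1, h2, h3]
  have key := kt1 hp W hC s hb (fun ω => (A ω : ℝ) / 2 ^ s) (fun ω => (N ω : ℝ) / 2 ^ s) c X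
    (K := K) (err := err)
    (fun ω hω => by
      have h1 := hA ω hω
      have h2 : ((|A ω| : ℤ) : ℝ) ≤ (((C * 2 ^ s : ℕ) : ℤ) : ℝ) := Int.cast_le.mpr h1
      push_cast at h2
      rw [abs_div, abs_of_pos hS, div_le_iff₀ hS]
      exact h2)
    hc
    (fun ω hω => by
      have h1 := hX ω hω
      have h2 : ((|2 ^ s * X ω - (2 ^ s * N ω + A ω * c ω)| : ℤ) : ℝ) ≤
          (((K : ℤ) * 2 ^ s : ℤ) : ℝ) := Int.cast_le.mpr h1
      push_cast at h2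
      have h3 : (X ω : ℝ) - (2 ^ s * ((N ω : ℝ) / 2 ^ s) + (A ω : ℝ) / 2 ^ s * c ω) =
          (2 ^ s * X ω - (2 ^ s * N ω + A ω * c ω)) / 2 ^ s := by
        field_simp
      rw [h3, abs_div, abs_of_pos hS, div_le_iff₀ hS]
      exact h2)
    hh hc₀ he₁ (by rw [e0]; exact herr)
    (fun E hE hE0 hE1 i hi hbi => by
      have h1 := hnf E (fun ω ω' h1 h2 h3 => hE ω ω' h1
        (congrArg (fun x : ℤ => (x : ℝ) / 2 ^ s) h2)
        (congrArg (fun x : ℤ => (x : ℝ) / 2 ^ s) h3)) hE0 hE1 i hi hbi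
      simp only [hfl i _ hi]
      exact h1)
  simp only [hfl s _ le_rfl, Nat.sub_self, pow_zero, Int.ediv_one] at key
  exact key

end

end Pool.OWN68
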