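import Pool.Agent.H68.OWN.Ng

/-!
# The context of a nested chain

`jr_few`: the coefficients of an own path from its jets at the time of the sample. `ctxN`: the
context: the path of the base to `Un` digits, the own paths of the chain to `n l` digits.
`ctxN_few`: the context from the base and the jets. `hts_few`: the heights from the context.
-/

set_option autoImplicit false

namespace Pool.OWN68

open Finset Real MvPolynomial
open Pool.Agent.H49.Ent Pool.Agent.H32.Dense Pool.STK Pool.KA Pool.KSAT Pool.K2S Pool.PB Pool.GEN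
open Pool.S6C Pool.RCD Pool.LA91
open Pool.GRD (LbP)
open Pool.UNJ (ceI Tub)

variable {m J : ℕ}

theorem log_mono_nat {a b : ℝ} (ha : 0 < a) (h : a ≤ b) : Real.log a ≤ Real.log b :=
  Real.log_le_log ha h

/-- **The coefficients of an own path, from its jets.** -/
theorem jr_few (D : ℕ) : ∃ C : ℝ, 0 ≤ C ∧ ∀ {m J : ℕ} {F : Fam m J} {W : ℕ} (_ : W ≤ J) {σ : ℝ}
    {κ : Fin m} {V : Type} {zl : LnT F → V} {G : V → MvPolynomial (Option (Fin m)) ℝ}
    {q' : F.Ω → ℝ} (_ : IsLaw q') (_ : ∀ v, (X (some κ) - G v).totalDegree ≤ D) {Γ : Type}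
    (Y : F.Ω → Γ) (Uj : F.Ω → Fin (D + 1) → ℤ),
    (∀ ω ω', 0 < q' ω → 0 < q' ω' → Y ω = Y ω' → F.T ω = F.T ω') →
    (∀ ω ω', ∀ j : Fin (D + 1), Uj ω j = Uj ω' j →
      |σ * (1 / 2 ^ (W + 1)) ^ (j : ℕ) * ojet F κ j (G (zl (slam F W ω))) ω -
        σ * (1 / 2 ^ (W + 1)) ^ (j : ℕ) * ojet F κ j (G (zl (slam F W ω'))) ω'| ≤ 1) →
    CH q' (fun ω (j : Fin (D + 1)) => ⌊jr F W σ κ zl G j (slam F W ω)⌋) Y ≤ CH q' Uj Y + C := by
  obtain ⟨C, hC, hcof⟩ := cof_small D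
  refine ⟨(D + 1) * Real.log (2 * ((⌈C⌉₊ + 1 : ℕ) : ℝ) + 1), ?_, ?_⟩
  · have : 0 ≤ Real.log (2 * ((⌈C⌉₊ + 1 : ℕ) : ℝ) + 1) := Real.log_nonneg (by
      have : (0 : ℝ) ≤ ((⌈C⌉₊ + 1 : ℕ) : ℝ) := Nat.cast_nonneg _
      linarith)
    positivity
  intro m J F W hW σ κ V zl G q' hq' hdeg Γ Y Uj hYT hU
  have h0 := hq'.nonneg
  have s1 := CH_le_add h0 (fun ω (j : Fin (D + 1)) => ⌊jr F W σ κ zl G j (slam F W ω)⌋) Uj Y
  have s2 : CH q' (fun ω (j : Fin (D + 1)) => ⌊jr F W σ κ zl G j (slam F W ω)⌋)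
      (fun ω => (Uj ω, Y ω)) ≤ (D + 1) * Real.log (2 * ((⌈C⌉₊ + 1 : ℕ) : ℝ) + 1) := by
    refine (CH_pis h0 _ _).trans ?_
    have h1 : ∀ j ∈ (univ : Finset (Fin (D + 1))),
        CH q' (fun ω => ⌊jr F W σ κ zl G j (slam F W ω)⌋) (fun ω => (Uj ω, Y ω)) ≤
        Real.log (2 * ((⌈C⌉₊ + 1 : ℕ) : ℝ) + 1) := by
      intro j _
      refine CH_pair hq' _ _ fun ω ω' hω hω' e => floor_sub_le ?_
      simp only [Prod.mk.injEq] at e
      have hT := hYT ω ω' hω hω' e.2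
      have hu : uw F W ω' = uw F W ω := by
        unfold uw tw
        rw [hT]
      have e1 : jr F W σ κ zl G j (slam F W ω) - jr F W σ κ zl G j (slam F W ω') =
          (jR F W σ κ zl G (slam F W ω) - jR F W σ κ zl G (slam F W ω')).coeff j := by
        rw [Polynomial.coeff_sub]
        rfl
      rw [e1]
      refine le_trans (hcof _ j (uw F W ω) 1 ?_ (uw_abs F W ω) fun i hi => ?_) ?_
      · exact (Polynomial.natDegree_sub_le _ _).trans
          (max_le (natDegree_jR hdeg _) (natDegree_jR hdeg _))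
      · have g1 := jR_jet (σ := σ) (κ := κ) (zl := zl) (G := G) hW ω i
        have g2 := jR_jet (σ := σ) (κ := κ) (zl := zl) (G := G) hW ω' i
        rw [hu] at g2
        rw [Polynomial.iterate_derivative_sub, Polynomial.eval_sub, g1, g2]
        by_cases hiD : i < D + 1
        · exact hU ω ω' ⟨i, hiD⟩ (congrFun e.1 _)
        · rw [← g1, ← g2, Polynomial.iterate_derivative_eq_zero (lt_of_le_of_lt
              (natDegree_jR hdeg _) (by omega)), Polynomial.iterate_derivative_eq_zero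
              (lt_of_le_of_lt (natDegree_jR hdeg _) (by omega)), sub_self, abs_zero]
          exact zero_le_one
      · rw [mul_one]
        exact Nat.le_ceil C
    refine (Finset.sum_le_sum h1).trans (le_of_eq ?_)
    rw [Finset.sum_const, Finset.card_univ, Fintype.card_fin, nsmul_eq_mul]
    push_cast
    ring
  linarith

/-- **The context of a nested chain.** -/
noncomputable def ctxN (F : Fam m J) (c : ℕ → Fin m) (r₀ r W Un K : ℕ) {V : Type}
    (z' : LnT F → V) (g : V → ℕ → MvPolynomial (Option (Fin m)) ℝ) (n : ℕ → ℝ) (x : LnT F) :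
    (Fin m → ℤ × ℤ) × (ℕ → ℕ → ℤ) :=
  (cV0 ((range r₀).image c) W Un F x, fun l j => if (r₀ ≤ l ∧ l < r) ∧ j < K + 3 then
    ⌊jr F W (2 ^ (n l * J)) (c l) z' (fun v => g v l) j x⌋ else 0)

/-- **The heights, from the context.** -/
theorem hts_few {F : Fam m J} {c : ℕ → Fin m} {r₀ r W K : ℕ} (hW : W ≤ J) {V : Type}
    {z' : LnT F → V} {g : V → ℕ → MvPolynomial (Option (Fin m)) ℝ} {n : ℕ → ℝ}
    (hdeg : ∀ l, r₀ ≤ l → l < r → ∀ v, (g v l).totalDegree ≤ K) {q' : F.Ω → ℝ} (hq' : IsLaw q')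
    {Γ : Type} (Y : F.Ω → Γ) (ca : F.Ω → (Fin m → ℤ × ℤ) × (ℕ → ℕ → ℤ)) {Un : ℕ}
    (hca : ∀ ω, ca ω = ctxN F c r₀ r W Un K z' g n (slam F W ω))
    (hY : ∀ ω ω', Y ω = Y ω' → F.T ω = F.T ω' ∧ ca ω = ca ω') :
    CH q' (fun ω => hts F c r₀ r z' W g n ω) Y ≤ r * Real.log (4 * (K + 3) + 3) := by
  have h0 := hq'.nonneg
  have hl : 0 ≤ Real.log (4 * ((K : ℝ) + 3) + 3) := Real.log_nonneg (by
    have : (0 : ℝ) ≤ K := Nat.cast_nonneg K
    linarith)
  refine le_trans (CH_mono_left h0 (X' := fun ω (l : Fin r) => hts F c r₀ r z' W g n ω l)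
    fun ω ω' _ _ e => funext fun l => ?_) ?_
  · by_cases hl : l < r
    · exact congrFun (Prod.ext_iff.mp e).1 ⟨l, hl⟩
    · unfold hts
      rw [if_neg fun h => hl h.2, if_neg fun h => hl h.2]
  refine (CH_pis h0 _ _).trans ?_
  have h1 : ∀ l ∈ (univ : Finset (Fin r)), CH q' (fun ω => hts F c r₀ r z' W g n ω l) Y ≤
      Real.log (4 * (K + 3) + 3) := by
    intro l _
    by_cases hl0 : r₀ ≤ (l : ℕ)
    · have e0 : (fun ω => hts F c r₀ r z' W g n ω l) = fun ω =>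
          ⌊(2 : ℝ) ^ (n l * J) * hgt F (c l) z' W (fun v => g v l) ω⌋ := by
        funext ω
        unfold hts
        rw [if_pos ⟨hl0, l.2⟩]
      rw [e0]
      have e5 : (4 : ℝ) * (K + 3) + 3 = 2 * ((2 * (K + 3) + 1 : ℕ) : ℝ) + 1 := by
        push_cast
        ring
      rw [e5]
      refine CH_pair hq' _ _ fun ω ω' hω hω' e => floor_sub_le ?_
      obtain ⟨hT, hc⟩ := hY ω ω' e
      rw [hca, hca] at hc
      have hc2 := congrFun (Prod.ext_iff.mp hc).2 l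
      have hu : uw F W ω' = uw F W ω := by
        unfold uw tw
        rw [hT]
      have hd : ∀ v, (X (some (c l)) - g v l).totalDegree ≤ K + 2 := fun v => by
        refine (MvPolynomial.totalDegree_sub _ _).trans (max_le ?_ ?_)
        · exact (totalDegree_X _).le.trans (by omega)
        · exact (hdeg l hl0 l.2 v).trans (by omega)
      have g1 := opl_sum F hW (hd (z' (slam F W ω))) (2 ^ (n l * J)) ω
      have g2 := opl_sum F hW (hd (z' (slam F W ω'))) (2 ^ (n l * J)) ω'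
      have g3 : ∑ j ∈ range (K + 2 + 1), (⌊(2 : ℝ) ^ (n l * J) *
            (opl F W (X (some (c l)) - g (z' (slam F W ω)) l) (slam F W ω)).coeff j⌋ : ℝ) *
            uw F W ω ^ j = ∑ j ∈ range (K + 2 + 1), (⌊(2 : ℝ) ^ (n l * J) *
            (opl F W (X (some (c l)) - g (z' (slam F W ω')) l) (slam F W ω')).coeff j⌋ : ℝ) *
            uw F W ω' ^ j := by
        refine Finset.sum_congr rfl fun j hj => ?_
        rw [Finset.mem_range] at hj
        have h2 := congrFun hc2 j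
        dsimp only [ctxN] at h2
        rw [if_pos ⟨⟨hl0, l.2⟩, by omega⟩, if_pos ⟨⟨hl0, l.2⟩, by omega⟩] at h2
        unfold jr jR at h2
        rw [Polynomial.coeff_C_mul, Polynomial.coeff_C_mul] at h2
        rw [h2, hu]
      rw [g3] at g1
      have a1 : ∀ ω, hgt F (c l) z' W (fun v => g v l) ω =
          eval (bt F ω) (X (some (c l)) - g (z' (slam F W ω)) l) := fun ω => by
        rw [hgt_eq, map_sub, eval_X]
        rfl
      rw [a1, a1]
      push_cast at g1 g2 ⊢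
      rw [abs_le] at g1 g2 ⊢
      constructor <;> linarith [g1.1, g1.2, g2.1, g2.2]
    · refine le_trans (le_of_eq (CH_eq_zero h0 fun ω ω' _ _ _ => ?_)) hl
      unfold hts
      rw [if_neg fun h => hl0 h.1, if_neg fun h => hl0 h.1]
  refine (Finset.sum_le_sum h1).trans (le_of_eq ?_)
  rw [Finset.sum_const, Finset.card_univ, Fintype.card_fin, nsmul_eq_mul]

/-- The number of the values of the jets of all orders, for finitely many charts. -/
theorem cnt_jets2 (m K : ℕ) {e w : ℝ} (he : 0 < e) (N : ℕ → ℕ → ℝ) (rd : ℕ → ℝ) (R D : ℕ)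
    (hr : ∀ i < R, 0 ≤ rd i) : ∃ M J₁ : ℕ, ∀ i < R, ∀ j < D, ∀ J ≥ J₁,
    ∀ (F : Fam m J) (I : Finset (Fin m)) (k : Fin m) (P : ℕ) (A : F.Ω → Prop) (V : Type)
      (z : PtT F → V) (z' : LnT F → V) (G : V → MvPolynomial (Option (Fin m)) ℝ),
      LbOK F I k K ⌊e * J⌋₊ J ⌊w * J⌋₊ ⌊(rd i + e) * J⌋₊ P A z z' G →
      (cnt F.p (fun ω => ⌊(2 : ℝ) ^ (N i j * J) *
        ojet F k j (G (z' (slam F ⌊w * J⌋₊ ω))) ω⌋) A : ℝ) ≤ Real.exp (M * J) := by
  have key : ∀ R' ≤ R, ∀ j < D, ∃ M J₁ : ℕ, ∀ i < R', ∀ J ≥ J₁,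
    ∀ (F : Fam m J) (I : Finset (Fin m)) (k : Fin m) (P : ℕ) (A : F.Ω → Prop) (V : Type)
      (z : PtT F → V) (z' : LnT F → V) (G : V → MvPolynomial (Option (Fin m)) ℝ),
      LbOK F I k K ⌊e * J⌋₊ J ⌊w * J⌋₊ ⌊(rd i + e) * J⌋₊ P A z z' G →
      (cnt F.p (fun ω => ⌊(2 : ℝ) ^ (N i j * J) *
        ojet F k j (G (z' (slam F ⌊w * J⌋₊ ω))) ω⌋) A : ℝ) ≤ Real.exp (M * J) := by
    intro R' hR' j _
    induction R' with
    | zero => exact ⟨0, 0, fun i hi => absurd hi (Nat.not_lt_zero i)⟩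
    | succ R' ih =>
      obtain ⟨M, J₁, h1⟩ := ih (by omega)
      obtain ⟨M', J₁', h2⟩ := cnt_jet m K j (N := N R' j) (w := w) (hr R' (by omega)) he
      refine ⟨max M M', max J₁ J₁', fun i hi J hJ F I k P A V z z' G hlb => ?_⟩
      have hJ0 : (0 : ℝ) ≤ J := Nat.cast_nonneg J
      rcases Nat.lt_or_ge i R' with h3 | h3
      · refine (h1 i h3 J ((le_max_left _ _).trans hJ) F I k P A V z z' G hlb).trans
          (Real.exp_le_exp.2 (mul_le_mul_of_nonneg_right ?_ hJ0))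
        exact_mod_cast le_max_left _ _
      · obtain rfl : i = R' := by omega
        refine (h2 J ((le_max_right _ _).trans hJ) F I k P A V z z' G hlb).trans
          (Real.exp_le_exp.2 (mul_le_mul_of_nonneg_right ?_ hJ0))
        exact_mod_cast le_max_right _ _
  choose! M J₁ h using key R le_rfl
  refine ⟨∑ j ∈ range D, M j, ∑ j ∈ range D, J₁ j, fun i hi j hj J hJ F I k P A V z z' G hlb => ?_⟩
  have e1 : M j ≤ ∑ j ∈ range D, M j := Finset.single_le_sum (f := M) (fun _ _ => Nat.zero_le _)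
    (Finset.mem_range.2 hj)
  have e2 : J₁ j ≤ ∑ j ∈ range D, J₁ j := Finset.single_le_sum (f := J₁)
    (fun _ _ => Nat.zero_le _) (Finset.mem_range.2 hj)
  refine (h j hj i hi J (e2.trans hJ) F I k P A V z z' G hlb).trans
    (Real.exp_le_exp.2 (mul_le_mul_of_nonneg_right ?_ (Nat.cast_nonneg J)))
  exact_mod_cast e1

/-- **The jets of the chain**, few bits relative to a quantity, for all degrees. -/
def JetV (S : PCl m) {α β γ : ∀ J : ℕ, Fam m J → Type} {U : Type}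
    (f : ∀ (J : ℕ) (F : Fam m J), F.Ω → α J F)
    (g : ∀ (J : ℕ) (F : Fam m J), F.Ω → β J F) (y : ∀ (J : ℕ) (F : Fam m J), F.Ω → γ J F)
    (Q : Qt m U) (c : ℕ → Fin m) (r₀ r : ℕ) (w : ℝ) (p n : ℕ → ℝ) (e δ : ℝ) : Prop :=
  ∀ K : ℕ, ∃ η : ℕ → ℕ → ℝ, (∑ l ∈ Finset.Ico r₀ r, ∑ j ∈ range (K + 3), η l j ≤ δ) ∧
    ∀ l, r₀ ≤ l → l < r → ∀ j < K + 3, F1 S f g y Q
      (qJet m ((range l).image c) (c l) j w (p l) (n l - j * w)) e (η l j)

/-- **The context is few bits.** -/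
theorem ctxN_few {S : PCl m} {C₀ : ℝ} (htm : TmC S C₀) {c : ℕ → Fin m} {r₀ r : ℕ}
    {w a lam e δ₁ δ₂ : ℝ} {rd p n : ℕ → ℝ} (hw0 : 0 ≤ w) (hwa : w ≤ a) (ha : a ≤ 1)
    (hlam : 0 ≤ lam) (he : 0 < e) (hrd : ∀ i, r₀ ≤ i → i < r → 0 ≤ rd i)
    {U : Type} {Q : Qt m U} {α γ : ∀ J : ℕ, Fam m J → Type}
    {f : ∀ (J : ℕ) (F : Fam m J), F.Ω → α J F} {y : ∀ (J : ℕ) (F : Fam m J), F.Ω → γ J F}
    (hy : Kn ((range r₀).image c) (w + lam) lam y)
    (hV : JetV S f (vg a) y Q c r₀ r w p n e δ₁) (hδ : δ₁ < δ₂) (K K₀ R : ℕ) (hR : r ≤ R) :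
    Bas S (fun J F A => ∀ (V : Type) (z : PtT F → V) (z' : LnT F → V)
      (g : V → ℕ → MvPolynomial (Option (Fin m)) ℝ), LbC F c r₀ R K e w rd p A z z' g →
      ∀ u₀ : F.Ω → U, Q.P K₀ e J F A u₀ →
      ∃ (V₁ : Type) (z₁ : F.Ω → V₁), Cl2 (f J F) (vg a J F) A z₁ ∧
        CH (Pool.Agent.H49.Ent.cond F.p A True)
          (fun ω => ctxN F c r₀ r ⌊w * J⌋₊ ⌊(w + lam) * J⌋₊ K z' g n (vg w J F ω))
          (fun ω => (u₀ ω, (z₁ ω, y J F ω))) ≤ δ₂ * J) := by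
  classical
  obtain ⟨η, hη, hF⟩ := hV K
  obtain ⟨C, hC, Hjr⟩ := jr_few (K + 2)
  obtain ⟨M, J₁, hcnt⟩ := cnt_jets2 m K (e := e) (w := w) he (fun l j => n l - j * w)
    (fun i => max (rd i) 0) r (K + 3) (fun i _ => le_max_right _ _)
  have l7 : 0 ≤ Real.log 7 := Real.log_nonneg (by norm_num)
  have hm0 : (0 : ℝ) ≤ m := Nat.cast_nonneg m
  have hr0 : (0 : ℝ) ≤ r := Nat.cast_nonneg r
  have hδ' : 0 < δ₂ - δ₁ := by linarith
  obtain ⟨J₂, hJ₂⟩ := exists_nat_ge ((m * (2 * Real.log 7) + r * C) / (δ₂ - δ₁))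
  have hFa : Bas S (fun J F A => ∀ l < r, ∀ j < K + 3, r₀ ≤ l → ∀ (u : F.Ω → U) (u' : F.Ω → ℤ),
      Q.P (max K₀ (max K M)) e J F A u →
      (qJet m ((range l).image c) (c l) j w (p l) (n l - j * w)).P (max K₀ (max K M)) e J F A u' →
      ∃ (V : Type) (z : F.Ω → V), Cl2 (f J F) (vg a J F) A z ∧
        CH (Pool.Agent.H49.Ent.cond F.p A True) u'
          (fun ω => (u ω, (z ω, y J F ω))) ≤ η l j * J) := by
    refine Bas.all r fun l hl => Bas.all (K + 3) fun j hj => ?_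
    by_cases hl0 : r₀ ≤ l
    · refine Bas.mono 0 (hF l hl0 hl j hj (max K₀ (max K M))) ?_
      intro J _ F A h _
      exact h
    · refine ⟨1, one_pos, 0, fun J _ F A _ h => absurd h hl0⟩
  refine Bas.mono (max J₁ J₂) (hFa.and (Pool.GRW.tmc_bas htm one_pos)) ?_
  rintro J hJ F A ⟨HF, hA, -⟩ V z z' g hlb u₀ hu₀
  have hJ1 : J₁ ≤ J := (le_max_left _ _).trans hJ
  have hJ2 : (J₂ : ℝ) ≤ J := by exact_mod_cast (le_max_right _ _).trans hJ
  have hJ0 : (0 : ℝ) ≤ J := Nat.cast_nonneg J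
  have f1 : m * (2 * Real.log 7) + r * C ≤ (δ₂ - δ₁) * J := by
    have := hJ₂.trans hJ2
    rw [div_le_iff₀ hδ'] at this
    linarith
  obtain ⟨q', hq'⟩ : ∃ q' : F.Ω → ℝ, q' = Pool.Agent.H49.Ent.cond F.p A True := ⟨_, rfl⟩
  have hq'l : IsLaw q' := by
    rw [hq']
    exact isLaw_cond F.isLaw hA
  have h0 := hq'l.nonneg
  rw [← hq']
  have hWJ : ⌊w * J⌋₊ ≤ J := floor_le (hwa.trans ha) J
  obtain ⟨Uj, hUj⟩ : ∃ Uj : ℕ → ℕ → F.Ω → ℤ, Uj = fun (l j : ℕ) ω =>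
    ⌊(2 : ℝ) ^ ((n l - j * w) * J) * ojet F (c l) j (g (z' (slam F ⌊w * J⌋₊ ω)) l) ω⌋ :=
    ⟨_, rfl⟩
  have hz : ∀ l j, ∃ (V₁ : Type) (z₁ : F.Ω → V₁), Cl2 (f J F) (vg a J F) A z₁ ∧
      (r₀ ≤ l → l < r → j < K + 3 → CH q' (Uj l j) (fun ω => (u₀ ω, (z₁ ω, y J F ω))) ≤
        η l j * J) := by
    intro l j
    by_cases hlj : r₀ ≤ l ∧ l < r ∧ j < K + 3
    · obtain ⟨hl0, hl, hj⟩ := hlj
      have h1 := HF l hl j hj hl0 u₀ (Uj l j)
        (Q.mono (le_max_left _ _) le_rfl hu₀) ⟨?_, V, z, z', fun v => g v l, ?_, fun ω _ => by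
          rw [hUj]⟩
      · rw [← hq'] at h1
        obtain ⟨V₁, z₁, hz₁, h1⟩ := h1
        exact ⟨V₁, z₁, hz₁, fun _ _ _ => h1⟩
      · have h2 := hcnt l hl j hj J hJ1 F _ _ _ A V z z' (fun v => g v l) (by
          rw [max_eq_left (hrd l hl0 hl)]
          exact hlb l hl0 (by omega))
        rw [hUj]
        refine h2.trans (Real.exp_le_exp.2 (mul_le_mul_of_nonneg_right ?_ hJ0))
        exact_mod_cast (le_max_right _ _).trans (le_max_right _ _)
      · exact (LbP.of (hlb l hl0 (by omega))).mono (Finset.Subset.refl _)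
          ((le_max_left _ _).trans (le_max_right _ _)) le_rfl
    · exact ⟨Unit, fun _ => (), ⟨⟨fun _ => (), fun _ _ => rfl⟩, fun _ => (), fun _ _ => rfl⟩,
        fun a b c => absurd ⟨a, b, c⟩ hlj⟩
  choose V₁ z₁ hz₁ hH₁ using hz
  refine ⟨∀ l j, V₁ l j, fun ω l j => z₁ l j ω, Cl2.pi fun l => Cl2.pi (hz₁ l), ?_⟩
  obtain ⟨Y, hY⟩ : ∃ Y : F.Ω → U × ((∀ l j, V₁ l j) × γ J F), Y = fun ω =>
    (u₀ ω, ((fun l j => z₁ l j ω), y J F ω)) := ⟨_, rfl⟩
  rw [← hY]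
  obtain ⟨φ, hφ⟩ := hy J F
  have hyy : ∀ ω ω', y J F ω = y J F ω' → F.T ω = F.T ω' ∧
      (∀ i ∈ (range r₀).image c, F.X ⌊(w + lam) * J⌋₊ ω i = F.X ⌊(w + lam) * J⌋₊ ω' i) ∧
      ∀ i ∈ (range r₀).image c, F.D ⌊lam * J⌋₊ ω i = F.D ⌊lam * J⌋₊ ω' i := by
    intro ω ω' e1
    have e2 := congrArg φ e1
    rw [hφ, hφ] at e2
    simp only [Prod.mk.injEq] at e2
    refine ⟨e2.1, fun i hi => ?_, fun i hi => ?_⟩
    · have := congrFun e2.2.1 i
      simpa only [if_pos hi] using this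
    · have := congrFun e2.2.2 i
      simpa only [if_pos hi] using this
  -- the base
  have b1 : CH q' (fun ω => cV0 ((range r₀).image c) ⌊w * J⌋₊ ⌊(w + lam) * J⌋₊ F (vg w J F ω)) Y ≤
      m * (2 * Real.log 7) := by
    refine cV0_few hq'l _ hWJ (n := ⌊(w + lam) * J⌋₊) (l := ⌊lam * J⌋₊) ?_ Y (fun ω ω' e => ?_)
    · have g1 : ((⌊(w + lam) * J⌋₊ : ℕ) : ℝ) ≤ (w + lam) * J :=
        Nat.floor_le (mul_nonneg (by linarith) hJ0)
      have g2 := Nat.lt_floor_add_one (w * J)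
      have g3 := Nat.lt_floor_add_one (lam * J)
      have g4 : ((⌊(w + lam) * J⌋₊ : ℕ) : ℝ) < ((⌊w * J⌋₊ + 1 + ⌊lam * J⌋₊ + 1 : ℕ) : ℝ) := by
        push_cast
        linarith
      have g5 : ⌊(w + lam) * J⌋₊ < ⌊w * J⌋₊ + 1 + ⌊lam * J⌋₊ + 1 := by exact_mod_cast g4
      omega
    · rw [hY] at e
      simp only [Prod.mk.injEq] at e
      exact hyy ω ω' e.2.2
  -- the chain
  have b2 : ∀ l, r₀ ≤ l → l < r → CH q' (fun ω (j : Fin (K + 3)) =>
      ⌊jr F ⌊w * J⌋₊ (2 ^ (n l * J)) (c l) z' (fun v => g v l) j (slam F ⌊w * J⌋₊ ω)⌋) Y ≤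
      (∑ j ∈ range (K + 3), η l j) * J + C := by
    intro l hl0 hl
    have h1 := Hjr hWJ (σ := 2 ^ (n l * J)) (κ := c l) (zl := z') (G := fun v => g v l) hq'l
      (fun v => by
        refine (MvPolynomial.totalDegree_sub _ _).trans (max_le ?_ ?_)
        · exact (totalDegree_X _).le.trans (by omega)
        · exact ((hlb l hl0 (by omega)).deg v).trans (by omega)) Y
      (fun ω (j : Fin (K + 2 + 1)) => Uj l j ω) (fun ω ω' _ _ e => by
        rw [hY] at e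
        simp only [Prod.mk.injEq] at e
        exact (hyy ω ω' e.2.2).1) (fun ω ω' j e => by
        rw [hUj] at e
        refine fl_scale (by positivity) ?_ (Real.rpow_pos_of_pos (by norm_num) _) e
        rw [one_mul]
        exact (scale_le hw0 J j).1)
    refine h1.trans (add_le_add ?_ le_rfl)
    refine (CH_pis h0 _ Y).trans ?_
    have h2 : ∀ j ∈ (univ : Finset (Fin (K + 2 + 1))), CH q' (fun ω => Uj l j ω) Y ≤
        η l j * J := by
      intro j _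
      refine le_trans (CH_mono_cond h0 fun ω ω' _ _ e => ?_) (hH₁ l j hl0 hl j.2)
      rw [hY] at e
      simp only [Prod.mk.injEq] at e ⊢
      exact ⟨e.1, congrFun (congrFun e.2.1 l) j, e.2.2⟩
    refine (Finset.sum_le_sum h2).trans (le_of_eq ?_)
    rw [← Finset.sum_mul, Fin.sum_univ_eq_sum_range (η l) (K + 2 + 1)]
  -- together
  have b3 : CH q' (fun ω => ctxN F c r₀ r ⌊w * J⌋₊ ⌊(w + lam) * J⌋₊ K z' g n (vg w J F ω)) Y ≤
      CH q' (fun ω => (cV0 ((range r₀).image c) ⌊w * J⌋₊ ⌊(w + lam) * J⌋₊ F (vg w J F ω),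
        fun (l : Fin r) => fun (j : Fin (K + 3)) => if r₀ ≤ (l : ℕ) then
          ⌊jr F ⌊w * J⌋₊ (2 ^ (n l * J)) (c l) z' (fun v => g v l) j
            (slam F ⌊w * J⌋₊ ω)⌋ else 0)) Y := by
    refine CH_mono_left h0 fun ω ω' _ _ e => ?_
    simp only [Prod.mk.injEq] at e
    obtain ⟨⟨e1, e2⟩, -⟩ := e
    refine Prod.ext e1 (funext fun l => funext fun j => ?_)
    dsimp only [ctxN]
    by_cases h : (r₀ ≤ l ∧ l < r) ∧ j < K + 3
    · rw [if_pos h, if_pos h]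
      have e3 := congrFun (congrFun e2 ⟨l, h.1.2⟩) ⟨j, h.2⟩
      simp only [if_pos h.1.1] at e3
      exact e3
    · rw [if_neg h, if_neg h]
  have b4 := CH_subadd h0
    (fun ω => cV0 ((range r₀).image c) ⌊w * J⌋₊ ⌊(w + lam) * J⌋₊ F (vg w J F ω))
    (fun ω (l : Fin r) => fun (j : Fin (K + 3)) => if r₀ ≤ (l : ℕ) then
          ⌊jr F ⌊w * J⌋₊ (2 ^ (n l * J)) (c l) z' (fun v => g v l) j
            (slam F ⌊w * J⌋₊ ω)⌋ else 0) Y
  have b5 : CH q' (fun ω (l : Fin r) => fun (j : Fin (K + 3)) => if r₀ ≤ (l : ℕ) then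
          ⌊jr F ⌊w * J⌋₊ (2 ^ (n l * J)) (c l) z' (fun v => g v l) j
            (slam F ⌊w * J⌋₊ ω)⌋ else 0) Y ≤ δ₁ * J + r * C := by
    refine (CH_pis h0 _ Y).trans ?_
    have h2 : ∀ l ∈ (univ : Finset (Fin r)), CH q' (fun ω => fun (j : Fin (K + 3)) =>
        if r₀ ≤ (l : ℕ) then ⌊jr F ⌊w * J⌋₊ (2 ^ (n l * J)) (c l) z' (fun v => g v l) j
            (slam F ⌊w * J⌋₊ ω)⌋ else 0) Y ≤
        (if r₀ ≤ (l : ℕ) then (∑ j ∈ range (K + 3), η l j) * J else 0) + C := by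
      intro l _
      by_cases hl0 : r₀ ≤ (l : ℕ)
      · simp only [if_pos hl0]
        exact b2 l hl0 l.2
      · simp only [if_neg hl0]
        rw [CH_eq_zero h0 fun _ _ _ _ _ => rfl]
        linarith
    refine (Finset.sum_le_sum h2).trans ?_
    rw [Finset.sum_add_distrib, Finset.sum_const, Finset.card_univ, Fintype.card_fin,
      nsmul_eq_mul, Fin.sum_univ_eq_sum_range (fun l => if r₀ ≤ l then
        (∑ j ∈ range (K + 3), η l j) * (J : ℝ) else 0) r]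
    have e1 : ∑ l ∈ range r, (if r₀ ≤ l then (∑ j ∈ range (K + 3), η l j) * (J : ℝ) else 0) =
        ∑ l ∈ Finset.Ico r₀ r, (∑ j ∈ range (K + 3), η l j) * (J : ℝ) := by
      rw [← Finset.sum_filter]
      refine Finset.sum_congr ?_ fun _ _ => rfl
      ext l
      simp only [Finset.mem_filter, Finset.mem_range, Finset.mem_Ico]
      exact and_comm
    rw [e1, ← Finset.sum_mul]
    have e2 := mul_le_mul_of_nonneg_right hη hJ0
    linarith
  linarith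

end Pool.OWN68
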