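import Pool.Agent.H68.OWN.Npt

/-!
# The own path, with the digits of its jets

`Npl`: the path is `x₀ + c₁ u + c₂ u ^ 2 + g`, `u = τ / M`, where `g` is a function of the context and
of the time; `k = 1`: `c₂ = 0`, and the record `G` of the ball knows the time and the position to `O(1)`;
`k = 2`: it knows also the velocity. `npl`: the jets to all digits are few bits given `G`.
-/

set_option autoImplicit false

namespace Pool.OWN68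

open Finset Real
open Pool.Agent.H49.Ent Pool.Agent.H32.Dense Pool.STK Pool.NFD

/-- Values which are near on the fibres of the condition. -/
theorem CH_pair {Ω T : Type} [Fintype Ω] {p : Ω → ℝ} (hp : IsLaw p) (X : Ω → ℤ) (Z : Ω → T)
    {D : ℕ} (h : ∀ ω ω', 0 < p ω → 0 < p ω' → Z ω = Z ω' → |X ω - X ω'| ≤ (D : ℤ)) :
    CH p X Z ≤ Real.log (2 * D + 1) := by
  classical
  refine CH_fn hp.nonneg hp.sum_one X Z
    (fun z => if hz : ∃ ω, 0 < p ω ∧ Z ω = z then X hz.choose else 0) D fun ω hω => ?_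
  have hz : ∃ ω', 0 < p ω' ∧ Z ω' = Z ω := ⟨ω, hω, rfl⟩
  have e : (if hz : ∃ ω', 0 < p ω' ∧ Z ω' = Z ω then X hz.choose else 0) = X hz.choose :=
    dif_pos hz
  simp only [e]
  exact h ω _ hω hz.choose_spec.1 hz.choose_spec.2.symm

/-- Floors of near numbers. -/
theorem floor_sub_le {a b : ℝ} {D : ℕ} (h : |a - b| ≤ D) : |⌊a⌋ - ⌊b⌋| ≤ ((D + 1 : ℕ) : ℤ) := by
  have h1 := abs_le.mp h
  have g1 := Int.floor_le a
  have g2 := Int.lt_floor_add_one a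
  have g3 := Int.floor_le b
  have g4 := Int.lt_floor_add_one b
  rw [abs_le]
  constructor
  · have : (⌊b⌋ : ℝ) < (⌊a⌋ : ℝ) + (D + 1) := by linarith
    have h2 : ⌊b⌋ < ⌊a⌋ + (D + 1) := by exact_mod_cast this
    push_cast
    omega
  · have : (⌊a⌋ : ℝ) < (⌊b⌋ : ℝ) + (D + 1) := by linarith
    have h2 : ⌊a⌋ < ⌊b⌋ + (D + 1) := by exact_mod_cast this
    push_cast
    omega

/-- Equal floors of quotients. -/
theorem of_floor_div {a b : ℝ} {m : ℝ} (hm : 0 < m) (h : ⌊a / m⌋ = ⌊b / m⌋) : |a - b| ≤ m := by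
  have g1 := Int.floor_le (a / m)
  have g2 := Int.lt_floor_add_one (a / m)
  have g3 := Int.floor_le (b / m)
  have g4 := Int.lt_floor_add_one (b / m)
  rw [h] at g1 g2
  have e1 : |a / m - b / m| ≤ 1 := by
    rw [abs_le]
    constructor <;> linarith
  rw [← sub_div, abs_div, abs_of_pos hm, div_le_one hm] at e1
  exact e1

/-- The path. -/
noncomputable def pth {Λ 𝒞 : Type} (M : ℕ) (ctx : Λ → 𝒞) (x₀ c₁ c₂ : Λ → ℝ) (g : 𝒞 → ℤ → ℝ)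
    (x : Λ) (τ : ℤ) : ℝ :=
  x₀ x + c₁ x * ((τ : ℝ) / M) + c₂ x * ((τ : ℝ) / M) ^ 2 + g (ctx x) τ

/-- The context with the jets to `y` digits. -/
noncomputable def cty {Λ 𝒞 : Type} (Q : ℕ) (ctx : Λ → 𝒞) (x₀ c₁ c₂ : Λ → ℝ) (y : ℕ) (x : Λ) :
    𝒞 × (ℤ × (ℤ × ℤ)) :=
  (ctx x, (⌊x₀ x / 2 ^ (Q - y)⌋, (⌊c₁ x / 2 ^ (Q - y)⌋, ⌊c₂ x / 2 ^ (Q - y)⌋)))

/-- The data of the own path. -/
structure Npl (k K A : ℕ) (h δ c₀ : ℝ) (Q : ℕ) {Ω Λ Γ 𝒞 𝒱 : Type} [Fintype Ω] (p : Ω → ℝ)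
    (L : Ω → Λ) (t : Ω → ℤ) (G : Ω → Γ) (ctx : Λ → 𝒞) (x₀ c₁ c₂ : Λ → ℝ) (g : 𝒞 → ℤ → ℝ)
    (Vd : Ω → 𝒱) (M : ℕ) (F : ℝ) : Prop where
  law : IsLaw p
  M1 : 2 ^ Q ≤ M
  M2 : M ≤ 2 ^ (A * Q)
  tM : ∀ ω, 0 < p ω → |t ω| ≤ (M : ℤ)
  c2 : k = 1 → ∀ x, c₂ x = 0
  Gt : ∀ ω ω', 0 < p ω → 0 < p ω' → G ω = G ω' → t ω = t ω'
  Gx : ∀ ω ω', 0 < p ω → 0 < p ω' → G ω = G ω' →
    |pth M ctx x₀ c₁ c₂ g (L ω) (t ω) - pth M ctx x₀ c₁ c₂ g (L ω') (t ω)| ≤ K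
  Gv : k = 2 → ∀ ω ω', 0 < p ω → 0 < p ω' → G ω = G ω' → ctx (L ω) = ctx (L ω') →
    |(c₁ (L ω) - c₁ (L ω')) + 2 * (c₂ (L ω) - c₂ (L ω')) * ((t ω : ℝ) / M)| ≤ K
  tfull : Real.log (2 * M + 1) - δ * Q ≤ CH p t L
  vF : ∀ r : Ω → ℝ, IsLaw r → (∀ ω, 0 < r ω → 0 < p ω) → H r Vd ≤ F
  vfull : F - δ * Q ≤ CH p Vd G
  c0G : CH p (fun ω => cty Q ctx x₀ c₁ c₂ 0 (L ω)) G ≤ δ * Q
  nf : ∀ E : Ω → Prop, c₀ ≤ Pool.Agent.H49.Ent.law p E True → ∀ y ≤ Q,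
    CH (cond p E True) (fun ω => ⌊pth M ctx x₀ c₁ c₂ g (L ω) (t ω)⌋)
      (fun ω => (⌊pth M ctx x₀ c₁ c₂ g (L ω) (t ω) / 2 ^ (Q - y)⌋,
        (Vd ω, (t ω, ctx (L ω))))) ≤
      (1 - h) * (((Q : ℝ) - y) * Real.log 2) + δ * Q

section

variable {k K A : ℕ} {h δ c₀ : ℝ} {Q : ℕ} {Ω Λ Γ 𝒞 𝒱 : Type} [Fintype Ω] {p : Ω → ℝ}
  {L : Ω → Λ} {t : Ω → ℤ} {G : Ω → Γ} {ctx : Λ → 𝒞} {x₀ c₁ c₂ : Λ → ℝ} {g : 𝒞 → ℤ → ℝ}
  {Vd : Ω → 𝒱} {M : ℕ} {F : ℝ}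

theorem unit_le {τ : ℤ} {M : ℕ} (hM : 1 ≤ M) (hτ : |τ| ≤ (M : ℤ)) : |(τ : ℝ) / M| ≤ 1 := by
  have hM0 : (0 : ℝ) < M := by exact_mod_cast hM
  rw [abs_div, abs_of_pos hM0, div_le_one hM0]
  exact_mod_cast hτ

/-- The path at the time, given the context and the jets to `y` digits. -/
theorem pth_near (hM : 1 ≤ M) {x x' : Λ} {τ : ℤ} (hτ : |τ| ≤ (M : ℤ)) (y : ℕ)
    (e : cty Q ctx x₀ c₁ c₂ y x = cty Q ctx x₀ c₁ c₂ y x') :
    |pth M ctx x₀ c₁ c₂ g x τ - pth M ctx x₀ c₁ c₂ g x' τ| ≤ 3 * 2 ^ (Q - y) := by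
  have hm : (0 : ℝ) < 2 ^ (Q - y) := by positivity
  unfold cty at e
  simp only [Prod.mk.injEq] at e
  obtain ⟨e0, e1, e2, e3⟩ := e
  have f1 := of_floor_div hm e1
  have f2 := of_floor_div hm e2
  have f3 := of_floor_div hm e3
  have hu := unit_le hM hτ
  have hu2 : |((τ : ℝ) / M) ^ 2| ≤ 1 := by
    rw [abs_pow]
    exact pow_le_one₀ (abs_nonneg _) hu
  unfold pth
  rw [e0]
  have e4 : x₀ x + c₁ x * ((τ : ℝ) / M) + c₂ x * ((τ : ℝ) / M) ^ 2 + g (ctx x') τ -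
      (x₀ x' + c₁ x' * ((τ : ℝ) / M) + c₂ x' * ((τ : ℝ) / M) ^ 2 + g (ctx x') τ) =
      (x₀ x - x₀ x') + (c₁ x - c₁ x') * ((τ : ℝ) / M) +
        (c₂ x - c₂ x') * ((τ : ℝ) / M) ^ 2 := by ring
  rw [e4]
  have g1 : |(c₁ x - c₁ x') * ((τ : ℝ) / M)| ≤ 2 ^ (Q - y) := by
    rw [abs_mul]
    calc |c₁ x - c₁ x'| * |(τ : ℝ) / M| ≤ 2 ^ (Q - y) * 1 :=
          mul_le_mul f2 hu (abs_nonneg _) hm.le
      _ = 2 ^ (Q - y) := mul_one _
  have g2 : |(c₂ x - c₂ x') * ((τ : ℝ) / M) ^ 2| ≤ 2 ^ (Q - y) := by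
    rw [abs_mul]
    calc |c₂ x - c₂ x'| * |((τ : ℝ) / M) ^ 2| ≤ 2 ^ (Q - y) * 1 :=
          mul_le_mul f3 hu2 (abs_nonneg _) hm.le
      _ = 2 ^ (Q - y) := mul_one _
  refine (abs_add_three _ _ _).trans ?_
  linarith

/-- The jets, given the last one, the context and the record of the ball. -/
theorem jets_near (hM : 1 ≤ M) {x x' : Λ} {τ : ℤ} (hτ : |τ| ≤ (M : ℤ)) {m : ℝ} (hm : 1 ≤ m)
    (e0 : ctx x = ctx x')
    (hx : |pth M ctx x₀ c₁ c₂ g x τ - pth M ctx x₀ c₁ c₂ g x' τ| ≤ K) (hk : k = 1 ∨ k = 2)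
    (h2 : k = 1 → c₂ x = 0 ∧ c₂ x' = 0)
    (hv : k = 2 → |(c₁ x - c₁ x') + 2 * (c₂ x - c₂ x') * ((τ : ℝ) / M)| ≤ K)
    (hc : |(if k = 1 then c₁ x else c₂ x) - (if k = 1 then c₁ x' else c₂ x')| ≤ m) :
    |x₀ x - x₀ x'| ≤ (2 * K + 3) * m ∧ |c₁ x - c₁ x'| ≤ (2 * K + 3) * m ∧
      |c₂ x - c₂ x'| ≤ (2 * K + 3) * m := by
  have hK : (0 : ℝ) ≤ K := Nat.cast_nonneg K
  have hKm : (K : ℝ) ≤ K * m := by nlinarith
  have hu := unit_le hM hτ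
  have hu2 : |((τ : ℝ) / M) ^ 2| ≤ 1 := by
    rw [abs_pow]
    exact pow_le_one₀ (abs_nonneg _) hu
  have e4 : pth M ctx x₀ c₁ c₂ g x τ - pth M ctx x₀ c₁ c₂ g x' τ =
      (x₀ x - x₀ x') + (c₁ x - c₁ x') * ((τ : ℝ) / M) +
        (c₂ x - c₂ x') * ((τ : ℝ) / M) ^ 2 := by
    unfold pth
    rw [e0]
    ring
  rw [e4] at hx
  have key : ∀ A B : ℝ, |c₁ x - c₁ x'| ≤ A → |c₂ x - c₂ x'| ≤ B → |x₀ x - x₀ x'| ≤ K + A + B := by
    intro A B hA hB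
    have g1 : |(c₁ x - c₁ x') * ((τ : ℝ) / M)| ≤ A := by
      rw [abs_mul]
      calc |c₁ x - c₁ x'| * |(τ : ℝ) / M| ≤ A * 1 :=
            mul_le_mul hA hu (abs_nonneg _) ((abs_nonneg _).trans hA)
        _ = A := mul_one _
    have g2 : |(c₂ x - c₂ x') * ((τ : ℝ) / M) ^ 2| ≤ B := by
      rw [abs_mul]
      calc |c₂ x - c₂ x'| * |((τ : ℝ) / M) ^ 2| ≤ B * 1 :=
            mul_le_mul hB hu2 (abs_nonneg _) ((abs_nonneg _).trans hB)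
        _ = B := mul_one _
    have a1 := abs_le.mp hx
    have a2 := abs_le.mp g1
    have a3 := abs_le.mp g2
    rw [abs_le]
    constructor <;> linarith [a1.1, a1.2, a2.1, a2.2, a3.1, a3.2]
  rcases hk with rfl | rfl
  · obtain ⟨z1, z2⟩ := h2 rfl
    simp only [if_true] at hc
    have hc2 : |c₂ x - c₂ x'| ≤ 0 := by rw [z1, z2, sub_zero, abs_zero]
    have := key m 0 hc hc2
    refine ⟨by nlinarith, by nlinarith, hc2.trans (by positivity)⟩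
  · have hv := hv rfl
    have e5 : ¬ ((2 : ℕ) = 1) := by norm_num
    simp only [if_neg e5] at hc
    have g1 : |2 * (c₂ x - c₂ x') * ((τ : ℝ) / M)| ≤ 2 * m := by
      rw [abs_mul, abs_mul, abs_of_pos (by norm_num : (0 : ℝ) < 2)]
      calc 2 * |c₂ x - c₂ x'| * |(τ : ℝ) / M| ≤ 2 * m * 1 :=
            mul_le_mul (by linarith) hu (abs_nonneg _) (by linarith)
        _ = 2 * m := mul_one _
    have hc1 : |c₁ x - c₁ x'| ≤ K + 2 * m := by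
      have a1 := abs_le.mp hv
      have a2 := abs_le.mp g1
      rw [abs_le]
      constructor <;> linarith [a1.1, a1.2, a2.1, a2.2]
    have := key (K + 2 * m) m hc1 hc
    refine ⟨by nlinarith, by nlinarith, by nlinarith⟩

/-- **The data `Npd` of the own path.** -/
theorem Npl.npd (hk : k = 1 ∨ k = 2) (D : Npl k K A h δ c₀ Q p L t G ctx x₀ c₁ c₂ g Vd M F)
    {δ' : ℝ} (h1 : δ * Q + Real.log 11 + 3 * Real.log (2 * (2 * K + 5) + 1) ≤ δ' * Q)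
    (hQ : 4 ≤ Q) :
    Npd k (3 * K + 1) A h δ' c₀ Q p L t G (cty Q ctx x₀ c₁ c₂)
      (fun x => if k = 1 then c₁ x else c₂ x)
      (fun x τ => ⌊pth M ctx x₀ c₁ c₂ g x τ⌋) Vd M F := by
  have h0 := D.law.nonneg
  have hM : 1 ≤ M := le_trans Nat.one_le_two_pow D.M1
  have hM0 : (0 : ℝ) < M := by exact_mod_cast hM
  have hln : 0 < Real.log 2 := Real.log_pos (by norm_num)
  have hQr : (4 : ℝ) ≤ Q := by exact_mod_cast hQ
  have l11 : 0 ≤ Real.log 11 := Real.log_nonneg (by norm_num)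
  have hK0 : (0 : ℝ) ≤ K := Nat.cast_nonneg K
  have lK : 0 ≤ Real.log (2 * (2 * K + 5) + 1) := Real.log_nonneg (by linarith)
  have hδ : δ * Q ≤ δ' * Q := by linarith
  have hl2 : Real.log 2 ≤ Real.log 11 := Real.log_le_log (by norm_num) (by norm_num)
  -- a law with the same support
  have hsub : ∀ r : Ω → ℝ, IsLaw r → (∀ ω, 0 < r ω → 0 < p ω) → ∀ y ≤ Q,
      CH r (fun ω => ⌊pth M ctx x₀ c₁ c₂ g (L ω) (t ω) / 2 ^ (Q - y)⌋)
        (fun ω => (Vd ω, (t ω, cty Q ctx x₀ c₁ c₂ y (L ω)))) ≤ Real.log 11 := by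
    intro r hr hrp y hy
    have h2 := CH_pair (D := 4) hr (fun ω => ⌊pth M ctx x₀ c₁ c₂ g (L ω) (t ω) / 2 ^ (Q - y)⌋)
      (fun ω => (Vd ω, (t ω, cty Q ctx x₀ c₁ c₂ y (L ω)))) (fun ω ω' hω hω' e => by
        simp only [Prod.mk.injEq] at e
        obtain ⟨-, e1, e2⟩ := e
        have h3 := pth_near (g := g) hM (D.tM ω (hrp ω hω)) y e2
        have h4 : |pth M ctx x₀ c₁ c₂ g (L ω) (t ω) / 2 ^ (Q - y) -
            pth M ctx x₀ c₁ c₂ g (L ω') (t ω') / 2 ^ (Q - y)| ≤ (3 : ℕ) := by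
          rw [← e1, ← sub_div, abs_div, abs_of_pos (by positivity : (0 : ℝ) < 2 ^ (Q - y)),
            div_le_iff₀ (by positivity)]
          push_cast
          exact h3
        exact floor_sub_le h4)
    refine h2.trans (Real.log_le_log (by positivity) (by norm_num))
  refine ⟨D.law, D.M1, D.M2, D.tM, ?_, by linarith [D.tfull], D.vF, by linarith [D.vfull], ?_,
    D.c0G.trans hδ, ?_, ?_, ?_, ?_⟩
  · -- rel
    intro y hy ω ω' hω hω' eG eC τ hτ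
    have et := D.Gt ω ω' hω hω' eG
    have ec : ctx (L ω) = ctx (L ω') := by
      unfold cty at eC
      exact (Prod.ext_iff.mp eC).1
    have hx := D.Gx ω ω' hω hω' eG
    have g1 := Int.floor_le (pth M ctx x₀ c₁ c₂ g (L ω') τ)
    have g2 := Int.lt_floor_add_one (pth M ctx x₀ c₁ c₂ g (L ω') τ)
    have g3 := Int.floor_le (pth M ctx x₀ c₁ c₂ g (L ω) τ)
    have g4 := Int.lt_floor_add_one (pth M ctx x₀ c₁ c₂ g (L ω) τ)
    set u : ℝ := (τ : ℝ) / M with hu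
    set u₀ : ℝ := (t ω : ℝ) / M with hu₀
    have hu1 : |u| ≤ 1 := unit_le hM hτ
    have hu2 : |u₀| ≤ 1 := unit_le hM (D.tM ω hω)
    have eu : ((τ : ℝ) - t ω) / M = u - u₀ := by rw [hu, hu₀, sub_div]
    have e4 : ∀ s : ℤ, pth M ctx x₀ c₁ c₂ g (L ω') s - pth M ctx x₀ c₁ c₂ g (L ω) s =
        (x₀ (L ω') - x₀ (L ω)) + (c₁ (L ω') - c₁ (L ω)) * ((s : ℝ) / M) +
        (c₂ (L ω') - c₂ (L ω)) * ((s : ℝ) / M) ^ 2 := by
      intro s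
      unfold pth
      rw [ec]
      ring
    have e5 := e4 τ
    have e6 := e4 (t ω)
    rw [abs_sub_comm, e6] at hx
    rw [← hu] at e5
    rw [← hu₀] at hx
    rw [eu]
    have hx' := abs_le.mp hx
    rcases hk with rfl | rfl
    · have z1 := D.c2 rfl (L ω)
      have z2 := D.c2 rfl (L ω')
      rw [z1, z2] at e5 hx'
      simp only [if_true, pow_one]
      have e7 : (x₀ (L ω') - x₀ (L ω)) + (c₁ (L ω') - c₁ (L ω)) * u =
          ((x₀ (L ω') - x₀ (L ω)) + (c₁ (L ω') - c₁ (L ω)) * u₀) +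
            (c₁ (L ω') - c₁ (L ω)) * (u - u₀) := by ring
      rw [abs_le]
      push_cast
      constructor <;> linarith [hx'.1, hx'.2]
    · have hv := D.Gv rfl ω ω' hω hω' eG ec
      rw [← hu₀] at hv
      have e8 : ¬ ((2 : ℕ) = 1) := by norm_num
      simp only [if_neg e8]
      have e7 : (x₀ (L ω') - x₀ (L ω)) + (c₁ (L ω') - c₁ (L ω)) * u +
          (c₂ (L ω') - c₂ (L ω)) * u ^ 2 =
          ((x₀ (L ω') - x₀ (L ω)) + (c₁ (L ω') - c₁ (L ω)) * u₀ +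
            (c₂ (L ω') - c₂ (L ω)) * u₀ ^ 2) -
            ((c₁ (L ω) - c₁ (L ω')) + 2 * (c₂ (L ω) - c₂ (L ω')) * u₀) * (u - u₀) +
            (c₂ (L ω') - c₂ (L ω)) * (u - u₀) ^ 2 := by ring
      have g5 : |((c₁ (L ω) - c₁ (L ω')) + 2 * (c₂ (L ω) - c₂ (L ω')) * u₀) * (u - u₀)| ≤
          K * 2 := by
        rw [abs_mul]
        refine mul_le_mul hv ?_ (abs_nonneg _) hK0
        have := abs_sub u u₀
        linarith
      have g6 := abs_le.mp g5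
      rw [abs_le]
      push_cast
      constructor <;> linarith [hx'.1, hx'.2, g6.1, g6.2]
  · -- nG
    have h2 : CH p (fun ω => (⌊pth M ctx x₀ c₁ c₂ g (L ω) (t ω)⌋, t ω)) G =
        CH p (fun ω => ⌊pth M ctx x₀ c₁ c₂ g (L ω) (t ω)⌋) G := by
      refine CH_congr h0 ?_ ?_ (fun _ _ _ _ e => e) (fun _ _ _ _ e => e)
      · intro ω ω' _ _ e
        simp only [Prod.mk.injEq] at e ⊢
        exact e.1.1
      · intro ω ω' hω hω' e
        simp only [Prod.mk.injEq] at e ⊢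
        exact ⟨e.1, D.Gt ω ω' hω hω' e.2⟩
    rw [h2]
    have h3 := CH_pair (D := K + 1) D.law (fun ω => ⌊pth M ctx x₀ c₁ c₂ g (L ω) (t ω)⌋) G
      (fun ω ω' hω hω' e => by
        have h4 := D.Gx ω ω' hω hω' e
        rw [← D.Gt ω ω' hω hω' e]
        exact floor_sub_le h4)
    have h5 : Real.log (2 * ((K + 1 : ℕ) : ℝ) + 1) ≤ Real.log (2 * (2 * K + 5) + 1) := by
      refine Real.log_le_log (by positivity) ?_
      push_cast
      linarith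
    have : 0 ≤ δ * Q := (CH_nonneg h0 _ _).trans D.c0G
    linarith
  · -- up
    intro y y' hy hyQ
    have hm1 : (1 : ℝ) ≤ 2 ^ (Q - y') := one_le_pow₀ (by norm_num)
    have hm0 : (0 : ℝ) < 2 ^ (Q - y') := by positivity
    obtain ⟨Z, hZ⟩ : ∃ Z : Ω → ℤ × ((𝒞 × (ℤ × (ℤ × ℤ))) × Γ), Z = fun ω =>
      (⌊(if k = 1 then c₁ (L ω) else c₂ (L ω)) / 2 ^ (Q - y')⌋,
        (cty Q ctx x₀ c₁ c₂ y (L ω), G ω)) := ⟨_, rfl⟩
    have hfib : ∀ ω ω', 0 < p ω → 0 < p ω' → Z ω = Z ω' → ctx (L ω) = ctx (L ω') ∧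
        |x₀ (L ω) - x₀ (L ω')| ≤ (2 * K + 3) * 2 ^ (Q - y') ∧
        |c₁ (L ω) - c₁ (L ω')| ≤ (2 * K + 3) * 2 ^ (Q - y') ∧
        |c₂ (L ω) - c₂ (L ω')| ≤ (2 * K + 3) * 2 ^ (Q - y') := by
      intro ω ω' hω hω' e
      rw [hZ] at e
      simp only [Prod.mk.injEq] at e
      obtain ⟨e1, e2, e3⟩ := e
      have ec : ctx (L ω) = ctx (L ω') := by
        unfold cty at e2
        exact (Prod.ext_iff.mp e2).1
      refine ⟨ec, ?_⟩
      exact jets_near hM (D.tM ω hω) hm1 ec (D.Gx ω ω' hω hω' e3) hk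
        (fun h => ⟨D.c2 h _, D.c2 h _⟩) (fun h => D.Gv h ω ω' hω hω' e3 ec)
        (of_floor_div hm0 e1)
    have hfl : ∀ a b : ℝ, |a - b| ≤ (2 * K + 3) * 2 ^ (Q - y') →
        |⌊a / 2 ^ (Q - y')⌋ - ⌊b / 2 ^ (Q - y')⌋| ≤ ((2 * K + 4 : ℕ) : ℤ) := by
      intro a b hab
      have h2 : |a / 2 ^ (Q - y') - b / 2 ^ (Q - y')| ≤ ((2 * K + 3 : ℕ) : ℝ) := by
        rw [← sub_div, abs_div, abs_of_pos hm0, div_le_iff₀ hm0]
        push_cast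
        exact hab
      exact floor_sub_le h2
    have b1 := CH_pair (D := 2 * K + 4) D.law (fun ω => ⌊x₀ (L ω) / 2 ^ (Q - y')⌋) Z
      (fun ω ω' hω hω' e => hfl _ _ (hfib ω ω' hω hω' e).2.1)
    have b2 := CH_pair (D := 2 * K + 4) D.law (fun ω => ⌊c₁ (L ω) / 2 ^ (Q - y')⌋) Z
      (fun ω ω' hω hω' e => hfl _ _ (hfib ω ω' hω hω' e).2.2.1)
    have b3 := CH_pair (D := 2 * K + 4) D.law (fun ω => ⌊c₂ (L ω) / 2 ^ (Q - y')⌋) Z
      (fun ω ω' hω hω' e => hfl _ _ (hfib ω ω' hω hω' e).2.2.2)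
    have lk : Real.log (2 * ((2 * K + 4 : ℕ) : ℝ) + 1) ≤ Real.log (2 * (2 * K + 5) + 1) := by
      refine Real.log_le_log (by positivity) ?_
      push_cast
      linarith
    have b4 := CH_subadd h0 (fun ω => ⌊c₁ (L ω) / 2 ^ (Q - y')⌋)
      (fun ω => ⌊c₂ (L ω) / 2 ^ (Q - y')⌋) Z
    have b5 := CH_subadd h0 (fun ω => ⌊x₀ (L ω) / 2 ^ (Q - y')⌋)
      (fun ω => (⌊c₁ (L ω) / 2 ^ (Q - y')⌋, ⌊c₂ (L ω) / 2 ^ (Q - y')⌋)) Z
    have b6 : CH p (fun ω => cty Q ctx x₀ c₁ c₂ y' (L ω)) Z =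
        CH p (fun ω => (⌊x₀ (L ω) / 2 ^ (Q - y')⌋,
          (⌊c₁ (L ω) / 2 ^ (Q - y')⌋, ⌊c₂ (L ω) / 2 ^ (Q - y')⌋))) Z := by
      refine CH_congr h0 ?_ ?_ (fun _ _ _ _ e => e) (fun _ _ _ _ e => e)
      · intro ω ω' _ _ e
        unfold cty at e
        simp only [Prod.mk.injEq] at e ⊢
        exact e.1.2
      · intro ω ω' hω hω' e
        have e1 := (Prod.ext_iff.mp e).1
        have e2 := (hfib ω ω' hω hω' (Prod.ext_iff.mp e).2).1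
        unfold cty
        exact Prod.ext e2 e1
    show CH p (fun ω => cty Q ctx x₀ c₁ c₂ y' (L ω))
      (fun ω => (⌊(if k = 1 then c₁ (L ω) else c₂ (L ω)) / 2 ^ (Q - y')⌋,
        (cty Q ctx x₀ c₁ c₂ y (L ω), G ω))) ≤ δ' * Q
    rw [← hZ, b6]
    have : 0 ≤ δ * Q := (CH_nonneg h0 _ _).trans D.c0G
    linarith
  · -- nf
    intro E hE y hy
    by_cases hE0 : 0 < Pool.Agent.H49.Ent.law p E True
    · have hl : IsLaw (cond p E True) := ⟨cond_nonneg h0 E True, sum_cond p E hE0.ne'⟩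
      have h2 := hsub _ hl (fun ω hω => ((cond_pos_iff h0 E True ω).mp hω).1) y hy
      have h3 := CH_le_add hl.nonneg (fun ω => ⌊pth M ctx x₀ c₁ c₂ g (L ω) (t ω)⌋)
        (fun ω => ⌊pth M ctx x₀ c₁ c₂ g (L ω) (t ω) / 2 ^ (Q - y)⌋)
        (fun ω => (Vd ω, (t ω, cty Q ctx x₀ c₁ c₂ y (L ω))))
      have h4 : CH (cond p E True) (fun ω => ⌊pth M ctx x₀ c₁ c₂ g (L ω) (t ω)⌋)
          (fun ω => (⌊pth M ctx x₀ c₁ c₂ g (L ω) (t ω) / 2 ^ (Q - y)⌋,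
            (Vd ω, (t ω, cty Q ctx x₀ c₁ c₂ y (L ω))))) ≤
          CH (cond p E True) (fun ω => ⌊pth M ctx x₀ c₁ c₂ g (L ω) (t ω)⌋)
          (fun ω => (⌊pth M ctx x₀ c₁ c₂ g (L ω) (t ω) / 2 ^ (Q - y)⌋,
            (Vd ω, (t ω, ctx (L ω))))) := by
        refine CH_mono_cond hl.nonneg fun ω ω' _ _ e => ?_
        unfold cty at e
        simp only [Prod.mk.injEq] at e ⊢
        exact ⟨e.1, e.2.1, e.2.2.1, e.2.2.2.1⟩
      have h5 := D.nf E hE y hy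
      linarith
    · -- the empty event
      have hz : ∀ ω, cond p E True ω = 0 := by
        intro ω
        unfold Pool.Agent.H49.Ent.cond
        have h6 : Pool.Agent.H49.Ent.law p E True = 0 :=
          le_antisymm (not_lt.mp hE0) (law_nonneg h0 E True)
        rw [h6, div_zero, ite_self]
      have h7 : CH (cond p E True) (fun ω => ⌊pth M ctx x₀ c₁ c₂ g (L ω) (t ω)⌋)
          (fun ω => (Vd ω, (t ω, cty Q ctx x₀ c₁ c₂ y (L ω)))) = 0 := by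
        unfold CH H
        simp [hz]
      have h8 : CH (cond p E True) (fun ω => ⌊pth M ctx x₀ c₁ c₂ g (L ω) (t ω)⌋)
          (fun ω => (⌊pth M ctx x₀ c₁ c₂ g (L ω) (t ω) / 2 ^ (Q - y)⌋,
            (Vd ω, (t ω, ctx (L ω))))) = 0 := by
        unfold CH H
        simp [hz]
      have h9 := D.nf E hE y hy
      rw [h8] at h9
      show CH (cond p E True) (fun ω => ⌊pth M ctx x₀ c₁ c₂ g (L ω) (t ω)⌋)
          (fun ω => (Vd ω, (t ω, cty Q ctx x₀ c₁ c₂ y (L ω)))) ≤ _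
      rw [h7]
      linarith
  · -- nv
    intro r hr hrp y hy
    have h2 := CH_pair (D := 3 * 2 ^ (Q - y) + 1) hr
      (fun ω => ⌊pth M ctx x₀ c₁ c₂ g (L ω) (t ω)⌋)
      (fun ω => (Vd ω, (t ω, cty Q ctx x₀ c₁ c₂ y (L ω)))) (fun ω ω' hω hω' e => by
        simp only [Prod.mk.injEq] at e
        obtain ⟨-, e1, e2⟩ := e
        have h3 := pth_near (g := g) hM (D.tM ω (hrp ω hω)) y e2
        rw [← e1]
        refine floor_sub_le ?_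
        push_cast
        exact h3)
    refine h2.trans ?_
    have h3 : 2 * ((3 * 2 ^ (Q - y) + 1 : ℕ) : ℝ) + 1 ≤ Real.exp (2 * Q) := by
      have h4 : (2 : ℝ) ^ (Q - y) ≤ 2 ^ Q := pow_le_pow_right₀ (by norm_num) (Nat.sub_le _ _)
      have h5 : (1 : ℝ) ≤ 2 ^ Q := one_le_pow₀ (by norm_num)
      have h6 : (2 : ℝ) ^ Q * 2 ^ Q ≤ Real.exp (2 * Q) := by
        have e1 : (2 : ℝ) ≤ Real.exp 1 := by
          have := Real.add_one_le_exp (1 : ℝ)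
          linarith
        have e2 : (2 : ℝ) ^ Q ≤ Real.exp Q := by
          calc (2 : ℝ) ^ Q ≤ (Real.exp 1) ^ Q := pow_le_pow_left₀ (by norm_num) e1 _
            _ = Real.exp Q := by rw [← Real.exp_nat_mul, mul_one]
        calc (2 : ℝ) ^ Q * 2 ^ Q ≤ Real.exp Q * Real.exp Q :=
              mul_le_mul e2 e2 (by positivity) (Real.exp_pos _).le
          _ = Real.exp (2 * Q) := by rw [← Real.exp_add]; ring_nf
      have h7 : (16 : ℝ) ≤ 2 ^ Q := by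
        calc (16 : ℝ) = 2 ^ 4 := by norm_num
          _ ≤ 2 ^ Q := pow_le_pow_right₀ (by norm_num) hQ
      push_cast
      nlinarith
    have h8 := Real.log_le_log (by positivity) h3
    rwa [Real.log_exp] at h8
  · -- cv
    intro r hr hrp y y' hy hyQ
    have hm0 : (0 : ℝ) < 2 ^ (Q - y') := by positivity
    have hm : (2 : ℝ) ^ (Q - y) = 2 ^ (y' - y) * 2 ^ (Q - y') := by
      rw [← pow_add]
      congr 1
      omega
    have h2 := CH_pair (D := 2 ^ (y' - y) + 1) hr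
      (fun ω => ⌊(if k = 1 then c₁ (L ω) else c₂ (L ω)) / 2 ^ (Q - y')⌋)
      (fun ω => (cty Q ctx x₀ c₁ c₂ y (L ω), G ω)) (fun ω ω' hω hω' e => by
        have e1 := (Prod.ext_iff.mp e).1
        unfold cty at e1
        simp only [Prod.mk.injEq] at e1
        obtain ⟨-, -, e2, e3⟩ := e1
        have f2 := of_floor_div (by positivity) e2
        have f3 := of_floor_div (by positivity) e3
        refine floor_sub_le ?_
        rw [← sub_div, abs_div, abs_of_pos hm0, div_le_iff₀ hm0]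
        push_cast
        rw [← hm]
        split_ifs
        · exact f2
        · exact f3)
    refine h2.trans ?_
    have h5 : (1 : ℝ) ≤ 2 ^ (y' - y) := one_le_pow₀ (by norm_num)
    have h3 : 2 * ((2 ^ (y' - y) + 1 : ℕ) : ℝ) + 1 ≤ 11 * 2 ^ (y' - y) := by
      push_cast
      linarith
    have h4 := Real.log_le_log (by positivity) h3
    rw [Real.log_mul (by norm_num) (by positivity), Real.log_pow, Nat.cast_sub hy] at h4
    have : 0 ≤ δ * Q := (CH_nonneg h0 _ _).trans D.c0G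
    linarith

end

/-- **The own path is few bits given the ball.** -/
theorem npl {k : ℕ} (hk : k = 1 ∨ k = 2) {h : ℝ} (hh : 0 < h) (hh1 : h ≤ 1) (ε : ℝ)
    (hε : 0 < ε) : ∃ δ : ℝ, 0 < δ ∧ ∃ c₀ : ℝ, 0 < c₀ ∧ ∀ K A : ℕ, ∃ Q₀ : ℕ, ∀ Q ≥ Q₀,
    ∀ (Ω Λ Γ 𝒞 𝒱 : Type) [Fintype Ω] (p : Ω → ℝ) (L : Ω → Λ) (t : Ω → ℤ) (G : Ω → Γ)
      (ctx : Λ → 𝒞) (x₀ c₁ c₂ : Λ → ℝ) (g : 𝒞 → ℤ → ℝ) (Vd : Ω → 𝒱) (M : ℕ) (F : ℝ),
      Npl k K A h δ c₀ Q p L t G ctx x₀ c₁ c₂ g Vd M F →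
      CH p (fun ω => (ctx (L ω), (⌊x₀ (L ω)⌋, (⌊c₁ (L ω)⌋, ⌊c₂ (L ω)⌋)))) G ≤ ε * Q := by
  obtain ⟨δ, hδ, c₀, hc₀, H0⟩ := npath hk hh hh1 ε hε
  refine ⟨δ / 2, by positivity, c₀, hc₀, fun K A => ?_⟩
  obtain ⟨Q₁, H⟩ := H0 (3 * K + 1) A
  obtain ⟨Q₂, hQ₂⟩ := exists_nat_ge
    ((Real.log 11 + 3 * Real.log (2 * (2 * K + 5) + 1)) / (δ / 2))
  refine ⟨max 4 (max Q₁ Q₂), ?_⟩
  intro Q hQ Ω Λ Γ 𝒞 𝒱 _ p L t G ctx x₀ c₁ c₂ g Vd M F D
  have q0 : 4 ≤ Q := (le_max_left _ _).trans hQ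
  have q1 : Q₁ ≤ Q := (le_max_left _ _).trans ((le_max_right _ _).trans hQ)
  have q2 : Q₂ ≤ Q := (le_max_right _ _).trans ((le_max_right _ _).trans hQ)
  have h1 : δ / 2 * Q + Real.log 11 + 3 * Real.log (2 * (2 * K + 5) + 1) ≤ δ * Q := by
    have h2 : (Real.log 11 + 3 * Real.log (2 * (2 * K + 5) + 1)) / (δ / 2) ≤ Q :=
      hQ₂.trans (by exact_mod_cast q2)
    rw [div_le_iff₀ (by positivity)] at h2
    linarith
  have h3 := H Q q1 Ω Λ Γ _ 𝒱 p L t G _ _ _ Vd M F (D.npd hk h1 q0)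
  have e : (fun ω => cty Q ctx x₀ c₁ c₂ Q (L ω)) =
      fun ω => (ctx (L ω), (⌊x₀ (L ω)⌋, (⌊c₁ (L ω)⌋, ⌊c₂ (L ω)⌋))) := by
    funext ω
    unfold cty
    simp only [Nat.sub_self, pow_zero, div_one]
  simp only [e] at h3
  exact h3

end Pool.OWN68
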