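import Pool.Agent.H68.OWN.Jp

/-!
# The own jets of a nonfull coordinate are few bits given the ball

`jet_cls`: with the inputs of `path_cls`, the own jets of every order over any closed label of the
window `w` are few bits given a closed function and `y`.
-/

set_option autoImplicit false

namespace Pool.OWN68

open Finset Real MvPolynomial
open Pool.Agent.H49.Ent Pool.Agent.H32.Dense Pool.STK Pool.KA Pool.KSAT Pool.K2S Pool.PB Pool.GEN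
open Pool.S6C Pool.RCD Pool.LA91
open Pool.GRD (LbP)

/-- The jets from the path. -/
theorem jet_path (D j : ℕ) : ∃ M : ℕ, ∀ {m J : ℕ} {F : Fam m J} {w : ℝ} (_ : 0 ≤ w)
    (_ : ⌊w * J⌋₊ ≤ J) {s : ℝ} {κ : Fin m} {V α : Type} {z' : LnT F → V}
    {G : V → MvPolynomial (Option (Fin m)) ℝ} (_ : ∀ v, (X (some κ) - G v).totalDegree ≤ D)
    {q : F.Ω → ℝ} (_ : IsLaw q) (Y : F.Ω → α)
    (_ : ∀ ω ω', 0 < q ω → 0 < q ω' → Y ω = Y ω' → F.T ω = F.T ω' ∧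
      ∀ i ≤ D, ⌊jr F ⌊w * J⌋₊ (2 ^ (s * J)) κ z' G i (slam F ⌊w * J⌋₊ ω)⌋ =
        ⌊jr F ⌊w * J⌋₊ (2 ^ (s * J)) κ z' G i (slam F ⌊w * J⌋₊ ω')⌋),
    CH q (fun ω => ⌊(2 : ℝ) ^ ((s - j * w) * J) * ojet F κ j (G (z' (slam F ⌊w * J⌋₊ ω))) ω⌋) Y ≤
      Real.log (2 * M + 1) := by
  obtain ⟨C, hC, hder⟩ := der_small D
  obtain ⟨M, hM⟩ := exists_nat_ge (2 ^ j * C)
  refine ⟨M + 1, ?_⟩
  intro m J F w hw0 hwJ s κ V α z' G hdeg q hq Y hY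
  refine CH_pair hq _ Y fun ω ω' hω hω' e => floor_sub_le ?_
  obtain ⟨hT, hfl⟩ := hY ω ω' hω hω' e
  have hu : uw F ⌊w * J⌋₊ ω' = uw F ⌊w * J⌋₊ ω := by
    unfold uw tw
    rw [hT]
  have hEd : (jR F ⌊w * J⌋₊ (2 ^ (s * J)) κ z' G (slam F ⌊w * J⌋₊ ω) -
      jR F ⌊w * J⌋₊ (2 ^ (s * J)) κ z' G (slam F ⌊w * J⌋₊ ω')).natDegree ≤ D :=
    (Polynomial.natDegree_sub_le _ _).trans (max_le (natDegree_jR hdeg _) (natDegree_jR hdeg _))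
  have h1 := hder _ j (uw F ⌊w * J⌋₊ ω) 1 hEd (uw_abs F _ ω) (fun i _ => by
    rw [Polynomial.coeff_sub]
    by_cases hi : i ≤ D
    · have e1 := hfl i hi
      have g1 := Int.floor_le (jr F ⌊w * J⌋₊ (2 ^ (s * J)) κ z' G i (slam F ⌊w * J⌋₊ ω))
      have g2 := Int.lt_floor_add_one (jr F ⌊w * J⌋₊ (2 ^ (s * J)) κ z' G i (slam F ⌊w * J⌋₊ ω))
      have g3 := Int.floor_le (jr F ⌊w * J⌋₊ (2 ^ (s * J)) κ z' G i (slam F ⌊w * J⌋₊ ω'))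
      have g4 := Int.lt_floor_add_one
        (jr F ⌊w * J⌋₊ (2 ^ (s * J)) κ z' G i (slam F ⌊w * J⌋₊ ω'))
      rw [e1] at g1 g2
      show |jr F ⌊w * J⌋₊ (2 ^ (s * J)) κ z' G i (slam F ⌊w * J⌋₊ ω) -
        jr F ⌊w * J⌋₊ (2 ^ (s * J)) κ z' G i (slam F ⌊w * J⌋₊ ω')| ≤ 1
      rw [abs_le]
      constructor <;> linarith
    · rw [Polynomial.coeff_eq_zero_of_natDegree_lt
          (lt_of_le_of_lt (natDegree_jR hdeg _) (by omega)),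
        Polynomial.coeff_eq_zero_of_natDegree_lt
          (lt_of_le_of_lt (natDegree_jR hdeg _) (by omega)), sub_zero, abs_zero]
      exact zero_le_one)
  rw [mul_one, Polynomial.iterate_derivative_sub, Polynomial.eval_sub, jR_jet hwJ ω j, ← hu,
    jR_jet hwJ ω' j] at h1
  have hs := (scale_le (s := s) hw0 J j).2
  obtain ⟨o, ho⟩ : ∃ o, o = ojet F κ j (G (z' (slam F ⌊w * J⌋₊ ω))) ω := ⟨_, rfl⟩
  obtain ⟨o', ho'⟩ : ∃ o', o' = ojet F κ j (G (z' (slam F ⌊w * J⌋₊ ω'))) ω' := ⟨_, rfl⟩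
  obtain ⟨A, hA⟩ : ∃ A : ℝ, A = 2 ^ (s * J) * (1 / 2 ^ (⌊w * J⌋₊ + 1)) ^ j := ⟨_, rfl⟩
  rw [← ho, ← ho', ← hA] at h1
  rw [← ho, ← ho']
  rw [← hA] at hs
  have hA0 : 0 ≤ A := by
    rw [hA]
    positivity
  refine le_trans ?_ hM
  have hp : (0 : ℝ) ≤ 2 ^ ((s - j * w) * J) := (Real.rpow_pos_of_pos (by norm_num) _).le
  rw [← mul_sub, abs_mul, abs_of_nonneg hp]
  rw [← mul_sub, abs_mul, abs_of_nonneg hA0] at h1
  calc (2 : ℝ) ^ ((s - j * w) * J) * |o - o'| ≤ 2 ^ j * A * |o - o'| :=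
        mul_le_mul_of_nonneg_right hs (abs_nonneg _)
    _ = 2 ^ j * (A * |o - o'|) := by ring
    _ ≤ 2 ^ j * C := mul_le_mul_of_nonneg_left h1 (by positivity)

/-- **The own jets of a nonfull coordinate are few bits given the ball.** -/
theorem jet_cls {k : ℕ} (hk : k = 1 ∨ k = 2) {h : ℝ} (hh : 0 < h) (hh1 : h ≤ 1) {ε : ℝ}
    (hε : 0 < ε) : ∃ δ : ℝ, 0 < δ ∧ ∀ {m : ℕ} {S : PCl m} {C₀ : ℝ} (_ : TmC S C₀)
    {I : Finset (Fin m)} {κ : Fin m} {w a p q r : ℝ} (_ : 0 ≤ w) (_ : w ≤ a) (_ : a ≤ 1)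
    (_ : 0 < q) (_ : w + q ≤ 1) (_ : 0 ≤ r)
    {α γ : ∀ J : ℕ, Fam m J → Type} {f : ∀ (J : ℕ) (F : Fam m J), F.Ω → α J F}
    {y : ∀ (J : ℕ) (F : Fam m J), F.Ω → γ J F}
    (_ : ∀ (J : ℕ) (F : Fam m J), ∃ φ : α J F → PtT F, ∀ ω, ptr F J ω = φ (f J F ω))
    (_ : ∀ (J : ℕ) (F : Fam m J), ∃ φ : γ J F → ℕ, ∀ ω, F.T ω = φ (y J F ω))
    {𝒞 : ∀ J : ℕ, Fam m J → Type} (c : ∀ (J : ℕ) (F : Fam m J), LnT F → 𝒞 J F),
    Bas S (fun J F A => ∃ (V : Type) (z : F.Ω → V), Cl2 (f J F) (vg a J F) A z ∧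
      CH (Pool.Agent.H49.Ent.cond F.p A True) (fun ω => c J F (vg w J F ω))
        (fun ω => (z ω, y J F ω)) ≤ δ * q * J) →
    NfH S I κ w p q r h (δ * q) (fun J F ω => c J F (vg w J F ω)) →
    JetH S f (vg a) y I κ k w p q (δ * q) → Att S I κ w p r → ∀ j : ℕ,
    Few S f (vg a) y (qJet m I κ j w p (p + q - j * w)) (qJet m I κ j w p (p + q - j * w)) →
    ∃ e : ℝ, 0 < e ∧ F0 S f (vg a) y (qJet m I κ j w p (p + q - j * w)) e (ε * q) := by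
  obtain ⟨δ, hδ, Hp⟩ := path_cls hk hh hh1 (ε := ε / 4) (by positivity)
  refine ⟨δ, hδ, ?_⟩
  intro m S C₀ htm I κ w a p q r hw0 hwa ha hq hwq hr α γ f y hf hy 𝒞 c hc hnf hjet hatt j hself
  obtain ⟨e₁, he₁, Hp⟩ := Hp htm hw0 hwa ha hq hwq hr hf hy c hc hnf hjet
  obtain ⟨e₂, he₂, Hs⟩ := hself (ε / 4 * q) (by positivity)
  have he0 : 0 < min e₁ e₂ := lt_min he₁ he₂
  refine ⟨min e₁ e₂, he0, fun K => ?_⟩
  obtain ⟨K₀, hK₀⟩ := hatt _ he0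
  obtain ⟨M, J₁, hcnt⟩ := cnt_jet m K₀ j (N := p + q - j * w) (w := w) hr he0
  obtain ⟨M₂, hM₂⟩ := jet_path (K₀ + 2) j
  have hl : 0 ≤ Real.log (2 * M₂ + 1) := Real.log_nonneg (by
    have : (0 : ℝ) ≤ M₂ := Nat.cast_nonneg _
    linarith)
  obtain ⟨J₂, hJ₂⟩ := exists_nat_ge (Real.log (2 * M₂ + 1) / (ε / 4 * q))
  refine Bas.mono (max J₁ J₂) ((hK₀.and (Hp _ he0 (min_le_left _ _) K₀)).and
    ((Hs (max K (max K₀ M))).and (Pool.GRW.tmc_bas htm one_pos))) ?_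
  rintro J hJ F A ⟨⟨⟨V, z, z', G, hlb⟩, HP⟩, HS, hA, -⟩ u hu
  have hJ1 : J₁ ≤ J := (le_max_left _ _).trans hJ
  have hJ2 : (J₂ : ℝ) ≤ J := by exact_mod_cast (le_max_right _ _).trans hJ
  have hJ0 : (0 : ℝ) ≤ J := Nat.cast_nonneg J
  have f1 : Real.log (2 * M₂ + 1) ≤ ε / 4 * q * J := by
    have : Real.log (2 * M₂ + 1) / (ε / 4 * q) ≤ J := hJ₂.trans hJ2
    rw [div_le_iff₀ (by positivity)] at this
    linarith
  have hcl := isLaw_cond F.isLaw hA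
  have h0 := hcl.nonneg
  have hwJ : ⌊w * J⌋₊ ≤ J := floor_le (by linarith) J
  -- the jets over the label of the class
  obtain ⟨u₁, hu₁⟩ : ∃ u₁ : F.Ω → ℤ, u₁ = fun ω => ⌊(2 : ℝ) ^ ((p + q - j * w) * J) *
    ojet F κ j (G (z' (slam F ⌊w * J⌋₊ ω))) ω⌋ := ⟨_, rfl⟩
  obtain ⟨V₁, z₁, hz₁, h1⟩ := HP V z z' G hlb
  have hP₁ : (qJet m I κ j w p (p + q - j * w)).P (max K (max K₀ M)) (min e₁ e₂) J F A u₁ := by
    refine ⟨?_, V, z, z', G, ?_, fun ω _ => by rw [hu₁]⟩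
    · rw [hu₁]
      refine (hcnt J hJ1 F I κ _ A V z z' G hlb).trans (Real.exp_le_exp.2 ?_)
      refine mul_le_mul_of_nonneg_right ?_ hJ0
      exact_mod_cast (le_max_right _ _).trans (le_max_right _ _)
    · exact (LbP.of hlb).mono (Finset.Subset.refl _)
        ((le_max_left _ _).trans (le_max_right _ _)) le_rfl
  obtain ⟨V₂, z₂, hz₂, h2⟩ := HS u₁ u ((qJet m I κ j w p (p + q - j * w)).mono le_rfl
    (min_le_right _ _) hP₁) ((qJet m I κ j w p (p + q - j * w)).mono (le_max_left _ _)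
    (min_le_right _ _) hu)
  refine ⟨_, fun ω => (z₁ ω, z₂ ω), hz₁.join hz₂, ?_⟩
  obtain ⟨X, hX⟩ : ∃ X : F.Ω → (V × (F.ζ × ℕ)) × (𝒞 J F × (Fin (K₀ + 3) → ℤ)), X = fun ω =>
    ((z' (vg w J F ω), (vg w J F ω).2), (c J F (vg w J F ω),
      fun j : Fin (K₀ + 3) => ⌊jr F ⌊w * J⌋₊ (2 ^ ((p + q) * J)) κ z' G j (vg w J F ω)⌋)) :=
    ⟨_, rfl⟩
  rw [← hX] at h1
  obtain ⟨φT, hφT⟩ := hy J F
  have h3 : CH (Pool.Agent.H49.Ent.cond F.p A True) u₁ (fun ω => (X ω, (z₁ ω, y J F ω))) ≤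
      Real.log (2 * M₂ + 1) := by
    rw [hu₁]
    refine hM₂ hw0 hwJ (fun v => ?_) hcl (fun ω => (X ω, (z₁ ω, y J F ω))) fun ω ω' _ _ e => ?_
    · refine (MvPolynomial.totalDegree_sub _ _).trans (max_le ?_ ?_)
      · exact (totalDegree_X _).le.trans (by omega)
      · exact (hlb.deg v).trans (by omega)
    · simp only [Prod.mk.injEq] at e
      refine ⟨by rw [hφT, hφT, e.2.2], fun i hi => ?_⟩
      have e1 := e.1
      rw [hX] at e1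
      simp only [Prod.mk.injEq] at e1
      exact congrFun e1.2.2 ⟨i, by omega⟩
  have s1 := CH_le_add h0 u u₁ (fun ω => ((z₁ ω, z₂ ω), y J F ω))
  have s2 : CH (Pool.Agent.H49.Ent.cond F.p A True) u₁ (fun ω => ((z₁ ω, z₂ ω), y J F ω)) ≤
      CH (Pool.Agent.H49.Ent.cond F.p A True) u₁ (fun ω => (z₁ ω, y J F ω)) :=
    CH_mono_cond h0 fun ω ω' _ _ e => by
      simp only [Prod.mk.injEq] at e ⊢
      exact ⟨e.1.1, e.2⟩
  have s3 := CH_le_add h0 u₁ X (fun ω => (z₁ ω, y J F ω))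
  have s4 : CH (Pool.Agent.H49.Ent.cond F.p A True) u (fun ω => (u₁ ω, ((z₁ ω, z₂ ω), y J F ω))) ≤
      CH (Pool.Agent.H49.Ent.cond F.p A True) u (fun ω => (u₁ ω, (z₂ ω, y J F ω))) :=
    CH_mono_cond h0 fun ω ω' _ _ e => by
      simp only [Prod.mk.injEq] at e ⊢
      exact ⟨e.1, e.2.1.2, e.2.2⟩
  have s5 : 0 ≤ ε * q * J := by positivity
  linarith only [s1, s2, s3, s4, h1, h2, h3, f1, s5]

end Pool.OWN68
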