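import Pool.Agent.H68.OWN.Jn

/-!
# The own path over the base is few bits given the ball

`cV0`: the path of the base coordinates in the window, to `n` digits. `NfH.few`: change of the
condition. `npath_V0`: a coordinate which is not full given all base coordinates has an own path
which is few bits given the ball, if the labels are over the base, the base is full, and the slope
of the heights is between `k` and `k + 1`, `k = 1, 2`.
-/

set_option autoImplicit false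

namespace Pool.OWN68

open Finset Real MvPolynomial
open Pool.Agent.H49.Ent Pool.Agent.H32.Dense Pool.STK Pool.KA Pool.KSAT Pool.K2S Pool.PB Pool.GEN
open Pool.S6C Pool.RCD Pool.LA91
open Pool.GRD (LbP Pb_mono_pos)
open Pool.UNJ (ceI Tub)
open Pool.BFL (Pb)

variable {m J : ℕ}

/-- **The path of the base coordinates** in the window `W`, to `n` digits. -/
noncomputable def cV0 (I : Finset (Fin m)) (W n : ℕ) (F : Fam m J) (x : LnT F) :
    Fin m → ℤ × ℤ :=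
  fun i => if i ∈ I then (⌊(2 : ℝ) ^ n * mid F W x (some i)⌋,
    ⌊(2 : ℝ) ^ n * (1 / 2 ^ (W + 1)) * dirv F x (some i)⌋) else (0, 0)

theorem x_mid (F : Fam m J) {W : ℕ} (hW : W ≤ J) (ω : F.Ω) (i : Fin m) :
    F.x ω i = mid F W (slam F W ω) (some i) +
      uw F W ω / 2 ^ (W + 1) * dirv F (slam F W ω) (some i) := bt_mid F hW ω (some i)

theorem fl_abs {t a b : ℝ} (ht : 0 < t) (h : ⌊t * a⌋ = ⌊t * b⌋) : |t * (a - b)| ≤ 1 := by
  have := fl_scale ht.le (by rw [one_mul]) ht h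
  rwa [← mul_sub] at this

/-- The point from the path. -/
theorem cV0_pos {F : Fam m J} {q : F.Ω → ℝ} (hq : IsLaw q) (I : Finset (Fin m)) {W : ℕ}
    (hW : W ≤ J) (n : ℕ) : CH q (fun ω => ceI I (fun _ => n) (F.x ω))
      (fun ω => (cV0 I W n F (slam F W ω), F.W ω)) ≤ m * Real.log 7 := by
  classical
  have h0 := hq.nonneg
  have l7 : 0 ≤ Real.log 7 := Real.log_nonneg (by norm_num)
  refine (CH_pis h0 _ _).trans ?_
  have h1 : ∀ i ∈ (univ : Finset (Fin m)), CH q (fun ω => ceI I (fun _ => n) (F.x ω) i)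
      (fun ω => (cV0 I W n F (slam F W ω), F.W ω)) ≤ Real.log 7 := by
    intro i _
    by_cases hi : i ∈ I
    · have e5 : (7 : ℝ) = 2 * ((3 : ℕ) : ℝ) + 1 := by norm_num
      rw [e5]
      refine CH_pair hq _ _ fun ω ω' hω hω' e => ?_
      have e1 := congrFun (Prod.ext_iff.mp e).1 i
      have hT : F.T ω = F.T ω' := (Prod.ext_iff.mp (Prod.ext_iff.mp e).2).1
      simp only [cV0, if_pos hi, Prod.mk.injEq] at e1
      have g1 := fl_abs (by positivity) e1.1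
      have g2 := fl_abs (by positivity) e1.2
      have hu : uw F W ω' = uw F W ω := by
        unfold uw tw
        rw [hT]
      have hc1 : ceI I (fun _ => n) (F.x ω) i = ⌊(2 : ℝ) ^ n * F.x ω i⌋ := if_pos hi
      have hc2 : ceI I (fun _ => n) (F.x ω') i = ⌊(2 : ℝ) ^ n * F.x ω' i⌋ := if_pos hi
      rw [hc1, hc2]
      refine floor_sub_le (D := 2) ?_
      have e6 : (2 : ℝ) ^ n * F.x ω i - 2 ^ n * F.x ω' i =
          2 ^ n * (mid F W (slam F W ω) (some i) - mid F W (slam F W ω') (some i)) +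
          uw F W ω * (2 ^ n * (1 / 2 ^ (W + 1)) * (dirv F (slam F W ω) (some i) -
            dirv F (slam F W ω') (some i))) := by
        rw [x_mid F hW ω i, x_mid F hW ω' i, hu]
        ring
      rw [e6]
      have g3 : |uw F W ω * (2 ^ n * (1 / 2 ^ (W + 1)) * (dirv F (slam F W ω) (some i) -
            dirv F (slam F W ω') (some i)))| ≤ 1 := by
        rw [abs_mul]
        exact mul_le_one₀ (uw_abs F W ω) (abs_nonneg _) g2
      refine (abs_add_le _ _).trans ?_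
      push_cast
      linarith
    · refine le_trans (le_of_eq (CH_eq_zero h0 fun ω ω' _ _ _ => ?_)) l7
      unfold ceI
      rw [if_neg hi, if_neg hi]
  refine (Finset.sum_le_sum h1).trans (le_of_eq ?_)
  rw [Finset.sum_const, Finset.card_univ, Fintype.card_fin, nsmul_eq_mul]

/-- The path from the point and the direction. -/
theorem cV0_few {F : Fam m J} {q : F.Ω → ℝ} (hq : IsLaw q) (I : Finset (Fin m)) {W : ℕ}
    (hW : W ≤ J) {n l : ℕ} (hn : n ≤ W + 1 + l) {β : Type} (Y : F.Ω → β)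
    (hY : ∀ ω ω', Y ω = Y ω' → F.T ω = F.T ω' ∧ (∀ i ∈ I, F.X n ω i = F.X n ω' i) ∧
      ∀ i ∈ I, F.D l ω i = F.D l ω' i) :
    CH q (fun ω => cV0 I W n F (slam F W ω)) Y ≤ m * (2 * Real.log 7) := by
  classical
  have h0 := hq.nonneg
  have l7 : 0 ≤ Real.log 7 := Real.log_nonneg (by norm_num)
  refine (CH_pis h0 _ _).trans ?_
  have h1 : ∀ i ∈ (univ : Finset (Fin m)), CH q (fun ω => cV0 I W n F (slam F W ω) i) Y ≤
      2 * Real.log 7 := by
    intro i _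
    by_cases hi : i ∈ I
    · have e5 : (7 : ℝ) = 2 * ((3 : ℕ) : ℝ) + 1 := by norm_num
      have e0 : (fun ω => cV0 I W n F (slam F W ω) i) = fun ω =>
          (⌊(2 : ℝ) ^ n * mid F W (slam F W ω) (some i)⌋,
          ⌊(2 : ℝ) ^ n * (1 / 2 ^ (W + 1)) * dirv F (slam F W ω) (some i)⌋) := by
        funext ω
        unfold cV0
        rw [if_pos hi]
      rw [e0]
      refine (CH_subadd h0 _ _ Y).trans ?_
      have key : ∀ ω ω', Y ω = Y ω' →
          |(2 : ℝ) ^ n * (1 / 2 ^ (W + 1)) * (dirv F (slam F W ω) (some i) -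
            dirv F (slam F W ω') (some i))| ≤ 1 := by
        intro ω ω' e
        have e1 := (hY ω ω' e).2.2 i hi
        have g1 : |(2 : ℝ) ^ l * (F.d ω i - F.d ω' i)| ≤ 1 := fl_abs (by positivity) e1
        have g2 : (2 : ℝ) ^ n * (1 / 2 ^ (W + 1)) ≤ 2 ^ l := by
          rw [mul_one_div, div_le_iff₀ (by positivity), ← pow_add]
          exact pow_le_pow_right₀ (by norm_num) (by omega)
        have e2 : dirv F (slam F W ω) (some i) = F.d ω i := rfl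
        have e3 : dirv F (slam F W ω') (some i) = F.d ω' i := rfl
        rw [e2, e3, abs_mul, abs_of_pos (by positivity)]
        rw [abs_mul, abs_of_pos (by positivity)] at g1
        exact (mul_le_mul_of_nonneg_right g2 (abs_nonneg _)).trans g1
      have a1 : CH q (fun ω => ⌊(2 : ℝ) ^ n * mid F W (slam F W ω) (some i)⌋) Y ≤
          Real.log 7 := by
        rw [e5]
        refine CH_pair hq _ _ fun ω ω' hω hω' e => floor_sub_le (D := 2) ?_
        obtain ⟨hT, hX, -⟩ := hY ω ω' e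
        have g1 : |(2 : ℝ) ^ n * (F.x ω i - F.x ω' i)| ≤ 1 := fl_abs (by positivity) (hX i hi)
        have hu : uw F W ω' = uw F W ω := by
          unfold uw tw
          rw [hT]
        have e6 : (2 : ℝ) ^ n * mid F W (slam F W ω) (some i) -
            2 ^ n * mid F W (slam F W ω') (some i) =
            2 ^ n * (F.x ω i - F.x ω' i) -
            uw F W ω * (2 ^ n * (1 / 2 ^ (W + 1)) * (dirv F (slam F W ω) (some i) -
              dirv F (slam F W ω') (some i))) := by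
          rw [x_mid F hW ω i, x_mid F hW ω' i, hu]
          ring
        rw [e6]
        have g3 : |uw F W ω * (2 ^ n * (1 / 2 ^ (W + 1)) * (dirv F (slam F W ω) (some i) -
              dirv F (slam F W ω') (some i)))| ≤ 1 := by
          rw [abs_mul]
          exact mul_le_one₀ (uw_abs F W ω) (abs_nonneg _) (key ω ω' e)
        refine (abs_sub _ _).trans ?_
        push_cast
        linarith
      have a2 : CH q (fun ω => ⌊(2 : ℝ) ^ n * (1 / 2 ^ (W + 1)) *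
          dirv F (slam F W ω) (some i)⌋) Y ≤ Real.log 7 := by
        rw [e5]
        refine CH_pair hq _ _ fun ω ω' hω hω' e => floor_sub_le (D := 2) ?_
        rw [← mul_sub]
        refine (key ω ω' e).trans (by norm_num)
      linarith
    · refine le_trans (le_of_eq (CH_eq_zero h0 fun ω ω' _ _ _ => ?_)) (by positivity)
      unfold cV0
      rw [if_neg hi, if_neg hi]
  refine (Finset.sum_le_sum h1).trans (le_of_eq ?_)
  rw [Finset.sum_const, Finset.card_univ, Fintype.card_fin, nsmul_eq_mul]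

/-- Change of the condition. -/
theorem NfH.few {S : PCl m} {C₀ : ℝ} (htm : TmC S C₀) {I : Finset (Fin m)} {κ : Fin m}
    {w p q r h δ δ' : ℝ} {β β' : ∀ J : ℕ, Fam m J → Type}
    {b : ∀ (J : ℕ) (F : Fam m J), F.Ω → β J F} {c : ∀ (J : ℕ) (F : Fam m J), F.Ω → β' J F}
    (H : NfH S I κ w p q r h δ b) {γ : ℝ} (hγ : δ + γ ≤ δ')
    (hbc : Bas S (fun J F A => CH (Pool.Agent.H49.Ent.cond F.p A True) (b J F)
      (fun ω => (c J F ω, F.W ω)) ≤ γ * J)) : NfH S I κ w p q r h δ' c := by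
  obtain ⟨e₀, he₀, H⟩ := H
  refine ⟨e₀, he₀, fun e he hle K x hx0 hxq => ?_⟩
  refine Bas.mono 0 (((H e he hle K x hx0 hxq).and hbc).and (Pool.GRW.tmc_bas htm one_pos)) ?_
  rintro J - F A ⟨⟨H, hbc⟩, hA, -⟩ V z z' G hlb
  have h0 := (isLaw_cond F.isLaw hA).nonneg
  have h1 := H V z z' G hlb
  have h2 := CH_le_add h0 (fun ω => ⌊(2 : ℝ) ^ ((p + q) * J) *
    ojet F κ 0 (G (z' (slam F ⌊w * J⌋₊ ω))) ω⌋) (b J F)
    (fun ω => (⌊(2 : ℝ) ^ ((p + x) * J) * ojet F κ 0 (G (z' (slam F ⌊w * J⌋₊ ω))) ω⌋,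
      (z' (slam F ⌊w * J⌋₊ ω), (c J F ω, F.W ω))))
  have h3 : CH (Pool.Agent.H49.Ent.cond F.p A True) (b J F)
      (fun ω => (⌊(2 : ℝ) ^ ((p + x) * J) * ojet F κ 0 (G (z' (slam F ⌊w * J⌋₊ ω))) ω⌋,
        (z' (slam F ⌊w * J⌋₊ ω), (c J F ω, F.W ω)))) ≤ γ * J := by
    refine le_trans (CH_mono_cond h0 fun ω ω' _ _ e => ?_) hbc
    simp only [Prod.mk.injEq] at e ⊢
    exact ⟨e.2.2.1, e.2.2.2⟩
  have h4 : CH (Pool.Agent.H49.Ent.cond F.p A True) (fun ω => ⌊(2 : ℝ) ^ ((p + q) * J) *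
        ojet F κ 0 (G (z' (slam F ⌊w * J⌋₊ ω))) ω⌋)
      (fun ω => (b J F ω, (⌊(2 : ℝ) ^ ((p + x) * J) *
        ojet F κ 0 (G (z' (slam F ⌊w * J⌋₊ ω))) ω⌋,
        (z' (slam F ⌊w * J⌋₊ ω), (c J F ω, F.W ω))))) ≤
      CH (Pool.Agent.H49.Ent.cond F.p A True) (fun ω => ⌊(2 : ℝ) ^ ((p + q) * J) *
        ojet F κ 0 (G (z' (slam F ⌊w * J⌋₊ ω))) ω⌋)
      (fun ω => (⌊(2 : ℝ) ^ ((p + x) * J) * ojet F κ 0 (G (z' (slam F ⌊w * J⌋₊ ω))) ω⌋,
        (z' (slam F ⌊w * J⌋₊ ω), (b J F ω, F.W ω)))) := by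
    refine CH_mono_cond h0 fun ω ω' _ _ e => ?_
    simp only [Prod.mk.injEq] at e ⊢
    exact ⟨e.2.1, e.2.2.1, e.1, e.2.2.2.2⟩
  have h5 : (δ + γ) * J ≤ δ' * J := mul_le_mul_of_nonneg_right hγ (Nat.cast_nonneg J)
  linarith only [h1, h2, h3, h4, h5]

theorem RawN.mono {S : PCl m} {I : Finset (Fin m)} {κ : Fin m} {p q h δ δ' : ℝ}
    (H : RawN S I κ p q h δ) (hδ : δ ≤ δ') : RawN S I κ p q h δ' := fun x hx0 hxq =>
  Bas.mono 0 (H x hx0 hxq) fun J _ F A h1 =>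
    h1.trans (mul_le_mul_of_nonneg_right (by linarith) (Nat.cast_nonneg J))

/-- The numbers of a window. -/
structure Win (k : ℕ) (P : ℝ → ℝ) (r b₀ a S₁ S₂ τ w q lam ρ : ℝ) : Prop where
  r0 : 0 ≤ r
  r1 : r < 1
  b0 : 0 ≤ b₀
  bw : b₀ ≤ w
  wa : w ≤ a
  al : a < w + lam
  l1 : w + lam < 1
  q0 : 0 < q
  ρ0 : 0 < ρ
  τ0 : 0 ≤ τ
  lam : q + ρ + 2 * τ < lam
  S1 : (k : ℝ) ≤ S₁
  S2 : S₂ ≤ k + 1
  S20 : 0 ≤ S₂
  wb : q + ρ + τ ≤ (k + 1 - S₂) * (w - b₀)
  aw : q + ρ + τ ≤ a - w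
  P0 : 0 ≤ P w
  P1 : P w + q < 1

/-- **The own path over the base is few bits given the ball.** -/
theorem npath_V0 {k : ℕ} (hk : k = 1 ∨ k = 2) {h : ℝ} (hh : 0 < h) (hh1 : h ≤ 1) {ε : ℝ}
    (hε : 0 < ε) : ∃ δ : ℝ, 0 < δ ∧ ∀ {m : ℕ} {S : PCl m} {C₀ : ℝ} (_ : TmC S C₀)
    {I : Finset (Fin m)} {κ : Fin m} {P : ℝ → ℝ} {r b₀ a S₁ S₂ τ w q lam ρ : ℝ}
    (_ : Win k P r b₀ a S₁ S₂ τ w q lam ρ) (_ : Prof S I κ P r b₀ a S₁ S₂ τ)
    (_ : RawN S I κ (P w) q h (δ * q))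
    {α γ : ∀ J : ℕ, Fam m J → Type} {f : ∀ (J : ℕ) (F : Fam m J), F.Ω → α J F}
    {y : ∀ (J : ℕ) (F : Fam m J), F.Ω → γ J F}
    (_ : ∀ (J : ℕ) (F : Fam m J), ∃ φ : α J F → PtT F, ∀ ω, ptr F J ω = φ (f J F ω))
    (_ : Kn I (w + lam) lam y),
    (∃ e₀ : ℝ, 0 < e₀ ∧ ∀ e : ℝ, 0 < e → e ≤ e₀ → ∀ K : ℕ,
      Bas S (fun J F A => ∀ (V : Type) (z : PtT F → V) (z' : LnT F → V)
        (G : V → MvPolynomial (Option (Fin m)) ℝ),
        LbOK F I κ K ⌊e * J⌋₊ J ⌊w * J⌋₊ ⌊(r + e) * J⌋₊ ⌊(P w - e) * J⌋₊ A z z' G →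
        ∃ (V₁ : Type) (z₁ : F.Ω → V₁), Cl2 (f J F) (vg a J F) A z₁ ∧
          CH (Pool.Agent.H49.Ent.cond F.p A True)
            (fun ω => ((z' (vg w J F ω), (vg w J F ω).2),
              (cV0 I ⌊w * J⌋₊ ⌊(w + lam) * J⌋₊ F (vg w J F ω),
              fun j : Fin (K + 3) =>
                ⌊jr F ⌊w * J⌋₊ (2 ^ ((P w + q) * J)) κ z' G j (vg w J F ω)⌋)))
            (fun ω => (z₁ ω, y J F ω)) ≤ ε * q * J)) ∧
    ∀ j : ℕ, ∃ e : ℝ, 0 < e ∧
      F0 S f (vg a) y (qJet m I κ j w (P w) (P w + q - j * w)) e (ε * q) := by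
  obtain ⟨δa, hδa, HP⟩ := path_cls hk hh hh1 hε
  obtain ⟨δb, hδb, HJ⟩ := jet_cls hk hh hh1 hε
  obtain ⟨δ, hδ⟩ : ∃ δ : ℝ, δ = min δa δb := ⟨_, rfl⟩
  have hδ0 : 0 < δ := by
    rw [hδ]
    exact lt_min hδa hδb
  have h1a : δ ≤ δa := by rw [hδ]; exact min_le_left _ _
  have h1b : δ ≤ δb := by rw [hδ]; exact min_le_right _ _
  refine ⟨δ / 4, by positivity, ?_⟩
  intro m S C₀ htm I κ P r b₀ a S₁ S₂ τ w q lam ρ hW hP hraw α γ f y hf hy
  have hw0 : 0 ≤ w := hW.b0.trans hW.bw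
  have ha1 : a < 1 := hW.al.trans hW.l1
  have hq := hW.q0
  have hqlam : q < lam := by linarith [hW.lam, hW.ρ0, hW.τ0]
  have hδq : 0 < δ * q := by positivity
  -- the jets of order different from `k`
  have hjet : ∀ δ' : ℝ, 0 ≤ δ' → JetH S f (vg a) y I κ k w (P w) q δ' := fun δ' hδ' =>
    jetH_of htm hW.r0 hW.b0 hW.bw hW.wa hW.al hW.l1.le hP hf hy hW.ρ0 hW.τ0 hW.lam hW.S1 hW.S2
      hW.S20 hW.wb hW.aw hδ'
  -- the height without the direction
  have hS1 : 1 ≤ S₁ := by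
    refine le_trans ?_ hW.S1
    rcases hk with rfl | rfl <;> norm_num
  have hh0 := jets0 (f := fun J F => ptr F J) (y := fun J F ω => (bI I (w + lam) J F ω, F.W ω))
    htm (κ := κ) hW.r0 hW.b0 hW.bw hW.wa hW.al hW.l1.le hP (fun J F => ⟨fun x => x, fun _ => rfl⟩)
    (kn0_bI I (w + lam)) hW.ρ0 hW.τ0 hW.lam hS1 hW.aw (h := δ * q / 8) (by positivity)
  have hnf : NfH S I κ w (P w) q r h (δ * q / 2) (bI I (w + lam)) :=
    nfh_of htm hw0 hW.wa ha1.le hW.P0 hq.le hW.P1 hW.r0 hW.r1 hW.l1.le hh1 hraw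
      (hP.ful a (hW.bw.trans hW.wa) le_rfl (w + lam) hW.al hW.l1) (by linarith [hW.ρ0]) hh0
      (by linarith)
  obtain ⟨J₂, hJ₂⟩ := exists_nat_ge (m * (2 * Real.log 7) / (δ * q / 2))
  have l7 : 0 ≤ Real.log 7 := Real.log_nonneg (by norm_num)
  have hm0 : (0 : ℝ) ≤ m := Nat.cast_nonneg m
  have hlog : ∀ J ≥ J₂, m * (2 * Real.log 7) ≤ δ * q / 2 * J := by
    intro J hJ
    have hJ' : (J₂ : ℝ) ≤ J := by exact_mod_cast hJ
    have := hJ₂.trans hJ'
    rw [div_le_iff₀ (by positivity)] at this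
    linarith
  have hnc : NfH S I κ w (P w) q r h (δ * q) (fun J F ω =>
      cV0 I ⌊w * J⌋₊ ⌊(w + lam) * J⌋₊ F (vg w J F ω)) := by
    refine hnf.few htm (γ := δ * q / 2) (by linarith) ?_
    refine Bas.mono J₂ (Pool.GRW.tmc_bas htm one_pos) ?_
    rintro J hJ F A ⟨hA, -⟩
    have h1 := cV0_pos (isLaw_cond F.isLaw hA) I (floor_le (hW.wa.trans ha1.le) J)
      ⌊(w + lam) * J⌋₊
    have h2 := hlog J hJ
    have h3 : (m : ℝ) * Real.log 7 ≤ m * (2 * Real.log 7) :=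
      mul_le_mul_of_nonneg_left (by linarith) hm0
    exact (h1.trans h3).trans h2
  have hc : Bas S (fun J F A => ∃ (V : Type) (z : F.Ω → V), Cl2 (f J F) (vg a J F) A z ∧
      CH (Pool.Agent.H49.Ent.cond F.p A True)
        (fun ω => cV0 I ⌊w * J⌋₊ ⌊(w + lam) * J⌋₊ F (vg w J F ω))
        (fun ω => (z ω, y J F ω)) ≤ δ * q * J) := by
    refine Bas.mono J₂ (Pool.GRW.tmc_bas htm one_pos) ?_
    rintro J hJ F A ⟨hA, -⟩
    have hJ0 : (0 : ℝ) ≤ J := Nat.cast_nonneg J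
    refine ⟨Unit, fun _ => (), ⟨⟨fun _ => (), fun _ _ => rfl⟩, fun _ => (), fun _ _ => rfl⟩, ?_⟩
    obtain ⟨φ, hφ⟩ := hy J F
    have h1 := cV0_few (isLaw_cond F.isLaw hA) I (floor_le (hW.wa.trans ha1.le) J)
      (n := ⌊(w + lam) * J⌋₊) (l := ⌊lam * J⌋₊) (by
        have g1 : ((⌊(w + lam) * J⌋₊ : ℕ) : ℝ) ≤ (w + lam) * J :=
          Nat.floor_le (mul_nonneg (by linarith) hJ0)
        have g2 := Nat.lt_floor_add_one (w * J)
        have g3 := Nat.lt_floor_add_one (lam * J)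
        have g4 : ((⌊(w + lam) * J⌋₊ : ℕ) : ℝ) < ((⌊w * J⌋₊ + 1 + ⌊lam * J⌋₊ + 1 : ℕ) : ℝ) := by
          push_cast
          linarith
        have g5 : ⌊(w + lam) * J⌋₊ < ⌊w * J⌋₊ + 1 + ⌊lam * J⌋₊ + 1 := by exact_mod_cast g4
        omega) (fun ω => ((), y J F ω)) (fun ω ω' e => by
        have e1 : y J F ω = y J F ω' := (Prod.ext_iff.mp e).2
        have e2 := congrArg φ e1
        rw [hφ, hφ] at e2
        simp only [Prod.mk.injEq] at e2
        refine ⟨e2.1, fun i hi => ?_, fun i hi => ?_⟩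
        · have := congrFun e2.2.1 i
          simpa only [if_pos hi] using this
        · have := congrFun e2.2.2 i
          simpa only [if_pos hi] using this)
    have h2 := hlog J hJ
    have h3 : 0 ≤ δ * q / 2 * J := by positivity
    have h4 : δ * q / 2 * J ≤ δ * q * J := by linarith
    exact (h1.trans h2).trans h4
  have hyT : ∀ (J : ℕ) (F : Fam m J), ∃ φ : γ J F → ℕ, ∀ ω, F.T ω = φ (y J F ω) := by
    intro J F
    obtain ⟨φ, hφ⟩ := hy J F
    exact ⟨fun x => (φ x).1, fun ω => (congrArg Prod.fst (hφ ω)).symm⟩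
  have hcm : ∀ {δ' : ℝ}, δ ≤ δ' → Bas S (fun J F A => ∃ (V : Type) (z : F.Ω → V),
      Cl2 (f J F) (vg a J F) A z ∧ CH (Pool.Agent.H49.Ent.cond F.p A True)
        (fun ω => cV0 I ⌊w * J⌋₊ ⌊(w + lam) * J⌋₊ F (vg w J F ω))
        (fun ω => (z ω, y J F ω)) ≤ δ' * q * J) := by
    intro δ' hδ'
    refine Bas.mono 0 hc ?_
    rintro J - F A ⟨V, z, hz, h1⟩
    refine ⟨V, z, hz, h1.trans (mul_le_mul_of_nonneg_right ?_ (Nat.cast_nonneg J))⟩
    exact mul_le_mul_of_nonneg_right hδ' hq.le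
  have hncm : ∀ {δ' : ℝ}, δ ≤ δ' → NfH S I κ w (P w) q r h (δ' * q) (fun J F ω =>
      cV0 I ⌊w * J⌋₊ ⌊(w + lam) * J⌋₊ F (vg w J F ω)) := by
    intro δ' hδ'
    obtain ⟨e₀, he₀, H⟩ := hnc
    refine ⟨e₀, he₀, fun e he hle K x hx0 hxq => Bas.mono 0 (H e he hle K x hx0 hxq) ?_⟩
    intro J _ F A h1 V z z' G hlb
    refine (h1 V z z' G hlb).trans (mul_le_mul_of_nonneg_right ?_ (Nat.cast_nonneg J))
    have := mul_le_mul_of_nonneg_right hδ' hq.le
    linarith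
  refine ⟨?_, fun j => ?_⟩
  · exact HP htm hw0 hW.wa ha1.le hq (by linarith [hW.l1]) hW.r0 hf hyT
      (fun J F x => cV0 I ⌊w * J⌋₊ ⌊(w + lam) * J⌋₊ F x) (hcm h1a) (hncm h1a)
      (hjet _ (by positivity))
  · have hself : Few S f (vg a) y (qJet m I κ j w (P w) (P w + q - j * w))
        (qJet m I κ j w (P w) (P w + q - j * w)) := by
      intro h' hh'
      obtain ⟨e, he, H⟩ := few_jet (y := y) htm (I := I) (k := κ) (j := j) (w := w) (w₁ := w)
        (w₂ := w) (p₁ := P w) (p₂ := P w) (N₁ := P w + q - j * w) (N₂ := P w + q - j * w)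
        (p₀ := w + lam) (lam := lam) (u₀ := w) le_rfl le_rfl (hW.wa.trans ha1.le) le_rfl hw0
        (by linarith) hW.l1.le (hP.ful w hW.bw hW.wa) hf hy le_rfl (by
          rw [min_self, show w + lam - w = lam by ring, min_self]
          linarith) h' hh'
      exact ⟨e, he, F1.up hW.wa ha1.le H⟩
    exact HJ htm hw0 hW.wa ha1.le hq (by linarith [hW.l1]) hW.r0 hf hyT
      (fun J F x => cV0 I ⌊w * J⌋₊ ⌊(w + lam) * J⌋₊ F x) (hcm h1b) (hncm h1b)
      (hjet _ (by positivity)) (hP.att w hW.bw hW.wa) j hself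

end Pool.OWN68
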