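import Pool.Agent.H68.OWN.Nd
import Pool.Agent.H68.OWN.Jf

/-!
# Heights and digits over one label

`row_hgt`: the rows of the own height, given the exact point over `I`. `own_cnt`: the last digits
of the coordinate, given its own height. `hgt_cnt`: more digits of the own height. `tup_le`,
`le_tup`: the chain rule. `LbC`: labels of a chain with a common code.
-/

set_option autoImplicit false

namespace Pool.OWN68

open Finset Real MvPolynomial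
open Pool.Agent.H49.Ent Pool.Agent.H32.Dense Pool.STK Pool.KA Pool.KSAT Pool.K2S Pool.PB Pool.GEN
open Pool.S6C Pool.RCD Pool.LA91
open Pool.GRD (LbP Pb_mono_pos)
open Pool.UNJ (ceI Tub)
open Pool.BFL (Pb)

variable {m J : ℕ}

/-- The own height. -/
noncomputable def hgt (F : Fam m J) (κ : Fin m) {V : Type} (z' : LnT F → V) (W : ℕ)
    (G : V → MvPolynomial (Option (Fin m)) ℝ) (ω : F.Ω) : ℝ :=
  ojet F κ 0 (G (z' (slam F W ω))) ω

theorem hgt_eq (F : Fam m J) (κ : Fin m) {V : Type} (z' : LnT F → V) (W : ℕ)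
    (G : V → MvPolynomial (Option (Fin m)) ℝ) (ω : F.Ω) :
    hgt F κ z' W G ω = F.x ω κ - eval (bt F ω) (G (z' (slam F W ω))) := by
  show jet 0 (X (some κ) - G (z' (slam F W ω))) (bt F ω) (bd F ω) = _
  rw [jet_zero, map_sub, eval_X]
  rfl

/-- The error of the value of a label, for the rounded point. -/
theorem err_le {m J : ℕ} {e s N : ℝ} (he : 0 ≤ e) (hs : s ≤ N)
    (hsm : Real.log (m + 1) ≤ (1 - N - e) * Real.log 2 * J) :
    (2 : ℝ) ^ (s * J) * (2 * (2 ^ ⌊e * J⌋₊ * ((m + 1) * (1 / 2 ^ J)))) ≤ 2 := by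
  have hJ0 : (0 : ℝ) ≤ J := Nat.cast_nonneg J
  have hlogm : 0 ≤ Real.log (m + 1) := Real.log_nonneg (by
    have : (0 : ℝ) ≤ m := Nat.cast_nonneg m
    linarith)
  have a1 : (2 : ℝ) ^ ⌊e * J⌋₊ ≤ 2 ^ (e * J) := p2_le (by positivity)
  have a2 : (1 : ℝ) / 2 ^ J = 2 ^ (-(J : ℝ)) := by
    rw [Real.rpow_neg (by norm_num), Real.rpow_natCast, one_div]
  have a3 : (m : ℝ) + 1 ≤ 2 ^ ((1 - N - e) * J) := by
    rw [← exp_p2, ← Real.log_le_iff_le_exp (by positivity)]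
    linarith
  have a4 : (0 : ℝ) < 2 ^ (s * J) := Real.rpow_pos_of_pos (by norm_num) _
  have a5 : (0 : ℝ) < 2 ^ (e * J) := Real.rpow_pos_of_pos (by norm_num) _
  have a6 : (0 : ℝ) < 2 ^ (-(J : ℝ)) := Real.rpow_pos_of_pos (by norm_num) _
  rw [a2]
  calc (2 : ℝ) ^ (s * J) * (2 * (2 ^ ⌊e * J⌋₊ * ((m + 1) * 2 ^ (-(J : ℝ)))))
      ≤ 2 ^ (s * J) * (2 * (2 ^ (e * J) * (2 ^ ((1 - N - e) * J) * 2 ^ (-(J : ℝ))))) := by
        refine mul_le_mul_of_nonneg_left (mul_le_mul_of_nonneg_left ?_ (by norm_num)) a4.le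
        exact mul_le_mul a1 (mul_le_mul_of_nonneg_right a3 a6.le) (by positivity) a5.le
    _ = 2 * (2 ^ (s * J) * 2 ^ (e * J) * 2 ^ ((1 - N - e) * J) * 2 ^ (-(J : ℝ))) := by
        ring
    _ = 2 * 2 ^ (s * J + e * J + (1 - N - e) * J + -(J : ℝ)) := by
        rw [Real.rpow_add (by norm_num), Real.rpow_add (by norm_num),
          Real.rpow_add (by norm_num)]
    _ ≤ 2 * 1 := by
        refine mul_le_mul_of_nonneg_left ?_ (by norm_num)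
        refine Real.rpow_le_one_of_one_le_of_nonpos (by norm_num) ?_
        have : s * J + e * J + (1 - N - e) * J + -(J : ℝ) = (s - N) * J := by ring
        rw [this]
        exact mul_nonpos_of_nonpos_of_nonneg (by linarith) hJ0
    _ = 2 := by norm_num

theorem fl_one_mul {t a b : ℝ} (ht : 0 < t) (e : ⌊t * a⌋ = ⌊t * b⌋) : |t * (a - b)| ≤ 1 := by
  have := fl_scale ht.le (by rw [one_mul]) ht e
  rwa [← mul_sub] at this

section one

variable {F : Fam m J} {I : Finset (Fin m)} {κ : Fin m} {K W ρ P : ℕ} {A : F.Ω → Prop}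
  {V : Type} {z : PtT F → V} {z' : LnT F → V} {G : V → MvPolynomial (Option (Fin m)) ℝ}
  {q' : F.Ω → ℝ} {e N : ℝ}

/-- The own heights and the coordinate. -/
theorem hgt_near (hlb : LbOK F I κ K ⌊e * J⌋₊ J W ρ P A z z' G) (hρ : ρ ≤ J) (he : 0 ≤ e)
    (hsm : Real.log (m + 1) ≤ (1 - N - e) * Real.log 2 * J) {ω ω' : F.Ω} (hω : A ω) (hω' : A ω')
    (e1 : ceI I (fun _ => J) (F.x ω) = ceI I (fun _ => J) (F.x ω'))
    (e2 : z' (slam F W ω) = z' (slam F W ω')) (hT : F.T ω = F.T ω') {s : ℝ} (hs : s ≤ N) :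
    |(2 : ℝ) ^ (s * J) * (hgt F κ z' W G ω - hgt F κ z' W G ω') -
      2 ^ (s * J) * (F.x ω κ - F.x ω' κ)| ≤ 2 := by
  have h1 := val_near hlb hρ hω hω' e1 e2 hT
  have e4 : (2 : ℝ) ^ (s * J) * (hgt F κ z' W G ω - hgt F κ z' W G ω') -
      2 ^ (s * J) * (F.x ω κ - F.x ω' κ) =
      -(2 ^ (s * J) * (eval (bt F ω) (G (z' (slam F W ω))) -
        eval (bt F ω') (G (z' (slam F W ω'))))) := by
    rw [hgt_eq, hgt_eq]
    ring
  rw [e4, abs_neg, abs_mul, abs_of_pos (Real.rpow_pos_of_pos (by norm_num) _)]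
  exact (mul_le_mul_of_nonneg_left h1 (Real.rpow_pos_of_pos (by norm_num) _).le).trans
    (err_le he hs hsm)

/-- **The rows of the own height**, given the exact point. -/
theorem row_hgt (hlb : LbOK F I κ K ⌊e * J⌋₊ J W ρ P A z z' G) (hρ : ρ ≤ J) (he : 0 ≤ e)
    {p q x : ℝ} (hpx : 0 ≤ p + x) (hxq : x ≤ q)
    (hsm : Real.log (m + 1) ≤ (1 - (p + q) - e) * Real.log 2 * J) (hq' : IsLaw q')
    (hA : ∀ ω, 0 < q' ω → A ω) :
    CH q' (fun ω => ⌊(2 : ℝ) ^ ((p + q) * J) * hgt F κ z' W G ω⌋)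
      (fun ω => (⌊(2 : ℝ) ^ ((p + x) * J) * hgt F κ z' W G ω⌋,
        (ceI I (fun _ => J) (F.x ω), (z' (slam F W ω), F.W ω)))) ≤
      CH q' (fun ω => F.X ⌊(p + q) * J⌋₊ ω κ)
        (fun ω => (F.X ⌊(p + x) * J⌋₊ ω κ, (ceI I (fun _ => J) (F.x ω), F.W ω))) +
      (Real.log 9 + Real.log 11) := by
  have h0 := hq'.nonneg
  obtain ⟨o, ho⟩ : ∃ o : F.Ω → ℝ, o = hgt F κ z' W G := ⟨_, rfl⟩
  obtain ⟨Vx, hVx⟩ : ∃ Vx : F.Ω → Fin m → ℤ, Vx = fun ω => ceI I (fun _ => J) (F.x ω) :=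
    ⟨_, rfl⟩
  obtain ⟨Hn, hHn⟩ : ∃ Hn : F.Ω → ℤ, Hn = fun ω => ⌊(2 : ℝ) ^ ((p + q) * J) * o ω⌋ := ⟨_, rfl⟩
  obtain ⟨Rx, hRx⟩ : ∃ Rx : F.Ω → ℤ, Rx = fun ω => ⌊(2 : ℝ) ^ ((p + x) * J) * o ω⌋ := ⟨_, rfl⟩
  obtain ⟨Z, hZ⟩ : ∃ Z : F.Ω → V, Z = fun ω => z' (slam F W ω) := ⟨_, rfl⟩
  have hval : ∀ ω ω', 0 < q' ω → 0 < q' ω' → Vx ω = Vx ω' → Z ω = Z ω' → F.W ω = F.W ω' →
      ∀ s ≤ p + q, |(2 : ℝ) ^ (s * J) * (o ω - o ω') -
        2 ^ (s * J) * (F.x ω κ - F.x ω' κ)| ≤ 2 := by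
    intro ω ω' hω hω' e1 e2 e3 s hs
    rw [hVx] at e1
    rw [hZ] at e2
    have hT : F.T ω = F.T ω' := (Prod.ext_iff.mp e3).1
    rw [ho]
    exact hgt_near hlb hρ he hsm (hA ω hω) (hA ω' hω') e1 e2 hT hs
  have hXd : ∀ (n : ℕ) {ω ω' : F.Ω}, F.X n ω κ = F.X n ω' κ →
      |(2 : ℝ) ^ n * (F.x ω κ - F.x ω' κ)| ≤ 1 := fun n {ω ω'} e =>
    fl_one_mul (by positivity) e
  have hfle : ∀ s : ℝ, (2 : ℝ) ^ (s * J) ≤ 2 * 2 ^ ⌊s * J⌋₊ := by
    intro s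
    have a1 := ip2_le (s * J)
    rw [Real.rpow_neg (by norm_num), div_le_iff₀ (by positivity)] at a1
    have a2 : (0 : ℝ) < 2 ^ (s * J) := Real.rpow_pos_of_pos (by norm_num) _
    have a3 : 2 * ((2 : ℝ) ^ (s * J))⁻¹ * 2 ^ ⌊s * J⌋₊ * 2 ^ (s * J) = 2 * 2 ^ ⌊s * J⌋₊ := by
      field_simp
    nlinarith
  have hJ0 : (0 : ℝ) ≤ J := Nat.cast_nonneg J
  have s1 : CH q' Hn (fun ω => (F.X ⌊(p + q) * J⌋₊ ω κ, (Rx ω, (Vx ω, (Z ω, F.W ω))))) ≤
      Real.log 11 := by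
    have e5 : (11 : ℝ) = 2 * ((5 : ℕ) : ℝ) + 1 := by norm_num
    rw [e5]
    refine CH_pair hq' _ _ fun ω ω' hω hω' e => ?_
    simp only [Prod.mk.injEq] at e
    obtain ⟨e1, -, e2, e3, e4⟩ := e
    have g1 := hval ω ω' hω hω' e2 e3 e4 (p + q) le_rfl
    have g2 := hXd _ e1
    have g3 := hfle (p + q)
    rw [hHn]
    refine floor_sub_le (D := 4) ?_
    rw [← mul_sub]
    have g4 : |(2 : ℝ) ^ ((p + q) * J) * (F.x ω κ - F.x ω' κ)| ≤ 2 := by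
      rw [abs_mul, abs_of_pos (Real.rpow_pos_of_pos (by norm_num) _)]
      rw [abs_mul, abs_of_pos (by positivity)] at g2
      calc (2 : ℝ) ^ ((p + q) * J) * |F.x ω κ - F.x ω' κ|
          ≤ 2 * 2 ^ ⌊(p + q) * J⌋₊ * |F.x ω κ - F.x ω' κ| :=
            mul_le_mul_of_nonneg_right g3 (abs_nonneg _)
        _ = 2 * (2 ^ ⌊(p + q) * J⌋₊ * |F.x ω κ - F.x ω' κ|) := by ring
        _ ≤ 2 := by linarith
    push_cast
    rw [abs_le] at g1 g4 ⊢
    constructor <;> linarith [g1.1, g1.2, g4.1, g4.2]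
  have s2 : CH q' (fun ω => F.X ⌊(p + x) * J⌋₊ ω κ) (fun ω => (Rx ω, (Vx ω, (Z ω, F.W ω)))) ≤
      Real.log 9 := by
    have e5 : (9 : ℝ) = 2 * ((4 : ℕ) : ℝ) + 1 := by norm_num
    rw [e5]
    refine CH_pair hq' _ _ fun ω ω' hω hω' e => ?_
    simp only [Prod.mk.injEq] at e
    obtain ⟨e1, e2, e3, e4⟩ := e
    have g1 := hval ω ω' hω hω' e2 e3 e4 (p + x) (by linarith)
    rw [hRx] at e1
    have g2 := fl_one_mul (Real.rpow_pos_of_pos (by norm_num) _) e1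
    have g3 : (2 : ℝ) ^ ⌊(p + x) * J⌋₊ ≤ 2 ^ ((p + x) * J) := p2_le (by positivity)
    refine floor_sub_le (a := 2 ^ ⌊(p + x) * J⌋₊ * F.x ω κ)
      (b := 2 ^ ⌊(p + x) * J⌋₊ * F.x ω' κ) (D := 3) ?_
    rw [← mul_sub]
    have g4 : |(2 : ℝ) ^ ((p + x) * J) * (F.x ω κ - F.x ω' κ)| ≤ 3 := by
      rw [abs_le] at g1 g2 ⊢
      constructor <;> linarith [g1.1, g1.2, g2.1, g2.2]
    rw [abs_mul, abs_of_pos (by positivity)]
    rw [abs_mul, abs_of_pos (Real.rpow_pos_of_pos (by norm_num) _)] at g4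
    push_cast
    exact (mul_le_mul_of_nonneg_right g3 (abs_nonneg _)).trans g4
  have s3 := CH_le_add h0 Hn (fun ω => F.X ⌊(p + q) * J⌋₊ ω κ)
    (fun ω => (Rx ω, (Vx ω, (Z ω, F.W ω))))
  have s4 := CH_le_add h0 (fun ω => F.X ⌊(p + q) * J⌋₊ ω κ) (fun ω => F.X ⌊(p + x) * J⌋₊ ω κ)
    (fun ω => (Rx ω, (Vx ω, (Z ω, F.W ω))))
  have s5 : CH q' (fun ω => F.X ⌊(p + q) * J⌋₊ ω κ)
      (fun ω => (F.X ⌊(p + x) * J⌋₊ ω κ, (Rx ω, (Vx ω, (Z ω, F.W ω))))) ≤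
      CH q' (fun ω => F.X ⌊(p + q) * J⌋₊ ω κ)
        (fun ω => (F.X ⌊(p + x) * J⌋₊ ω κ, (Vx ω, F.W ω))) :=
    CH_mono_cond h0 fun ω ω' _ _ e => by
      simp only [Prod.mk.injEq] at e ⊢
      exact ⟨e.1, e.2.2.1, e.2.2.2.2⟩
  have goal1 : CH q' Hn (fun ω => (Rx ω, (Vx ω, (Z ω, F.W ω)))) ≤
      CH q' (fun ω => F.X ⌊(p + q) * J⌋₊ ω κ)
        (fun ω => (F.X ⌊(p + x) * J⌋₊ ω κ, (Vx ω, F.W ω))) + (Real.log 9 + Real.log 11) := by
    linarith only [s1, s2, s3, s4, s5]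
  rw [hHn, hRx, hZ, hVx, ho] at goal1
  exact goal1

/-- **The last digits of the coordinate**, given the own height. -/
theorem own_cnt (hlb : LbOK F I κ K ⌊e * J⌋₊ J W ρ P A z z' G) (hρ : ρ ≤ J) (he : 0 ≤ e)
    (hN : N ≤ 1)
    (hsm : Real.log (m + 1) ≤ (1 - N - e) * Real.log 2 * J) (hq' : IsLaw q')
    (hA : ∀ ω, 0 < q' ω → A ω) :
    CH q' (fun ω => F.X J ω κ)
      (fun ω => (⌊(2 : ℝ) ^ (N * J) * hgt F κ z' W G ω⌋,
        (ceI I (fun _ => J) (F.x ω), (z' (slam F W ω), F.W ω)))) ≤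
      (1 - N) * J * Real.log 2 + Real.log 11 := by
  have hJ0 : (0 : ℝ) ≤ J := Nat.cast_nonneg J
  have e1 : (1 : ℝ) ≤ 2 ^ ((1 - N) * J) :=
    Real.one_le_rpow (by norm_num) (mul_nonneg (by linarith) hJ0)
  have key := CH_pair hq' (fun ω => F.X J ω κ)
    (fun ω => (⌊(2 : ℝ) ^ (N * J) * hgt F κ z' W G ω⌋,
        (ceI I (fun _ => J) (F.x ω), (z' (slam F W ω), F.W ω))))
    (D := ⌈3 * (2 : ℝ) ^ ((1 - N) * J)⌉₊ + 1) (by
      intro ω ω' hω hω' e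
      simp only [Prod.mk.injEq] at e
      obtain ⟨e1, e2, e3, e4⟩ := e
      have hT : F.T ω = F.T ω' := (Prod.ext_iff.mp e4).1
      have g1 := hgt_near hlb hρ he hsm (hA ω hω) (hA ω' hω') e2 e3 hT le_rfl
      have g2 := fl_one_mul (Real.rpow_pos_of_pos (by norm_num) _) e1
      have g4 : |(2 : ℝ) ^ (N * J) * (F.x ω κ - F.x ω' κ)| ≤ 3 := by
        rw [abs_le] at g1 g2 ⊢
        constructor <;> linarith [g1.1, g1.2, g2.1, g2.2]
      refine floor_sub_le (a := 2 ^ J * F.x ω κ) (b := 2 ^ J * F.x ω' κ) ?_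
      rw [← mul_sub]
      refine le_trans ?_ (Nat.le_ceil _)
      have e5 : (2 : ℝ) ^ J = 2 ^ ((1 - N) * J) * 2 ^ (N * J) := by
        rw [← Real.rpow_add (by norm_num), ← Real.rpow_natCast]
        congr 1
        ring
      rw [e5, mul_assoc, abs_mul, abs_of_pos (Real.rpow_pos_of_pos (by norm_num) _)]
      have := mul_le_mul_of_nonneg_left g4
        (Real.rpow_pos_of_pos (by norm_num : (0 : ℝ) < 2) ((1 - N) * J)).le
      linarith)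
  refine key.trans ?_
  have e2 : 2 * ((⌈3 * (2 : ℝ) ^ ((1 - N) * J)⌉₊ + 1 : ℕ) : ℝ) + 1 ≤ 11 * 2 ^ ((1 - N) * J) := by
    have h3 := Nat.ceil_lt_add_one (by positivity : 0 ≤ 3 * (2 : ℝ) ^ ((1 - N) * J))
    push_cast
    linarith
  refine (Real.log_le_log (by positivity) e2).trans (le_of_eq ?_)
  rw [Real.log_mul (by norm_num) (by positivity), Real.log_rpow (by norm_num)]
  ring

end one

/-- **More digits.** -/
theorem hgt_cnt {Ω β : Type} [Fintype Ω] {q' : Ω → ℝ} (hq' : IsLaw q') (o : Ω → ℝ) {N n : ℝ}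
    (J : ℕ) (hNn : N ≤ n) (Y : Ω → β) :
    CH q' (fun ω => ⌊(2 : ℝ) ^ (n * J) * o ω⌋)
      (fun ω => (⌊(2 : ℝ) ^ (N * J) * o ω⌋, Y ω)) ≤ (n - N) * J * Real.log 2 + Real.log 7 := by
  have hJ0 : (0 : ℝ) ≤ J := Nat.cast_nonneg J
  have e1 : (1 : ℝ) ≤ 2 ^ ((n - N) * J) :=
    Real.one_le_rpow (by norm_num) (mul_nonneg (by linarith) hJ0)
  have key := CH_pair hq' (fun ω => ⌊(2 : ℝ) ^ (n * J) * o ω⌋)
    (fun ω => (⌊(2 : ℝ) ^ (N * J) * o ω⌋, Y ω)) (D := ⌈(2 : ℝ) ^ ((n - N) * J)⌉₊ + 1) (by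
      intro ω ω' hω hω' e
      have g2 := fl_one_mul (Real.rpow_pos_of_pos (by norm_num) _) (Prod.ext_iff.mp e).1
      refine floor_sub_le ?_
      rw [← mul_sub]
      refine le_trans ?_ (Nat.le_ceil _)
      have e5 : (2 : ℝ) ^ (n * J) = 2 ^ ((n - N) * J) * 2 ^ (N * J) := by
        rw [← Real.rpow_add (by norm_num)]
        congr 1
        ring
      rw [e5, mul_assoc, abs_mul, abs_of_pos (Real.rpow_pos_of_pos (by norm_num) _)]
      have := mul_le_mul_of_nonneg_left g2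
        (Real.rpow_pos_of_pos (by norm_num : (0 : ℝ) < 2) ((n - N) * J)).le
      linarith)
  refine key.trans ?_
  have e2 : 2 * ((⌈(2 : ℝ) ^ ((n - N) * J)⌉₊ + 1 : ℕ) : ℝ) + 1 ≤ 7 * 2 ^ ((n - N) * J) := by
    have h3 := Nat.ceil_lt_add_one (by positivity : 0 ≤ (2 : ℝ) ^ ((n - N) * J))
    push_cast
    linarith
  refine (Real.log_le_log (by positivity) e2).trans (le_of_eq ?_)
  rw [Real.log_mul (by norm_num) (by positivity), Real.log_rpow (by norm_num)]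
  ring

/-! ### The chain rule -/

section tup

variable {Ω β : Type} [Fintype Ω] {q' : Ω → ℝ}

theorem tup_succ (h0 : ∀ ω, 0 ≤ q' ω) (X : ℕ → Ω → ℤ) (n : ℕ) (C : Ω → β) :
    CH q' (fun ω (l : Fin (n + 1)) => X l ω) C =
      CH q' (fun ω (l : Fin n) => X l ω) C + CH q' (X n) (fun ω => ((fun l : Fin n => X l ω), C ω)) := by
  have h1 := CH_chain h0 (X n) (fun ω (l : Fin n) => X l ω) C
  have h2 : CH q' (fun ω (l : Fin (n + 1)) => X l ω) C =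
      CH q' (fun ω => (X n ω, fun l : Fin n => X l ω)) C := by
    refine CH_congr h0 ?_ ?_ (fun _ _ _ _ e => e) (fun _ _ _ _ e => e)
    · intro ω ω' _ _ hh
      simp only [Prod.mk.injEq] at hh ⊢
      refine ⟨congrFun hh.1 ⟨n, Nat.lt_succ_self n⟩, _root_.funext fun l => ?_⟩
      exact congrFun hh.1 ⟨l, by have := l.2; omega⟩
    · intro ω ω' _ _ hh
      simp only [Prod.mk.injEq] at hh
      refine _root_.funext fun i => ?_
      rcases Nat.lt_or_ge i n with h5 | h5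
      · exact congrFun hh.1.2 ⟨i, h5⟩
      · have h6 : (i : ℕ) = n := by have := i.2; omega
        show X i ω = X i ω'
        rw [h6]
        exact hh.1.1
  rw [h2, h1]

/-- The chain rule, from above. -/
theorem tup_le (h0 : ∀ ω, 0 ≤ q' ω) (X : ℕ → Ω → ℤ) {r₀ r : ℕ} (hr : r₀ ≤ r) (C : Ω → β)
    {B₀ : ℝ} {B : ℕ → ℝ} (h1 : CH q' (fun ω (l : Fin r₀) => X l ω) C ≤ B₀)
    (h2 : ∀ i, r₀ ≤ i → i < r →
      CH q' (X i) (fun ω => ((fun l : Fin i => X l ω), C ω)) ≤ B i) :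
    CH q' (fun ω (l : Fin r) => X l ω) C ≤ B₀ + ∑ i ∈ Finset.Ico r₀ r, B i := by
  induction r, hr using Nat.le_induction with
  | base =>
    rw [Finset.Ico_self, Finset.sum_empty, add_zero]
    exact h1
  | succ r hr ih =>
    have h3 := ih fun i a b => h2 i a (by omega)
    rw [tup_succ h0 X r C, Finset.sum_Ico_succ_top hr]
    linarith [h2 r hr (Nat.lt_succ_self r)]

/-- The chain rule, from below. -/
theorem le_tup (h0 : ∀ ω, 0 ≤ q' ω) (X : ℕ → Ω → ℤ) {r₀ r : ℕ} (hr : r₀ ≤ r) (C : Ω → β)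
    {B₀ : ℝ} {B : ℕ → ℝ} (h1 : B₀ ≤ CH q' (fun ω (l : Fin r₀) => X l ω) C)
    (h2 : ∀ i, r₀ ≤ i → i < r →
      B i ≤ CH q' (X i) (fun ω => ((fun l : Fin i => X l ω), C ω))) :
    B₀ + ∑ i ∈ Finset.Ico r₀ r, B i ≤ CH q' (fun ω (l : Fin r) => X l ω) C := by
  induction r, hr using Nat.le_induction with
  | base =>
    rw [Finset.Ico_self, Finset.sum_empty, add_zero]
    exact h1
  | succ r hr ih =>
    have h3 := ih fun i a b => h2 i a (by omega)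
    rw [tup_succ h0 X r C, Finset.sum_Ico_succ_top hr]
    linarith [h2 r hr (Nat.lt_succ_self r)]

end tup

/-! ### Labels of a chain -/

/-- **Labels of a chain**, with a common code. -/
def LbC (F : Fam m J) (c : ℕ → Fin m) (r₀ n K : ℕ) (e w : ℝ) (rd p : ℕ → ℝ) (A : F.Ω → Prop)
    {V : Type} (z : PtT F → V) (z' : LnT F → V) (g : V → ℕ → MvPolynomial (Option (Fin m)) ℝ) :
    Prop :=
  ∀ i, r₀ ≤ i → i < n → LbOK F ((range i).image c) (c i) K ⌊e * J⌋₊ J ⌊w * J⌋₊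
    ⌊(rd i + e) * J⌋₊ ⌊(p i - e) * J⌋₊ A z z' (fun v => g v i)

theorem LbC.sub {F : Fam m J} {c : ℕ → Fin m} {r₀ n K : ℕ} {e w : ℝ} {rd p : ℕ → ℝ}
    {A B : F.Ω → Prop} {V : Type} {z : PtT F → V} {z' : LnT F → V}
    {g : V → ℕ → MvPolynomial (Option (Fin m)) ℝ} (h : LbC F c r₀ n K e w rd p A z z' g)
    (hB : Sub B A) : LbC F c r₀ n K e w rd p B z z' g := fun i a b => (h i a b).sub hB

/-- The labels exist. -/
theorem exs_lbC {S : PCl m} {c : ℕ → Fin m} {r₀ n : ℕ} {w : ℝ} {rd p : ℕ → ℝ}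
    (h : ∀ i, r₀ ≤ i → i < n → Att S ((range i).image c) (c i) w (p i) (rd i)) {e : ℝ}
    (he : 0 < e) : ∃ K : ℕ, Bas S (fun J F A => ∃ (V : Type) (z : PtT F → V) (z' : LnT F → V)
      (g : V → ℕ → MvPolynomial (Option (Fin m)) ℝ), LbC F c r₀ n K e w rd p A z z' g ∧
      ∀ ω, A ω → z (ptr F J ω) = z' (slam F ⌊w * J⌋₊ ω)) := by
  induction n with
  | zero =>
    refine ⟨0, 1, one_pos, 0, fun J _ F A _ => ⟨Unit, fun _ => (), fun _ => (), fun _ _ => 0, ?_,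
      fun _ _ => rfl⟩⟩
    intro i _ hi
    exact absurd hi (Nat.not_lt_zero i)
  | succ n ih =>
    obtain ⟨K₁, H₁⟩ := ih fun i a b => h i a (by omega)
    by_cases hn : r₀ ≤ n
    · obtain ⟨K₂, H₂⟩ := h n hn (Nat.lt_succ_self n) e he
      refine ⟨max K₁ K₂, Bas.mono 0 (H₁.and H₂) ?_⟩
      rintro J - F A ⟨⟨V₁, z₁, z₁', g₁, h1, hc1⟩, V₂, z₂, z₂', G₂, h2⟩
      refine ⟨V₁ × V₂, fun a => (z₁ a, z₂ a), fun s => (z₁' s, z₂' s),
        fun v i => if i < n then g₁ v.1 i else G₂ v.2, fun i hi0 hi => ?_,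
        fun ω hω => Prod.ext (hc1 ω hω) (h2.cls ω hω)⟩
      by_cases hin : i < n
      · have h3 := (h1 i hi0 hin).mono (Finset.Subset.refl _) (le_max_left K₁ K₂) le_rfl le_rfl
          le_rfl
        simp only [if_pos hin]
        exact ⟨fun v => h3.deg v.1, fun v => h3.dep v.1, fun ω hω =>
          Prod.ext (hc1 ω hω) (h2.cls ω hω), fun ω hω => h3.pos ω hω,
          fun ω hω => h3.vel ω hω, fun ω hω => h3.lip ω hω⟩
      · obtain rfl : i = n := by omega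
        have h3 := h2.mono (Finset.Subset.refl _) (le_max_right K₁ K₂) le_rfl le_rfl
          le_rfl
        simp only [if_neg hin]
        exact ⟨fun v => h3.deg v.2, fun v => h3.dep v.2, fun ω hω =>
          Prod.ext (hc1 ω hω) (h2.cls ω hω), fun ω hω => h3.pos ω hω,
          fun ω hω => h3.vel ω hω, fun ω hω => h3.lip ω hω⟩
    · refine ⟨K₁, Bas.mono 0 H₁ ?_⟩
      rintro J - F A ⟨V₁, z₁, z₁', g₁, h1, hc1⟩
      exact ⟨V₁, z₁, z₁', g₁, fun i a b => absurd a (by omega), hc1⟩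

end Pool.OWN68
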