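import Pool.Agent.H68.OWN.Uv

/-!
# Two coordinates with one label: the theorem

`uv`: steps (1) and (2) of helper17's closing of the type `(y; u, v)`.
-/

set_option autoImplicit false

namespace Pool.OWN68

open Finset Real
open Pool.Agent.H49.Ent Pool.Agent.H32.Dense Pool.STK

section

variable {Ω ζ : Type} [Fintype Ω]

theorem log_size {C g i : ℕ} (hi : i ≤ g) (hC : 1 ≤ C) :
    ((g : ℝ) - i) * Real.log 2 + Real.log (2 * (C * 2 ^ i : ℕ) + 1) - Real.log 2 ≤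
      Real.log (2 * (C * 2 ^ g : ℕ) + 1) := by
  have hC' : (1 : ℝ) ≤ C := by exact_mod_cast hC
  have hI : (1 : ℝ) ≤ 2 ^ i := one_le_pow₀ (by norm_num)
  have hm : (1 : ℝ) ≤ 2 ^ (g - i) := one_le_pow₀ (by norm_num)
  have e : (2 : ℝ) ^ g = 2 ^ (g - i) * 2 ^ i := by
    rw [← pow_add]
    congr 1
    omega
  have h1 : (2 : ℝ) ^ (g - i) * (2 * (C * 2 ^ i) + 1) ≤ 2 * (2 * (C * 2 ^ g) + 1) := by
    rw [e]
    have h2 : (1 : ℝ) ≤ C * 2 ^ i := by nlinarith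
    nlinarith
  have h3 := Real.log_le_log (by positivity) h1
  rw [Real.log_mul (by positivity) (by positivity), Real.log_mul (by norm_num) (by positivity),
    Real.log_pow, Nat.cast_sub hi] at h3
  push_cast
  linarith

theorem CH_size {T : Type} {q : Ω → ℝ} (h0 : ∀ ω, 0 ≤ q ω) (h1 : ∑ ω, q ω = 1) (X : Ω → ℤ)
    (Z : Ω → T) (D : ℕ) (h : ∀ ω, 0 < q ω → |X ω| ≤ (D : ℤ)) :
    CH q X Z ≤ Real.log (2 * D + 1) :=
  CH_fn h0 h1 X Z (fun _ => 0) D (fun ω hω => by rw [sub_zero]; exact h ω hω)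

/-- Refine the digits. -/
theorem CH_digits {T : Type} {q : Ω → ℝ} (h0 : ∀ ω, 0 ≤ q ω) (h1 : ∑ ω, q ω = 1) {g i : ℕ}
    (hi : i ≤ g) (X : Ω → ℤ) (Z : Ω → T) :
    CH q X (fun ω => (X ω / 2 ^ (g - i), Z ω)) ≤ ((g : ℝ) - i) * Real.log 2 := by
  have hm : (0 : ℤ) < 2 ^ (g - i) := by positivity
  have h2 := CH_le_card h0 h1 X (fun ω => (X ω / 2 ^ (g - i), Z ω))
    (fun x => Finset.Ico (2 ^ (g - i) * x.1) (2 ^ (g - i) * x.1 + 2 ^ (g - i))) (fun ω _ => by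
      rw [Finset.mem_Ico]
      have h3 := Int.mul_ediv_self_le (x := X ω) hm.ne'
      have h4 := Int.lt_mul_ediv_self_add (x := X ω) hm
      exact ⟨h3, h4⟩)
  refine h2.trans (le_of_eq ?_)
  rw [← Ex_const h1 (((g : ℝ) - i) * Real.log 2)]
  unfold Ex
  refine Finset.sum_congr rfl fun ω _ => ?_
  show q ω * Real.log _ = q ω * _
  rw [Int.card_Ico, add_sub_cancel_left]
  have : ((2 : ℤ) ^ (g - i)).toNat = 2 ^ (g - i) := by
    have h : (2 : ℤ) ^ (g - i) = ((2 ^ (g - i) : ℕ) : ℤ) := by push_cast; rfl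
    rw [h, Int.toNat_natCast]
  rw [this]
  push_cast
  rw [Real.log_pow, Nat.cast_sub hi]

/-- **Two coordinates with one label.** -/
theorem uv {p : Ω → ℝ} (hp : IsLaw p) (W : Ω → ζ) {C₀ : ℕ} (hC : 1 ≤ C₀) (g : ℕ)
    {b : ℕ} (hb : 1 ≤ b) (U V B K0 K1 c : Ω → ℤ) {K : ℕ}
    (sU : ∀ ω, 0 < p ω → |U ω| ≤ ((C₀ * 2 ^ g : ℕ) : ℤ))
    (sB : ∀ ω, 0 < p ω → |B ω| ≤ ((C₀ * 2 ^ g : ℕ) : ℤ))
    (sK : ∀ ω, 0 < p ω → |K1 ω| ≤ ((C₀ * 2 ^ g : ℕ) : ℤ))
    (sc : ∀ ω, 0 < p ω → |c ω| ≤ ((C₀ * 2 ^ g : ℕ) : ℤ))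
    (hV : ∀ ω, 0 < p ω →
      |2 ^ g * V ω - (2 ^ g * K0 ω + K1 ω * c ω + B ω * U ω)| ≤ K * 2 ^ g)
    {τ c₀ e₁ eU ec err : ℝ} (hτ : 0 < τ) (hc₀ : 0 < c₀) (he₁ : 0 ≤ e₁) (heU : 0 ≤ eU)
    (hec : 0 ≤ ec)
    (herr : 2 * (eU + ec) + (b * Real.log 2 + Real.log (2 * (g + 1)) + Real.log (nlb 1 C₀ g)) +
      Real.log (2 * C₀ + 5) + 2 * Real.log (2 * (K + 2) + 1) + 2 * Real.log 2 +
      4 * Real.log (2 * (K + 2 * C₀ + 6) + 1) ≤ err)
    (hU : Real.log (2 * (C₀ * 2 ^ g : ℕ) + 1) - eU ≤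
      CH p U (fun ω => ((B ω, (K0 ω, K1 ω)), (c ω, W ω))))
    (hc : Real.log (2 * (C₀ * 2 ^ g : ℕ) + 1) - ec ≤
      CH p c (fun ω => ((B ω, (K0 ω, K1 ω)), W ω)))
    (hall : CH p (fun ω => (U ω, V ω)) (fun ω => (c ω, W ω)) ≤
      (2 - τ) * (g * Real.log 2) + e₁)
    (hnf : ∀ E : Ω → Prop, (∀ ω ω', B ω = B ω' → K0 ω = K0 ω' → K1 ω = K1 ω' → c ω = c ω' →
      W ω = W ω' → (E ω ↔ E ω')) → c₀ ≤ law p E True → ∀ i, i ≤ g → b ∣ i →
      CH (cond p E True) (fun ω => (U ω, V ω))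
        (fun ω => ((U ω / 2 ^ (g - i), V ω / 2 ^ (g - i)), (c ω, W ω))) ≤
        (2 - τ) * (((g : ℝ) - i) * Real.log 2) + e₁) :
    CH p (fun ω => (B ω, K0 ω + K1 ω * c ω / 2 ^ g)) (fun ω => ((U ω, V ω), (c ω, W ω))) ≤
      ((g / b : ℕ) + 1) * (c₀ * (g * Real.log 2)) + (e₁ + 2 * eU / c₀ + 2 * err) / τ + err ∧
    CH p (fun ω => (B ω, K0 ω + K1 ω * c ω / 2 ^ g)) (fun ω => (c ω, W ω)) ≤
      (1 - τ) * (g * Real.log 2) + e₁ + eU +
      (((g / b : ℕ) + 1) * (c₀ * (g * Real.log 2)) + (e₁ + 2 * eU / c₀ + 2 * err) / τ + err) ∧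
    CH p (fun ω => (K1 ω, K0 ω)) (fun ω => ((U ω, V ω), (c ω, W ω))) ≤
      2 * (((g / b : ℕ) + 1) * (c₀ * (g * Real.log 2)) +
        (e₁ + 2 * eU / c₀ + 2 * err) / τ + err) := by
  classical
  have h0 := hp.nonneg
  have hln : 0 < Real.log 2 := Real.log_pos (by norm_num)
  have hg : (0 : ℤ) < 2 ^ g := by positivity
  obtain ⟨P, hP⟩ : ∃ P : Ω → ℤ, P = fun ω => K0 ω + K1 ω * c ω / 2 ^ g := ⟨_, rfl⟩
  have hPω : ∀ ω, P ω = K0 ω + K1 ω * c ω / 2 ^ g := fun ω => by rw [hP]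
  -- the relations
  have r1 : ∀ ω, |2 ^ g * P ω - (2 ^ g * K0 ω + K1 ω * c ω)| ≤ ((1 : ℕ) : ℤ) * 2 ^ g := by
    intro ω
    have h3 := Int.mul_ediv_self_le (x := K1 ω * c ω) hg.ne'
    have h4 := Int.lt_mul_ediv_self_add (x := K1 ω * c ω) hg
    rw [hPω, abs_le]
    push_cast
    constructor <;> linarith
  have r2 : ∀ ω, 0 < p ω → |2 ^ g * V ω - (2 ^ g * P ω + B ω * U ω)| ≤
      ((K + 1 : ℕ) : ℤ) * 2 ^ g := by
    intro ω hω
    have h1 := abs_le.mp (hV ω hω)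
    have h2 := abs_le.mp (r1 ω)
    rw [abs_le]
    push_cast at h2 ⊢
    constructor <;> linarith [h1.1, h1.2, h2.1, h2.2]
  have r3 : ∀ ω, 0 < p ω → |P ω - (V ω - B ω * U ω / 2 ^ g)| ≤ ((K + 2 * C₀ + 6 : ℕ) : ℤ) := by
    intro ω hω
    have h1 := abs_le.mp (r2 ω hω)
    have h3 := Int.mul_ediv_self_le (x := B ω * U ω) hg.ne'
    have h4 := Int.lt_mul_ediv_self_add (x := B ω * U ω) hg
    obtain ⟨h5, h6⟩ := h1
    push_cast at h5 h6
    have h7 : 2 ^ g * (P ω - (V ω - B ω * U ω / 2 ^ g)) ≤ 2 ^ g * ((K : ℤ) + 2) := by linarith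
    have h8 : 2 ^ g * (-((K : ℤ) + 2)) ≤ 2 ^ g * (P ω - (V ω - B ω * U ω / 2 ^ g)) := by linarith
    have h9 := le_of_mul_le_mul_left h7 hg
    have h10 := le_of_mul_le_mul_left h8 hg
    rw [abs_le]
    push_cast
    constructor <;> linarith
  obtain ⟨ℓ, hℓ⟩ : ∃ l, l = Real.log (2 * ((K : ℝ) + 2 * C₀ + 6) + 1) := ⟨_, rfl⟩
  have hℓ' : Real.log (2 * ((K + 2 * C₀ + 6 : ℕ) : ℝ) + 1) = ℓ := by
    rw [hℓ]
    push_cast
    rfl
  have hℓ0 : 0 ≤ ℓ := by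
    rw [hℓ]
    refine Real.log_nonneg ?_
    have h1 : (0 : ℝ) ≤ K := Nat.cast_nonneg K
    have h2 : (0 : ℝ) ≤ C₀ := Nat.cast_nonneg C₀
    linarith
  rw [← hℓ] at herr
  obtain ⟨dU, hdU⟩ : ∃ d, d = eU / c₀ := ⟨_, rfl⟩
  have hdU0 : 0 ≤ dU := by
    rw [hdU]
    positivity
  -- facts for the law on an event
  have fU : ∀ E : Ω → Prop, (∀ ω ω', B ω = B ω' → K0 ω = K0 ω' → K1 ω = K1 ω' → c ω = c ω' →
      W ω = W ω' → (E ω ↔ E ω')) → c₀ ≤ law p E True →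
      Real.log (2 * (C₀ * 2 ^ g : ℕ) + 1) - dU ≤
        CH (cond p E True) U (fun ω => ((B ω, (K0 ω, K1 ω)), (c ω, W ω))) := by
    intro E hE hE1
    rw [hdU]
    refine deficit_ev hp U (fun ω => ((B ω, (K0 ω, K1 ω)), (c ω, W ω))) hc₀ heU ?_ hU E ?_ hE1
    · intro q hq hqp
      exact CH_size hq.nonneg hq.sum_one U _ (C₀ * 2 ^ g) fun ω hω => sU ω (hqp ω hω)
    · intro ω ω' h
      simp only [Prod.mk.injEq] at h
      obtain ⟨⟨h1, h2, h3⟩, h4, h5⟩ := h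
      exact hE ω ω' h1 h2 h3 h4 h5
  -- the digits of `U`
  have fUi : ∀ E : Ω → Prop, (∀ ω ω', B ω = B ω' → K0 ω = K0 ω' → K1 ω = K1 ω' → c ω = c ω' →
      W ω = W ω' → (E ω ↔ E ω')) → c₀ ≤ law p E True → ∀ i, i ≤ g →
      (((g : ℝ) - i) * Real.log 2 - Real.log 2 - dU ≤
        CH (cond p E True) U (fun ω => (U ω / 2 ^ (g - i),
          ((B ω, (K0 ω, K1 ω)), (c ω, W ω))))) ∧
      (Real.log (2 * (C₀ * 2 ^ i : ℕ) + 1) - Real.log 2 - dU ≤
        CH (cond p E True) (fun ω => U ω / 2 ^ (g - i))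
          (fun ω => ((B ω, (K0 ω, K1 ω)), (c ω, W ω)))) := by
    intro E hE hE1 i hi
    have hE0 : 0 < law p E True := hc₀.trans_le hE1
    have hq := sum_cond p E hE0.ne'
    have hq0 := cond_nonneg h0 E True
    have h1 := fU E hE hE1
    have h2 := log_size hi hC
    have h3 : CH (cond p E True) (fun ω => U ω / 2 ^ (g - i))
        (fun ω => ((B ω, (K0 ω, K1 ω)), (c ω, W ω))) ≤
        Real.log (2 * (C₀ * 2 ^ i : ℕ) + 1) :=
      CH_size hq0 hq _ _ (C₀ * 2 ^ i) fun ω hω =>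
        ediv_size hi (sU ω ((cond_pos_iff h0 E True ω).mp hω).1)
    have h4 := CH_chain2 hq0 (fun ω => U ω / 2 ^ (g - i)) U
      (fun ω => ((B ω, (K0 ω, K1 ω)), (c ω, W ω)))
    have h5 : CH (cond p E True) U (fun ω => ((B ω, (K0 ω, K1 ω)), (c ω, W ω))) ≤
        CH (cond p E True) (fun ω => (U ω / 2 ^ (g - i), U ω))
          (fun ω => ((B ω, (K0 ω, K1 ω)), (c ω, W ω))) :=
      CH_mono_left hq0 fun ω ω' _ _ h => (Prod.ext_iff.mp (Prod.ext_iff.mp h).1).2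
    have h6 := CH_digits hq0 hq hi U (fun ω => ((B ω, (K0 ω, K1 ω)), (c ω, W ω)))
    constructor <;> linarith
  -- the digits of `V`
  have fVi : ∀ E : Ω → Prop, c₀ ≤ law p E True → ∀ i, i ≤ g → ∀ {T : Type} (Z : Ω → T)
      (u b' n : T → ℤ), (∀ ω, U ω / 2 ^ (g - i) = u (Z ω)) → (∀ ω, B ω / 2 ^ (g - i) = b' (Z ω)) →
      (∀ ω, P ω / 2 ^ (g - i) = n (Z ω)) →
      CH (cond p E True) (fun ω => V ω / 2 ^ (g - i)) Z ≤ ℓ := by
    intro E hE1 i hi T Z u b' n h1 h2 h3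
    have hE0 : 0 < law p E True := hc₀.trans_le hE1
    rw [← hℓ']
    refine CH_fn (cond_nonneg h0 E True) (sum_cond p E hE0.ne') _ Z
      (fun z => n z + (b' z * u z) / 2 ^ i) (K + 2 * C₀ + 6) fun ω hω => ?_
    have hω' := ((cond_pos_iff h0 E True ω).mp hω).1
    have h4 := dig_near hi (sB ω hω') (sU ω hω') (r2 ω hω')
    rw [← h1, ← h2, ← h3]
    refine h4.trans ?_
    push_cast
    linarith
  -- first application
  have herr0 : 0 ≤ b * Real.log 2 + Real.log (2 * ((g : ℝ) + 1)) + Real.log (nlb 1 C₀ g : ℝ) := by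
    have h2 : 0 ≤ Real.log (2 * ((g : ℝ) + 1)) := Real.log_nonneg (by
      have : (0 : ℝ) ≤ g := Nat.cast_nonneg g
      linarith)
    have h3 : 0 ≤ Real.log (nlb 1 C₀ g : ℝ) := by
      refine Real.log_nonneg ?_
      have h4 := nlb_pos 1 C₀ g
      have h5 : 0 < nlb 1 C₀ g := by exact_mod_cast h4
      exact_mod_cast h5
    have h4 : 0 ≤ (b : ℝ) * Real.log 2 := by positivity
    linarith
  have hl5 : 0 ≤ Real.log (2 * (C₀ : ℝ) + 5) := Real.log_nonneg (by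
    have : (0 : ℝ) ≤ C₀ := Nat.cast_nonneg C₀
    linarith)
  have hlK : 0 ≤ Real.log (2 * ((K : ℝ) + 2) + 1) := Real.log_nonneg (by
    have : (0 : ℝ) ≤ K := Nat.cast_nonneg K
    linarith)
  obtain ⟨X, hX⟩ : ∃ X, X = ((g / b : ℕ) + 1) * (c₀ * (g * Real.log 2)) +
    (e₁ + 2 * eU / c₀ + 2 * err) / τ + err := ⟨_, rfl⟩
  have hXe : ((g / b : ℕ) + 1) * (c₀ * (g * Real.log 2)) + ((e₁ + 2 * dU + err) + err) / τ + err =
      X := by
    rw [hX, hdU]
    congr 2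
    ring
  have a1 : CH p (fun ω => (B ω, P ω)) (fun ω => (V ω, (U ω, (c ω, W ω)))) ≤ X := by
    rw [← hXe]
    refine ktz hp (fun ω => (c ω, W ω)) hC g hb B P U V (K := K + 1) sB sU r2 hτ hc₀.le
      (by linarith) ?_ ?_
    · have h1 : CH p U (fun ω => ((B ω, (K0 ω, K1 ω)), (c ω, W ω))) ≤
          CH p U (fun ω => ((B ω, P ω), (c ω, W ω))) :=
        CH_mono_cond h0 fun ω ω' _ _ h => by
          simp only [Prod.mk.injEq] at h
          obtain ⟨⟨h1, h2, h3⟩, h4, h5⟩ := h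
          show ((B ω, P ω), (c ω, W ω)) = ((B ω', P ω'), (c ω', W ω'))
          rw [hPω, hPω, h1, h2, h3, h4, h5]
      have e1 : (2 : ℝ) * (((K + 1 : ℕ) : ℝ) + 1) + 1 = 2 * ((K : ℝ) + 2) + 1 := by
        push_cast
        ring
      rw [e1]
      linarith
    · intro E hE hE0 hE1 i hi hbi
      have hE' : ∀ ω ω', B ω = B ω' → K0 ω = K0 ω' → K1 ω = K1 ω' → c ω = c ω' →
          W ω = W ω' → (E ω ↔ E ω') := fun ω ω' h1 h2 h3 h4 h5 => by
        refine hE ω ω' (Prod.ext h4 h5) h1 ?_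
        rw [hPω, hPω, h2, h3, h4]
      have hq := sum_cond p E hE0.ne'
      have hq0 := cond_nonneg h0 E True
      have hn := hnf E hE' hE1 i hi hbi
      have t1 := fVi E hE1 i hi (fun ω => (U ω, ((B ω / 2 ^ (g - i), P ω / 2 ^ (g - i)),
        (c ω, W ω)))) (fun z => z.1 / 2 ^ (g - i)) (fun z => z.2.1.1) (fun z => z.2.1.2)
        (fun _ => rfl) (fun _ => rfl) (fun _ => rfl)
      have t2 := CH_le_add hq0 V (fun ω => V ω / 2 ^ (g - i))
        (fun ω => (U ω, ((B ω / 2 ^ (g - i), P ω / 2 ^ (g - i)), (c ω, W ω))))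
      have t3 : CH (cond p E True) V (fun ω => (V ω / 2 ^ (g - i),
          (U ω, ((B ω / 2 ^ (g - i), P ω / 2 ^ (g - i)), (c ω, W ω))))) ≤
          CH (cond p E True) V (fun ω => (U ω, ((U ω / 2 ^ (g - i), V ω / 2 ^ (g - i)),
            (c ω, W ω)))) :=
        CH_mono_cond hq0 fun ω ω' _ _ h => by
          simp only [Prod.mk.injEq] at h ⊢
          obtain ⟨h1, h2, _, h4, h5⟩ := h
          exact ⟨h2, ⟨by rw [h2], h1⟩, h4, h5⟩
      have t4 := CH_chain2 hq0 U V (fun ω => ((U ω / 2 ^ (g - i), V ω / 2 ^ (g - i)),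
        (c ω, W ω)))
      have t5 := (fUi E hE' hE1 i hi).1
      have t6 := fVi E hE1 i hi (fun ω => (U ω / 2 ^ (g - i),
        ((B ω, (K0 ω, K1 ω)), (c ω, W ω)))) (fun z => z.1) (fun z => z.2.1.1 / 2 ^ (g - i))
        (fun z => (z.2.1.2.1 + z.2.1.2.2 * z.2.2.1 / 2 ^ g) / 2 ^ (g - i))
        (fun _ => rfl) (fun _ => rfl) (fun ω => by rw [hPω])
      have t7 := CH_cond_add hq0 U (fun ω => V ω / 2 ^ (g - i)) (fun ω => (U ω / 2 ^ (g - i),
        ((B ω, (K0 ω, K1 ω)), (c ω, W ω))))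
      have t8 : CH (cond p E True) U (fun ω => (V ω / 2 ^ (g - i), (U ω / 2 ^ (g - i),
          ((B ω, (K0 ω, K1 ω)), (c ω, W ω))))) ≤
          CH (cond p E True) U (fun ω => ((U ω / 2 ^ (g - i), V ω / 2 ^ (g - i)),
            (c ω, W ω))) :=
        CH_mono_cond hq0 fun ω ω' _ _ h => by
          simp only [Prod.mk.injEq] at h ⊢
          tauto
      linarith
  -- second application
  have a2 : CH p (fun ω => (K1 ω, K0 ω)) (fun ω => (P ω, (c ω, (B ω, W ω)))) ≤ X := by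
    rw [← hXe]
    refine ktz hp (fun ω => (B ω, W ω)) hC g hb K1 K0 c P (K := 1) sK sc
      (fun ω _ => r1 ω) hτ hc₀.le (by linarith) ?_ ?_
    · have h1 : CH p c (fun ω => ((B ω, (K0 ω, K1 ω)), W ω)) ≤
          CH p c (fun ω => ((K1 ω, K0 ω), (B ω, W ω))) :=
        CH_mono_cond h0 fun ω ω' _ _ h => by
          simp only [Prod.mk.injEq] at h ⊢
          tauto
      have h2 : Real.log (2 * (((1 : ℕ) : ℝ) + 1) + 1) ≤ Real.log (2 * ((K : ℝ) + 2) + 1) := by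
        refine Real.log_le_log (by positivity) ?_
        have : (0 : ℝ) ≤ K := Nat.cast_nonneg K
        push_cast
        linarith
      linarith
    · intro E hE hE0 hE1 i hi hbi
      have hE' : ∀ ω ω', B ω = B ω' → K0 ω = K0 ω' → K1 ω = K1 ω' → c ω = c ω' →
          W ω = W ω' → (E ω ↔ E ω') := fun ω ω' h1 h2 h3 _ h5 =>
        hE ω ω' (Prod.ext h1 h5) h3 h2
      have hq := sum_cond p E hE0.ne'
      have hq0 := cond_nonneg h0 E True
      have hn := hnf E hE' hE1 i hi hbi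
      -- `P i` is few bits given the condition
      have t1 : CH (cond p E True) (fun ω => P ω / 2 ^ (g - i)) (fun ω => (c ω,
          ((K1 ω / 2 ^ (g - i), K0 ω / 2 ^ (g - i)), (B ω, W ω)))) ≤ ℓ := by
        rw [← hℓ']
        refine CH_fn hq0 hq _ _
          (fun z => z.2.1.2 + (z.2.1.1 * (z.1 / 2 ^ (g - i))) / 2 ^ i) (K + 2 * C₀ + 6)
          fun ω hω => ?_
        have hω' := ((cond_pos_iff h0 E True ω).mp hω).1
        have h4 := dig_near hi (sK ω hω') (sc ω hω') (r1 ω)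
        refine h4.trans ?_
        push_cast
        linarith
      have t2 := CH_le_add hq0 P (fun ω => P ω / 2 ^ (g - i)) (fun ω => (c ω,
          ((K1 ω / 2 ^ (g - i), K0 ω / 2 ^ (g - i)), (B ω, W ω))))
      -- reduce the condition to `Z₀`
      have t3 : CH (cond p E True) P (fun ω => (P ω / 2 ^ (g - i), (c ω,
          ((K1 ω / 2 ^ (g - i), K0 ω / 2 ^ (g - i)), (B ω, W ω))))) ≤
          CH (cond p E True) P (fun ω => ((P ω / 2 ^ (g - i), B ω), (c ω, W ω))) :=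
        CH_mono_cond hq0 fun ω ω' _ _ h => by
          simp only [Prod.mk.injEq] at h ⊢
          tauto
      -- `U i` is nearly independent of `P`
      have t4 := CH_chain2 hq0 P (fun ω => U ω / 2 ^ (g - i))
        (fun ω => ((P ω / 2 ^ (g - i), B ω), (c ω, W ω)))
      have t5 := CH_chain2 hq0 (fun ω => U ω / 2 ^ (g - i)) P
        (fun ω => ((P ω / 2 ^ (g - i), B ω), (c ω, W ω)))
      have t6 := CH_swap2 hq0 P (fun ω => U ω / 2 ^ (g - i))
        (fun ω => ((P ω / 2 ^ (g - i), B ω), (c ω, W ω)))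
      have t7 : CH (cond p E True) (fun ω => U ω / 2 ^ (g - i))
          (fun ω => ((P ω / 2 ^ (g - i), B ω), (c ω, W ω))) ≤
          Real.log (2 * (C₀ * 2 ^ i : ℕ) + 1) :=
        CH_size hq0 hq _ _ (C₀ * 2 ^ i) fun ω hω =>
          ediv_size hi (sU ω ((cond_pos_iff h0 E True ω).mp hω).1)
      have t8 : CH (cond p E True) (fun ω => U ω / 2 ^ (g - i))
          (fun ω => ((B ω, (K0 ω, K1 ω)), (c ω, W ω))) ≤
          CH (cond p E True) (fun ω => U ω / 2 ^ (g - i))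
          (fun ω => (P ω, ((P ω / 2 ^ (g - i), B ω), (c ω, W ω)))) :=
        CH_mono_cond hq0 fun ω ω' _ _ h => by
          simp only [Prod.mk.injEq] at h ⊢
          obtain ⟨⟨h1, h2, h3⟩, h4, h5⟩ := h
          have h6 : P ω = P ω' := by rw [hPω, hPω, h2, h3, h4]
          exact ⟨h6, ⟨by rw [h6], h1⟩, h4, h5⟩
      have t9 := (fUi E hE' hE1 i hi).2
      -- `(U, P)` given `(U i, P i, B)`
      have s1 := CH_chain2 hq0 P U
        (fun ω => (U ω / 2 ^ (g - i), ((P ω / 2 ^ (g - i), B ω), (c ω, W ω))))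
      have s2 : CH (cond p E True) U (fun ω => (U ω / 2 ^ (g - i),
          ((B ω, (K0 ω, K1 ω)), (c ω, W ω)))) ≤
          CH (cond p E True) U (fun ω => (P ω, (U ω / 2 ^ (g - i),
            ((P ω / 2 ^ (g - i), B ω), (c ω, W ω))))) :=
        CH_mono_cond hq0 fun ω ω' _ _ h => by
          simp only [Prod.mk.injEq] at h ⊢
          obtain ⟨h0', ⟨h1, h2, h3⟩, h4, h5⟩ := h
          have h6 : P ω = P ω' := by rw [hPω, hPω, h2, h3, h4]
          exact ⟨h6, h0', ⟨by rw [h6], h1⟩, h4, h5⟩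
      have s3 := (fUi E hE' hE1 i hi).1
      have s4 := fVi E hE1 i hi (fun ω => (U ω / 2 ^ (g - i), ((P ω / 2 ^ (g - i), B ω),
        (c ω, W ω)))) (fun z => z.1) (fun z => z.2.1.2 / 2 ^ (g - i)) (fun z => z.2.1.1)
        (fun _ => rfl) (fun _ => rfl) (fun _ => rfl)
      have s5 := CH_le_add hq0 (fun ω => (P ω, U ω)) (fun ω => V ω / 2 ^ (g - i))
        (fun ω => (U ω / 2 ^ (g - i), ((P ω / 2 ^ (g - i), B ω), (c ω, W ω))))
      have s6 : CH (cond p E True) (fun ω => (P ω, U ω)) (fun ω => (V ω / 2 ^ (g - i),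
          (U ω / 2 ^ (g - i), ((P ω / 2 ^ (g - i), B ω), (c ω, W ω))))) ≤
          CH (cond p E True) (fun ω => (P ω, U ω)) (fun ω => (B ω,
            ((U ω / 2 ^ (g - i), V ω / 2 ^ (g - i)), (c ω, W ω)))) :=
        CH_mono_cond hq0 fun ω ω' _ _ h => by
          simp only [Prod.mk.injEq] at h ⊢
          tauto
      have s7 := CH_le_add hq0 (fun ω => (P ω, U ω)) (fun ω => (U ω, V ω)) (fun ω => (B ω,
            ((U ω / 2 ^ (g - i), V ω / 2 ^ (g - i)), (c ω, W ω))))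
      have s8 : CH (cond p E True) (fun ω => (U ω, V ω)) (fun ω => (B ω,
            ((U ω / 2 ^ (g - i), V ω / 2 ^ (g - i)), (c ω, W ω)))) ≤
          CH (cond p E True) (fun ω => (U ω, V ω))
            (fun ω => ((U ω / 2 ^ (g - i), V ω / 2 ^ (g - i)), (c ω, W ω))) :=
        CH_mono_cond hq0 fun ω ω' _ _ h => (Prod.ext_iff.mp h).2
      have s9 : CH (cond p E True) (fun ω => (P ω, U ω)) (fun ω => ((U ω, V ω), (B ω,
            ((U ω / 2 ^ (g - i), V ω / 2 ^ (g - i)), (c ω, W ω))))) ≤ ℓ := by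
        have u1 : CH (cond p E True) (fun ω => (P ω, U ω)) (fun ω => ((U ω, V ω), (B ω,
            ((U ω / 2 ^ (g - i), V ω / 2 ^ (g - i)), (c ω, W ω))))) ≤
            CH (cond p E True) P (fun ω => ((U ω, V ω), (B ω,
            ((U ω / 2 ^ (g - i), V ω / 2 ^ (g - i)), (c ω, W ω))))) := by
          refine CH_mono_left hq0 fun ω ω' _ _ h => ?_
          simp only [Prod.mk.injEq] at h ⊢
          tauto
        refine u1.trans ?_
        rw [← hℓ']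
        refine CH_fn hq0 hq _ _ (fun z => z.1.2 - z.2.1 * z.1.1 / 2 ^ g) (K + 2 * C₀ + 6)
          fun ω hω => ?_
        exact r3 ω ((cond_pos_iff h0 E True ω).mp hω).1
      linarith
  -- conclusions
  have hfun : (fun ω => (B ω, K0 ω + K1 ω * c ω / 2 ^ g)) = fun ω => (B ω, P ω) := by
    funext ω
    rw [hPω]
  rw [hfun, ← hX]
  have c1 : CH p (fun ω => (B ω, P ω)) (fun ω => ((U ω, V ω), (c ω, W ω))) ≤ X := by
    refine le_trans (CH_mono_cond h0 fun ω ω' _ _ h => ?_) a1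
    simp only [Prod.mk.injEq] at h ⊢
    tauto
  refine ⟨c1, ?_, ?_⟩
  · have h1 := CH_chain2 h0 (fun ω => (B ω, P ω)) U (fun ω => (c ω, W ω))
    have h2 : CH p U (fun ω => ((B ω, (K0 ω, K1 ω)), (c ω, W ω))) ≤
        CH p U (fun ω => ((B ω, P ω), (c ω, W ω))) :=
      CH_mono_cond h0 fun ω ω' _ _ h => by
        simp only [Prod.mk.injEq] at h
        obtain ⟨⟨h1, h2, h3⟩, h4, h5⟩ := h
        show ((B ω, P ω), (c ω, W ω)) = ((B ω', P ω'), (c ω', W ω'))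
        rw [hPω, hPω, h1, h2, h3, h4, h5]
    have h3 := CH_le_add h0 (fun ω => ((B ω, P ω), U ω)) (fun ω => (U ω, V ω))
      (fun ω => (c ω, W ω))
    have h4 : CH p (fun ω => ((B ω, P ω), U ω)) (fun ω => ((U ω, V ω), (c ω, W ω))) ≤
        CH p (fun ω => (B ω, P ω)) (fun ω => ((U ω, V ω), (c ω, W ω))) := by
      refine CH_mono_left h0 fun ω ω' _ _ h => ?_
      simp only [Prod.mk.injEq] at h ⊢
      tauto
    have h5 : (g : ℝ) * Real.log 2 ≤ Real.log (2 * (C₀ * 2 ^ g : ℕ) + 1) := by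
      rw [← Real.log_pow]
      refine Real.log_le_log (by positivity) ?_
      have h6 : (1 : ℝ) ≤ C₀ := by exact_mod_cast hC
      have h7 : (0 : ℝ) < 2 ^ g := by positivity
      push_cast
      nlinarith
    have h6 : (2 - τ) * (g * Real.log 2) = (1 - τ) * (g * Real.log 2) + g * Real.log 2 := by ring
    linarith
  · have h1 := CH_le_add h0 (fun ω => (K1 ω, K0 ω)) (fun ω => (B ω, P ω))
      (fun ω => ((U ω, V ω), (c ω, W ω)))
    have h2 : CH p (fun ω => (K1 ω, K0 ω))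
        (fun ω => ((B ω, P ω), ((U ω, V ω), (c ω, W ω)))) ≤
        CH p (fun ω => (K1 ω, K0 ω)) (fun ω => (P ω, (c ω, (B ω, W ω)))) :=
      CH_mono_cond h0 fun ω ω' _ _ h => by
        simp only [Prod.mk.injEq] at h ⊢
        tauto
    linarith

end

end Pool.OWN68
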