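import Pool.Agent.H68.OWN.Jf
import Pool.Agent.H53.JM.Nf

/-!
# The rows which are not full, from the rate of the rows

`rawN_of`: `RawN` over all the other coordinates, from the rate `RateOf`.
-/

set_option autoImplicit false

namespace Pool.OWN68

open Finset Real MvPolynomial
open Pool.Agent.H49.Ent Pool.Agent.H32.Dense Pool.STK Pool.KA Pool.KSAT Pool.K2S Pool.PB Pool.GEN
open Pool.S6C
open Pool.UNJ (ceI)
open Pool.ALL (RateOf)
open Pool.GEN.N83 (oth)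

variable {m : ℕ}

/-- **The rows which are not full**, from the rate. -/
theorem rawN_of {S : PCl m} {C₀ : ℝ} (htm : TmC S C₀) {κ : Fin m} {rt : ℝ → ℝ}
    (hr : RateOf S κ rt) {p q h δ δ' : ℝ} (hp : 0 ≤ p) (hpq : p + q ≤ 1)
    (hrt : ∀ x : ℝ, 0 ≤ x → x ≤ q → rt (p + q) - rt (p + x) ≤ (1 - h) * (q - x) + δ)
    (hδ0 : 0 ≤ δ) (hδ : δ < δ') : RawN S (univ.erase κ) κ p q h δ' := by
  intro x hx0 hxq
  have hl2 : 0 < Real.log 2 := Real.log_pos one_lt_two
  have hl21 : Real.log 2 ≤ 1 := by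
    have := Real.log_two_lt_d9
    linarith
  obtain ⟨ρ, hρ⟩ : ∃ ρ : ℝ, ρ = (δ' - δ) / 4 := ⟨_, rfl⟩
  have hρ0 : 0 < ρ := by rw [hρ]; linarith
  obtain ⟨J₂, hJ₂⟩ := exists_nat_ge (1 / ρ)
  have hpos : Bas S (fun _ F A => 0 < Pe F.p A) :=
    Bas.mono 0 (Pool.GRW.tmc_bas htm one_pos) fun J _ F A h1 => h1.1
  refine Bas.mono (max 1 J₂) ((Pool.JPN.rate_row hr hpos hρ0).and hpos) ?_
  rintro J hJ F A ⟨h1, hA⟩
  have hJ1 : 1 ≤ J := (le_max_left _ _).trans hJ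
  have hJ0 : (0 : ℝ) < J := by exact_mod_cast hJ1
  have hJ2 : (J₂ : ℝ) ≤ J := by exact_mod_cast (le_max_right _ _).trans hJ
  have f1 : 1 ≤ ρ * J := by
    have : 1 / ρ ≤ J := hJ₂.trans hJ2
    rw [div_le_iff₀ hρ0] at this
    linarith
  have h0 := (isLaw_cond F.isLaw hA).nonneg
  have hn : ⌊(p + x) * J⌋₊ ≤ ⌊(p + q) * J⌋₊ :=
    Nat.floor_le_floor (mul_le_mul_of_nonneg_right (by linarith) hJ0.le)
  have hnJ : ⌊(p + q) * J⌋₊ ≤ J := by
    refine Nat.floor_le_of_le ?_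
    have : (p + q) * J ≤ 1 * J := mul_le_mul_of_nonneg_right hpq hJ0.le
    linarith
  have h2 := h1 _ _ hn hnJ
  have e1 : CH (Pool.Agent.H49.Ent.cond F.p A True) (fun ω => F.X ⌊(p + q) * J⌋₊ ω κ)
      (fun ω => (F.X ⌊(p + x) * J⌋₊ ω κ,
        (ceI (univ.erase κ) (fun _ => J) (F.x ω), F.W ω))) ≤
      CH (Pool.Agent.H49.Ent.cond F.p A True) (fun ω => F.X ⌊(p + q) * J⌋₊ ω κ)
        (fun ω => (F.X ⌊(p + x) * J⌋₊ ω κ, oth κ J F (ptr F J ω))) := by
    refine CH_mono_cond h0 fun ω ω' _ _ e => ?_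
    simp only [Prod.mk.injEq] at e
    obtain ⟨g1, g2, g3⟩ := e
    refine Prod.ext g1 (Prod.ext (funext fun l => ?_) g3)
    show Function.update (F.X J ω) κ 0 l = Function.update (F.X J ω') κ 0 l
    by_cases hl : l = κ
    · rw [hl, Function.update_self, Function.update_self]
    · rw [Function.update_of_ne hl, Function.update_of_ne hl]
      have := congrFun g2 l
      unfold ceI at this
      rw [if_pos (Finset.mem_erase.2 ⟨hl, Finset.mem_univ l⟩),
        if_pos (Finset.mem_erase.2 ⟨hl, Finset.mem_univ l⟩)] at this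
      exact this
  refine e1.trans (h2.trans ?_)
  -- the numbers
  have lip : ∀ x y : ℝ, |rt x - rt y| ≤ |x - y| := fun x y => by
    have := hr.lip.dist_le_mul x y
    rwa [NNReal.coe_one, one_mul, Real.dist_eq, Real.dist_eq] at this
  have hfl : ∀ s : ℝ, 0 ≤ s → |rt ((⌊s * J⌋₊ : ℝ) / J) - rt s| ≤ 1 / J := fun s hs => by
    refine (lip _ _).trans ?_
    have a1 : (⌊s * J⌋₊ : ℝ) ≤ s * J := Nat.floor_le (by positivity)
    have a2 := Nat.lt_floor_add_one (s * J)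
    have e2 : (⌊s * J⌋₊ : ℝ) / J - s = ((⌊s * J⌋₊ : ℝ) - s * J) / J := by field_simp
    rw [e2, abs_div, abs_of_pos hJ0]
    refine div_le_div_of_nonneg_right ?_ hJ0.le
    rw [abs_le]
    constructor <;> linarith
  have b1 := hfl (p + q) (by linarith)
  have b2 := hfl (p + x) (by linarith)
  have b3 := hrt x hx0 hxq
  have b4 : rt ((⌊(p + q) * J⌋₊ : ℝ) / J) - rt ((⌊(p + x) * J⌋₊ : ℝ) / J) ≤
      (1 - h) * (q - x) + δ + 2 / J := by
    have e3 : (2 : ℝ) / J = 1 / J + 1 / J := by ring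
    rw [e3]
    rw [abs_le] at b1 b2
    linarith [b1.2, b2.1]
  have b5 : (rt ((⌊(p + q) * J⌋₊ : ℝ) / J) - rt ((⌊(p + x) * J⌋₊ : ℝ) / J)) * Real.log 2 * J ≤
      ((1 - h) * (q - x) + δ + 2 / J) * Real.log 2 * J :=
    mul_le_mul_of_nonneg_right (mul_le_mul_of_nonneg_right b4 hl2.le) hJ0.le
  have b6 : ((1 - h) * (q - x) + δ + 2 / J) * Real.log 2 * J =
      (1 - h) * (q - x) * Real.log 2 * J + δ * Real.log 2 * J + 2 * Real.log 2 := by
    field_simp
  have b7 : δ * Real.log 2 * J ≤ δ * J := by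
    refine mul_le_mul_of_nonneg_right ?_ hJ0.le
    have := mul_le_mul_of_nonneg_left hl21 hδ0
    linarith
  have b8 : δ' * J = δ * J + 4 * (ρ * J) := by
    rw [hρ]
    ring
  have b9 : ((1 - h) * (q - x) * Real.log 2 + δ') * J =
      (1 - h) * (q - x) * Real.log 2 * J + δ' * J := by ring
  rw [b9, b8]
  linarith only [b5, b6, b7, f1, hl21]

end Pool.OWN68
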