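import Pool.Agent.H68.OWN.Nc

/-!
# Chains of windows for the heights over nested charts, without the direction

`F1.cut`: one more quantity. `chainH`: the height of a coordinate over the labels of the windows
`b 0, …, b n`, relative to the heights of the chain over the labels of one window. `hgtN`: from the
window `o` down to the window `w`.
-/

set_option autoImplicit false

namespace Pool.OWN68

open Finset Real MvPolynomial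
open Pool.Agent.H49.Ent Pool.Agent.H32.Dense Pool.STK Pool.KA Pool.KSAT Pool.K2S Pool.PB Pool.GEN
open Pool.S6C Pool.RCD Pool.LA91

variable {m : ℕ} {U U₁ U' : Type} {α β γ : ∀ J : ℕ, Fam m J → Type}
  {f : ∀ (J : ℕ) (F : Fam m J), F.Ω → α J F} {g : ∀ (J : ℕ) (F : Fam m J), F.Ω → β J F}
  {y : ∀ (J : ℕ) (F : Fam m J), F.Ω → γ J F} {S : PCl m} {C₀ : ℝ}

/-- **One more quantity.** -/
theorem F1.cut (htm : TmC S C₀) {Q : Qt m U} {Q₁ : Qt m U₁} {Q' : Qt m U'} (x : Exs S Q₁)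
    {e h₁ h₂ : ℝ} (he : 0 < e) (h0 : F1 S f g y Q Q₁ e h₁) (hf : F1 S f g y (Q.prod Q₁) Q' e h₂) :
    F1 S f g y Q Q' e (h₁ + h₂) := by
  intro K
  obtain ⟨K₀, M₀, hx⟩ := x e he
  refine Bas.mono 0 (((h0 (max K K₀)).and (hf (max K K₀))).and
    (hx.and (Pool.GRW.tmc_bas htm one_pos))) ?_
  rintro J - F A ⟨⟨H1, H2⟩, ⟨u, hu, -⟩, hA, -⟩ u₀ u' hu₀ hu'
  have hcl := isLaw_cond F.isLaw hA
  obtain ⟨V, z, hz, h1⟩ := H1 u₀ u (Q.mono (le_max_left _ _) le_rfl hu₀)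
    (Q₁.mono (le_max_right _ _) le_rfl hu)
  obtain ⟨V', z', hz', h2⟩ := H2 (fun ω => (u₀ ω, u ω)) u'
    ⟨Q.mono (le_max_left _ _) le_rfl hu₀, Q₁.mono (le_max_right _ _) le_rfl hu⟩
    (Q'.mono (le_max_left _ _) le_rfl hu')
  refine ⟨V × V', fun ω => (z ω, z' ω), hz.join hz', ?_⟩
  have h3 := CH_le_add hcl.nonneg u' u (fun ω => (u₀ ω, ((z ω, z' ω), y J F ω)))
  have h4 : CH (Pool.Agent.H49.Ent.cond F.p A True) u
      (fun ω => (u₀ ω, ((z ω, z' ω), y J F ω))) ≤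
      CH (Pool.Agent.H49.Ent.cond F.p A True) u (fun ω => (u₀ ω, (z ω, y J F ω))) := by
    refine CH_mono_cond hcl.nonneg fun ω ω' _ _ hh => ?_
    simp only [Prod.mk.injEq] at hh ⊢
    exact ⟨hh.1, hh.2.1.1, hh.2.2⟩
  have h5 : CH (Pool.Agent.H49.Ent.cond F.p A True) u'
      (fun ω => (u ω, (u₀ ω, ((z ω, z' ω), y J F ω)))) ≤
      CH (Pool.Agent.H49.Ent.cond F.p A True) u' (fun ω => ((u₀ ω, u ω), (z' ω, y J F ω))) := by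
    refine CH_mono_cond hcl.nonneg fun ω ω' _ _ hh => ?_
    simp only [Prod.mk.injEq] at hh ⊢
    exact ⟨⟨hh.2.1, hh.1⟩, hh.2.2.1.2, hh.2.2.2⟩
  have h6 : (h₁ + h₂) * J = h₁ * J + h₂ * J := by ring
  linarith

/-- **Change of charts over a nested chain**, heights, no error. -/
theorem hgt_F1 (htm : TmC S C₀) {c : ℕ → Fin m} {r₀ r : ℕ}
    {w u₀ u₁ : ℝ} {s rd : ℕ → ℝ} (hch : Chn S c r₀ r w u₀ u₁ s rd) {k : Fin m}
    {wv pv Nv : ℕ → ℕ → ℝ} {lv : ℕ → ℝ} {w₁ w₂ p₁ p₂ N₁ N₂ p₀ σ₀ : ℝ}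
    (hwv : ∀ i, r₀ ≤ i → i < r → ∀ j' ≤ 0, wv i j' ≤ w) (hw₁ : w₁ ≤ w) (hw₂ : w₂ ≤ w)
    (hu0 : u₀ < p₀) (hp0 : p₀ ≤ 1) (hσ₀ : 0 < σ₀)
    (hlv : ∀ i, r₀ ≤ i → i < r → 0 < lv i)
    (h1 : ∀ i, r₀ ≤ i → i < r → s i + lv i + σ₀ ≤ Nv i 0)
    (h2 : ∀ i, r₀ ≤ i → i < r → s i + lv i + σ₀ ≤ min (pv i 0) (s i) + (p₀ - u₀))
    (h2' : ∀ i, r₀ ≤ i → i < r → ∀ l, r₀ ≤ l → l < i →
      s i + lv i + σ₀ ≤ min (pv i 0) (s i) + lv l)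
    (hN : N₂ ≤ N₁)
    (h3 : N₂ + σ₀ ≤ min p₁ p₂ + (p₀ - u₀))
    (h3' : ∀ l, r₀ ≤ l → l < r → N₂ + σ₀ ≤ min p₁ p₂ + lv l)
    (hf : ∀ (J : ℕ) (F : Fam m J), ∃ φ : α J F → PtT F, ∀ ω, ptr F J ω = φ (f J F ω))
    (hy : Kn0 ((range r₀).image c) p₀ y) {h : ℝ} (hh : 0 < h) :
    F1 S f (vg w) y ((qJets m c r₀ r 0 wv pv Nv).prod
      (qJet m ((range r).image c) k 0 w₁ p₁ N₁)) (qJet m ((range r).image c) k 0 w₂ p₂ N₂)
      (σ₀ / 8) h := by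
  intro K
  have e0 : ((0 : ℕ) : ℝ) = 0 := Nat.cast_zero
  refine Bas.mono 0 (few_hN_e htm hch (k := k) (j := 0) rfl
    (w₁ := w₁) (w₂ := w₂) (p₁ := p₁) (p₂ := p₂) (N₁ := N₁) (N₂ := N₂) (κ := -σ₀) hwv hw₁ hw₂ hu0
    hp0 hσ₀ (by linarith) hlv (fun i a b j' hj' => by
      obtain rfl : j' = 0 := by omega
      rw [e0, zero_mul, add_zero]
      exact h1 i a b) (fun i a b j' hj' => by
      obtain rfl : j' = 0 := by omega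
      exact h2 i a b) (fun i a b j' hj' l a' b' => by
      obtain rfl : j' = 0 := by omega
      exact h2' i a b l a' b') hN (by rw [e0, zero_mul]; linarith)
    (fun l a b => by
      rw [e0, zero_mul]
      linarith [h3' l a b]) hf hy hh K) ?_
  rintro J - F A H u u' ⟨hu1, hu2⟩ hu'
  obtain ⟨V, z, hz, hH⟩ := H (fun ω => (u ω).1) (fun ω => (u ω).2) u' hu1 hu2 hu'
  refine ⟨V, z, hz, hH.trans (le_of_eq ?_)⟩
  ring

/-- **A chain of windows for the heights**, over a nested chain of charts. -/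
theorem chainH (htm : TmC S C₀) {c : ℕ → Fin m} {r₀ r : ℕ} {κ : Fin m}
    {o p₀ N ρ wv : ℝ} {Pv : ℕ → ℝ → ℝ} {Nv : ℕ → ℕ → ℝ} {lv : ℝ → ℕ → ℝ}
    (ho : o < 1) (hop : o < p₀) (hp0 : p₀ ≤ 1) (hρ : 0 < ρ)
    (hf : ∀ (J : ℕ) (F : Fam m J), ∃ φ : α J F → PtT F, ∀ ω, ptr F J ω = φ (f J F ω))
    (hy : Kn0 ((range r₀).image c) p₀ y)
    (b P : ℕ → ℝ) : ∀ n : ℕ,
    (∀ i ≤ n, 0 ≤ b i) → (∀ i ≤ n, b i ≤ o) → (∀ i ≤ n, wv ≤ b i) →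
    (∀ i ≤ n, ∃ rk : ℝ, 0 ≤ rk ∧ Att S ((range r).image c) κ (b i) (P i) rk) →
    (∀ i ≤ n, ∃ (u₁ : ℝ) (rd : ℕ → ℝ), Chn S c r₀ r (b i) (b i) u₁ (fun l => Pv l (b i)) rd) →
    (∀ i ≤ n, ∀ l, r₀ ≤ l → l < r → 0 < lv (b i) l) →
    (∀ i ≤ n, ∀ l, r₀ ≤ l → l < r → Pv l (b i) + lv (b i) l + ρ ≤ Nv l 0) →
    (∀ i ≤ n, ∀ l, r₀ ≤ l → l < r → Pv l (b i) + lv (b i) l + ρ ≤
      min (Pv l wv) (Pv l (b i)) + (p₀ - b i)) →
    (∀ i ≤ n, ∀ l, r₀ ≤ l → l < r → ∀ l', r₀ ≤ l' → l' < l → Pv l (b i) + lv (b i) l + ρ ≤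
      min (Pv l wv) (Pv l (b i)) + lv (b i) l') →
    N + ρ ≤ P 0 →
    (∀ i < n, N + ρ ≤ min (P i) (P (i + 1)) + (p₀ - max (b i) (b (i + 1)))) →
    (∀ i < n, ∀ l, r₀ ≤ l → l < r → N + ρ ≤
      min (P i) (P (i + 1)) + lv (max (b i) (b (i + 1))) l) →
    ∀ h : ℝ, 0 < h → F1 S f (vg o) y
      (qJets m c r₀ r 0 (fun _ _ => wv) (fun i _ => Pv i wv) Nv)
      (qJet m ((range r).image c) κ 0 (b n) (P n) N) (ρ / 8) h := by
  intro n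
  induction n with
  | zero =>
    intro h0 h1 h2 h3 h4 h5 h6 h7 h8 h9 h10 h11 h hh
    refine F1.of0 htm ((few0_room htm (h0 0 le_rfl) (lt_of_le_of_lt (h1 0 le_rfl) ho) hρ (by
      rw [Nat.cast_zero, zero_mul, add_zero]
      exact h9) f (vg o) y hh).mono (by linarith) le_rfl)
  | succ n ih =>
    intro h0 h1 h2 h3 h4 h5 h6 h7 h8 h9 h10 h11 h hh
    have e1 := ih (fun i hi => h0 i (by omega)) (fun i hi => h1 i (by omega))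
      (fun i hi => h2 i (by omega)) (fun i hi => h3 i (by omega))
      (fun i hi => h4 i (by omega)) (fun i hi => h5 i (by omega)) (fun i hi => h6 i (by omega))
      (fun i hi => h7 i (by omega)) (fun i hi => h8 i (by omega)) h9
      (fun i hi => h10 i (by omega)) (fun i hi => h11 i (by omega)) (h / 2) (by linarith)
    obtain ⟨β, hβ⟩ : ∃ β : ℝ, β = max (b n) (b (n + 1)) := ⟨_, rfl⟩
    have hm1 : β ≤ o := by
      rw [hβ]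
      exact max_le (h1 n (by omega)) (h1 (n + 1) le_rfl)
    have hbn : b n ≤ β := by rw [hβ]; exact le_max_left _ _
    have hbn1 : b (n + 1) ≤ β := by rw [hβ]; exact le_max_right _ _
    have hβc : ∃ i ≤ n + 1, b i = β := by
      rcases max_cases (b n) (b (n + 1)) with ⟨e, -⟩ | ⟨e, -⟩
      · exact ⟨n, by omega, by rw [hβ, e]⟩
      · exact ⟨n + 1, le_rfl, by rw [hβ, e]⟩
    obtain ⟨i₀, hi₀, hbi⟩ := hβc
    have g10 := h10 n (Nat.lt_succ_self n)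
    have g11 := h11 n (Nat.lt_succ_self n)
    rw [← hβ] at g10 g11
    obtain ⟨u₁, rd, hch⟩ := h4 i₀ hi₀
    have a2 := h2 i₀ hi₀
    have a5 := h5 i₀ hi₀
    have a6 := h6 i₀ hi₀
    have a7 := h7 i₀ hi₀
    have a8 := h8 i₀ hi₀
    rw [hbi] at hch a2 a5 a6 a7 a8
    have e2 := hgt_F1 (y := y) htm hch (k := κ) (wv := fun _ _ => wv)
      (pv := fun i _ => Pv i wv) (Nv := Nv) (lv := lv β) (w₁ := b n) (w₂ := b (n + 1))
      (p₁ := P n) (p₂ := P (n + 1)) (N₁ := N) (N₂ := N) (p₀ := p₀) (σ₀ := ρ)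
      (fun _ _ _ _ _ => a2) hbn hbn1 (lt_of_le_of_lt hm1 hop) hp0 hρ a5
      a6 a7 a8 le_rfl g10 g11 hf hy (h := h / 2) (by linarith)
    obtain ⟨rk, hrk, hatt⟩ := h3 n (by omega)
    have e4 := F1.cut htm (exs_jet hrk hatt) (by linarith) e1 (e2.up hm1 ho.le)
    have e5 : h / 2 + h / 2 = h := by ring
    rwa [e5] at e4

/-- **The height of a coordinate over a nested chain**, from the window `o` down to `w`. -/
theorem hgtN (htm : TmC S C₀) {c : ℕ → Fin m} {r₀ r : ℕ} {κ : Fin m} {G : ℝ → Prop}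
    {Pv : ℕ → ℝ → ℝ} {P : ℝ → ℝ} {w o p₀ N ρ ν : ℝ} {Nv : ℕ → ℕ → ℝ}
    {lv : ℝ → ℕ → ℝ} (hw0 : 0 ≤ w) (hwo : w ≤ o) (ho : o < 1) (hop : o < p₀) (hp0 : p₀ ≤ 1)
    (hρ : 0 < ρ) (hν : 0 < ν) (hGw : G w) (hGo : G o) (hG : Dns G w o)
    (hf : ∀ (J : ℕ) (F : Fam m J), ∃ φ : α J F → PtT F, ∀ ω, ptr F J ω = φ (f J F ω))
    (hy : Kn0 ((range r₀).image c) p₀ y)
    (hatt : ∀ β : ℝ, w ≤ β → β ≤ o → G β →
      ∃ rk : ℝ, 0 ≤ rk ∧ Att S ((range r).image c) κ β (P β) rk)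
    (hchn : ∀ β : ℝ, w ≤ β → β ≤ o → G β →
      ∃ (u₁ : ℝ) (rd : ℕ → ℝ), Chn S c r₀ r β β u₁ (fun l => Pv l β) rd)
    (hl0 : ∀ β : ℝ, w ≤ β → β ≤ o → ∀ l, r₀ ≤ l → l < r → 0 < lv β l)
    (hl1 : ∀ β : ℝ, w ≤ β → β ≤ o → ∀ l, r₀ ≤ l → l < r → Pv l β + lv β l + ρ ≤ Nv l 0)
    (hl2 : ∀ β : ℝ, w ≤ β → β ≤ o → ∀ l, r₀ ≤ l → l < r →
      Pv l β + lv β l + ρ ≤ min (Pv l w) (Pv l β) + (p₀ - β))
    (hl3 : ∀ β : ℝ, w ≤ β → β ≤ o → ∀ l, r₀ ≤ l → l < r → ∀ l', r₀ ≤ l' → l' < l →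
      Pv l β + lv β l + ρ ≤ min (Pv l w) (Pv l β) + lv β l')
    (hN : N + ρ ≤ P o)
    (hl4 : ∀ β β' : ℝ, w ≤ β' → β' ≤ β → β ≤ β' + ν → β ≤ o →
      N + ρ ≤ min (P β) (P β') + (p₀ - β))
    (hl5 : ∀ β β' : ℝ, w ≤ β' → β' ≤ β → β ≤ β' + ν → β ≤ o → ∀ l, r₀ ≤ l → l < r →
      N + ρ ≤ min (P β) (P β') + lv β l) {h : ℝ} (hh : 0 < h) :
    F1 S f (vg o) y (qJets m c r₀ r 0 (fun _ _ => w) (fun i _ => Pv i w) Nv)
      (qJet m ((range r).image c) κ 0 w (P w) N) (ρ / 8) h := by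
  obtain ⟨n, b', hb0, hbn, hbs, hbG⟩ := mesh hwo hGw hGo hG hν
  obtain ⟨b, hb⟩ : ∃ b : ℕ → ℝ, b = fun i => b' (n - i) := ⟨_, rfl⟩
  have hbb : ∀ i, b i = b' (n - i) := fun i => by rw [hb]
  have hB0 : b 0 = o := by rw [hbb, Nat.sub_zero, hbn]
  have hBn : b n = w := by rw [hbb, Nat.sub_self, hb0]
  have hBG : ∀ i ≤ n, G (b i) ∧ w ≤ b i ∧ b i ≤ o := fun i hi => by
    rw [hbb]
    exact hbG _ (Nat.sub_le _ _)
  have hBs : ∀ i < n, b (i + 1) ≤ b i ∧ b i ≤ b (i + 1) + ν := fun i hi => by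
    rw [hbb, hbb]
    have h1 := hbs (n - (i + 1)) (by omega)
    have e1 : n - (i + 1) + 1 = n - i := by omega
    rw [e1] at h1
    exact h1
  have key := chainH (y := y) htm (c := c) (r₀ := r₀) (r := r) (κ := κ) (o := o) (p₀ := p₀)
    (N := N) (ρ := ρ) (wv := w) (Pv := Pv) (Nv := Nv) (lv := lv) ho hop hp0 hρ hf hy b
    (fun i => P (b i)) n (fun i hi => by linarith [(hBG i hi).2.1])
    (fun i hi => (hBG i hi).2.2) (fun i hi => (hBG i hi).2.1)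
    (fun i hi => hatt _ (hBG i hi).2.1 (hBG i hi).2.2 (hBG i hi).1)
    (fun i hi => hchn _ (hBG i hi).2.1 (hBG i hi).2.2 (hBG i hi).1)
    (fun i hi => hl0 _ (hBG i hi).2.1 (hBG i hi).2.2)
    (fun i hi => hl1 _ (hBG i hi).2.1 (hBG i hi).2.2)
    (fun i hi => hl2 _ (hBG i hi).2.1 (hBG i hi).2.2)
    (fun i hi => hl3 _ (hBG i hi).2.1 (hBG i hi).2.2) ?_ ?_ ?_ h hh
  · simp only [hBn] at key
    exact key
  · simp only [hB0]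
    exact hN
  · intro i hi
    have h2 := hBG i hi.le
    have h3 := hBG (i + 1) hi
    have h7 := hBs i hi
    rw [max_eq_left h7.1]
    exact hl4 (b i) (b (i + 1)) h3.2.1 h7.1 h7.2 h2.2.2
  · intro i hi l x1 x2
    have h2 := hBG i hi.le
    have h3 := hBG (i + 1) hi
    have h7 := hBs i hi
    rw [max_eq_left h7.1]
    exact hl5 (b i) (b (i + 1)) h3.2.1 h7.1 h7.2 h2.2.2 l x1 x2

end Pool.OWN68
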