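import Pool.Agent.H68.OWN.Jr
import Pool.Agent.H91.LA.TwoN

/-!
# Few bits relative to a quantity, with an explicit accuracy

`F1.trans`, `F1.pair`, `F1.prod_left`, `F1.qjets`: the calculus of `F1`. `jetN_F1`: change of the
charts over a nested chain. `mesh`: a fine mesh of good windows.
-/

set_option autoImplicit false

namespace Pool.OWN68

open Finset Real MvPolynomial
open Pool.Agent.H49.Ent Pool.Agent.H32.Dense Pool.STK Pool.KA Pool.KSAT Pool.K2S Pool.PB Pool.GEN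
open Pool.S6C Pool.RCD Pool.LA91

variable {m : ℕ} {U U₁ U₂ U' : Type} {α β γ : ∀ J : ℕ, Fam m J → Type}
  {f : ∀ (J : ℕ) (F : Fam m J), F.Ω → α J F} {g : ∀ (J : ℕ) (F : Fam m J), F.Ω → β J F}
  {y : ∀ (J : ℕ) (F : Fam m J), F.Ω → γ J F} {S : PCl m} {C₀ : ℝ}

/-- Nothing is known. -/
theorem F1.of0 (htm : TmC S C₀) {Q : Qt m U} {Q' : Qt m U'} {e η : ℝ} (h : F0 S f g y Q' e η) :
    F1 S f g y Q Q' e η := by
  intro K
  refine Bas.mono 0 ((h K).and (Pool.GRW.tmc_bas htm one_pos)) ?_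
  rintro J - F A ⟨h1, hA, -⟩ u u' - hu'
  obtain ⟨V, z, hz, h2⟩ := h1 u' hu'
  refine ⟨V, z, hz, le_trans (CH_mono_cond (isLaw_cond F.isLaw hA).nonneg ?_) h2⟩
  intro ω ω' _ _ hh
  exact (Prod.ext_iff.mp hh).2

/-- One after the other. -/
theorem F1.trans (htm : TmC S C₀) {Q : Qt m U} {Q₁ : Qt m U₁} {Q' : Qt m U'} (x : Exs S Q₁)
    {e h₁ h₂ : ℝ} (he : 0 < e) (h0 : F1 S f g y Q Q₁ e h₁) (hf : F1 S f g y Q₁ Q' e h₂) :
    F1 S f g y Q Q' e (h₁ + h₂) := by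
  intro K
  obtain ⟨K₀, M₀, hx⟩ := x e he
  refine Bas.mono 0 (((h0 (max K K₀)).and (hf (max K K₀))).and
    (hx.and (Pool.GRW.tmc_bas htm one_pos))) ?_
  rintro J - F A ⟨⟨H1, H2⟩, ⟨u, hu, -⟩, hA, -⟩ u₀ u' hu₀ hu'
  have hcl := isLaw_cond F.isLaw hA
  obtain ⟨V, z, hz, h1⟩ := H1 u₀ u (Q.mono (le_max_left _ _) le_rfl hu₀)
    (Q₁.mono (le_max_right _ _) le_rfl hu)
  obtain ⟨V', z', hz', h2⟩ := H2 u u' (Q₁.mono (le_max_right _ _) le_rfl hu)
    (Q'.mono (le_max_left _ _) le_rfl hu')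
  refine ⟨V × V', fun ω => (z ω, z' ω), hz.join hz', ?_⟩
  have h3 := CH_le_add hcl.nonneg u' u (fun ω => (u₀ ω, ((z ω, z' ω), y J F ω)))
  have h4 : CH (Pool.Agent.H49.Ent.cond F.p A True) u
      (fun ω => (u₀ ω, ((z ω, z' ω), y J F ω))) ≤
      CH (Pool.Agent.H49.Ent.cond F.p A True) u (fun ω => (u₀ ω, (z ω, y J F ω))) := by
    refine CH_mono_cond hcl.nonneg fun ω ω' _ _ hh => ?_
    simp only [Prod.mk.injEq] at hh ⊢
    exact ⟨hh.1, hh.2.1.1, hh.2.2⟩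
  have h5 : CH (Pool.Agent.H49.Ent.cond F.p A True) u'
      (fun ω => (u ω, (u₀ ω, ((z ω, z' ω), y J F ω)))) ≤
      CH (Pool.Agent.H49.Ent.cond F.p A True) u' (fun ω => (u ω, (z' ω, y J F ω))) := by
    refine CH_mono_cond hcl.nonneg fun ω ω' _ _ hh => ?_
    simp only [Prod.mk.injEq] at hh ⊢
    exact ⟨hh.1, hh.2.2.1.2, hh.2.2.2⟩
  have h6 : (h₁ + h₂) * J = h₁ * J + h₂ * J := by ring
  linarith

/-- Two quantities. -/
theorem F1.pair (htm : TmC S C₀) {Q : Qt m U} {Q₁ : Qt m U₁} {Q₂ : Qt m U₂}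
    {e h₁ h₂ : ℝ} (H1 : F1 S f g y Q Q₁ e h₁) (H2 : F1 S f g y Q Q₂ e h₂) :
    F1 S f g y Q (Q₁.prod Q₂) e (h₁ + h₂) := by
  intro K
  refine Bas.mono 0 (((H1 K).and (H2 K)).and (Pool.GRW.tmc_bas htm one_pos)) ?_
  rintro J - F A ⟨⟨H1, H2⟩, hA, -⟩ u u' hu hu'
  have hcl := isLaw_cond F.isLaw hA
  obtain ⟨V, z, hz, a1⟩ := H1 u (fun ω => (u' ω).1) hu hu'.1
  obtain ⟨V', z', hz', a2⟩ := H2 u (fun ω => (u' ω).2) hu hu'.2
  refine ⟨_, fun ω => (z ω, z' ω), hz.join hz', ?_⟩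
  have s0 := CH_subadd hcl.nonneg (fun ω => (u' ω).1) (fun ω => (u' ω).2)
    (fun ω => (u ω, ((z ω, z' ω), y J F ω)))
  have s2 : CH (Pool.Agent.H49.Ent.cond F.p A True) (fun ω => (u' ω).1)
      (fun ω => (u ω, ((z ω, z' ω), y J F ω))) ≤
      CH (Pool.Agent.H49.Ent.cond F.p A True) (fun ω => (u' ω).1)
        (fun ω => (u ω, (z ω, y J F ω))) := by
    refine CH_mono_cond hcl.nonneg fun ω ω' _ _ hh => ?_
    simp only [Prod.mk.injEq] at hh ⊢
    exact ⟨hh.1, hh.2.1.1, hh.2.2⟩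
  have s3 : CH (Pool.Agent.H49.Ent.cond F.p A True) (fun ω => (u' ω).2)
      (fun ω => (u ω, ((z ω, z' ω), y J F ω))) ≤
      CH (Pool.Agent.H49.Ent.cond F.p A True) (fun ω => (u' ω).2)
        (fun ω => (u ω, (z' ω, y J F ω))) := by
    refine CH_mono_cond hcl.nonneg fun ω ω' _ _ hh => ?_
    simp only [Prod.mk.injEq] at hh ⊢
    exact ⟨hh.1, hh.2.1.2, hh.2.2⟩
  have h6 : (h₁ + h₂) * J = h₁ * J + h₂ * J := by ring
  have e0 : (fun ω => ((u' ω).1, (u' ω).2)) = u' := rfl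
  rw [e0] at s0
  linarith

/-- Finitely many quantities. -/
theorem F1_fin (htm : TmC S C₀) {Q : Qt m U} {Q' : ℕ → Qt m ℤ} {e η : ℝ} {n : ℕ}
    (h : ∀ i < n, F1 S f g y Q (Q' i) e η) : ∀ K : ℕ, Bas S (fun J F A => ∀ (u : F.Ω → U)
      (X : ℕ → F.Ω → ℤ), Q.P K e J F A u → (∀ i < n, (Q' i).P K e J F A (X i)) →
      ∃ (V : Type) (z : F.Ω → V), Cl2 (f J F) (g J F) A z ∧
        CH (Pool.Agent.H49.Ent.cond F.p A True) (fun ω (i : Fin n) => X i ω)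
          (fun ω => (u ω, (z ω, y J F ω))) ≤ n * η * J) := by
  intro K
  induction n with
  | zero =>
    refine Bas.mono 0 (Pool.GRW.tmc_bas htm one_pos) ?_
    rintro J - F A ⟨hA, -⟩ u X - -
    have hcl := isLaw_cond F.isLaw hA
    refine ⟨Unit, fun _ => (), ⟨⟨fun _ => (), fun _ _ => rfl⟩, fun _ => (), fun _ _ => rfl⟩, ?_⟩
    refine le_of_eq ?_
    rw [Nat.cast_zero, zero_mul, zero_mul]
    exact CH_eq_zero hcl.nonneg fun ω ω' _ _ _ => funext fun i => absurd i.2 (Nat.not_lt_zero _)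
  | succ n ih =>
    have H₁ := ih fun i hi => h i (by omega)
    have H₂ := h n (Nat.lt_succ_self n) K
    refine Bas.mono 0 ((H₁.and H₂).and (Pool.GRW.tmc_bas htm one_pos)) ?_
    rintro J - F A ⟨⟨H₁, H₂⟩, hA, -⟩ u X hu hX
    have hcl := isLaw_cond F.isLaw hA
    obtain ⟨V₁, z₁, hz₁, h1⟩ := H₁ u X hu fun i hi => hX i (by omega)
    obtain ⟨V₂, z₂, hz₂, h2⟩ := H₂ u (X n) hu (hX n (Nat.lt_succ_self n))
    refine ⟨V₁ × V₂, fun ω => (z₁ ω, z₂ ω), hz₁.join hz₂, ?_⟩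
    have h3 : CH (Pool.Agent.H49.Ent.cond F.p A True) (fun ω (i : Fin (n + 1)) => X i ω)
        (fun ω => (u ω, ((z₁ ω, z₂ ω), y J F ω))) ≤ CH (Pool.Agent.H49.Ent.cond F.p A True)
        (fun ω => ((fun i : Fin n => X i ω), X n ω))
          (fun ω => (u ω, ((z₁ ω, z₂ ω), y J F ω))) := by
      refine CH_mono_left hcl.nonneg fun ω ω' _ _ hh => ?_
      have h4 := (Prod.ext_iff.mp hh).1
      refine funext fun i => ?_
      rcases Nat.lt_or_ge i n with h5 | h5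
      · exact congrFun (Prod.ext_iff.mp h4).1 ⟨i, h5⟩
      · have h6 : (i : ℕ) = n := by have := i.2; omega
        show X i ω = X i ω'
        rw [h6]
        exact (Prod.ext_iff.mp h4).2
    have h4 := CH_subadd hcl.nonneg (fun ω (i : Fin n) => X i ω) (X n)
      (fun ω => (u ω, ((z₁ ω, z₂ ω), y J F ω)))
    have h5 : CH (Pool.Agent.H49.Ent.cond F.p A True) (fun ω (i : Fin n) => X i ω)
        (fun ω => (u ω, ((z₁ ω, z₂ ω), y J F ω))) ≤ CH (Pool.Agent.H49.Ent.cond F.p A True)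
        (fun ω (i : Fin n) => X i ω) (fun ω => (u ω, (z₁ ω, y J F ω))) := by
      refine CH_mono_cond hcl.nonneg fun ω ω' _ _ hh => ?_
      simp only [Prod.mk.injEq] at hh ⊢
      exact ⟨hh.1, hh.2.1.1, hh.2.2⟩
    have h6 : CH (Pool.Agent.H49.Ent.cond F.p A True) (X n)
        (fun ω => (u ω, ((z₁ ω, z₂ ω), y J F ω))) ≤
        CH (Pool.Agent.H49.Ent.cond F.p A True) (X n) (fun ω => (u ω, (z₂ ω, y J F ω))) := by
      refine CH_mono_cond hcl.nonneg fun ω ω' _ _ hh => ?_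
      simp only [Prod.mk.injEq] at hh ⊢
      exact ⟨hh.1, hh.2.1.2, hh.2.2⟩
    have h7 : ((n + 1 : ℕ) : ℝ) * η * J = n * η * J + η * J := by
      push_cast
      ring
    linarith

/-- The jets of a chain. -/
theorem F1.qjets (htm : TmC S C₀) {Q : Qt m U} {c : ℕ → Fin m} {r₀ r j : ℕ}
    {w p N : ℕ → ℕ → ℝ} {e η : ℝ} (hη : 0 ≤ η)
    (h : ∀ i, r₀ ≤ i → i < r → ∀ j' ≤ j, F1 S f g y Q
      (qJet m ((range i).image c) (c i) j' (w i j') (p i j') (N i j')) e η) :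
    F1 S f g y Q (qJets m c r₀ r j w p N) e ((r * (j + 1) : ℕ) * η) := by
  classical
  obtain ⟨Qn, hQn⟩ : ∃ Qn : ℕ → Qt m ℤ, Qn = fun n => if r₀ ≤ n / (j + 1) then
    qJet m ((range (n / (j + 1))).image c) (c (n / (j + 1))) (n % (j + 1))
      (w (n / (j + 1)) (n % (j + 1))) (p (n / (j + 1)) (n % (j + 1)))
      (N (n / (j + 1)) (n % (j + 1))) else Qt.fn (fun _ _ _ => 0) := ⟨_, rfl⟩
  have hfew : ∀ n < r * (j + 1), F1 S f g y Q (Qn n) e η := by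
    intro n hn
    rw [hQn]
    have h1 : n / (j + 1) < r := Nat.div_lt_of_lt_mul (by rw [mul_comm]; exact hn)
    have h2 : n % (j + 1) ≤ j := Nat.lt_succ_iff.1 (Nat.mod_lt n (Nat.succ_pos j))
    by_cases h3 : r₀ ≤ n / (j + 1)
    · simp only [if_pos h3]
      exact h _ h3 h1 _ h2
    · simp only [if_neg h3]
      intro K
      refine Bas.mono 0 (Pool.GRW.tmc_bas htm one_pos) ?_
      rintro J - F A ⟨hA, -⟩ u u' - hu'
      have hcl := isLaw_cond F.isLaw hA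
      refine ⟨Unit, fun _ => (), ⟨⟨fun _ => (), fun _ _ => rfl⟩, fun _ => (), fun _ _ => rfl⟩, ?_⟩
      rw [CH_eq_zero hcl.nonneg fun ω ω' hω hω' _ => by
        rw [hu' ω (of_cond_pos hω), hu' ω' (of_cond_pos hω')]]
      exact mul_nonneg hη (Nat.cast_nonneg J)
  intro K
  refine Bas.mono 0 ((F1_fin htm hfew K).and (Pool.GRW.tmc_bas htm one_pos)) ?_
  rintro J - F A ⟨H, hA, -⟩ u u' hu ⟨hu', hz⟩
  have hcl := isLaw_cond F.isLaw hA
  obtain ⟨V, z, hzc, h1⟩ := H u (fun n ω => u' ω (n / (j + 1)) (n % (j + 1))) hu (by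
    intro n hn
    have h1 : n / (j + 1) < r := Nat.div_lt_of_lt_mul (by rw [mul_comm]; exact hn)
    have h2 : n % (j + 1) ≤ j := Nat.lt_succ_iff.1 (Nat.mod_lt n (Nat.succ_pos j))
    rw [hQn]
    by_cases h3 : r₀ ≤ n / (j + 1)
    · simp only [if_pos h3]
      exact hu' _ h3 h1 _ h2
    · simp only [if_neg h3]
      intro ω hω
      exact hz ω hω _ _ (fun hn => h3 hn.1))
  refine ⟨V, z, hzc, le_trans (CH_mono_left hcl.nonneg fun ω ω' hω hω' hh => ?_) h1⟩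
  have h2 := (Prod.ext_iff.mp hh).1
  funext i j'
  by_cases hin : r₀ ≤ i ∧ i < r ∧ j' ≤ j
  · have h3 : i * (j + 1) + j' < r * (j + 1) := by
      have := Nat.mul_le_mul_right (j + 1) (Nat.succ_le_of_lt hin.2.1)
      rw [Nat.succ_mul] at this
      have := hin.2.2
      omega
    have h4 := congrFun h2 ⟨i * (j + 1) + j', h3⟩
    have h5 : (i * (j + 1) + j') / (j + 1) = i := by
      rw [Nat.add_comm, Nat.add_mul_div_right _ _ (Nat.succ_pos j),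
        Nat.div_eq_of_lt (by have := hin.2.2; omega), zero_add]
    have h6 : (i * (j + 1) + j') % (j + 1) = j' := by
      rw [Nat.add_comm, Nat.add_mul_mod_self_right, Nat.mod_eq_of_lt (by
        have := hin.2.2; omega)]
    simp only [h5, h6] at h4
    exact h4
  · rw [hz ω (of_cond_pos hω) i j' hin, hz ω' (of_cond_pos hω') i j' hin]

/-- **Change of charts over a nested chain**, no error. -/
theorem jetN_F1 (htm : TmC S C₀) {c : ℕ → Fin m} {r₀ r : ℕ}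
    {w u₀ u₁ : ℝ} {s rd : ℕ → ℝ} (hch : Chn S c r₀ r w u₀ u₁ s rd) {k : Fin m} {j : ℕ}
    {wv pv Nv : ℕ → ℕ → ℝ} {lv : ℕ → ℝ} {w₁ w₂ p₁ p₂ N₁ N₂ p₀ lam σ₀ : ℝ}
    (hwv : ∀ i, r₀ ≤ i → i < r → ∀ j' ≤ j, wv i j' ≤ w) (hw₁ : w₁ ≤ w) (hw₂ : w₂ ≤ w)
    (hu0 : u₀ < p₀) (hp0 : p₀ ≤ 1) (hlam : 0 < lam) (hσ₀ : 0 < σ₀)
    (hlv : ∀ i, r₀ ≤ i → i < r → 0 < lv i)
    (h1 : ∀ i, r₀ ≤ i → i < r → ∀ j' ≤ j, s i + lv i + σ₀ ≤ Nv i j' + j' * u₀)
    (h2 : ∀ i, r₀ ≤ i → i < r → ∀ j' ≤ j,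
      s i + lv i + σ₀ ≤ min (pv i j') (s i) + min lam (p₀ - u₀))
    (h2' : ∀ i, r₀ ≤ i → i < r → ∀ j' ≤ j, ∀ l, r₀ ≤ l → l < i →
      s i + lv i + σ₀ ≤ min (pv i j') (s i) + lv l)
    (hN : N₂ ≤ N₁)
    (h3 : N₂ + j * u₀ + σ₀ ≤ min p₁ p₂ + min lam (p₀ - u₀))
    (h3' : ∀ l, r₀ ≤ l → l < r → N₂ + j * u₀ + σ₀ ≤ min p₁ p₂ + lv l)
    (hf : ∀ (J : ℕ) (F : Fam m J), ∃ φ : α J F → PtT F, ∀ ω, ptr F J ω = φ (f J F ω))
    (hy : Kn ((range r₀).image c) p₀ lam y) {h : ℝ} (hh : 0 < h) :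
    F1 S f (vg w) y ((qJets m c r₀ r j wv pv Nv).prod
      (qJet m ((range r).image c) k j w₁ p₁ N₁)) (qJet m ((range r).image c) k j w₂ p₂ N₂)
      (σ₀ / 8) h := by
  intro K
  refine Bas.mono 0 (few_jetN_e htm hch (k := k) (j := j)
    (w₁ := w₁) (w₂ := w₂) (p₁ := p₁) (p₂ := p₂) (N₁ := N₁) (N₂ := N₂) (κ := -σ₀) hwv hw₁ hw₂ hu0
    hp0 hlam hσ₀ (by linarith) hlv h1 h2 h2' hN (by linarith)
    (fun l a b => by linarith [h3' l a b]) hf hy hh K) ?_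
  rintro J - F A H u u' ⟨hu1, hu2⟩ hu'
  obtain ⟨V, z, hz, hH⟩ := H (fun ω => (u ω).1) (fun ω => (u ω).2) u' hu1 hu2 hu'
  refine ⟨V, z, hz, hH.trans (le_of_eq ?_)⟩
  ring

/-! ### Meshes -/

/-- Good windows are dense between `x` and `y`. -/
def Dns (G : ℝ → Prop) (x y : ℝ) : Prop := ∀ s t : ℝ, x ≤ s → s < t → t ≤ y →
  ∃ b : ℝ, s < b ∧ b < t ∧ G b

/-- **A fine mesh of good windows.** -/
theorem mesh {G : ℝ → Prop} {x y : ℝ} (hxy : x ≤ y) (hx : G x) (hy : G y) (hd : Dns G x y)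
    {μ : ℝ} (hμ : 0 < μ) : ∃ (n : ℕ) (b : ℕ → ℝ), b 0 = x ∧ b n = y ∧
      (∀ i < n, b i ≤ b (i + 1) ∧ b (i + 1) ≤ b i + μ) ∧
      ∀ i ≤ n, G (b i) ∧ x ≤ b i ∧ b i ≤ y := by
  have key : ∀ N : ℕ, ∀ x : ℝ, x ≤ y → G x → Dns G x y → y - x ≤ N * (μ / 2) →
      ∃ (n : ℕ) (b : ℕ → ℝ), b 0 = x ∧ b n = y ∧
      (∀ i < n, b i ≤ b (i + 1) ∧ b (i + 1) ≤ b i + μ) ∧
      ∀ i ≤ n, G (b i) ∧ x ≤ b i ∧ b i ≤ y := by
    intro N
    induction N with
    | zero =>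
      intro x hxy hx hd hN
      rw [Nat.cast_zero, zero_mul] at hN
      have e : x = y := by linarith
      refine ⟨0, fun _ => x, rfl, e, fun i hi => absurd hi (Nat.not_lt_zero _), fun i _ => ?_⟩
      exact ⟨hx, le_rfl, hxy⟩
    | succ N ih =>
      intro x hxy hx hd hN
      by_cases hs : y - x ≤ μ
      · refine ⟨1, fun i => if i = 0 then x else y, if_pos rfl, if_neg one_ne_zero, ?_, ?_⟩
        · intro i hi
          obtain rfl : i = 0 := by omega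
          dsimp only
          rw [if_pos rfl, if_neg (by omega)]
          exact ⟨hxy, by linarith⟩
        · intro i _
          dsimp only
          split_ifs
          · exact ⟨hx, le_rfl, hxy⟩
          · exact ⟨hy, hxy, le_rfl⟩
      · rw [not_le] at hs
        obtain ⟨b₁, h1, h2, h3⟩ := hd (x + μ / 2) (x + μ) (by linarith) (by linarith) (by linarith)
        push_cast at hN
        obtain ⟨n, b, b1, b2, b3, b4⟩ := ih b₁ (by linarith) h3
          (fun s t hs hst ht => hd s t (by linarith) hst ht) (by linarith)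
        refine ⟨n + 1, fun i => if i = 0 then x else b (i - 1), if_pos rfl, ?_, ?_, ?_⟩
        · dsimp only
          rw [if_neg (by omega), Nat.add_sub_cancel]
          exact b2
        · intro i hi
          dsimp only
          rw [if_neg (show i + 1 ≠ 0 by omega), Nat.add_sub_cancel]
          by_cases hi0 : i = 0
          · rw [if_pos hi0, hi0, b1]
            exact ⟨by linarith, by linarith⟩
          · rw [if_neg hi0]
            have h4 := b3 (i - 1) (by omega)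
            rwa [Nat.sub_add_cancel (by omega)] at h4
        · intro i hi
          dsimp only
          by_cases hi0 : i = 0
          · rw [if_pos hi0]
            exact ⟨hx, le_rfl, hxy⟩
          · rw [if_neg hi0]
            have h4 := b4 (i - 1) (by omega)
            exact ⟨h4.1, by linarith [h4.2.1], h4.2.2⟩
  obtain ⟨N, hN⟩ := exists_nat_ge ((y - x) / (μ / 2))
  exact key N x hxy hx hd (by
    rwa [div_le_iff₀ (by positivity)] at hN)

end Pool.OWN68
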