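import Pool.Agent.H68.OWN.Jc

/-!
# The own path of a line: the data `Npl`

`jr`: the coefficients of the own path in the window, in units of the last digit. `jctx`: the context
of a line: the label, the side information, the window, a given context `c`, and the integer parts
of the coefficients above `k`. `jnpl`: the data `Npl`. `opl_sum`, `dict_lin`: the height from the
integer parts of the coefficients.
-/

set_option autoImplicit false

namespace Pool.OWN68

open Finset Real MvPolynomial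
open Pool.Agent.H49.Ent Pool.Agent.H32.Dense Pool.STK Pool.KA Pool.KSAT Pool.K2S Pool.PB Pool.GEN
open Pool.LA91 (lp jet ojet)

variable {m J : ℕ}

/-- Subadditivity for a finite family. -/
theorem CH_pis {Ω ι S T : Type} [Fintype Ω] [Fintype ι] {p : Ω → ℝ} (hp0 : ∀ ω, 0 ≤ p ω)
    (X : Ω → ι → S) (W : Ω → T) : CH p X W ≤ ∑ i, CH p (fun ω => X ω i) W := by
  classical
  have key : ∀ s : Finset ι, CH p (fun ω i => if i ∈ s then some (X ω i) else none) W ≤
      ∑ i ∈ s, CH p (fun ω => X ω i) W := by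
    intro s
    induction s using Finset.induction_on with
    | empty =>
      rw [Finset.sum_empty]
      refine le_of_eq (CH_eq_zero hp0 ?_)
      intro ω ω' _ _ _
      funext i
      simp
    | insert j s hj ih =>
      rw [Finset.sum_insert hj]
      have h1 : CH p (fun ω i => if i ∈ insert j s then some (X ω i) else none) W ≤
          CH p (fun ω => (X ω j, fun i => if i ∈ s then some (X ω i) else none)) W := by
        refine CH_mono_left hp0 ?_
        intro ω ω' _ _ h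
        simp only [Prod.mk.injEq] at h
        funext i
        by_cases hi : i = j
        · subst hi
          simp only [Finset.mem_insert_self, if_true]
          rw [h.1.1]
        · have h2 := congrFun h.1.2 i
          simp only [Finset.mem_insert, hi, false_or]
          exact h2
      have h3 := CH_subadd hp0 (fun ω => X ω j) (fun ω i => if i ∈ s then some (X ω i) else none) W
      linarith
  have h1 := key univ
  refine le_trans (CH_mono_left hp0 ?_) h1
  intro ω ω' _ _ h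
  simp only [Prod.mk.injEq] at h
  funext i
  have h2 := congrFun h.1 i
  simp only [Finset.mem_univ, if_true, Option.some.injEq] at h2
  exact h2

/-! ### The height from the coefficients -/

/-- The polynomial with the integer parts of the coefficients. -/
theorem near_sum {D : ℕ} {E : Polynomial ℝ} (hE : E.natDegree ≤ D) {u : ℝ} (hu : |u| ≤ 1)
    (a : ℕ → ℝ) (ha : ∀ j, |E.coeff j - a j| ≤ 1) :
    |E.eval u - ∑ j ∈ range (D + 1), a j * u ^ j| ≤ D + 1 := by
  rw [Polynomial.eval_eq_sum_range' (by omega : E.natDegree < D + 1), ← Finset.sum_sub_distrib]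
  refine (Finset.abs_sum_le_sum_abs _ _).trans ?_
  have h1 : ∀ j ∈ range (D + 1), |E.coeff j * u ^ j - a j * u ^ j| ≤ 1 := by
    intro j _
    rw [← sub_mul, abs_mul, abs_pow]
    calc |E.coeff j - a j| * |u| ^ j ≤ 1 * 1 :=
          mul_le_mul (ha j) (pow_le_one₀ (abs_nonneg _) hu) (by positivity) zero_le_one
      _ = 1 := one_mul _
  refine (Finset.sum_le_sum h1).trans (le_of_eq ?_)
  rw [Finset.sum_const, Finset.card_range, nsmul_eq_mul]
  push_cast
  ring

theorem fl_one (x : ℝ) : |x - (⌊x⌋ : ℝ)| ≤ 1 := by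
  have h1 := Int.floor_le x
  have h2 := Int.lt_floor_add_one x
  rw [abs_le]
  constructor <;> linarith

/-- **The height, from the integer parts of the coefficients.** -/
theorem opl_sum (F : Fam m J) {w : ℕ} (hw : w ≤ J) {H : MvPolynomial (Option (Fin m)) ℝ} {D : ℕ}
    (hH : H.totalDegree ≤ D) (σ : ℝ) (ω : F.Ω) :
    |σ * eval (bt F ω) H - ∑ j ∈ range (D + 1),
      (⌊σ * (opl F w H (slam F w ω)).coeff j⌋ : ℝ) * uw F w ω ^ j| ≤ D + 1 := by
  have h1 := opl_jet F hw H ω 0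
  rw [Function.iterate_zero, id, pow_zero, one_mul] at h1
  have h2 : jet 0 H (bt F ω) (bd F ω) = eval (bt F ω) H := by
    unfold jet
    rw [Function.iterate_zero, id, Pool.LA91.eval_alp]
    congr 2
    funext o
    ring
  rw [h2] at h1
  rw [← h1]
  have h3 := near_sum (D := D) (E := Polynomial.C σ * opl F w H (slam F w ω))
    ((Polynomial.natDegree_C_mul_le _ _).trans (natDegree_opl F w hH _)) (uw_abs F w ω)
    (fun j => (⌊σ * (opl F w H (slam F w ω)).coeff j⌋ : ℝ)) (fun j => by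
      rw [Polynomial.coeff_C_mul]
      exact fl_one _)
  rw [Polynomial.eval_mul, Polynomial.eval_C] at h3
  exact h3

/-- **The linear dictionary**: `X ≈ N + (A / M) c` with integers, `A = tw`, `M = 2 ^ (J - w)`, where `X`
is the height minus the part of the coefficients of order at least `2`. -/
theorem dict_lin (F : Fam m J) {w : ℕ} (hw : w ≤ J) {H : MvPolynomial (Option (Fin m)) ℝ} {D : ℕ}
    (hH : H.totalDegree ≤ D) (hD : 1 ≤ D) (σ : ℝ) (ω : F.Ω) :
    |(2 : ℝ) ^ (J - w) * ((⌊σ * eval (bt F ω) H⌋ - ⌊∑ j ∈ Ico 2 (D + 1),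
        (⌊σ * (opl F w H (slam F w ω)).coeff j⌋ : ℝ) * uw F w ω ^ j⌋ : ℤ) : ℝ) -
      ((2 : ℝ) ^ (J - w) * (⌊σ * (opl F w H (slam F w ω)).coeff 0⌋ : ℝ) +
        (tw F w ω : ℝ) * (⌊σ * (opl F w H (slam F w ω)).coeff 1⌋ : ℝ))| ≤
      (D + 3) * 2 ^ (J - w) := by
  have h1 := opl_sum F hw hH σ ω
  set a : ℕ → ℝ := fun j => (⌊σ * (opl F w H (slam F w ω)).coeff j⌋ : ℝ) with ha
  have h2 : ∑ j ∈ range (D + 1), a j * uw F w ω ^ j =
      a 0 + a 1 * uw F w ω + ∑ j ∈ Ico 2 (D + 1), a j * uw F w ω ^ j := by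
    rw [Finset.range_eq_Ico, Finset.sum_eq_sum_Ico_succ_bot (by omega),
      Finset.sum_eq_sum_Ico_succ_bot (by omega)]
    ring
  rw [h2] at h1
  have hM : (0 : ℝ) < 2 ^ (J - w) := by positivity
  have h3 : (tw F w ω : ℝ) = 2 ^ (J - w) * uw F w ω := by
    unfold uw
    push_cast
    field_simp
  have g1 := fl_one (σ * eval (bt F ω) H)
  have g2 := fl_one (∑ j ∈ Ico 2 (D + 1), a j * uw F w ω ^ j)
  have e1 : (2 : ℝ) ^ (J - w) * ((⌊σ * eval (bt F ω) H⌋ -
      ⌊∑ j ∈ Ico 2 (D + 1), a j * uw F w ω ^ j⌋ : ℤ) : ℝ) -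
      ((2 : ℝ) ^ (J - w) * a 0 + (tw F w ω : ℝ) * a 1) =
      2 ^ (J - w) * ((σ * eval (bt F ω) H - (a 0 + a 1 * uw F w ω +
        ∑ j ∈ Ico 2 (D + 1), a j * uw F w ω ^ j)) -
        (σ * eval (bt F ω) H - (⌊σ * eval (bt F ω) H⌋ : ℝ)) +
        (∑ j ∈ Ico 2 (D + 1), a j * uw F w ω ^ j -
          (⌊∑ j ∈ Ico 2 (D + 1), a j * uw F w ω ^ j⌋ : ℝ))) := by
    rw [h3]
    push_cast
    ring
  rw [e1, abs_mul, abs_of_pos hM, mul_comm]
  refine mul_le_mul_of_nonneg_right ?_ hM.le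
  rw [abs_le] at h1 g1 g2 ⊢
  constructor <;> linarith [h1.1, h1.2, g1.1, g1.2, g2.1, g2.2]

/-! ### The coefficients -/

section

variable (F : Fam m J) (w : ℕ) (σ : ℝ) (κ : Fin m) {V : Type} (zl : LnT F → V)
  (G : V → MvPolynomial (Option (Fin m)) ℝ)

/-- The own path of `κ` in the window, in units of the last digit. -/
noncomputable def jR (x : LnT F) : Polynomial ℝ :=
  Polynomial.C σ * opl F w (X (some κ) - G (zl x)) x

/-- The coefficients of the own path in the window, in units of the last digit. -/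
noncomputable def jr (j : ℕ) (x : LnT F) : ℝ := (jR F w σ κ zl G x).coeff j

/-- The context of a line. -/
noncomputable def jctx {𝒞 : Type} (k D : ℕ) (c : LnT F → 𝒞) (x : LnT F) :
    (V × (F.ζ × ℕ)) × (𝒞 × (Fin (D + 1) → ℤ)) :=
  ((zl x, x.2), (c x, fun j => if k < (j : ℕ) then ⌊jr F w σ κ zl G j x⌋ else 0))

/-- The known part of the path. -/
noncomputable def jg {C₁ 𝒞 : Type} (M D : ℕ) (y : C₁ × (𝒞 × (Fin (D + 1) → ℤ))) (τ : ℤ) : ℝ :=
  ∑ j : Fin (D + 1), (y.2.2 j : ℝ) * ((τ : ℝ) / M) ^ (j : ℕ)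

variable {F w σ κ zl G}

theorem natDegree_jR {D : ℕ} (hdeg : ∀ v, (X (some κ) - G v).totalDegree ≤ D) (x : LnT F) :
    (jR F w σ κ zl G x).natDegree ≤ D :=
  (Polynomial.natDegree_C_mul_le _ _).trans (natDegree_opl F w (hdeg _) _)

theorem jR_jet (hw : w ≤ J) (ω : F.Ω) (j : ℕ) :
    (Polynomial.derivative^[j] (jR F w σ κ zl G (slam F w ω))).eval (uw F w ω) =
      σ * (1 / 2 ^ (w + 1)) ^ j * ojet F κ j (G (zl (slam F w ω))) ω := by
  unfold jR
  rw [Polynomial.iterate_derivative_C_mul, Polynomial.eval_mul, Polynomial.eval_C, opl_jet F hw]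
  unfold ojet
  ring

/-- The path is near the exact height. -/
theorem jpth_near {k D : ℕ} (hk : k = 1 ∨ k = 2) (hD : 2 ≤ D)
    (hdeg : ∀ v, (X (some κ) - G v).totalDegree ≤ D) {𝒞 : Type} (c : LnT F → 𝒞) (x : LnT F)
    {M : ℕ} (hM : 1 ≤ M) {τ : ℤ} (hτ : |τ| ≤ (M : ℤ)) :
    |(jR F w σ κ zl G x).eval ((τ : ℝ) / M) - pth M (jctx F w σ κ zl G k D c)
      (jr F w σ κ zl G 0) (jr F w σ κ zl G 1)
      (fun x => if k = 1 then 0 else jr F w σ κ zl G 2 x) (jg M D) x τ| ≤ D + 1 := by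
  have hu := unit_le hM hτ
  set u : ℝ := (τ : ℝ) / M with hu'
  set a : ℕ → ℝ := fun j => if k < j then (⌊jr F w σ κ zl G j x⌋ : ℝ) else jr F w σ κ zl G j x
    with ha
  have h1 := near_sum (D := D) (natDegree_jR (w := w) (σ := σ) (zl := zl) hdeg x) hu a (fun j => by
    rw [ha]
    dsimp only
    split_ifs
    · exact fl_one _
    · unfold jr
      rw [sub_self, abs_zero]
      exact zero_le_one)
  have h2 : pth M (jctx F w σ κ zl G k D c) (jr F w σ κ zl G 0) (jr F w σ κ zl G 1)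
      (fun x => if k = 1 then 0 else jr F w σ κ zl G 2 x) (jg M D) x τ =
      ∑ j ∈ range (D + 1), a j * u ^ j := by
    unfold pth jg jctx
    simp only
    rw [← hu']
    have e1 : ∑ j : Fin (D + 1), (((if k < (j : ℕ) then ⌊jr F w σ κ zl G j x⌋ else 0 : ℤ)) : ℝ) *
        u ^ (j : ℕ) = ∑ j ∈ range (D + 1),
        (if k < j then (⌊jr F w σ κ zl G j x⌋ : ℝ) * u ^ j else 0) := by
      rw [← Fin.sum_univ_eq_sum_range (fun j =>
        (if k < j then (⌊jr F w σ κ zl G j x⌋ : ℝ) * u ^ j else 0))]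
      refine Finset.sum_congr rfl fun j _ => ?_
      split_ifs <;> simp
    rw [e1]
    have e2 : jr F w σ κ zl G 0 x + jr F w σ κ zl G 1 x * u +
        (if k = 1 then 0 else jr F w σ κ zl G 2 x) * u ^ 2 = ∑ j ∈ range (D + 1),
        (if k < j then 0 else jr F w σ κ zl G j x * u ^ j) := by
      have e3 : ∑ j ∈ range (D + 1), (if k < j then 0 else jr F w σ κ zl G j x * u ^ j) =
          ∑ j ∈ range 3, (if k < j then 0 else jr F w σ κ zl G j x * u ^ j) := by
        symm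
        refine Finset.sum_subset (fun j hj => ?_) (fun j _ hj => ?_)
        · rw [Finset.mem_range] at hj ⊢
          omega
        · rw [Finset.mem_range] at hj
          rw [if_pos]
          rcases hk with rfl | rfl <;> omega
      rw [e3, Finset.sum_range_succ, Finset.sum_range_succ, Finset.sum_range_succ,
        Finset.sum_range_zero]
      rcases hk with rfl | rfl
      · simp
      · simp
    rw [e2, ← Finset.sum_add_distrib]
    refine Finset.sum_congr rfl fun j _ => ?_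
    rw [ha]
    dsimp only
    split_ifs <;> ring
  rw [h2]
  exact h1

/-- **The data `Npl` of the own path.** -/
theorem jnpl (D : ℕ) : ∃ K₁ : ℕ, 2 * D + 4 ≤ K₁ ∧ ∀ {k A' : ℕ} (hk : k = 1 ∨ k = 2) (hD : 2 ≤ D)
    {m J : ℕ} {F : Fam m J} {w Q : ℕ} {σ : ℝ} {κ : Fin m} {V : Type} {zl : LnT F → V}
    {G : V → MvPolynomial (Option (Fin m)) ℝ} {q : F.Ω → ℝ} (hq : IsLaw q)
    (hdeg : ∀ v, (X (some κ) - G v).totalDegree ≤ D) (hwQ : w + Q ≤ J)
    (hM2 : J - w ≤ A' * Q) (hσ : 0 ≤ σ) {𝒞 Γ : Type} (c : LnT F → 𝒞) (Gm : F.Ω → Γ)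
    {h δ c₀ : ℝ}
    (hG : ∀ ω ω', 0 < q ω → 0 < q ω' → Gm ω = Gm ω' → F.T ω = F.T ω' ∧
      |σ * ojet F κ 0 (G (zl (slam F w ω))) ω - σ * ojet F κ 0 (G (zl (slam F w ω'))) ω'| ≤ 1 ∧
      (k = 2 → |σ * (1 / 2 ^ (w + 1)) * ojet F κ 1 (G (zl (slam F w ω))) ω -
        σ * (1 / 2 ^ (w + 1)) * ojet F κ 1 (G (zl (slam F w ω'))) ω'| ≤ 1))
    (htf : Real.log (2 * ((2 ^ (J - w) : ℕ) : ℝ) + 1) - δ * Q ≤ CH q (tw F w) (slam F w))
    (hδ : 0 ≤ δ)
    (hc0 : CH q (fun ω => cty Q (jctx F w σ κ zl G k D c) (jr F w σ κ zl G 0)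
      (jr F w σ κ zl G 1) (fun x => if k = 1 then 0 else jr F w σ κ zl G 2 x) 0 (slam F w ω))
      Gm ≤ δ * Q)
    (hnf : ∀ E : F.Ω → Prop, c₀ ≤ Pool.Agent.H49.Ent.law q E True → ∀ y ≤ Q,
      CH (Pool.Agent.H49.Ent.cond q E True)
        (fun ω => ⌊pth (2 ^ (J - w)) (jctx F w σ κ zl G k D c) (jr F w σ κ zl G 0)
          (jr F w σ κ zl G 1) (fun x => if k = 1 then 0 else jr F w σ κ zl G 2 x)
          (jg (2 ^ (J - w)) D) (slam F w ω) (tw F w ω)⌋)
        (fun ω => (⌊pth (2 ^ (J - w)) (jctx F w σ κ zl G k D c) (jr F w σ κ zl G 0)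
          (jr F w σ κ zl G 1) (fun x => if k = 1 then 0 else jr F w σ κ zl G 2 x)
          (jg (2 ^ (J - w)) D) (slam F w ω) (tw F w ω) / 2 ^ (Q - y)⌋,
          (tw F w ω, jctx F w σ κ zl G k D c (slam F w ω)))) ≤
        (1 - h) * (((Q : ℝ) - y) * Real.log 2) + δ * Q),
    Npl k K₁ A' h δ c₀ Q q (slam F w) (tw F w) Gm (jctx F w σ κ zl G k D c)
      (jr F w σ κ zl G 0) (jr F w σ κ zl G 1)
      (fun x => if k = 1 then 0 else jr F w σ κ zl G 2 x) (jg (2 ^ (J - w)) D)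
      (fun _ => ()) (2 ^ (J - w)) 0 := by
  obtain ⟨C, hC, hder⟩ := der_small D
  obtain ⟨K₂, hK₂⟩ := exists_nat_ge (C + 1)
  obtain ⟨K₁, hK₁, hK₁'⟩ : ∃ K₁ : ℕ, 2 * D + 4 ≤ K₁ ∧ K₂ ≤ K₁ :=
    ⟨max (2 * D + 4) K₂, le_max_left _ _, le_max_right _ _⟩
  refine ⟨K₁, hK₁, ?_⟩
  intro k A' hk hD m J F w Q σ κ V zl G q hq hdeg hwQ hM2 hσ 𝒞 Γ c Gm h δ c₀ hG htf hδ hc0 hnf
  have hw : w ≤ J := by omega
  have h0 := hq.nonneg
  have hM : 1 ≤ 2 ^ (J - w) := Nat.one_le_two_pow
  have hKr : 2 * (D : ℝ) + 4 ≤ K₁ := by exact_mod_cast hK₁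
  have hKr2 : (K₂ : ℝ) ≤ K₁ := by exact_mod_cast hK₁'
  have hTt : ∀ ω ω', F.T ω = F.T ω' → tw F w ω = tw F w ω' := fun ω ω' e => by
    unfold tw
    rw [e]
  -- the exact height
  have hht : ∀ ω, (jR F w σ κ zl G (slam F w ω)).eval (uw F w ω) =
      σ * ojet F κ 0 (G (zl (slam F w ω))) ω := fun ω => by
    have := jR_jet (σ := σ) (κ := κ) (zl := zl) (G := G) hw ω 0
    rw [Function.iterate_zero, id, pow_zero, mul_one] at this
    exact this
  have hnr := fun ω => jpth_near (w := w) (σ := σ) (zl := zl) hk hD hdeg c (slam F w ω) hM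
    (tw_abs F w ω)
  refine ⟨hq, ?_, ?_, fun ω _ => tw_abs F w ω, fun hk1 x => if_pos hk1, ?_, ?_, ?_, htf, ?_, ?_,
    hc0, ?_⟩
  · exact Nat.pow_le_pow_right (by norm_num) (by omega)
  · exact Nat.pow_le_pow_right (by norm_num) hM2
  · intro ω ω' hω hω' e
    exact hTt _ _ (hG ω ω' hω hω' e).1
  · intro ω ω' hω hω' e
    obtain ⟨g1, g2, -⟩ := hG ω ω' hω hω' e
    have e1 := hTt _ _ g1
    have n1 := hnr ω
    have n2 := hnr ω'
    rw [← e1] at n2
    have e2 : uw F w ω' = ((tw F w ω : ℤ) : ℝ) / ((2 ^ (J - w) : ℕ) : ℝ) := by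
      unfold uw
      rw [e1]
    have e3 : uw F w ω = ((tw F w ω : ℤ) : ℝ) / ((2 ^ (J - w) : ℕ) : ℝ) := rfl
    have f1 := hht ω
    have f2 := hht ω'
    rw [e3] at f1
    rw [e2] at f2
    rw [f1] at n1
    rw [f2] at n2
    rw [abs_le] at n1 n2 g2 ⊢
    constructor <;> linarith [n1.1, n1.2, n2.1, n2.2, g2.1, g2.2]
  · intro hk2 ω ω' hω hω' e ec
    obtain ⟨g1, -, g3⟩ := hG ω ω' hω hω' e
    have g3 := g3 hk2
    have e1 := hTt _ _ g1
    have hu : uw F w ω' = uw F w ω := by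
      unfold uw
      rw [e1]
    have hk1 : ¬ k = 1 := by omega
    -- the difference of the paths
    set E : Polynomial ℝ := jR F w σ κ zl G (slam F w ω) - jR F w σ κ zl G (slam F w ω') with hE
    set a₀ : ℝ := jr F w σ κ zl G 0 (slam F w ω) - jr F w σ κ zl G 0 (slam F w ω') with ha₀
    set a₁ : ℝ := jr F w σ κ zl G 1 (slam F w ω) - jr F w σ κ zl G 1 (slam F w ω') with ha₁
    set a₂ : ℝ := jr F w σ κ zl G 2 (slam F w ω) - jr F w σ κ zl G 2 (slam F w ω') with ha₂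
    set B : Polynomial ℝ := Polynomial.C a₀ + Polynomial.C a₁ * Polynomial.X +
      Polynomial.C a₂ * Polynomial.X ^ 2 with hB
    have hBd : B.natDegree ≤ D := by
      rw [hB]
      refine (Polynomial.natDegree_add_le _ _).trans (max_le ((Polynomial.natDegree_add_le _ _).trans
        (max_le ?_ ?_)) ?_)
      · rw [Polynomial.natDegree_C]
        exact Nat.zero_le _
      · refine (Polynomial.natDegree_C_mul_le _ _).trans ?_
        exact Polynomial.natDegree_X_le.trans (by omega)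
      · refine (Polynomial.natDegree_C_mul_le _ _).trans ?_
        rw [Polynomial.natDegree_X_pow]
        exact hD
    have hEd : (E - B).natDegree ≤ D :=
      (Polynomial.natDegree_sub_le _ _).trans (max_le ((Polynomial.natDegree_sub_le _ _).trans
        (max_le (natDegree_jR hdeg _) (natDegree_jR hdeg _))) hBd)
    have hco : ∀ j, 1 ≤ j → |(E - B).coeff j| ≤ 1 := by
      intro j _
      have hEc : ∀ j, E.coeff j = jr F w σ κ zl G j (slam F w ω) -
          jr F w σ κ zl G j (slam F w ω') := fun j => by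
        rw [hE, Polynomial.coeff_sub]
        rfl
      rw [Polynomial.coeff_sub, hEc]
      have hBc : B.coeff j = (if j = 0 then a₀ else 0) + (if j = 1 then a₁ else 0) +
          (if j = 2 then a₂ else 0) := by
        rw [hB]
        simp only [Polynomial.coeff_add, Polynomial.coeff_C, Polynomial.coeff_C_mul,
          Polynomial.coeff_X, Polynomial.coeff_X_pow]
        congr 1
        · congr 1
          by_cases hj1 : j = 1
          · simp [hj1]
          · rw [if_neg (fun h : 1 = j => hj1 h.symm), if_neg hj1, mul_zero]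
        · split_ifs <;> simp
      rw [hBc]
      by_cases j0 : j = 0
      · subst j0
        simp [ha₀]
      by_cases j1 : j = 1
      · subst j1
        simp [ha₁]
      by_cases j2 : j = 2
      · subst j2
        simp [ha₂]
      rw [if_neg j0, if_neg j1, if_neg j2]
      by_cases hjD : j ≤ D
      · have h3 : ⌊jr F w σ κ zl G j (slam F w ω)⌋ = ⌊jr F w σ κ zl G j (slam F w ω')⌋ := by
          unfold jctx at ec
          have e2 := congrFun (Prod.ext_iff.mp (Prod.ext_iff.mp ec).2).2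
            (⟨j, by omega⟩ : Fin (D + 1))
          simp only [hk2] at e2
          rw [if_pos (by omega), if_pos (by omega)] at e2
          exact e2
        have h4 := Int.floor_le (jr F w σ κ zl G j (slam F w ω))
        have h5 := Int.lt_floor_add_one (jr F w σ κ zl G j (slam F w ω))
        have h6 := Int.floor_le (jr F w σ κ zl G j (slam F w ω'))
        have h7 := Int.lt_floor_add_one (jr F w σ κ zl G j (slam F w ω'))
        rw [h3] at h4 h5
        rw [abs_le]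
        constructor <;> linarith
      · unfold jr
        rw [Polynomial.coeff_eq_zero_of_natDegree_lt
            (lt_of_le_of_lt (natDegree_jR hdeg _) (by omega)),
          Polynomial.coeff_eq_zero_of_natDegree_lt
            (lt_of_le_of_lt (natDegree_jR hdeg _) (by omega))]
        simp
    have h1 := hder (E - B) 1 (uw F w ω) 1 hEd (uw_abs F w ω) hco
    rw [mul_one, Function.iterate_one] at h1
    have h2 : (Polynomial.derivative (E - B)).eval (uw F w ω) =
        (σ * (1 / 2 ^ (w + 1)) * ojet F κ 1 (G (zl (slam F w ω))) ω -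
          σ * (1 / 2 ^ (w + 1)) * ojet F κ 1 (G (zl (slam F w ω'))) ω') -
        (a₁ + 2 * a₂ * uw F w ω) := by
      have d1 := jR_jet (σ := σ) (κ := κ) (zl := zl) (G := G) hw ω 1
      have d2 := jR_jet (σ := σ) (κ := κ) (zl := zl) (G := G) hw ω' 1
      rw [Function.iterate_one, pow_one] at d1 d2
      rw [hu] at d2
      rw [Polynomial.derivative_sub, Polynomial.eval_sub, hE, Polynomial.derivative_sub,
        Polynomial.eval_sub, d1, d2, hB]
      simp only [Polynomial.derivative_add, Polynomial.derivative_C, Polynomial.derivative_C_mul,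
        Polynomial.derivative_X, Polynomial.derivative_X_pow, Polynomial.eval_add,
        Polynomial.eval_mul, Polynomial.eval_C, Polynomial.eval_X, Polynomial.eval_zero,
        Polynomial.eval_one, Polynomial.eval_pow]
      push_cast
      ring
    rw [h2] at h1
    simp only [if_neg hk1]
    rw [← ha₂]
    have e3 : ((tw F w ω : ℤ) : ℝ) / ((2 ^ (J - w) : ℕ) : ℝ) = uw F w ω := rfl
    rw [e3]
    rw [abs_le] at h1 g3 ⊢
    constructor <;> linarith [h1.1, h1.2, g3.1, g3.2]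
  · intro r hr _
    exact (H_const hr.sum_one ()).le
  · have h3 : 0 ≤ CH q (fun _ : F.Ω => ()) Gm := CH_nonneg h0 _ _
    have h4 : 0 ≤ δ * Q := mul_nonneg hδ (Nat.cast_nonneg _)
    linarith
  · intro E hE y hy
    refine le_trans ?_ (hnf E hE y hy)
    refine CH_mono_cond (cond_nonneg h0 E True) fun ω ω' _ _ e => ?_
    simp only [Prod.mk.injEq] at e ⊢
    exact ⟨e.1, e.2.2.1, e.2.2.2⟩

/-- **The context and the jets to `0` digits are few bits**, if the jets `U` are few bits. -/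
theorem jc0 (D : ℕ) : ∃ C : ℝ, 1 ≤ C ∧ ∀ {k : ℕ} (hk : k = 1 ∨ k = 2) {m J : ℕ}
    {F : Fam m J} {w Q : ℕ} {σ : ℝ} {κ : Fin m} {V : Type} {zl : LnT F → V}
    {G : V → MvPolynomial (Option (Fin m)) ℝ} {q : F.Ω → ℝ} (hq : IsLaw q)
    (hdeg : ∀ v, (X (some κ) - G v).totalDegree ≤ D) (hw : w ≤ J) {𝒞 Γ 𝒰 : Type}
    (c : LnT F → 𝒞) (Gm : F.Ω → Γ) (U : F.Ω → 𝒰) {B : ℝ} (hB : 0 ≤ B)
    (hG : ∀ ω ω', 0 < q ω → 0 < q ω' → Gm ω = Gm ω' → F.T ω = F.T ω' ∧
      zl (slam F w ω) = zl (slam F w ω') ∧ (slam F w ω).2 = (slam F w ω').2)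
    (hU : ∀ ω ω', 0 < q ω → 0 < q ω' → Gm ω = Gm ω' → U ω = U ω' →
      (∀ j ≤ D, j ≠ k → |σ * (1 / 2 ^ (w + 1)) ^ j * ojet F κ j (G (zl (slam F w ω))) ω -
        σ * (1 / 2 ^ (w + 1)) ^ j * ojet F κ j (G (zl (slam F w ω'))) ω'| ≤ 1) ∧
      |σ * (1 / 2 ^ (w + 1)) ^ k * ojet F κ k (G (zl (slam F w ω))) ω -
        σ * (1 / 2 ^ (w + 1)) ^ k * ojet F κ k (G (zl (slam F w ω'))) ω'| ≤ B * 2 ^ Q),
    CH q (fun ω => cty Q (jctx F w σ κ zl G k D c) (jr F w σ κ zl G 0)
      (jr F w σ κ zl G 1) (fun x => if k = 1 then 0 else jr F w σ κ zl G 2 x) 0 (slam F w ω))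
      Gm ≤ CH q (fun ω => c (slam F w ω)) Gm + CH q U Gm +
        (D + 4) * Real.log (C * (B + 2)) := by
  obtain ⟨C₁, hC₁, hcof⟩ := cof_small D
  refine ⟨2 * (C₁ + 3) + 1, by linarith, ?_⟩
  intro k hk m J F w Q σ κ V zl G q hq hdeg hw 𝒞 Γ 𝒰 c Gm U B hB hG hU
  have h0 := hq.nonneg
  have hQ1 : (1 : ℝ) ≤ 2 ^ Q := one_le_pow₀ (by norm_num)
  set Z : F.Ω → 𝒰 × Γ := fun ω => (U ω, Gm ω) with hZ
  -- the coefficients on a fibre
  have hco : ∀ ω ω', 0 < q ω → 0 < q ω' → Z ω = Z ω' →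
      (∀ j, k < j → |jr F w σ κ zl G j (slam F w ω) - jr F w σ κ zl G j (slam F w ω')| ≤ C₁) ∧
      ∀ j, |jr F w σ κ zl G j (slam F w ω) - jr F w σ κ zl G j (slam F w ω')| ≤
        C₁ * ((B + 1) * 2 ^ Q) := by
    intro ω ω' hω hω' e
    have e1 : U ω = U ω' := (Prod.ext_iff.mp e).1
    have e2 : Gm ω = Gm ω' := (Prod.ext_iff.mp e).2
    obtain ⟨u1, u2⟩ := hU ω ω' hω hω' e2 e1
    have hT := (hG ω ω' hω hω' e2).1
    have hu : uw F w ω' = uw F w ω := by
      unfold uw tw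
      rw [hT]
    have hEd : (jR F w σ κ zl G (slam F w ω) - jR F w σ κ zl G (slam F w ω')).natDegree ≤ D :=
      (Polynomial.natDegree_sub_le _ _).trans (max_le (natDegree_jR hdeg _) (natDegree_jR hdeg _))
    have hEv : ∀ i, (Polynomial.derivative^[i] (jR F w σ κ zl G (slam F w ω) -
        jR F w σ κ zl G (slam F w ω'))).eval (uw F w ω) =
        σ * (1 / 2 ^ (w + 1)) ^ i * ojet F κ i (G (zl (slam F w ω))) ω -
          σ * (1 / 2 ^ (w + 1)) ^ i * ojet F κ i (G (zl (slam F w ω'))) ω' := by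
      intro i
      rw [Polynomial.iterate_derivative_sub, Polynomial.eval_sub, jR_jet hw ω i, ← hu,
        jR_jet hw ω' i]
    have hbig : ∀ i, D < i → |(Polynomial.derivative^[i] (jR F w σ κ zl G (slam F w ω) -
        jR F w σ κ zl G (slam F w ω'))).eval (uw F w ω)| ≤ 0 := by
      intro i hi
      rw [Polynomial.iterate_derivative_eq_zero (by omega), Polynomial.eval_zero, abs_zero]
    have hc : ∀ j, jr F w σ κ zl G j (slam F w ω) - jr F w σ κ zl G j (slam F w ω') =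
        (jR F w σ κ zl G (slam F w ω) - jR F w σ κ zl G (slam F w ω')).coeff j := by
      intro j
      rw [Polynomial.coeff_sub]
      rfl
    refine ⟨fun j hj => ?_, fun j => ?_⟩
    · rw [hc, ← mul_one C₁]
      refine hcof _ j (uw F w ω) 1 hEd (uw_abs F w ω) fun i hi => ?_
      by_cases hiD : i ≤ D
      · rw [hEv]
        exact u1 i hiD (by omega)
      · exact (hbig i (by omega)).trans zero_le_one
    · rw [hc]
      refine hcof _ j (uw F w ω) _ hEd (uw_abs F w ω) fun i _ => ?_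
      by_cases hiD : i ≤ D
      · rw [hEv]
        by_cases hik : i = k
        · rw [hik]
          refine u2.trans ?_
          nlinarith
        · refine (u1 i hiD hik).trans ?_
          nlinarith
      · exact (hbig i (by omega)).trans (by positivity)
  -- the costs
  have hlog : ∀ {X : F.Ω → ℤ} {N : ℝ}, N ≤ C₁ * (B + 1) →
      (∀ ω ω', 0 < q ω → 0 < q ω' → Z ω = Z ω' → |X ω - X ω'| ≤ ((⌈N⌉₊ + 1 : ℕ) : ℤ)) →
      CH q X Z ≤ Real.log ((2 * (C₁ + 3) + 1) * (B + 2)) := by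
    intro X N hN hX
    refine (CH_pair hq X Z hX).trans (Real.log_le_log (by positivity) ?_)
    have h1 : (⌈N⌉₊ : ℝ) ≤ C₁ * (B + 1) + 1 := by
      have h2 : (⌈N⌉₊ : ℝ) ≤ (⌈C₁ * (B + 1)⌉₊ : ℝ) := by exact_mod_cast Nat.ceil_mono hN
      have h3 := Nat.ceil_lt_add_one (by positivity : 0 ≤ C₁ * (B + 1))
      linarith
    push_cast
    nlinarith
  have hfl : ∀ {a b N : ℝ}, |a - b| ≤ N → |⌊a⌋ - ⌊b⌋| ≤ ((⌈N⌉₊ + 1 : ℕ) : ℤ) := by
    intro a b N hab
    exact floor_sub_le (hab.trans (Nat.le_ceil N))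
  have hC1B : C₁ ≤ C₁ * (B + 1) := by nlinarith
  -- the parts
  have p1 : CH q (fun ω => (fun j : Fin (D + 1) => if k < (j : ℕ) then
      ⌊jr F w σ κ zl G j (slam F w ω)⌋ else 0)) Z ≤
      (D + 1) * Real.log ((2 * (C₁ + 3) + 1) * (B + 2)) := by
    refine (CH_pis h0 _ Z).trans ?_
    have h1 : ∀ j ∈ (univ : Finset (Fin (D + 1))), CH q (fun ω => (fun j : Fin (D + 1) =>
        if k < (j : ℕ) then ⌊jr F w σ κ zl G j (slam F w ω)⌋ else 0) j) Z ≤
        Real.log ((2 * (C₁ + 3) + 1) * (B + 2)) := by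
      intro j _
      refine hlog (N := C₁) hC1B fun ω ω' hω hω' e => ?_
      dsimp only
      split_ifs with hj
      · exact hfl ((hco ω ω' hω hω' e).1 _ hj)
      · rw [sub_self, abs_zero]
        exact Int.natCast_nonneg _
    refine (Finset.sum_le_sum h1).trans (le_of_eq ?_)
    rw [Finset.sum_const, Finset.card_univ, Fintype.card_fin, nsmul_eq_mul]
    push_cast
    ring
  have p2 : ∀ j, CH q (fun ω => ⌊jr F w σ κ zl G j (slam F w ω) / 2 ^ Q⌋) Z ≤
      Real.log ((2 * (C₁ + 3) + 1) * (B + 2)) := by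
    intro j
    refine hlog (N := C₁ * (B + 1)) le_rfl fun ω ω' hω hω' e => hfl ?_
    have h1 := (hco ω ω' hω hω' e).2 j
    rw [← sub_div, abs_div, abs_of_pos (by positivity : (0 : ℝ) < 2 ^ Q),
      div_le_iff₀ (by positivity)]
    linarith
  have p3 : CH q (fun ω => ⌊(if k = 1 then 0 else jr F w σ κ zl G 2 (slam F w ω)) / 2 ^ Q⌋) Z ≤
      Real.log ((2 * (C₁ + 3) + 1) * (B + 2)) := by
    by_cases hk1 : k = 1
    · simp only [if_pos hk1]
      refine hlog (N := C₁) hC1B fun ω ω' _ _ _ => ?_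
      rw [sub_self, abs_zero]
      exact Int.natCast_nonneg _
    · simp only [if_neg hk1]
      exact p2 2
  -- together
  have s1 := CH_le_add h0 (fun ω => cty Q (jctx F w σ κ zl G k D c) (jr F w σ κ zl G 0)
      (jr F w σ κ zl G 1) (fun x => if k = 1 then 0 else jr F w σ κ zl G 2 x) 0 (slam F w ω)) U Gm
  have s2 : CH q (fun ω => cty Q (jctx F w σ κ zl G k D c) (jr F w σ κ zl G 0)
      (jr F w σ κ zl G 1) (fun x => if k = 1 then 0 else jr F w σ κ zl G 2 x) 0 (slam F w ω)) Z ≤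
      CH q (fun ω => (c (slam F w ω), ((fun j : Fin (D + 1) => if k < (j : ℕ) then
        ⌊jr F w σ κ zl G j (slam F w ω)⌋ else 0), (⌊jr F w σ κ zl G 0 (slam F w ω) / 2 ^ Q⌋,
        (⌊jr F w σ κ zl G 1 (slam F w ω) / 2 ^ Q⌋,
          ⌊(if k = 1 then 0 else jr F w σ κ zl G 2 (slam F w ω)) / 2 ^ Q⌋))))) Z := by
    refine CH_mono_left h0 fun ω ω' hω hω' e => ?_
    have e1 := (Prod.ext_iff.mp e).1
    have e2 : Gm ω = Gm ω' := (Prod.ext_iff.mp (Prod.ext_iff.mp e).2).2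
    obtain ⟨-, g2, g3⟩ := hG ω ω' hω hω' e2
    simp only [Prod.mk.injEq] at e1
    obtain ⟨f1, f2, f3, f4, f5⟩ := e1
    unfold cty jctx
    simp only [Nat.sub_zero, Prod.mk.injEq]
    exact ⟨⟨⟨g2, g3⟩, f1, f2⟩, f3, f4, f5⟩
  have s3 := CH_subadd h0 (fun ω => c (slam F w ω)) (fun ω => ((fun j : Fin (D + 1) =>
    if k < (j : ℕ) then ⌊jr F w σ κ zl G j (slam F w ω)⌋ else 0),
    (⌊jr F w σ κ zl G 0 (slam F w ω) / 2 ^ Q⌋, (⌊jr F w σ κ zl G 1 (slam F w ω) / 2 ^ Q⌋,
      ⌊(if k = 1 then 0 else jr F w σ κ zl G 2 (slam F w ω)) / 2 ^ Q⌋)))) Z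
  have s4 := CH_subadd h0 (fun ω => (fun j : Fin (D + 1) =>
    if k < (j : ℕ) then ⌊jr F w σ κ zl G j (slam F w ω)⌋ else 0))
    (fun ω => (⌊jr F w σ κ zl G 0 (slam F w ω) / 2 ^ Q⌋,
      (⌊jr F w σ κ zl G 1 (slam F w ω) / 2 ^ Q⌋,
      ⌊(if k = 1 then 0 else jr F w σ κ zl G 2 (slam F w ω)) / 2 ^ Q⌋))) Z
  have s5 := CH_subadd h0 (fun ω => ⌊jr F w σ κ zl G 0 (slam F w ω) / 2 ^ Q⌋)
    (fun ω => (⌊jr F w σ κ zl G 1 (slam F w ω) / 2 ^ Q⌋,
      ⌊(if k = 1 then 0 else jr F w σ κ zl G 2 (slam F w ω)) / 2 ^ Q⌋)) Z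
  have s6 := CH_subadd h0 (fun ω => ⌊jr F w σ κ zl G 1 (slam F w ω) / 2 ^ Q⌋)
    (fun ω => ⌊(if k = 1 then 0 else jr F w σ κ zl G 2 (slam F w ω)) / 2 ^ Q⌋) Z
  have s7 : CH q (fun ω => c (slam F w ω)) Z ≤ CH q (fun ω => c (slam F w ω)) Gm :=
    CH_mono_cond h0 fun _ _ _ _ e => (Prod.ext_iff.mp e).2
  have t1 := p2 0
  have t2 := p2 1
  have e9 : ((D : ℝ) + 4) * Real.log ((2 * (C₁ + 3) + 1) * (B + 2)) =
      (D + 1) * Real.log ((2 * (C₁ + 3) + 1) * (B + 2)) +
        3 * Real.log ((2 * (C₁ + 3) + 1) * (B + 2)) := by ring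
  rw [e9]
  linarith

end

end Pool.OWN68
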