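import Pool.Agent.H68.OWN.Ktz

/-!
# Two coordinates with one label

`U`, `V` are the near digits of `u` and `v` at the time `c`. On the tube `v = κ_T + b u` with a closed
label: `κ_T = K0 + K1 c / 2 ^ g` is affine in the time, `b = B / 2 ^ g`. The digits of `u` are full given
the label and the time, the time is free, and the pair has the defect `τ` at all levels on all large
events. Then the label is a function of the pair, up to few bits.
-/

set_option autoImplicit false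

namespace Pool.OWN68

open Finset Real
open Pool.Agent.H49.Ent Pool.Agent.H32.Dense Pool.STK

section tools

variable {Ω : Type} [Fintype Ω]

/-- A variable near a function of the condition costs few bits. -/
theorem CH_fn {T : Type} {p : Ω → ℝ} (h0 : ∀ ω, 0 ≤ p ω) (h1 : ∑ ω, p ω = 1) (X : Ω → ℤ)
    (Z : Ω → T) (f : T → ℤ) (D : ℕ) (h : ∀ ω, 0 < p ω → |X ω - f (Z ω)| ≤ (D : ℤ)) :
    CH p X Z ≤ Real.log (2 * D + 1) := by
  have h2 := CH_le_card h0 h1 X Z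
    (fun x => Finset.Icc (f x - (D : ℤ)) (f x + D)) (fun ω hω => by
      have h3 := abs_le.mp (h ω hω)
      rw [Finset.mem_Icc]
      constructor <;> linarith [h3.1, h3.2])
  refine h2.trans (le_of_eq ?_)
  rw [← Ex_const h1 (Real.log (2 * D + 1))]
  unfold Ex
  refine Finset.sum_congr rfl fun ω _ => ?_
  have e : ((Finset.Icc (f (Z ω) - (D : ℤ)) (f (Z ω) + D)).card : ℝ) = 2 * D + 1 := by
    rw [Int.card_Icc]
    have h4 : (((f (Z ω) + (D : ℤ) + 1 - (f (Z ω) - D)).toNat : ℕ) : ℤ) = 2 * D + 1 := by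
      rw [Int.toNat_of_nonneg (by omega)]
      ring
    have h5 : (((f (Z ω) + (D : ℤ) + 1 - (f (Z ω) - D)).toNat : ℕ) : ℝ) =
        ((((f (Z ω) + (D : ℤ) + 1 - (f (Z ω) - D)).toNat : ℕ) : ℤ) : ℝ) := by push_cast; rfl
    rw [h5, h4]
    push_cast
    rfl
  show p ω * Real.log _ = p ω * Real.log _
  rw [e]

/-- Add a variable with few bits to the condition. -/
theorem CH_cond_add {S T R : Type} {p : Ω → ℝ} (h0 : ∀ ω, 0 ≤ p ω) (A : Ω → S) (B : Ω → T)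
    (Z : Ω → R) : CH p A Z - CH p B Z ≤ CH p A (fun ω => (B ω, Z ω)) := by
  have := CH_le_add h0 A B Z
  linarith

theorem CH_swap2 {S T R : Type} {p : Ω → ℝ} (h0 : ∀ ω, 0 ≤ p ω) (A : Ω → S) (B : Ω → T)
    (Z : Ω → R) : CH p (fun ω => (A ω, B ω)) Z = CH p (fun ω => (B ω, A ω)) Z := by
  refine CH_congr h0 ?_ ?_ (fun _ _ _ _ h => h) (fun _ _ _ _ h => h) <;>
  · intro ω ω' _ _ h
    simp only [Prod.mk.injEq] at h ⊢
    tauto

/-- The chain rule in both orders. -/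
theorem CH_chain2 {S T R : Type} {p : Ω → ℝ} (h0 : ∀ ω, 0 ≤ p ω) (A : Ω → S) (B : Ω → T)
    (Z : Ω → R) : CH p (fun ω => (A ω, B ω)) Z = CH p A Z + CH p B (fun ω => (A ω, Z ω)) := by
  rw [CH_swap2 h0 A B Z]
  exact CH_chain h0 B A Z

open Classical in
/-- **The deficit on an event of the condition.** -/
theorem deficit_ev {S T : Type} {p : Ω → ℝ} (hp : IsLaw p) (A : Ω → S) (Z : Ω → T) {L e c₀ : ℝ}
    (hc₀ : 0 < c₀) (he : 0 ≤ e) (hL : ∀ q : Ω → ℝ, IsLaw q → (∀ ω, 0 < q ω → 0 < p ω) → CH q A Z ≤ L)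
    (h : L - e ≤ CH p A Z) (E : Ω → Prop) (hE : ∀ ω ω', Z ω = Z ω' → (E ω ↔ E ω'))
    (hE1 : c₀ ≤ law p E True) : L - e / c₀ ≤ CH (cond p E True) A Z := by
  have h0 := hp.nonneg
  have hE0 : 0 < law p E True := hc₀.trans_le hE1
  have h1 : CH p A Z ≤ CH p A (fun ω => (Z ω, E ω)) :=
    CH_mono_cond h0 fun ω ω' _ _ hz => Prod.ext hz (propext (hE ω ω' hz))
  rw [CH_split h0 A Z E] at h1
  have h2 : ∑ j ∈ univ.image E, law p E j * CH (cond p E j) A Z ≤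
      law p E True * CH (cond p E True) A Z + (1 - law p E True) * L := by
    have hs := sum_law_one hp.sum_one E
    have h3 : ∀ j ∈ univ.image E, law p E j * CH (cond p E j) A Z ≤
        law p E j * L + (if j = True then law p E True * (CH (cond p E True) A Z - L) else 0) := by
      intro j _
      by_cases hj : j = True
      · rw [if_pos hj, hj]
        linarith
      · rw [if_neg hj, add_zero]
        rcases (law_nonneg h0 E j).eq_or_lt with hz | hz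
        · rw [← hz]
          simp
        · refine mul_le_mul_of_nonneg_left (hL _ ⟨cond_nonneg h0 E j, sum_cond p E hz.ne'⟩ ?_) hz.le
          intro ω hω
          exact ((cond_pos_iff h0 E j ω).mp hω).1
    refine (Finset.sum_le_sum h3).trans ?_
    rw [Finset.sum_add_distrib, ← Finset.sum_mul, hs, one_mul,
      Finset.sum_eq_single True (fun j _ hj => if_neg hj) (fun hcon => by
        rw [law_eq_zero_of_notMem p E hcon] at hE0
        exact absurd hE0 (lt_irrefl _)), if_pos rfl]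
    linarith
  have h4 : law p E True * (L - CH (cond p E True) A Z) ≤ e := by linarith
  have h5 : L - CH (cond p E True) A Z ≤ e / law p E True := by
    rw [le_div_iff₀ hE0]
    linarith
  have h6 : e / law p E True ≤ e / c₀ := div_le_div_of_nonneg_left he hc₀ hE1
  linarith

end tools

/-! ### Digits -/

theorem ediv_size {C g i : ℕ} (hi : i ≤ g) {x : ℤ} (hx : |x| ≤ ((C * 2 ^ g : ℕ) : ℤ)) :
    |x / 2 ^ (g - i)| ≤ ((C * 2 ^ i : ℕ) : ℤ) := by
  have hm : (0 : ℤ) < 2 ^ (g - i) := by positivity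
  have e : ((C * 2 ^ g : ℕ) : ℤ) = ((C * 2 ^ i : ℕ) : ℤ) * 2 ^ (g - i) := by
    have : (2 : ℤ) ^ g = 2 ^ i * 2 ^ (g - i) := by
      rw [← pow_add]
      congr 1
      omega
    push_cast
    rw [this]
    ring
  rw [e, abs_le] at hx
  rw [abs_le]
  constructor
  · rw [Int.le_ediv_iff_mul_le hm]
    linarith [hx.1]
  · exact Int.ediv_le_of_le_mul hm hx.2

/-- The digits in real numbers. -/
theorem ediv_real (x : ℤ) (m : ℕ) : |((x / 2 ^ m : ℤ) : ℝ) - (x : ℝ) / 2 ^ m| ≤ 1 := by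
  rw [← floor_int_div]
  have h1 := Int.floor_le ((x : ℝ) / 2 ^ m)
  have h2 := Int.lt_floor_add_one ((x : ℝ) / 2 ^ m)
  rw [abs_le]
  constructor <;> linarith

/-- The digits of `P + A c / 2 ^ g`. -/
theorem dig_near {C g i K : ℕ} (hi : i ≤ g) {X N A c : ℤ}
    (hA : |A| ≤ ((C * 2 ^ g : ℕ) : ℤ)) (hc : |c| ≤ ((C * 2 ^ g : ℕ) : ℤ))
    (hX : |2 ^ g * X - (2 ^ g * N + A * c)| ≤ K * 2 ^ g) :
    |X / 2 ^ (g - i) - (N / 2 ^ (g - i) + (A / 2 ^ (g - i) * (c / 2 ^ (g - i))) / 2 ^ i)| ≤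
      ((K + 2 * C + 5 : ℕ) : ℤ) := by
  have hg : (0 : ℝ) < 2 ^ g := by positivity
  have hI : (0 : ℝ) < 2 ^ i := by positivity
  have hm : (0 : ℝ) < 2 ^ (g - i) := by positivity
  have hm1 : (1 : ℝ) ≤ 2 ^ (g - i) := one_le_pow₀ (by norm_num)
  have hI1 : (1 : ℝ) ≤ 2 ^ i := one_le_pow₀ (by norm_num)
  have hgi : (2 : ℝ) ^ g = 2 ^ i * 2 ^ (g - i) := by
    rw [← pow_add]
    congr 1
    omega
  have x1 := ediv_real X (g - i)
  have x2 := ediv_real N (g - i)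
  have x3 := ediv_real A (g - i)
  have x4 := ediv_real c (g - i)
  have x5 := ediv_real (A / 2 ^ (g - i) * (c / 2 ^ (g - i))) i
  obtain ⟨a, ha⟩ : ∃ a : ℝ, a = ((A / 2 ^ (g - i) : ℤ) : ℝ) := ⟨_, rfl⟩
  obtain ⟨d, hd⟩ : ∃ a : ℝ, a = ((c / 2 ^ (g - i) : ℤ) : ℝ) := ⟨_, rfl⟩
  rw [← ha] at x3
  rw [← hd] at x4
  have hprod : (((A / 2 ^ (g - i) * (c / 2 ^ (g - i)) : ℤ)) : ℝ) = a * d := by
    rw [Int.cast_mul, ha, hd]
  rw [hprod] at x5
  -- sizes
  have s1 : |a| ≤ C * 2 ^ i := by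
    have h1 := ediv_size hi hA
    have h2 : ((|A / 2 ^ (g - i)| : ℤ) : ℝ) ≤ (((C * 2 ^ i : ℕ) : ℤ) : ℝ) := Int.cast_le.mpr h1
    rw [Int.cast_abs, ← ha] at h2
    push_cast at h2
    exact h2
  have s2 : |(c : ℝ) / 2 ^ (g - i)| ≤ C * 2 ^ i := by
    have h2 : ((|c| : ℤ) : ℝ) ≤ (((C * 2 ^ g : ℕ) : ℤ) : ℝ) := Int.cast_le.mpr hc
    rw [Int.cast_abs] at h2
    push_cast at h2
    rw [abs_div, abs_of_pos hm, div_le_iff₀ hm]
    rw [hgi] at h2
    linarith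
  have hmain : |(X : ℝ) / 2 ^ (g - i) - ((N : ℝ) / 2 ^ (g - i) +
      ((A : ℝ) / 2 ^ (g - i) * ((c : ℝ) / 2 ^ (g - i))) / 2 ^ i)| ≤ K := by
    have h2 : ((|2 ^ g * X - (2 ^ g * N + A * c)| : ℤ) : ℝ) ≤ (((K : ℤ) * 2 ^ g : ℤ) : ℝ) :=
      Int.cast_le.mpr hX
    push_cast at h2
    have e1 : (X : ℝ) / 2 ^ (g - i) - ((N : ℝ) / 2 ^ (g - i) +
      ((A : ℝ) / 2 ^ (g - i) * ((c : ℝ) / 2 ^ (g - i))) / 2 ^ i) =
        (2 ^ g * X - (2 ^ g * N + A * c)) / (2 ^ g * 2 ^ (g - i)) := by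
      rw [hgi]
      field_simp
    rw [e1, abs_div, abs_of_pos (mul_pos hg hm), div_le_iff₀ (mul_pos hg hm)]
    have h3 : (K : ℝ) * 2 ^ g ≤ K * (2 ^ g * 2 ^ (g - i)) := by
      refine mul_le_mul_of_nonneg_left ?_ (Nat.cast_nonneg K)
      nlinarith
    exact h2.trans h3
  -- the product
  have hpr : |a * d / 2 ^ i - ((A : ℝ) / 2 ^ (g - i) * ((c : ℝ) / 2 ^ (g - i))) / 2 ^ i| ≤
      2 * C := by
    rw [← sub_div, abs_div, abs_of_pos hI, div_le_iff₀ hI]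
    have e1 : a * d - (A : ℝ) / 2 ^ (g - i) * ((c : ℝ) / 2 ^ (g - i)) =
        a * (d - (c : ℝ) / 2 ^ (g - i)) +
          (a - (A : ℝ) / 2 ^ (g - i)) * ((c : ℝ) / 2 ^ (g - i)) := by ring
    rw [e1]
    refine (abs_add_le _ _).trans ?_
    rw [abs_mul, abs_mul]
    have h1 := mul_le_mul s1 x4 (abs_nonneg _) (by positivity)
    have h2 := mul_le_mul x3 s2 (abs_nonneg _) zero_le_one
    linarith
  have hfin : |((X / 2 ^ (g - i) - (N / 2 ^ (g - i) +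
      (A / 2 ^ (g - i) * (c / 2 ^ (g - i))) / 2 ^ i) : ℤ) : ℝ)| ≤ K + 2 * C + 3 := by
    have e1 : ((X / 2 ^ (g - i) - (N / 2 ^ (g - i) +
        (A / 2 ^ (g - i) * (c / 2 ^ (g - i))) / 2 ^ i) : ℤ) : ℝ) =
        ((X / 2 ^ (g - i) : ℤ) : ℝ) - (((N / 2 ^ (g - i) : ℤ) : ℝ) +
        (((A / 2 ^ (g - i) * (c / 2 ^ (g - i))) / 2 ^ i : ℤ) : ℝ)) := by
      rw [Int.cast_sub, Int.cast_add]
    rw [e1]
    rw [abs_le] at *
    constructor <;> linarith [x1.1, x1.2, x2.1, x2.2, x5.1, x5.2, hpr.1, hpr.2, hmain.1, hmain.2]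
  have h9 : ((|X / 2 ^ (g - i) - (N / 2 ^ (g - i) +
      (A / 2 ^ (g - i) * (c / 2 ^ (g - i))) / 2 ^ i)| : ℤ) : ℝ) ≤
      (((K + 2 * C + 5 : ℕ) : ℤ) : ℝ) := by
    rw [Int.cast_abs]
    refine hfin.trans ?_
    push_cast
    linarith
  exact Int.cast_le.mp h9

end Pool.OWN68
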