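import Pool.Agent.H68.OWN.Ker

/-!
# Counting in boxes of integer vectors
-/

set_option autoImplicit false

namespace Pool.OWN68

open Finset Real

/-- The box of radius `M`. -/
noncomputable def bx (k M : ℕ) : Finset (Fin k → ℤ) := Fintype.piFinset fun _ => Finset.Icc (-(M : ℤ)) M

theorem card_I (M : ℕ) : (Finset.Icc (-(M : ℤ)) M).card = 2 * M + 1 := by
  rw [Int.card_Icc]
  omega

theorem mem_bx {k M : ℕ} {c : Fin k → ℤ} : c ∈ bx k M ↔ ∀ i, |c i| ≤ (M : ℤ) := by
  unfold bx
  rw [Fintype.mem_piFinset]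
  refine forall_congr' fun i => ?_
  rw [Finset.mem_Icc, abs_le]

theorem card_bx (k M : ℕ) : (bx k M).card = (2 * M + 1) ^ k := by
  unfold bx
  rw [Fintype.card_piFinset]
  simp only [card_I, Finset.prod_const, Finset.card_univ, Fintype.card_fin]

theorem sum_bx {k M : ℕ} (i : Fin k) {g : (Fin k → ℤ) → ℝ} {β : ℝ} (hβ : 0 ≤ β)
    (h : ∀ b : Fin k → ℤ, ∑ n ∈ Finset.Icc (-(M : ℤ)) M, g (Function.update b i n) ≤ β) :
    ∑ c ∈ bx k M, g c ≤ (2 * (M : ℝ) + 1) ^ (k - 1) * β := by
  classical
  set t : Finset (Fin k → ℤ) := (bx k M).image (fun c => Function.update c i 0) with ht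
  have e1 : ∑ c ∈ bx k M, g c =
      ∑ b ∈ t, ∑ c ∈ (bx k M).filter (fun c => Function.update c i 0 = b), g c :=
    (Finset.sum_fiberwise_of_maps_to (fun c hc => Finset.mem_image_of_mem _ hc) g).symm
  have e2 : ∀ b ∈ t, ∑ c ∈ (bx k M).filter (fun c => Function.update c i 0 = b), g c ≤ β := by
    intro b hb
    obtain ⟨c0, hc0, rfl⟩ := Finset.mem_image.mp hb
    have e3 : (bx k M).filter (fun c => Function.update c i 0 = Function.update c0 i 0) =
        (Finset.Icc (-(M : ℤ)) M).image (fun n => Function.update (Function.update c0 i 0) i n) := by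
      ext c
      rw [Finset.mem_filter, Finset.mem_image]
      constructor
      · rintro ⟨h1, h2⟩
        refine ⟨c i, ?_, ?_⟩
        · have := mem_bx.mp h1 i
          rw [Finset.mem_Icc]
          exact abs_le.mp this
        · rw [← h2, Function.update_idem, Function.update_eq_self]
      · rintro ⟨n, hn, rfl⟩
        refine ⟨?_, ?_⟩
        · rw [mem_bx]
          intro j
          by_cases hj : j = i
          · subst hj
            rw [Function.update_self, abs_le]
            exact Finset.mem_Icc.mp hn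
          · rw [Function.update_of_ne hj, Function.update_of_ne hj]
            exact mem_bx.mp hc0 j
        · rw [Function.update_idem, Function.update_idem]
    rw [e3, Finset.sum_image (fun n _ n' _ hh => ?_)]
    · exact h _
    · have := congrFun hh i
      simpa using this
  have e4 : (t.card : ℝ) ≤ (2 * (M : ℝ) + 1) ^ (k - 1) := by
    have h1 : t ⊆ Fintype.piFinset (fun j => if j = i then ({0} : Finset ℤ) else
        Finset.Icc (-(M : ℤ)) M) := by
      intro b hb
      obtain ⟨c0, hc0, rfl⟩ := Finset.mem_image.mp hb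
      rw [Fintype.mem_piFinset]
      intro j
      by_cases hj : j = i
      · subst hj
        simp
      · rw [Function.update_of_ne hj, if_neg hj, Finset.mem_Icc]
        exact abs_le.mp (mem_bx.mp hc0 j)
    have h2 : (Fintype.piFinset (fun j => if j = i then ({0} : Finset ℤ) else
        Finset.Icc (-(M : ℤ)) M)).card = (2 * M + 1) ^ (k - 1) := by
      rw [Fintype.card_piFinset]
      have h3 : ∀ j, (if j = i then ({0} : Finset ℤ) else Finset.Icc (-(M : ℤ)) M).card =
          if j = i then 1 else 2 * M + 1 := by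
        intro j
        split_ifs
        · rfl
        · exact card_I M
      rw [Finset.prod_congr rfl fun j _ => h3 j, Finset.prod_ite, Finset.prod_const_one, one_mul,
        Finset.prod_const]
      congr 1
      rw [Finset.filter_ne', Finset.card_erase_of_mem (Finset.mem_univ i), Finset.card_univ,
        Fintype.card_fin]
    have h4 : t.card ≤ (2 * M + 1) ^ (k - 1) := by
      rw [← h2]
      exact Finset.card_le_card h1
    exact_mod_cast h4
  rw [e1]
  refine (Finset.sum_le_sum e2).trans ?_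
  rw [Finset.sum_const, nsmul_eq_mul]
  exact mul_le_mul_of_nonneg_right e4 hβ

theorem cnt1 {α r : ℝ} (hα : α ≠ 0) (hr : 0 ≤ r) (z : ℝ) (F : Finset ℤ)
    (hF : ∀ n ∈ F, |α * n - z| ≤ r) : (F.card : ℝ) ≤ 2 * r / |α| + 1 := by
  have hα0 : 0 < |α| := abs_pos.mpr hα
  rcases F.eq_empty_or_nonempty with h | h
  · rw [h]
    have : 0 ≤ 2 * r / |α| := by positivity
    simp only [Finset.card_empty, Nat.cast_zero]
    linarith
  · have h1 : F ⊆ Finset.Icc (F.min' h) (F.max' h) := fun n hn =>
      Finset.mem_Icc.mpr ⟨Finset.min'_le _ _ hn, Finset.le_max' _ _ hn⟩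
    have h2 := Finset.card_le_card h1
    rw [Int.card_Icc] at h2
    have h3 : F.min' h ≤ F.max' h := Finset.min'_le _ _ (Finset.max'_mem F h)
    have h4 : (F.card : ℝ) ≤ (F.max' h : ℝ) + 1 - (F.min' h : ℝ) := by
      have : (F.card : ℤ) ≤ F.max' h + 1 - F.min' h := by omega
      exact_mod_cast this
    have h5 := hF _ (Finset.max'_mem F h)
    have h6 := hF _ (Finset.min'_mem F h)
    have h7 : |α| * ((F.max' h : ℝ) - (F.min' h : ℝ)) ≤ 2 * r := by
      have e : |α| * ((F.max' h : ℝ) - (F.min' h : ℝ)) =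
          |(α * (F.max' h : ℝ) - z) - (α * (F.min' h : ℝ) - z)| := by
        have e1 : (α * (F.max' h : ℝ) - z) - (α * (F.min' h : ℝ) - z) =
            α * ((F.max' h : ℝ) - (F.min' h : ℝ)) := by ring
        rw [e1, abs_mul, abs_of_nonneg (show (0 : ℝ) ≤ (F.max' h : ℝ) - (F.min' h : ℝ) by
          have : (F.min' h : ℝ) ≤ (F.max' h : ℝ) := by exact_mod_cast h3
          linarith)]
      rw [e]
      refine (abs_sub _ _).trans ?_
      linarith
    have h8 : (F.max' h : ℝ) - (F.min' h : ℝ) ≤ 2 * r / |α| := by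
      rw [le_div_iff₀ hα0]
      linarith
    linarith

theorem sum_upd {k : ℕ} (η : Fin k → ℝ) (b : Fin k → ℤ) (i : Fin k) (n : ℤ) :
    ∑ j, η j * (Function.update b i n j : ℝ) = η i * n + ∑ j ∈ Finset.univ.erase i, η j * b j := by
  rw [← Finset.add_sum_erase _ _ (Finset.mem_univ i), Function.update_self]
  congr 1
  refine Finset.sum_congr rfl fun j hj => ?_
  rw [Function.update_of_ne (Finset.ne_of_mem_erase hj)]

open Classical in
/-- The number of integer vectors in a slab. -/
theorem cntk {k M : ℕ} (η : Fin k → ℝ) (i : Fin k) (hη : η i ≠ 0) {r : ℝ} (hr : 0 ≤ r) (z : ℝ) :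
    (((bx k M).filter (fun c => |∑ j, η j * c j - z| ≤ r)).card : ℝ) ≤
      (2 * (M : ℝ) + 1) ^ (k - 1) * (2 * r / |η i| + 1) := by
  have h0 : 0 < |η i| := abs_pos.mpr hη
  have e : (((bx k M).filter (fun c => |∑ j, η j * c j - z| ≤ r)).card : ℝ) =
      ∑ c ∈ bx k M, if |∑ j, η j * c j - z| ≤ r then (1 : ℝ) else 0 := by
    rw [Finset.sum_boole]
  rw [e]
  refine sum_bx i (by positivity) fun b => ?_
  rw [Finset.sum_boole]
  refine cnt1 hη hr (z - ∑ j ∈ Finset.univ.erase i, η j * b j) _ fun n hn => ?_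
  have := (Finset.mem_filter.mp hn).2
  rw [sum_upd] at this
  have e : η i * n - (z - ∑ j ∈ Finset.univ.erase i, η j * b j) =
      η i * n + ∑ j ∈ Finset.univ.erase i, η j * b j - z := by ring
  rw [e]
  exact this

/-- Sum of the reciprocals of distances. -/
theorem sum_rec (M : ℕ) (z : ℝ) :
    ∑ n ∈ Finset.Icc (-(M : ℤ)) M, 1 / (1 + |(n : ℝ) - z|) ≤
      2 * (1 + Real.log (2 * M + 1)) := by
  classical
  -- one side
  have key : ∀ (F : Finset ℤ) (f : ℤ → ℕ), Set.InjOn f F → (∀ n ∈ F, ((f n : ℕ) : ℝ) ≤ |(n : ℝ) - z|) →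
      F.card ≤ 2 * M + 1 → ∑ n ∈ F, 1 / (1 + |(n : ℝ) - z|) ≤ 1 + Real.log (2 * M + 1) := by
    intro F f hf h1 h2
    have e1 : ∑ n ∈ F, 1 / (1 + |(n : ℝ) - z|) ≤ ∑ j ∈ F.image f, 1 / (1 + (j : ℝ)) := by
      rw [Finset.sum_image hf]
      refine Finset.sum_le_sum fun n hn => ?_
      exact one_div_le_one_div_of_le (by positivity) (by linarith [h1 n hn])
    have e2 : ∀ G : Finset ℕ, ∑ j ∈ G, 1 / (1 + (j : ℝ)) ≤
        ∑ j ∈ Finset.range G.card, 1 / (1 + (j : ℝ)) := by
      intro G
      induction G using Finset.induction_on_max with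
      | empty => simp
      | insert a s ha ih =>
        have hna : a ∉ s := fun h => lt_irrefl _ (ha a h)
        rw [Finset.sum_insert hna, Finset.card_insert_of_notMem hna, Finset.sum_range_succ,
          add_comm]
        refine add_le_add ih ?_
        have : s.card ≤ a := by
          have h3 : s ⊆ Finset.range a := fun x hx => Finset.mem_range.mpr (ha x hx)
          have := Finset.card_le_card h3
          rwa [Finset.card_range] at this
        have h4 : (s.card : ℝ) ≤ a := by exact_mod_cast this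
        exact one_div_le_one_div_of_le (by positivity) (by linarith)
    have e3 : ∑ j ∈ Finset.range (F.image f).card, 1 / (1 + (j : ℝ)) ≤
        ∑ j ∈ Finset.range (2 * M + 1), 1 / (1 + (j : ℝ)) := by
      refine Finset.sum_le_sum_of_subset_of_nonneg (fun x hx => ?_) (fun x _ _ => by positivity)
      rw [Finset.mem_range] at hx ⊢
      exact hx.trans_le (Finset.card_image_le.trans h2)
    have e4 : ∑ j ∈ Finset.range (2 * M + 1), 1 / (1 + (j : ℝ)) ≤
        1 + Real.log (2 * M + 1) := by
      have := harmonic_le_one_add_log (2 * M + 1)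
      unfold harmonic at this
      push_cast at this
      refine le_trans (le_of_eq ?_) this
      refine Finset.sum_congr rfl fun j _ => ?_
      rw [one_div, add_comm]
    exact ((e1.trans (e2 _)).trans e3).trans e4
  have hsplit := Finset.sum_filter_add_sum_filter_not (Finset.Icc (-(M : ℤ)) M)
    (fun n : ℤ => z ≤ (n : ℝ)) (fun n => 1 / (1 + |(n : ℝ) - z|))
  rw [← hsplit]
  have hc : ∀ (P : ℤ → Prop) [DecidablePred P],
      ((Finset.Icc (-(M : ℤ)) M).filter P).card ≤ 2 * M + 1 := fun P _ =>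
    (Finset.card_filter_le _ _).trans (card_I M).le
  have k1 := key ((Finset.Icc (-(M : ℤ)) M).filter (fun n : ℤ => z ≤ (n : ℝ)))
    (fun n => (n - ⌈z⌉).toNat) (fun n hn n' hn' h => by
      have a1 := (Finset.mem_filter.mp hn).2
      have a2 := (Finset.mem_filter.mp hn').2
      have b1 : ⌈z⌉ ≤ n := Int.ceil_le.mpr a1
      have b2 : ⌈z⌉ ≤ n' := Int.ceil_le.mpr a2
      dsimp only at h
      omega) (fun n hn => by
      have a1 := (Finset.mem_filter.mp hn).2
      have b1 : ⌈z⌉ ≤ n := Int.ceil_le.mpr a1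
      have b2 : ((n - ⌈z⌉).toNat : ℤ) = n - ⌈z⌉ := Int.toNat_of_nonneg (by omega)
      have b3 : (((n - ⌈z⌉).toNat : ℕ) : ℝ) = (n : ℝ) - ⌈z⌉ := by
        have : (((n - ⌈z⌉).toNat : ℤ) : ℝ) = ((n - ⌈z⌉ : ℤ) : ℝ) := by rw [b2]
        push_cast at this
        exact_mod_cast this
      rw [b3]
      have := Int.le_ceil z
      refine le_trans ?_ (le_abs_self _)
      linarith) (hc _)
  have k2 := key ((Finset.Icc (-(M : ℤ)) M).filter (fun n : ℤ => ¬ z ≤ (n : ℝ)))
    (fun n => (⌊z⌋ - n).toNat) (fun n hn n' hn' h => by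
      have a1 := not_le.mp (Finset.mem_filter.mp hn).2
      have a2 := not_le.mp (Finset.mem_filter.mp hn').2
      have b1 : n ≤ ⌊z⌋ := Int.le_floor.mpr a1.le
      have b2 : n' ≤ ⌊z⌋ := Int.le_floor.mpr a2.le
      dsimp only at h
      omega) (fun n hn => by
      have a1 := not_le.mp (Finset.mem_filter.mp hn).2
      have b1 : n ≤ ⌊z⌋ := Int.le_floor.mpr a1.le
      have b2 : ((⌊z⌋ - n).toNat : ℤ) = ⌊z⌋ - n := Int.toNat_of_nonneg (by omega)
      have b3 : (((⌊z⌋ - n).toNat : ℕ) : ℝ) = (⌊z⌋ : ℝ) - n := by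
        have : (((⌊z⌋ - n).toNat : ℤ) : ℝ) = ((⌊z⌋ - n : ℤ) : ℝ) := by rw [b2]
        push_cast at this
        exact_mod_cast this
      rw [b3]
      have := Int.floor_le z
      refine le_trans ?_ (neg_le_abs _)
      linarith) (hc _)
  linarith

end Pool.OWN68
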