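import Pool.Agent.H68.OWN.Jq

/-!
# The jets of order different from `k`: chains of windows

`few_jet_e`: change of the charts with an explicit accuracy (the proof of `few_jet`). `few0_room`:
with some room the jets of the own window are few bits with every error, for an explicit accuracy.
`chain`: a chain of windows. `jets_hi`, `jets_lo`: the jets of large and of small order.
`jetH_of`: the hypothesis `JetH` from the profile of the heights.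
-/

set_option autoImplicit false

namespace Pool.OWN68

open Finset Real MvPolynomial
open Pool.Agent.H49.Ent Pool.Agent.H32.Dense Pool.STK Pool.KA Pool.KSAT Pool.K2S Pool.PB Pool.GEN
open Pool.S6C Pool.RCD Pool.LA91
open Pool.GRD (LbP Pb_mono_pos)
open Pool.UNJ (ceI Tub)
open Pool.BFL (Pb)

variable {m : ℕ}

/-- **Change of the charts**, with an explicit accuracy. -/
theorem few_jet_e {S : PCl m} {C₀ : ℝ} (htm : TmC S C₀) {I : Finset (Fin m)} {k : Fin m} {j : ℕ}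
    {w w₁ w₂ p₁ p₂ N₁ N₂ p₀ lam u₀ : ℝ} (hw₁ : w₁ ≤ w) (hw₂ : w₂ ≤ w) (hw : w ≤ 1) (hwu : w ≤ u₀)
    (hu0 : 0 ≤ u₀) (hu1 : u₀ < p₀) (hp0 : p₀ ≤ 1) (hful : ∀ u : ℝ, u₀ < u → u < 1 → Ful S I w u)
    {α γ : ∀ J : ℕ, Fam m J → Type} {f : ∀ (J : ℕ) (F : Fam m J), F.Ω → α J F}
    {y : ∀ (J : ℕ) (F : Fam m J), F.Ω → γ J F}
    (hf : ∀ (J : ℕ) (F : Fam m J), ∃ φ : α J F → PtT F, ∀ ω, ptr F J ω = φ (f J F ω))
    (hy : Kn I p₀ lam y) (hN : N₂ ≤ N₁)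
    {σ : ℝ} (hσ0 : 0 < σ) (hlt : N₂ + j * u₀ + σ ≤ min p₁ p₂ + min lam (p₀ - u₀))
    {h : ℝ} (hh : 0 < h) :
    F1 S f (vg w) y (qJet m I k j w₁ p₁ N₁) (qJet m I k j w₂ p₂ N₂) (σ / 4) h := by
  classical
  obtain ⟨p, hp⟩ : ∃ p, p = min p₁ p₂ := ⟨_, rfl⟩
  obtain ⟨L, hL⟩ : ∃ L, L = min lam (p₀ - u₀) := ⟨_, rfl⟩
  rw [← hp, ← hL] at hlt
  have hp1 : p ≤ p₁ := by rw [hp]; exact min_le_left _ _
  have hp2 : p ≤ p₂ := by rw [hp]; exact min_le_right _ _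
  have hL1 : L ≤ lam := by rw [hL]; exact min_le_left _ _
  have hL2 : L ≤ p₀ - u₀ := by rw [hL]; exact min_le_right _ _
  have hj0 : (0 : ℝ) ≤ j := Nat.cast_nonneg j
  obtain ⟨δ, hδ⟩ : ∃ δ : ℝ, δ = min (σ / (8 * ((j : ℝ) + 1))) ((p₀ - u₀) / 2) := ⟨_, rfl⟩
  have hδ0 : 0 < δ := by
    rw [hδ]
    refine lt_min (by positivity) (by linarith)
  have hδ1 : ((j : ℝ) + 1) * δ ≤ σ / 8 := by
    have e1 : δ ≤ σ / (8 * ((j : ℝ) + 1)) := by rw [hδ]; exact min_le_left _ _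
    have e2 : ((j : ℝ) + 1) * (σ / (8 * ((j : ℝ) + 1))) = σ / 8 := by field_simp
    rw [← e2]
    exact mul_le_mul_of_nonneg_left e1 (by linarith)
  have hδ2 : δ ≤ (p₀ - u₀) / 2 := by rw [hδ]; exact min_le_right _ _
  intro K
  obtain ⟨C, hC, hfam⟩ := few_fam m K j
  have hC0 : 0 < C := by linarith
  have hl2 : 0 < Real.log 2 := Real.log_pos one_lt_two
  obtain ⟨η, hη⟩ : ∃ η : ℝ, η = min 1 (h / (2 * ((K : ℝ) + 1))) := ⟨_, rfl⟩
  have hη0 : 0 < η := by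
    rw [hη]
    exact lt_min one_pos (by positivity)
  have hη1 : η ≤ 1 := by rw [hη]; exact min_le_left _ _
  have hηK : η * K ≤ h / 2 := by
    have e1 : η ≤ h / (2 * ((K : ℝ) + 1)) := by rw [hη]; exact min_le_right _ _
    have e2 : (K : ℝ) * (h / (2 * ((K : ℝ) + 1))) ≤ h / 2 := by
      rw [mul_div_assoc', div_le_iff₀ (by positivity)]
      have : (0 : ℝ) ≤ K := Nat.cast_nonneg K
      nlinarith
    have e3 := mul_le_mul_of_nonneg_left e1 (Nat.cast_nonneg (α := ℝ) K)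
    linarith
  obtain ⟨ψ, hψ⟩ : ∃ ψ : ℝ, ψ = η * min (σ / 8) ((p₀ - u₀) / 2) * Real.log 2 / (3 * C) := ⟨_, rfl⟩
  have hmn0 : 0 < min (σ / 8) ((p₀ - u₀) / 2) := lt_min (by linarith) (by linarith)
  have hψ0 : 0 < ψ := by
    rw [hψ]
    positivity
  have hψ1 : C * (3 * ψ) / η = min (σ / 8) ((p₀ - u₀) / 2) * Real.log 2 := by
    rw [hψ]
    field_simp
  -- the limits
  obtain ⟨J₃, hJ₃⟩ := exists_nat_ge (Real.log (16 * C) / (σ / 8 * Real.log 2) + 1 / ψ +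
    1 / ((p₀ - u₀) / 2) + (Real.log 2 + Real.log 7) / (h / 2))
  refine Bas.mono J₃ ((hful (u₀ + δ) (by linarith) (by linarith) ψ hψ0).and
    (Pool.GRW.tmc_bas htm hψ0)) ?_
  rintro J hJ F A ⟨hF, hA, hT⟩ u u' ⟨-, V₁, z₁, z₁', G₁, hl₁, hu₁⟩ ⟨hc, V₂, z₂, z₂', G₂, hl₂, hu₂⟩
  have hJ3 : (J₃ : ℝ) ≤ J := by exact_mod_cast hJ
  have hJ0 : (0 : ℝ) ≤ J := Nat.cast_nonneg J
  have hl12 : 0 ≤ Real.log (16 * C) := Real.log_nonneg (by linarith)
  have hl7 : 0 < Real.log 7 := Real.log_pos (by norm_num)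
  have t1 : 0 ≤ Real.log (16 * C) / (σ / 8 * Real.log 2) := by positivity
  have t2 : 0 < 1 / ψ := by positivity
  have t3 : 0 < 1 / ((p₀ - u₀) / 2) := div_pos one_pos (by linarith)
  have t4 : 0 < (Real.log 2 + Real.log 7) / (h / 2) := by positivity
  have f1 : Real.log (16 * C) ≤ σ / 8 * Real.log 2 * J := by
    have : Real.log (16 * C) / (σ / 8 * Real.log 2) ≤ J := by linarith
    rw [div_le_iff₀ (by positivity)] at this
    linarith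
  have f2 : 1 ≤ ψ * J := by
    have : 1 / ψ ≤ J := by linarith
    rw [div_le_iff₀ hψ0] at this
    linarith
  have f3 : 1 ≤ (p₀ - u₀) / 2 * J := by
    have : 1 / ((p₀ - u₀) / 2) ≤ J := by linarith
    rw [div_le_iff₀ (by linarith)] at this
    linarith
  have f4 : Real.log 2 + Real.log 7 ≤ h / 2 * J := by
    have : (Real.log 2 + Real.log 7) / (h / 2) ≤ J := by linarith
    rw [div_le_iff₀ (by positivity)] at this
    linarith
  -- the integers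
  have hwJ : ⌊w * J⌋₊ ≤ J := floor_le hw J
  have hw1J : ⌊w₁ * J⌋₊ ≤ ⌊w * J⌋₊ := Nat.floor_le_floor (mul_le_mul_of_nonneg_right hw₁ hJ0)
  have hw2J : ⌊w₂ * J⌋₊ ≤ ⌊w * J⌋₊ := Nat.floor_le_floor (mul_le_mul_of_nonneg_right hw₂ hJ0)
  have huf : ((⌊(u₀ + δ) * J⌋₊ : ℕ) : ℝ) ≤ (u₀ + δ) * J := Nat.floor_le (by positivity)
  have hua1 : ⌊(u₀ + δ) * J⌋₊ + 1 ≤ ⌊p₀ * J⌋₊ := by
    refine Nat.le_floor ?_
    push_cast
    have : (u₀ + δ) * J ≤ (p₀ - (p₀ - u₀) / 2) * J :=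
      mul_le_mul_of_nonneg_right (by linarith) hJ0
    linarith
  have haJ : ⌊p₀ * J⌋₊ ≤ J := floor_le hp0 J
  have huJ1 : ⌊(u₀ + δ) * J⌋₊ ≤ J := by omega
  have hl₁' := hl₁.win hw1J hwJ
  have hl₂' := hl₂.win hw2J hwJ
  obtain ⟨y₁, hy₁⟩ : ∃ y₁ : LnT F → V₁, y₁ = fun s =>
    z₁' (s.1, s.2.1, s.2.2 / 2 ^ (⌊w * J⌋₊ - ⌊w₁ * J⌋₊)) := ⟨_, rfl⟩
  obtain ⟨y₂, hy₂⟩ : ∃ y₂ : LnT F → V₂, y₂ = fun s =>
    z₂' (s.1, s.2.1, s.2.2 / 2 ^ (⌊w * J⌋₊ - ⌊w₂ * J⌋₊)) := ⟨_, rfl⟩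
  rw [← hy₁] at hl₁'
  rw [← hy₂] at hl₂'
  have g1 : ∀ ω, y₁ (slam F ⌊w * J⌋₊ ω) = z₁' (slam F ⌊w₁ * J⌋₊ ω) := fun ω => by
    rw [hy₁]
    show z₁' ((slam F ⌊w * J⌋₊ ω).1, (slam F ⌊w * J⌋₊ ω).2.1,
      (slam F ⌊w * J⌋₊ ω).2.2 / 2 ^ (⌊w * J⌋₊ - ⌊w₁ * J⌋₊)) = _
    rw [← slam_coarse F hw1J hwJ ω]
  have g2 : ∀ ω, y₂ (slam F ⌊w * J⌋₊ ω) = z₂' (slam F ⌊w₂ * J⌋₊ ω) := fun ω => by
    rw [hy₂]
    show z₂' ((slam F ⌊w * J⌋₊ ω).1, (slam F ⌊w * J⌋₊ ω).2.1,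
      (slam F ⌊w * J⌋₊ ω).2.2 / 2 ^ (⌊w * J⌋₊ - ⌊w₂ * J⌋₊)) = _
    rw [← slam_coarse F hw2J hwJ ω]
  refine ⟨V₁ × V₂, fun ω => (y₁ (slam F ⌊w * J⌋₊ ω), y₂ (slam F ⌊w * J⌋₊ ω)), ⟨?_, ?_⟩, ?_⟩
  · obtain ⟨φ, hφ⟩ := hf J F
    refine ⟨fun a => (z₁ (φ a), z₂ (φ a)), fun ω hω => ?_⟩
    show (y₁ (slam F ⌊w * J⌋₊ ω), y₂ (slam F ⌊w * J⌋₊ ω)) = (z₁ (φ (f J F ω)), z₂ (φ (f J F ω)))
    rw [← hφ ω, hl₁'.cls ω hω, hl₂'.cls ω hω]
  · exact ⟨fun s => (y₁ s, y₂ s), fun ω _ => rfl⟩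
  have hexp : C * (ψ * J + ψ * J + 1) / η ≤ min (σ / 8) ((p₀ - u₀) / 2) * Real.log 2 * J := by
    rw [← hψ1]
    have e1 : C * (ψ * J + ψ * J + 1) ≤ C * (3 * ψ) * J := by nlinarith
    calc C * (ψ * J + ψ * J + 1) / η ≤ C * (3 * ψ) * J / η := div_le_div_of_nonneg_right e1 hη0.le
      _ = _ := by ring
  have key := hfam J F A I k ⌊w * J⌋₊ ⌊(u₀ + δ) * J⌋₊ ⌊p₀ * J⌋₊ ⌊lam * J⌋₊ ⌊(p₁ - σ / 4) * J⌋₊
    ⌊(p₂ - σ / 4) * J⌋₊ (2 ^ (N₁ * J)) (2 ^ (N₂ * J)) V₁ V₂ z₁ y₁ G₁ z₂ y₂ G₂ u u' (γ J F) (y J F)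
    (ψ * J) (ψ * J) η (K * J) hA (by linarith) hl₁' hl₂'
    (Nat.floor_le_floor (mul_le_mul_of_nonneg_right (by linarith) hJ0)) hua1 huJ1 (by positivity)
    (by positivity) hη0 hη1 (by positivity) ?_ ?_ (Real.rpow_pos_of_pos (by norm_num) _)
    (Real.rpow_le_rpow_of_exponent_le (by norm_num) (mul_le_mul_of_nonneg_right hN hJ0)) ?_
    (hy J F)
    (fun ω hω => by rw [g1 ω]; exact hu₁ ω hω) (fun ω hω => by rw [g2 ω]; exact hu₂ ω hω) hc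
  · refine key.trans ?_
    have : η * (K * J) ≤ h / 2 * J := by
      calc η * (K * J) = η * K * J := by ring
        _ ≤ h / 2 * J := mul_le_mul_of_nonneg_right hηK hJ0
    linarith
  · have h3 := hF (V₁ × V₂) (fun x => (z₁ x, z₂ x)) (fun x => (y₁ x, y₂ x)) (fun ω hω => by
      rw [hl₁'.cls ω hω, hl₂'.cls ω hω])
    exact h3
  · refine hexp.trans ?_
    rw [Nat.cast_sub huJ1]
    calc min (σ / 8) ((p₀ - u₀) / 2) * Real.log 2 * J ≤ (p₀ - u₀) / 2 * Real.log 2 * J :=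
          mul_le_mul_of_nonneg_right (mul_le_mul_of_nonneg_right (min_le_right _ _) hl2.le) hJ0
      _ = ((p₀ - u₀) / 2 * J) * Real.log 2 := by ring
      _ ≤ ((J : ℝ) - (⌊(u₀ + δ) * J⌋₊ : ℕ)) * Real.log 2 := by
        refine mul_le_mul_of_nonneg_right ?_ hl2.le
        have h1 : (u₀ + δ) * J ≤ (p₀ - (p₀ - u₀) / 2) * J :=
          mul_le_mul_of_nonneg_right (by linarith) hJ0
        have h2 : p₀ * J ≤ 1 * J := mul_le_mul_of_nonneg_right hp0 hJ0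
        linarith
  · -- the exponents
    have a2 : Real.exp (C * (ψ * J + ψ * J + 1) / η) ≤ 2 ^ (σ / 8 * J) := by
      rw [← exp_p2]
      refine Real.exp_le_exp.2 (hexp.trans ?_)
      have : min (σ / 8) ((p₀ - u₀) / 2) * Real.log 2 * J ≤ σ / 8 * Real.log 2 * J :=
        mul_le_mul_of_nonneg_right (mul_le_mul_of_nonneg_right (min_le_left _ _) hl2.le) hJ0
      linarith
    have a3 : 1 / (2 : ℝ) ^ ⌊(p₁ - σ / 4) * J⌋₊ ≤ 2 * 2 ^ (-((p - σ / 4) * J)) := by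
      refine (ip2_le _).trans (mul_le_mul_of_nonneg_left ?_ (by norm_num))
      refine Real.rpow_le_rpow_of_exponent_le (by norm_num) ?_
      have : (p - σ / 4) * J ≤ (p₁ - σ / 4) * J := mul_le_mul_of_nonneg_right (by linarith) hJ0
      linarith
    have a4 : 1 / (2 : ℝ) ^ ⌊(p₂ - σ / 4) * J⌋₊ ≤ 2 * 2 ^ (-((p - σ / 4) * J)) := by
      refine (ip2_le _).trans (mul_le_mul_of_nonneg_left ?_ (by norm_num))
      refine Real.rpow_le_rpow_of_exponent_le (by norm_num) ?_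
      have : (p - σ / 4) * J ≤ (p₂ - σ / 4) * J := mul_le_mul_of_nonneg_right (by linarith) hJ0
      linarith
    have a5 : (2 : ℝ) ^ ⌊(u₀ + δ) * J⌋₊ ≤ 2 ^ ((u₀ + δ) * J) := p2_le (by positivity)
    have a6 : (2 : ℝ) ^ ⌊(u₀ + δ) * J⌋₊ / 2 ^ ⌊p₀ * J⌋₊ ≤ 2 * 2 ^ (-((L - δ) * J)) := by
      rw [div_eq_mul_one_div]
      have e1 := ip2_le (p₀ * J)
      have e2 : (0 : ℝ) < 2 ^ ((u₀ + δ) * J) := Real.rpow_pos_of_pos (by norm_num) _
      calc (2 : ℝ) ^ ⌊(u₀ + δ) * J⌋₊ * (1 / 2 ^ ⌊p₀ * J⌋₊)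
          ≤ 2 ^ ((u₀ + δ) * J) * (2 * 2 ^ (-(p₀ * J))) :=
            mul_le_mul a5 e1 (by positivity) e2.le
        _ = 2 * 2 ^ ((u₀ + δ) * J + -(p₀ * J)) := by
            rw [Real.rpow_add (by norm_num)]
            ring
        _ ≤ 2 * 2 ^ (-((L - δ) * J)) := by
            refine mul_le_mul_of_nonneg_left ?_ (by norm_num)
            refine Real.rpow_le_rpow_of_exponent_le (by norm_num) ?_
            have : (u₀ + δ) * J ≤ (p₀ - (L - δ)) * J :=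
              mul_le_mul_of_nonneg_right (by linarith) hJ0
            linarith
    have a7 : 1 / (2 : ℝ) ^ ⌊lam * J⌋₊ ≤ 2 * 2 ^ (-((L - δ) * J)) := by
      refine (ip2_le _).trans (mul_le_mul_of_nonneg_left ?_ (by norm_num))
      refine Real.rpow_le_rpow_of_exponent_le (by norm_num) ?_
      have : (L - δ) * J ≤ lam * J := mul_le_mul_of_nonneg_right (by linarith) hJ0
      linarith
    have a8 : ((2 : ℝ) ^ ⌊(u₀ + δ) * J⌋₊) ^ j ≤ 2 ^ (j * ((u₀ + δ) * J)) := by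
      refine (pow_le_pow_left₀ (by positivity) a5 j).trans (le_of_eq ?_)
      rw [← Real.rpow_natCast, ← Real.rpow_mul (by norm_num)]
      congr 1
      ring
    have b1 : (0 : ℝ) < 2 ^ (-((p - σ / 4) * J)) := Real.rpow_pos_of_pos (by norm_num) _
    have b2 : (0 : ℝ) < 2 ^ (-((L - δ) * J)) := Real.rpow_pos_of_pos (by norm_num) _
    have b3 : (0 : ℝ) < 2 ^ (σ / 8 * J) := Real.rpow_pos_of_pos (by norm_num) _
    have b4 : (0 : ℝ) < 2 ^ (N₂ * J) := Real.rpow_pos_of_pos (by norm_num) _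
    have b5 : (0 : ℝ) < 2 ^ (j * ((u₀ + δ) * J)) := Real.rpow_pos_of_pos (by norm_num) _
    have c1 : Real.exp (C * (ψ * J + ψ * J + 1) / η) *
        (1 / 2 ^ ⌊(p₁ - σ / 4) * J⌋₊ + 1 / 2 ^ ⌊(p₂ - σ / 4) * J⌋₊) ≤
        2 ^ (σ / 8 * J) * (4 * 2 ^ (-((p - σ / 4) * J))) := by
      refine mul_le_mul a2 (by linarith) (by positivity) b3.le
    have c2 : (2 : ℝ) ^ ⌊(u₀ + δ) * J⌋₊ / 2 ^ ⌊p₀ * J⌋₊ + 1 / 2 ^ ⌊lam * J⌋₊ ≤
        4 * 2 ^ (-((L - δ) * J)) := by linarith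
    calc (2 : ℝ) ^ (N₂ * J) * (C * (Real.exp (C * (ψ * J + ψ * J + 1) / η) *
          (1 / 2 ^ ⌊(p₁ - σ / 4) * J⌋₊ + 1 / 2 ^ ⌊(p₂ - σ / 4) * J⌋₊)) *
          (2 ^ ⌊(u₀ + δ) * J⌋₊ / 2 ^ ⌊p₀ * J⌋₊ + 1 / 2 ^ ⌊lam * J⌋₊) * (2 ^ ⌊(u₀ + δ) * J⌋₊) ^ j)
        ≤ 2 ^ (N₂ * J) * (C * (2 ^ (σ / 8 * J) * (4 * 2 ^ (-((p - σ / 4) * J)))) *
          (4 * 2 ^ (-((L - δ) * J))) * 2 ^ (j * ((u₀ + δ) * J))) := by
          refine mul_le_mul_of_nonneg_left ?_ b4.le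
          refine mul_le_mul ?_ a8 (by positivity) (by positivity)
          refine mul_le_mul ?_ c2 (by positivity) (by positivity)
          exact mul_le_mul_of_nonneg_left c1 hC0.le
      _ = 16 * C * (2 ^ (N₂ * J) * 2 ^ (σ / 8 * J) * 2 ^ (-((p - σ / 4) * J)) *
          2 ^ (-((L - δ) * J)) * 2 ^ (j * ((u₀ + δ) * J))) := by ring
      _ = 16 * C * 2 ^ (N₂ * J + σ / 8 * J + -((p - σ / 4) * J) + -((L - δ) * J) +
          j * ((u₀ + δ) * J)) := by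
          rw [Real.rpow_add (by norm_num), Real.rpow_add (by norm_num),
            Real.rpow_add (by norm_num), Real.rpow_add (by norm_num)]
      _ ≤ 16 * C * 2 ^ (-(σ / 8 * J)) := by
          refine mul_le_mul_of_nonneg_left ?_ (by positivity)
          refine Real.rpow_le_rpow_of_exponent_le (by norm_num) ?_
          have e1 : N₂ * J + σ / 8 * J + -((p - σ / 4) * J) + -((L - δ) * J) +
              j * ((u₀ + δ) * J) =
              (N₂ + j * u₀ - (p + L) + σ / 8 + σ / 4 + ((j : ℝ) + 1) * δ) * J := by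
            ring
          rw [e1]
          have : (N₂ + j * u₀ - (p + L) + σ / 8 + σ / 4 + ((j : ℝ) + 1) * δ) * J ≤
              (-(σ / 8)) * J :=
            mul_le_mul_of_nonneg_right (by linarith) hJ0
          linarith
      _ ≤ 1 := by
          have e1 : 16 * C = Real.exp (Real.log (16 * C)) := (Real.exp_log (by positivity)).symm
          rw [← exp_p2, e1, ← Real.exp_add, Real.exp_le_one_iff]
          linarith

/-- **To the natural digits of the own window, with some room, the jets are few bits.** -/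
theorem few0_room {S : PCl m} {C₀ : ℝ} (htm : TmC S C₀) {I : Finset (Fin m)} {k : Fin m} {j : ℕ}
    {w p N ρ : ℝ} (hw0 : 0 ≤ w) (hw1 : w < 1) (hρ : 0 < ρ) (hN : N + j * w + ρ ≤ p)
    {α β γ : ∀ J : ℕ, Fam m J → Type} (f : ∀ (J : ℕ) (F : Fam m J), F.Ω → α J F)
    (g : ∀ (J : ℕ) (F : Fam m J), F.Ω → β J F) (y : ∀ (J : ℕ) (F : Fam m J), F.Ω → γ J F)
    {h : ℝ} (hh : 0 < h) : F0 S f g y (qJet m I k j w p N) (ρ / 4) h := by
  classical
  intro K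
  obtain ⟨η, hη⟩ : ∃ η : ℝ, η = h / (2 * ((K : ℝ) + 1)) := ⟨_, rfl⟩
  have hη0 : 0 < η := by
    rw [hη]
    positivity
  have hηK : η * K ≤ h / 2 := by
    rw [hη, div_mul_eq_mul_div, div_le_iff₀ (by positivity)]
    have : (0 : ℝ) ≤ K := Nat.cast_nonneg K
    nlinarith
  obtain ⟨J₃, hJ₃⟩ := exists_nat_ge ((Real.log 2 + Real.log 7) / (h / 2))
  refine Bas.mono J₃ ((own_cls htm I k j K hw0 hw1 hη0 (show 0 < ρ / 4 by linarith)).and
    (Pool.GRW.tmc_bas htm one_pos)) ?_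
  rintro J hJ F A ⟨hbad, hA, -⟩ u ⟨hc, V, z, z', G, hlb, hu⟩
  have hJ0 : (0 : ℝ) ≤ J := Nat.cast_nonneg J
  have hJ3 : (J₃ : ℝ) ≤ J := by exact_mod_cast hJ
  have hl7 : 0 < Real.log 7 := Real.log_pos (by norm_num)
  have f4 : Real.log 2 + Real.log 7 ≤ h / 2 * J := by
    have : (Real.log 2 + Real.log 7) / (h / 2) ≤ J := hJ₃.trans hJ3
    rw [div_le_iff₀ (by positivity)] at this
    linarith
  refine ⟨Unit, fun _ => (), ⟨⟨fun _ => (), fun _ _ => rfl⟩, fun _ => (), fun _ _ => rfl⟩, ?_⟩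
  have key := Pool.LA91.CH_near (isLaw_cond F.isLaw hA) u (fun ω => ((), y J F ω)) (fun _ => 0)
    (fun ω => ¬ |ojet F k j (G (z' (slam F ⌊w * J⌋₊ ω))) ω| ≤
      2 ^ ((ρ / 4 + j * w) * J) * (1 / 2 ^ ⌊(p - ρ / 4) * J⌋₊)) (M := K * J) (D := 3)
    (hbad _ V z z' G hlb) (by positivity) (by norm_num)
    (le_trans (by exact_mod_cast cnt_cond_le F.isLaw u A) hc) (by
      intro ω hω hgood
      rw [not_not] at hgood
      rw [hu ω (of_cond_pos hω)]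
      obtain ⟨o, ho⟩ : ∃ o, o = ojet F k j (G (z' (slam F ⌊w * J⌋₊ ω))) ω := ⟨_, rfl⟩
      rw [← ho] at hgood ⊢
      have h3 : |(2 : ℝ) ^ (N * J) * o| ≤ 2 := by
        rw [abs_mul, abs_of_pos (by positivity)]
        have a2 := ip2_le ((p - ρ / 4) * J)
        have b3 : (0 : ℝ) < 2 ^ (N * J) := Real.rpow_pos_of_pos (by norm_num) _
        have b4 : (0 : ℝ) < 2 ^ ((ρ / 4 + j * w) * J) := Real.rpow_pos_of_pos (by norm_num) _
        calc (2 : ℝ) ^ (N * J) * |o| ≤ 2 ^ (N * J) * (2 ^ ((ρ / 4 + j * w) * J) *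
              (2 * 2 ^ (-((p - ρ / 4) * J)))) := by
              refine mul_le_mul_of_nonneg_left (hgood.trans ?_) b3.le
              exact mul_le_mul_of_nonneg_left a2 b4.le
          _ = 2 * (2 ^ (N * J) * 2 ^ ((ρ / 4 + j * w) * J) * 2 ^ (-((p - ρ / 4) * J))) := by ring
          _ = 2 * 2 ^ (N * J + (ρ / 4 + j * w) * J + -((p - ρ / 4) * J)) := by
              rw [Real.rpow_add (by norm_num), Real.rpow_add (by norm_num)]
          _ ≤ 2 * 1 := by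
              refine mul_le_mul_of_nonneg_left ?_ (by norm_num)
              refine Real.rpow_le_one_of_one_le_of_nonpos (by norm_num) ?_
              have e1 : N * J + (ρ / 4 + j * w) * J + -((p - ρ / 4) * J) =
                  (N + j * w - p + ρ / 2) * J := by ring
              rw [e1]
              exact mul_nonpos_of_nonpos_of_nonneg (by linarith) hJ0
          _ = 2 := mul_one 2
      have h4 := Int.floor_le ((2 : ℝ) ^ (N * J) * o)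
      have h5 := Int.lt_floor_add_one ((2 : ℝ) ^ (N * J) * o)
      have h6 := abs_le.1 h3
      rw [sub_zero, abs_le]
      constructor <;> linarith [h6.1, h6.2])
  refine key.trans ?_
  have h7 : Real.log (2 * 3 + 1) = Real.log 7 := by norm_num
  have h8 : η * (K * J) ≤ h / 2 * J := by
    calc η * (K * J) = η * K * J := by ring
      _ ≤ h / 2 * J := mul_le_mul_of_nonneg_right hηK hJ0
  rw [h7]
  linarith

/-! ### Chains -/

section chain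

variable {α γ : ∀ J : ℕ, Fam m J → Type} {f : ∀ (J : ℕ) (F : Fam m J), F.Ω → α J F}
  {y : ∀ (J : ℕ) (F : Fam m J), F.Ω → γ J F}

theorem F0.trans {U U' : Type} {β : ∀ J : ℕ, Fam m J → Type}
    {g : ∀ (J : ℕ) (F : Fam m J), F.Ω → β J F} {S : PCl m} {C₀ : ℝ} (htm : TmC S C₀)
    {Q : Qt m U} {Q' : Qt m U'} (x : Exs S Q) {e h₁ h₂ : ℝ} (he : 0 < e)
    (h0 : F0 S f g y Q e h₁) (hf : F1 S f g y Q Q' e h₂) : F0 S f g y Q' e (h₁ + h₂) := by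
  intro K
  obtain ⟨K₀, M₀, hx⟩ := x e he
  refine Bas.mono 0 (((h0 (max K K₀)).and (hf (max K K₀))).and
    (hx.and (Pool.GRW.tmc_bas htm one_pos))) ?_
  rintro J - F A ⟨⟨H1, H2⟩, ⟨u, hu, -⟩, hA, -⟩ u' hu'
  have hcl := isLaw_cond F.isLaw hA
  obtain ⟨V, z, hz, h1⟩ := H1 u (Q.mono (le_max_right _ _) le_rfl hu)
  obtain ⟨V', z', hz', h2⟩ := H2 u u' (Q.mono (le_max_right _ _) le_rfl hu)
    (Q'.mono (le_max_left _ _) le_rfl hu')
  refine ⟨V × V', fun ω => (z ω, z' ω), hz.join hz', ?_⟩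
  have h3 := CH_le_add hcl.nonneg u' u (fun ω => ((z ω, z' ω), y J F ω))
  have h4 : CH (Pool.Agent.H49.Ent.cond F.p A True) u (fun ω => ((z ω, z' ω), y J F ω)) ≤
      CH (Pool.Agent.H49.Ent.cond F.p A True) u (fun ω => (z ω, y J F ω)) := by
    refine CH_mono_cond hcl.nonneg fun ω ω' _ _ hh => ?_
    simp only [Prod.mk.injEq] at hh ⊢
    exact ⟨hh.1.1, hh.2⟩
  have h5 : CH (Pool.Agent.H49.Ent.cond F.p A True) u'
      (fun ω => (u ω, ((z ω, z' ω), y J F ω))) ≤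
      CH (Pool.Agent.H49.Ent.cond F.p A True) u' (fun ω => (u ω, (z' ω, y J F ω))) := by
    refine CH_mono_cond hcl.nonneg fun ω ω' _ _ hh => ?_
    simp only [Prod.mk.injEq] at hh ⊢
    exact ⟨hh.1, hh.2.1.2, hh.2.2⟩
  have h6 : (h₁ + h₂) * J = h₁ * J + h₂ * J := by ring
  linarith

theorem cl2_vg {b a : ℝ} (hba : b ≤ a) (ha : a ≤ 1) {V : Type} {J : ℕ} {F : Fam m J}
    {A : F.Ω → Prop} {z : F.Ω → V} (h : Cl2 (f J F) (vg b J F) A z) :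
    Cl2 (f J F) (vg a J F) A z := by
  obtain ⟨φ, hφ⟩ := vg_mono hba ha J F
  exact h.mono ⟨fun x => x, fun _ _ => rfl⟩ ⟨φ, fun ω _ => hφ ω⟩

theorem F1.up {U U' : Type} {S : PCl m} {Q : Qt m U} {Q' : Qt m U'} {e η b a : ℝ} (hba : b ≤ a)
    (ha : a ≤ 1) (h : F1 S f (vg b) y Q Q' e η) :
    F1 S f (vg a) y Q Q' e η := by
  intro K
  refine Bas.mono 0 (h K) ?_
  rintro J - F A h1 u u' hu hu'
  obtain ⟨V, z, hz, h2⟩ := h1 u u' hu hu'
  exact ⟨V, z, cl2_vg hba ha hz, h2⟩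

/-- **A chain of windows.** -/
theorem chain {S : PCl m} {C₀ : ℝ} (htm : TmC S C₀) {I : Finset (Fin m)} {κ : Fin m} {j : ℕ}
    {a r p₀ lam N ρ : ℝ} (hr : 0 ≤ r) (ha : a < 1) (hap : a < p₀) (hp0 : p₀ ≤ 1)
    (hf : ∀ (J : ℕ) (F : Fam m J), ∃ φ : α J F → PtT F, ∀ ω, ptr F J ω = φ (f J F ω))
    (hy : Kn I p₀ lam y) (hρ : 0 < ρ) (b P : ℕ → ℝ) : ∀ n : ℕ,
    (∀ i ≤ n, 0 ≤ b i) → (∀ i ≤ n, b i ≤ a) → (∀ i ≤ n, Att S I κ (b i) (P i) r) →
    (∀ i ≤ n, ∀ u : ℝ, b i < u → u < 1 → Ful S I (b i) u) → N + j * b 0 + ρ ≤ P 0 →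
    (∀ i < n, N + j * max (b i) (b (i + 1)) + ρ ≤
      min (P i) (P (i + 1)) + min lam (p₀ - max (b i) (b (i + 1)))) →
    ∀ h : ℝ, 0 < h → F0 S f (vg a) y (qJet m I κ j (b n) (P n) N) (ρ / 4) h := by
  intro n
  induction n with
  | zero =>
    intro h0 h1 h2 h3 h4 h5 h hh
    exact few0_room htm (h0 0 le_rfl) (lt_of_le_of_lt (h1 0 le_rfl) ha) hρ h4 f (vg a) y hh
  | succ n ih =>
    intro h0 h1 h2 h3 h4 h5 h hh
    have e1 := ih (fun i hi => h0 i (by omega)) (fun i hi => h1 i (by omega))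
      (fun i hi => h2 i (by omega)) (fun i hi => h3 i (by omega)) h4
      (fun i hi => h5 i (by omega)) (h / 2) (half_pos hh)
    have hm1 : max (b n) (b (n + 1)) ≤ a := max_le (h1 n (by omega)) (h1 (n + 1) le_rfl)
    have e2 := few_jet_e (y := y) htm (I := I) (k := κ) (j := j)
      (w := max (b n) (b (n + 1))) (w₁ := b n) (w₂ := b (n + 1)) (p₁ := P n) (p₂ := P (n + 1))
      (N₁ := N) (N₂ := N) (p₀ := p₀) (lam := lam) (u₀ := max (b n) (b (n + 1)))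
      (le_max_left _ _) (le_max_right _ _) (hm1.trans ha.le) le_rfl
      ((h0 n (by omega)).trans (le_max_left _ _)) (lt_of_le_of_lt hm1 hap) hp0 (by
        intro u hu hu1
        rcases max_cases (b n) (b (n + 1)) with ⟨e, -⟩ | ⟨e, -⟩
        · rw [e] at hu ⊢
          exact h3 n (by omega) u hu hu1
        · rw [e] at hu ⊢
          exact h3 (n + 1) le_rfl u hu hu1) hf hy le_rfl hρ (h5 n (by omega)) (half_pos hh)
    have e3 := F0.trans htm (exs_jet hr (h2 n (by omega))) (by positivity) e1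
      (e2.up hm1 ha.le)
    have e4 : h / 2 + h / 2 = h := by ring
    rwa [e4] at e3

/-- The data of the profile of the heights. -/
structure Prof (S : PCl m) (I : Finset (Fin m)) (κ : Fin m) (P : ℝ → ℝ) (r b₀ a S₁ S₂ τ : ℝ) :
    Prop where
  att : ∀ b : ℝ, b₀ ≤ b → b ≤ a → Att S I κ b (P b) r
  ful : ∀ b : ℝ, b₀ ≤ b → b ≤ a → ∀ u : ℝ, b < u → u < 1 → Ful S I b u
  lo : ∀ b b' : ℝ, b₀ ≤ b → b ≤ b' → b' ≤ a → S₁ * (b' - b) - τ ≤ P b' - P b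
  up : ∀ b b' : ℝ, b₀ ≤ b → b ≤ b' → b' ≤ a → P b' - P b ≤ S₂ * (b' - b) + τ

/-- **The jets of large order.** -/
theorem jets_hi {S : PCl m} {C₀ : ℝ} (htm : TmC S C₀) {I : Finset (Fin m)} {κ : Fin m}
    {P : ℝ → ℝ} {r b₀ a S₁ S₂ τ w q lam ρ : ℝ} (hr : 0 ≤ r) (hb₀ : 0 ≤ b₀) (hbw : b₀ ≤ w)
    (hwa : w ≤ a) (ha : a < w + lam) (hwl : w + lam ≤ 1) (hS₁ : 0 ≤ S₁) (hS₂ : 0 ≤ S₂)
    (hP : Prof S I κ P r b₀ a S₁ S₂ τ)
    (hf : ∀ (J : ℕ) (F : Fam m J), ∃ φ : α J F → PtT F, ∀ ω, ptr F J ω = φ (f J F ω))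
    (hy : Kn I (w + lam) lam y) (hρ : 0 < ρ) (hτ : 0 ≤ τ) (hlam : q + ρ + 2 * τ < lam) {j : ℕ}
    (hj : S₂ ≤ j) (hj2 : q + ρ + τ ≤ (j - S₂) * (w - b₀)) {h : ℝ} (hh : 0 < h) :
    F0 S f (vg a) y (qJet m I κ j w (P w) (P w + q - j * w)) (ρ / 4) h := by
  obtain ⟨n, hn⟩ := exists_nat_ge (S₂ * (w - b₀) / (lam - (q + ρ + 2 * τ)) + 1)
  have hd : 0 < lam - (q + ρ + 2 * τ) := by linarith
  have hwb : 0 ≤ w - b₀ := by linarith
  have t1 : 0 ≤ S₂ * (w - b₀) / (lam - (q + ρ + 2 * τ)) := by positivity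
  have hn0 : (0 : ℝ) < n := by linarith
  have hmesh : S₂ * ((w - b₀) / n) ≤ lam - (q + ρ + 2 * τ) := by
    rw [mul_div_assoc', div_le_iff₀ hn0]
    have : S₂ * (w - b₀) / (lam - (q + ρ + 2 * τ)) ≤ n := by linarith
    rw [div_le_iff₀ hd] at this
    linarith
  obtain ⟨μ, hμ⟩ : ∃ μ : ℝ, μ = (w - b₀) / n := ⟨_, rfl⟩
  have hμ0 : 0 ≤ μ := by
    rw [hμ]
    positivity
  have hnμ : n * μ = w - b₀ := by
    rw [hμ]
    field_simp
  rw [← hμ] at hmesh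
  obtain ⟨b, hb⟩ : ∃ b : ℕ → ℝ, b = fun i : ℕ => b₀ + i * μ := ⟨_, rfl⟩
  have hb0 : b 0 = b₀ := by
    rw [hb]
    simp
  have hbn : b n = w := by
    rw [hb]
    dsimp only
    linarith
  have hbi : ∀ i ≤ n, b₀ ≤ b i ∧ b i ≤ w := by
    intro i hi
    rw [hb]
    dsimp only
    have h1 : (0 : ℝ) ≤ i * μ := by positivity
    have h2 : (i : ℝ) * μ ≤ n * μ := mul_le_mul_of_nonneg_right (by exact_mod_cast hi) hμ0
    constructor <;> linarith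
  have hbs : ∀ i : ℕ, b (i + 1) = b i + μ := by
    intro i
    rw [hb]
    push_cast
    ring
  have key := chain (y := y) htm (I := I) (κ := κ) (j := j) (a := a) (r := r) (p₀ := w + lam)
    (lam := lam) (N := P w + q - j * w) (ρ := ρ) hr (by linarith) ha hwl hf hy hρ b
    (fun i => P (b i)) n (fun i hi => hb₀.trans (hbi i hi).1)
    (fun i hi => (hbi i hi).2.trans hwa)
    (fun i hi => hP.att _ (hbi i hi).1 ((hbi i hi).2.trans hwa))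
    (fun i hi => hP.ful _ (hbi i hi).1 ((hbi i hi).2.trans hwa)) ?_ ?_ h hh
  · simp only [hbn] at key
    exact key
  · have h1 := hP.up b₀ w le_rfl hbw hwa
    simp only [hb0]
    linarith
  · intro i hi
    have h2 := (hbi i hi.le).1
    have h3 := (hbi (i + 1) hi).2
    have e1 : max (b i) (b (i + 1)) = b (i + 1) := by
      rw [hbs]
      exact max_eq_right (by linarith)
    rw [e1]
    have h4 := hP.up (b (i + 1)) w ((hbi (i + 1) hi).1) h3 hwa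
    have h5 := hP.up (b i) (b (i + 1)) h2 (by rw [hbs]; linarith) (h3.trans hwa)
    have h6 := hP.lo (b i) (b (i + 1)) h2 (by rw [hbs]; linarith) (h3.trans hwa)
    have h7 : b (i + 1) - b i = μ := by
      rw [hbs]
      ring
    rw [h7] at h5 h6
    have h8 : S₂ * (w - b (i + 1)) ≤ j * (w - b (i + 1)) :=
      mul_le_mul_of_nonneg_right hj (by linarith)
    have h9 : 0 ≤ S₁ * μ := by positivity
    have g1 : min lam (w + lam - b (i + 1)) = lam := min_eq_left (by linarith)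
    rw [g1]
    rcases min_cases (P (b i)) (P (b (i + 1))) with ⟨e, -⟩ | ⟨e, -⟩
    · rw [e]
      linarith
    · rw [e]
      linarith

/-- **The jets of small order.** -/
theorem jets_lo {S : PCl m} {C₀ : ℝ} (htm : TmC S C₀) {I : Finset (Fin m)} {κ : Fin m}
    {P : ℝ → ℝ} {r b₀ a S₁ S₂ τ w q lam ρ : ℝ} (hr : 0 ≤ r) (hb₀ : 0 ≤ b₀) (hbw : b₀ ≤ w)
    (hwa : w ≤ a) (ha : a < w + lam) (hwl : w + lam ≤ 1)
    (hP : Prof S I κ P r b₀ a S₁ S₂ τ)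
    (hf : ∀ (J : ℕ) (F : Fam m J), ∃ φ : α J F → PtT F, ∀ ω, ptr F J ω = φ (f J F ω))
    (hy : Kn I (w + lam) lam y) (hρ : 0 < ρ) (hτ : 0 ≤ τ) (hlam : q + ρ + 2 * τ < lam) {j : ℕ}
    (hj : (j : ℝ) + 1 ≤ S₁) (hj2 : q + ρ + τ ≤ (S₁ - j) * (a - w)) {h : ℝ} (hh : 0 < h) :
    F0 S f (vg a) y (qJet m I κ j w (P w) (P w + q - j * w)) (ρ / 4) h := by
  obtain ⟨n, hn⟩ := exists_nat_ge (S₁ * (a - w) / (lam - (q + ρ + 2 * τ)) + 1)
  have hd : 0 < lam - (q + ρ + 2 * τ) := by linarith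
  have hwb : 0 ≤ a - w := by linarith
  have hj0 : (0 : ℝ) ≤ j := Nat.cast_nonneg j
  have hS₁ : 0 ≤ S₁ := by linarith
  have t1 : 0 ≤ S₁ * (a - w) / (lam - (q + ρ + 2 * τ)) := by positivity
  have hn0 : (0 : ℝ) < n := by linarith
  have hmesh : S₁ * ((a - w) / n) ≤ lam - (q + ρ + 2 * τ) := by
    rw [mul_div_assoc', div_le_iff₀ hn0]
    have : S₁ * (a - w) / (lam - (q + ρ + 2 * τ)) ≤ n := by linarith
    rw [div_le_iff₀ hd] at this
    linarith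
  obtain ⟨μ, hμ⟩ : ∃ μ : ℝ, μ = (a - w) / n := ⟨_, rfl⟩
  have hμ0 : 0 ≤ μ := by
    rw [hμ]
    positivity
  have hnμ : n * μ = a - w := by
    rw [hμ]
    field_simp
  rw [← hμ] at hmesh
  obtain ⟨b, hb⟩ : ∃ b : ℕ → ℝ, b = fun i : ℕ => a - i * μ := ⟨_, rfl⟩
  have hb0 : b 0 = a := by
    rw [hb]
    simp
  have hbn : b n = w := by
    rw [hb]
    dsimp only
    linarith
  have hbi : ∀ i ≤ n, w ≤ b i ∧ b i ≤ a := by
    intro i hi
    rw [hb]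
    dsimp only
    have h1 : (0 : ℝ) ≤ i * μ := by positivity
    have h2 : (i : ℝ) * μ ≤ n * μ := mul_le_mul_of_nonneg_right (by exact_mod_cast hi) hμ0
    constructor <;> linarith
  have hbs : ∀ i : ℕ, b (i + 1) = b i - μ := by
    intro i
    rw [hb]
    push_cast
    ring
  have key := chain (y := y) htm (I := I) (κ := κ) (j := j) (a := a) (r := r) (p₀ := w + lam)
    (lam := lam) (N := P w + q - j * w) (ρ := ρ) hr (by linarith) ha hwl hf hy hρ b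
    (fun i => P (b i)) n (fun i hi => hb₀.trans (hbw.trans (hbi i hi).1))
    (fun i hi => (hbi i hi).2)
    (fun i hi => hP.att _ (hbw.trans (hbi i hi).1) (hbi i hi).2)
    (fun i hi => hP.ful _ (hbw.trans (hbi i hi).1) (hbi i hi).2) ?_ ?_ h hh
  · simp only [hbn] at key
    exact key
  · have h1 := hP.lo w a hbw hwa le_rfl
    simp only [hb0]
    linarith
  · intro i hi
    have h2 := hbi i hi.le
    have h3 := hbi (i + 1) hi
    have e1 : max (b i) (b (i + 1)) = b i := by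
      rw [hbs]
      exact max_eq_left (by linarith)
    rw [e1]
    have h4 := hP.lo w (b i) hbw h2.1 h2.2
    have h5 := hP.lo w (b (i + 1)) hbw h3.1 h3.2
    have h7 : b (i + 1) = b i - μ := hbs i
    have h8 : (j + 1) * (b i - w) ≤ S₁ * (b i - w) :=
      mul_le_mul_of_nonneg_right hj (by linarith [h2.1])
    have g1 : min lam (w + lam - b i) = w + lam - b i := min_eq_right (by linarith [h2.1])
    rw [g1]
    rcases min_cases (P (b i)) (P (b (i + 1))) with ⟨e, -⟩ | ⟨e, -⟩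
    · rw [e]
      linarith
    · rw [e]
      rw [h7] at h5 ⊢
      linarith

/-- **The hypothesis `JetH`**, from the profile of the heights. -/
theorem jetH_of {S : PCl m} {C₀ : ℝ} (htm : TmC S C₀) {I : Finset (Fin m)} {κ : Fin m}
    {P : ℝ → ℝ} {r b₀ a S₁ S₂ τ w q lam ρ δ : ℝ} (hr : 0 ≤ r) (hb₀ : 0 ≤ b₀) (hbw : b₀ ≤ w)
    (hwa : w ≤ a) (ha : a < w + lam) (hwl : w + lam ≤ 1)
    (hP : Prof S I κ P r b₀ a S₁ S₂ τ)
    (hf : ∀ (J : ℕ) (F : Fam m J), ∃ φ : α J F → PtT F, ∀ ω, ptr F J ω = φ (f J F ω))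
    (hy : Kn I (w + lam) lam y) (hρ : 0 < ρ) (hτ : 0 ≤ τ) (hlam : q + ρ + 2 * τ < lam) {k : ℕ}
    (hS₁ : (k : ℝ) ≤ S₁) (hS₂ : S₂ ≤ k + 1) (hS₂0 : 0 ≤ S₂)
    (h1 : q + ρ + τ ≤ (k + 1 - S₂) * (w - b₀)) (h2 : q + ρ + τ ≤ a - w)
    (hδ : 0 ≤ δ) : JetH S f (vg a) y I κ k w (P w) q δ := by
  refine ⟨0, fun _ => 0, ρ / 4, by positivity, fun _ => le_rfl, by simpa using hδ,
    fun j hj => absurd hj (Nat.not_lt_zero j), fun j _ hjk h hh => ?_⟩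
  have hS₁0 : 0 ≤ S₁ := le_trans (Nat.cast_nonneg k) hS₁
  rcases Nat.lt_or_gt_of_ne hjk with hlt | hgt
  · have h3 : (j : ℝ) + 1 ≤ k := by exact_mod_cast hlt
    refine jets_lo htm hr hb₀ hbw hwa ha hwl hP hf hy hρ hτ hlam (by linarith) ?_ hh
    have h4 : 1 * (a - w) ≤ (S₁ - j) * (a - w) :=
      mul_le_mul_of_nonneg_right (by linarith) (by linarith)
    linarith
  · have h3 : (k : ℝ) + 1 ≤ j := by exact_mod_cast hgt
    refine jets_hi htm hr hb₀ hbw hwa ha hwl hS₁0 hS₂0 hP hf hy hρ hτ hlam (by linarith) ?_ hh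
    have h4 : (k + 1 - S₂) * (w - b₀) ≤ (j - S₂) * (w - b₀) :=
      mul_le_mul_of_nonneg_right (by linarith) (by linarith)
    linarith

end chain

end Pool.OWN68
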