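import Pool.Agent.H68.OWN.Js

/-!
# The rows of the own height are not full

`nfh_of`: if the rows of the coordinate `κ` are not full given the exact point over `I`, the point
over `I` is full behind `U J` digits given the ball `a`, and the own height to `p + q` digits is few
bits given the ball and the point to `U J` digits, then the rows of the own height over the labels
of the window `w` are not full given the label and the point over `I` to `U J` digits.
-/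

set_option autoImplicit false

namespace Pool.OWN68

open Finset Real MvPolynomial
open Pool.Agent.H49.Ent Pool.Agent.H32.Dense Pool.STK Pool.KA Pool.KSAT Pool.K2S Pool.PB Pool.GEN
open Pool.S6C Pool.RCD Pool.LA91
open Pool.GRD (LbP Pb_mono_pos)
open Pool.UNJ (ceI Tub)
open Pool.BFL (Pb)

variable {m J : ℕ}

/-- The number of the values of the digits behind `u`. -/
theorem ceI_cnt {F : Fam m J} {p : F.Ω → ℝ} (hp : IsLaw p) (I : Finset (Fin m)) {u : ℕ}
    (hu : u ≤ J) : CH p (fun ω => ceI I (fun _ => J) (F.x ω))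
      (fun ω => ceI I (fun _ => u) (F.x ω)) ≤ I.card * (((J - u : ℕ) : ℝ) * Real.log 2) := by
  classical
  have h0 := hp.nonneg
  refine (CH_pis h0 _ _).trans ?_
  have h1 : ∀ i ∈ (univ : Finset (Fin m)), CH p (fun ω => ceI I (fun _ => J) (F.x ω) i)
      (fun ω => ceI I (fun _ => u) (F.x ω)) ≤
      if i ∈ I then ((J - u : ℕ) : ℝ) * Real.log 2 else 0 := by
    intro i _
    by_cases hi : i ∈ I
    · rw [if_pos hi]
      have h2 := CH_le_card h0 hp.sum_one (fun ω => ceI I (fun _ => J) (F.x ω) i)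
        (fun ω => ceI I (fun _ => u) (F.x ω))
        (fun b => Finset.Ico (b i * 2 ^ (J - u)) ((b i + 1) * 2 ^ (J - u))) (fun ω _ => by
          have e1 : ceI I (fun _ => J) (F.x ω) i = ⌊(2 : ℝ) ^ J * F.x ω i⌋ := if_pos hi
          have e2 : ceI I (fun _ => u) (F.x ω) i = ⌊(2 : ℝ) ^ u * F.x ω i⌋ := if_pos hi
          have e3 : (2 : ℝ) ^ J = 2 ^ u * 2 ^ (J - u) := by
            rw [← pow_add]
            congr 1
            omega
          have hp0 : (0 : ℝ) < 2 ^ (J - u) := by positivity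
          rw [e1, e2, Finset.mem_Ico]
          constructor
          · rw [Int.le_floor]
            push_cast
            rw [e3]
            have := Int.floor_le ((2 : ℝ) ^ u * F.x ω i)
            nlinarith
          · rw [Int.floor_lt]
            push_cast
            rw [e3]
            have := Int.lt_floor_add_one ((2 : ℝ) ^ u * F.x ω i)
            nlinarith)
      refine h2.trans (le_of_eq ?_)
      have e4 : ∀ b : Fin m → ℤ, ((Finset.Ico (b i * 2 ^ (J - u))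
          ((b i + 1) * 2 ^ (J - u))).card : ℝ) = 2 ^ (J - u) := by
        intro b
        rw [Int.card_Ico]
        have e5 : (b i + 1) * 2 ^ (J - u) - b i * 2 ^ (J - u) = ((2 ^ (J - u) : ℕ) : ℤ) := by
          push_cast
          ring
        rw [e5, Int.toNat_natCast]
        push_cast
        rfl
      simp only [e4]
      rw [Ex_const hp.sum_one, Real.log_pow]
    · rw [if_neg hi]
      refine le_of_eq (CH_eq_zero h0 fun ω ω' _ _ _ => ?_)
      unfold ceI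
      rw [if_neg hi, if_neg hi]
  refine (Finset.sum_le_sum h1).trans (le_of_eq ?_)
  rw [Finset.sum_ite_mem, Finset.univ_inter, Finset.sum_const, nsmul_eq_mul]

/-- The point to `U J` digits over `I`. -/
noncomputable def bI (I : Finset (Fin m)) (U : ℝ) (J : ℕ) (F : Fam m J) (ω : F.Ω) : Fin m → ℤ :=
  ceI I (fun _ => ⌊U * J⌋₊) (F.x ω)

theorem kn0_bI (I : Finset (Fin m)) (U : ℝ) :
    Kn0 I U (fun J F ω => (bI I U J F ω, F.W ω)) := fun _ _ =>
  ⟨fun x => (x.2.1, x.1), fun _ => rfl⟩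

/-- **The rows of `κ` are not full** given the exact point over `I`. -/
def RawN (S : PCl m) (I : Finset (Fin m)) (κ : Fin m) (p q h δ : ℝ) : Prop :=
  ∀ x : ℝ, 0 ≤ x → x ≤ q → Bas S (fun J F A =>
    CH (Pool.Agent.H49.Ent.cond F.p A True) (fun ω => F.X ⌊(p + q) * J⌋₊ ω κ)
      (fun ω => (F.X ⌊(p + x) * J⌋₊ ω κ, (ceI I (fun _ => J) (F.x ω), F.W ω))) ≤
      ((1 - h) * (q - x) * Real.log 2 + δ) * J)

theorem CH_exch {Ω S T U : Type} [Fintype Ω] {p : Ω → ℝ} (hp : ∀ ω, 0 ≤ p ω) (H : Ω → S)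
    (V : Ω → T) (Y : Ω → U) : CH p H Y = CH p V Y + CH p H (fun ω => (V ω, Y ω)) -
      CH p V (fun ω => (H ω, Y ω)) := by
  have h1 := CH_chain hp H V Y
  have h2 := CH_chain hp V H Y
  have h3 : CH p (fun ω => (H ω, V ω)) Y = CH p (fun ω => (V ω, H ω)) Y := by
    refine CH_congr hp ?_ ?_ (fun _ _ _ _ e => e) (fun _ _ _ _ e => e)
    · intro ω ω' _ _ e
      simp only [Prod.mk.injEq] at e ⊢
      exact ⟨e.1.2, e.1.1⟩
    · intro ω ω' _ _ e
      simp only [Prod.mk.injEq] at e ⊢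
      exact ⟨e.1.2, e.1.1⟩
  linarith

/-- The rounded point. -/
noncomputable def rbt (F : Fam m J) (I : Finset (Fin m)) (ω : F.Ω) : Option (Fin m) → ℝ
  | none => F.t ω
  | some i => if i ∈ I then (ceI I (fun _ => J) (F.x ω) i : ℝ) / 2 ^ J else F.x ω i

theorem rbt_near (F : Fam m J) (I : Finset (Fin m)) (ω : F.Ω) (o : Option (Fin m)) :
    |rbt F I ω o - bt F ω o| ≤ 1 / 2 ^ J := by
  cases o with
  | none =>
    have e1 : rbt F I ω none = bt F ω none := rfl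
    rw [e1, sub_self, abs_zero]
    positivity
  | some i =>
    have e2 : bt F ω (some i) = F.x ω i := rfl
    by_cases hi : i ∈ I
    · have e1 : rbt F I ω (some i) = ((⌊(2 : ℝ) ^ J * F.x ω i⌋ : ℤ) : ℝ) / 2 ^ J := by
        simp only [rbt, ceI, if_pos hi]
      rw [e1, e2]
      exact fl_near J (F.x ω i)
    · have e1 : rbt F I ω (some i) = F.x ω i := if_neg hi
      rw [e1, e2, sub_self, abs_zero]
      positivity

/-- The value of a label, from the rounded point. -/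
theorem val_near {F : Fam m J} {I : Finset (Fin m)} {κ : Fin m} {K e w ρ P : ℕ}
    {A : F.Ω → Prop} {V : Type} {z : PtT F → V} {z' : LnT F → V}
    {G : V → MvPolynomial (Option (Fin m)) ℝ} (h : LbOK F I κ K e J w ρ P A z z' G)
    (hρ : ρ ≤ J) {ω ω' : F.Ω} (hω : A ω) (hω' : A ω') (hV : ceI I (fun _ => J) (F.x ω) =
      ceI I (fun _ => J) (F.x ω')) (hz : z' (slam F w ω) = z' (slam F w ω'))
    (hT : F.T ω = F.T ω') :
    |eval (bt F ω) (G (z' (slam F w ω))) - eval (bt F ω') (G (z' (slam F w ω')))| ≤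
      2 * (2 ^ e * ((m + 1) * (1 / 2 ^ J))) := by
  have key : ∀ ω, A ω → |eval (rbt F I ω) (G (z' (slam F w ω))) -
      eval (bt F ω) (G (z' (slam F w ω)))| ≤ 2 ^ e * ((m + 1) * (1 / 2 ^ J)) := by
    intro ω hω
    have h1 := mvσ (G (z' (slam F w ω))) (bt F ω) (rbt F I ω) (2 ^ e) fun y hy i =>
      h.lip ω hω y (fun o => ((hy o).trans (rbt_near F I ω o)).trans
        (one_div_le_one_div_of_le (by positivity) (pow_le_pow_right₀ (by norm_num) hρ))) i
    refine h1.trans (mul_le_mul_of_nonneg_left ?_ (by positivity))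
    refine (Finset.sum_le_sum fun o _ => rbt_near F I ω o).trans (le_of_eq ?_)
    rw [Finset.sum_const, Finset.card_univ, Fintype.card_option, Fintype.card_fin, nsmul_eq_mul]
    push_cast
    ring
  have e1 : eval (rbt F I ω) (G (z' (slam F w ω))) = eval (rbt F I ω') (G (z' (slam F w ω'))) := by
    rw [hz]
    refine h.dep _ _ _ ?_ fun i hi => ?_
    · show F.t ω = F.t ω'
      unfold Fam.t
      rw [hT]
    · simp only [rbt, if_pos hi, hV]
  have k1 := key ω hω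
  have k2 := key ω' hω'
  rw [e1] at k1
  rw [abs_le] at k1 k2 ⊢
  constructor <;> linarith [k1.1, k1.2, k2.1, k2.2]

/-- **The rows of the own height are not full.** -/
theorem nfh_of {S : PCl m} {C₀ : ℝ} (htm : TmC S C₀) {I : Finset (Fin m)} {κ : Fin m}
    {w a p q r U h δ₁ δ₂ δ e₁ : ℝ} (hw0 : 0 ≤ w) (hwa : w ≤ a) (ha : a ≤ 1)
    (hp : 0 ≤ p) (hq : 0 ≤ q) (hpq : p + q < 1) (hr0 : 0 ≤ r) (hr : r < 1) (hU : U ≤ 1)
    (hh : h ≤ 1) (hraw : RawN S I κ p q h δ₁) (hful : Ful S I a U) (he₁ : 0 < e₁)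
    (hh0 : F0 S (fun J F => ptr F J) (vg a) (fun J F ω => (bI I U J F ω, F.W ω))
      (qJet m I κ 0 w p (p + q)) e₁ δ₂) (hδ : δ₁ + δ₂ < δ) :
    NfH S I κ w p q r h δ (bI I U) := by
  classical
  obtain ⟨e₀, he₀⟩ : ∃ e₀ : ℝ, e₀ = min e₁ (min ((1 - p - q) / 2) (1 - r)) := ⟨_, rfl⟩
  refine ⟨e₀, ?_, ?_⟩
  · rw [he₀]
    exact lt_min he₁ (lt_min (by linarith) (by linarith))
  intro e he hle K x hx0 hxq
  have h1e : e ≤ e₁ := hle.trans (by rw [he₀]; exact min_le_left _ _)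
  have h2e : e ≤ (1 - p - q) / 2 :=
    hle.trans (by rw [he₀]; exact (min_le_right _ _).trans (min_le_left _ _))
  have h3e : e ≤ 1 - r :=
    hle.trans (by rw [he₀]; exact (min_le_right _ _).trans (min_le_right _ _))
  obtain ⟨ρ, hρ⟩ : ∃ ρ : ℝ, ρ = (δ - (δ₁ + δ₂)) / 2 := ⟨_, rfl⟩
  have hρ0 : 0 < ρ := by rw [hρ]; linarith
  obtain ⟨M, J₁, hcnt⟩ := cnt_jet m K 0 (N := p + q) (w := w) hr0 he
  have hlogm : 0 ≤ Real.log (m + 1) := Real.log_nonneg (by
    have : (0 : ℝ) ≤ m := Nat.cast_nonneg m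
    linarith)
  have l5 : 0 ≤ Real.log 5 := Real.log_nonneg (by norm_num)
  have l9 : 0 ≤ Real.log 9 := Real.log_nonneg (by norm_num)
  have l11 : 0 ≤ Real.log 11 := Real.log_nonneg (by norm_num)
  have hl2 : 0 < Real.log 2 := Real.log_pos one_lt_two
  have hgap : 0 < (1 - p - q - e) * Real.log 2 := mul_pos (by linarith) hl2
  obtain ⟨J₂, hJ₂⟩ := exists_nat_ge (Real.log (m + 1) / ((1 - p - q - e) * Real.log 2) +
    (Real.log 5 + Real.log 9 + Real.log 11) / ρ)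
  refine Bas.mono (max J₁ J₂) (((hraw x hx0 hxq).and (hful ρ hρ0)).and
    (((hh0.mono h1e le_rfl) (max K M)).and (Pool.GRW.tmc_bas htm one_pos))) ?_
  rintro J hJ F A ⟨⟨hraw, hF⟩, hH, hA, -⟩ V z z' G hlb
  have hJ1 : J₁ ≤ J := (le_max_left _ _).trans hJ
  have hJ2 : (J₂ : ℝ) ≤ J := by exact_mod_cast (le_max_right _ _).trans hJ
  have hJ0 : (0 : ℝ) ≤ J := Nat.cast_nonneg J
  have t1 : 0 ≤ Real.log (m + 1) / ((1 - p - q - e) * Real.log 2) := by positivity
  have t2 : 0 ≤ (Real.log 5 + Real.log 9 + Real.log 11) / ρ := by positivity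
  have f1 : Real.log (m + 1) ≤ (1 - p - q - e) * Real.log 2 * J := by
    have : Real.log (m + 1) / ((1 - p - q - e) * Real.log 2) ≤ J := by linarith
    rw [div_le_iff₀ hgap] at this
    linarith
  have f2 : Real.log 5 + Real.log 9 + Real.log 11 ≤ ρ * J := by
    have : (Real.log 5 + Real.log 9 + Real.log 11) / ρ ≤ J := by linarith
    rw [div_le_iff₀ hρ0] at this
    linarith
  obtain ⟨q', hq'⟩ : ∃ q' : F.Ω → ℝ, q' = Pool.Agent.H49.Ent.cond F.p A True := ⟨_, rfl⟩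
  have hq'l : IsLaw q' := by
    rw [hq']
    exact isLaw_cond F.isLaw hA
  have h0 := hq'l.nonneg
  have hq'A : ∀ ω, 0 < q' ω → A ω := fun ω hω => by
    rw [hq'] at hω
    exact of_cond_pos hω
  rw [← hq'] at hraw ⊢
  obtain ⟨W, hW⟩ : ∃ W : ℕ, W = ⌊w * J⌋₊ := ⟨_, rfl⟩
  rw [← hW] at hlb ⊢
  have hrJ : ⌊(r + e) * J⌋₊ ≤ J := by
    refine Nat.floor_le_of_le ?_
    have : (r + e) * J ≤ 1 * J := mul_le_mul_of_nonneg_right (by linarith) hJ0
    linarith
  -- the height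
  obtain ⟨o, ho⟩ : ∃ o : F.Ω → ℝ, o = fun ω => ojet F κ 0 (G (z' (slam F W ω))) ω := ⟨_, rfl⟩
  have hox : ∀ ω, o ω = F.x ω κ - eval (bt F ω) (G (z' (slam F W ω))) := fun ω => by
    rw [ho]
    show jet 0 (X (some κ) - G (z' (slam F W ω))) (bt F ω) (bd F ω) = _
    rw [jet_zero, map_sub, eval_X]
    rfl
  obtain ⟨Vx, hVx⟩ : ∃ Vx : F.Ω → Fin m → ℤ, Vx = fun ω => ceI I (fun _ => J) (F.x ω) :=
    ⟨_, rfl⟩
  obtain ⟨Hn, hHn⟩ : ∃ Hn : F.Ω → ℤ, Hn = fun ω => ⌊(2 : ℝ) ^ ((p + q) * J) * o ω⌋ := ⟨_, rfl⟩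
  obtain ⟨Rx, hRx⟩ : ∃ Rx : F.Ω → ℤ, Rx = fun ω => ⌊(2 : ℝ) ^ ((p + x) * J) * o ω⌋ := ⟨_, rfl⟩
  obtain ⟨Z, hZ⟩ : ∃ Z : F.Ω → V, Z = fun ω => z' (slam F W ω) := ⟨_, rfl⟩
  have goal1 : CH q' Hn (fun ω => (Rx ω, (Z ω, (bI I U J F ω, F.W ω)))) ≤
      ((1 - h) * (q - x) * Real.log 2 + δ) * J := by
    -- near values
    have herr : ∀ s : ℝ, s ≤ p + q →
        (2 : ℝ) ^ (s * J) * (2 * (2 ^ ⌊e * J⌋₊ * ((m + 1) * (1 / 2 ^ J)))) ≤ 2 := by
      intro s hs
      have a1 : (2 : ℝ) ^ ⌊e * J⌋₊ ≤ 2 ^ (e * J) := p2_le (by positivity)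
      have a2 : (1 : ℝ) / 2 ^ J = 2 ^ (-(J : ℝ)) := by
        rw [Real.rpow_neg (by norm_num), Real.rpow_natCast, one_div]
      have a3 : (m : ℝ) + 1 ≤ 2 ^ ((1 - p - q - e) * J) := by
        rw [← exp_p2, ← Real.log_le_iff_le_exp (by positivity)]
        linarith
      have a4 : (0 : ℝ) < 2 ^ (s * J) := Real.rpow_pos_of_pos (by norm_num) _
      have a5 : (0 : ℝ) < 2 ^ (e * J) := Real.rpow_pos_of_pos (by norm_num) _
      have a6 : (0 : ℝ) < 2 ^ (-(J : ℝ)) := Real.rpow_pos_of_pos (by norm_num) _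
      rw [a2]
      calc (2 : ℝ) ^ (s * J) * (2 * (2 ^ ⌊e * J⌋₊ * ((m + 1) * 2 ^ (-(J : ℝ)))))
          ≤ 2 ^ (s * J) * (2 * (2 ^ (e * J) * (2 ^ ((1 - p - q - e) * J) * 2 ^ (-(J : ℝ))))) := by
            refine mul_le_mul_of_nonneg_left (mul_le_mul_of_nonneg_left ?_ (by norm_num)) a4.le
            exact mul_le_mul a1 (mul_le_mul_of_nonneg_right a3 a6.le) (by positivity) a5.le
        _ = 2 * (2 ^ (s * J) * 2 ^ (e * J) * 2 ^ ((1 - p - q - e) * J) * 2 ^ (-(J : ℝ))) := by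
            ring
        _ = 2 * 2 ^ (s * J + e * J + (1 - p - q - e) * J + -(J : ℝ)) := by
            rw [Real.rpow_add (by norm_num), Real.rpow_add (by norm_num),
              Real.rpow_add (by norm_num)]
        _ ≤ 2 * 1 := by
            refine mul_le_mul_of_nonneg_left ?_ (by norm_num)
            refine Real.rpow_le_one_of_one_le_of_nonpos (by norm_num) ?_
            have : s * J + e * J + (1 - p - q - e) * J + -(J : ℝ) = (s - (p + q)) * J := by ring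
            rw [this]
            exact mul_nonpos_of_nonpos_of_nonneg (by linarith) hJ0
        _ = 2 := by norm_num
    have hval : ∀ ω ω', 0 < q' ω → 0 < q' ω' → Vx ω = Vx ω' → Z ω = Z ω' → F.W ω = F.W ω' →
        ∀ s ≤ p + q, |(2 : ℝ) ^ (s * J) * (o ω - o ω') -
          2 ^ (s * J) * (F.x ω κ - F.x ω' κ)| ≤ 2 := by
      intro ω ω' hω hω' e1 e2 e3 s hs
      rw [hVx] at e1
      rw [hZ] at e2
      have hT : F.T ω = F.T ω' := (Prod.ext_iff.mp e3).1
      have h1 := val_near hlb hrJ (hq'A ω hω) (hq'A ω' hω') e1 e2 hT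
      have e4 : (2 : ℝ) ^ (s * J) * (o ω - o ω') - 2 ^ (s * J) * (F.x ω κ - F.x ω' κ) =
          -(2 ^ (s * J) * (eval (bt F ω) (G (z' (slam F W ω))) -
            eval (bt F ω') (G (z' (slam F W ω'))))) := by
        rw [hox, hox]
        ring
      rw [e4, abs_neg, abs_mul, abs_of_pos (Real.rpow_pos_of_pos (by norm_num) _)]
      exact (mul_le_mul_of_nonneg_left h1 (Real.rpow_pos_of_pos (by norm_num) _).le).trans
        (herr s hs)
    have hfl1 : ∀ {t a b : ℝ}, 0 < t → ⌊t * a⌋ = ⌊t * b⌋ → |t * (a - b)| ≤ 1 :=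
      fun {t a b} ht e => by
        have := fl_scale ht.le (by rw [one_mul]) ht e
        rwa [← mul_sub] at this
    have hXd : ∀ (n : ℕ) {ω ω' : F.Ω}, F.X n ω κ = F.X n ω' κ →
        |(2 : ℝ) ^ n * (F.x ω κ - F.x ω' κ)| ≤ 1 := fun n {ω ω'} e =>
      hfl1 (by positivity) e
    -- the floors of the exponents
    have hfle : ∀ s : ℝ, 0 ≤ s → (2 : ℝ) ^ (s * J) ≤ 2 * 2 ^ ⌊s * J⌋₊ ∧
        (2 : ℝ) ^ ⌊s * J⌋₊ ≤ 2 ^ (s * J) := by
      intro s hs
      refine ⟨?_, p2_le (by positivity)⟩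
      have a1 := ip2_le (s * J)
      rw [Real.rpow_neg (by norm_num), div_le_iff₀ (by positivity)] at a1
      have a2 : (0 : ℝ) < 2 ^ (s * J) := Real.rpow_pos_of_pos (by norm_num) _
      have a3 : 2 * ((2 : ℝ) ^ (s * J))⁻¹ * 2 ^ ⌊s * J⌋₊ * 2 ^ (s * J) = 2 * 2 ^ ⌊s * J⌋₊ := by
        field_simp
      nlinarith
    -- step 1
    have s1 : CH q' Hn (fun ω => (F.X ⌊(p + q) * J⌋₊ ω κ, (Rx ω, (Vx ω, (Z ω, F.W ω))))) ≤
        Real.log 11 := by
      have e5 : (11 : ℝ) = 2 * ((5 : ℕ) : ℝ) + 1 := by norm_num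
      rw [e5]
      refine CH_pair hq'l _ _ fun ω ω' hω hω' e => ?_
      simp only [Prod.mk.injEq] at e
      obtain ⟨e1, -, e2, e3, e4⟩ := e
      have g1 := hval ω ω' hω hω' e2 e3 e4 (p + q) le_rfl
      have g2 := hXd _ e1
      have g3 := (hfle (p + q) (by linarith)).1
      rw [hHn]
      refine floor_sub_le (D := 4) ?_
      rw [← mul_sub]
      have g4 : |(2 : ℝ) ^ ((p + q) * J) * (F.x ω κ - F.x ω' κ)| ≤ 2 := by
        rw [abs_mul, abs_of_pos (Real.rpow_pos_of_pos (by norm_num) _)]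
        rw [abs_mul, abs_of_pos (by positivity)] at g2
        calc (2 : ℝ) ^ ((p + q) * J) * |F.x ω κ - F.x ω' κ|
            ≤ 2 * 2 ^ ⌊(p + q) * J⌋₊ * |F.x ω κ - F.x ω' κ| :=
              mul_le_mul_of_nonneg_right g3 (abs_nonneg _)
          _ = 2 * (2 ^ ⌊(p + q) * J⌋₊ * |F.x ω κ - F.x ω' κ|) := by ring
          _ ≤ 2 := by linarith
      push_cast
      rw [abs_le] at g1 g4 ⊢
      constructor <;> linarith [g1.1, g1.2, g4.1, g4.2]
    have s2 : CH q' (fun ω => F.X ⌊(p + x) * J⌋₊ ω κ) (fun ω => (Rx ω, (Vx ω, (Z ω, F.W ω)))) ≤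
        Real.log 9 := by
      have e5 : (9 : ℝ) = 2 * ((4 : ℕ) : ℝ) + 1 := by norm_num
      rw [e5]
      refine CH_pair hq'l _ _ fun ω ω' hω hω' e => ?_
      simp only [Prod.mk.injEq] at e
      obtain ⟨e1, e2, e3, e4⟩ := e
      have g1 := hval ω ω' hω hω' e2 e3 e4 (p + x) (by linarith)
      rw [hRx] at e1
      have g2 := hfl1 (Real.rpow_pos_of_pos (by norm_num) _) e1
      have g3 := (hfle (p + x) (by linarith)).2
      refine floor_sub_le (a := 2 ^ ⌊(p + x) * J⌋₊ * F.x ω κ)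
        (b := 2 ^ ⌊(p + x) * J⌋₊ * F.x ω' κ) (D := 3) ?_
      rw [← mul_sub]
      have g4 : |(2 : ℝ) ^ ((p + x) * J) * (F.x ω κ - F.x ω' κ)| ≤ 3 := by
        rw [abs_le] at g1 g2 ⊢
        constructor <;> linarith [g1.1, g1.2, g2.1, g2.2]
      rw [abs_mul, abs_of_pos (by positivity)]
      rw [abs_mul, abs_of_pos (Real.rpow_pos_of_pos (by norm_num) _)] at g4
      push_cast
      exact (mul_le_mul_of_nonneg_right g3 (abs_nonneg _)).trans g4
    have s3 := CH_le_add h0 Hn (fun ω => F.X ⌊(p + q) * J⌋₊ ω κ)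
      (fun ω => (Rx ω, (Vx ω, (Z ω, F.W ω))))
    have s4 := CH_le_add h0 (fun ω => F.X ⌊(p + q) * J⌋₊ ω κ) (fun ω => F.X ⌊(p + x) * J⌋₊ ω κ)
      (fun ω => (Rx ω, (Vx ω, (Z ω, F.W ω))))
    have s5 : CH q' (fun ω => F.X ⌊(p + q) * J⌋₊ ω κ)
        (fun ω => (F.X ⌊(p + x) * J⌋₊ ω κ, (Rx ω, (Vx ω, (Z ω, F.W ω))))) ≤
        CH q' (fun ω => F.X ⌊(p + q) * J⌋₊ ω κ)
          (fun ω => (F.X ⌊(p + x) * J⌋₊ ω κ, (Vx ω, F.W ω))) :=
      CH_mono_cond h0 fun ω ω' _ _ e => by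
        simp only [Prod.mk.injEq] at e ⊢
        exact ⟨e.1, e.2.2.1, e.2.2.2.2⟩
    rw [← hVx] at hF
    have hraw' : CH q' (fun ω => F.X ⌊(p + q) * J⌋₊ ω κ)
          (fun ω => (F.X ⌊(p + x) * J⌋₊ ω κ, (Vx ω, F.W ω))) ≤
        ((1 - h) * (q - x) * Real.log 2 + δ₁) * J := by
      rw [hVx]
      exact hraw
    have s6 : CH q' Hn (fun ω => (Rx ω, (Vx ω, (Z ω, F.W ω)))) ≤
        ((1 - h) * (q - x) * Real.log 2 + δ₁) * J + (Real.log 9 + Real.log 11) := by
      linarith only [s1, s2, s3, s4, s5, hraw']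
    -- step 2
    have hPq : (qJet m I κ 0 w p (p + q)).P (max K M) e J F A Hn := by
      refine ⟨?_, V, z, z', G, ?_, fun ω _ => by rw [hHn, ho, hW]⟩
      · have h2 := hcnt J hJ1 F I κ _ A V z z' G (by rw [← hW]; exact hlb)
        rw [hHn, ho, hW]
        refine h2.trans (Real.exp_le_exp.2 (mul_le_mul_of_nonneg_right ?_ hJ0))
        exact_mod_cast le_max_right _ _
      · rw [← hW]
        exact (LbP.of hlb).mono (Finset.Subset.refl _) (le_max_left _ _) le_rfl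
    obtain ⟨Va, za, hza, hH⟩ := hH Hn hPq
    rw [← hq'] at hH
    obtain ⟨⟨φa, hφa⟩, ψa, hψa⟩ := hza
    obtain ⟨φg, hφg⟩ := vg_mono hwa ha J F
    have hvg : ∀ ω, vg w J F ω = slam F W ω := fun ω => by rw [hW]; rfl
    have hful := hF (Va × V) (fun x => (φa x, z x)) (fun s => (ψa s, z' (φg s)))
      (fun ω hω => by
        have e1 : vg a J F ω = slam F ⌊a * J⌋₊ ω := rfl
        have e2 := hφg ω
        rw [hvg ω, e1] at e2
        refine Prod.ext ?_ ?_
        · show φa (ptr F J ω) = ψa (slam F ⌊a * J⌋₊ ω)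
          rw [← e1, ← hψa ω hω, ← hφa ω hω]
        · show z (ptr F J ω) = z' (φg (slam F ⌊a * J⌋₊ ω))
          rw [← e2]
          exact hlb.cls ω hω)
    rw [← hq'] at hful
    have s7 : I.card * (((J - ⌊U * J⌋₊ : ℕ) : ℝ) * Real.log 2) - ρ * J ≤
        CH q' Vx (fun ω => (bI I U J F ω, ((za ω, Z ω), F.W ω))) := by
      refine hful.trans (le_of_eq ?_)
      rw [hVx]
      refine CH_congr h0 (fun _ _ _ _ e => (Prod.ext_iff.mp e).1)
        (fun _ _ _ _ e => (Prod.ext_iff.mp e).1) ?_ ?_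
      · intro ω ω' hω hω' e
        simp only [Prod.mk.injEq] at e
        obtain ⟨e1, ⟨e2, e3⟩, e4⟩ := e
        have d1 := hφg ω
        have d2 := hφg ω'
        rw [hvg] at d1 d2
        have e5 : vg a J F ω = slam F ⌊a * J⌋₊ ω := rfl
        have e6 : vg a J F ω' = slam F ⌊a * J⌋₊ ω' := rfl
        rw [← e5, ← e6] at e2 e3
        rw [← d1, ← d2] at e3
        rw [← hψa ω (hq'A ω hω), ← hψa ω' (hq'A ω' hω')] at e2
        rw [hZ]
        simp only [Prod.mk.injEq]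
        exact ⟨e1, ⟨e2, e3⟩, e4⟩
      · intro ω ω' hω hω' e
        rw [hZ] at e
        simp only [Prod.mk.injEq] at e ⊢
        obtain ⟨e1, ⟨e2, e3⟩, e4⟩ := e
        have d1 := hφg ω
        have d2 := hφg ω'
        rw [hvg] at d1 d2
        have e5 : vg a J F ω = slam F ⌊a * J⌋₊ ω := rfl
        have e6 : vg a J F ω' = slam F ⌊a * J⌋₊ ω' := rfl
        rw [← e5, ← e6]
        rw [← d1, ← d2, ← hψa ω (hq'A ω hω), ← hψa ω' (hq'A ω' hω')]
        exact ⟨e1, ⟨e2, e3⟩, e4⟩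
    have hUJ : ⌊U * J⌋₊ ≤ J := by
      refine Nat.floor_le_of_le ?_
      have : U * J ≤ 1 * J := mul_le_mul_of_nonneg_right hU hJ0
      linarith
    -- the exchange
    obtain ⟨Y, hY⟩ : ∃ Y : F.Ω → ℤ × (V × ((Fin m → ℤ) × (ℕ × F.ζ))), Y = fun ω =>
      (Rx ω, (Z ω, (bI I U J F ω, F.W ω))) := ⟨_, rfl⟩
    rw [← hY]
    have t1 := CH_exch h0 Hn Vx Y
    have t2 : CH q' Vx Y ≤ I.card * (((J - ⌊U * J⌋₊ : ℕ) : ℝ) * Real.log 2) := by
      refine le_trans (CH_mono_cond h0 fun ω ω' _ _ e => ?_) (hVx ▸ ceI_cnt hq'l I hUJ)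
      rw [hY] at e
      simp only [Prod.mk.injEq] at e
      exact e.2.2.1
    have t3 : CH q' Hn (fun ω => (Vx ω, Y ω)) ≤
        CH q' Hn (fun ω => (Rx ω, (Vx ω, (Z ω, F.W ω)))) :=
      CH_mono_cond h0 fun ω ω' _ _ e => by
        rw [hY] at e
        simp only [Prod.mk.injEq] at e ⊢
        exact ⟨e.2.1, e.1, e.2.2.1, e.2.2.2.2⟩
    have t4 : CH q' Vx (fun ω => ((Hn ω, Rx ω), (bI I U J F ω, ((za ω, Z ω), F.W ω)))) ≤
        CH q' Vx (fun ω => (Hn ω, Y ω)) :=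
      CH_mono_cond h0 fun ω ω' _ _ e => by
        rw [hY]
        simp only [Prod.mk.injEq] at e ⊢
        exact ⟨e.1.1, e.1.2, e.2.2.1.2, e.2.1, e.2.2.2⟩
    have t5 := CH_exch h0 Vx (fun ω => (Hn ω, Rx ω))
      (fun ω => (bI I U J F ω, ((za ω, Z ω), F.W ω)))
    have t6 : 0 ≤ CH q' (fun ω => (Hn ω, Rx ω))
        (fun ω => (Vx ω, (bI I U J F ω, ((za ω, Z ω), F.W ω)))) := CH_nonneg h0 _ _
    have t7 : CH q' (fun ω => (Hn ω, Rx ω)) (fun ω => (bI I U J F ω, ((za ω, Z ω), F.W ω))) ≤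
        δ₂ * J + Real.log 5 := by
      have d1 := CH_chain h0 Rx Hn (fun ω => (bI I U J F ω, ((za ω, Z ω), F.W ω)))
      have d2 : CH q' (fun ω => (Hn ω, Rx ω))
          (fun ω => (bI I U J F ω, ((za ω, Z ω), F.W ω))) =
          CH q' (fun ω => (Rx ω, Hn ω)) (fun ω => (bI I U J F ω, ((za ω, Z ω), F.W ω))) := by
        refine CH_congr h0 ?_ ?_ (fun _ _ _ _ e => e) (fun _ _ _ _ e => e)
        · intro ω ω' _ _ e
          simp only [Prod.mk.injEq] at e ⊢
          exact ⟨e.1.2, e.1.1⟩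
        · intro ω ω' _ _ e
          simp only [Prod.mk.injEq] at e ⊢
          exact ⟨e.1.2, e.1.1⟩
      have d3 : CH q' Hn (fun ω => (bI I U J F ω, ((za ω, Z ω), F.W ω))) ≤ δ₂ * J := by
        refine le_trans (CH_mono_cond h0 fun ω ω' _ _ e => ?_) hH
        simp only [Prod.mk.injEq] at e ⊢
        exact ⟨e.2.1.1, e.1, e.2.2⟩
      have d4 : CH q' Rx (fun ω => (Hn ω, (bI I U J F ω, ((za ω, Z ω), F.W ω)))) ≤
          Real.log 5 := by
        have e5 : (5 : ℝ) = 2 * ((2 : ℕ) : ℝ) + 1 := by norm_num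
        rw [e5]
        refine CH_pair hq'l _ _ fun ω ω' hω hω' e => ?_
        have e1 := (Prod.ext_iff.mp e).1
        rw [hHn] at e1
        have g1 := hfl1 (Real.rpow_pos_of_pos (by norm_num) _) e1
        rw [hRx]
        refine floor_sub_le (D := 1) ?_
        rw [← mul_sub, abs_mul, abs_of_pos (Real.rpow_pos_of_pos (by norm_num) _)]
        rw [abs_mul, abs_of_pos (Real.rpow_pos_of_pos (by norm_num) _)] at g1
        push_cast
        refine (mul_le_mul_of_nonneg_right ?_ (abs_nonneg _)).trans g1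
        refine Real.rpow_le_rpow_of_exponent_le (by norm_num) ?_
        exact mul_le_mul_of_nonneg_right (by linarith) hJ0
      linarith only [d1, d2, d3, d4]
    have hρJ : ρ * J + ρ * J + (δ₁ + δ₂) * J = δ * J := by
      rw [hρ]
      ring
    linarith only [t1, t2, t3, t4, t5, t6, t7, s6, s7, f2, hρJ]
  rw [hHn, hRx, hZ, ho] at goal1
  exact goal1

end Pool.OWN68
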