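import Pool.Agent.H68.OWN.Hop3
import Pool.Agent.H89.OWN.NfD

/-!
# Hops: one law, hypotheses on large events

`deficit_dens`: the deficit for a law of bounded density. `nf_swap`: nonfull given more full digits.
`hop_one`: HOP-k where the coordinate is nonfull given the exact position `Vd` on events of mass
`≥ c₀`, and the exact position is full given `G`.
-/

set_option autoImplicit false

namespace Pool.OWN68

open Finset Real
open Pool.Agent.H49.Ent Pool.Agent.H32.Dense Pool.STK Pool.NFD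

theorem CH_le_Hu {Ω S T : Type} [Fintype Ω] {p : Ω → ℝ} (hp : IsLaw p) (X : Ω → S) (W : Ω → T) :
    CH p X W ≤ H p X := by
  have h := CH_mono_cond hp.nonneg (X := X) (W' := W) (W := fun _ => ()) fun _ _ _ _ _ => rfl
  have h1 : H p (fun _ : Ω => ()) = 0 := by
    unfold H law
    simp [hp.sum_one]
  have h2 : CH p X (fun _ => ()) = H p X := by
    unfold CH
    rw [h1, sub_zero]
    exact H_congr hp.nonneg (fun ω ω' _ _ h => by rw [h]) (fun ω ω' _ _ h => (Prod.ext_iff.mp h).1)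
  rwa [h2] at h

/-- **Nonfull given digits which are full anyway.** -/
theorem nf_swap {Ω S T V W : Type} [Fintype Ω] {p : Ω → ℝ} (h0 : ∀ ω, 0 ≤ p ω) (X : Ω → S)
    (Vd : Ω → V) (Z : Ω → T) (G : Ω → W) {F : ℝ} (hF : CH p Vd Z ≤ F) :
    CH p X Z ≤ CH p X (fun ω => (Vd ω, Z ω)) + (F - CH p Vd G) +
      CH p (fun ω => (X ω, Z ω)) G := by
  have h1 := CH_chain h0 X Vd Z
  have h2 := CH_chain2 h0 X Vd Z
  have h3 := CH_le_add h0 Vd (fun ω => (X ω, Z ω)) G
  have h4 : CH p Vd (fun ω => ((X ω, Z ω), G ω)) ≤ CH p Vd (fun ω => (X ω, Z ω)) :=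
    CH_mono_cond h0 fun ω ω' _ _ h => (Prod.ext_iff.mp h).1
  linarith

/-- **The deficit for a law of bounded density.** -/
theorem deficit_dens {Ω S T : Type} [Fintype Ω] {p q : Ω → ℝ} (hp : IsLaw p) (hq : IsLaw q)
    {R : ℝ} (hR : 1 ≤ R) (hd : ∀ ω, q ω ≤ R * p ω) (A : Ω → S) (Z : Ω → T) {L e : ℝ} (he : 0 ≤ e)
    (hL : ∀ r : Ω → ℝ, IsLaw r → (∀ ω, 0 < r ω → 0 < p ω) → CH r A Z ≤ L)
    (h : L - e ≤ CH p A Z) : L - R * (e + Real.log 2) ≤ CH q A Z := by
  classical
  have h0 := hp.nonneg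
  have hR0 : 0 < R := by linarith
  have hpos : ∀ ω, 0 < q ω → 0 < p ω := by
    intro ω hω
    by_contra hcon
    have h2 : p ω ≤ 0 := not_lt.mp hcon
    have h3 := hd ω
    nlinarith
  have hl2 : 0 ≤ Real.log 2 := Real.log_nonneg (by norm_num)
  -- the law with the extra bit
  set P : Ω × Bool → ℝ := fun w => if w.2 then q w.1 / R else p w.1 - q w.1 / R with hP
  have hq1 : ∀ ω, q ω / R ≤ p ω := fun ω => by
    rw [div_le_iff₀ hR0]
    linarith [hd ω]
  have hmarg : ∀ ω, law P (fun w => w.1) ω = p ω := by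
    intro ω
    unfold law
    rw [Fintype.sum_prod_type]
    simp only [Fintype.sum_bool, hP]
    rw [Finset.sum_eq_single ω]
    · simp
    · intro b _ hb
      rw [if_neg hb, if_neg hb, add_zero]
    · intro hh
      exact absurd (Finset.mem_univ _) hh
  have hPlaw : IsLaw P := by
    refine ⟨fun w => ?_, ?_⟩
    · rw [hP]
      dsimp only
      split_ifs
      · exact div_nonneg (hq.nonneg _) hR0.le
      · linarith [hq1 w.1]
    · rw [Fintype.sum_prod_type]
      have e1 : ∀ ω, ∑ b : Bool, P (ω, b) = p ω := fun ω => by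
        rw [Fintype.sum_bool, hP]
        simp
      rw [Finset.sum_congr rfl fun ω _ => e1 ω, hp.sum_one]
  set E : Ω × Bool → Prop := fun w => w.2 = true with hE
  have et : ∀ ω, E (ω, true) = True := fun ω => eq_true (show (ω, true).2 = true from rfl)
  have ef : ∀ ω, ¬ (E (ω, false) = True) := fun ω h => by
    have h1 : (ω, false).2 = true := of_eq_true h
    exact absurd h1 (by simp)
  have hlE : law P E True = 1 / R := by
    unfold law
    rw [Fintype.sum_prod_type, ← hq.sum_one, Finset.sum_div]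
    refine Finset.sum_congr rfl fun ω _ => ?_
    rw [Fintype.sum_bool, if_pos (et ω), if_neg (ef ω), add_zero]
    simp [hP]
  have hCH : CH P (fun w => A w.1) (fun w => Z w.1) = CH p A Z := by
    unfold CH
    rw [H_eq_of_marginal (q := P) (p := p) (fun w => w.1) (fun ω => hmarg ω)
      (fun ω => (A ω, Z ω)), H_eq_of_marginal (q := P) (p := p) (fun w => w.1)
      (fun ω => hmarg ω) Z]
  have hEpos : (0 : ℝ) < 1 / R := by positivity
  have hsupP : ∀ w, 0 < P w → 0 < p w.1 := by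
    intro w hw
    have h1 : P w ≤ p w.1 := by
      rw [hP]
      dsimp only
      split_ifs
      · exact hq1 _
      · have := div_nonneg (hq.nonneg w.1) hR0.le
        linarith
    linarith
  have key := deficit_ev2 hPlaw (fun w => A w.1) (fun w => Z w.1) (L := L) (e := e) hEpos he
    (fun r hr hrP => by
      have hm : ∀ ω, law r (fun w => w.1) ω = law r (fun w => w.1) ω := fun _ => rfl
      have h1 : CH r (fun w => A w.1) (fun w => Z w.1) =
          CH (fun ω => law r (fun w => w.1) ω) A Z := by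
        unfold CH
        rw [H_eq_of_marginal (q := r) (p := fun ω => law r (fun w => w.1) ω) (fun w => w.1)
          (fun ω => rfl) (fun ω => (A ω, Z ω)),
          H_eq_of_marginal (q := r) (p := fun ω => law r (fun w => w.1) ω) (fun w => w.1)
          (fun ω => rfl) Z]
      rw [h1]
      refine hL _ ⟨fun ω => law_nonneg hr.nonneg _ _, ?_⟩ fun ω hω => ?_
      · have h4 : ∑ ω, law r (fun w => w.1) ω = ∑ u, r u := by
          unfold law
          rw [Finset.sum_comm]
          refine Finset.sum_congr rfl fun u _ => ?_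
          rw [Finset.sum_ite_eq]
          simp
        rw [h4, hr.sum_one]
      · by_contra hcon
        have h2 : law r (fun w => w.1) ω = 0 := by
          unfold law
          refine Finset.sum_eq_zero fun u _ => ?_
          by_cases hu : u.1 = ω
          · rw [if_pos hu]
            by_contra h5
            have h6 := hsupP u (hrP u (lt_of_le_of_ne (hr.nonneg u) (Ne.symm h5)))
            rw [hu] at h6
            exact hcon h6
          · rw [if_neg hu]
        rw [h2] at hω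
        exact lt_irrefl _ hω)
    (by rw [hCH]; exact h) E (le_of_eq hlE.symm)
  have h3 : (e + Real.log 2) / (1 / R) = R * (e + Real.log 2) := by
    field_simp
  rw [h3] at key
  refine key.trans (le_of_eq ?_)
  -- the law on the event
  have hc : ∀ ω, law (cond P E True) (fun w => w.1) ω = q ω := by
    intro ω
    unfold law
    rw [Fintype.sum_prod_type]
    simp only [Fintype.sum_bool]
    rw [Finset.sum_eq_single ω]
    · unfold Pool.Agent.H49.Ent.cond
      rw [hlE, if_pos (et ω), if_neg (ef ω), if_pos rfl, if_pos rfl, add_zero]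
      simp only [hP, if_true]
      field_simp
    · intro b _ hb
      rw [if_neg hb, if_neg hb, add_zero]
    · intro hh
      exact absurd (Finset.mem_univ _) hh
  unfold CH
  rw [H_eq_of_marginal (q := cond P E True) (p := q) (fun w => w.1) (fun ω => hc ω)
    (fun ω => (A ω, Z ω)), H_eq_of_marginal (q := cond P E True) (p := q) (fun w => w.1)
    (fun ω => hc ω) Z]

/-- **HOP-k, one law, hypotheses on large events.** -/
theorem hop_one {Ω Λ Γ 𝒞 𝒱 : Type} [Fintype Ω] {p : Ω → ℝ} (hp : IsLaw p) {k M K : ℕ}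
    (hk : k = 1 ∨ k = 2) (hM : 1 ≤ M) (L : Ω → Λ) (t : Ω → ℤ) (G : Ω → Γ) (C : Λ → 𝒞) (c : Λ → ℝ)
    (n : Λ → ℤ → ℤ) (Vd : Ω → 𝒱) {m₀ R e V : ℝ} (hm₀ : 0 < m₀) (hmM : m₀ ≤ M) (hR : 1 ≤ R)
    (he : 0 ≤ e) (ht : ∀ ω, 0 < p ω → |t ω| ≤ (M : ℤ))
    (hG : ∀ ω ω', 0 < p ω → 0 < p ω' → G ω = G ω' → C (L ω) = C (L ω') ∧
      ∀ τ : ℤ, |τ| ≤ (M : ℤ) → |((n (L ω') τ : ℝ) - n (L ω) τ) -
        (c (L ω') - c (L ω)) * (((τ : ℝ) - t ω) / M) ^ k| ≤ K)
    (hfull : Real.log (2 * M + 1) - e ≤ CH p t L)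
    -- the exact position
    {F eV eX : ℝ} (heV : 0 ≤ eV)
    (hF1 : ∀ r : Ω → ℝ, IsLaw r → (∀ ω, 0 < r ω → 0 < p ω) → H r Vd ≤ F)
    (hF : F - eV ≤ CH p Vd G)
    (hX : CH p (fun ω => (n (L ω) (t ω), (t ω, C (L ω)))) G ≤ eX)
    -- the nonfull rows
    {c₀ η U₀ V₀ : ℝ} {N : ℕ} (hc₀ : 0 < c₀) (hη : 0 < η) (hU₀ : 0 ≤ U₀) (hV₀ : 0 ≤ V₀)
    (hNF : ∀ E : Ω → Prop, c₀ ≤ law p E True →
      CH (cond p E True) (fun ω => n (L ω) (t ω)) (fun ω => (Vd ω, (t ω, C (L ω)))) ≤ U₀)
    (hNV : ∀ r : Ω → ℝ, IsLaw r → (∀ ω, 0 < r ω → 0 < p ω) →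
      CH r (fun ω => n (L ω) (t ω)) (fun ω => (Vd ω, (t ω, C (L ω)))) ≤ V₀)
    (hbig : ((1 + η) * U₀ + (R * c₀ * (1 + η) / η + R / (1 + η) ^ N) * V₀ + Real.log (N + 1) +
      R * (eV + Real.log 2) + R * eX) + R * (3 * e + Real.log 2) +
      Real.log ((2 + 16 * K) * (1 + Real.log (2 * M + 1))) < Real.log m₀)
    (hV0 : 0 ≤ V) (hV : ∀ q : Ω → ℝ, IsLaw q → (∀ ω, 0 < q ω → 0 < p ω) →
      CH q (fun ω => ⌊c (L ω) / m₀⌋) G ≤ V) :
    CH p (fun ω => ⌊c (L ω) / m₀⌋) G ≤ Real.log 2 + Real.log 5 + 2 / R * V := by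
  refine hop_few hp hk hM L t G C c n hm₀ hmM (by linarith) he ht hG hfull
    (U := (1 + η) * U₀ + (R * c₀ * (1 + η) / η + R / (1 + η) ^ N) * V₀ + Real.log (N + 1) +
      R * (eV + Real.log 2) + R * eX) (fun q hq hqR => ?_) hbig hV0 hV
  have hpos : ∀ ω, 0 < q ω → 0 < p ω := by
    intro ω hω
    by_contra hcon
    have h2 : p ω ≤ 0 := not_lt.mp hcon
    have h3 := hqR ω
    nlinarith
  have h1 := nf_swap hq.nonneg (fun ω => n (L ω) (t ω)) Vd (fun ω => (t ω, C (L ω))) G (F := F)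
    ((CH_le_Hu hq Vd _).trans (hF1 q hq hpos))
  have h2 := nf_dens hp hq hR hqR hc₀ hη (fun ω => n (L ω) (t ω))
    (fun ω => (Vd ω, (t ω, C (L ω)))) (L := N) hU₀ hV₀
    (fun A hA => hNF A (by rw [Pb_law]; exact hA)) hNV
  have h3 := deficit_dens hp hq hR hqR Vd G heV
    (fun r hr hrp => (CH_le_Hu hr Vd G).trans (hF1 r hr hrp)) hF
  have h4 := CH_le_mul hp.nonneg hq hqR hpos (fun ω => (n (L ω) (t ω), (t ω, C (L ω)))) G
  have h5 : R * CH p (fun ω => (n (L ω) (t ω), (t ω, C (L ω)))) G ≤ R * eX :=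
    mul_le_mul_of_nonneg_left hX (by linarith)
  linarith

end Pool.OWN68
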