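import Pool.Agent.H30.CH.Blk
import Pool.Agent.H15.KM7.Pair

/-!
# Kaufman's theorem for entropies: the abstract step

`c` is a parameter which is nearly uniform on a box `B` and nearly independent of the pair `(Y, W)`,
`U` is a function of `W`, `Y` and the parameter. The entropy of `U` given the parameter is bounded
below by the average number of collisions. All errors are linear in the entropy deficits.
-/

set_option autoImplicit false

namespace Pool.OWN68

open Finset Real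
open Pool.Agent.H49.Ent Pool.Agent.H32.Dense Pool.STK

open Classical in
/-- **The core.** -/
theorem core {Ω 𝒲 𝒴 𝒢 𝒰 : Type} [Fintype Ω] {p : Ω → ℝ} (hp : IsLaw p) (W : Ω → 𝒲)
    (Y : Ω → 𝒴) (c : Ω → 𝒢) (U : 𝒲 → 𝒴 → 𝒢 → 𝒰) (B : Finset 𝒢)
    (hc : ∀ ω, 0 < p ω → c ω ∈ B) (g : 𝒲 → 𝒴 → 𝒢 → ℝ) (hg : ∀ w y x, 0 < g w y x)
    (m : 𝒲 → 𝒴 → ℝ) (hm : ∀ ω, 0 < p ω → 0 < m (W ω) (Y ω))
    (h1 : ∀ ω, 0 < p ω → ∑ ω', (if W ω' = W ω then p ω' * ∑ x ∈ B,
      (if U (W ω) (Y ω') x = U (W ω) (Y ω) x then g (W ω) (Y ω) x else 0) else 0) ≤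
        B.card * (law p W (W ω) * m (W ω) (Y ω))) :
    2 * CH p c (fun ω => (Y ω, W ω)) - 2 * Real.log B.card +
      Ex p (fun ω => Real.log (g (W ω) (Y ω) (c ω))) -
      Ex p (fun ω => Real.log (m (W ω) (Y ω))) ≤
    CH p (fun ω => U (W ω) (Y ω) (c ω)) (fun ω => (c ω, W ω)) := by
  have h0 := hp.nonneg
  obtain ⟨ω₀, hω₀⟩ : ∃ ω, 0 < p ω := by
    by_contra hcon
    push Not at hcon
    have : ∑ ω, p ω ≤ 0 := Finset.sum_nonpos fun ω _ => hcon ω
    rw [hp.sum_one] at this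
    linarith
  have hN : (0 : ℝ) < B.card := by
    have : 0 < B.card := Finset.card_pos.mpr ⟨_, hc _ hω₀⟩
    exact_mod_cast this
  set X : Ω → 𝒰 := fun ω => U (W ω) (Y ω) (c ω) with hX
  -- the laws
  obtain ⟨L, hL⟩ : ∃ L : 𝒲 → ℝ, L = law p W := ⟨_, rfl⟩
  obtain ⟨V, hV⟩ : ∃ V : 𝒲 → 𝒰 → 𝒢 → ℝ, V = fun w u x =>
    ∑ ω', if W ω' = w ∧ U w (Y ω') x = u then p ω' else 0 := ⟨_, rfl⟩
  have Lpos : ∀ ω, 0 < p ω → 0 < L (W ω) := fun ω hω => by
    rw [hL]
    exact law_pos h0 W hω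
  have L0 : ∀ w, 0 ≤ L w := fun w => by
    rw [hL]
    exact law_nonneg h0 W w
  have V0 : ∀ w u x, 0 ≤ V w u x := fun w u x => by
    rw [hV]
    refine Finset.sum_nonneg fun ω' _ => ?_
    split_ifs
    exacts [h0 ω', le_rfl]
  have Vpos : ∀ ω, 0 < p ω → ∀ x, 0 < V (W ω) (U (W ω) (Y ω) x) x := fun ω hω x => by
    rw [hV]
    refine hω.trans_le ?_
    have := Finset.single_le_sum (f := fun ω' => if W ω' = W ω ∧ U (W ω) (Y ω') x =
      U (W ω) (Y ω) x then p ω' else 0) (fun ω' _ => by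
        split_ifs
        exacts [h0 ω', le_rfl]) (Finset.mem_univ ω)
    simpa using this
  -- collisions
  have c1 : ∀ ω, 0 < p ω → ∑ x ∈ B, V (W ω) (U (W ω) (Y ω) x) x * g (W ω) (Y ω) x ≤
      B.card * (L (W ω) * m (W ω) (Y ω)) := by
    intro ω hω
    rw [hL]
    refine le_trans (le_of_eq ?_) (h1 ω hω)
    rw [hV]
    dsimp only
    have e1 : ∀ x ∈ B, (∑ ω', if W ω' = W ω ∧ U (W ω) (Y ω') x = U (W ω) (Y ω) x then p ω'
        else 0) * g (W ω) (Y ω) x = ∑ ω', if W ω' = W ω ∧ U (W ω) (Y ω') x = U (W ω) (Y ω) x then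
          p ω' * g (W ω) (Y ω) x else 0 := by
      intro x _
      rw [Finset.sum_mul]
      refine Finset.sum_congr rfl fun ω' _ => ?_
      split_ifs
      · rfl
      · rw [zero_mul]
    rw [Finset.sum_congr rfl e1, Finset.sum_comm]
    refine Finset.sum_congr rfl fun ω' _ => ?_
    by_cases hw : W ω' = W ω
    · rw [if_pos hw, Finset.mul_sum]
      refine Finset.sum_congr rfl fun x _ => ?_
      by_cases hu : U (W ω) (Y ω') x = U (W ω) (Y ω) x
      · rw [if_pos ⟨hw, hu⟩, if_pos hu]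
      · rw [if_neg (fun hh => hu hh.2), if_neg hu, mul_zero]
    · rw [if_neg hw]
      refine Finset.sum_eq_zero fun x _ => ?_
      rw [if_neg (fun hh => hw hh.1)]
  -- the cross entropies
  have g1 : CH p Y (fun ω => (X ω, (c ω, W ω))) ≤ Ex p (fun ω =>
      -Real.log (law p (fun ω => (Y ω, W ω)) (Y ω, W ω) / V (W ω) (X ω) (c ω))) := by
    have := CH_le_cross h0 hp.sum_one Y (fun ω => (X ω, (c ω, W ω)))
      (fun z y => if U z.2.2 y z.2.1 = z.1 then
        law p (fun ω => (Y ω, W ω)) (y, z.2.2) / V z.2.2 z.1 z.2.1 else 0) (fun ω hω => ?_)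
      (fun z y => ?_) (fun ω hω F => ?_)
    · refine this.trans (le_of_eq ?_)
      unfold Ex
      refine Finset.sum_congr rfl fun ω _ => ?_
      dsimp only
      rw [if_pos (show U (W ω) (Y ω) (c ω) = X ω from rfl)]
    · dsimp only
      rw [if_pos (show U (W ω) (Y ω) (c ω) = X ω from rfl)]
      exact div_pos (law_pos h0 _ hω) (Vpos ω hω (c ω))
    · split_ifs
      · exact div_nonneg (law_nonneg h0 _ _) (V0 _ _ _)
      · exact le_rfl
    · have hv := Vpos ω hω (c ω)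
      have e1 : ∀ y, (if U (W ω) y (c ω) = X ω then
          law p (fun ω => (Y ω, W ω)) (y, W ω) / V (W ω) (X ω) (c ω) else 0) =
          (if U (W ω) y (c ω) = X ω then law p (fun ω => (Y ω, W ω)) (y, W ω) else 0) /
            V (W ω) (X ω) (c ω) := fun y => by
        split_ifs
        · rfl
        · rw [zero_div]
      rw [Finset.sum_congr rfl fun y _ => e1 y, ← Finset.sum_div, div_le_one hv, hV]
      have e2 : ∀ y ∈ F, (if U (W ω) y (c ω) = X ω then
          law p (fun ω => (Y ω, W ω)) (y, W ω) else 0) =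
          ∑ ω', if Y ω' = y then (if W ω' = W ω ∧ U (W ω) (Y ω') (c ω) = X ω then p ω' else 0)
            else 0 := by
        intro y _
        unfold law
        split_ifs with hy
        · refine Finset.sum_congr rfl fun ω' _ => ?_
          by_cases h3 : Y ω' = y
          · by_cases h4 : W ω' = W ω
            · rw [if_pos (Prod.ext h3 h4), if_pos h3, if_pos ⟨h4, by rw [h3]; exact hy⟩]
            · rw [if_neg (fun hh => h4 (Prod.ext_iff.mp hh).2), if_pos h3,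
                if_neg (fun hh => h4 hh.1)]
          · rw [if_neg (fun hh => h3 (Prod.ext_iff.mp hh).1), if_neg h3]
        · refine (Finset.sum_eq_zero fun ω' _ => ?_).symm
          split_ifs with h3 h4
          · exact absurd (by rw [← h3]; exact h4.2) hy
          · rfl
          · rfl
      rw [Finset.sum_congr rfl e2, Finset.sum_comm]
      refine Finset.sum_le_sum fun ω' _ => ?_
      rw [Finset.sum_ite_eq F (Y ω')]
      split_ifs
      exacts [le_rfl, le_rfl, h0 ω', le_rfl]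
  have g2 := CH_eq_neg_sum h0 Y W
  have g3 : CH p c (fun ω => (Y ω, W ω)) ≤ Ex p (fun ω =>
      -Real.log (V (W ω) (X ω) (c ω) * g (W ω) (Y ω) (c ω) /
        (B.card * (L (W ω) * m (W ω) (Y ω))))) := by
    have := CH_le_cross h0 hp.sum_one c (fun ω => (Y ω, W ω))
      (fun z x => if x ∈ B ∧ 0 < m z.2 z.1 then
        V z.2 (U z.2 z.1 x) x * g z.2 z.1 x / (B.card * (L z.2 * m z.2 z.1)) else 0)
      (fun ω hω => ?_) (fun z y => ?_) (fun ω hω F => ?_)
    · refine this.trans ?_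
      refine Ex_mono h0 fun ω hω => ?_
      dsimp only
      rw [if_pos ⟨hc ω hω, hm ω hω⟩]
    · dsimp only
      rw [if_pos ⟨hc ω hω, hm ω hω⟩]
      exact div_pos (mul_pos (Vpos ω hω (c ω)) (hg _ _ _))
        (mul_pos hN (mul_pos (Lpos ω hω) (hm ω hω)))
    · split_ifs with hh
      · exact div_nonneg (mul_nonneg (V0 _ _ _) (hg _ _ _).le)
          (mul_nonneg hN.le (mul_nonneg (L0 _) hh.2.le))
      · exact le_rfl
    · have hd' : 0 < (B.card : ℝ) * (L (W ω) * m (W ω) (Y ω)) :=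
        mul_pos hN (mul_pos (Lpos ω hω) (hm ω hω))
      have e1 : ∑ x ∈ F, (if x ∈ B ∧ 0 < m (W ω) (Y ω) then V (W ω) (U (W ω) (Y ω) x) x *
          g (W ω) (Y ω) x / (B.card * (L (W ω) * m (W ω) (Y ω))) else 0) ≤
          ∑ x ∈ B, V (W ω) (U (W ω) (Y ω) x) x * g (W ω) (Y ω) x /
            (B.card * (L (W ω) * m (W ω) (Y ω))) := by
        rw [← Finset.sum_filter]
        refine Finset.sum_le_sum_of_subset_of_nonneg (fun x hx => (Finset.mem_filter.mp hx).2.1)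
          fun x _ _ => div_nonneg (mul_nonneg (V0 _ _ _) (hg _ _ _).le) hd'.le
      refine e1.trans ?_
      rw [← Finset.sum_div, div_le_one hd']
      exact c1 ω hω
  have g5 : CH p c W ≤ Real.log B.card := by
    have h := CH_le_card h0 hp.sum_one c W (fun _ => B) hc
    rwa [Ex_const hp.sum_one] at h
  -- the chain rules
  have k1 := CH_le_add h0 Y X (fun ω => (c ω, W ω))
  have k2 := CH_chain h0 Y c W
  have k3 := CH_chain h0 c Y W
  have k4 : CH p (fun ω => (Y ω, c ω)) W = CH p (fun ω => (c ω, Y ω)) W := by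
    refine CH_congr h0 ?_ ?_ (fun _ _ _ _ h => h) (fun _ _ _ _ h => h) <;>
    · intro ω ω' _ _ h
      simp only [Prod.mk.injEq] at h ⊢
      tauto
  -- the expectations
  obtain ⟨a1, ha1⟩ : ∃ a, a = Ex p (fun ω => Real.log (V (W ω) (X ω) (c ω))) := ⟨_, rfl⟩
  obtain ⟨a2, ha2⟩ : ∃ a, a = Ex p (fun ω => Real.log (L (W ω))) := ⟨_, rfl⟩
  obtain ⟨a3, ha3⟩ : ∃ a, a = Ex p (fun ω => Real.log (m (W ω) (Y ω))) := ⟨_, rfl⟩
  obtain ⟨a4, ha4⟩ : ∃ a, a = Ex p (fun ω =>
    Real.log (law p (fun ω => (Y ω, W ω)) (Y ω, W ω))) := ⟨_, rfl⟩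
  obtain ⟨a5, ha5⟩ : ∃ a, a = Ex p (fun ω => Real.log (g (W ω) (Y ω) (c ω))) := ⟨_, rfl⟩
  have f1 : Ex p (fun ω => -Real.log (law p (fun ω => (Y ω, W ω)) (Y ω, W ω) /
      V (W ω) (X ω) (c ω))) ≤ a1 - a4 := by
    rw [ha1, ha4, ← Ex_sub]
    refine Ex_mono h0 fun ω hω => ?_
    rw [Real.log_div (law_pos h0 _ hω).ne' (Vpos ω hω (c ω)).ne']
    linarith
  have f2 : a2 - a4 ≤ Ex p (fun ω => -Real.log (law p (fun ω => (Y ω, W ω)) (Y ω, W ω) /
      law p W (W ω))) := by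
    rw [ha2, ha4, ← Ex_sub]
    refine Ex_mono h0 fun ω hω => ?_
    rw [Real.log_div (law_pos h0 _ hω).ne' (law_pos h0 W hω).ne', hL]
    linarith
  have f3 : Ex p (fun ω => -Real.log (V (W ω) (X ω) (c ω) * g (W ω) (Y ω) (c ω) /
      (B.card * (L (W ω) * m (W ω) (Y ω))))) ≤ Real.log B.card + a2 + a3 - a1 - a5 := by
    have e : Real.log B.card = Ex p (fun _ => Real.log B.card) := (Ex_const hp.sum_one _).symm
    rw [ha1, ha2, ha3, ha5, e, ← Ex_add, ← Ex_add, ← Ex_sub, ← Ex_sub]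
    refine Ex_mono h0 fun ω hω => ?_
    rw [Real.log_div (mul_pos (Vpos ω hω (c ω)) (hg _ _ _)).ne'
        (mul_pos hN (mul_pos (Lpos ω hω) (hm ω hω))).ne',
      Real.log_mul (Vpos ω hω (c ω)).ne' (hg _ _ _).ne',
      Real.log_mul hN.ne' (mul_pos (Lpos ω hω) (hm ω hω)).ne',
      Real.log_mul (Lpos ω hω).ne' (hm ω hω).ne']
    linarith
  rw [← ha5, ← ha3]
  have k5 : CH p X (fun ω => (c ω, W ω)) = CH p (fun ω => U (W ω) (Y ω) (c ω))
    (fun ω => (c ω, W ω)) := rfl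
  rw [← k5]
  linarith

open Classical in
/-- **Kaufman's theorem, abstract form.** -/
theorem kfk {Ω 𝒲 𝒴 𝒢 𝒟 𝒰 : Type} [Fintype Ω] {p : Ω → ℝ} (hp : IsLaw p) (W : Ω → 𝒲)
    (Y : Ω → 𝒴) (c : Ω → 𝒢) (dd : 𝒴 → 𝒟) (U : 𝒲 → 𝒴 → 𝒢 → 𝒰) (B : Finset 𝒢) (B' : Finset 𝒟)
    (hc : ∀ ω, 0 < p ω → c ω ∈ B) (hd : ∀ ω, 0 < p ω → dd (Y ω) ∈ B')
    (g : 𝒲 → 𝒴 → 𝒢 → ℝ) (hg : ∀ w y x, 0 < g w y x)
    (ψ : 𝒲 → 𝒟 → 𝒴 → ℝ) (hψ : ∀ w d y, 0 < ψ w d y) (β : 𝒲 → ℝ) (hβ : ∀ w, 0 < β w)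
    (h1 : ∀ ω ω', 0 < p ω → 0 < p ω' → W ω' = W ω → ∑ x ∈ B,
      (if U (W ω) (Y ω') x = U (W ω) (Y ω) x then g (W ω) (Y ω) x else 0) ≤
        B.card * ψ (W ω) (dd (Y ω)) (Y ω'))
    (h2 : ∀ ω', 0 < p ω' → ∑ x ∈ B', ψ (W ω') x (Y ω') ≤ B'.card * β (W ω')) :
    2 * CH p c (fun ω => (Y ω, W ω)) + CH p (fun ω => dd (Y ω)) W - 2 * Real.log B.card -
      Real.log B'.card + Ex p (fun ω => Real.log (g (W ω) (Y ω) (c ω))) -
      Ex p (fun ω => Real.log (β (W ω))) ≤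
    CH p (fun ω => U (W ω) (Y ω) (c ω)) (fun ω => (c ω, W ω)) := by
  have h0 := hp.nonneg
  obtain ⟨ω₀, hω₀⟩ : ∃ ω, 0 < p ω := by
    by_contra hcon
    push Not at hcon
    have : ∑ ω, p ω ≤ 0 := Finset.sum_nonpos fun ω _ => hcon ω
    rw [hp.sum_one] at this
    linarith
  have hN' : (0 : ℝ) < B'.card := by
    have : 0 < B'.card := Finset.card_pos.mpr ⟨_, hd _ hω₀⟩
    exact_mod_cast this
  obtain ⟨L, hL⟩ : ∃ L : 𝒲 → ℝ, L = law p W := ⟨_, rfl⟩
  obtain ⟨m, hm⟩ : ∃ m : 𝒲 → 𝒟 → ℝ, m = fun w x =>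
    (∑ ω', if W ω' = w then p ω' * ψ w x (Y ω') else 0) / L w := ⟨_, rfl⟩
  have Lpos : ∀ ω, 0 < p ω → 0 < L (W ω) := fun ω hω => by
    rw [hL]
    exact law_pos h0 W hω
  have L0 : ∀ w, 0 ≤ L w := fun w => by
    rw [hL]
    exact law_nonneg h0 W w
  have mpos : ∀ ω, 0 < p ω → ∀ x, 0 < m (W ω) x := fun ω hω x => by
    rw [hm]
    refine div_pos ?_ (Lpos ω hω)
    refine (mul_pos hω (hψ (W ω) x (Y ω))).trans_le ?_
    have := Finset.single_le_sum (f := fun ω' => if W ω' = W ω then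
      p ω' * ψ (W ω) x (Y ω') else 0) (fun ω' _ => by
        split_ifs
        exacts [mul_nonneg (h0 ω') (hψ _ _ _).le, le_rfl]) (Finset.mem_univ ω)
    simpa using this
  have m0 : ∀ w x, 0 ≤ m w x := fun w x => by
    rw [hm]
    refine div_nonneg (Finset.sum_nonneg fun ω' _ => ?_) (L0 w)
    split_ifs
    exacts [mul_nonneg (h0 ω') (hψ _ _ _).le, le_rfl]
  have mL : ∀ ω, 0 < p ω → ∀ x, L (W ω) * m (W ω) x =
      ∑ ω', if W ω' = W ω then p ω' * ψ (W ω) x (Y ω') else 0 := fun ω hω x => by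
    rw [hm]
    exact mul_div_cancel₀ _ (Lpos ω hω).ne'
  have c2 : ∀ ω, 0 < p ω → ∑ x ∈ B', m (W ω) x ≤ B'.card * β (W ω) := by
    intro ω hω
    have hl := Lpos ω hω
    have e1 : L (W ω) * ∑ x ∈ B', m (W ω) x ≤ L (W ω) * (B'.card * β (W ω)) := by
      rw [Finset.mul_sum, Finset.sum_congr rfl fun x _ => mL ω hω x, Finset.sum_comm]
      have e2 : L (W ω) = ∑ ω', if W ω' = W ω then p ω' else 0 := by
        rw [hL]
        rfl
      rw [e2, Finset.sum_mul]
      refine Finset.sum_le_sum fun ω' _ => ?_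
      by_cases hw : W ω' = W ω
      · rw [if_pos hw]
        rw [Finset.sum_congr rfl fun x _ => if_pos hw, ← Finset.mul_sum]
        rcases (h0 ω').eq_or_lt with hz | hz
        · rw [← hz]
          simp
        · have := h2 ω' hz
          rw [hw] at this
          exact mul_le_mul_of_nonneg_left this hz.le
      · rw [if_neg hw, zero_mul]
        exact (Finset.sum_eq_zero fun x _ => if_neg hw).le
    exact le_of_mul_le_mul_left e1 hl
  have k1 := core hp W Y c U B hc g hg (fun w y => m w (dd y)) (fun ω hω => mpos ω hω _)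
    (fun ω hω => by
      rw [← hL, mL ω hω, Finset.mul_sum]
      refine Finset.sum_le_sum fun ω' _ => ?_
      by_cases hw : W ω' = W ω
      · rw [if_pos hw, if_pos hw]
        rcases (h0 ω').eq_or_lt with hz | hz
        · rw [← hz]
          simp
        · have := mul_le_mul_of_nonneg_left (h1 ω ω' hω hz hw) hz.le
          refine this.trans (le_of_eq ?_)
          ring
      · rw [if_neg hw, if_neg hw, mul_zero])
  have g4 : CH p (fun ω => dd (Y ω)) W ≤ Ex p (fun ω =>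
      -Real.log (m (W ω) (dd (Y ω)) / (B'.card * β (W ω)))) := by
    have := CH_le_cross h0 hp.sum_one (fun ω => dd (Y ω)) W
      (fun w x => if x ∈ B' then m w x / (B'.card * β w) else 0) (fun ω hω => ?_)
      (fun z y => ?_) (fun ω hω F => ?_)
    · refine this.trans ?_
      refine Ex_mono h0 fun ω hω => ?_
      rw [if_pos (hd ω hω)]
    · rw [if_pos (hd ω hω)]
      exact div_pos (mpos ω hω _) (mul_pos hN' (hβ _))
    · split_ifs
      · exact div_nonneg (m0 _ _) (mul_nonneg hN'.le (hβ _).le)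
      · exact le_rfl
    · have hd' : 0 < (B'.card : ℝ) * β (W ω) := mul_pos hN' (hβ _)
      have e1 : ∑ x ∈ F, (if x ∈ B' then m (W ω) x / (B'.card * β (W ω)) else 0) ≤
          ∑ x ∈ B', m (W ω) x / (B'.card * β (W ω)) := by
        rw [← Finset.sum_filter]
        refine Finset.sum_le_sum_of_subset_of_nonneg (fun x hx => (Finset.mem_filter.mp hx).2)
          fun x _ _ => div_nonneg (m0 _ _) hd'.le
      refine e1.trans ?_
      rw [← Finset.sum_div, div_le_one hd']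
      exact c2 ω hω
  have f4 : Ex p (fun ω => -Real.log (m (W ω) (dd (Y ω)) / (B'.card * β (W ω)))) ≤
      Real.log B'.card + Ex p (fun ω => Real.log (β (W ω))) -
        Ex p (fun ω => Real.log (m (W ω) (dd (Y ω)))) := by
    have e : Real.log B'.card = Ex p (fun _ => Real.log B'.card) :=
      (Ex_const hp.sum_one _).symm
    rw [e, ← Ex_add, ← Ex_sub]
    refine Ex_mono h0 fun ω hω => ?_
    rw [Real.log_div (mpos ω hω _).ne' (mul_pos hN' (hβ _)).ne',
      Real.log_mul hN'.ne' (hβ _).ne']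
    linarith
  linarith

end Pool.OWN68
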