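import Pool.Agent.H68.OWN.Hop
import Pool.Agent.H68.OWN.Ker
import Pool.Agent.H68.OWN.Uv
import Pool.Agent.H32.Dense.Marg

/-!
# Hops: the entropy of the copy, and the conclusion

`hop`: let `l₁` be a copy of the line `l₀` given the ball `G(l₀, T₁)` at the time `T₁`; on the copies
of the ball the coordinate `n` of the two lines differs by `(c(l₁) - c(l₀)) ((τ - T₁) / M) ^ k` up to
`K`. If the coordinate `n` is nonfull given the context `C`, for all laws of density at most `R`, then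
`|c(l₁) - c(l₀)| < m₀` with probability at least `1 - 1 / R`.

`hop_ent`: then `c / m₀` has few bits given `G`.
-/

set_option autoImplicit false

namespace Pool.OWN68

open Finset Real
open Pool.Agent.H49.Ent Pool.Agent.H32.Dense Pool.STK

/-- The deficit on an event. -/
theorem deficit_ev2 {Ω S T : Type} [Fintype Ω] {p : Ω → ℝ} (hp : IsLaw p) (A : Ω → S) (Z : Ω → T)
    {L e c₀ : ℝ} (hc₀ : 0 < c₀) (he : 0 ≤ e)
    (hL : ∀ q : Ω → ℝ, IsLaw q → (∀ ω, 0 < q ω → 0 < p ω) → CH q A Z ≤ L)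
    (h : L - e ≤ CH p A Z) (E : Ω → Prop) (hE1 : c₀ ≤ law p E True) :
    L - (e + Real.log 2) / c₀ ≤ CH (cond p E True) A Z := by
  classical
  have h0 := hp.nonneg
  have hE0 : 0 < law p E True := hc₀.trans_le hE1
  have h2 : CH p E Z ≤ Real.log 2 := by
    have h3 := CH_le_card h0 hp.sum_one E Z (fun _ => {True, False}) (fun ω _ => by
      by_cases hh : E ω
      · simp [hh]
      · simp [hh])
    refine h3.trans (le_of_eq ?_)
    rw [← Ex_const hp.sum_one (Real.log 2)]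
    have e1 : (({True, False} : Finset Prop).card : ℝ) = 2 := by
      rw [Finset.card_pair (by simp)]
      norm_num
    unfold Ex
    refine Finset.sum_congr rfl fun ω _ => ?_
    show p ω * Real.log _ = p ω * Real.log _
    rw [e1]
  have h4 := CH_cond_add h0 A E Z
  have h4' : CH p A (fun ω => (E ω, Z ω)) ≤ CH p A (fun ω => (Z ω, E ω)) :=
    CH_mono_cond h0 fun ω ω' _ _ hz => by
      have h5 := Prod.ext_iff.mp hz
      exact Prod.ext h5.2 h5.1
  have h1 : L - (e + Real.log 2) ≤ CH p A (fun ω => (Z ω, E ω)) := by linarith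
  have h6 := deficit_ev hp A (fun ω => (Z ω, E ω)) (L := L) (e := e + Real.log 2) hc₀
    (by have := Real.log_nonneg (by norm_num : (1 : ℝ) ≤ 2); linarith)
    (fun q hq hqp => (CH_mono_cond hq.nonneg fun ω ω' _ _ hz => (Prod.ext_iff.mp hz).1).trans
      (hL q hq hqp)) h1 E (fun ω ω' hz => by
        have h5 := (Prod.ext_iff.mp hz).2
        exact iff_of_eq h5) hE1
  exact h6.trans (CH_mono_cond (cond_nonneg h0 E True) fun ω ω' _ _ hz => (Prod.ext_iff.mp hz).1)

/-- Integers in a box. -/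
theorem CH_le_box {Ω T : Type} [Fintype Ω] {q : Ω → ℝ} (hq : IsLaw q) (t : Ω → ℤ) (Z : Ω → T)
    {M : ℕ} (ht : ∀ ω, 0 < q ω → |t ω| ≤ (M : ℤ)) : CH q t Z ≤ Real.log (2 * M + 1) := by
  have h := CH_fn hq.nonneg hq.sum_one t Z (fun _ => 0) M fun ω hω => by
    rw [sub_zero]
    exact ht ω hω
  exact h

/-- **The entropy of the copy.** -/
theorem hop_core {Ω Λ : Type} [Fintype Ω] {p : Ω → ℝ} (hp : IsLaw p) {k M K : ℕ}
    (hk : k = 1 ∨ k = 2) (hM : 1 ≤ M) (L0 L1 : Ω → Λ) (T1 t : Ω → ℤ) (c : Λ → ℝ) (n : Λ → ℤ → ℤ)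
    {m₀ : ℝ} (hm₀ : 0 < m₀) (hmM : m₀ ≤ M) (ht : ∀ ω, 0 < p ω → |t ω| ≤ (M : ℤ))
    (hT : ∀ ω, 0 < p ω → |T1 ω| ≤ (M : ℤ)) (hD : ∀ ω, 0 < p ω → m₀ ≤ |c (L1 ω) - c (L0 ω)|)
    (hn : ∀ ω, 0 < p ω → ∀ τ : ℤ, |τ| ≤ (M : ℤ) → |((n (L1 ω) τ : ℝ) - n (L0 ω) τ) -
      (c (L1 ω) - c (L0 ω)) * (((τ : ℝ) - T1 ω) / M) ^ k| ≤ K) :
    2 * CH p t (fun ω => ((L1 ω, T1 ω), L0 ω)) + CH p T1 L0 - 3 * Real.log (2 * M + 1) +
      Real.log m₀ - Real.log ((2 + 16 * K) * (1 + Real.log (2 * M + 1))) ≤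
    CH p (fun ω => n (L1 ω) (t ω)) (fun ω => (t ω, L0 ω)) := by
  classical
  have hMr : (1 : ℝ) ≤ M := by exact_mod_cast hM
  have hlam : (0 : ℝ) ≤ 2 * K := by positivity
  have hlog : 0 ≤ Real.log (2 * M + 1) := Real.log_nonneg (by linarith)
  set Lg : ℝ := 1 + Real.log (2 * M + 1) with hLg
  have hLg0 : 0 < Lg := by linarith
  have h2M : (0 : ℝ) < 2 * M + 1 := by linarith
  set B : Finset ℤ := Finset.Icc (-(M : ℤ)) M with hB
  have hcB : (B.card : ℝ) = 2 * M + 1 := by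
    rw [hB, card_I]
    push_cast
    ring
  have mem : ∀ x : ℤ, |x| ≤ (M : ℤ) → x ∈ B := fun x hx => Finset.mem_Icc.mpr (abs_le.mp hx)
  have hβ : 0 < (2 + 8 * (2 * (K : ℝ))) * Lg / m₀ := by positivity
  have key := kfk hp L0 (fun ω => (L1 ω, T1 ω)) t (fun y : Λ × ℤ => y.2)
    (fun _ (y : Λ × ℤ) x => n y.1 x) B B (fun ω hω => mem _ (ht ω hω)) (fun ω hω => mem _ (hT ω hω))
    (fun _ _ _ => 1) (fun _ _ _ => one_pos)
    (fun _ d (y : Λ × ℤ) => hcn M (2 * K) m₀ d y.2 / (2 * M + 1))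
    (fun _ d y => div_pos (hcn_pos M hm₀ hlam d y.2) h2M)
    (fun _ => (2 + 8 * (2 * (K : ℝ))) * Lg / m₀) (fun _ => hβ)
    (by
      intro ω ω' hω hω' hW
      dsimp only
      rw [hcB, mul_div_cancel₀ _ h2M.ne']
      refine le_trans (b := ((B.filter fun x => n (L1 ω') x = n (L1 ω) x).card : ℝ)) (le_of_eq ?_) ?_
      · rw [Finset.card_filter]
        push_cast
        refine Finset.sum_congr rfl fun x _ => ?_
        split_ifs <;> rfl
      unfold hcn
      split_ifs with hTT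
      · exact card_le_box _ fun x hx => abs_le.mpr (Finset.mem_Icc.mp (Finset.mem_filter.mp hx).1)
      · refine cnt_hop (k := k) (D := c (L1 ω) - c (L0 ω)) (D' := c (L1 ω') - c (L0 ω')) hk hM hm₀
          hlam (hD ω hω) (hD ω' hω') (hT ω' hω') hTT _ fun x hx => ?_
        obtain ⟨hx1, hx2⟩ := Finset.mem_filter.mp hx
        have hx3 : |x| ≤ (M : ℤ) := abs_le.mpr (Finset.mem_Icc.mp hx1)
        refine ⟨hx3, ?_⟩
        have g1 := abs_le.mp (hn ω hω x hx3)
        have g2 := abs_le.mp (hn ω' hω' x hx3)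
        have g3 : (n (L1 ω') x : ℝ) = n (L1 ω) x := by exact_mod_cast hx2
        have g4 : L0 ω' = L0 ω := hW
        rw [g3] at g2
        rw [abs_le]
        rw [g4] at g2 ⊢
        constructor <;> linarith [g1.1, g1.2, g2.1, g2.2])
    (by
      intro ω' hω'
      dsimp only
      have h1 := sum_hcn (M := M) (lam := 2 * K) hm₀ hmM hlam (T1 ω')
      rw [← Finset.sum_div, hcB, div_le_iff₀ h2M]
      refine h1.trans (le_of_eq ?_)
      rw [hLg]
      ring)
  have e1 : Ex p (fun ω => Real.log ((fun _ _ _ => (1 : ℝ)) (L0 ω) (L1 ω, T1 ω) (t ω))) = 0 := by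
    simp [Ex]
  have e2 : Ex p (fun _ => Real.log ((2 + 8 * (2 * (K : ℝ))) * Lg / m₀)) =
      Real.log ((2 + 16 * K) * Lg) - Real.log m₀ := by
    rw [Ex_const hp.sum_one, Real.log_div (by positivity) hm₀.ne']
    congr 3
    ring
  rw [hcB] at key
  have e1' : Ex p (fun ω => Real.log (1 : ℝ)) = 0 := by simp [Ex]
  rw [e1', e2] at key
  refine le_trans (le_of_eq ?_) key
  ring

open Classical in
/-- **A hop is small.** -/
theorem hop {Ω Λ Γ 𝒞 : Type} [Fintype Ω] {p : Ω → ℝ} (hp : IsLaw p) {k M K : ℕ}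
    (hk : k = 1 ∨ k = 2) (hM : 1 ≤ M) (L : Ω → Λ) (t : Ω → ℤ) (G : Ω → Γ) (C : Λ → 𝒞) (c : Λ → ℝ)
    (n : Λ → ℤ → ℤ) {m₀ R e U : ℝ} (hm₀ : 0 < m₀) (hmM : m₀ ≤ M) (hR : 0 < R) (he : 0 ≤ e)
    (ht : ∀ ω, 0 < p ω → |t ω| ≤ (M : ℤ))
    (hG : ∀ ω ω', 0 < p ω → 0 < p ω' → G ω = G ω' → C (L ω) = C (L ω') ∧
      ∀ τ : ℤ, |τ| ≤ (M : ℤ) → |((n (L ω') τ : ℝ) - n (L ω) τ) -
        (c (L ω') - c (L ω)) * (((τ : ℝ) - t ω) / M) ^ k| ≤ K)
    (hfull : Real.log (2 * M + 1) - e ≤ CH p t L)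
    (hNF : ∀ q : Ω → ℝ, IsLaw q → (∀ ω, q ω ≤ R * p ω) →
      CH q (fun ω => n (L ω) (t ω)) (fun ω => (t ω, C (L ω))) ≤ U)
    (hbig : U + R * (3 * e + Real.log 2) +
      Real.log ((2 + 16 * K) * (1 + Real.log (2 * M + 1))) < Real.log m₀) :
    ∑ w, (if m₀ ≤ |c (L w.2) - c (L w.1)| then glue p p G G w else 0) < 1 / R := by
  have h0 := hp.nonneg
  set P1 := glue p p G G with hP1
  have hP1law : IsLaw P1 := ⟨glue_nonneg h0 h0, by rw [hP1, sum_glue h0 (fun _ => rfl), hp.sum_one]⟩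
  set E1 : Ω × Ω → Prop := fun w => m₀ ≤ |c (L w.2) - c (L w.1)| with hE1
  have el1 : ∑ w, (if m₀ ≤ |c (L w.2) - c (L w.1)| then P1 w else 0) = law P1 E1 True := by
    unfold law
    refine Finset.sum_congr rfl fun w _ => ?_
    simp only [hE1, eq_iff_iff, iff_true]
  rw [el1]
  by_contra hcon
  push Not at hcon
  have hR' : 0 < 1 / R := by positivity
  -- the second gluing
  have hZ2 : ∀ z, law P1 (fun w => L w.2) z = law p L z := fun z => by
    rw [hP1]
    exact law_glue_snd h0 (fun _ => rfl) L z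
  set P2 := glue P1 p (fun w => L w.2) L with hP2
  have hP2law : IsLaw P2 :=
    ⟨glue_nonneg hP1law.nonneg h0, by rw [hP2, sum_glue hP1law.nonneg hZ2, hP1law.sum_one]⟩
  set E : (Ω × Ω) × Ω → Prop := fun u => E1 u.1 with hE
  have hEl : law P2 E True = law P1 E1 True := by
    rw [hP2]
    exact law_glue_fst hP1law.nonneg hZ2 E1 True
  have hEc : 1 / R ≤ law P2 E True := by rw [hEl]; exact hcon
  have hE0 : 0 < law P2 E True := hR'.trans_le hEc
  set Q := cond P2 E True with hQ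
  have hQlaw : IsLaw Q := ⟨cond_nonneg hP2law.nonneg E True, sum_cond P2 E hE0.ne'⟩
  have hsup : ∀ u, 0 < Q u → 0 < p u.1.1 ∧ 0 < p u.1.2 ∧ 0 < p u.2 ∧ G u.1.1 = G u.1.2 ∧
      L u.1.2 = L u.2 ∧ m₀ ≤ |c (L u.1.2) - c (L u.1.1)| := by
    intro u hu
    obtain ⟨h1, h2⟩ := (cond_pos_iff hP2law.nonneg E True u).mp hu
    obtain ⟨h3, h4, h5⟩ := (glue_pos_iff hP1law.nonneg h0 u).mp h1
    obtain ⟨h6, h7, h8⟩ := (glue_pos_iff h0 h0 u.1).mp h3
    exact ⟨h6, h7, h4, h8, h5, of_eq_true h2⟩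
  -- the time of the copy
  have ha : Real.log (2 * M + 1) - R * e ≤
      CH Q (fun u => t u.2) (fun u => ((L u.1.2, t u.1.1), L u.1.1)) := by
    have h1 : CH P2 (fun u => t u.2) (fun u => (L u.2, u.1)) = CH p t L := by
      rw [hP2]
      exact CH_glue_snd hP1law.nonneg h0 hZ2 t (Y := L) (fun w => w) (fun _ _ _ _ h => h)
    have h2 := deficit_ev hP2law (fun u => t u.2) (fun u => (L u.2, u.1))
      (L := Real.log (2 * M + 1)) (e := e) hR' he
      (fun q hq hqp => CH_le_box hq _ _ fun u hu => by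
        have h3 := hqp u hu
        exact ht _ ((glue_pos_iff hP1law.nonneg h0 u).mp h3).2.1)
      (by rw [h1]; exact hfull) E (fun u u' hz => by
        have h3 := (Prod.ext_iff.mp hz).2
        show E1 u.1 ↔ E1 u'.1
        rw [show u.1 = u'.1 from h3]) hEc
    have h3 : e / (1 / R) = R * e := by
      field_simp
    rw [h3] at h2
    refine h2.trans (CH_mono_cond hQlaw.nonneg fun u u' _ _ hz => ?_)
    have h4 : u.1 = u'.1 := (Prod.ext_iff.mp hz).2
    show ((L u.1.2, t u.1.1), L u.1.1) = ((L u'.1.2, t u'.1.1), L u'.1.1)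
    rw [h4]
  -- the time of the hop
  have hb : Real.log (2 * M + 1) - R * (e + Real.log 2) ≤
      CH Q (fun u => t u.1.1) (fun u => L u.1.1) := by
    have h1 : CH P2 (fun u => t u.1.1) (fun u => L u.1.1) = CH p t L := by
      unfold CH
      rw [hP2, H_glue_fst hP1law.nonneg hZ2 (fun w => (t w.1, L w.1)),
        H_glue_fst hP1law.nonneg hZ2 (fun w => L w.1), hP1,
        H_glue_fst h0 (fun _ => rfl) (fun ω => (t ω, L ω)), H_glue_fst h0 (fun _ => rfl) L]
    have h2 := deficit_ev2 hP2law (fun u => t u.1.1) (fun u => L u.1.1)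
      (L := Real.log (2 * M + 1)) (e := e) hR' he
      (fun q hq hqp => CH_le_box hq _ _ fun u hu => by
        have h3 := hqp u hu
        have h4 := ((glue_pos_iff hP1law.nonneg h0 u).mp h3).1
        exact ht _ ((glue_pos_iff h0 h0 u.1).mp h4).1)
      (by rw [h1]; exact hfull) E hEc
    have h3 : (e + Real.log 2) / (1 / R) = R * (e + Real.log 2) := by
      field_simp
    rwa [h3] at h2
  -- the entropy of the copy
  have hc := hop_core hQlaw hk hM (fun u => L u.1.1) (fun u => L u.1.2) (fun u => t u.1.1)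
    (fun u => t u.2) c n hm₀ hmM (fun u hu => ht _ (hsup u hu).2.2.1)
    (fun u hu => ht _ (hsup u hu).1) (fun u hu => (hsup u hu).2.2.2.2.2)
    (fun u hu => (hG _ _ (hsup u hu).1 (hsup u hu).2.1 (hsup u hu).2.2.2.1).2)
  -- comparison with the nonfull coordinate
  have hd : CH Q (fun u => n (L u.1.2) (t u.2)) (fun u => (t u.2, L u.1.1)) ≤ U := by
    have h1 : CH Q (fun u => n (L u.1.2) (t u.2)) (fun u => (t u.2, L u.1.1)) ≤
        CH Q (fun u => n (L u.1.2) (t u.2)) (fun u => (t u.2, C (L u.1.1))) :=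
      CH_mono_cond hQlaw.nonneg fun u u' _ _ hz => by
        have h2 := Prod.ext_iff.mp hz
        have h3 : L u.1.1 = L u'.1.1 := h2.2
        exact Prod.ext h2.1 (congrArg C h3)
    have h2 : CH Q (fun u => n (L u.1.2) (t u.2)) (fun u => (t u.2, C (L u.1.1))) =
        CH Q (fun u => n (L u.2) (t u.2)) (fun u => (t u.2, C (L u.2))) := by
      have e1 : ∀ u, 0 < Q u → L u.1.2 = L u.2 := fun u hu => (hsup u hu).2.2.2.2.1
      have e2 : ∀ u, 0 < Q u → C (L u.1.1) = C (L u.2) := fun u hu => by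
        rw [← e1 u hu]
        exact (hG _ _ (hsup u hu).1 (hsup u hu).2.1 (hsup u hu).2.2.2.1).1
      refine CH_congr hQlaw.nonneg ?_ ?_ ?_ ?_
      · intro u u' hu hu' hz
        have h3 : n (L u.1.2) (t u.2) = n (L u'.1.2) (t u'.2) := (Prod.ext_iff.mp hz).1
        rwa [e1 u hu, e1 u' hu'] at h3
      · intro u u' hu hu' hz
        have h3 : n (L u.2) (t u.2) = n (L u'.2) (t u'.2) := (Prod.ext_iff.mp hz).1
        show n (L u.1.2) (t u.2) = n (L u'.1.2) (t u'.2)
        rw [e1 u hu, e1 u' hu']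
        exact h3
      · intro u u' hu hu' hz
        have h3 := Prod.ext_iff.mp hz
        have h4 : C (L u.1.1) = C (L u'.1.1) := h3.2
        rw [e2 u hu, e2 u' hu'] at h4
        exact Prod.ext h3.1 h4
      · intro u u' hu hu' hz
        have h3 := Prod.ext_iff.mp hz
        have h4 : C (L u.2) = C (L u'.2) := h3.2
        rw [← e2 u hu, ← e2 u' hu'] at h4
        exact Prod.ext h3.1 h4
    have hpush : ∀ ω, law Q (fun u => u.2) ω = law Q (fun u => u.2) ω := fun _ => rfl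
    have h3 : CH Q (fun u => n (L u.2) (t u.2)) (fun u => (t u.2, C (L u.2))) =
        CH (fun ω => law Q (fun u => u.2) ω) (fun ω => n (L ω) (t ω))
          (fun ω => (t ω, C (L ω))) := by
      unfold CH
      rw [← H_eq_of_marginal (q := Q) (p := fun ω => law Q (fun u => u.2) ω) (fun u => u.2)
        (fun ω => rfl) (fun ω => (n (L ω) (t ω), (t ω, C (L ω)))),
        ← H_eq_of_marginal (q := Q) (p := fun ω => law Q (fun u => u.2) ω) (fun u => u.2)
        (fun ω => rfl) (fun ω => (t ω, C (L ω)))]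
    rw [h2, h3] at h1
    refine h1.trans (hNF _ ⟨fun ω => law_nonneg hQlaw.nonneg _ _, ?_⟩ fun ω => ?_)
    · have h4 : ∑ ω, law Q (fun u => u.2) ω = ∑ u, Q u := by
        unfold law
        rw [Finset.sum_comm]
        refine Finset.sum_congr rfl fun u _ => ?_
        rw [Finset.sum_ite_eq]
        simp
      rw [h4, hQlaw.sum_one]
    · have h4 : law Q (fun u => u.2) ω ≤ R * law P2 (fun u => u.2) ω := by
        unfold law
        rw [Finset.mul_sum]
        refine Finset.sum_le_sum fun u _ => ?_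
        by_cases hu : u.2 = ω
        · rw [if_pos hu, if_pos hu, hQ]
          unfold Pool.Agent.H49.Ent.cond
          split_ifs
          · rw [div_le_iff₀ hE0]
            have h5 : 1 ≤ R * law P2 E True := by
              have := mul_le_mul_of_nonneg_left hEc hR.le
              rwa [mul_one_div_cancel hR.ne'] at this
            nlinarith [hP2law.nonneg u]
          · exact mul_nonneg hR.le (hP2law.nonneg u)
        · rw [if_neg hu, if_neg hu, mul_zero]
      have h5 : law P2 (fun u => u.2) ω = p ω := by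
        rw [hP2, law_glue_snd h0 hZ2 (fun ω => ω) ω]
        unfold law
        rw [Finset.sum_ite_eq']
        simp
      rwa [h5] at h4
  nlinarith [hc, hd, ha, hb, hbig]

end Pool.OWN68
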