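import Pool.Agent.H68.OWN.Ktz
import Pool.Agent.H68.OWN.Uv

/-!
# One rough coordinate: no defect

`dead`: (II) of the own paths, for one finite law. `X` are the near digits of the coordinate at the
time `c`, `A` and `N` the near digits of the velocity and of the height at the time `0`, `W` the
context, `Y` side information. `Qa` is the record of the ball in which the velocity is known to the
place, `Qb` the record of the ball in which the position is known to the place, `d` the velocity to the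
place. If the coordinate has the defect `τ`, then its velocity is known by the free time, so its number
is `0` and the context is known in the ball `Qb`, where the coordinate is full.
-/

set_option autoImplicit false

namespace Pool.OWN68

open Finset Real
open Pool.Agent.H49.Ent Pool.Agent.H32.Dense Pool.STK

/-- **One rough coordinate.** -/
theorem dead {Ω ζ 𝒴 𝒜 ℬ 𝒟 : Type} [Fintype Ω] {p : Ω → ℝ} (hp : IsLaw p) (W : Ω → ζ) (Y : Ω → 𝒴)
    (Qa : Ω → 𝒜) (Qb : Ω → ℬ) (d : Ω → 𝒟) {C : ℕ} (hC : 1 ≤ C) (g : ℕ) {b : ℕ} (hb : 1 ≤ b)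
    (A N c X : Ω → ℤ) {K : ℕ}
    (hA : ∀ ω, 0 < p ω → |A ω| ≤ ((C * 2 ^ g : ℕ) : ℤ))
    (hc : ∀ ω, 0 < p ω → |c ω| ≤ ((C * 2 ^ g : ℕ) : ℤ))
    (hX : ∀ ω, 0 < p ω → |2 ^ g * X ω - (2 ^ g * N ω + A ω * c ω)| ≤ K * 2 ^ g)
    {τ c₀ e₁ ec err : ℝ} (hτ : 0 < τ) (hc₀ : 0 ≤ c₀) (he₁ : 0 ≤ e₁)
    (herr : 2 * ec + (b * Real.log 2 + Real.log (2 * (g + 1)) + Real.log (nlb 1 C g)) +
      Real.log (2 * C + 5) + 2 * Real.log (2 * (K + 1) + 1) ≤ err)
    (hct : Real.log (2 * (C * 2 ^ g : ℕ) + 1) - ec ≤ CH p c (fun ω => ((A ω, N ω), W ω)))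
    (hnf : ∀ E : Ω → Prop, (∀ ω ω', W ω = W ω' → A ω = A ω' → N ω = N ω' → (E ω ↔ E ω')) →
      0 < law p E True → c₀ ≤ law p E True → ∀ i, i ≤ g → b ∣ i →
      CH (cond p E True) X
        (fun ω => (c ω, ((A ω / 2 ^ (g - i), N ω / 2 ^ (g - i)), W ω))) ≤
        (1 - τ) * (((g : ℝ) - i) * Real.log 2) + e₁)
    (hall : CH p X (fun ω => (c ω, W ω)) ≤ (1 - τ) * (g * Real.log 2) + e₁)
    {ea eb eB eR ρ : ℝ} (hρ : 0 ≤ ρ)
    (hWa : CH p (fun ω => (X ω, (c ω, W ω))) (fun ω => (Qa ω, Y ω)) ≤ ea)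
    (hWb : CH p (fun ω => (c ω, W ω)) (fun ω => (d ω, (Qb ω, Y ω))) ≤ eb)
    (hR : CH p d (fun ω => (Qb ω, Y ω)) ≤ ρ * CH p A (fun ω => (Qa ω, Y ω)) + eR)
    (hL : g * Real.log 2 - eB ≤ CH p X (fun ω => (Qb ω, Y ω))) :
    CH p (fun ω => (A ω, N ω)) (fun ω => (X ω, (c ω, W ω))) ≤
      ((g / b : ℕ) + 1) * (c₀ * (g * Real.log 2)) + (e₁ + err) / τ + err ∧
    τ * (g * Real.log 2) ≤ e₁ + eB + eb + eR +
      ρ * (((g / b : ℕ) + 1) * (c₀ * (g * Real.log 2)) + (e₁ + err) / τ + err + ea) := by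
  have h0 := hp.nonneg
  obtain ⟨Z, hZ⟩ : ∃ Z, Z = ((g / b : ℕ) + 1) * (c₀ * (g * Real.log 2)) +
    (e₁ + err) / τ + err := ⟨_, rfl⟩
  have key := ktz hp W hC g hb A N c X hA hc hX hτ hc₀ he₁
    (by linarith : 2 * (Real.log (2 * (C * 2 ^ g : ℕ) + 1) -
      CH p c (fun ω => ((A ω, N ω), W ω))) +
      (b * Real.log 2 + Real.log (2 * (g + 1)) + Real.log (nlb 1 C g)) +
      Real.log (2 * C + 5) + 2 * Real.log (2 * (K + 1) + 1) ≤ err) hnf
  have key' : CH p (fun ω => (A ω, N ω)) (fun ω => (X ω, (c ω, W ω))) ≤ Z := by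
    rw [hZ]
    linarith
  refine ⟨by rw [← hZ]; exact key', ?_⟩
  rw [← hZ]
  -- the velocity in the ball `Qa`
  have a1 : CH p A (fun ω => (Qa ω, Y ω)) ≤ Z + ea := by
    have b1 := CH_le_add h0 A (fun ω => (X ω, (c ω, W ω))) (fun ω => (Qa ω, Y ω))
    have b2 : CH p A (fun ω => ((X ω, (c ω, W ω)), (Qa ω, Y ω))) ≤
        CH p A (fun ω => (X ω, (c ω, W ω))) :=
      CH_mono_cond h0 fun ω ω' _ _ h => (Prod.ext_iff.mp h).1
    have b3 : CH p A (fun ω => (X ω, (c ω, W ω))) ≤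
        CH p (fun ω => (A ω, N ω)) (fun ω => (X ω, (c ω, W ω))) :=
      CH_mono_left h0 fun ω ω' _ _ h => (Prod.ext_iff.mp (Prod.ext_iff.mp h).1).1
    linarith
  have a2 := mul_le_mul_of_nonneg_left a1 hρ
  -- the coordinate in the ball `Qb`
  have a3 := CH_le_add h0 X d (fun ω => (Qb ω, Y ω))
  have a4 := CH_le_add h0 X (fun ω => (c ω, W ω)) (fun ω => (d ω, (Qb ω, Y ω)))
  have a5 : CH p X (fun ω => ((c ω, W ω), (d ω, (Qb ω, Y ω)))) ≤ CH p X (fun ω => (c ω, W ω)) :=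
    CH_mono_cond h0 fun ω ω' _ _ h => (Prod.ext_iff.mp h).1
  linarith

end Pool.OWN68
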