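import Pool.Agent.H68.OWN.Nj

/-!
# The heights over a nested chain, with moving charts

`F1.pull`: a quantity computed from another one. `chainMh`, `chain_toh`: chains of windows for the
heights, relative to a quantity which determines the heights of the chain over the labels of every
window. `NumH`: the numbers. `hgts_of`: the hypothesis `hF` of `nfc_of`, for all heights of the
chain.
-/

set_option autoImplicit false

namespace Pool.OWN68

open Finset Real MvPolynomial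
open Pool.Agent.H49.Ent Pool.Agent.H32.Dense Pool.STK Pool.KA Pool.KSAT Pool.K2S Pool.PB Pool.GEN
open Pool.S6C Pool.RCD Pool.LA91

variable {m : ℕ} {U : Type} {α β γ : ∀ J : ℕ, Fam m J → Type}
  {f : ∀ (J : ℕ) (F : Fam m J), F.Ω → α J F} {g : ∀ (J : ℕ) (F : Fam m J), F.Ω → β J F}
  {y : ∀ (J : ℕ) (F : Fam m J), F.Ω → γ J F}
  {S : PCl m} {C₀ : ℝ}

/-- **A quantity computed from another one.** -/
theorem F1.pull (htm : TmC S C₀) {U₁ U' : Type} {Q : Qt m U} {Q₁ : Qt m U₁} {Q' : Qt m U'}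
    {e h : ℝ} (φ : U → U₁)
    (hφ : ∀ (K : ℕ) (e : ℝ) (J : ℕ) (F : Fam m J) (A : F.Ω → Prop) (u : F.Ω → U),
      Q.P K e J F A u → Q₁.P K e J F A (fun ω => φ (u ω)))
    (hF : F1 S f g y Q₁ Q' e h) : F1 S f g y Q Q' e h := by
  intro K
  refine Bas.mono 0 ((hF K).and (Pool.GRW.tmc_bas htm one_pos)) ?_
  rintro J - F A ⟨H, hA, -⟩ u u' hu hu'
  obtain ⟨V, z, hz, h1⟩ := H (fun ω => φ (u ω)) u' (hφ K e J F A u hu) hu'
  refine ⟨V, z, hz, le_trans (CH_mono_cond (isLaw_cond F.isLaw hA).nonneg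
    fun ω ω' _ _ hh => ?_) h1⟩
  simp only [Prod.mk.injEq] at hh ⊢
  exact ⟨by rw [hh.1], hh.2⟩

/-- **A chain of windows for the heights**, with the heights of the chain at every window. -/
theorem chainMh (htm : TmC S C₀) {c : ℕ → Fin m} {r₀ r : ℕ} {κ : Fin m}
    {a rk p₀ N N₁ ρ : ℝ} {Pv : ℕ → ℝ → ℝ} {Lm : ℕ → ℝ → ℝ} {Q : Qt m U}
    (hrk : 0 ≤ rk) (ha : a < 1) (hap : a < p₀) (hp0 : p₀ ≤ 1) (hρ : 0 < ρ)
    (hf : ∀ (J : ℕ) (F : Fam m J), ∃ φ : α J F → PtT F, ∀ ω, ptr F J ω = φ (f J F ω))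
    (hy : Kn0 ((range r₀).image c) p₀ y) (hN : N ≤ N₁)
    (b P : ℕ → ℝ)
    (hst : ∀ h : ℝ, 0 < h → F1 S f (vg a) y Q
      (qJet m ((range r).image c) κ 0 (b 0) (P 0) N₁) (ρ / 8) h) : ∀ n : ℕ,
    (∀ i ≤ n, b i ≤ a) →
    (∀ i ≤ n, Att S ((range r).image c) κ (b i) (P i) rk) →
    (∀ i ≤ n, ∃ (u₁ : ℝ) (rd : ℕ → ℝ), Chn S c r₀ r (b i) (b i) u₁ (fun l => Pv l (b i)) rd ∧
      ∀ l, r₀ ≤ l → l < r → 0 ≤ rd l) →
    (∀ i ≤ n, ∀ h : ℝ, 0 < h → F1 S f (vg a) y Q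
      (qJets m c r₀ r 0 (fun _ _ => b i) (fun l _ => Pv l (b i))
        (fun l _ => Pv l (b i) + Lm l (b i))) (ρ / 8) h) →
    (∀ i ≤ n, ∀ l, r₀ ≤ l → l < r → ρ < Lm l (b i)) →
    (∀ i ≤ n, ∀ l, r₀ ≤ l → l < r → Lm l (b i) ≤ p₀ - b i) →
    (∀ i ≤ n, ∀ l, r₀ ≤ l → l < r → ∀ l', r₀ ≤ l' → l' < l →
      Lm l (b i) + ρ ≤ Lm l' (b i)) →
    N + ρ ≤ P 0 + (p₀ - b 0) →
    (∀ l, r₀ ≤ l → l < r → N + 2 * ρ ≤ P 0 + Lm l (b 0)) →
    (∀ i < n, N + ρ ≤
      min (P i) (P (i + 1)) + (p₀ - max (b i) (b (i + 1)))) →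
    (∀ i < n, ∀ l, r₀ ≤ l → l < r → N + 2 * ρ ≤
      min (P i) (P (i + 1)) + Lm l (max (b i) (b (i + 1)))) →
    ∀ h : ℝ, 0 < h → F1 S f (vg a) y Q (qJet m ((range r).image c) κ 0 (b n) (P n) N)
      (ρ / 8) h := by
  -- one step
  have step : ∀ (w₁ w₂ β p₁ p₂ Na Nb : ℝ), w₁ ≤ β → w₂ ≤ β → β ≤ a →
      Att S ((range r).image c) κ w₁ p₁ rk →
      (∃ (u₁ : ℝ) (rd : ℕ → ℝ), Chn S c r₀ r β β u₁ (fun l => Pv l β) rd ∧
        ∀ l, r₀ ≤ l → l < r → 0 ≤ rd l) →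
      (∀ h : ℝ, 0 < h → F1 S f (vg a) y Q
        (qJets m c r₀ r 0 (fun _ _ => β) (fun l _ => Pv l β)
          (fun l _ => Pv l β + Lm l β)) (ρ / 8) h) →
      (∀ l, r₀ ≤ l → l < r → ρ < Lm l β) →
      (∀ l, r₀ ≤ l → l < r → Lm l β ≤ p₀ - β) →
      (∀ l, r₀ ≤ l → l < r → ∀ l', r₀ ≤ l' → l' < l → Lm l β + ρ ≤ Lm l' β) → Nb ≤ Na →
      Nb + ρ ≤ min p₁ p₂ + (p₀ - β) →
      (∀ l, r₀ ≤ l → l < r → Nb + 2 * ρ ≤ min p₁ p₂ + Lm l β) →
      (∀ h : ℝ, 0 < h → F1 S f (vg a) y Q (qJet m ((range r).image c) κ 0 w₁ p₁ Na)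
        (ρ / 8) h) →
      ∀ h : ℝ, 0 < h → F1 S f (vg a) y Q (qJet m ((range r).image c) κ 0 w₂ p₂ Nb)
        (ρ / 8) h := by
    intro w₁ w₂ β p₁ p₂ Na Nb h1 h2 h3 h5 h6 h7 h8 h9 h10 h11 h12 h13 h14 h hh
    obtain ⟨u₁, rd, hch, hrd⟩ := h6
    have e2 := hgt_F1 (y := y) htm hch (k := κ) (wv := fun _ _ => β)
      (pv := fun i _ => Pv i β) (Nv := fun l _ => Pv l β + Lm l β)
      (lv := fun l => Lm l β - ρ) (w₁ := w₁) (w₂ := w₂)
      (p₁ := p₁) (p₂ := p₂) (N₁ := Na) (N₂ := Nb) (p₀ := p₀) (σ₀ := ρ)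
      (fun _ _ _ _ _ => le_rfl) h1 h2 (lt_of_le_of_lt h3 hap) hp0 hρ
      (fun l x1 x2 => by linarith [h8 l x1 x2])
      (fun l x1 x2 => le_of_eq (by ring))
      (fun l x1 x2 => by
        rw [min_self]
        linarith [h9 l x1 x2])
      (fun l x1 x2 l' x3 x4 => by
        rw [min_self]
        linarith [h10 l x1 x2 l' x3 x4]) h11 h12
      (fun l x1 x2 => by linarith [h13 l x1 x2]) hf hy (h := h / 3) (by linarith)
    have e3 := F1.pair htm (h7 (h / 3) (by linarith)) (h14 (h / 3) (by linarith))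
    have e4 := F1.trans htm ((exs_qjets fun i hi0 hi j' _ => exs_jet (hrd i hi0 hi)
      (hch.att i hi0 hi)).prod (exs_jet hrk h5)) (by linarith) e3 (e2.up h3 ha.le)
    have e5 : h / 3 + h / 3 + h / 3 = h := by ring
    rwa [e5] at e4
  intro n
  induction n with
  | zero =>
    intro h1 h3 h4 hV h5 h6 h7 h8 h9 h10 h11 h hh
    exact step (b 0) (b 0) (b 0) (P 0) (P 0) N₁ N le_rfl le_rfl (h1 0 le_rfl)
      (h3 0 le_rfl) (h4 0 le_rfl) (hV 0 le_rfl) (h5 0 le_rfl) (h6 0 le_rfl) (h7 0 le_rfl) hN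
      (by rw [min_self]; exact h8) (fun l a b => by rw [min_self]; exact h9 l a b) hst h hh
  | succ n ih =>
    intro h1 h3 h4 hV h5 h6 h7 h8 h9 h10 h11 h hh
    have e1 := ih (fun i hi => h1 i (by omega))
      (fun i hi => h3 i (by omega)) (fun i hi => h4 i (by omega)) (fun i hi => hV i (by omega))
      (fun i hi => h5 i (by omega)) (fun i hi => h6 i (by omega)) (fun i hi => h7 i (by omega))
      h8 h9 (fun i hi => h10 i (by omega)) (fun i hi => h11 i (by omega))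
    obtain ⟨β, hβ⟩ : ∃ β : ℝ, β = max (b n) (b (n + 1)) := ⟨_, rfl⟩
    have hm1 : β ≤ a := by
      rw [hβ]
      exact max_le (h1 n (by omega)) (h1 (n + 1) le_rfl)
    have hbn : b n ≤ β := by rw [hβ]; exact le_max_left _ _
    have hbn1 : b (n + 1) ≤ β := by rw [hβ]; exact le_max_right _ _
    have hβc : ∃ i ≤ n + 1, b i = β := by
      rcases max_cases (b n) (b (n + 1)) with ⟨e, -⟩ | ⟨e, -⟩
      · exact ⟨n, by omega, by rw [hβ, e]⟩
      · exact ⟨n + 1, le_rfl, by rw [hβ, e]⟩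
    obtain ⟨i₀, hi₀, hbi⟩ := hβc
    have g10 := h10 n (Nat.lt_succ_self n)
    have g11 := h11 n (Nat.lt_succ_self n)
    rw [← hβ] at g10 g11
    have a4 := h4 i₀ hi₀
    have aV := hV i₀ hi₀
    have a5 := h5 i₀ hi₀
    have a6 := h6 i₀ hi₀
    have a7 := h7 i₀ hi₀
    rw [hbi] at a4 aV a5 a6 a7
    exact step (b n) (b (n + 1)) β (P n) (P (n + 1)) N N hbn hbn1 hm1 (h3 n (by omega)) a4 aV
      a5 a6 a7 le_rfl g10 g11 e1 h hh

/-- **From a window to another window**, in small steps. -/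
theorem chain_toh (htm : TmC S C₀) {c : ℕ → Fin m} {r₀ r : ℕ} {κ : Fin m} {G : ℝ → Prop}
    {Pv : ℕ → ℝ → ℝ} {P : ℝ → ℝ} {rk lo hi S₁ S₂ τ : ℝ} {a p₀ ρ ν N N₁ : ℝ}
    {Lm : ℕ → ℝ → ℝ} {Q : Qt m U} (hP : ProfN S c r₀ r κ G Pv P rk lo hi S₁ S₂ τ)
    (hrk : 0 ≤ rk) (hhi : hi ≤ a) (ha : a < 1) (hap : a < p₀) (hp0 : p₀ ≤ 1) (hS₂ : 0 ≤ S₂)
    (hf : ∀ (J : ℕ) (F : Fam m J), ∃ φ : α J F → PtT F, ∀ ω, ptr F J ω = φ (f J F ω))
    (hy : Kn0 ((range r₀).image c) p₀ y) (hρ : 0 < ρ) (hν : 0 < ν)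
    (hV : ∀ β : ℝ, lo ≤ β → β ≤ hi → G β → ∀ h : ℝ, 0 < h → F1 S f (vg a) y Q
      (qJets m c r₀ r 0 (fun _ _ => β) (fun l _ => Pv l β)
        (fun l _ => Pv l β + Lm l β)) (ρ / 8) h)
    (hl0 : ∀ β : ℝ, lo ≤ β → β ≤ hi → ∀ l, r₀ ≤ l → l < r → ρ < Lm l β)
    (hl2 : ∀ β : ℝ, lo ≤ β → β ≤ hi → ∀ l, r₀ ≤ l → l < r → Lm l β ≤ p₀ - β)
    (hl3 : ∀ β : ℝ, lo ≤ β → β ≤ hi → ∀ l, r₀ ≤ l → l < r → ∀ l', r₀ ≤ l' → l' < l →
      Lm l β + ρ ≤ Lm l' β)
    {x z : ℝ} (hx : lo ≤ x) (hx' : x ≤ hi) (hGx : G x) (hz : lo ≤ z) (hz' : z ≤ hi) (hGz : G z)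
    (hst : ∀ h : ℝ, 0 < h → F1 S f (vg a) y Q
      (qJet m ((range r).image c) κ 0 x (P x) N₁) (ρ / 8) h) (hN : N ≤ N₁)
    (hc1 : ∀ β : ℝ, min x z ≤ β → β ≤ max x z →
      N + ρ + τ + ν ≤ P β + (p₀ - β))
    (hc2 : ∀ β : ℝ, min x z ≤ β → β ≤ max x z → ∀ l, r₀ ≤ l → l < r →
      N + 2 * ρ + τ + ν ≤ P β + Lm l β) :
    ∀ h : ℝ, 0 < h → F1 S f (vg a) y Q (qJet m ((range r).image c) κ 0 z (P z) N)
      (ρ / 8) h := by
  have hS1 : 0 < S₂ + 1 := by linarith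
  obtain ⟨μ, hμ⟩ : ∃ μ : ℝ, μ = ν / (S₂ + 1) := ⟨_, rfl⟩
  have hμ0 : 0 < μ := by
    rw [hμ]
    exact div_pos hν hS1
  have hμ2 : S₂ * μ ≤ ν := by
    have e1 : μ * (S₂ + 1) = ν := by
      rw [hμ]
      field_simp
    linarith
  have hτ : 0 ≤ τ := by
    have := hP.up x x hx le_rfl hx'
    rw [sub_self, sub_self, mul_zero, zero_add] at this
    exact this
  -- a sequence of windows
  have key : ∃ (n : ℕ) (b : ℕ → ℝ), b 0 = x ∧ b n = z ∧ (∀ i ≤ n, G (b i) ∧ min x z ≤ b i ∧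
      b i ≤ max x z) ∧ ∀ i < n, max (b i) (b (i + 1)) ≤ min (b i) (b (i + 1)) + μ := by
    rcases le_total x z with hxz | hxz
    · obtain ⟨n, b, hB0, hBn, hBs, hBG⟩ := mesh hxz hGx hGz (hP.dns.sub hx hz') hμ0
      rw [min_eq_left hxz, max_eq_right hxz]
      refine ⟨n, b, hB0, hBn, hBG, fun i hi => ?_⟩
      rw [max_eq_right (hBs i hi).1, min_eq_left (hBs i hi).1]
      exact (hBs i hi).2
    · obtain ⟨n, b', hb0, hbn, hbs, hbG⟩ := mesh hxz hGz hGx (hP.dns.sub hz hx') hμ0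
      rw [min_eq_right hxz, max_eq_left hxz]
      refine ⟨n, fun i => b' (n - i), ?_, ?_, fun i hi => hbG _ (Nat.sub_le _ _),
        fun i hi => ?_⟩
      · show b' (n - 0) = x
        rw [Nat.sub_zero, hbn]
      · show b' (n - n) = z
        rw [Nat.sub_self, hb0]
      · have h1 := hbs (n - (i + 1)) (by omega)
        have e1 : n - (i + 1) + 1 = n - i := by omega
        rw [e1] at h1
        show max (b' (n - i)) (b' (n - (i + 1))) ≤ min (b' (n - i)) (b' (n - (i + 1))) + μ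
        rw [max_eq_left h1.1, min_eq_right h1.1]
        exact h1.2
  obtain ⟨n, b, hB0, hBn, hBG, hBs⟩ := key
  have hmn : lo ≤ min x z := le_min hx hz
  have hmx : max x z ≤ hi := max_le hx' hz'
  have hBl : ∀ i ≤ n, lo ≤ b i := fun i hi => hmn.trans (hBG i hi).2.1
  have hBh : ∀ i ≤ n, b i ≤ hi := fun i hi' => (hBG i hi').2.2.trans hmx
  -- the smaller of two neighbours
  have hnb : ∀ i < n, P (max (b i) (b (i + 1))) - ν - τ ≤ min (P (b i)) (P (b (i + 1))) := by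
    intro i hi
    have h1 := hBs i hi
    have g1 := hBl i hi.le
    have g2 := hBl (i + 1) hi
    have g3 := hBh i hi.le
    have g4 := hBh (i + 1) hi
    rcases le_total (b i) (b (i + 1)) with hb | hb
    · rw [max_eq_right hb] at h1 ⊢
      rw [min_eq_left hb] at h1
      have h2 := hP.up (b i) (b (i + 1)) g1 hb g4
      have h3 : S₂ * (b (i + 1) - b i) ≤ S₂ * μ := mul_le_mul_of_nonneg_left (by linarith) hS₂
      refine le_min (by linarith) (by linarith)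
    · rw [max_eq_left hb] at h1 ⊢
      rw [min_eq_right hb] at h1
      have h2 := hP.up (b (i + 1)) (b i) g2 hb g3
      have h3 : S₂ * (b i - b (i + 1)) ≤ S₂ * μ := mul_le_mul_of_nonneg_left (by linarith) hS₂
      refine le_min (by linarith) (by linarith)
  have hmaxr : ∀ i < n, min x z ≤ max (b i) (b (i + 1)) ∧ max (b i) (b (i + 1)) ≤ max x z :=
    fun i hi => ⟨(hBG i hi.le).2.1.trans (le_max_left _ _),
      max_le (hBG i hi.le).2.2 (hBG (i + 1) hi).2.2⟩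
  have hx0 : min x z ≤ b 0 ∧ b 0 ≤ max x z := by
    rw [hB0]
    exact ⟨min_le_left _ _, le_max_left _ _⟩
  have res := chainMh (y := y) htm (c := c) (r₀ := r₀) (r := r) (κ := κ) (a := a)
    (rk := rk) (p₀ := p₀) (N := N) (N₁ := N₁) (ρ := ρ) (Pv := Pv) (Lm := Lm)
    (Q := Q) hrk ha hap hp0 hρ hf hy hN b (fun i => P (b i))
    (by rw [hB0]; exact hst) n
    (fun i hi' => (hBh i hi').trans hhi)
    (fun i hi => hP.att _ (hBl i hi) (hBh i hi) (hBG i hi).1)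
    (fun i hi => hP.chn _ (hBl i hi) (hBh i hi) (hBG i hi).1)
    (fun i hi => hV _ (hBl i hi) (hBh i hi) (hBG i hi).1)
    (fun i hi => hl0 _ (hBl i hi) (hBh i hi)) (fun i hi => hl2 _ (hBl i hi) (hBh i hi))
    (fun i hi => hl3 _ (hBl i hi) (hBh i hi))
    (by
      have := hc1 _ hx0.1 hx0.2
      linarith)
    (fun l a b => by
      have := hc2 _ hx0.1 hx0.2 l a b
      linarith)
    (fun i hi => by
      have h1 := hc1 _ (hmaxr i hi).1 (hmaxr i hi).2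
      have h2 := hnb i hi
      linarith)
    (fun i hi l a b => by
      have h1 := hc2 _ (hmaxr i hi).1 (hmaxr i hi).2 l a b
      have h2 := hnb i hi
      linarith)
  intro h hh
  have res2 := res h hh
  simp only [hBn] at res2
  exact res2

/-! ### The numbers -/

/-- **The numbers of the heights**: the margins `s l` above the levels at the window `w`, nested and
larger than the rise of the level of `c r` from `w` to `o`; the rise of `c r` is the largest. -/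
structure NumH (S : PCl m) (c : ℕ → Fin m) (r₀ r : ℕ) (G : ℝ → Prop) (Pv : ℕ → ℝ → ℝ)
    (s ell : ℕ → ℝ) (w o Ub ρ ν τ : ℝ) (S₂ rk : ℕ → ℝ) : Prop where
  ρ0 : 0 < ρ
  ν0 : 0 < ν
  wo : w ≤ o
  oU : o < Ub
  U1 : Ub ≤ 1
  Gw : G w
  Go : G o
  prof : ∀ l, r₀ ≤ l → l ≤ r → ProfN S c r₀ l (c l) G Pv (Pv l) (rk l) w o 1 (S₂ l) τ
  rk0 : ∀ l, r₀ ≤ l → l ≤ r → 0 ≤ rk l
  S20 : ∀ l, r₀ ≤ l → l ≤ r → 0 ≤ S₂ l
  dom : ∀ l, r₀ ≤ l → l < r → ∀ b b' : ℝ, w ≤ b → b ≤ b' → b' ≤ o →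
    Pv l b' - Pv l b ≤ Pv r b' - Pv r b + τ
  hs : ∀ l, r₀ ≤ l → l < r → Pv r o - Pv r w + 2 * ρ + 2 * τ + ν ≤ s l
  nest : ∀ l, r₀ ≤ l → l < r → ∀ l', r₀ ≤ l' → l' < l → s l + 2 * ρ + 2 * τ + ν ≤ s l'
  hell : ∀ l, r₀ ≤ l → l < r → s l + τ ≤ ell l
  hU : ∀ l, r₀ ≤ l → l < r → s l + ρ + 3 * τ + ν ≤ Ub - w
  hU' : Pv r o - Pv r w + ρ + 3 * τ + ν ≤ Ub - w

/-- The margin at the window `β`. -/
noncomputable def mh (Pv : ℕ → ℝ → ℝ) (r : ℕ) (s w β : ℝ) : ℝ := s - (Pv r β - Pv r w)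

section hts

variable {c : ℕ → Fin m} {r₀ r : ℕ} {G : ℝ → Prop} {Pv : ℕ → ℝ → ℝ}
  {s ell : ℕ → ℝ} {w o Ub ρ ν τ : ℝ} {S₂ rk : ℕ → ℝ}

theorem NumH.τ0 (hn : NumH S c r₀ r G Pv s ell w o Ub ρ ν τ S₂ rk) (hr : r₀ ≤ r) : 0 ≤ τ := by
  have := (hn.prof r hr le_rfl).up w w le_rfl le_rfl hn.wo
  rw [sub_self, sub_self, mul_zero, zero_add] at this
  exact this

/-- The levels of `c r` increase with speed at least `1`. -/
theorem NumH.sp (hn : NumH S c r₀ r G Pv s ell w o Ub ρ ν τ S₂ rk) (hr : r₀ ≤ r) {b b' : ℝ}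
    (h1 : w ≤ b) (h2 : b ≤ b') (h3 : b' ≤ o) : b' - b - τ ≤ Pv r b' - Pv r b := by
  have := (hn.prof r hr le_rfl).lo b b' h1 h2 h3
  linarith

/-- **The heights of the chain at every window**, from those at the window `w`. -/
theorem hgt_up (htm : TmC S C₀) (hn : NumH S c r₀ r G Pv s ell w o Ub ρ ν τ S₂ rk)
    (hf : ∀ (J : ℕ) (F : Fam m J), ∃ φ : α J F → PtT F, ∀ ω, ptr F J ω = φ (f J F ω))
    (hy : Kn0 ((range r₀).image c) Ub y) {Q : Qt m U}
    {i : ℕ} (hi : i ≤ r) (hQ : ∀ l, r₀ ≤ l → l < i → ∀ h : ℝ, 0 < h → F1 S f (vg o) y Q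
      (qJet m ((range l).image c) (c l) 0 w (Pv l w) (Pv l w + (s l + τ))) (ρ / 8) h) :
    ∀ n ≤ i, ∀ l, r₀ ≤ l → l < n → ∀ β : ℝ, w ≤ β → β ≤ o → G β → ∀ h : ℝ, 0 < h →
      F1 S f (vg o) y Q (qJet m ((range l).image c) (c l) 0 β (Pv l β)
        (Pv l β + mh Pv r (s l) w β)) (ρ / 8) h := by
  have ho1 : o < 1 := hn.oU.trans_le hn.U1
  intro n
  induction n with
  | zero =>
    intro _ l _ hl
    exact absurd hl (Nat.not_lt_zero l)
  | succ n ih =>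
    intro hn' l hl0 hl β h1 h2 hG h hh
    have ih := ih (by omega)
    rcases Nat.lt_or_ge l n with h3 | h3
    · exact ih l hl0 h3 β h1 h2 hG h hh
    · obtain rfl : l = n := by omega
      have hli : l < i := by omega
      have hlr : l < r := by omega
      have hrr : r₀ ≤ r := by omega
      have hτ := hn.τ0 hrr
      have hρ := hn.ρ0
      have hν := hn.ν0
      refine chain_toh htm (hn.prof l hl0 hlr.le) (hn.rk0 l hl0 hlr.le) le_rfl ho1
        hn.oU hn.U1 (hn.S20 l hl0 hlr.le) hf hy hρ hν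
        (Lm := fun l β => mh Pv r (s l) w β) ?_ ?_ ?_ ?_ le_rfl hn.wo hn.Gw h1 h2 hG
        (hQ l hl0 hli) ?_ ?_ ?_ h hh
      · -- the heights of the coordinates before `l`
        intro β' g1 g2 g3 h' hh'
        have hc : (0 : ℝ) ≤ (l * (0 + 1) : ℕ) := Nat.cast_nonneg _
        have e1 := F1.qjets (y := y) (f := f) (g := vg o) htm (Q := Q) (c := c) (r₀ := r₀)
          (r := l) (j := 0) (w := fun _ _ => β') (p := fun l _ => Pv l β')
          (N := fun l _ => Pv l β' + mh Pv r (s l) w β') (e := ρ / 8)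
          (η := h' / ((l * (0 + 1) : ℕ) + 1)) (by positivity)
          (fun l' a b j' hj' => by
            obtain rfl : j' = 0 := by omega
            exact ih l' a b β' g1 g2 g3 _ (by positivity))
        refine e1.mono le_rfl ?_
        rw [mul_div_assoc', div_le_iff₀ (by positivity)]
        nlinarith
      · intro β' g1 g2 l' x1 x2
        have e1 := hn.hs l' x1 (x2.trans hlr)
        have e2 := hn.sp hrr g1 g2 le_rfl
        unfold mh
        linarith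
      · intro β' g1 g2 l' x1 x2
        have e1 := hn.hU l' x1 (x2.trans hlr)
        have e2 := hn.sp hrr le_rfl g1 g2
        unfold mh
        linarith
      · intro β' g1 g2 l' x1 x2 l'' x3 x4
        have e1 := hn.nest l' x1 (x2.trans hlr) l'' x3 x4
        unfold mh
        linarith
      · have e1 := hn.dom l hl0 hlr w β le_rfl h1 h2
        unfold mh
        linarith
      · intro β' g1 g2
        rw [min_eq_left h1] at g1
        rw [max_eq_right h1] at g2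
        have e1 := hn.dom l hl0 hlr β' β g1 g2 h2
        have e2 := hn.hU l hl0 hlr
        have e3 := hn.sp hrr le_rfl g1 (g2.trans h2)
        unfold mh
        linarith
      · intro β' g1 g2 l' x1 x2
        rw [min_eq_left h1] at g1
        rw [max_eq_right h1] at g2
        have e1 := hn.dom l hl0 hlr β' β g1 g2 h2
        have e2 := hn.nest l hl0 hlr l' x1 x2
        unfold mh
        linarith

/-- **The heights at the window `w`**, from the window `o`. -/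
theorem hgt_dn (htm : TmC S C₀) (hn : NumH S c r₀ r G Pv s ell w o Ub ρ ν τ S₂ rk)
    (hf : ∀ (J : ℕ) (F : Fam m J), ∃ φ : α J F → PtT F, ∀ ω, ptr F J ω = φ (f J F ω))
    (hy : Kn0 ((range r₀).image c) Ub y) {Q : Qt m U} {i : ℕ} (hi0 : r₀ ≤ i) (hi : i ≤ r)
    (hV : ∀ l, r₀ ≤ l → l < i → ∀ β : ℝ, w ≤ β → β ≤ o → G β → ∀ h : ℝ, 0 < h →
      F1 S f (vg o) y Q (qJet m ((range l).image c) (c l) 0 β (Pv l β)
        (Pv l β + mh Pv r (s l) w β)) (ρ / 8) h) (hw0 : 0 ≤ w) {N : ℝ}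
    (hN : N + ρ ≤ Pv i o) : ∀ h : ℝ, 0 < h →
      F1 S f (vg o) y Q (qJet m ((range i).image c) (c i) 0 w (Pv i w) N) (ρ / 8) h := by
  have ho1 : o < 1 := hn.oU.trans_le hn.U1
  have hrr : r₀ ≤ r := hi0.trans hi
  have hτ := hn.τ0 hrr
  have hρ := hn.ρ0
  have hν := hn.ν0
  -- the rise
  have hdm : ∀ b b' : ℝ, w ≤ b → b ≤ b' → b' ≤ o →
      Pv i b' - Pv i b ≤ Pv r b' - Pv r b + τ := by
    intro b b' h1 h2 h3
    rcases Nat.lt_or_ge i r with h4 | h4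
    · exact hn.dom i hi0 h4 b b' h1 h2 h3
    · obtain rfl : i = r := by omega
      linarith
  refine chain_toh htm (hn.prof i hi0 hi) (hn.rk0 i hi0 hi) le_rfl ho1
    hn.oU hn.U1 (hn.S20 i hi0 hi) hf hy hρ hν
    (Lm := fun l β => mh Pv r (s l) w β) ?_ ?_ ?_ ?_ hn.wo le_rfl hn.Go le_rfl hn.wo hn.Gw
    (N₁ := N) (fun h hh => ?_) le_rfl ?_ ?_
  · intro β' g1 g2 g3 h' hh'
    have hc : (0 : ℝ) ≤ (i * (0 + 1) : ℕ) := Nat.cast_nonneg _
    have e1 := F1.qjets (y := y) (f := f) (g := vg o) htm (Q := Q) (c := c) (r₀ := r₀)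
      (r := i) (j := 0) (w := fun _ _ => β') (p := fun l _ => Pv l β')
      (N := fun l _ => Pv l β' + mh Pv r (s l) w β') (e := ρ / 8)
      (η := h' / ((i * (0 + 1) : ℕ) + 1)) (by positivity)
      (fun l' a b j' hj' => by
        obtain rfl : j' = 0 := by omega
        exact hV l' a b β' g1 g2 g3 _ (by positivity))
    refine e1.mono le_rfl ?_
    rw [mul_div_assoc', div_le_iff₀ (by positivity)]
    nlinarith
  · intro β' g1 g2 l' x1 x2
    have e1 := hn.hs l' x1 (by omega)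
    have e2 := hn.sp hrr g1 g2 le_rfl
    unfold mh
    linarith
  · intro β' g1 g2 l' x1 x2
    have e1 := hn.hU l' x1 (by omega)
    have e2 := hn.sp hrr le_rfl g1 g2
    unfold mh
    linarith
  · intro β' g1 g2 l' x1 x2 l'' x3 x4
    have e1 := hn.nest l' x1 (by omega) l'' x3 x4
    unfold mh
    linarith
  · exact F1.of0 htm ((few0_room htm (hw0.trans hn.wo) ho1 hρ (by
      rw [Nat.cast_zero, zero_mul, add_zero]
      exact hN) f (vg o) y hh).mono (by linarith) le_rfl)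
  · intro β' g1 g2
    rw [min_eq_right hn.wo] at g1
    rw [max_eq_left hn.wo] at g2
    have e1 := hdm β' o g1 g2 le_rfl
    have e2 := hn.hU'
    have e3 := hn.sp hrr le_rfl g1 g2
    linarith
  · intro β' g1 g2 l' x1 x2
    rw [min_eq_right hn.wo] at g1
    rw [max_eq_left hn.wo] at g2
    have e1 := hdm β' o g1 g2 le_rfl
    have e2 := hn.hs l' x1 (by omega)
    show N + 2 * ρ + τ + ν ≤ Pv i β' + mh Pv r (s l') w β'
    unfold mh
    linarith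

/-- **The hypothesis of `nfc_of`.** -/
theorem hgts_of (htm : TmC S C₀) (hn : NumH S c r₀ r G Pv s ell w o Ub ρ ν τ S₂ rk)
    (hf : ∀ (J : ℕ) (F : Fam m J), ∃ φ : α J F → PtT F, ∀ ω, ptr F J ω = φ (f J F ω))
    (hy : Kn0 ((range r₀).image c) Ub y) (hw0 : 0 ≤ w) {i : ℕ} (hi0 : r₀ ≤ i) (hi : i ≤ r)
    {N : ℝ} (hN : N + ρ ≤ Pv i o) {h : ℝ} (hh : 0 < h) :
    F1 S f (vg o) y (qJets m c r₀ i 0 (fun _ _ => w) (fun l _ => Pv l w)
        (fun l _ => Pv l w + ell l))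
      (qJet m ((range i).image c) (c i) 0 w (Pv i w) N) (ρ / 8) h := by
  have ho1 : o < 1 := hn.oU.trans_le hn.U1
  have hrr : r₀ ≤ r := hi0.trans hi
  have hτ := hn.τ0 hrr
  have hρ := hn.ρ0
  have hν := hn.ν0
  have hD := hn.sp hrr le_rfl hn.wo le_rfl
  have hwo := hn.wo
  refine hgt_dn htm hn hf hy hi0 hi (hgt_up htm hn hf hy hi ?_ i le_rfl) hw0 hN h hh
  -- from the quantity
  intro l hl0 hli h hh
  have hlr : l < r := by omega
  obtain ⟨u₁, rd, hch, hrd⟩ := (hn.prof l hl0 hlr.le).chn w le_rfl hn.wo hn.Gw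
  have e2 := hgt_F1 (y := y) htm hch (k := c l) (wv := fun _ _ => w)
    (pv := fun i _ => Pv i w) (Nv := fun l _ => Pv l w + ell l)
    (lv := fun l => s l + τ - ρ) (w₁ := w) (w₂ := w)
    (p₁ := Pv l w) (p₂ := Pv l w) (N₁ := Pv l w + ell l) (N₂ := Pv l w + (s l + τ)) (p₀ := Ub)
    (σ₀ := ρ) (fun _ _ _ _ _ => le_rfl) le_rfl le_rfl (lt_of_le_of_lt hn.wo hn.oU) hn.U1 hρ
    (fun l' x1 x2 => by linarith [hn.hs l' x1 (x2.trans hlr)])
    (fun l' x1 x2 => by linarith [hn.hell l' x1 (x2.trans hlr)])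
    (fun l' x1 x2 => by
      rw [min_self]
      linarith [hn.hU l' x1 (x2.trans hlr)])
    (fun l' x1 x2 l'' x3 x4 => by
      rw [min_self]
      linarith [hn.nest l' x1 (x2.trans hlr) l'' x3 x4])
    (by linarith [hn.hell l hl0 hlr])
    (by
      rw [min_self]
      linarith [hn.hU l hl0 hlr])
    (fun l' x1 x2 => by
      rw [min_self]
      linarith [hn.nest l hl0 hlr l' x1 x2]) hf hy (h := h) hh
  refine F1.pull htm (Q₁ := (qJets m c r₀ l 0 (fun _ _ => w) (fun i _ => Pv i w)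
    (fun l _ => Pv l w + ell l)).prod (qJet m ((range l).image c) (c l) 0 w (Pv l w)
      (Pv l w + ell l))) (fun u => ((fun i' j' => if i' < l then u i' j' else 0), u l 0)) ?_
    (e2.up hn.wo ho1.le)
  intro K e J F A u hu
  refine ⟨⟨fun i' a b j' c' => ?_, fun ω hω i' j' h' => ?_⟩, ?_⟩
  · have e1 := hu.1 i' a (b.trans hli) j' c'
    show (qJet m _ _ _ _ _ _).P K e J F A (fun ω => if i' < l then u ω i' j' else 0)
    simp only [if_pos b]
    exact e1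
  · show (if i' < l then u ω i' j' else 0) = 0
    split_ifs with h3
    · exact hu.2 ω hω i' j' fun h4 => h' ⟨h4.1, h3, h4.2.2⟩
    · rfl
  · exact hu.1 l hl0 hli 0 le_rfl

end hts

end Pool.OWN68
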