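import Pool.Agent.H68.OWN.Cnt

/-!
# Hops: the number of collisions

`D ((τ - T) / M) ^ k` and `D' ((τ - T') / M) ^ k`, `k = 1, 2`, are near for at most
`8 lam M ^ 2 / (m₀ |T - T'|) + 2` integers `τ`, if `|D|, |D'| ≥ m₀`.
-/

set_option autoImplicit false

namespace Pool.OWN68

open Finset Real

/-- Trivial bound. -/
theorem card_le_box {M : ℕ} (F : Finset ℤ) (hF : ∀ n ∈ F, |n| ≤ (M : ℤ)) :
    (F.card : ℝ) ≤ 2 * M + 1 := by
  have h1 : F ⊆ Finset.Icc (-(M : ℤ)) M := fun n hn => by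
    have := abs_le.mp (hF n hn)
    exact Finset.mem_Icc.mpr this
  have h2 := Finset.card_le_card h1
  rw [card_I] at h2
  exact_mod_cast h2

theorem cnt_hop1 {M : ℕ} (hM : 1 ≤ M) {D D' lam m₀ : ℝ} (hm₀ : 0 < m₀) (hlam : 0 ≤ lam)
    (hD : m₀ ≤ |D|) {T T' : ℤ} (hT : |T'| ≤ (M : ℤ)) (hne : T ≠ T')
    (F : Finset ℤ) (hF : ∀ n ∈ F, |n| ≤ (M : ℤ) ∧
      |D * (((n : ℝ) - T) / M) - D' * (((n : ℝ) - T') / M)| ≤ lam) :
    (F.card : ℝ) ≤ 8 * lam * M ^ 2 / (m₀ * |(T : ℝ) - T'|) + 2 := by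
  have hMr : (1 : ℝ) ≤ M := by exact_mod_cast hM
  have hM0 : (0 : ℝ) < M := by linarith
  have hd : (0 : ℝ) < |(T : ℝ) - T'| := abs_pos.mpr (sub_ne_zero.mpr (by exact_mod_cast hne))
  have hmd : 0 < m₀ * |(T : ℝ) - T'| := mul_pos hm₀ hd
  rcases F.eq_empty_or_nonempty with h | ⟨n0, hn0⟩
  · rw [h]
    simp only [Finset.card_empty, Nat.cast_zero]
    positivity
  by_cases hc : m₀ * |(T : ℝ) - T'| / M < 2 * lam
  · have h1 := card_le_box F fun n hn => (hF n hn).1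
    have h2 : 2 * (M : ℝ) ≤ 8 * lam * M ^ 2 / (m₀ * |(T : ℝ) - T'|) := by
      rw [le_div_iff₀ hmd]
      rw [div_lt_iff₀ hM0] at hc
      nlinarith [hc.le, hM0]
    linarith
  · push Not at hc
    set α : ℝ := (D - D') / M with hα
    set z : ℝ := (D * T - D' * T') / M with hz
    have e : ∀ x : ℝ, D * ((x - T) / M) - D' * ((x - T') / M) = α * x - z := by
      intro x
      rw [hα, hz]
      field_simp
      ring
    have f1 : α * T' - z = D * ((T' : ℝ) - T) / M := by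
      rw [hα, hz]
      field_simp
      ring
    have f2 : m₀ * |(T : ℝ) - T'| / M ≤ |α * T' - z| := by
      rw [f1, abs_div, abs_mul, abs_of_pos hM0, abs_sub_comm (T' : ℝ)]
      gcongr
    obtain ⟨hn1, hn2⟩ := hF n0 hn0
    rw [e] at hn2
    have f3 : |α| * (2 * M) ≥ m₀ * |(T : ℝ) - T'| / (2 * M) := by
      have g1 : |α * T' - z| - |α * n0 - z| ≤ |α| * |(T' : ℝ) - n0| := by
        rw [← abs_mul]
        refine (abs_sub_abs_le_abs_sub _ _).trans (le_of_eq ?_)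
        congr 1
        ring
      have g2 : |(T' : ℝ) - n0| ≤ 2 * M := by
        have h3 : |(T' : ℝ)| ≤ M := by exact_mod_cast hT
        have h4 : |(n0 : ℝ)| ≤ M := by exact_mod_cast hn1
        have := abs_sub (T' : ℝ) n0
        linarith
      have g3 : |α| * |(T' : ℝ) - n0| ≤ |α| * (2 * M) := by gcongr
      have g4 : m₀ * |(T : ℝ) - T'| / (2 * M) = m₀ * |(T : ℝ) - T'| / M / 2 := by
        field_simp
      rw [g4]
      linarith
    have f4 : m₀ * |(T : ℝ) - T'| / (4 * M ^ 2) ≤ |α| := by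
      rw [div_le_iff₀ (by positivity)]
      have g5 : m₀ * |(T : ℝ) - T'| ≤ |α| * (2 * M) * (2 * M) := by
        have := f3
        rw [ge_iff_le, div_le_iff₀ (by positivity)] at this
        exact this
      nlinarith [g5]
    have f5 : 0 < |α| := lt_of_lt_of_le (by positivity) f4
    have f6 := cnt1 (abs_pos.mp f5) hlam z F fun n hn => by
      have := (hF n hn).2
      rwa [e] at this
    have f7 : 2 * lam / |α| ≤ 8 * lam * M ^ 2 / (m₀ * |(T : ℝ) - T'|) := by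
      rw [div_le_div_iff₀ f5 hmd]
      have g6 : m₀ * |(T : ℝ) - T'| ≤ |α| * (4 * M ^ 2) := by
        rwa [div_le_iff₀ (by positivity)] at f4
      nlinarith [mul_le_mul_of_nonneg_left g6 (by positivity : (0 : ℝ) ≤ 2 * lam)]
    linarith

/-- Same signs. -/
theorem cnt_hop2a {M : ℕ} (hM : 1 ≤ M) {α β lam m₀ : ℝ} (hm₀ : 0 < m₀) (hlam : 0 ≤ lam)
    (hα : 0 < α) (hβ : 0 < β) (hαm : m₀ ≤ α ^ 2) (hβm : m₀ ≤ β ^ 2) {T T' : ℤ} (hne : T ≠ T')
    (F : Finset ℤ) (hF : ∀ n ∈ F,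
      |α ^ 2 * (((n : ℝ) - T) / M) ^ 2 - β ^ 2 * (((n : ℝ) - T') / M) ^ 2| ≤ lam) :
    (F.card : ℝ) ≤ 4 * lam * M ^ 2 / (m₀ * |(T : ℝ) - T'|) + 2 := by
  classical
  have hMr : (1 : ℝ) ≤ M := by exact_mod_cast hM
  have hM0 : (0 : ℝ) < M := by linarith
  have hd : (0 : ℝ) < |(T : ℝ) - T'| := abs_pos.mpr (sub_ne_zero.mpr (by exact_mod_cast hne))
  have hmd : 0 < m₀ * |(T : ℝ) - T'| := mul_pos hm₀ hd
  have hab : m₀ ≤ α * β := by
    have h1 : m₀ * m₀ ≤ (α * β) * (α * β) := by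
      have := mul_le_mul hαm hβm hm₀.le (by positivity)
      nlinarith [this]
    exact (mul_self_le_mul_self_iff hm₀.le (by positivity)).mpr h1
  have hab0 : 0 < α * β := by positivity
  set r : ℝ := lam * M ^ 2 / (α * β * |(T : ℝ) - T'|) with hr
  have hr0 : 0 ≤ r := by positivity
  -- the product of the two factors
  have hprod : ∀ n ∈ F, |α * ((n : ℝ) - T) - β * ((n : ℝ) - T')| *
      |α * ((n : ℝ) - T) + β * ((n : ℝ) - T')| ≤ lam * M ^ 2 := by
    intro n hn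
    have h1 := hF n hn
    have e : α ^ 2 * (((n : ℝ) - T) / M) ^ 2 - β ^ 2 * (((n : ℝ) - T') / M) ^ 2 =
        ((α * ((n : ℝ) - T) - β * ((n : ℝ) - T')) * (α * ((n : ℝ) - T) + β * ((n : ℝ) - T'))) /
          M ^ 2 := by
      field_simp
      ring
    rw [e, abs_div, abs_mul, abs_of_pos (by positivity : (0 : ℝ) < (M : ℝ) ^ 2),
      div_le_iff₀ (by positivity)] at h1
    exact h1
  -- one of the factors is large
  have hcase : ∀ n ∈ F, |(α + β) * n - (α * T + β * T')| ≤ (α + β) * r ∨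
      |(α - β) * n - (α * T - β * T')| ≤ |α - β| * r := by
    intro n hn
    have hp := hprod n hn
    set u : ℝ := α * ((n : ℝ) - T) - β * ((n : ℝ) - T') with hu
    set v : ℝ := α * ((n : ℝ) - T) + β * ((n : ℝ) - T') with hv
    have ev : (α + β) * n - (α * T + β * T') = v := by rw [hv]; ring
    have eu : (α - β) * n - (α * T - β * T') = u := by rw [hu]; ring
    rw [ev, eu]
    have id : (α + β) * u - (α - β) * v = 2 * (α * β) * ((T' : ℝ) - T) := by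
      rw [hu, hv]
      ring
    have h1 : 2 * (α * β) * |(T : ℝ) - T'| ≤ (α + β) * |u| + |α - β| * |v| := by
      have h2 : |(α + β) * u - (α - β) * v| = 2 * (α * β) * |(T : ℝ) - T'| := by
        rw [id, abs_mul, abs_of_pos (by positivity : 0 < 2 * (α * β)), abs_sub_comm]
      rw [← h2]
      refine (abs_sub _ _).trans ?_
      rw [abs_mul, abs_mul, abs_of_pos (by positivity : 0 < α + β)]
    by_cases h3 : α * β * |(T : ℝ) - T'| ≤ (α + β) * |u|
    · left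
      have h4 : 0 < |u| := by
        by_contra h5
        have h6 : |u| = 0 := le_antisymm (not_lt.mp h5) (abs_nonneg u)
        rw [h6, mul_zero] at h3
        exact absurd h3 (not_le.mpr (by positivity))
      rw [hr, mul_div_assoc', le_div_iff₀ (by positivity)]
      calc |v| * (α * β * |(T : ℝ) - T'|) ≤ |v| * ((α + β) * |u|) := by gcongr
        _ = (α + β) * (|u| * |v|) := by ring
        _ ≤ (α + β) * (lam * M ^ 2) := by gcongr
    · right
      push Not at h3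
      have h3' : α * β * |(T : ℝ) - T'| ≤ |α - β| * |v| := by nlinarith
      rw [hr, mul_div_assoc', le_div_iff₀ (by positivity)]
      calc |u| * (α * β * |(T : ℝ) - T'|) ≤ |u| * (|α - β| * |v|) := by gcongr
        _ = |α - β| * (|u| * |v|) := by ring
        _ ≤ |α - β| * (lam * M ^ 2) := by gcongr
  set F1 := F.filter fun n : ℤ => |(α + β) * n - (α * T + β * T')| ≤ (α + β) * r with hF1
  set F2 := F.filter fun n : ℤ => ¬ |(α + β) * n - (α * T + β * T')| ≤ (α + β) * r with hF2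
  have hcard : (F.card : ℝ) = F1.card + F2.card := by
    rw [hF1, hF2]
    exact_mod_cast (Finset.card_filter_add_card_filter_not _).symm
  have c1 : (F1.card : ℝ) ≤ 2 * r + 1 := by
    have h1 := cnt1 (by positivity : α + β ≠ 0) (by positivity : 0 ≤ (α + β) * r)
      (α * T + β * T') F1 fun n hn => (Finset.mem_filter.mp hn).2
    rw [abs_of_pos (by positivity : 0 < α + β)] at h1
    have h2 : 2 * ((α + β) * r) / (α + β) = 2 * r := by
      field_simp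
    rwa [h2] at h1
  have c2 : (F2.card : ℝ) ≤ 2 * r + 1 := by
    rcases F2.eq_empty_or_nonempty with h | ⟨n0, hn0⟩
    · rw [h]
      simp only [Finset.card_empty, Nat.cast_zero]
      positivity
    have hg : ∀ n ∈ F2, |(α - β) * n - (α * T - β * T')| ≤ |α - β| * r := by
      intro n hn
      have h1 := Finset.mem_filter.mp hn
      exact (hcase n h1.1).resolve_left h1.2
    have hne' : α - β ≠ 0 := by
      intro h0
      have h1 := hg n0 hn0
      rw [h0, abs_zero, zero_mul, zero_mul, zero_sub, abs_neg] at h1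
      have h2 : α * T - β * T' = 0 := abs_eq_zero.mp (le_antisymm h1 (abs_nonneg _))
      have h3 : α = β := by linarith
      rw [h3, ← mul_sub] at h2
      rcases mul_eq_zero.mp h2 with h4 | h4
      · exact hβ.ne' h4
      · rw [h4, abs_zero] at hd
        exact lt_irrefl _ hd
    have h1 := cnt1 hne' (by positivity : 0 ≤ |α - β| * r) (α * T - β * T') F2 hg
    have h2 : 2 * (|α - β| * r) / |α - β| = 2 * r := by
      have : |α - β| ≠ 0 := (abs_pos.mpr hne').ne'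
      field_simp
    rwa [h2] at h1
  have hrm : r ≤ lam * M ^ 2 / (m₀ * |(T : ℝ) - T'|) := by
    rw [hr]
    gcongr
  have e4 : 4 * lam * M ^ 2 / (m₀ * |(T : ℝ) - T'|) = 4 * (lam * M ^ 2 / (m₀ * |(T : ℝ) - T'|)) := by
    ring
  rw [hcard, e4]
  linarith

/-- Different signs. -/
theorem cnt_hop2b {M : ℕ} (hM : 1 ≤ M) {a b lam m₀ : ℝ} (hm₀ : 0 < m₀) (hlam : 0 ≤ lam)
    (ha : m₀ ≤ a) (hb : m₀ ≤ b) {T T' : ℤ} (hne : T ≠ T')
    (F : Finset ℤ) (hF : ∀ n ∈ F,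
      a * (((n : ℝ) - T) / M) ^ 2 + b * (((n : ℝ) - T') / M) ^ 2 ≤ lam) :
    (F.card : ℝ) ≤ 8 * lam * M ^ 2 / (m₀ * |(T : ℝ) - T'|) + 2 := by
  have hMr : (1 : ℝ) ≤ M := by exact_mod_cast hM
  have hM0 : (0 : ℝ) < M := by linarith
  have hd : (0 : ℝ) < |(T : ℝ) - T'| := abs_pos.mpr (sub_ne_zero.mpr (by exact_mod_cast hne))
  have hmd : 0 < m₀ * |(T : ℝ) - T'| := mul_pos hm₀ hd
  rcases F.eq_empty_or_nonempty with h | ⟨n0, hn0⟩
  · rw [h]
    simp only [Finset.card_empty, Nat.cast_zero]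
    positivity
  have key : ∀ (x y : ℝ), 0 ≤ y → m₀ * (x / M) ^ 2 + y ≤ lam → |x| ≤ M * √(lam / m₀) := by
    intro x y hy h1
    have h2 : (x / M) ^ 2 ≤ lam / m₀ := by
      rw [le_div_iff₀ hm₀]
      linarith
    have h3 := Real.abs_le_sqrt h2
    rw [abs_div, abs_of_pos hM0, div_le_iff₀ hM0] at h3
    linarith
  set s : ℝ := M * √(lam / m₀) with hs
  have hs0 : 0 ≤ s := by positivity
  have h1 : ∀ n ∈ F, |(n : ℝ) - T| ≤ s ∧ |(n : ℝ) - T'| ≤ s := by
    intro n hn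
    have h2 := hF n hn
    have h3 : m₀ * (((n : ℝ) - T) / M) ^ 2 ≤ a * (((n : ℝ) - T) / M) ^ 2 := by gcongr
    have h4 : m₀ * (((n : ℝ) - T') / M) ^ 2 ≤ b * (((n : ℝ) - T') / M) ^ 2 := by gcongr
    exact ⟨key _ (m₀ * (((n : ℝ) - T') / M) ^ 2) (by positivity) (by linarith),
      key _ (m₀ * (((n : ℝ) - T) / M) ^ 2) (by positivity) (by linarith)⟩
  have h2 : |(T : ℝ) - T'| ≤ 2 * s := by
    obtain ⟨h3, h4⟩ := h1 n0 hn0
    have h5 := abs_sub_le (T : ℝ) n0 T'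
    rw [abs_sub_comm (T : ℝ) n0] at h5
    linarith
  have h3 := cnt1 (one_ne_zero) hs0 (T : ℝ) F fun n hn => by
    rw [one_mul]
    exact (h1 n hn).1
  rw [abs_one, div_one] at h3
  have h4 : s ^ 2 = lam * M ^ 2 / m₀ := by
    rw [hs, mul_pow, Real.sq_sqrt (by positivity)]
    ring
  have h5 : 2 * s ≤ 8 * lam * M ^ 2 / (m₀ * |(T : ℝ) - T'|) := by
    rw [le_div_iff₀ hmd]
    have h6 : s ^ 2 * m₀ = lam * M ^ 2 := by
      rw [h4]
      field_simp
    calc 2 * s * (m₀ * |(T : ℝ) - T'|) ≤ 2 * s * (m₀ * (2 * s)) := by gcongr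
      _ = 4 * (s ^ 2 * m₀) := by ring
      _ = 4 * (lam * M ^ 2) := by rw [h6]
      _ ≤ 8 * lam * M ^ 2 := by nlinarith [mul_nonneg hlam (by positivity : (0 : ℝ) ≤ (M : ℝ) ^ 2)]
  linarith

theorem cnt_hop2 {M : ℕ} (hM : 1 ≤ M) {D D' lam m₀ : ℝ} (hm₀ : 0 < m₀) (hlam : 0 ≤ lam)
    (hD : m₀ ≤ |D|) (hD' : m₀ ≤ |D'|) {T T' : ℤ} (hne : T ≠ T')
    (F : Finset ℤ) (hF : ∀ n ∈ F,
      |D * (((n : ℝ) - T) / M) ^ 2 - D' * (((n : ℝ) - T') / M) ^ 2| ≤ lam) :
    (F.card : ℝ) ≤ 8 * lam * M ^ 2 / (m₀ * |(T : ℝ) - T'|) + 2 := by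
  have hMr : (1 : ℝ) ≤ M := by exact_mod_cast hM
  have hd : (0 : ℝ) < |(T : ℝ) - T'| := abs_pos.mpr (sub_ne_zero.mpr (by exact_mod_cast hne))
  have hmd : 0 < m₀ * |(T : ℝ) - T'| := mul_pos hm₀ hd
  have up : 4 * lam * M ^ 2 / (m₀ * |(T : ℝ) - T'|) ≤ 8 * lam * M ^ 2 / (m₀ * |(T : ℝ) - T'|) := by
    gcongr
    norm_num
  have sq : ∀ x : ℝ, 0 ≤ x → (√x) ^ 2 = x := fun x hx => Real.sq_sqrt hx
  rcases le_total 0 D with h | h <;> rcases le_total 0 D' with h' | h'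
  · rw [abs_of_nonneg h] at hD
    rw [abs_of_nonneg h'] at hD'
    have h0 : 0 < D := by linarith
    have h0' : 0 < D' := by linarith
    have h1 := cnt_hop2a hM hm₀ hlam (Real.sqrt_pos.mpr h0) (Real.sqrt_pos.mpr h0')
      (by rwa [sq D h]) (by rwa [sq D' h']) hne F fun n hn => by
        rw [sq D h, sq D' h']
        exact hF n hn
    linarith
  · rw [abs_of_nonneg h] at hD
    rw [abs_of_nonpos h'] at hD'
    refine cnt_hop2b hM hm₀ hlam hD hD' hne F fun n hn => ?_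
    have h2 := hF n hn
    have e : D * (((n : ℝ) - T) / M) ^ 2 - D' * (((n : ℝ) - T') / M) ^ 2 =
      D * (((n : ℝ) - T) / M) ^ 2 + (-D') * (((n : ℝ) - T') / M) ^ 2 := by ring
    rw [e] at h2
    exact (le_abs_self _).trans h2
  · rw [abs_of_nonpos h] at hD
    rw [abs_of_nonneg h'] at hD'
    refine cnt_hop2b hM hm₀ hlam hD hD' hne F fun n hn => ?_
    have h2 := hF n hn
    have e : D * (((n : ℝ) - T) / M) ^ 2 - D' * (((n : ℝ) - T') / M) ^ 2 =
      -(-D * (((n : ℝ) - T) / M) ^ 2 + D' * (((n : ℝ) - T') / M) ^ 2) := by ring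
    rw [e, abs_neg] at h2
    exact (le_abs_self _).trans h2
  · rw [abs_of_nonpos h] at hD
    rw [abs_of_nonpos h'] at hD'
    have h0 : 0 < -D := by linarith
    have h0' : 0 < -D' := by linarith
    have h1 := cnt_hop2a hM hm₀ hlam (Real.sqrt_pos.mpr h0) (Real.sqrt_pos.mpr h0')
      (by rwa [sq (-D) h0.le]) (by rwa [sq (-D') h0'.le]) hne F fun n hn => by
        rw [sq (-D) h0.le, sq (-D') h0'.le]
        have h2 := hF n hn
        have e : D * (((n : ℝ) - T) / M) ^ 2 - D' * (((n : ℝ) - T') / M) ^ 2 =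
          -(-D * (((n : ℝ) - T) / M) ^ 2 - -D' * (((n : ℝ) - T') / M) ^ 2) := by ring
        rwa [e, abs_neg] at h2
    linarith

/-- **Collisions of two hops.** -/
theorem cnt_hop {k M : ℕ} (hk : k = 1 ∨ k = 2) (hM : 1 ≤ M) {D D' lam m₀ : ℝ} (hm₀ : 0 < m₀)
    (hlam : 0 ≤ lam) (hD : m₀ ≤ |D|) (hD' : m₀ ≤ |D'|) {T T' : ℤ} (hT : |T'| ≤ (M : ℤ))
    (hne : T ≠ T') (F : Finset ℤ) (hF : ∀ n ∈ F, |n| ≤ (M : ℤ) ∧
      |D * (((n : ℝ) - T) / M) ^ k - D' * (((n : ℝ) - T') / M) ^ k| ≤ lam) :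
    (F.card : ℝ) ≤ 8 * lam * M ^ 2 / (m₀ * |(T : ℝ) - T'|) + 2 := by
  rcases hk with rfl | rfl
  · refine cnt_hop1 (D' := D') hM hm₀ hlam hD hT hne F fun n hn => ?_
    have := hF n hn
    simpa only [pow_one] using this
  · exact cnt_hop2 hM hm₀ hlam hD hD' hne F fun n hn => (hF n hn).2

/-- The number of collisions, as a function of the two times. -/
noncomputable def hcn (M : ℕ) (lam m₀ : ℝ) (T T' : ℤ) : ℝ :=
  if T = T' then 2 * M + 1 else 8 * lam * M ^ 2 / (m₀ * |(T : ℝ) - T'|) + 2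

theorem hcn_pos (M : ℕ) {lam m₀ : ℝ} (hm₀ : 0 < m₀) (hlam : 0 ≤ lam) (T T' : ℤ) :
    0 < hcn M lam m₀ T T' := by
  unfold hcn
  split_ifs with h
  · positivity
  · positivity

/-- The sum over one of the times. -/
theorem sum_hcn {M : ℕ} {lam m₀ : ℝ} (hm₀ : 0 < m₀) (hmM : m₀ ≤ M) (hlam : 0 ≤ lam) (T' : ℤ) :
    ∑ T ∈ Finset.Icc (-(M : ℤ)) M, hcn M lam m₀ T T' ≤
      (2 * (M : ℝ) + 1) * ((2 * M + 1) * ((2 + 8 * lam) * (1 + Real.log (2 * M + 1)) / m₀)) := by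
  set Lg : ℝ := 1 + Real.log (2 * M + 1) with hLg
  have hM0 : (0 : ℝ) < M := by linarith
  have hlog : 0 ≤ Real.log (2 * M + 1) := Real.log_nonneg (by linarith)
  have hLg1 : 1 ≤ Lg := by linarith
  have h1 : ∀ T ∈ Finset.Icc (-(M : ℤ)) M, hcn M lam m₀ T T' ≤
      (if T = T' then (2 * (M : ℝ) + 1) else 0) + 2 +
        16 * lam * M ^ 2 / m₀ * (1 / (1 + |(T : ℝ) - T'|)) := by
    intro T _
    unfold hcn
    have hn : 0 ≤ 16 * lam * M ^ 2 / m₀ * (1 / (1 + |(T : ℝ) - T'|)) := by positivity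
    split_ifs with h
    · linarith
    · have hd : (1 : ℝ) ≤ |(T : ℝ) - T'| := by
        have : 1 ≤ |T - T'| := Int.one_le_abs (sub_ne_zero.mpr h)
        exact_mod_cast this
      have h2 : 8 * lam * M ^ 2 / (m₀ * |(T : ℝ) - T'|) ≤
          16 * lam * M ^ 2 / m₀ * (1 / (1 + |(T : ℝ) - T'|)) := by
        rw [mul_one_div, div_div, div_le_div_iff₀ (by positivity) (by positivity)]
        have h3 : m₀ * (1 + |(T : ℝ) - T'|) ≤ 2 * (m₀ * |(T : ℝ) - T'|) := by nlinarith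
        have h4 : 0 ≤ 8 * lam * M ^ 2 := by positivity
        nlinarith [mul_le_mul_of_nonneg_left h3 h4]
      linarith
  refine (Finset.sum_le_sum h1).trans ?_
  rw [Finset.sum_add_distrib, Finset.sum_add_distrib, ← Finset.mul_sum, Finset.sum_const, card_I,
    nsmul_eq_mul]
  have h5 := sum_rec M (T' : ℝ)
  have h6 : ∑ T ∈ Finset.Icc (-(M : ℤ)) M, (if T = T' then (2 * (M : ℝ) + 1) else 0) ≤
      2 * (M : ℝ) + 1 := by
    rw [Finset.sum_ite_eq']
    split_ifs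
    · exact le_rfl
    · positivity
  have h7 : 16 * lam * M ^ 2 / m₀ * ∑ T ∈ Finset.Icc (-(M : ℤ)) M, 1 / (1 + |(T : ℝ) - T'|) ≤
      16 * lam * M ^ 2 / m₀ * (2 * Lg) := by
    gcongr
  have h8 : 3 * (2 * (M : ℝ) + 1) ≤ (2 * (M : ℝ) + 1) * ((2 * M + 1) * (2 * Lg / m₀)) := by
    rw [mul_comm 3]
    refine mul_le_mul_of_nonneg_left ?_ (by positivity)
    rw [mul_div_assoc', le_div_iff₀ hm₀]
    nlinarith [mul_nonneg hM0.le (by linarith : (0 : ℝ) ≤ Lg - 1)]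
  have h9 : 16 * lam * M ^ 2 / m₀ * (2 * Lg) ≤
      (2 * (M : ℝ) + 1) * ((2 * M + 1) * (8 * lam * Lg / m₀)) := by
    have e1 : 16 * lam * M ^ 2 / m₀ * (2 * Lg) = (4 * (M : ℝ) ^ 2) * (8 * lam * Lg / m₀) := by ring
    rw [e1, ← mul_assoc]
    refine mul_le_mul_of_nonneg_right ?_ (by positivity)
    nlinarith
  have e2 : (2 * (M : ℝ) + 1) * ((2 * M + 1) * ((2 + 8 * lam) * Lg / m₀)) =
      (2 * (M : ℝ) + 1) * ((2 * M + 1) * (2 * Lg / m₀)) +
        (2 * (M : ℝ) + 1) * ((2 * M + 1) * (8 * lam * Lg / m₀)) := by ring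
  rw [e2]
  push_cast
  linarith

end Pool.OWN68
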