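import Pool.Agent.H68.OWN.Hop2

/-!
# Hops: few bits

`hop_ent`: if two copies given `G` have `|x - x'| < m₀` with probability at least `1 - 1 / R`, then
`⌊x / m₀⌋` has few bits given `G`. `hop_few`: together with `hop`.
-/

set_option autoImplicit false

namespace Pool.OWN68

open Finset Real
open Pool.Agent.H49.Ent Pool.Agent.H32.Dense Pool.STK

/-- A bit costs `log 2`. -/
theorem CH_bit {Ω T : Type} [Fintype Ω] {p : Ω → ℝ} (hp : IsLaw p) (E : Ω → Prop) (Z : Ω → T) :
    CH p E Z ≤ Real.log 2 := by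
  classical
  have h3 := CH_le_card hp.nonneg hp.sum_one E Z (fun _ => {True, False}) (fun ω _ => by
    by_cases hh : E ω
    · simp [hh]
    · simp [hh])
  refine h3.trans (le_of_eq ?_)
  rw [← Ex_const hp.sum_one (Real.log 2)]
  have e1 : (({True, False} : Finset Prop).card : ℝ) = 2 := by
    rw [Finset.card_pair (by simp)]
    norm_num
  unfold Ex
  refine Finset.sum_congr rfl fun ω _ => ?_
  show p ω * Real.log _ = p ω * Real.log _
  rw [e1]

/-- Two events. -/
theorem CH_two {Ω S T : Type} [Fintype Ω] {p : Ω → ℝ} (hp : IsLaw p) (A : Ω → S) (Z : Ω → T)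
    (E : Ω → Prop) {a V δ : ℝ} (ha0 : 0 ≤ a) (hV0 : 0 ≤ V)
    (ha : ∀ q : Ω → ℝ, IsLaw q → (∀ ω, 0 < q ω → 0 < p ω ∧ E ω) → CH q A Z ≤ a)
    (hV : ∀ q : Ω → ℝ, IsLaw q → (∀ ω, 0 < q ω → 0 < p ω) → CH q A Z ≤ V)
    (hδ : law p E False ≤ δ) : CH p A Z ≤ Real.log 2 + a + δ * V := by
  classical
  have h0 := hp.nonneg
  have h1 := CH_cond_add h0 A E Z
  have h2 := CH_bit hp E Z
  have h3 : CH p A (fun ω => (E ω, Z ω)) ≤ CH p A (fun ω => (Z ω, E ω)) :=
    CH_mono_cond h0 fun ω ω' _ _ hz => by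
      have h5 := Prod.ext_iff.mp hz
      exact Prod.ext h5.2 h5.1
  rw [CH_split h0 A Z E] at h3
  have hs := sum_law_one hp.sum_one E
  have h4 : ∑ j ∈ univ.image E, law p E j * CH (cond p E j) A Z ≤
      ∑ j ∈ univ.image E, (law p E j * a + if j = False then law p E False * V else 0) := by
    refine Finset.sum_le_sum fun j _ => ?_
    rcases (law_nonneg h0 E j).eq_or_lt with hz | hz
    · rw [← hz, zero_mul, zero_mul, zero_add]
      split_ifs
      · exact mul_nonneg (law_nonneg h0 E _) hV0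
      · exact le_rfl
    · have hl : IsLaw (cond p E j) := ⟨cond_nonneg h0 E j, sum_cond p E hz.ne'⟩
      by_cases hj : j = False
      · rw [if_pos hj]
        have h6 := hV (cond p E j) hl fun ω hω => ((cond_pos_iff h0 E j ω).mp hω).1
        have h7 := mul_le_mul_of_nonneg_left h6 hz.le
        have h8 : law p E j * V = law p E False * V := by rw [hj]
        have h9 := mul_nonneg hz.le ha0
        linarith
      · rw [if_neg hj, add_zero]
        refine mul_le_mul_of_nonneg_left (ha _ hl fun ω hω => ?_) hz.le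
        obtain ⟨h6, h7⟩ := (cond_pos_iff h0 E j ω).mp hω
        refine ⟨h6, ?_⟩
        by_contra h8
        exact hj (h7.symm.trans (eq_false h8))
  rw [Finset.sum_add_distrib, ← Finset.sum_mul, hs, one_mul] at h4
  have h5 : ∑ j ∈ univ.image E, (if j = False then law p E False * V else 0) ≤
      law p E False * V := by
    by_cases hF : False ∈ univ.image E
    · rw [Finset.sum_eq_single_of_mem False hF (fun j _ hj => if_neg hj), if_pos rfl]
    · rw [Finset.sum_eq_zero fun j hj => if_neg (fun h : j = False => hF (h ▸ hj))]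
      exact mul_nonneg (law_nonneg h0 E _) hV0
  have h6 : law p E False * V ≤ δ * V := mul_le_mul_of_nonneg_right hδ hV0
  linarith

open Classical in
/-- **Few bits.** -/
theorem hop_ent {Ω Γ : Type} [Fintype Ω] {p : Ω → ℝ} (hp : IsLaw p) (G : Ω → Γ) (x : Ω → ℝ)
    {m₀ δ V : ℝ} (hm₀ : 0 < m₀) (hV0 : 0 ≤ V)
    (hcop : ∑ w, (if m₀ ≤ |x w.2 - x w.1| then glue p p G G w else 0) ≤ δ)
    (hV : ∀ q : Ω → ℝ, IsLaw q → (∀ ω, 0 < q ω → 0 < p ω) → CH q (fun ω => ⌊x ω / m₀⌋) G ≤ V) :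
    CH p (fun ω => ⌊x ω / m₀⌋) G ≤ Real.log 2 + Real.log 5 + 2 * δ * V := by
  have h0 := hp.nonneg
  -- the near part and the far part of the fibre
  set s : Ω → ℝ := fun ω => ∑ ω', if G ω' = G ω ∧ |x ω' - x ω| < m₀ then p ω' else 0 with hs
  set b : Ω → ℝ := fun ω => ∑ ω', if G ω' = G ω ∧ m₀ ≤ |x ω' - x ω| then p ω' else 0 with hb
  have hsb : ∀ ω, s ω + b ω = law p G (G ω) := by
    intro ω
    rw [hs, hb]
    dsimp only
    unfold law
    rw [← Finset.sum_add_distrib]
    refine Finset.sum_congr rfl fun ω' _ => ?_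
    by_cases h1 : G ω' = G ω
    · by_cases h2 : |x ω' - x ω| < m₀
      · rw [if_pos ⟨h1, h2⟩, if_neg (fun h => absurd h2 (not_lt.mpr h.2)), if_pos h1, add_zero]
      · rw [if_neg (fun h => h2 h.2), if_pos ⟨h1, not_lt.mp h2⟩, if_pos h1, zero_add]
    · rw [if_neg (fun h => h1 h.1), if_neg (fun h => h1 h.1), if_neg h1, add_zero]
  set E : Ω → Prop := fun ω => law p G (G ω) / 2 < s ω with hE
  have hb0 : ∀ ω, 0 ≤ b ω := fun ω => by
    rw [hb]
    exact Finset.sum_nonneg fun ω' _ => by split_ifs; exacts [h0 ω', le_rfl]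
  have hcop' : ∑ w, (if m₀ ≤ |x w.2 - x w.1| then glue p p G G w else 0) =
      ∑ ω, p ω * b ω / law p G (G ω) := by
    rw [Fintype.sum_prod_type]
    refine Finset.sum_congr rfl fun ω _ => ?_
    rw [hb]
    dsimp only
    rw [Finset.mul_sum, Finset.sum_div]
    refine Finset.sum_congr rfl fun ω' _ => ?_
    unfold glue
    by_cases h1 : G ω' = G ω
    · by_cases h2 : m₀ ≤ |x ω' - x ω|
      · rw [if_pos h2, if_pos h1.symm, if_pos ⟨h1, h2⟩]
      · rw [if_neg h2, if_neg (fun h => h2 h.2), mul_zero, zero_div]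
    · rw [if_neg (show ¬ (G ω' = G ω ∧ m₀ ≤ |x ω' - x ω|) from fun h => h1 h.1), mul_zero, zero_div]
      split_ifs with h2 h3
      · exact absurd h3.symm h1
      · rfl
      · rfl
  have hEF : law p E False ≤ 2 * δ := by
    have h1 : law p E False ≤ ∑ ω, 2 * (p ω * b ω / law p G (G ω)) := by
      unfold law
      refine Finset.sum_le_sum fun ω _ => ?_
      by_cases h2 : E ω = False
      · rw [if_pos h2]
        rcases (h0 ω).eq_or_lt with hz | hz
        · rw [← hz]
          simp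
        · have hl : 0 < law p G (G ω) := law_pos h0 G hz
          have h3 : s ω ≤ law p G (G ω) / 2 := not_lt.mp (fun h => (h2 ▸ (show E ω from h) : False))
          have h4 : law p G (G ω) / 2 ≤ b ω := by
            have := hsb ω
            linarith
          change p ω ≤ 2 * (p ω * b ω / law p G (G ω))
          rw [mul_div_assoc', le_div_iff₀ hl]
          nlinarith [mul_le_mul_of_nonneg_left h4 hz.le]
      · rw [if_neg h2]
        have := mul_nonneg (h0 ω) (hb0 ω)
        have h5 := law_nonneg h0 G (G ω)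
        have := div_nonneg this h5
        change 0 ≤ 2 * (p ω * b ω / law p G (G ω))
        linarith
    rw [← Finset.mul_sum, ← hcop'] at h1
    linarith
  -- two good points are near
  have hnear : ∀ ω ω', G ω = G ω' → E ω → E ω' → |x ω - x ω'| < 2 * m₀ := by
    intro ω ω' hG h1 h2
    by_contra hcon
    push Not at hcon
    have h3 : s ω + s ω' ≤ law p G (G ω) := by
      rw [hs]
      dsimp only
      unfold law
      rw [← Finset.sum_add_distrib]
      refine Finset.sum_le_sum fun v _ => ?_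
      by_cases g1 : G v = G ω ∧ |x v - x ω| < m₀
      · by_cases g2 : G v = G ω' ∧ |x v - x ω'| < m₀
        · exfalso
          have g3 := abs_sub_le (x ω) (x v) (x ω')
          rw [abs_sub_comm (x ω) (x v)] at g3
          linarith [g1.2, g2.2]
        · rw [if_pos g1, if_neg g2, if_pos g1.1, add_zero]
      · rw [if_neg g1, zero_add]
        by_cases g2 : G v = G ω' ∧ |x v - x ω'| < m₀
        · rw [if_pos g2, if_pos (g2.1.trans hG.symm)]
        · rw [if_neg g2]
          split_ifs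
          exacts [h0 v, le_rfl]
    have h4 : law p G (G ω) / 2 < s ω := h1
    have h5 : law p G (G ω') / 2 < s ω' := h2
    rw [← hG] at h5
    linarith
  have hfin := CH_two hp (fun ω => ⌊x ω / m₀⌋) G E (a := Real.log 5) (V := V) (δ := 2 * δ)
    (Real.log_nonneg (by norm_num)) hV0 (fun q hq hqE => ?_) hV hEF
  · exact hfin
  · -- the reference value
    set f : Γ → ℤ := fun g => if h : ∃ ω, G ω = g ∧ E ω then ⌊x h.choose / m₀⌋ else 0 with hf
    have h1 := CH_fn hq.nonneg hq.sum_one (fun ω => ⌊x ω / m₀⌋) G f 2 fun ω hω => by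
      have h2 := (hqE ω hω).2
      have h3 : ∃ ω', G ω' = G ω ∧ E ω' := ⟨ω, rfl, h2⟩
      have e : f (G ω) = ⌊x h3.choose / m₀⌋ := by
        rw [hf]
        dsimp only
        rw [dif_pos h3]
      rw [e]
      obtain ⟨h4, h5⟩ := h3.choose_spec
      have h6 := hnear ω _ h4.symm h2 h5
      have h7 : |x ω / m₀ - x h3.choose / m₀| < 2 := by
        rw [← sub_div, abs_div, abs_of_pos hm₀, div_lt_iff₀ hm₀]
        exact h6
      obtain ⟨h8, h9⟩ := abs_lt.mp h7
      have g1 := Int.floor_le (x ω / m₀)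
      have g2 := Int.lt_floor_add_one (x ω / m₀)
      have g3 := Int.floor_le (x h3.choose / m₀)
      have g4 := Int.lt_floor_add_one (x h3.choose / m₀)
      rw [abs_le]
      constructor
      · have : (⌊x h3.choose / m₀⌋ : ℝ) < (⌊x ω / m₀⌋ : ℝ) + 3 := by linarith
        have h10 : ⌊x h3.choose / m₀⌋ < ⌊x ω / m₀⌋ + 3 := by exact_mod_cast this
        push_cast
        omega
      · have : (⌊x ω / m₀⌋ : ℝ) < (⌊x h3.choose / m₀⌋ : ℝ) + 3 := by linarith
        have h10 : ⌊x ω / m₀⌋ < ⌊x h3.choose / m₀⌋ + 3 := by exact_mod_cast this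
        push_cast
        omega
    refine h1.trans (le_of_eq ?_)
    norm_num

open Classical in
/-- **HOP-k.** -/
theorem hop_few {Ω Λ Γ 𝒞 : Type} [Fintype Ω] {p : Ω → ℝ} (hp : IsLaw p) {k M K : ℕ}
    (hk : k = 1 ∨ k = 2) (hM : 1 ≤ M) (L : Ω → Λ) (t : Ω → ℤ) (G : Ω → Γ) (C : Λ → 𝒞) (c : Λ → ℝ)
    (n : Λ → ℤ → ℤ) {m₀ R e U V : ℝ} (hm₀ : 0 < m₀) (hmM : m₀ ≤ M) (hR : 0 < R) (he : 0 ≤ e)
    (ht : ∀ ω, 0 < p ω → |t ω| ≤ (M : ℤ))
    (hG : ∀ ω ω', 0 < p ω → 0 < p ω' → G ω = G ω' → C (L ω) = C (L ω') ∧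
      ∀ τ : ℤ, |τ| ≤ (M : ℤ) → |((n (L ω') τ : ℝ) - n (L ω) τ) -
        (c (L ω') - c (L ω)) * (((τ : ℝ) - t ω) / M) ^ k| ≤ K)
    (hfull : Real.log (2 * M + 1) - e ≤ CH p t L)
    (hNF : ∀ q : Ω → ℝ, IsLaw q → (∀ ω, q ω ≤ R * p ω) →
      CH q (fun ω => n (L ω) (t ω)) (fun ω => (t ω, C (L ω))) ≤ U)
    (hbig : U + R * (3 * e + Real.log 2) +
      Real.log ((2 + 16 * K) * (1 + Real.log (2 * M + 1))) < Real.log m₀)
    (hV0 : 0 ≤ V) (hV : ∀ q : Ω → ℝ, IsLaw q → (∀ ω, 0 < q ω → 0 < p ω) →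
      CH q (fun ω => ⌊c (L ω) / m₀⌋) G ≤ V) :
    CH p (fun ω => ⌊c (L ω) / m₀⌋) G ≤ Real.log 2 + Real.log 5 + 2 / R * V := by
  have h1 := hop hp hk hM L t G C c n hm₀ hmM hR he ht hG hfull hNF hbig
  have h2 := hop_ent hp G (fun ω => c (L ω)) hm₀ hV0 h1.le hV
  refine h2.trans (le_of_eq ?_)
  ring

end Pool.OWN68
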