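import Pool.Agent.H91.LA.Fml
import Pool.Agent.H68.OWN.Npl

/-!
# The own path in the window of a line: a dictionary

`opl F w H x`: the polynomial `H` of the time and of the position, on the line `x`, in the parameter
`u` of the window, `|u| ≤ 1`. `tw F w`: the time in the window; `u = tw / 2 ^ (J - w)`.
`opl_jet`: its derivatives at the time of the sample are the own jets, up to powers of the length of
the window. `der_small`, `cof_small`: derivatives at a point from the coefficients, and back.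
-/

set_option autoImplicit false

namespace Pool.OWN68

open Finset Real MvPolynomial
open Pool.Agent.H49.Ent Pool.Agent.H32.Dense Pool.STK Pool.KA Pool.KSAT Pool.K2S Pool.PB Pool.GEN
open Pool.LA91 (lp jet ojet)

variable {m J : ℕ}

/-! ### Polynomials in one variable -/

/-- The derivatives on `[-1, 1]` from the coefficients. -/
theorem der_small (D : ℕ) : ∃ C : ℝ, 1 ≤ C ∧ ∀ (E : Polynomial ℝ) (j : ℕ) (u B : ℝ),
    E.natDegree ≤ D → |u| ≤ 1 → (∀ i, j ≤ i → |E.coeff i| ≤ B) →
    |(Polynomial.derivative^[j] E).eval u| ≤ C * B := by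
  have hC : (1 : ℝ) ≤ (D + 1) * (D + 1 : ℝ) ^ D := by
    have h1 : (1 : ℝ) ≤ D + 1 := by
      have : (0 : ℝ) ≤ D := Nat.cast_nonneg D
      linarith
    exact one_le_mul_of_one_le_of_one_le h1 (one_le_pow₀ h1)
  refine ⟨(D + 1) * (D + 1 : ℝ) ^ D, hC, fun E j u B hE hu hB => ?_⟩
  have hB0 : 0 ≤ B := (abs_nonneg _).trans (hB j le_rfl)
  by_cases hj : j ≤ D
  · have hdeg : (Polynomial.derivative^[j] E).natDegree < D + 1 := by
      have := Polynomial.natDegree_iterate_derivative E j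
      omega
    rw [Polynomial.eval_eq_sum_range' hdeg]
    refine (Finset.abs_sum_le_sum_abs _ _).trans ?_
    have h1 : ∀ i ∈ range (D + 1), |(Polynomial.derivative^[j] E).coeff i * u ^ i| ≤
        (D + 1 : ℝ) ^ D * B := by
      intro i _
      rw [abs_mul, abs_pow]
      have h2 : |u| ^ i ≤ 1 := pow_le_one₀ (abs_nonneg _) hu
      have h3 : |(Polynomial.derivative^[j] E).coeff i| ≤ (D + 1 : ℝ) ^ D * B := by
        rw [Polynomial.coeff_iterate_derivative, nsmul_eq_mul, abs_mul]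
        by_cases hi : i + j ≤ D
        · have h4 : |(((i + j).descFactorial j : ℕ) : ℝ)| ≤ (D + 1 : ℝ) ^ D := by
            rw [abs_of_nonneg (Nat.cast_nonneg _)]
            have h5 : (i + j).descFactorial j ≤ (i + j) ^ j := Nat.descFactorial_le_pow _ _
            have h6 : (i + j) ^ j ≤ (D + 1) ^ D :=
              (Nat.pow_le_pow_left (by omega) j).trans (Nat.pow_le_pow_right (by omega) hj)
            exact_mod_cast h5.trans h6
          exact mul_le_mul h4 (hB _ (by omega)) (abs_nonneg _) (by positivity)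
        · rw [Polynomial.coeff_eq_zero_of_natDegree_lt (by omega), abs_zero, mul_zero]
          positivity
      calc |(Polynomial.derivative^[j] E).coeff i| * |u| ^ i ≤ (D + 1 : ℝ) ^ D * B * 1 :=
            mul_le_mul h3 h2 (by positivity) (by positivity)
        _ = _ := mul_one _
    refine (Finset.sum_le_sum h1).trans (le_of_eq ?_)
    rw [Finset.sum_const, Finset.card_range, nsmul_eq_mul]
    push_cast
    ring
  · rw [Polynomial.iterate_derivative_eq_zero (by omega), Polynomial.eval_zero, abs_zero]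
    positivity

/-- The coefficients from the derivatives at a point of `[-1, 1]`. -/
theorem cof_small (D : ℕ) : ∃ C : ℝ, 1 ≤ C ∧ ∀ (E : Polynomial ℝ) (j : ℕ) (u B : ℝ),
    E.natDegree ≤ D → |u| ≤ 1 →
    (∀ i, j ≤ i → |(Polynomial.derivative^[i] E).eval u| ≤ B) → |E.coeff j| ≤ C * B := by
  obtain ⟨C, hC, h⟩ := der_small D
  refine ⟨C, hC, fun E j u B hE hu hB => ?_⟩
  obtain ⟨P, hP⟩ : ∃ P, P = Polynomial.taylor u E := ⟨_, rfl⟩
  have hPE : E = Polynomial.taylor (-u) P := by
    rw [hP, Polynomial.taylor_taylor, neg_add_cancel, Polynomial.taylor_zero]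
  have hfac : ∀ (Q : Polynomial ℝ) (i : ℕ) (v : ℝ),
      |(Polynomial.taylor v Q).coeff i| ≤ |(Polynomial.derivative^[i] Q).eval v| := by
    intro Q i v
    rw [Polynomial.taylor_coeff]
    have h1 : (Polynomial.derivative^[i] Q).eval v =
        (Nat.factorial i : ℝ) * ((Polynomial.hasseDeriv i) Q).eval v := by
      rw [← Polynomial.factorial_smul_hasseDeriv]
      simp
    rw [h1, abs_mul]
    have h2 : (1 : ℝ) ≤ |((Nat.factorial i : ℕ) : ℝ)| := by
      rw [abs_of_nonneg (Nat.cast_nonneg _)]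
      exact_mod_cast Nat.factorial_pos i
    exact le_mul_of_one_le_left (abs_nonneg _) h2
  have hPd : P.natDegree ≤ D := by
    rw [hP, Polynomial.natDegree_taylor]
    exact hE
  have h1 := h P j (-u) B hPd (by rwa [abs_neg]) (fun i hi => by
    rw [hP]
    exact (hfac E i u).trans (hB i hi))
  calc |E.coeff j| = |(Polynomial.taylor (-u) P).coeff j| := by rw [← hPE]
    _ ≤ |(Polynomial.derivative^[j] P).eval (-u)| := hfac P j (-u)
    _ ≤ C * B := h1

/-! ### The window -/

/-- The middle of the window. -/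
noncomputable def mid (F : Fam m J) (w : ℕ) (x : LnT F) : Option (Fin m) → ℝ
  | none => ((x.2.2 : ℝ) + 1 / 2) / 2 ^ w
  | some i => x.1.1 i + ((x.2.2 : ℝ) + 1 / 2) / 2 ^ w * x.1.2 i

/-- The velocity. -/
noncomputable def dirv (F : Fam m J) (x : LnT F) : Option (Fin m) → ℝ
  | none => 1
  | some i => x.1.2 i

/-- **The own path in the window**, in the parameter `u`, `|u| ≤ 1`. -/
noncomputable def opl (F : Fam m J) (w : ℕ) (H : MvPolynomial (Option (Fin m)) ℝ) (x : LnT F) :
    Polynomial ℝ :=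
  (aeval (lp (mid F w x) (dirv F x)) H).comp
    (Polynomial.C (1 / 2 ^ (w + 1)) * Polynomial.X)

/-- The time in the window. -/
def tw (F : Fam m J) (w : ℕ) (ω : F.Ω) : ℤ :=
  2 * ((F.T ω % 2 ^ (J - w) : ℕ) : ℤ) - ((2 ^ (J - w) : ℕ) : ℤ)

theorem tw_abs (F : Fam m J) (w : ℕ) (ω : F.Ω) : |tw F w ω| ≤ ((2 ^ (J - w) : ℕ) : ℤ) := by
  have h1 : F.T ω % 2 ^ (J - w) < 2 ^ (J - w) := Nat.mod_lt _ (by positivity)
  have h2 : ((F.T ω % 2 ^ (J - w) : ℕ) : ℤ) < ((2 ^ (J - w) : ℕ) : ℤ) := by exact_mod_cast h1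
  have h3 : (0 : ℤ) ≤ ((F.T ω % 2 ^ (J - w) : ℕ) : ℤ) := Int.natCast_nonneg _
  unfold tw
  rw [abs_le]
  constructor <;> linarith

/-- The parameter of the window. -/
noncomputable def uw (F : Fam m J) (w : ℕ) (ω : F.Ω) : ℝ :=
  (tw F w ω : ℝ) / ((2 ^ (J - w) : ℕ) : ℝ)

theorem uw_abs (F : Fam m J) (w : ℕ) (ω : F.Ω) : |uw F w ω| ≤ 1 :=
  unit_le (M := 2 ^ (J - w)) Nat.one_le_two_pow (tw_abs F w ω)

theorem t_mid (F : Fam m J) {w : ℕ} (hw : w ≤ J) (ω : F.Ω) :
    F.t ω = mid F w (slam F w ω) none + uw F w ω / 2 ^ (w + 1) := by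
  have h1 : (F.T ω : ℝ) = 2 ^ (J - w) * (F.T1 w ω : ℝ) + ((F.T ω % 2 ^ (J - w) : ℕ) : ℝ) := by
    have := Nat.div_add_mod (F.T ω) (2 ^ (J - w))
    unfold Fam.T1
    exact_mod_cast this.symm
  have h2 : (2 : ℝ) ^ J = 2 ^ w * 2 ^ (J - w) := by
    rw [← pow_add]
    congr 1
    omega
  have h3 : mid F w (slam F w ω) none = ((F.T1 w ω : ℝ) + 1 / 2) / 2 ^ w := rfl
  have h4 : (tw F w ω : ℝ) = 2 * ((F.T ω % 2 ^ (J - w) : ℕ) : ℝ) - 2 ^ (J - w) := by
    unfold tw
    rw [Int.cast_sub, Int.cast_mul, Int.cast_natCast, Int.cast_natCast]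
    norm_num
  rw [h3]
  unfold Fam.t uw
  rw [h1, h2, h4, Nat.cast_pow, Nat.cast_ofNat]
  generalize ((F.T ω % 2 ^ (J - w) : ℕ) : ℝ) = r
  field_simp
  ring

theorem bt_mid (F : Fam m J) {w : ℕ} (hw : w ≤ J) (ω : F.Ω) (o : Option (Fin m)) :
    bt F ω o = mid F w (slam F w ω) o + uw F w ω / 2 ^ (w + 1) * dirv F (slam F w ω) o := by
  have h1 := t_mid F hw ω
  cases o with
  | none =>
    have h2 : dirv F (slam F w ω) none = 1 := rfl
    rw [h2, mul_one]
    exact h1
  | some i =>
    have h2 : dirv F (slam F w ω) (some i) = F.d ω i := rfl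
    have h3 : mid F w (slam F w ω) (some i) = F.u ω i + mid F w (slam F w ω) none * F.d ω i := rfl
    have h4 : bt F ω (some i) = F.u ω i + F.t ω * F.d ω i := rfl
    rw [h2, h3, h4, h1]
    ring

theorem bd_mid (F : Fam m J) (w : ℕ) (ω : F.Ω) : bd F ω = dirv F (slam F w ω) := by
  funext o
  cases o with
  | none => rfl
  | some i => rfl

theorem natDegree_opl (F : Fam m J) (w : ℕ) {H : MvPolynomial (Option (Fin m)) ℝ} {D : ℕ}
    (hH : H.totalDegree ≤ D) (x : LnT F) : (opl F w H x).natDegree ≤ D := by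
  unfold opl
  refine Polynomial.natDegree_comp_le.trans ?_
  have h1 : (Polynomial.C (1 / 2 ^ (w + 1)) * Polynomial.X : Polynomial ℝ).natDegree ≤ 1 :=
    (Polynomial.natDegree_C_mul_le _ _).trans Polynomial.natDegree_X_le
  calc (aeval (lp (mid F w x) (dirv F x)) H).natDegree *
      (Polynomial.C (1 / 2 ^ (w + 1)) * Polynomial.X : Polynomial ℝ).natDegree
      ≤ D * 1 := Nat.mul_le_mul (Pool.LA91.natDegree_alp hH _ _) h1
    _ = D := mul_one D

/-- **The derivatives of the own path at the time of the sample are the own jets.** -/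
theorem opl_jet (F : Fam m J) {w : ℕ} (hw : w ≤ J) (H : MvPolynomial (Option (Fin m)) ℝ)
    (ω : F.Ω) (j : ℕ) : (Polynomial.derivative^[j] (opl F w H (slam F w ω))).eval (uw F w ω) =
      (1 / 2 ^ (w + 1)) ^ j * jet j H (bt F ω) (bd F ω) := by
  unfold opl
  rw [Pool.LA91.der_scale, Polynomial.eval_mul, Polynomial.eval_C, Polynomial.eval_comp,
    Polynomial.eval_mul, Polynomial.eval_C, Polynomial.eval_X]
  congr 1
  unfold jet
  have h1 : aeval (lp (bt F ω) (bd F ω)) H =
      (aeval (lp (mid F w (slam F w ω)) (dirv F (slam F w ω))) H).comp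
        (Polynomial.C 1 * (Polynomial.X - Polynomial.C (-(uw F w ω / 2 ^ (w + 1))))) := by
    refine Polynomial.funext fun t => ?_
    rw [Polynomial.eval_comp, Pool.LA91.eval_alp, Pool.LA91.eval_alp]
    congr 2
    funext o
    rw [bt_mid F hw ω o, bd_mid F w ω, Polynomial.eval_mul, Polynomial.eval_C,
      Polynomial.eval_sub, Polynomial.eval_X, Polynomial.eval_C]
    ring
  rw [h1, Pool.LA91.der_aff, one_pow, Polynomial.eval_mul, Polynomial.eval_C, one_mul,
    Polynomial.eval_comp, Polynomial.eval_mul, Polynomial.eval_C, Polynomial.eval_sub,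
    Polynomial.eval_X, Polynomial.eval_C]
  congr 1
  ring

end Pool.OWN68
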