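import Pool.Agent.H68.OWN.Cnt

/-!
# Kaufman's theorem with `k` parameters

`A` is a vector in `ℝ ^ k`, `B` a real number, `c` a vector of integers which is nearly uniform in a
box and nearly independent of `(A, B)` and `W`. The entropy of `⌊2 ^ s B + ∑ A i c i⌋` given `c` and
`W` is bounded below by the entropy of a label: the pair `(A, B)` to a random number `κ` of digits.
All errors are linear in the entropy deficits.
-/

set_option autoImplicit false

namespace Pool.OWN68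

open Finset Real
open Pool.Agent.H49.Ent Pool.Agent.H32.Dense Pool.STK

section

variable {k : ℕ}

/-- The two pairs agree to `r` digits. -/
def nbr (C : ℕ) (r : ℕ) (y y' : (Fin k → ℝ) × ℝ) : Prop :=
  (∀ i, |y.1 i - y'.1 i| ≤ 2 * C / 2 ^ r) ∧ |y.2 - y'.2| ≤ (1 + 2 * k * C ^ 2) / 2 ^ r

/-- The label: the pair to `r` digits. -/
noncomputable def lbl (r : ℕ) (y : (Fin k → ℝ) × ℝ) : (Fin k → ℤ) × ℤ :=
  (fun i => ⌊(2 : ℝ) ^ r * y.1 i⌋, ⌊(2 : ℝ) ^ r * y.2⌋)

/-- The position. -/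
noncomputable def pos (s : ℕ) (y : (Fin k → ℝ) × ℝ) (c : Fin k → ℤ) : ℤ :=
  ⌊(2 : ℝ) ^ s * y.2 + ∑ i, y.1 i * c i⌋

theorem floor_near {a b d : ℝ} {D : ℕ} (h : |a - b| ≤ d) (hd : d ≤ D) :
    |⌊a⌋ - ⌊b⌋| ≤ (D : ℤ) + 1 := by
  have h1 := Int.floor_le a
  have h2 := Int.lt_floor_add_one a
  have h3 := Int.floor_le b
  have h4 := Int.lt_floor_add_one b
  have h5 := abs_le.mp (h.trans hd)
  have h6 : ((⌊a⌋ - ⌊b⌋ : ℤ) : ℝ) < (((D : ℤ) + 1 + 1 : ℤ) : ℝ) := by
    push_cast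
    linarith
  have h7 : (((-((D : ℤ) + 1) - 1 : ℤ)) : ℝ) < ((⌊a⌋ - ⌊b⌋ : ℤ) : ℝ) := by
    push_cast
    linarith
  have h8 := Int.cast_lt.mp h6
  have h9 := Int.cast_lt.mp h7
  rw [abs_le]
  constructor <;> omega

theorem lbl_near {C r : ℕ} {y y' : (Fin k → ℝ) × ℝ} (h : nbr C r y y') :
    (∀ i, |(lbl r y').1 i - (lbl r y).1 i| ≤ ((2 * C + 1 : ℕ) : ℤ)) ∧
      |(lbl r y').2 - (lbl r y).2| ≤ ((1 + 2 * k * C ^ 2 + 1 : ℕ) : ℤ) := by
  have hp : (0 : ℝ) < 2 ^ r := by positivity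
  constructor
  · intro i
    have h1 := h.1 i
    have h2 : |(2 : ℝ) ^ r * y'.1 i - 2 ^ r * y.1 i| ≤ 2 * C := by
      rw [← mul_sub, abs_mul, abs_of_pos hp, abs_sub_comm]
      rw [le_div_iff₀ hp] at h1
      linarith
    have := floor_near (D := 2 * C) h2 (by push_cast; exact le_rfl)
    unfold lbl
    push_cast at this ⊢
    exact this
  · have h1 := h.2
    have h2 : |(2 : ℝ) ^ r * y'.2 - 2 ^ r * y.2| ≤ 1 + 2 * k * C ^ 2 := by
      rw [← mul_sub, abs_mul, abs_of_pos hp, abs_sub_comm]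
      rw [le_div_iff₀ hp] at h1
      linarith
    have := floor_near (D := 1 + 2 * k * C ^ 2) h2 (by push_cast; exact le_rfl)
    unfold lbl
    push_cast at this ⊢
    exact this

/-- The scale at which two vectors separate. -/
theorem exists_scale {C s : ℕ} {a : ℝ} (ha : a ≤ 2 * C) :
    ∃ r ≤ s, a ≤ 2 * C / 2 ^ r ∧ (r = s ∨ (C : ℝ) / 2 ^ r < a) := by
  classical
  obtain ⟨r, hr, hmax⟩ := Finset.exists_max_image
    ((Finset.range (s + 1)).filter (fun r => a ≤ 2 * C / 2 ^ r)) (fun r => r)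
    ⟨0, Finset.mem_filter.mpr ⟨Finset.mem_range.mpr (by omega), by simpa using ha⟩⟩
  rw [Finset.mem_filter, Finset.mem_range] at hr
  refine ⟨r, by omega, hr.2, ?_⟩
  by_cases h : r = s
  · exact Or.inl h
  · right
    by_contra hcon
    push Not at hcon
    have h1 := hmax (r + 1) (Finset.mem_filter.mpr ⟨Finset.mem_range.mpr (by omega), by
      rw [pow_succ]
      refine hcon.trans (le_of_eq ?_)
      field_simp⟩)
    omega

open Classical in
/-- **The number of collisions.** -/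
theorem coll {C s : ℕ} (hC : 1 ≤ C) (hk : 1 ≤ k) {y y' : (Fin k → ℝ) × ℝ}
    (hy : ∀ i, |y.1 i| ≤ C) (hy' : ∀ i, |y'.1 i| ≤ C) :
    ∑ x ∈ bx k (C * 2 ^ s), (if pos s y' x = pos s y x then (1 : ℝ) else 0) ≤
      (bx k (C * 2 ^ s)).card * (2 * ∑ r ∈ Finset.range (s + 1),
        (if nbr C r y y' then (2 : ℝ) ^ r / 2 ^ s else 0)) := by
  have hS : (0 : ℝ) < 2 ^ s := by positivity
  have hC' : (1 : ℝ) ≤ C := by exact_mod_cast hC
  have : Nonempty (Fin k) := ⟨⟨0, by omega⟩⟩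
  set η : Fin k → ℝ := fun i => y'.1 i - y.1 i with hη
  obtain ⟨i, hi⟩ := Finite.exists_max (fun i => |η i|)
  have hi2 : |η i| ≤ 2 * C := by
    have h1 := abs_sub (y'.1 i) (y.1 i)
    have h2 := hy i
    have h3 := hy' i
    rw [hη]
    dsimp only
    linarith
  obtain ⟨r, hr, h1, h2⟩ := exists_scale (s := s) hi2
  set F := (bx k (C * 2 ^ s)).filter (fun x => pos s y' x = pos s y x) with hF
  have e1 : ∑ x ∈ bx k (C * 2 ^ s), (if pos s y' x = pos s y x then (1 : ℝ) else 0) = F.card := by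
    rw [Finset.sum_boole]
  rw [e1]
  have hN : (0 : ℝ) ≤ (bx k (C * 2 ^ s)).card := Nat.cast_nonneg _
  have hnn : ∀ r' ∈ Finset.range (s + 1), (0 : ℝ) ≤ if nbr C r' y y' then (2 : ℝ) ^ r' / 2 ^ s
      else 0 := fun r' _ => by
    split_ifs
    · positivity
    · exact le_rfl
  rcases F.eq_empty_or_nonempty with h0 | ⟨x₀, hx₀⟩
  · rw [h0, Finset.card_empty, Nat.cast_zero]
    exact mul_nonneg hN (mul_nonneg (by norm_num) (Finset.sum_nonneg hnn))
  have hsl : ∀ x ∈ F, |∑ j, η j * x j - 2 ^ s * (y.2 - y'.2)| ≤ 1 := by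
    intro x hx
    have h3 := (Finset.mem_filter.mp hx).2
    unfold pos at h3
    have h4 := Int.abs_sub_lt_one_of_floor_eq_floor h3
    have e : ∑ j, η j * x j - 2 ^ s * (y.2 - y'.2) =
        (2 ^ s * y'.2 + ∑ i, y'.1 i * x i) - (2 ^ s * y.2 + ∑ i, y.1 i * x i) := by
      rw [hη]
      simp only [sub_mul, Finset.sum_sub_distrib]
      ring
    rw [e]
    exact h4.le
  have hxb : ∀ x ∈ F, ∀ j, |(x j : ℝ)| ≤ C * 2 ^ s := by
    intro x hx j
    have h3 := mem_bx.mp (Finset.mem_filter.mp hx).1 j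
    have : |(x j : ℝ)| ≤ (((C * 2 ^ s : ℕ) : ℤ) : ℝ) := by exact_mod_cast h3
    push_cast at this
    exact this
  have hnb : nbr C r y y' := by
    refine ⟨fun j => ?_, ?_⟩
    · rw [abs_sub_comm]
      exact (hi j).trans h1
    · have h3 := hsl x₀ hx₀
      have h4 : |∑ j, η j * (x₀ j : ℝ)| ≤ k * (|η i| * (C * 2 ^ s)) := by
        refine (Finset.abs_sum_le_sum_abs _ _).trans ?_
        refine (Finset.sum_le_card_nsmul _ _ (|η i| * (C * 2 ^ s)) fun j _ => ?_).trans ?_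
        · rw [abs_mul]
          exact mul_le_mul (hi j) (hxb x₀ hx₀ j) (abs_nonneg _) (abs_nonneg _)
        · rw [Finset.card_univ, Fintype.card_fin, nsmul_eq_mul]
      have h5 : |2 ^ s * (y.2 - y'.2)| ≤ 1 + k * (|η i| * (C * 2 ^ s)) := by
        have e : 2 ^ s * (y.2 - y'.2) = ∑ j, η j * (x₀ j : ℝ) -
            (∑ j, η j * (x₀ j : ℝ) - 2 ^ s * (y.2 - y'.2)) := by ring
        rw [e]
        refine (abs_sub _ _).trans ?_
        linarith
      rw [abs_mul, abs_of_pos hS] at h5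
      have hrs : (1 : ℝ) / 2 ^ s ≤ 1 / 2 ^ r :=
        one_div_le_one_div_of_le (by positivity) (pow_le_pow_right₀ (by norm_num) hr)
      have h6 : |y.2 - y'.2| ≤ 1 / 2 ^ s + k * (|η i| * C) := by
        rw [← mul_le_mul_iff_right₀ hS]
        refine h5.trans (le_of_eq ?_)
        field_simp
      have h7 : (k : ℝ) * (|η i| * C) ≤ k * (2 * C / 2 ^ r * C) :=
        mul_le_mul_of_nonneg_left (mul_le_mul_of_nonneg_right h1 (by linarith))
          (Nat.cast_nonneg k)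
      have e8 : (1 + 2 * (k : ℝ) * C ^ 2) / 2 ^ r = 1 / 2 ^ r + k * (2 * C / 2 ^ r * C) := by
        field_simp
      rw [e8]
      linarith
  have hge : (2 : ℝ) ^ r / 2 ^ s ≤ ∑ r' ∈ Finset.range (s + 1),
      (if nbr C r' y y' then (2 : ℝ) ^ r' / 2 ^ s else 0) := by
    have := Finset.single_le_sum hnn (Finset.mem_range.mpr (show r < s + 1 by omega))
    rw [if_pos hnb] at this
    exact this
  have hFN : (F.card : ℝ) ≤ (bx k (C * 2 ^ s)).card := by
    exact_mod_cast Finset.card_filter_le _ _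
  have key : (F.card : ℝ) ≤ (bx k (C * 2 ^ s)).card * (2 * ((2 : ℝ) ^ r / 2 ^ s)) := by
    rcases h2 with h2 | h2
    · rw [h2, div_self hS.ne']
      linarith
    · have hηi : η i ≠ 0 := by
        intro hz
        rw [hz, abs_zero] at h2
        have : (0 : ℝ) ≤ C / 2 ^ r := by positivity
        linarith
      have h3 : (F.card : ℝ) ≤ (2 * ((C * 2 ^ s : ℕ) : ℝ) + 1) ^ (k - 1) * (2 * 1 / |η i| + 1) := by
        refine le_trans ?_ (cntk η i hηi (M := C * 2 ^ s) (zero_le_one) (2 ^ s * (y.2 - y'.2)))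
        have : F ⊆ (bx k (C * 2 ^ s)).filter (fun c => |∑ j, η j * c j - 2 ^ s * (y.2 - y'.2)| ≤ 1) :=
          fun x hx => Finset.mem_filter.mpr ⟨(Finset.mem_filter.mp hx).1, hsl x hx⟩
        exact_mod_cast Finset.card_le_card this
      have h4 : 2 * 1 / |η i| ≤ 2 * 2 ^ r := by
        have hpos : 0 < |η i| := abs_pos.mpr hηi
        rw [div_le_iff₀ hpos]
        have h5 : (1 : ℝ) / 2 ^ r ≤ |η i| := by
          refine le_trans ?_ h2.le
          exact div_le_div_of_nonneg_right hC' (by positivity)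
        rw [div_le_iff₀ (by positivity)] at h5
        linarith
      have h6 : (1 : ℝ) ≤ 2 ^ r := one_le_pow₀ (by norm_num)
      have h7 : ((bx k (C * 2 ^ s)).card : ℝ) =
          (2 * ((C * 2 ^ s : ℕ) : ℝ) + 1) ^ (k - 1) * (2 * ((C * 2 ^ s : ℕ) : ℝ) + 1) := by
        rw [card_bx, ← pow_succ, Nat.sub_add_cancel hk]
        push_cast
        ring
      have h8 : (2 : ℝ) * 2 ^ s ≤ 2 * ((C * 2 ^ s : ℕ) : ℝ) + 1 := by
        push_cast
        nlinarith
      rw [h7]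
      refine h3.trans ?_
      rw [mul_assoc]
      refine mul_le_mul_of_nonneg_left ?_ (by positivity)
      have h9 : (2 * (2 : ℝ) ^ s) * (2 * (2 ^ r / 2 ^ s)) ≤
          (2 * ((C * 2 ^ s : ℕ) : ℝ) + 1) * (2 * (2 ^ r / 2 ^ s)) :=
        mul_le_mul_of_nonneg_right h8 (by positivity)
      have e9 : (2 * (2 : ℝ) ^ s) * (2 * (2 ^ r / 2 ^ s)) = 4 * 2 ^ r := by
        field_simp
        ring
      linarith
  refine key.trans ?_
  exact mul_le_mul_of_nonneg_left (mul_le_mul_of_nonneg_left hge (by norm_num)) hN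

end

end Pool.OWN68
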