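import Pool.Agent.H68.OWN.Kau

/-!
# Kaufman's theorem with `k` parameters: the theorem
-/

set_option autoImplicit false

namespace Pool.OWN68

open Finset Real
open Pool.Agent.H49.Ent Pool.Agent.H32.Dense Pool.STK

section

variable {Ω ζ : Type} [Fintype Ω] {k : ℕ}

open Classical in
/-- The probability of the neighbours. -/
noncomputable def nbp (p : Ω → ℝ) (W : Ω → ζ) (Y : Ω → (Fin k → ℝ) × ℝ) (C r : ℕ) (w : ζ)
    (y : (Fin k → ℝ) × ℝ) : ℝ :=
  ∑ ω', if W ω' = w ∧ nbr C r y (Y ω') then p ω' else 0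

theorem nbr_self (C r : ℕ) (y : (Fin k → ℝ) × ℝ) : nbr C r y y := by
  refine ⟨fun i => ?_, ?_⟩
  · rw [sub_self, abs_zero]
    positivity
  · rw [sub_self, abs_zero]
    positivity

/-- The number of labels. -/
def nlb (k C s : ℕ) : ℕ :=
  (s + 1) * ((2 * (2 * C + 1) + 1) ^ k * (2 * (1 + 2 * k * C ^ 2 + 1) + 1))

open Classical in
theorem card_near {C s : ℕ} (F : Finset (ℕ × ((Fin k → ℤ) × ℤ))) (y : (Fin k → ℝ) × ℝ) :
    (F.filter (fun x => x.1 ≤ s ∧ (∀ i, |(lbl x.1 y).1 i - x.2.1 i| ≤ ((2 * C + 1 : ℕ) : ℤ)) ∧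
      |(lbl x.1 y).2 - x.2.2| ≤ ((1 + 2 * k * C ^ 2 + 1 : ℕ) : ℤ))).card ≤ nlb k C s := by
  set G := F.filter (fun x => x.1 ≤ s ∧ (∀ i, |(lbl x.1 y).1 i - x.2.1 i| ≤ ((2 * C + 1 : ℕ) : ℤ)) ∧
      |(lbl x.1 y).2 - x.2.2| ≤ ((1 + 2 * k * C ^ 2 + 1 : ℕ) : ℤ)) with hG
  have h1 : G.card ≤ ((Finset.range (s + 1)) ×ˢ ((bx k (2 * C + 1)) ×ˢ
      (Finset.Icc (-((1 + 2 * k * C ^ 2 + 1 : ℕ) : ℤ)) ((1 + 2 * k * C ^ 2 + 1 : ℕ) : ℤ)))).card := by
    refine Finset.card_le_card_of_injOn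
      (fun x => (x.1, (fun i => (lbl x.1 y).1 i - x.2.1 i, (lbl x.1 y).2 - x.2.2))) ?_ ?_
    · intro x hx
      obtain ⟨h2, h3, h4⟩ := (Finset.mem_filter.mp hx).2
      simp only [Finset.coe_product, Set.mem_prod, Finset.mem_coe, Finset.mem_range,
        Finset.mem_Icc]
      exact ⟨by omega, mem_bx.mpr h3, abs_le.mp h4⟩
    · intro x _ x' _ hh
      simp only [Prod.mk.injEq] at hh
      obtain ⟨h2, h3, h4⟩ := hh
      refine Prod.ext h2 (Prod.ext (funext fun i => ?_) ?_)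
      · have := congrFun h3 i
        rw [h2] at this
        omega
      · rw [h2] at h4
        omega
  refine h1.trans (le_of_eq ?_)
  rw [Finset.card_product, Finset.card_product, Finset.card_range, card_bx, card_I]
  rfl

open Classical in
/-- **Kaufman's theorem with `k` parameters.** -/
theorem kaufk {p : Ω → ℝ} (hp : IsLaw p) (W : Ω → ζ) (hk : 1 ≤ k) {C : ℕ} (hC : 1 ≤ C) (s : ℕ)
    (Y : Ω → (Fin k → ℝ) × ℝ) (c : Ω → Fin k → ℤ)
    (hY : ∀ ω, 0 < p ω → ∀ i, |(Y ω).1 i| ≤ C)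
    (hc : ∀ ω, 0 < p ω → ∀ i, |c ω i| ≤ ((C * 2 ^ s : ℕ) : ℤ)) :
    ∃ κ : Ω → ℕ, (∀ ω, κ ω ≤ s) ∧ (∀ ω ω', W ω = W ω' → Y ω = Y ω' → κ ω = κ ω') ∧
      CH p (fun ω => (κ ω, lbl (κ ω) (Y ω))) W +
        Ex p (fun ω => (s : ℝ) - κ ω) * Real.log 2 ≤
      CH p (fun ω => pos s (Y ω) (c ω)) (fun ω => (c ω, W ω)) +
        2 * (Real.log (bx k (C * 2 ^ s)).card - CH p c (fun ω => (Y ω, W ω))) +
        (Real.log (2 * (s + 1)) + Real.log (nlb k C s)) := by
  have h0 := hp.nonneg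
  have hS : (0 : ℝ) < 2 ^ s := by positivity
  -- the scale
  have hex : ∀ (w : ζ) (y : (Fin k → ℝ) × ℝ), ∃ κ, κ ≤ s ∧ ∀ r, r ≤ s →
      2 ^ r * nbp p W Y C r w y ≤ 2 ^ κ * nbp p W Y C κ w y := by
    intro w y
    obtain ⟨κ, h1, h2⟩ := Finset.exists_max_image (Finset.range (s + 1))
      (fun r => 2 ^ r * nbp p W Y C r w y) ⟨0, Finset.mem_range.mpr (by omega)⟩
    exact ⟨κ, by have := Finset.mem_range.mp h1; omega,
      fun r hr => h2 r (Finset.mem_range.mpr (by omega))⟩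
  choose κf hκ1 hκ2 using hex
  set κ : Ω → ℕ := fun ω => κf (W ω) (Y ω) with hκd
  refine ⟨κ, fun ω => hκ1 _ _, fun ω ω' e1 e2 => by rw [hκd]; dsimp only; rw [e1, e2], ?_⟩
  obtain ⟨L, hL⟩ : ∃ L : ζ → ℝ, L = law p W := ⟨_, rfl⟩
  have Lpos : ∀ ω, 0 < p ω → 0 < L (W ω) := fun ω hω => by
    rw [hL]
    exact law_pos h0 W hω
  have L0 : ∀ w, 0 ≤ L w := fun w => by
    rw [hL]
    exact law_nonneg h0 W w
  have nn : ∀ r w y, 0 ≤ nbp p W Y C r w y := fun r w y => by
    unfold nbp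
    refine Finset.sum_nonneg fun ω' _ => ?_
    split_ifs
    exacts [h0 ω', le_rfl]
  have npos : ∀ ω, 0 < p ω → ∀ r, 0 < nbp p W Y C r (W ω) (Y ω) := fun ω hω r => by
    unfold nbp
    refine hω.trans_le ?_
    have := Finset.single_le_sum (f := fun ω' => if W ω' = W ω ∧ nbr C r (Y ω) (Y ω') then p ω'
      else 0) (fun ω' _ => by
        split_ifs
        exacts [h0 ω', le_rfl]) (Finset.mem_univ ω)
    rw [if_pos ⟨rfl, nbr_self C r (Y ω)⟩] at this
    exact this
  -- the bound for the collisions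
  obtain ⟨m, hm⟩ : ∃ m : ζ → ((Fin k → ℝ) × ℝ) → ℝ, m = fun w y =>
    2 * (s + 1) * (2 ^ κf w y / 2 ^ s) * nbp p W Y C (κf w y) w y / L w := ⟨_, rfl⟩
  have mpos : ∀ ω, 0 < p ω → 0 < m (W ω) (Y ω) := fun ω hω => by
    rw [hm]
    exact div_pos (mul_pos (by positivity) (npos ω hω _)) (Lpos ω hω)
  have key := core hp W Y c (fun _ y x => pos s y x) (bx k (C * 2 ^ s))
    (fun ω hω => mem_bx.mpr (hc ω hω)) (fun _ _ _ => 1) (fun _ _ _ => one_pos) m mpos
    (fun ω hω => by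
      have e1 : law p W (W ω) * m (W ω) (Y ω) =
          2 * (s + 1) * (2 ^ κ ω / 2 ^ s) * nbp p W Y C (κ ω) (W ω) (Y ω) := by
        rw [← hL, hm]
        exact mul_div_cancel₀ _ (Lpos ω hω).ne'
      rw [e1]
      have e2 : ∀ ω', (if W ω' = W ω then p ω' * ∑ x ∈ bx k (C * 2 ^ s),
          (@ite ℝ (pos s (Y ω') x = pos s (Y ω) x) (Classical.propDecidable _) 1 0) else 0) ≤
          (bx k (C * 2 ^ s)).card * (2 * ∑ r ∈ Finset.range (s + 1),
            (2 ^ r / 2 ^ s) * (if W ω' = W ω ∧ nbr C r (Y ω) (Y ω') then p ω' else 0)) := by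
        intro ω'
        rcases (h0 ω').eq_or_lt with hz | hz
        · rw [← hz]
          simp
        · by_cases hw : W ω' = W ω
          · rw [if_pos hw]
            have hcl := coll (s := s) hC hk (hY ω hω) (hY ω' hz)
            have e6 : ∑ x ∈ bx k (C * 2 ^ s), (@ite ℝ (pos s (Y ω') x = pos s (Y ω) x)
                (Classical.propDecidable _) 1 0) = ∑ x ∈ bx k (C * 2 ^ s),
                (if pos s (Y ω') x = pos s (Y ω) x then (1 : ℝ) else 0) := by
              refine Finset.sum_congr rfl fun x _ => ?_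
              by_cases hx : pos s (Y ω') x = pos s (Y ω) x
              · rw [if_pos hx, if_pos hx]
              · rw [if_neg hx, if_neg hx]
            rw [e6]
            have h1 := mul_le_mul_of_nonneg_left hcl hz.le
            refine h1.trans (le_of_eq ?_)
            have e3 : ∀ r ∈ Finset.range (s + 1), (2 : ℝ) ^ r / 2 ^ s *
                (if W ω' = W ω ∧ nbr C r (Y ω) (Y ω') then p ω' else 0) =
                p ω' * (if nbr C r (Y ω) (Y ω') then (2 : ℝ) ^ r / 2 ^ s else 0) := by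
              intro r _
              by_cases hn : nbr C r (Y ω) (Y ω')
              · rw [if_pos ⟨hw, hn⟩, if_pos hn]
                ring
              · rw [if_neg (fun hh => hn hh.2), if_neg hn]
                ring
            rw [Finset.sum_congr rfl e3, ← Finset.mul_sum]
            ring
          · rw [if_neg hw]
            refine mul_nonneg (Nat.cast_nonneg _) (mul_nonneg (by norm_num)
              (Finset.sum_nonneg fun r _ => mul_nonneg (by positivity) ?_))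
            rw [if_neg (fun hh => hw hh.1)]
      refine (Finset.sum_le_sum fun ω' _ => e2 ω').trans ?_
      rw [← Finset.mul_sum, ← Finset.mul_sum, Finset.sum_comm]
      refine mul_le_mul_of_nonneg_left ?_ (Nat.cast_nonneg _)
      have e4 : ∀ r ∈ Finset.range (s + 1), ∑ ω', (2 : ℝ) ^ r / 2 ^ s *
          (if W ω' = W ω ∧ nbr C r (Y ω) (Y ω') then p ω' else 0) ≤
          2 ^ κ ω / 2 ^ s * nbp p W Y C (κ ω) (W ω) (Y ω) := by
        intro r hr
        have h2 := hκ2 (W ω) (Y ω) r (by have := Finset.mem_range.mp hr; omega)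
        rw [← Finset.mul_sum]
        have e5 : ∑ ω', (if W ω' = W ω ∧ nbr C r (Y ω) (Y ω') then p ω' else 0) =
            nbp p W Y C r (W ω) (Y ω) := rfl
        rw [e5, div_mul_eq_mul_div, div_mul_eq_mul_div]
        exact div_le_div_of_nonneg_right h2 hS.le
      have h5 := Finset.sum_le_sum e4
      rw [Finset.sum_const, Finset.card_range, nsmul_eq_mul] at h5
      push_cast at h5
      linarith)
  -- the label
  have hlb := CH_le_cross h0 hp.sum_one (fun ω => (κ ω, lbl (κ ω) (Y ω))) W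
    (fun w x => if x.1 ≤ s then (∑ ω', if W ω' = w ∧
      ((∀ i, |(lbl x.1 (Y ω')).1 i - x.2.1 i| ≤ ((2 * C + 1 : ℕ) : ℤ)) ∧
        |(lbl x.1 (Y ω')).2 - x.2.2| ≤ ((1 + 2 * k * C ^ 2 + 1 : ℕ) : ℤ)) then p ω' else 0) /
        (nlb k C s * L w) else 0)
    (fun ω hω => ?_) (fun w x => ?_) (fun ω hω F => ?_)
  · have hnl : (0 : ℝ) < nlb k C s := by
      have : 0 < nlb k C s := by
        unfold nlb
        positivity
      exact_mod_cast this
    have hge : ∀ ω, 0 < p ω → nbp p W Y C (κ ω) (W ω) (Y ω) / (nlb k C s * L (W ω)) ≤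
        (if κ ω ≤ s then (∑ ω', if W ω' = W ω ∧
        ((∀ i, |(lbl (κ ω) (Y ω')).1 i - (lbl (κ ω) (Y ω)).1 i| ≤ ((2 * C + 1 : ℕ) : ℤ)) ∧
          |(lbl (κ ω) (Y ω')).2 - (lbl (κ ω) (Y ω)).2| ≤ ((1 + 2 * k * C ^ 2 + 1 : ℕ) : ℤ)) then
            p ω' else 0) / (nlb k C s * L (W ω)) else 0) := by
      intro ω hω
      rw [if_pos (hκ1 _ _)]
      refine div_le_div_of_nonneg_right ?_ (mul_nonneg hnl.le (L0 _))
      unfold nbp
      refine Finset.sum_le_sum fun ω' _ => ?_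
      by_cases hn : W ω' = W ω ∧ nbr C (κ ω) (Y ω) (Y ω')
      · rw [if_pos hn, if_pos ⟨hn.1, lbl_near hn.2⟩]
      · rw [if_neg hn]
        split_ifs
        exacts [h0 ω', le_rfl]
    have h1 : CH p (fun ω => (κ ω, lbl (κ ω) (Y ω))) W ≤ Ex p (fun ω =>
        -Real.log (nbp p W Y C (κ ω) (W ω) (Y ω) / (nlb k C s * L (W ω)))) := by
      refine hlb.trans (Ex_mono h0 fun ω hω => ?_)
      have h2 := Real.log_le_log (div_pos (npos ω hω _) (mul_pos hnl (Lpos ω hω))) (hge ω hω)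
      exact neg_le_neg h2
    have h3 : Ex p (fun ω => -Real.log (nbp p W Y C (κ ω) (W ω) (Y ω) /
        (nlb k C s * L (W ω)))) ≤ Ex p (fun ω => (-Real.log (m (W ω) (Y ω)) +
          (Real.log (2 * (s + 1)) + Real.log (nlb k C s))) -
          ((s : ℝ) - κ ω) * Real.log 2) := by
      refine Ex_mono h0 fun ω hω => ?_
      have hn := npos ω hω (κ ω)
      have hl := Lpos ω hω
      have hs1 : (0 : ℝ) < 2 * (s + 1) := by positivity
      rw [Real.log_div hn.ne' (mul_pos hnl hl).ne', Real.log_mul hnl.ne' hl.ne', hm]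
      dsimp only
      have e1 : κf (W ω) (Y ω) = κ ω := rfl
      rw [e1, Real.log_div (mul_pos (mul_pos hs1 (by positivity)) hn).ne' hl.ne',
        Real.log_mul (mul_pos hs1 (by positivity)).ne' hn.ne',
        Real.log_mul hs1.ne' (by positivity), Real.log_div (by positivity) (by positivity),
        Real.log_pow, Real.log_pow]
      linarith
    rw [Ex_sub, Ex_add, Ex_const hp.sum_one] at h3
    have e2 : Ex p (fun ω => ((s : ℝ) - κ ω) * Real.log 2) =
        Ex p (fun ω => (s : ℝ) - κ ω) * Real.log 2 := by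
      unfold Ex
      rw [Finset.sum_mul]
      exact Finset.sum_congr rfl fun ω _ => by ring
    have e3 : Ex p (fun ω => -Real.log (m (W ω) (Y ω))) =
        -Ex p (fun ω => Real.log (m (W ω) (Y ω))) := by
      unfold Ex
      rw [← Finset.sum_neg_distrib]
      exact Finset.sum_congr rfl fun ω _ => by ring
    have e4 : Ex p (fun _ : Ω => Real.log (1 : ℝ)) = 0 := by
      rw [Real.log_one]
      unfold Ex
      simp
    rw [e2, e3] at h3
    rw [e4] at key
    linarith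
  · have hnl : (0 : ℝ) < nlb k C s := by
      have : 0 < nlb k C s := by
        unfold nlb
        positivity
      exact_mod_cast this
    dsimp only
    rw [if_pos (hκ1 _ _)]
    refine div_pos ?_ (mul_pos hnl (Lpos ω hω))
    refine hω.trans_le ?_
    have := Finset.single_le_sum (f := fun ω' => if W ω' = W ω ∧
      ((∀ i, |(lbl (κ ω) (Y ω')).1 i - (lbl (κ ω) (Y ω)).1 i| ≤ ((2 * C + 1 : ℕ) : ℤ)) ∧
        |(lbl (κ ω) (Y ω')).2 - (lbl (κ ω) (Y ω)).2| ≤ ((1 + 2 * k * C ^ 2 + 1 : ℕ) : ℤ)) then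
          p ω' else 0) (fun ω' _ => by
        split_ifs
        exacts [h0 ω', le_rfl]) (Finset.mem_univ ω)
    rw [if_pos ⟨rfl, fun i => by rw [sub_self, abs_zero]; positivity, by
      rw [sub_self, abs_zero]; positivity⟩] at this
    exact this
  · split_ifs
    · refine div_nonneg (Finset.sum_nonneg fun ω' _ => ?_)
        (mul_nonneg (Nat.cast_nonneg _) (L0 w))
      split_ifs
      exacts [h0 ω', le_rfl]
    · exact le_rfl
  · have hnl : (0 : ℝ) < nlb k C s := by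
      have : 0 < nlb k C s := by
        unfold nlb
        positivity
      exact_mod_cast this
    have hd : 0 < (nlb k C s : ℝ) * L (W ω) := mul_pos hnl (Lpos ω hω)
    have e1 : ∀ x ∈ F, (if x.1 ≤ s then (∑ ω', if W ω' = W ω ∧
        ((∀ i, |(lbl x.1 (Y ω')).1 i - x.2.1 i| ≤ ((2 * C + 1 : ℕ) : ℤ)) ∧
          |(lbl x.1 (Y ω')).2 - x.2.2| ≤ ((1 + 2 * k * C ^ 2 + 1 : ℕ) : ℤ)) then p ω' else 0) /
          (nlb k C s * L (W ω)) else 0) =
        (∑ ω', (if W ω' = W ω then p ω' * (if x.1 ≤ s ∧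
        ((∀ i, |(lbl x.1 (Y ω')).1 i - x.2.1 i| ≤ ((2 * C + 1 : ℕ) : ℤ)) ∧
          |(lbl x.1 (Y ω')).2 - x.2.2| ≤ ((1 + 2 * k * C ^ 2 + 1 : ℕ) : ℤ)) then (1 : ℝ) else 0)
            else 0)) / (nlb k C s * L (W ω)) := by
      intro x _
      by_cases hx : x.1 ≤ s
      · rw [if_pos hx]
        congr 1
        refine Finset.sum_congr rfl fun ω' _ => ?_
        by_cases hw : W ω' = W ω
        · by_cases hn : (∀ i, |(lbl x.1 (Y ω')).1 i - x.2.1 i| ≤ ((2 * C + 1 : ℕ) : ℤ)) ∧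
            |(lbl x.1 (Y ω')).2 - x.2.2| ≤ ((1 + 2 * k * C ^ 2 + 1 : ℕ) : ℤ)
          · rw [if_pos ⟨hw, hn⟩, if_pos hw, if_pos ⟨hx, hn⟩, mul_one]
          · rw [if_neg (fun hh => hn hh.2), if_pos hw, if_neg (fun hh => hn hh.2), mul_zero]
        · rw [if_neg (fun hh => hw hh.1), if_neg hw]
      · rw [if_neg hx, Finset.sum_eq_zero, zero_div]
        intro ω' _
        by_cases hw : W ω' = W ω
        · rw [if_pos hw, if_neg (fun hh => hx hh.1), mul_zero]
        · rw [if_neg hw]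
    rw [Finset.sum_congr rfl e1, ← Finset.sum_div, div_le_one hd, Finset.sum_comm]
    have e2 : L (W ω) = ∑ ω', if W ω' = W ω then p ω' else 0 := by
      rw [hL]
      rfl
    rw [e2, Finset.mul_sum]
    refine Finset.sum_le_sum fun ω' _ => ?_
    by_cases hw : W ω' = W ω
    · rw [if_pos hw]
      rw [Finset.sum_congr rfl fun x _ => if_pos hw, ← Finset.mul_sum, Finset.sum_boole, mul_comm]
      refine mul_le_mul_of_nonneg_right ?_ (h0 ω')
      exact_mod_cast card_near F (Y ω')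
    · rw [if_neg hw, mul_zero]
      exact (Finset.sum_eq_zero fun x _ => if_neg hw).le

end

end Pool.OWN68
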