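import Pool.Agent.H68.OWN.Kauk
import Pool.Agent.H32.Dense.Split

/-!
# Kaufman's theorem with `k` parameters: the position after the separation is full

`kaufg`: the number `κ` of digits is a multiple of `b`; given the pair to `κ` digits the position is
full.
-/

set_option autoImplicit false

namespace Pool.OWN68

open Finset Real
open Pool.Agent.H49.Ent Pool.Agent.H32.Dense Pool.STK

section

variable {Ω ζ : Type} [Fintype Ω] {k : ℕ}

theorem nbr_anti {C r r' : ℕ} (h : r ≤ r') {y y' : (Fin k → ℝ) × ℝ} (hn : nbr C r' y y') :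
    nbr C r y y' := by
  have h1 : (2 : ℝ) ^ r ≤ 2 ^ r' := pow_le_pow_right₀ (by norm_num) h
  have h2 : (0 : ℝ) < 2 ^ r := by positivity
  refine ⟨fun i => (hn.1 i).trans ?_, hn.2.trans ?_⟩
  · exact div_le_div_of_nonneg_left (by positivity) h2 h1
  · exact div_le_div_of_nonneg_left (by positivity) h2 h1

theorem nbp_nonneg {p : Ω → ℝ} (h0 : ∀ ω, 0 ≤ p ω) (W : Ω → ζ) (Y : Ω → (Fin k → ℝ) × ℝ)
    (C r : ℕ) (w : ζ) (y : (Fin k → ℝ) × ℝ) : 0 ≤ nbp p W Y C r w y := by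
  unfold nbp
  refine Finset.sum_nonneg fun ω' _ => ?_
  split_ifs
  exacts [h0 ω', le_rfl]

theorem nbp_anti {p : Ω → ℝ} (h0 : ∀ ω, 0 ≤ p ω) (W : Ω → ζ) (Y : Ω → (Fin k → ℝ) × ℝ)
    (C : ℕ) {r r' : ℕ} (h : r ≤ r') (w : ζ) (y : (Fin k → ℝ) × ℝ) :
    nbp p W Y C r' w y ≤ nbp p W Y C r w y := by
  unfold nbp
  refine Finset.sum_le_sum fun ω' _ => ?_
  by_cases hn : W ω' = w ∧ nbr C r' y (Y ω')
  · rw [if_pos hn, if_pos ⟨hn.1, nbr_anti h hn.2⟩]
  · rw [if_neg hn]
    split_ifs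
    exacts [h0 ω', le_rfl]

theorem nlb_pos (k C s : ℕ) : (0 : ℝ) < nlb k C s := by
  have : 0 < nlb k C s := by
    unfold nlb
    positivity
  exact_mod_cast this

open Classical in
/-- The entropy of the label is at most the average of the neighbours. -/
theorem lbl_cross {p : Ω → ℝ} (hp : IsLaw p) (W : Ω → ζ) (C s : ℕ)
    (Y : Ω → (Fin k → ℝ) × ℝ) (κ : Ω → ℕ) (hκ : ∀ ω, κ ω ≤ s) :
    CH p (fun ω => (κ ω, lbl (κ ω) (Y ω))) W ≤ Ex p (fun ω =>
      -Real.log (nbp p W Y C (κ ω) (W ω) (Y ω) / (nlb k C s * law p W (W ω)))) := by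
  have h0 := hp.nonneg
  obtain ⟨L, hL⟩ : ∃ L : ζ → ℝ, L = law p W := ⟨_, rfl⟩
  have Lpos : ∀ ω, 0 < p ω → 0 < L (W ω) := fun ω hω => by
    rw [hL]
    exact law_pos h0 W hω
  have L0 : ∀ w, 0 ≤ L w := fun w => by
    rw [hL]
    exact law_nonneg h0 W w
  have hnl := nlb_pos k C s
  have npos : ∀ ω, 0 < p ω → ∀ r, 0 < nbp p W Y C r (W ω) (Y ω) := fun ω hω r => by
    unfold nbp
    refine hω.trans_le ?_
    have := Finset.single_le_sum (f := fun ω' => if W ω' = W ω ∧ nbr C r (Y ω) (Y ω') then p ω'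
      else 0) (fun ω' _ => by
        split_ifs
        exacts [h0 ω', le_rfl]) (Finset.mem_univ ω)
    rw [if_pos ⟨rfl, nbr_self C r (Y ω)⟩] at this
    exact this
  rw [← hL]
  have hlb := CH_le_cross h0 hp.sum_one (fun ω => (κ ω, lbl (κ ω) (Y ω))) W
    (fun w x => if x.1 ≤ s then (∑ ω', if W ω' = w ∧
      ((∀ i, |(lbl x.1 (Y ω')).1 i - x.2.1 i| ≤ ((2 * C + 1 : ℕ) : ℤ)) ∧
        |(lbl x.1 (Y ω')).2 - x.2.2| ≤ ((1 + 2 * k * C ^ 2 + 1 : ℕ) : ℤ)) then p ω' else 0) /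
        (nlb k C s * L w) else 0)
    (fun ω hω => ?_) (fun w x => ?_) (fun ω hω F => ?_)
  · have hge : ∀ ω, 0 < p ω → nbp p W Y C (κ ω) (W ω) (Y ω) / (nlb k C s * L (W ω)) ≤
        (if κ ω ≤ s then (∑ ω', if W ω' = W ω ∧
        ((∀ i, |(lbl (κ ω) (Y ω')).1 i - (lbl (κ ω) (Y ω)).1 i| ≤ ((2 * C + 1 : ℕ) : ℤ)) ∧
          |(lbl (κ ω) (Y ω')).2 - (lbl (κ ω) (Y ω)).2| ≤ ((1 + 2 * k * C ^ 2 + 1 : ℕ) : ℤ)) then
            p ω' else 0) / (nlb k C s * L (W ω)) else 0) := by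
      intro ω hω
      rw [if_pos (hκ ω)]
      refine div_le_div_of_nonneg_right ?_ (mul_nonneg hnl.le (L0 _))
      unfold nbp
      refine Finset.sum_le_sum fun ω' _ => ?_
      by_cases hn : W ω' = W ω ∧ nbr C (κ ω) (Y ω) (Y ω')
      · rw [if_pos hn, if_pos ⟨hn.1, lbl_near hn.2⟩]
      · rw [if_neg hn]
        split_ifs
        exacts [h0 ω', le_rfl]
    refine hlb.trans (Ex_mono h0 fun ω hω => ?_)
    have h2 := Real.log_le_log (div_pos (npos ω hω _) (mul_pos hnl (Lpos ω hω))) (hge ω hω)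
    exact neg_le_neg h2
  · dsimp only
    rw [if_pos (hκ ω)]
    refine div_pos ?_ (mul_pos hnl (Lpos ω hω))
    refine hω.trans_le ?_
    have := Finset.single_le_sum (f := fun ω' => if W ω' = W ω ∧
      ((∀ i, |(lbl (κ ω) (Y ω')).1 i - (lbl (κ ω) (Y ω)).1 i| ≤ ((2 * C + 1 : ℕ) : ℤ)) ∧
        |(lbl (κ ω) (Y ω')).2 - (lbl (κ ω) (Y ω)).2| ≤ ((1 + 2 * k * C ^ 2 + 1 : ℕ) : ℤ)) then
          p ω' else 0) (fun ω' _ => by
        split_ifs
        exacts [h0 ω', le_rfl]) (Finset.mem_univ ω)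
    rw [if_pos ⟨rfl, fun i => by rw [sub_self, abs_zero]; positivity, by
      rw [sub_self, abs_zero]; positivity⟩] at this
    exact this
  · split_ifs
    · refine div_nonneg (Finset.sum_nonneg fun ω' _ => ?_)
        (mul_nonneg (Nat.cast_nonneg _) (L0 w))
      split_ifs
      exacts [h0 ω', le_rfl]
    · exact le_rfl
  · have hd : 0 < (nlb k C s : ℝ) * L (W ω) := mul_pos hnl (Lpos ω hω)
    have e1 : ∀ x ∈ F, (if x.1 ≤ s then (∑ ω', if W ω' = W ω ∧
        ((∀ i, |(lbl x.1 (Y ω')).1 i - x.2.1 i| ≤ ((2 * C + 1 : ℕ) : ℤ)) ∧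
          |(lbl x.1 (Y ω')).2 - x.2.2| ≤ ((1 + 2 * k * C ^ 2 + 1 : ℕ) : ℤ)) then p ω' else 0) /
          (nlb k C s * L (W ω)) else 0) =
        (∑ ω', (if W ω' = W ω then p ω' * (if x.1 ≤ s ∧
        ((∀ i, |(lbl x.1 (Y ω')).1 i - x.2.1 i| ≤ ((2 * C + 1 : ℕ) : ℤ)) ∧
          |(lbl x.1 (Y ω')).2 - x.2.2| ≤ ((1 + 2 * k * C ^ 2 + 1 : ℕ) : ℤ)) then (1 : ℝ) else 0)
            else 0)) / (nlb k C s * L (W ω)) := by
      intro x _
      by_cases hx : x.1 ≤ s
      · rw [if_pos hx]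
        congr 1
        refine Finset.sum_congr rfl fun ω' _ => ?_
        by_cases hw : W ω' = W ω
        · by_cases hn : (∀ i, |(lbl x.1 (Y ω')).1 i - x.2.1 i| ≤ ((2 * C + 1 : ℕ) : ℤ)) ∧
            |(lbl x.1 (Y ω')).2 - x.2.2| ≤ ((1 + 2 * k * C ^ 2 + 1 : ℕ) : ℤ)
          · rw [if_pos ⟨hw, hn⟩, if_pos hw, if_pos ⟨hx, hn⟩, mul_one]
          · rw [if_neg (fun hh => hn hh.2), if_pos hw, if_neg (fun hh => hn hh.2), mul_zero]
        · rw [if_neg (fun hh => hw hh.1), if_neg hw]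
      · rw [if_neg hx, Finset.sum_eq_zero, zero_div]
        intro ω' _
        by_cases hw : W ω' = W ω
        · rw [if_pos hw, if_neg (fun hh => hx hh.1), mul_zero]
        · rw [if_neg hw]
    rw [Finset.sum_congr rfl e1, ← Finset.sum_div, div_le_one hd, Finset.sum_comm]
    have e2 : L (W ω) = ∑ ω', if W ω' = W ω then p ω' else 0 := by
      rw [hL]
      rfl
    rw [e2, Finset.mul_sum]
    refine Finset.sum_le_sum fun ω' _ => ?_
    by_cases hw : W ω' = W ω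
    · rw [if_pos hw]
      rw [Finset.sum_congr rfl fun x _ => if_pos hw, ← Finset.mul_sum, Finset.sum_boole, mul_comm]
      refine mul_le_mul_of_nonneg_right ?_ (h0 ω')
      exact_mod_cast card_near F (Y ω')
    · rw [if_neg hw, mul_zero]
      exact (Finset.sum_eq_zero fun x _ => if_neg hw).le

open Classical in
/-- **The collisions**: `W'` is finer than `W`, the weights are bounded at all scales. -/
theorem kcore {ζ' : Type} {p : Ω → ℝ} (hp : IsLaw p) (W : Ω → ζ) (W' : Ω → ζ')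
    (hW : ∀ ω ω', W' ω = W' ω' → W ω = W ω') (hk : 1 ≤ k) {C : ℕ} (hC : 1 ≤ C) (s : ℕ)
    (Y : Ω → (Fin k → ℝ) × ℝ) (c : Ω → Fin k → ℤ)
    (hY : ∀ ω, 0 < p ω → ∀ i, |(Y ω).1 i| ≤ C)
    (hc : ∀ ω, 0 < p ω → ∀ i, |c ω i| ≤ ((C * 2 ^ s : ℕ) : ℤ))
    (m : ζ' → ((Fin k → ℝ) × ℝ) → ℝ)
    (hm : ∀ ω, 0 < p ω → 0 < m (W' ω) (Y ω))
    (h : ∀ ω, 0 < p ω → ∀ r, r ≤ s → 2 ^ r * nbp p W Y C r (W ω) (Y ω) ≤
      2 ^ s * (law p W' (W' ω) * m (W' ω) (Y ω))) :
    2 * CH p c (fun ω => (Y ω, W' ω)) - 2 * Real.log (bx k (C * 2 ^ s)).card -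
      Ex p (fun ω => Real.log (m (W' ω) (Y ω))) - Real.log (2 * (s + 1)) ≤
    CH p (fun ω => pos s (Y ω) (c ω)) (fun ω => (c ω, W' ω)) := by
  have h0 := hp.nonneg
  have hS : (0 : ℝ) < 2 ^ s := by positivity
  have hs1 : (0 : ℝ) < 2 * (s + 1) := by positivity
  have key := core hp W' Y c (fun _ y x => pos s y x) (bx k (C * 2 ^ s))
    (fun ω hω => mem_bx.mpr (hc ω hω)) (fun _ _ _ => 1) (fun _ _ _ => one_pos)
    (fun w y => 2 * (s + 1) * m w y) (fun ω hω => mul_pos hs1 (hm ω hω))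
    (fun ω hω => by
      have e2 : ∀ ω', (if W' ω' = W' ω then p ω' * ∑ x ∈ bx k (C * 2 ^ s),
          (@ite ℝ (pos s (Y ω') x = pos s (Y ω) x) (Classical.propDecidable _) 1 0) else 0) ≤
          (bx k (C * 2 ^ s)).card * (2 * ∑ r ∈ Finset.range (s + 1),
            (2 ^ r / 2 ^ s) * (if W ω' = W ω ∧ nbr C r (Y ω) (Y ω') then p ω' else 0)) := by
        intro ω'
        rcases (h0 ω').eq_or_lt with hz | hz
        · rw [← hz]
          simp
        · by_cases hw' : W' ω' = W' ω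
          · rw [if_pos hw']
            have hw := hW _ _ hw'
            have hcl := coll (s := s) hC hk (hY ω hω) (hY ω' hz)
            have e6 : ∑ x ∈ bx k (C * 2 ^ s), (@ite ℝ (pos s (Y ω') x = pos s (Y ω) x)
                (Classical.propDecidable _) 1 0) = ∑ x ∈ bx k (C * 2 ^ s),
                (if pos s (Y ω') x = pos s (Y ω) x then (1 : ℝ) else 0) := by
              refine Finset.sum_congr rfl fun x _ => ?_
              by_cases hx : pos s (Y ω') x = pos s (Y ω) x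
              · rw [if_pos hx, if_pos hx]
              · rw [if_neg hx, if_neg hx]
            rw [e6]
            have h1 := mul_le_mul_of_nonneg_left hcl hz.le
            refine h1.trans (le_of_eq ?_)
            have e3 : ∀ r ∈ Finset.range (s + 1), (2 : ℝ) ^ r / 2 ^ s *
                (if W ω' = W ω ∧ nbr C r (Y ω) (Y ω') then p ω' else 0) =
                p ω' * (if nbr C r (Y ω) (Y ω') then (2 : ℝ) ^ r / 2 ^ s else 0) := by
              intro r _
              by_cases hn : nbr C r (Y ω) (Y ω')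
              · rw [if_pos ⟨hw, hn⟩, if_pos hn]
                ring
              · rw [if_neg (fun hh => hn hh.2), if_neg hn]
                ring
            rw [Finset.sum_congr rfl e3, ← Finset.mul_sum]
            ring
          · rw [if_neg hw']
            refine mul_nonneg (Nat.cast_nonneg _) (mul_nonneg (by norm_num)
              (Finset.sum_nonneg fun r _ => mul_nonneg (by positivity) ?_))
            split_ifs
            exacts [h0 ω', le_rfl]
      refine (Finset.sum_le_sum fun ω' _ => e2 ω').trans ?_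
      rw [← Finset.mul_sum, ← Finset.mul_sum, Finset.sum_comm]
      refine mul_le_mul_of_nonneg_left ?_ (Nat.cast_nonneg _)
      have e4 : ∀ r ∈ Finset.range (s + 1), ∑ ω', (2 : ℝ) ^ r / 2 ^ s *
          (if W ω' = W ω ∧ nbr C r (Y ω) (Y ω') then p ω' else 0) ≤
          law p W' (W' ω) * m (W' ω) (Y ω) := by
        intro r hr
        have h2 := h ω hω r (by have := Finset.mem_range.mp hr; omega)
        rw [← Finset.mul_sum]
        have e5 : ∑ ω', (if W ω' = W ω ∧ nbr C r (Y ω) (Y ω') then p ω' else 0) =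
            nbp p W Y C r (W ω) (Y ω) := rfl
        rw [e5, div_mul_eq_mul_div, div_le_iff₀ hS]
        linarith
      have h5 := Finset.sum_le_sum e4
      rw [Finset.sum_const, Finset.card_range, nsmul_eq_mul] at h5
      push_cast at h5
      linarith)
  have e1 : Ex p (fun ω => Real.log (2 * (s + 1) * m (W' ω) (Y ω))) =
      Real.log (2 * (s + 1)) + Ex p (fun ω => Real.log (m (W' ω) (Y ω))) := by
    have e : Real.log (2 * (s + 1)) = Ex p (fun _ => Real.log (2 * (s + 1))) :=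
      (Ex_const hp.sum_one _).symm
    rw [e, ← Ex_add]
    unfold Ex
    refine Finset.sum_congr rfl fun ω _ => ?_
    rcases (h0 ω).eq_or_lt with hz | hz
    · rw [← hz]
      simp
    · dsimp only
      rw [Real.log_mul hs1.ne' (hm ω hz).ne']
  have e4 : Ex p (fun _ : Ω => Real.log (1 : ℝ)) = 0 := by
    rw [Real.log_one]
    unfold Ex
    simp
  rw [e1, e4] at key
  linarith

open Classical in
/-- **Kaufman's theorem with `k` parameters**: a coarse grid, and the fullness of the position. -/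
theorem kaufg {p : Ω → ℝ} (hp : IsLaw p) (W : Ω → ζ) (hk : 1 ≤ k) {C : ℕ} (hC : 1 ≤ C) (s : ℕ)
    {b : ℕ} (hb : 1 ≤ b)
    (Y : Ω → (Fin k → ℝ) × ℝ) (c : Ω → Fin k → ℤ)
    (hY : ∀ ω, 0 < p ω → ∀ i, |(Y ω).1 i| ≤ C)
    (hc : ∀ ω, 0 < p ω → ∀ i, |c ω i| ≤ ((C * 2 ^ s : ℕ) : ℤ)) :
    ∃ κ : Ω → ℕ, (∀ ω, κ ω ≤ s) ∧ (∀ ω, b ∣ κ ω) ∧
      (∀ ω ω', W ω = W ω' → Y ω = Y ω' → κ ω = κ ω') ∧
      (CH p (fun ω => (κ ω, lbl (κ ω) (Y ω))) W +
        Ex p (fun ω => (s : ℝ) - κ ω) * Real.log 2 ≤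
      CH p (fun ω => pos s (Y ω) (c ω)) (fun ω => (c ω, W ω)) +
        2 * (Real.log (bx k (C * 2 ^ s)).card - CH p c (fun ω => (Y ω, W ω))) +
        (b * Real.log 2 + Real.log (2 * (s + 1)) + Real.log (nlb k C s))) ∧
      Ex p (fun ω => (s : ℝ) - κ ω) * Real.log 2 ≤
      CH p (fun ω => pos s (Y ω) (c ω))
          (fun ω => (c ω, ((κ ω, lbl (κ ω) (Y ω)), W ω))) +
        2 * (Real.log (bx k (C * 2 ^ s)).card - CH p c (fun ω => (Y ω, W ω))) +
        (b * Real.log 2 + Real.log (2 * (s + 1)) + Real.log (nlb k C s)) := by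
  have h0 := hp.nonneg
  have hS : (0 : ℝ) < 2 ^ s := by positivity
  have nn := nbp_nonneg (p := p) h0 W Y C
  -- the scale
  have hex : ∀ (w : ζ) (y : (Fin k → ℝ) × ℝ), ∃ κ, κ ≤ s ∧ b ∣ κ ∧ ∀ r, r ≤ s →
      2 ^ r * nbp p W Y C r w y ≤ 2 ^ (b + κ) * nbp p W Y C κ w y := by
    intro w y
    obtain ⟨κ, h1, h2⟩ := Finset.exists_max_image (Finset.range (s + 1))
      (fun r => (2 : ℝ) ^ r * nbp p W Y C r w y) ⟨0, Finset.mem_range.mpr (by omega)⟩
    have h3 := Finset.mem_range.mp h1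
    have h4 : b * (κ / b) ≤ κ := Nat.mul_div_le κ b
    have h5 : κ < κ / b * b + b := Nat.lt_div_mul_add hb
    rw [mul_comm (κ / b) b] at h5
    refine ⟨b * (κ / b), by omega, Dvd.intro _ rfl, fun r hr => ?_⟩
    refine (h2 r (Finset.mem_range.mpr (by omega))).trans ?_
    refine mul_le_mul ?_ (nbp_anti h0 W Y C h4 w y) (nn _ _ _) (by positivity)
    exact pow_le_pow_right₀ (by norm_num) (by omega)
  choose κf hκ1 hκb hκ2 using hex
  set κ : Ω → ℕ := fun ω => κf (W ω) (Y ω) with hκd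
  have hκW : ∀ ω ω', W ω = W ω' → Y ω = Y ω' → κ ω = κ ω' := fun ω ω' e1 e2 => by
    rw [hκd]
    dsimp only
    rw [e1, e2]
  refine ⟨κ, fun ω => hκ1 _ _, fun ω => hκb _ _, hκW, ?_⟩
  obtain ⟨L, hL⟩ : ∃ L : ζ → ℝ, L = law p W := ⟨_, rfl⟩
  have Lpos : ∀ ω, 0 < p ω → 0 < L (W ω) := fun ω hω => by
    rw [hL]
    exact law_pos h0 W hω
  have npos : ∀ ω, 0 < p ω → ∀ r, 0 < nbp p W Y C r (W ω) (Y ω) := fun ω hω r => by
    unfold nbp
    refine hω.trans_le ?_
    have := Finset.single_le_sum (f := fun ω' => if W ω' = W ω ∧ nbr C r (Y ω) (Y ω') then p ω'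
      else 0) (fun ω' _ => by
        split_ifs
        exacts [h0 ω', le_rfl]) (Finset.mem_univ ω)
    rw [if_pos ⟨rfl, nbr_self C r (Y ω)⟩] at this
    exact this
  have hnl := nlb_pos k C s
  -- the labels
  have hlb := lbl_cross hp W C s Y κ (fun ω => hκ1 _ _)
  rw [← hL] at hlb
  have e2 : Ex p (fun ω => ((s : ℝ) - κ ω) * Real.log 2) =
      Ex p (fun ω => (s : ℝ) - κ ω) * Real.log 2 := by
    unfold Ex
    rw [Finset.sum_mul]
    exact Finset.sum_congr rfl fun ω _ => by ring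
  obtain ⟨a1, ha1⟩ : ∃ a, a = Ex p (fun ω => Real.log (nbp p W Y C (κ ω) (W ω) (Y ω))) :=
    ⟨_, rfl⟩
  obtain ⟨a2, ha2⟩ : ∃ a, a = Ex p (fun ω => Real.log (L (W ω))) := ⟨_, rfl⟩
  have f1 : Ex p (fun ω => -Real.log (nbp p W Y C (κ ω) (W ω) (Y ω) /
      (nlb k C s * L (W ω)))) ≤ a2 - a1 + Real.log (nlb k C s) := by
    have e : Real.log (nlb k C s) = Ex p (fun _ => Real.log (nlb k C s : ℝ)) :=
      (Ex_const hp.sum_one _).symm
    rw [ha1, ha2, e, ← Ex_sub, ← Ex_add]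
    refine Ex_mono h0 fun ω hω => ?_
    have hn := npos ω hω (κ ω)
    have hl := Lpos ω hω
    rw [Real.log_div hn.ne' (mul_pos hnl hl).ne', Real.log_mul hnl.ne' hl.ne']
    linarith
  constructor
  · have key := kcore hp W W (fun _ _ h => h) hk hC s Y c hY hc
      (fun w y => 2 ^ (b + κf w y) / 2 ^ s * nbp p W Y C (κf w y) w y / L w)
      (fun ω hω => div_pos (mul_pos (by positivity) (npos ω hω _)) (Lpos ω hω))
      (fun ω hω r hr => by
        refine (hκ2 (W ω) (Y ω) r hr).trans (le_of_eq ?_)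
        rw [← hL, mul_div_cancel₀ _ (Lpos ω hω).ne', ← mul_assoc, mul_div_cancel₀ _ hS.ne'])
    have f2 : Ex p (fun ω => Real.log (2 ^ (b + κf (W ω) (Y ω)) / 2 ^ s *
        nbp p W Y C (κf (W ω) (Y ω)) (W ω) (Y ω) / L (W ω))) ≤
        b * Real.log 2 - Ex p (fun ω => (s : ℝ) - κ ω) * Real.log 2 + a1 - a2 := by
      have e : b * Real.log 2 = Ex p (fun _ => b * Real.log 2) := (Ex_const hp.sum_one _).symm
      rw [ha1, ha2, e, ← e2, ← Ex_sub, ← Ex_add, ← Ex_sub]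
      refine Ex_mono h0 fun ω hω => ?_
      have hn := npos ω hω (κ ω)
      have hl := Lpos ω hω
      have e1 : κf (W ω) (Y ω) = κ ω := rfl
      rw [e1, Real.log_div (mul_pos (by positivity) hn).ne' hl.ne',
        Real.log_mul (by positivity) hn.ne', Real.log_div (by positivity) (by positivity),
        Real.log_pow, Real.log_pow]
      push_cast
      linarith
    linarith
  · set W' : Ω → (ℕ × ((Fin k → ℤ) × ℤ)) × ζ := fun ω => ((κ ω, lbl (κ ω) (Y ω)), W ω) with hW'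
    have L'pos : ∀ ω, 0 < p ω → 0 < law p W' (W' ω) := fun ω hω => law_pos h0 W' hω
    have key := kcore hp W W' (fun _ _ h => (Prod.ext_iff.mp h).2) hk hC s Y c hY hc
      (fun w y => 2 ^ (b + κf w.2 y) / 2 ^ s * nbp p W Y C (κf w.2 y) w.2 y / law p W' w)
      (fun ω hω => div_pos (mul_pos (by positivity) (npos ω hω _)) (L'pos ω hω))
      (fun ω hω r hr => by
        refine (hκ2 (W ω) (Y ω) r hr).trans (le_of_eq ?_)
        rw [mul_div_cancel₀ _ (L'pos ω hω).ne', ← mul_assoc, mul_div_cancel₀ _ hS.ne'])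
    have g1 : CH p (fun ω => (κ ω, lbl (κ ω) (Y ω))) W =
        a2 - Ex p (fun ω => Real.log (law p W' (W' ω))) := by
      rw [CH_eq_neg_sum h0, ha2, ← Ex_sub]
      unfold Ex
      refine Finset.sum_congr rfl fun ω _ => ?_
      rcases (h0 ω).eq_or_lt with hz | hz
      · rw [← hz]
        simp
      · have h3 : -Real.log (law p W' (W' ω) / law p W (W ω)) =
            Real.log (L (W ω)) - Real.log (law p W' (W' ω)) := by
          rw [Real.log_div (L'pos ω hz).ne' (law_pos h0 W hz).ne', hL]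
          ring
        exact congrArg (p ω * ·) h3
    have f2 : Ex p (fun ω => Real.log (2 ^ (b + κf (W' ω).2 (Y ω)) / 2 ^ s *
        nbp p W Y C (κf (W' ω).2 (Y ω)) (W' ω).2 (Y ω) / law p W' (W' ω))) ≤
        b * Real.log 2 - Ex p (fun ω => (s : ℝ) - κ ω) * Real.log 2 + a1 -
          Ex p (fun ω => Real.log (law p W' (W' ω))) := by
      have e : b * Real.log 2 = Ex p (fun _ => b * Real.log 2) := (Ex_const hp.sum_one _).symm
      rw [ha1, e, ← e2, ← Ex_sub, ← Ex_add, ← Ex_sub]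
      refine Ex_mono h0 fun ω hω => ?_
      have hn := npos ω hω (κ ω)
      have hl := L'pos ω hω
      have e1 : κf (W' ω).2 (Y ω) = κ ω := rfl
      rw [e1, Real.log_div (mul_pos (by positivity) hn).ne' hl.ne',
        Real.log_mul (by positivity) hn.ne', Real.log_div (by positivity) (by positivity),
        Real.log_pow, Real.log_pow]
      push_cast
      linarith
    have g2 : CH p c (fun ω => (Y ω, W ω)) ≤ CH p c (fun ω => (Y ω, W' ω)) := by
      refine CH_mono_cond h0 fun ω ω' _ _ e => ?_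
      obtain ⟨h1, h2⟩ := Prod.ext_iff.mp e
      have h1' : Y ω = Y ω' := h1
      have h2' : W ω = W ω' := h2
      refine Prod.ext h1' ?_
      show ((κ ω, lbl (κ ω) (Y ω)), W ω) = ((κ ω', lbl (κ ω') (Y ω')), W ω')
      rw [hκW ω ω' h2' h1', h1', h2']
    linarith

end

end Pool.OWN68
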