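import Pool.Agent.H68.OWN.Kt

/-!
# The free time: nonfull positions determine the pair

`kt`: `Y = (A, B)`, the position is `B + ⟨A, c⟩ / 2 ^ s` to `s` digits, `c` is nearly uniform given
`(Y, W)`. If the position is nonfull given the pair to `i` digits, for every `i` and on every large
event of `(Y, W)`, then the pair to `s` digits is a function of its position up to few bits.
-/

set_option autoImplicit false

namespace Pool.OWN68

open Finset Real
open Pool.Agent.H49.Ent Pool.Agent.H32.Dense Pool.STK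

section

variable {Ω ζ : Type} [Fintype Ω] {k : ℕ}

/-- The positions over a label. -/
noncomputable def psb (k C s i : ℕ) (x : (Fin k → ℤ) × ℤ) (c : Fin k → ℤ) : Finset ℤ :=
  Finset.Icc (⌊(2 : ℝ) ^ (s - i) * (x.2 + ∑ j, x.1 j * ((c j : ℝ) / 2 ^ s))⌋ -
      ((2 ^ (s - i) * (k * C + 1) + 1 : ℕ) : ℤ))
    (⌊(2 : ℝ) ^ (s - i) * (x.2 + ∑ j, x.1 j * ((c j : ℝ) / 2 ^ s))⌋ +
      ((2 ^ (s - i) * (k * C + 1) + 1 : ℕ) : ℤ))

theorem card_psb (k C s i : ℕ) (x : (Fin k → ℤ) × ℤ) (c : Fin k → ℤ) :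
    ((psb k C s i x c).card : ℝ) = 2 * (2 ^ (s - i) * (k * C + 1) + 1) + 1 := by
  unfold psb
  rw [Int.card_Icc]
  have e : ∀ a b : ℤ, 0 ≤ b → (((a + b + 1 - (a - b)).toNat : ℕ) : ℝ) = 2 * b + 1 := by
    intro a b hb
    have h1 : (((a + b + 1 - (a - b)).toNat : ℕ) : ℤ) = 2 * b + 1 := by
      rw [Int.toNat_of_nonneg (by omega)]
      ring
    have h2 : (((a + b + 1 - (a - b)).toNat : ℕ) : ℝ) =
        ((((a + b + 1 - (a - b)).toNat : ℕ) : ℤ) : ℝ) := by push_cast; rfl
    rw [h2, h1]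
    push_cast
    ring
  rw [e _ _ (by positivity)]
  push_cast
  ring

theorem log_card_psb (k C s i : ℕ) (hi : i ≤ s) (x : (Fin k → ℤ) × ℤ) (c : Fin k → ℤ) :
    Real.log (psb k C s i x c).card ≤
      ((s : ℝ) - i) * Real.log 2 + Real.log (2 * k * C + 5) := by
  rw [card_psb]
  have h1 : (1 : ℝ) ≤ 2 ^ (s - i) := one_le_pow₀ (by norm_num)
  have h2 : (2 : ℝ) * (2 ^ (s - i) * (k * C + 1) + 1) + 1 ≤ 2 ^ (s - i) * (2 * k * C + 5) := by
    nlinarith
  have h3 : (0 : ℝ) < 2 * k * C + 5 := by positivity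
  refine (Real.log_le_log (by positivity) h2).trans (le_of_eq ?_)
  rw [Real.log_mul (by positivity) h3.ne', Real.log_pow, Nat.cast_sub hi]

theorem mem_psb {C s i : ℕ} (hi : i ≤ s) {y : (Fin k → ℝ) × ℝ} {c : Fin k → ℤ}
    (hc : ∀ j, |c j| ≤ ((C * 2 ^ s : ℕ) : ℤ)) : pos s y c ∈ psb k C s i (lbl i y) c := by
  have hI : (0 : ℝ) < 2 ^ i := by positivity
  have hS : (0 : ℝ) < 2 ^ s := by positivity
  have hSI : (2 : ℝ) ^ (s - i) * 2 ^ i = 2 ^ s := by
    rw [← pow_add]
    congr 1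
    omega
  have hm : (0 : ℝ) < 2 ^ (s - i) := by positivity
  have hc' : ∀ j, |(c j : ℝ) / 2 ^ s| ≤ C := by
    intro j
    rw [abs_div, abs_of_pos hS, div_le_iff₀ hS]
    have h1 := hc j
    have h2 : ((|c j| : ℤ) : ℝ) ≤ (((C * 2 ^ s : ℕ) : ℤ) : ℝ) := Int.cast_le.mpr h1
    push_cast at h2
    exact h2
  have key : |((2 : ℝ) ^ s * y.2 + ∑ j, y.1 j * c j) -
      (2 : ℝ) ^ (s - i) * ((lbl i y).2 + ∑ j, (lbl i y).1 j * ((c j : ℝ) / 2 ^ s))| ≤
      2 ^ (s - i) * (k * C + 1) := by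
    have e1 : ((2 : ℝ) ^ s * y.2 + ∑ j, y.1 j * c j) -
        (2 : ℝ) ^ (s - i) * ((lbl i y).2 + ∑ j, (lbl i y).1 j * ((c j : ℝ) / 2 ^ s)) =
        2 ^ (s - i) * ((2 ^ i * y.2 - (lbl i y).2) +
          ∑ j, (2 ^ i * y.1 j - (lbl i y).1 j) * ((c j : ℝ) / 2 ^ s)) := by
      have e2 : ∑ j, y.1 j * (c j : ℝ) =
          2 ^ (s - i) * ∑ j, 2 ^ i * y.1 j * ((c j : ℝ) / 2 ^ s) := by
        rw [Finset.mul_sum]
        refine Finset.sum_congr rfl fun j _ => ?_
        rw [show (2 : ℝ) ^ (s - i) * (2 ^ i * y.1 j * ((c j : ℝ) / 2 ^ s)) =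
          (2 ^ (s - i) * 2 ^ i) * (y.1 j * ((c j : ℝ) / 2 ^ s)) by ring, hSI]
        field_simp
      have e3 : ∑ j, (2 ^ i * y.1 j - (lbl i y).1 j) * ((c j : ℝ) / 2 ^ s) =
          ∑ j, 2 ^ i * y.1 j * ((c j : ℝ) / 2 ^ s) -
            ∑ j, (lbl i y).1 j * ((c j : ℝ) / 2 ^ s) := by
        rw [← Finset.sum_sub_distrib]
        exact Finset.sum_congr rfl fun j _ => by ring
      rw [e2, e3, ← hSI]
      ring
    rw [e1, abs_mul, abs_of_pos hm]
    refine mul_le_mul_of_nonneg_left ?_ hm.le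
    have hfl : ∀ a : ℝ, |a - ⌊a⌋| ≤ 1 := by
      intro a
      rw [abs_le]
      have h1 := Int.floor_le a
      have h2 := Int.lt_floor_add_one a
      constructor <;> linarith
    refine (abs_add_le _ _).trans ?_
    have h3 : |∑ j, (2 ^ i * y.1 j - (lbl i y).1 j) * ((c j : ℝ) / 2 ^ s)| ≤ k * C := by
      refine (Finset.abs_sum_le_sum_abs _ _).trans ?_
      have h4 : ∀ j ∈ (Finset.univ : Finset (Fin k)),
          |(2 ^ i * y.1 j - (lbl i y).1 j) * ((c j : ℝ) / 2 ^ s)| ≤ C := by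
        intro j _
        rw [abs_mul]
        have h5 := mul_le_mul (hfl (2 ^ i * y.1 j)) (hc' j) (abs_nonneg _) zero_le_one
        rw [one_mul] at h5
        exact h5
      refine (Finset.sum_le_sum h4).trans (le_of_eq ?_)
      rw [Finset.sum_const, Finset.card_univ, Fintype.card_fin, nsmul_eq_mul]
    have h6 := hfl (2 ^ i * y.2)
    have h7 : |2 ^ i * y.2 - (lbl i y).2| ≤ 1 := h6
    linarith
  have h8 := floor_near (D := 2 ^ (s - i) * (k * C + 1)) key (by push_cast; exact le_rfl)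
  rw [abs_le] at h8
  unfold psb
  rw [Finset.mem_Icc]
  have e : ⌊(2 : ℝ) ^ s * y.2 + ∑ j, y.1 j * c j⌋ = pos s y c := rfl
  rw [e] at h8
  constructor
  · have := h8.1
    push_cast at this ⊢
    linarith
  · have := h8.2
    push_cast at this ⊢
    linarith

/-- The labels over a coarser label. -/
noncomputable def lbb (k s i : ℕ) (x : (Fin k → ℤ) × ℤ) : Finset ((Fin k → ℤ) × ℤ) :=
  (Fintype.piFinset fun j => Finset.Ico (2 ^ (s - i) * x.1 j) (2 ^ (s - i) * x.1 j + 2 ^ (s - i))) ×ˢ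
    Finset.Ico (2 ^ (s - i) * x.2) (2 ^ (s - i) * x.2 + 2 ^ (s - i))

theorem log_card_lbb (k s i : ℕ) (hi : i ≤ s) (x : (Fin k → ℤ) × ℤ) :
    Real.log (lbb k s i x).card = (k + 1) * (((s : ℝ) - i) * Real.log 2) := by
  unfold lbb
  rw [Finset.card_product, Fintype.card_piFinset]
  have e : ∀ a : ℤ, (Finset.Ico (2 ^ (s - i) * a) (2 ^ (s - i) * a + 2 ^ (s - i))).card =
      2 ^ (s - i) := by
    intro a
    rw [Int.card_Ico, add_sub_cancel_left]
    have : ((2 : ℤ) ^ (s - i)).toNat = 2 ^ (s - i) := by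
      have h : (2 : ℤ) ^ (s - i) = ((2 ^ (s - i) : ℕ) : ℤ) := by push_cast; rfl
      rw [h, Int.toNat_natCast]
    exact this
  simp only [e, Finset.prod_const, Finset.card_univ, Fintype.card_fin]
  push_cast
  rw [Real.log_mul (by positivity) (by positivity), Real.log_pow, Real.log_pow, Nat.cast_sub hi]
  ring

theorem mem_lbb {s i : ℕ} (hi : i ≤ s) (y : (Fin k → ℝ) × ℝ) : lbl s y ∈ lbb k s i (lbl i y) := by
  have key : ∀ a : ℝ, ⌊(2 : ℝ) ^ s * a⌋ ∈
      Finset.Ico (2 ^ (s - i) * ⌊(2 : ℝ) ^ i * a⌋) (2 ^ (s - i) * ⌊(2 : ℝ) ^ i * a⌋ + 2 ^ (s - i)) := by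
    intro a
    have hSI : (2 : ℝ) ^ (s - i) * 2 ^ i = 2 ^ s := by
      rw [← pow_add]
      congr 1
      omega
    have hm : (0 : ℝ) < 2 ^ (s - i) := by positivity
    have h1 := Int.floor_le ((2 : ℝ) ^ i * a)
    have h2 := Int.lt_floor_add_one ((2 : ℝ) ^ i * a)
    have h3 := mul_le_mul_of_nonneg_left h1 hm.le
    have h4 := mul_lt_mul_of_pos_left h2 hm
    rw [← mul_assoc, hSI] at h3 h4
    rw [Finset.mem_Ico]
    constructor
    · rw [Int.le_floor]
      push_cast
      exact h3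
    · rw [Int.floor_lt]
      push_cast
      linarith
  unfold lbb lbl
  rw [Finset.mem_product]
  exact ⟨Fintype.mem_piFinset.mpr fun j => key _, key _⟩

theorem cond_eq_ev (p : Ω → ℝ) (κ : Ω → ℕ) (i : ℕ) :
    cond p (fun ω => κ ω = i) True = cond p κ i := by
  classical
  have e : law p (fun ω => κ ω = i) True = law p κ i := by
    unfold law
    refine Finset.sum_congr rfl fun ω _ => ?_
    by_cases h : κ ω = i
    · rw [if_pos h, if_pos (eq_true h)]
    · rw [if_neg h, if_neg (fun hh => h (of_eq_true hh))]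
  funext ω
  unfold Pool.Agent.H49.Ent.cond
  by_cases h : κ ω = i
  · rw [if_pos h, if_pos (eq_true h), e]
  · rw [if_neg h, if_neg (fun hh => h (of_eq_true hh))]

theorem law_eq_ev (p : Ω → ℝ) (κ : Ω → ℕ) (i : ℕ) :
    law p (fun ω => κ ω = i) True = law p κ i := by
  classical
  unfold law
  refine Finset.sum_congr rfl fun ω _ => ?_
  by_cases h : κ ω = i
  · rw [if_pos h, if_pos (eq_true h)]
  · rw [if_neg h, if_neg (fun hh => h (of_eq_true hh))]

/-- **The free time.** -/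
theorem kt {p : Ω → ℝ} (hp : IsLaw p) (W : Ω → ζ) (hk : 1 ≤ k) {C : ℕ} (hC : 1 ≤ C) (s : ℕ)
    {b : ℕ} (hb : 1 ≤ b) (Y : Ω → (Fin k → ℝ) × ℝ) (c : Ω → Fin k → ℤ)
    (hY : ∀ ω, 0 < p ω → ∀ i, |(Y ω).1 i| ≤ C)
    (hc : ∀ ω, 0 < p ω → ∀ i, |c ω i| ≤ ((C * 2 ^ s : ℕ) : ℤ))
    {h c₀ e₁ err : ℝ} (hh : 0 < h) (hc₀ : 0 ≤ c₀) (he₁ : 0 ≤ e₁)
    (herr : 2 * (Real.log (bx k (C * 2 ^ s)).card - CH p c (fun ω => (Y ω, W ω))) +
      (b * Real.log 2 + Real.log (2 * (s + 1)) + Real.log (nlb k C s)) +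
      Real.log (2 * k * C + 5) ≤ err)
    (hnf : ∀ E : Ω → Prop, (∀ ω ω', W ω = W ω' → Y ω = Y ω' → (E ω ↔ E ω')) →
      0 < law p E True → c₀ ≤ law p E True → ∀ i, i ≤ s → b ∣ i →
      CH (cond p E True) (fun ω => pos s (Y ω) (c ω)) (fun ω => (c ω, (lbl i (Y ω), W ω))) ≤
        (1 - h) * (((s : ℝ) - i) * Real.log 2) + e₁) :
    CH p (fun ω => lbl s (Y ω)) (fun ω => (pos s (Y ω) (c ω), (c ω, W ω))) ≤
      k * (((s / b : ℕ) + 1) * (c₀ * (s * Real.log 2)) + (e₁ + err) / h) + err := by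
  classical
  have h0 := hp.nonneg
  have hln : 0 < Real.log 2 := Real.log_pos (by norm_num)
  obtain ⟨κ, hκs, hκb, hκW, ha, hbb⟩ := kaufg hp W hk hC s hb Y c hY hc
  obtain ⟨E, hE⟩ : ∃ E, E = Ex p (fun ω => (s : ℝ) - κ ω) * Real.log 2 := ⟨_, rfl⟩
  obtain ⟨e, he⟩ : ∃ e, e = 2 * (Real.log (bx k (C * 2 ^ s)).card -
    CH p c (fun ω => (Y ω, W ω))) +
      (b * Real.log 2 + Real.log (2 * (s + 1)) + Real.log (nlb k C s)) := ⟨_, rfl⟩
  obtain ⟨l5, hl5⟩ : ∃ l, l = Real.log (2 * k * C + 5) := ⟨_, rfl⟩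
  have hl0 : 0 ≤ l5 := by
    rw [hl5]
    refine Real.log_nonneg ?_
    have : (0 : ℝ) ≤ 2 * k * C := by positivity
    linarith
  rw [← he, ← hl5] at herr
  have he0 : 0 ≤ e := by
    have h1 : CH p c (fun ω => (Y ω, W ω)) ≤ Real.log (bx k (C * 2 ^ s)).card := by
      have h := CH_le_card h0 hp.sum_one c (fun ω => (Y ω, W ω)) (fun _ => bx k (C * 2 ^ s))
        (fun ω hω => mem_bx.mpr (hc ω hω))
      rwa [Ex_const hp.sum_one] at h
    have h2 : 0 ≤ Real.log (2 * ((s : ℝ) + 1)) := Real.log_nonneg (by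
      have : (0 : ℝ) ≤ s := Nat.cast_nonneg s
      linarith)
    have h3 : 0 ≤ Real.log (nlb k C s : ℝ) := by
      refine Real.log_nonneg ?_
      have h4 := nlb_pos k C s
      have h5 : 0 < nlb k C s := by exact_mod_cast h4
      exact_mod_cast h5
    have h4 : 0 ≤ (b : ℝ) * Real.log 2 := by positivity
    rw [he]
    linarith
  -- the number of digits which are left
  have q1 : E ≤ ((s / b : ℕ) + 1) * (c₀ * (s * Real.log 2)) + (e₁ + (e + l5)) / h := by
    have d1 : CH p (fun ω => pos s (Y ω) (c ω))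
        (fun ω => (c ω, ((κ ω, lbl (κ ω) (Y ω)), W ω))) ≤
        CH p (fun ω => pos s (Y ω) (c ω))
        (fun ω => ((c ω, (lbl (κ ω) (Y ω), W ω)), κ ω)) :=
      CH_mono_cond h0 fun ω ω' _ _ h => by
        simp only [Prod.mk.injEq] at h ⊢
        tauto
    rw [CH_split h0 _ _ κ] at d1
    have d2 : Ex p (fun ω => (s : ℝ) - κ ω) = ∑ j ∈ univ.image κ, law p κ j * ((s : ℝ) - j) := by
      rw [Ex_split h0 _ κ]
      refine Finset.sum_congr rfl fun j hj => ?_
      rcases (law_nonneg h0 κ j).eq_or_lt with hz | hz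
      · rw [← hz, zero_mul, zero_mul]
      · congr 1
        have h1 := sum_cond p κ hz.ne'
        have h2 : Ex (cond p κ j) (fun ω => (s : ℝ) - κ ω) =
            Ex (cond p κ j) (fun _ => (s : ℝ) - j) := by
          unfold Ex
          refine Finset.sum_congr rfl fun ω _ => ?_
          by_cases h3 : κ ω = j
          · show cond p κ j ω * ((s : ℝ) - κ ω) = cond p κ j ω * ((s : ℝ) - j)
            rw [h3]
          · have h4 : cond p κ j ω = 0 := by
              unfold Pool.Agent.H49.Ent.cond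
              rw [if_neg h3]
            rw [h4, zero_mul, zero_mul]
        rw [h2, Ex_const h1]
    -- the pieces
    have d3 : ∀ j ∈ univ.image κ, law p κ j * CH (cond p κ j) (fun ω => pos s (Y ω) (c ω))
        (fun ω => (c ω, (lbl (κ ω) (Y ω), W ω))) ≤
        law p κ j * (((s : ℝ) - j) * Real.log 2) + law p κ j * (e₁ + l5) -
          h * (if c₀ ≤ law p κ j then law p κ j * (((s : ℝ) - j) * Real.log 2) else 0) := by
      intro j hj
      obtain ⟨ω₁, _, rfl⟩ := Finset.mem_image.mp hj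
      rcases (law_nonneg h0 κ (κ ω₁)).eq_or_lt with hz | hz
      · rw [← hz]
        simp
      · set j := κ ω₁ with hjd
        have hjs : j ≤ s := hκs ω₁
        have hq := sum_cond p κ hz.ne'
        have hq0 := cond_nonneg h0 κ j
        have m1 : CH (cond p κ j) (fun ω => pos s (Y ω) (c ω))
            (fun ω => (c ω, (lbl (κ ω) (Y ω), W ω))) ≤
            CH (cond p κ j) (fun ω => pos s (Y ω) (c ω))
              (fun ω => (c ω, (lbl j (Y ω), W ω))) :=
          CH_mono_cond hq0 fun ω ω' hω hω' h => by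
            have h1 := ((cond_pos_iff h0 κ j ω).mp hω).2
            have h2 := ((cond_pos_iff h0 κ j ω').mp hω').2
            simp only [Prod.mk.injEq] at h ⊢
            rw [h1, h2] at h
            exact h
        by_cases hcc : c₀ ≤ law p κ j
        · rw [if_pos hcc]
          have m2 := hnf (fun ω => κ ω = j) (fun ω ω' h1 h2 => by rw [hκW ω ω' h1 h2])
            (by rw [law_eq_ev]; exact hz) (by rw [law_eq_ev]; exact hcc) j hjs (hκb ω₁)
          rw [cond_eq_ev] at m2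
          have m3 := mul_le_mul_of_nonneg_left (m1.trans m2) hz.le
          have m4 : 0 ≤ law p κ j * l5 := mul_nonneg hz.le hl0
          linarith
        · rw [if_neg hcc]
          have m2 : CH (cond p κ j) (fun ω => pos s (Y ω) (c ω))
              (fun ω => (c ω, (lbl j (Y ω), W ω))) ≤ ((s : ℝ) - j) * Real.log 2 + l5 := by
            have h1 := CH_le_card hq0 hq (fun ω => pos s (Y ω) (c ω))
              (fun ω => (c ω, (lbl j (Y ω), W ω))) (fun x => psb k C s j x.2.1 x.1)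
              (fun ω hω => mem_psb hjs (hc ω ((cond_pos_iff h0 κ j ω).mp hω).1))
            refine h1.trans ?_
            rw [← Ex_const hq (((s : ℝ) - j) * Real.log 2 + l5), hl5]
            exact Ex_mono hq0 fun ω _ => log_card_psb k C s j hjs _ _
          have m3 := mul_le_mul_of_nonneg_left (m1.trans m2) hz.le
          have m4 : 0 ≤ law p κ j * e₁ := mul_nonneg hz.le he₁
          linarith
    have d4 := d1.trans (Finset.sum_le_sum d3)
    rw [Finset.sum_sub_distrib, Finset.sum_add_distrib, ← Finset.sum_mul,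
      sum_law_one hp.sum_one κ, one_mul, ← Finset.mul_sum] at d4
    have d5 : E = ∑ j ∈ univ.image κ, law p κ j * (((s : ℝ) - j) * Real.log 2) := by
      rw [hE, d2, Finset.sum_mul]
      exact Finset.sum_congr rfl fun j _ => by ring
    obtain ⟨Gd, hG⟩ : ∃ G, G = ∑ j ∈ univ.image κ,
      (if c₀ ≤ law p κ j then law p κ j * (((s : ℝ) - j) * Real.log 2) else 0) := ⟨_, rfl⟩
    rw [← d5, ← hG] at d4
    have d6 : h * Gd ≤ e₁ + (e + l5) := by
      have h1 : E ≤ E + (e₁ + l5) - h * Gd + e := by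
        rw [he]
        have h2 := hbb
        rw [← hE] at h2
        linarith
      linarith
    have d7 : E - Gd ≤ ((s / b : ℕ) + 1) * (c₀ * (s * Real.log 2)) := by
      rw [d5, hG, ← Finset.sum_sub_distrib]
      have h1 : ∀ j ∈ univ.image κ, law p κ j * (((s : ℝ) - j) * Real.log 2) -
          (if c₀ ≤ law p κ j then law p κ j * (((s : ℝ) - j) * Real.log 2) else 0) ≤
          c₀ * (s * Real.log 2) := by
        intro j hj
        obtain ⟨ω₁, _, rfl⟩ := Finset.mem_image.mp hj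
        have hjs : ((κ ω₁ : ℕ) : ℝ) ≤ s := by exact_mod_cast hκs ω₁
        have hj0 : (0 : ℝ) ≤ (κ ω₁ : ℕ) := Nat.cast_nonneg _
        split_ifs with hcc
        · rw [sub_self]
          positivity
        · rw [sub_zero]
          push Not at hcc
          refine mul_le_mul hcc.le ?_ (mul_nonneg (by linarith) hln.le) hc₀
          exact mul_le_mul_of_nonneg_right (by linarith) hln.le
      refine (Finset.sum_le_sum h1).trans ?_
      rw [Finset.sum_const, nsmul_eq_mul]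
      refine mul_le_mul_of_nonneg_right ?_ (by positivity)
      have h2 : (univ.image κ).card ≤ s / b + 1 := by
        have h3 : univ.image κ ⊆ (Finset.range (s / b + 1)).image (fun t => b * t) := by
          intro j hj
          obtain ⟨ω₁, _, rfl⟩ := Finset.mem_image.mp hj
          obtain ⟨t, ht⟩ := hκb ω₁
          refine Finset.mem_image.mpr ⟨t, Finset.mem_range.mpr ?_, ht.symm⟩
          have h4 : t ≤ s / b := by
            rw [Nat.le_div_iff_mul_le hb, mul_comm, ← ht]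
            exact hκs ω₁
          omega
        exact (Finset.card_le_card h3).trans (Finset.card_image_le.trans (by rw [Finset.card_range]))
      exact_mod_cast h2
    have d8 : Gd ≤ (e₁ + (e + l5)) / h := by
      rw [le_div_iff₀ hh]
      linarith
    linarith
  -- the pair
  have q2 : CH p (fun ω => lbl s (Y ω)) W ≤
      CH p (fun ω => (κ ω, lbl (κ ω) (Y ω))) W + (k + 1) * E := by
    have h1 := CH_le_add h0 (fun ω => lbl s (Y ω)) (fun ω => (κ ω, lbl (κ ω) (Y ω))) W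
    have h2 := CH_le_card h0 hp.sum_one (fun ω => lbl s (Y ω))
      (fun ω => ((κ ω, lbl (κ ω) (Y ω)), W ω)) (fun x => lbb k s x.1.1 x.1.2)
      (fun ω _ => mem_lbb (hκs ω) (Y ω))
    have h3 : Ex p (fun ω => Real.log (lbb k s (κ ω) (lbl (κ ω) (Y ω))).card) = (k + 1) * E := by
      rw [hE]
      unfold Ex
      rw [Finset.sum_mul, Finset.mul_sum]
      refine Finset.sum_congr rfl fun ω _ => ?_
      show p ω * Real.log (lbb k s (κ ω) (lbl (κ ω) (Y ω))).card =
        (k + 1) * (p ω * ((s : ℝ) - κ ω) * Real.log 2)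
      rw [log_card_lbb k s (κ ω) (hκs ω)]
      ring
    rw [h3] at h2
    linarith
  have q3 : CH p (fun ω => pos s (Y ω) (c ω)) (fun ω => (c ω, W ω)) +
      CH p (fun ω => lbl s (Y ω)) (fun ω => (pos s (Y ω) (c ω), (c ω, W ω))) ≤
      CH p (fun ω => lbl s (Y ω)) W + l5 := by
    have h1 := CH_chain h0 (fun ω => lbl s (Y ω)) (fun ω => pos s (Y ω) (c ω))
      (fun ω => (c ω, W ω))
    have h2 := CH_chain h0 (fun ω => pos s (Y ω) (c ω)) (fun ω => lbl s (Y ω))
      (fun ω => (c ω, W ω))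
    have h3 : CH p (fun ω => (lbl s (Y ω), pos s (Y ω) (c ω))) (fun ω => (c ω, W ω)) =
        CH p (fun ω => (pos s (Y ω) (c ω), lbl s (Y ω))) (fun ω => (c ω, W ω)) := by
      refine CH_congr h0 ?_ ?_ (fun _ _ _ _ h => h) (fun _ _ _ _ h => h) <;>
      · intro ω ω' _ _ h
        simp only [Prod.mk.injEq] at h ⊢
        tauto
    have h4 : CH p (fun ω => lbl s (Y ω)) (fun ω => (c ω, W ω)) ≤
        CH p (fun ω => lbl s (Y ω)) W :=
      CH_mono_cond h0 fun ω ω' _ _ h => (Prod.ext_iff.mp h).2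
    have h5 : CH p (fun ω => pos s (Y ω) (c ω)) (fun ω => (lbl s (Y ω), (c ω, W ω))) ≤ l5 := by
      have h6 := CH_le_card h0 hp.sum_one (fun ω => pos s (Y ω) (c ω))
        (fun ω => (lbl s (Y ω), (c ω, W ω))) (fun x => psb k C s s x.1 x.2.1)
        (fun ω hω => mem_psb le_rfl (hc ω hω))
      refine h6.trans ?_
      rw [← Ex_const hp.sum_one l5, hl5]
      refine Ex_mono h0 fun ω _ => ?_
      have h7 := log_card_psb k C s s le_rfl (lbl s (Y ω)) (c ω)
      rw [sub_self, zero_mul, zero_add] at h7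
      exact h7
    linarith
  have q4 : (k : ℝ) * E ≤
      k * (((s / b : ℕ) + 1) * (c₀ * (s * Real.log 2)) + (e₁ + err) / h) := by
    refine mul_le_mul_of_nonneg_left (q1.trans ?_) (Nat.cast_nonneg k)
    have : (e₁ + (e + l5)) / h ≤ (e₁ + err) / h :=
      div_le_div_of_nonneg_right (by linarith) hh.le
    linarith
  rw [← hE] at ha
  have ha' : CH p (fun ω => (κ ω, lbl (κ ω) (Y ω))) W + E ≤
      CH p (fun ω => pos s (Y ω) (c ω)) (fun ω => (c ω, W ω)) + e := by
    rw [he]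
    linarith
  linarith

end

end Pool.OWN68
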