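import Pool.Agent.H68.OWN.Kt2

/-!
# The free time, scalar form

`kt1`: `a`, `n` are real numbers (the velocity and the position at the centre in natural units), `c` is
the parameter (the time digits, or the digits of another coordinate), `X` is the integer
`2 ^ s n + a c` up to a bounded error. If `X` is nonfull given `(a, n)` to `i` digits for every `i` and
on every large event, then `(a, n)` to `s` digits is a function of `(X, c)` up to few bits.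
-/

set_option autoImplicit false

namespace Pool.OWN68

open Finset Real
open Pool.Agent.H49.Ent Pool.Agent.H32.Dense Pool.STK

section

variable {Ω ζ : Type} [Fintype Ω]

/-- Two integers at bounded distance determine each other up to few bits. -/
theorem CH_near {S : Type} {p : Ω → ℝ} (h0 : ∀ ω, 0 ≤ p ω) (h1 : ∑ ω, p ω = 1) (X X' : Ω → ℤ)
    (D : ℕ) (h : ∀ ω, 0 < p ω → |X ω - X' ω| ≤ (D : ℤ)) (Z : Ω → S) :
    CH p X (fun ω => (X' ω, Z ω)) ≤ Real.log (2 * D + 1) := by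
  have h2 := CH_le_card h0 h1 X (fun ω => (X' ω, Z ω))
    (fun x => Finset.Icc (x.1 - (D : ℤ)) (x.1 + D)) (fun ω hω => by
      have h3 := abs_le.mp (h ω hω)
      rw [Finset.mem_Icc]
      constructor <;> linarith [h3.1, h3.2])
  refine h2.trans (le_of_eq ?_)
  rw [← Ex_const h1 (Real.log (2 * D + 1))]
  unfold Ex
  refine Finset.sum_congr rfl fun ω _ => ?_
  have e : ((Finset.Icc (X' ω - (D : ℤ)) (X' ω + D)).card : ℝ) = 2 * D + 1 := by
    rw [Int.card_Icc]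
    have h4 : (((X' ω + (D : ℤ) + 1 - (X' ω - D)).toNat : ℕ) : ℤ) = 2 * D + 1 := by
      rw [Int.toNat_of_nonneg (by omega)]
      ring
    have h5 : (((X' ω + (D : ℤ) + 1 - (X' ω - D)).toNat : ℕ) : ℝ) =
        ((((X' ω + (D : ℤ) + 1 - (X' ω - D)).toNat : ℕ) : ℤ) : ℝ) := by push_cast; rfl
    rw [h5, h4]
    push_cast
    rfl
  show p ω * Real.log _ = p ω * Real.log _
  rw [e]

/-- Replace `X` by a near integer. -/
theorem CH_swap {S : Type} {p : Ω → ℝ} (h0 : ∀ ω, 0 ≤ p ω) (h1 : ∑ ω, p ω = 1) (X X' : Ω → ℤ)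
    (D : ℕ) (h : ∀ ω, 0 < p ω → |X ω - X' ω| ≤ (D : ℤ)) (Z : Ω → S) :
    CH p X Z ≤ CH p X' Z + Real.log (2 * D + 1) := by
  have h2 := CH_le_add h0 X X' Z
  have h3 := CH_near h0 h1 X X' D h Z
  linarith

/-- Replace a condition by a near integer. -/
theorem CH_swap_cond {S T : Type} {p : Ω → ℝ} (h0 : ∀ ω, 0 ≤ p ω) (h1 : ∑ ω, p ω = 1)
    (A : Ω → T) (X X' : Ω → ℤ)
    (D : ℕ) (h : ∀ ω, 0 < p ω → |X ω - X' ω| ≤ (D : ℤ)) (Z : Ω → S) :
    CH p A (fun ω => (X ω, Z ω)) ≤ CH p A (fun ω => (X' ω, Z ω)) + Real.log (2 * D + 1) := by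
  have h2 : ∀ ω, 0 < p ω → |X' ω - X ω| ≤ (D : ℤ) := fun ω hω => by
    rw [abs_sub_comm]
    exact h ω hω
  have h3 := CH_near h0 h1 X' X D h2 Z
  have h4 := CH_near h0 h1 X X' D h Z
  have c1 := CH_chain h0 A X Z
  have c2 := CH_chain h0 A X' Z
  have c3 := CH_chain h0 X A Z
  have c4 := CH_chain h0 X' A Z
  have e1 : CH p (fun ω => (A ω, X ω)) Z = CH p (fun ω => (X ω, A ω)) Z := by
    refine CH_congr h0 ?_ ?_ (fun _ _ _ _ h => h) (fun _ _ _ _ h => h) <;>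
    · intro ω ω' _ _ h
      simp only [Prod.mk.injEq] at h ⊢
      tauto
  have e2 : CH p (fun ω => (A ω, X' ω)) Z = CH p (fun ω => (X' ω, A ω)) Z := by
    refine CH_congr h0 ?_ ?_ (fun _ _ _ _ h => h) (fun _ _ _ _ h => h) <;>
    · intro ω ω' _ _ h
      simp only [Prod.mk.injEq] at h ⊢
      tauto
  -- CH A (X, Z) ≤ CH (A, X') (X, Z) = CH X' (X, Z) + CH A (X', X, Z)
  have s1 := CH_le_add h0 A X' (fun ω => (X ω, Z ω))
  have s2 : CH p A (fun ω => (X' ω, (X ω, Z ω))) ≤ CH p A (fun ω => (X' ω, Z ω)) :=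
    CH_mono_cond h0 fun ω ω' _ _ h => by
      simp only [Prod.mk.injEq] at h ⊢
      exact ⟨h.1, h.2.2⟩
  linarith

/-- **The free time, scalar form.** -/
theorem kt1 {p : Ω → ℝ} (hp : IsLaw p) (W : Ω → ζ) {C : ℕ} (hC : 1 ≤ C) (s : ℕ)
    {b : ℕ} (hb : 1 ≤ b) (a n : Ω → ℝ) (c X : Ω → ℤ) {K : ℕ}
    (ha : ∀ ω, 0 < p ω → |a ω| ≤ C) (hc : ∀ ω, 0 < p ω → |c ω| ≤ ((C * 2 ^ s : ℕ) : ℤ))
    (hX : ∀ ω, 0 < p ω → |(X ω : ℝ) - ((2 : ℝ) ^ s * n ω + a ω * c ω)| ≤ K)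
    {h c₀ e₁ err : ℝ} (hh : 0 < h) (hc₀ : 0 ≤ c₀) (he₁ : 0 ≤ e₁)
    (herr : 2 * (Real.log (2 * (C * 2 ^ s : ℕ) + 1) - CH p c (fun ω => ((a ω, n ω), W ω))) +
      (b * Real.log 2 + Real.log (2 * (s + 1)) + Real.log (nlb 1 C s)) +
      Real.log (2 * C + 5) + 2 * Real.log (2 * (K + 1) + 1) ≤ err)
    (hnf : ∀ E : Ω → Prop, (∀ ω ω', W ω = W ω' → a ω = a ω' → n ω = n ω' → (E ω ↔ E ω')) →
      0 < law p E True → c₀ ≤ law p E True → ∀ i, i ≤ s → b ∣ i →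
      CH (cond p E True) X
        (fun ω => (c ω, ((⌊(2 : ℝ) ^ i * a ω⌋, ⌊(2 : ℝ) ^ i * n ω⌋), W ω))) ≤
        (1 - h) * (((s : ℝ) - i) * Real.log 2) + e₁) :
    CH p (fun ω => (⌊(2 : ℝ) ^ s * a ω⌋, ⌊(2 : ℝ) ^ s * n ω⌋)) (fun ω => (X ω, (c ω, W ω))) ≤
      (((s / b : ℕ) + 1) * (c₀ * (s * Real.log 2)) + (e₁ + err) / h) + err := by
  classical
  have h0 := hp.nonneg
  set Y : Ω → (Fin 1 → ℝ) × ℝ := fun ω => ((fun _ => a ω), n ω) with hYd
  set c' : Ω → Fin 1 → ℤ := fun ω _ => c ω with hc'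
  obtain ⟨lK, hlK⟩ : ∃ l, l = Real.log (2 * ((K : ℝ) + 1) + 1) := ⟨_, rfl⟩
  have hlK0 : 0 ≤ lK := by
    rw [hlK]
    refine Real.log_nonneg ?_
    have : (0 : ℝ) ≤ K := Nat.cast_nonneg K
    linarith
  have hpos : ∀ ω, 0 < p ω → |pos s (Y ω) (c' ω) - X ω| ≤ ((K + 1 : ℕ) : ℤ) := by
    intro ω hω
    have h1 := hX ω hω
    have e1 : pos s (Y ω) (c' ω) = ⌊(2 : ℝ) ^ s * n ω + a ω * c ω⌋ := by
      unfold pos
      rw [hYd, hc']
      simp
    rw [e1]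
    have h2 := floor_near (a := (2 : ℝ) ^ s * n ω + a ω * c ω) (b := (X ω : ℝ)) (D := K)
      (by rw [abs_sub_comm]; exact h1) le_rfl
    rw [Int.floor_intCast] at h2
    push_cast
    exact h2
  have ecX : ∀ {q : Ω → ℝ}, (∀ ω, 0 ≤ q ω) → CH q c' (fun ω => (Y ω, W ω)) =
      CH q c (fun ω => ((a ω, n ω), W ω)) := by
    intro q hq
    refine CH_congr hq ?_ ?_ ?_ ?_
    · intro ω ω' _ _ h
      have h1 := (Prod.ext_iff.mp h).1
      exact congrFun h1 0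
    · intro ω ω' _ _ h
      have h1 : c ω = c ω' := (Prod.ext_iff.mp h).1
      show (fun _ => c ω) = (fun _ => c ω')
      rw [h1]
    · intro ω ω' _ _ h
      have h1 : Y ω = Y ω' := (Prod.ext_iff.mp h).1
      have h2 : W ω = W ω' := (Prod.ext_iff.mp h).2
      have h3 : (fun _ : Fin 1 => a ω) = fun _ => a ω' := (Prod.ext_iff.mp h1).1
      have h4 : n ω = n ω' := (Prod.ext_iff.mp h1).2
      have h5 : a ω = a ω' := congrFun h3 0
      show ((a ω, n ω), W ω) = ((a ω', n ω'), W ω')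
      rw [h5, h4, h2]
    · intro ω ω' _ _ h
      simp only [Prod.mk.injEq] at h
      obtain ⟨⟨h5, h4⟩, h2⟩ := h
      show (((fun _ => a ω), n ω), W ω) = (((fun _ => a ω'), n ω'), W ω')
      rw [h5, h4, h2]
  have elb : ∀ (i : ℕ) {T : Type} (A : Ω → T) {q : Ω → ℝ}, (∀ ω, 0 ≤ q ω) →
      CH q A (fun ω => (c' ω, (lbl i (Y ω), W ω))) =
      CH q A (fun ω => (c ω, ((⌊(2 : ℝ) ^ i * a ω⌋, ⌊(2 : ℝ) ^ i * n ω⌋), W ω))) := by
    intro i T A q hq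
    refine CH_congr hq (fun ω ω' _ _ h => (Prod.ext_iff.mp h).1)
      (fun ω ω' _ _ h => (Prod.ext_iff.mp h).1) ?_ ?_
    · intro ω ω' _ _ h
      simp only [Prod.mk.injEq] at h
      obtain ⟨h1, h2, h3⟩ := h
      have h4 : c ω = c ω' := congrFun h1 0
      have h5 := congrFun (Prod.ext_iff.mp h2).1 0
      have h6 : ⌊(2 : ℝ) ^ i * a ω⌋ = ⌊(2 : ℝ) ^ i * a ω'⌋ := h5
      have h7 : ⌊(2 : ℝ) ^ i * n ω⌋ = ⌊(2 : ℝ) ^ i * n ω'⌋ := (Prod.ext_iff.mp h2).2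
      show (c ω, ((⌊(2 : ℝ) ^ i * a ω⌋, ⌊(2 : ℝ) ^ i * n ω⌋), W ω)) = _
      rw [h4, h6, h7, h3]
    · intro ω ω' _ _ h
      simp only [Prod.mk.injEq] at h
      obtain ⟨h1, ⟨h2, h3⟩, h4⟩ := h
      show ((fun _ => c ω), (((fun _ => ⌊(2 : ℝ) ^ i * a ω⌋), ⌊(2 : ℝ) ^ i * n ω⌋), W ω)) =
        ((fun _ => c ω'), (((fun _ => ⌊(2 : ℝ) ^ i * a ω'⌋), ⌊(2 : ℝ) ^ i * n ω'⌋), W ω'))
      rw [h1, h2, h3, h4]
  have hcard : (((bx 1 (C * 2 ^ s)).card : ℕ) : ℝ) = 2 * (C * 2 ^ s : ℕ) + 1 := by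
    rw [card_bx]
    push_cast
    ring
  have key := kt hp W le_rfl hC s hb Y c' (fun ω hω _ => ha ω hω) (fun ω hω _ => hc ω hω)
    (h := h) (c₀ := c₀) (e₁ := e₁ + lK) (err := err - lK) hh hc₀ (by linarith)
    (by
      rw [ecX h0, hcard]
      rw [← hlK] at herr
      push_cast at herr ⊢
      have e : (2 : ℝ) * 1 * C + 5 = 2 * C + 5 := by ring
      rw [e]
      linarith)
    (fun E hE hE0 hE1 i hi hbi => by
      have hq := sum_cond p E hE0.ne'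
      have hq0 := cond_nonneg h0 E True
      have h1 := hnf E (fun ω ω' h1 h2 h3 => hE ω ω' h1 (by
        show ((fun _ => a ω), n ω) = ((fun _ => a ω'), n ω')
        rw [h2, h3])) hE0 hE1 i hi hbi
      have h2 := CH_swap hq0 hq (fun ω => pos s (Y ω) (c' ω)) X (K + 1)
        (fun ω hω => hpos ω ((cond_pos_iff h0 E True ω).mp hω).1)
        (fun ω => (c' ω, (lbl i (Y ω), W ω)))
      rw [elb i X hq0] at h2
      have h3 : Real.log (2 * ((K + 1 : ℕ) : ℝ) + 1) = lK := by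
        rw [hlK]
        push_cast
        rfl
      rw [h3] at h2
      linarith)
  have g1 : CH p (fun ω => (⌊(2 : ℝ) ^ s * a ω⌋, ⌊(2 : ℝ) ^ s * n ω⌋))
      (fun ω => (X ω, (c ω, W ω))) ≤
      CH p (fun ω => lbl s (Y ω)) (fun ω => (pos s (Y ω) (c' ω), (c' ω, W ω))) + lK := by
    have h1 : CH p (fun ω => (⌊(2 : ℝ) ^ s * a ω⌋, ⌊(2 : ℝ) ^ s * n ω⌋))
        (fun ω => (X ω, (c ω, W ω))) =
        CH p (fun ω => lbl s (Y ω)) (fun ω => (X ω, (c' ω, W ω))) := by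
      refine CH_congr h0 ?_ ?_ ?_ ?_
      · intro ω ω' _ _ h
        simp only [Prod.mk.injEq] at h
        obtain ⟨⟨h2, h3⟩, _⟩ := h
        show ((fun _ => ⌊(2 : ℝ) ^ s * a ω⌋), ⌊(2 : ℝ) ^ s * n ω⌋) =
          ((fun _ => ⌊(2 : ℝ) ^ s * a ω'⌋), ⌊(2 : ℝ) ^ s * n ω'⌋)
        rw [h2, h3]
      · intro ω ω' _ _ h
        have h1 := (Prod.ext_iff.mp h).1
        have h2 := congrFun (Prod.ext_iff.mp h1).1 0
        exact Prod.ext h2 (Prod.ext_iff.mp h1).2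
      · intro ω ω' _ _ h
        simp only [Prod.mk.injEq] at h
        obtain ⟨h2, h3, h4⟩ := h
        show (X ω, ((fun _ => c ω), W ω)) = (X ω', ((fun _ => c ω'), W ω'))
        rw [h2, h3, h4]
      · intro ω ω' _ _ h
        simp only [Prod.mk.injEq] at h
        obtain ⟨h2, h3, h4⟩ := h
        have h5 : c ω = c ω' := congrFun h3 0
        show (X ω, (c ω, W ω)) = (X ω', (c ω', W ω'))
        rw [h2, h5, h4]
    rw [h1]
    have h2 := CH_swap_cond h0 hp.sum_one (fun ω => lbl s (Y ω)) X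
      (fun ω => pos s (Y ω) (c' ω)) (K + 1) (fun ω hω => by
        rw [abs_sub_comm]
        exact hpos ω hω) (fun ω => (c' ω, W ω))
    have h3 : Real.log (2 * ((K + 1 : ℕ) : ℝ) + 1) = lK := by
      rw [hlK]
      push_cast
      rfl
    rw [h3] at h2
    exact h2
  push_cast at key
  rw [one_mul] at key
  have e3 : (e₁ + lK + (err - lK)) / h = (e₁ + err) / h := by
    congr 1
    ring
  rw [e3] at key
  linarith

end

end Pool.OWN68
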