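import Pool.Agent.H68.OWN.Na

/-!
# Chains of windows over a nested chain of charts, relative to a quantity

`chainN`: the jets of the coordinate `κ` over the labels of the windows `b 0, …, b n`, relative to a
quantity `Q` which determines the jets of the chain over the labels of one window. `ProfN`: the
profile of the heights over a nested chain, at the good windows. `jetsN_lo`, `jetsN_hi`: the jets of
small and of large order.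
-/

set_option autoImplicit false

namespace Pool.OWN68

open Finset Real MvPolynomial
open Pool.Agent.H49.Ent Pool.Agent.H32.Dense Pool.STK Pool.KA Pool.KSAT Pool.K2S Pool.PB Pool.GEN
open Pool.S6C Pool.RCD Pool.LA91

variable {m : ℕ} {U : Type} {α γ : ∀ J : ℕ, Fam m J → Type}
  {f : ∀ (J : ℕ) (F : Fam m J), F.Ω → α J F} {y : ∀ (J : ℕ) (F : Fam m J), F.Ω → γ J F}
  {S : PCl m} {C₀ : ℝ}

/-- **A chain of windows**, over a nested chain of charts. -/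
theorem chainN (htm : TmC S C₀) {c : ℕ → Fin m} {r₀ r : ℕ} {κ : Fin m} {j : ℕ}
    {a rk p₀ lam N ρ wv : ℝ} {Pv : ℕ → ℝ → ℝ} {Nv : ℕ → ℕ → ℝ} {lv : ℝ → ℕ → ℝ} {Q : Qt m U}
    (hrk : 0 ≤ rk) (ha : a < 1) (hap : a < p₀) (hp0 : p₀ ≤ 1) (hlam : 0 < lam) (hρ : 0 < ρ)
    (hf : ∀ (J : ℕ) (F : Fam m J), ∃ φ : α J F → PtT F, ∀ ω, ptr F J ω = φ (f J F ω))
    (hy : Kn ((range r₀).image c) p₀ lam y)
    (hxV : Exs S (qJets m c r₀ r j (fun _ _ => wv) (fun i _ => Pv i wv) Nv))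
    (hV : ∀ h : ℝ, 0 < h → F1 S f (vg a) y Q
      (qJets m c r₀ r j (fun _ _ => wv) (fun i _ => Pv i wv) Nv) (ρ / 8) h)
    (b P : ℕ → ℝ) : ∀ n : ℕ,
    (∀ i ≤ n, 0 ≤ b i) → (∀ i ≤ n, b i ≤ a) → (∀ i ≤ n, wv ≤ b i) →
    (∀ i ≤ n, Att S ((range r).image c) κ (b i) (P i) rk) →
    (∀ i ≤ n, ∃ (u₁ : ℝ) (rd : ℕ → ℝ), Chn S c r₀ r (b i) (b i) u₁ (fun l => Pv l (b i)) rd) →
    (∀ i ≤ n, ∀ l, r₀ ≤ l → l < r → 0 < lv (b i) l) →
    (∀ i ≤ n, ∀ l, r₀ ≤ l → l < r → ∀ j' ≤ j,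
      Pv l (b i) + lv (b i) l + ρ ≤ Nv l j' + j' * b i) →
    (∀ i ≤ n, ∀ l, r₀ ≤ l → l < r → Pv l (b i) + lv (b i) l + ρ ≤
      min (Pv l wv) (Pv l (b i)) + min lam (p₀ - b i)) →
    (∀ i ≤ n, ∀ l, r₀ ≤ l → l < r → ∀ l', r₀ ≤ l' → l' < l → Pv l (b i) + lv (b i) l + ρ ≤
      min (Pv l wv) (Pv l (b i)) + lv (b i) l') →
    N + j * b 0 + ρ ≤ P 0 →
    (∀ i < n, N + j * max (b i) (b (i + 1)) + ρ ≤
      min (P i) (P (i + 1)) + min lam (p₀ - max (b i) (b (i + 1)))) →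
    (∀ i < n, ∀ l, r₀ ≤ l → l < r → N + j * max (b i) (b (i + 1)) + ρ ≤
      min (P i) (P (i + 1)) + lv (max (b i) (b (i + 1))) l) →
    ∀ h : ℝ, 0 < h → F1 S f (vg a) y Q (qJet m ((range r).image c) κ j (b n) (P n) N)
      (ρ / 8) h := by
  intro n
  induction n with
  | zero =>
    intro h0 h1 h2 h3 h4 h5 h6 h7 h8 h9 h10 h11 h hh
    refine F1.of0 htm ((few0_room htm (h0 0 le_rfl) (lt_of_le_of_lt (h1 0 le_rfl) ha) hρ h9 f
      (vg a) y hh).mono (by linarith) le_rfl)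
  | succ n ih =>
    intro h0 h1 h2 h3 h4 h5 h6 h7 h8 h9 h10 h11 h hh
    have e1 := ih (fun i hi => h0 i (by omega)) (fun i hi => h1 i (by omega))
      (fun i hi => h2 i (by omega)) (fun i hi => h3 i (by omega))
      (fun i hi => h4 i (by omega)) (fun i hi => h5 i (by omega)) (fun i hi => h6 i (by omega))
      (fun i hi => h7 i (by omega)) (fun i hi => h8 i (by omega)) h9
      (fun i hi => h10 i (by omega)) (fun i hi => h11 i (by omega)) (h / 3) (by linarith)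
    obtain ⟨β, hβ⟩ : ∃ β : ℝ, β = max (b n) (b (n + 1)) := ⟨_, rfl⟩
    have hm1 : β ≤ a := by
      rw [hβ]
      exact max_le (h1 n (by omega)) (h1 (n + 1) le_rfl)
    have hbn : b n ≤ β := by rw [hβ]; exact le_max_left _ _
    have hbn1 : b (n + 1) ≤ β := by rw [hβ]; exact le_max_right _ _
    have hβc : ∃ i ≤ n + 1, b i = β := by
      rcases max_cases (b n) (b (n + 1)) with ⟨e, -⟩ | ⟨e, -⟩
      · exact ⟨n, by omega, by rw [hβ, e]⟩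
      · exact ⟨n + 1, le_rfl, by rw [hβ, e]⟩
    obtain ⟨i₀, hi₀, hbi⟩ := hβc
    have g10 := h10 n (Nat.lt_succ_self n)
    have g11 := h11 n (Nat.lt_succ_self n)
    rw [← hβ] at g10 g11
    obtain ⟨u₁, rd, hch⟩ := h4 i₀ hi₀
    have a2 := h2 i₀ hi₀
    have a5 := h5 i₀ hi₀
    have a6 := h6 i₀ hi₀
    have a7 := h7 i₀ hi₀
    have a8 := h8 i₀ hi₀
    rw [hbi] at hch a2 a5 a6 a7 a8
    have e2 := jetN_F1 (y := y) htm hch (k := κ) (j := j) (wv := fun _ _ => wv)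
      (pv := fun i _ => Pv i wv) (Nv := Nv) (lv := lv β) (w₁ := b n) (w₂ := b (n + 1))
      (p₁ := P n) (p₂ := P (n + 1)) (N₁ := N) (N₂ := N) (p₀ := p₀) (lam := lam) (σ₀ := ρ)
      (fun _ _ _ _ _ => a2) hbn hbn1 (lt_of_le_of_lt hm1 hap) hp0 hlam hρ a5
      (fun l x1 x2 j' x3 => a6 l x1 x2 j' x3) (fun l x1 x2 j' _ => a7 l x1 x2)
      (fun l x1 x2 j' _ l' x3 x4 => a8 l x1 x2 l' x3 x4) le_rfl g10
      (fun l x1 x2 => g11 l x1 x2) hf hy (h := h / 3) (by linarith)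
    have e3 := F1.pair htm (hV (h / 3) (by linarith)) e1
    have e4 := F1.trans htm (hxV.prod (exs_jet hrk (h3 n (by omega)))) (by linarith) e3
      (e2.up hm1 ha.le)
    have e5 : h / 3 + h / 3 + h / 3 = h := by ring
    rwa [e5] at e4

/-- **The profile of the heights over a nested chain**, at the good windows. -/
structure ProfN (S : PCl m) (c : ℕ → Fin m) (r₀ r : ℕ) (κ : Fin m) (G : ℝ → Prop)
    (Pv : ℕ → ℝ → ℝ) (P : ℝ → ℝ) (rk b₀ a S₁ S₂ τ : ℝ) : Prop where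
  chn : ∀ b : ℝ, b₀ ≤ b → b ≤ a → G b → ∃ (u₁ : ℝ) (rd : ℕ → ℝ),
    Chn S c r₀ r b b u₁ (fun l => Pv l b) rd ∧ ∀ l, r₀ ≤ l → l < r → 0 ≤ rd l
  att : ∀ b : ℝ, b₀ ≤ b → b ≤ a → G b → Att S ((range r).image c) κ b (P b) rk
  lo : ∀ b b' : ℝ, b₀ ≤ b → b ≤ b' → b' ≤ a → S₁ * (b' - b) - τ ≤ P b' - P b
  up : ∀ b b' : ℝ, b₀ ≤ b → b ≤ b' → b' ≤ a → P b' - P b ≤ S₂ * (b' - b) + τ
  dns : Dns G b₀ a

theorem Dns.sub {G : ℝ → Prop} {x y x' y' : ℝ} (h : Dns G x y) (hx : x ≤ x') (hy : y' ≤ y) :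
    Dns G x' y' := fun s t hs hst ht => h s t (by linarith) hst (by linarith)

theorem ProfN.exs {c : ℕ → Fin m} {r₀ r : ℕ} {κ : Fin m} {G : ℝ → Prop}
    {Pv : ℕ → ℝ → ℝ} {P : ℝ → ℝ} {rk b₀ a S₁ S₂ τ : ℝ}
    (h : ProfN S c r₀ r κ G Pv P rk b₀ a S₁ S₂ τ) {w : ℝ} (h0 : b₀ ≤ w) (h1 : w ≤ a) (hG : G w)
    (j : ℕ) (Nv : ℕ → ℕ → ℝ) :
    Exs S (qJets m c r₀ r j (fun _ _ => w) (fun i _ => Pv i w) Nv) := by
  obtain ⟨u₁, rd, hch, hrd⟩ := h.chn w h0 h1 hG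
  exact exs_qjets fun i hi0 hi j' _ => exs_jet (hrd i hi0 hi) (hch.att i hi0 hi)

/-- **The jets of small order**, over a nested chain. -/
theorem jetsN_lo (htm : TmC S C₀) {c : ℕ → Fin m} {r₀ r : ℕ} {κ : Fin m} {G : ℝ → Prop}
    {Pv : ℕ → ℝ → ℝ} {P : ℝ → ℝ} {rk b₀ a S₁ S₂ τ w q lam ρ : ℝ} {j : ℕ} {Nv : ℕ → ℕ → ℝ}
    {lv : ℝ → ℕ → ℝ} {Q : Qt m U} (hrk : 0 ≤ rk) (hb₀ : 0 ≤ b₀) (hbw : b₀ ≤ w)
    (hwa : w ≤ a) (ha : a < w + lam) (hwl : w + lam ≤ 1) (hGw : G w) (hGa : G a)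
    (hP : ProfN S c r₀ r κ G Pv P rk b₀ a S₁ S₂ τ)
    (hf : ∀ (J : ℕ) (F : Fam m J), ∃ φ : α J F → PtT F, ∀ ω, ptr F J ω = φ (f J F ω))
    (hy : Kn ((range r₀).image c) (w + lam) lam y) (hρ : 0 < ρ) (hτ : 0 ≤ τ)
    (hlam : q + ρ + 2 * τ < lam)
    (hV : ∀ h : ℝ, 0 < h → F1 S f (vg a) y Q
      (qJets m c r₀ r j (fun _ _ => w) (fun i _ => Pv i w) Nv) (ρ / 8) h)
    (hl0 : ∀ β : ℝ, w ≤ β → β ≤ a → ∀ l, r₀ ≤ l → l < r → 0 < lv β l)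
    (hl1 : ∀ β : ℝ, w ≤ β → β ≤ a → ∀ l, r₀ ≤ l → l < r → ∀ j' ≤ j,
      Pv l β + lv β l + ρ ≤ Nv l j' + j' * β)
    (hl2 : ∀ β : ℝ, w ≤ β → β ≤ a → ∀ l, r₀ ≤ l → l < r →
      Pv l β + lv β l + ρ ≤ min (Pv l w) (Pv l β) + (w + lam - β))
    (hl3 : ∀ β : ℝ, w ≤ β → β ≤ a → ∀ l, r₀ ≤ l → l < r → ∀ l', r₀ ≤ l' → l' < l →
      Pv l β + lv β l + ρ ≤ min (Pv l w) (Pv l β) + lv β l')
    {ν : ℝ} (hν : 0 < ν)
    (hl4 : ∀ β : ℝ, w ≤ β → β ≤ a → ∀ l, r₀ ≤ l → l < r →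
      q + ρ + 2 * τ + ν ≤ (S₁ - j) * (β - w) + lv β l)
    (hj : (j : ℝ) + 1 ≤ S₁) (hj2 : q + ρ + τ ≤ (S₁ - j) * (a - w)) {h : ℝ} (hh : 0 < h) :
    F1 S f (vg a) y Q (qJet m ((range r).image c) κ j w (P w) (P w + q - j * w)) (ρ / 8) h := by
  have hj0 : (0 : ℝ) ≤ j := Nat.cast_nonneg j
  have hS₁ : 0 < S₁ := by linarith
  have hlam0 : 0 < lam := by linarith
  obtain ⟨μ, hμ⟩ : ∃ μ : ℝ, μ = min ((lam - (q + ρ + 2 * τ)) / S₁) (ν / S₁) := ⟨_, rfl⟩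
  have hμ0 : 0 < μ := by
    rw [hμ]
    exact lt_min (div_pos (by linarith) hS₁) (div_pos hν hS₁)
  have hμ1 : S₁ * μ ≤ lam - (q + ρ + 2 * τ) := by
    have e1 : μ ≤ (lam - (q + ρ + 2 * τ)) / S₁ := by rw [hμ]; exact min_le_left _ _
    rw [le_div_iff₀ hS₁] at e1
    linarith
  have hμ2 : S₁ * μ ≤ ν := by
    have e1 : μ ≤ ν / S₁ := by rw [hμ]; exact min_le_right _ _
    rw [le_div_iff₀ hS₁] at e1
    linarith
  obtain ⟨n, b', hb0, hbn, hbs, hbG⟩ := mesh hwa hGw hGa (hP.dns.sub hbw le_rfl) hμ0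
  obtain ⟨b, hb⟩ : ∃ b : ℕ → ℝ, b = fun i => b' (n - i) := ⟨_, rfl⟩
  have hbb : ∀ i, b i = b' (n - i) := fun i => by rw [hb]
  have hB0 : b 0 = a := by rw [hbb, Nat.sub_zero, hbn]
  have hBn : b n = w := by rw [hbb, Nat.sub_self, hb0]
  have hBG : ∀ i ≤ n, G (b i) ∧ w ≤ b i ∧ b i ≤ a := fun i hi => by
    rw [hbb]
    exact hbG _ (Nat.sub_le _ _)
  have hBs : ∀ i < n, b (i + 1) ≤ b i ∧ b i ≤ b (i + 1) + μ := fun i hi => by
    rw [hbb, hbb]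
    have h1 := hbs (n - (i + 1)) (by omega)
    have e1 : n - (i + 1) + 1 = n - i := by omega
    rw [e1] at h1
    exact h1
  have key := chainN (y := y) htm (c := c) (r₀ := r₀) (r := r) (κ := κ) (j := j) (a := a)
    (rk := rk) (p₀ := w + lam) (lam := lam) (N := P w + q - j * w) (ρ := ρ) (wv := w) (Pv := Pv)
    (Nv := Nv) (lv := lv) (Q := Q) hrk (by linarith) ha hwl hlam0 hρ hf hy
    (hP.exs hbw hwa hGw j Nv) hV b
    (fun i => P (b i)) n (fun i hi => by linarith [(hBG i hi).2.1])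
    (fun i hi => (hBG i hi).2.2) (fun i hi => (hBG i hi).2.1)
    (fun i hi => hP.att _ (hbw.trans (hBG i hi).2.1) (hBG i hi).2.2 (hBG i hi).1)
    (fun i hi => by
      obtain ⟨u₁, rd, hch, -⟩ := hP.chn _ (hbw.trans (hBG i hi).2.1) (hBG i hi).2.2 (hBG i hi).1
      exact ⟨u₁, rd, hch⟩)
    (fun i hi => hl0 _ (hBG i hi).2.1 (hBG i hi).2.2)
    (fun i hi => hl1 _ (hBG i hi).2.1 (hBG i hi).2.2)
    (fun i hi l x1 x2 => by
      have h1 := hl2 _ (hBG i hi).2.1 (hBG i hi).2.2 l x1 x2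
      have g1 : min lam (w + lam - b i) = w + lam - b i := min_eq_right (by
        linarith [(hBG i hi).2.1])
      rw [g1]
      exact h1)
    (fun i hi => hl3 _ (hBG i hi).2.1 (hBG i hi).2.2) ?_ ?_ ?_ h hh
  · simp only [hBn] at key
    exact key
  · have h1 := hP.lo w a hbw hwa le_rfl
    simp only [hB0]
    linarith
  · intro i hi
    have h2 := hBG i hi.le
    have h3 := hBG (i + 1) hi
    have h7 := hBs i hi
    have e1 : max (b i) (b (i + 1)) = b i := max_eq_left h7.1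
    rw [e1]
    have h4 := hP.lo w (b i) hbw h2.2.1 h2.2.2
    have h5 := hP.lo w (b (i + 1)) hbw h3.2.1 h3.2.2
    have h8 : (j + 1) * (b i - w) ≤ S₁ * (b i - w) :=
      mul_le_mul_of_nonneg_right hj (by linarith [h2.2.1])
    have h9 : S₁ * (b i - b (i + 1)) ≤ S₁ * μ :=
      mul_le_mul_of_nonneg_left (by linarith [h7.2]) hS₁.le
    have g1 : min lam (w + lam - b i) = w + lam - b i := min_eq_right (by linarith [h2.2.1])
    rw [g1]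
    rcases min_cases (P (b i)) (P (b (i + 1))) with ⟨e, -⟩ | ⟨e, -⟩
    · rw [e]
      linarith
    · rw [e]
      linarith
  · intro i hi l x1 x2
    have h2 := hBG i hi.le
    have h3 := hBG (i + 1) hi
    have h7 := hBs i hi
    have e1 : max (b i) (b (i + 1)) = b i := max_eq_left h7.1
    rw [e1]
    have h4 := hP.lo w (b i) hbw h2.2.1 h2.2.2
    have h5 := hP.lo w (b (i + 1)) hbw h3.2.1 h3.2.2
    have h6 := hl4 (b i) h2.2.1 h2.2.2 l x1 x2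
    have h9 : S₁ * (b i - b (i + 1)) ≤ S₁ * μ :=
      mul_le_mul_of_nonneg_left (by linarith [h7.2]) hS₁.le
    rcases min_cases (P (b i)) (P (b (i + 1))) with ⟨e, -⟩ | ⟨e, -⟩
    · rw [e]
      linarith
    · rw [e]
      linarith

/-- **The jets of large order**, over a nested chain. -/
theorem jetsN_hi (htm : TmC S C₀) {c : ℕ → Fin m} {r₀ r : ℕ} {κ : Fin m} {G : ℝ → Prop}
    {Pv : ℕ → ℝ → ℝ} {P : ℝ → ℝ} {rk b₀ a S₁ S₂ τ w q lam ρ : ℝ} {j : ℕ} {Nv : ℕ → ℕ → ℝ}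
    {lv : ℝ → ℕ → ℝ} {Q : Qt m U} (hrk : 0 ≤ rk) (hb₀ : 0 ≤ b₀) (hbw : b₀ ≤ w)
    (hwa : w ≤ a) (ha : a < w + lam) (hwl : w + lam ≤ 1) (hGw : G w) (hGb : G b₀)
    (hS₂ : 0 ≤ S₂)
    (hP : ProfN S c r₀ r κ G Pv P rk b₀ a S₁ S₂ τ)
    (hf : ∀ (J : ℕ) (F : Fam m J), ∃ φ : α J F → PtT F, ∀ ω, ptr F J ω = φ (f J F ω))
    (hy : Kn ((range r₀).image c) (w + lam) lam y) (hρ : 0 < ρ) (hτ : 0 ≤ τ)
    (hlam : q + ρ + 2 * τ < lam)
    (hV : ∀ h : ℝ, 0 < h → F1 S f (vg a) y Q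
      (qJets m c r₀ r j (fun _ _ => b₀) (fun i _ => Pv i b₀) Nv) (ρ / 8) h)
    (hl0 : ∀ β : ℝ, b₀ ≤ β → β ≤ w → ∀ l, r₀ ≤ l → l < r → 0 < lv β l)
    (hl1 : ∀ β : ℝ, b₀ ≤ β → β ≤ w → ∀ l, r₀ ≤ l → l < r → ∀ j' ≤ j,
      Pv l β + lv β l + ρ ≤ Nv l j' + j' * β)
    (hl2 : ∀ β : ℝ, b₀ ≤ β → β ≤ w → ∀ l, r₀ ≤ l → l < r →
      Pv l β + lv β l + ρ ≤ min (Pv l b₀) (Pv l β) + lam)
    (hl3 : ∀ β : ℝ, b₀ ≤ β → β ≤ w → ∀ l, r₀ ≤ l → l < r → ∀ l', r₀ ≤ l' → l' < l →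
      Pv l β + lv β l + ρ ≤ min (Pv l b₀) (Pv l β) + lv β l')
    {ν : ℝ} (hν : 0 < ν)
    (hl4 : ∀ β : ℝ, b₀ ≤ β → β ≤ w → ∀ l, r₀ ≤ l → l < r →
      q + ρ + 2 * τ + ν ≤ (j - S₂) * (w - β) + lv β l)
    (hj : S₂ ≤ j) (hj2 : q + ρ + τ ≤ (j - S₂) * (w - b₀)) {h : ℝ} (hh : 0 < h) :
    F1 S f (vg a) y Q (qJet m ((range r).image c) κ j w (P w) (P w + q - j * w)) (ρ / 8) h := by
  have hj0 : (0 : ℝ) ≤ j := Nat.cast_nonneg j
  have hlam0 : 0 < lam := by linarith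
  have hS1 : 0 < S₂ + 1 := by linarith
  obtain ⟨μ, hμ⟩ : ∃ μ : ℝ, μ = min ((lam - (q + ρ + 2 * τ)) / (S₂ + 1)) (ν / (S₂ + 1)) :=
    ⟨_, rfl⟩
  have hμ0 : 0 < μ := by
    rw [hμ]
    exact lt_min (div_pos (by linarith) hS1) (div_pos hν hS1)
  have hμ1 : S₂ * μ ≤ lam - (q + ρ + 2 * τ) := by
    have e1 : μ ≤ (lam - (q + ρ + 2 * τ)) / (S₂ + 1) := by rw [hμ]; exact min_le_left _ _
    rw [le_div_iff₀ hS1] at e1
    linarith
  have hμ2 : S₂ * μ ≤ ν := by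
    have e1 : μ ≤ ν / (S₂ + 1) := by rw [hμ]; exact min_le_right _ _
    rw [le_div_iff₀ hS1] at e1
    linarith
  obtain ⟨n, b, hB0, hBn, hBs, hBG⟩ := mesh hbw hGb hGw (hP.dns.sub le_rfl hwa) hμ0
  have key := chainN (y := y) htm (c := c) (r₀ := r₀) (r := r) (κ := κ) (j := j) (a := a)
    (rk := rk) (p₀ := w + lam) (lam := lam) (N := P w + q - j * w) (ρ := ρ) (wv := b₀) (Pv := Pv)
    (Nv := Nv) (lv := lv) (Q := Q) hrk (by linarith) ha hwl hlam0 hρ hf hy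
    (hP.exs le_rfl (hbw.trans hwa) hGb j Nv) hV b
    (fun i => P (b i)) n (fun i hi => by linarith [(hBG i hi).2.1])
    (fun i hi => (hBG i hi).2.2.trans hwa) (fun i hi => (hBG i hi).2.1)
    (fun i hi => hP.att _ (hBG i hi).2.1 ((hBG i hi).2.2.trans hwa) (hBG i hi).1)
    (fun i hi => by
      obtain ⟨u₁, rd, hch, -⟩ := hP.chn _ (hBG i hi).2.1 ((hBG i hi).2.2.trans hwa) (hBG i hi).1
      exact ⟨u₁, rd, hch⟩)
    (fun i hi => hl0 _ (hBG i hi).2.1 (hBG i hi).2.2)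
    (fun i hi => hl1 _ (hBG i hi).2.1 (hBG i hi).2.2)
    (fun i hi l x1 x2 => by
      have h1 := hl2 _ (hBG i hi).2.1 (hBG i hi).2.2 l x1 x2
      have g1 : min lam (w + lam - b i) = lam := min_eq_left (by
        linarith [(hBG i hi).2.2])
      rw [g1]
      exact h1)
    (fun i hi => hl3 _ (hBG i hi).2.1 (hBG i hi).2.2) ?_ ?_ ?_ h hh
  · simp only [hBn] at key
    exact key
  · have h1 := hP.up b₀ w le_rfl hbw hwa
    simp only [hB0]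
    linarith
  · intro i hi
    have h2 := hBG i hi.le
    have h3 := hBG (i + 1) hi
    have h7 := hBs i hi
    have e1 : max (b i) (b (i + 1)) = b (i + 1) := max_eq_right h7.1
    rw [e1]
    have h4 := hP.up (b (i + 1)) w h3.2.1 h3.2.2 hwa
    have h5 := hP.up (b i) (b (i + 1)) h2.2.1 h7.1 (h3.2.2.trans hwa)
    have h5' := hP.up (b i) w h2.2.1 h2.2.2 hwa
    have h6 := hP.lo (b i) (b (i + 1)) h2.2.1 h7.1 (h3.2.2.trans hwa)
    have h8 : S₂ * (w - b (i + 1)) ≤ j * (w - b (i + 1)) :=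
      mul_le_mul_of_nonneg_right hj (by linarith [h3.2.2])
    have h9 : S₂ * (b (i + 1) - b i) ≤ S₂ * μ :=
      mul_le_mul_of_nonneg_left (by linarith [h7.2]) hS₂
    have g1 : min lam (w + lam - b (i + 1)) = lam := min_eq_left (by linarith [h3.2.2])
    rw [g1]
    rcases min_cases (P (b i)) (P (b (i + 1))) with ⟨e, -⟩ | ⟨e, -⟩
    · rw [e]
      linarith
    · rw [e]
      linarith
  · intro i hi l x1 x2
    have h2 := hBG i hi.le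
    have h3 := hBG (i + 1) hi
    have h7 := hBs i hi
    have e1 : max (b i) (b (i + 1)) = b (i + 1) := max_eq_right h7.1
    rw [e1]
    have h4 := hP.up (b (i + 1)) w h3.2.1 h3.2.2 hwa
    have h5' := hP.up (b i) w h2.2.1 h2.2.2 hwa
    have h6 := hl4 (b (i + 1)) h3.2.1 h3.2.2 l x1 x2
    have h9 : S₂ * (b (i + 1) - b i) ≤ S₂ * μ :=
      mul_le_mul_of_nonneg_left (by linarith [h7.2]) hS₂
    rcases min_cases (P (b i)) (P (b (i + 1))) with ⟨e, -⟩ | ⟨e, -⟩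
    · rw [e]
      linarith
    · rw [e]
      linarith

end Pool.OWN68
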