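import Pool.Agent.H68.OWN.Nf

/-!
# The own path of a nonfull coordinate, relative to a quantity and for contexts of a label

`path_rel`: the theorem `path_cls` relative to a quantity `Q₀` and for a hereditary family `Ψ` of
labels with contexts on the lines (helper54's `path_ctx`), with explicit accuracy `e` and degree `K`.
The proof is the proof of `path_cls`.
-/

set_option autoImplicit false

namespace Pool.OWN68

open Finset Real MvPolynomial
open Pool.Agent.H49.Ent Pool.Agent.H32.Dense Pool.STK Pool.KA Pool.KSAT Pool.K2S Pool.PB Pool.GEN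
open Pool.S6C Pool.RCD Pool.LA91
open Pool.GRD (LbP)

variable {J : ℕ}

/-- **The own path of a nonfull coordinate is few bits given the ball**, relative to a quantity. -/
theorem path_rel {k : ℕ} (hk : k = 1 ∨ k = 2) {h : ℝ} (hh : 0 < h) (hh1 : h ≤ 1) {ε : ℝ}
    (hε : 0 < ε) : ∃ δ : ℝ, 0 < δ ∧ ∀ {m : ℕ} {S : PCl m} {C₀ : ℝ} (_ : TmC S C₀)
    {I : Finset (Fin m)} {κ : Fin m} {w a p q r : ℝ} (_ : 0 ≤ w) (_ : w ≤ a) (_ : a ≤ 1)
    (_ : 0 < q) (_ : w + q ≤ 1) (_ : 0 ≤ r)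
    {U₀ : Type} {Qu : Qt m U₀}
    {α γ : ∀ J : ℕ, Fam m J → Type} {f : ∀ (J : ℕ) (F : Fam m J), F.Ω → α J F}
    {y : ∀ (J : ℕ) (F : Fam m J), F.Ω → γ J F}
    (_ : ∀ (J : ℕ) (F : Fam m J), ∃ φ : α J F → PtT F, ∀ ω, ptr F J ω = φ (f J F ω))
    (_ : ∀ (J : ℕ) (F : Fam m J), ∃ φ : γ J F → ℕ, ∀ ω, F.T ω = φ (y J F ω))
    {e : ℝ} (_ : 0 < e) {K : ℕ} {η : ℕ → ℝ}
    (Ψ : ∀ (J : ℕ) (F : Fam m J), (F.Ω → Prop) → ∀ V C : Type, (PtT F → V) → (LnT F → V) →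
      (V → MvPolynomial (Option (Fin m)) ℝ) → (LnT F → C) → Prop)
    (_ : ∀ (J : ℕ) (F : Fam m J) (A : F.Ω → Prop) (V C : Type) (z : PtT F → V) (z' : LnT F → V)
      (G : V → MvPolynomial (Option (Fin m)) ℝ) (c : LnT F → C), Ψ J F A V C z z' G c →
      LbOK F I κ K ⌊e * J⌋₊ J ⌊w * J⌋₊ ⌊(r + e) * J⌋₊ ⌊(p - e) * J⌋₊ A z z' G)
    (_ : ∀ (J : ℕ) (F : Fam m J) (A B : F.Ω → Prop) (V C : Type) (z : PtT F → V)
      (z' : LnT F → V) (G : V → MvPolynomial (Option (Fin m)) ℝ) (c : LnT F → C), Sub B A →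
      Ψ J F A V C z z' G c → Ψ J F B V C z z' G c),
    (∀ K₀ : ℕ, Bas S (fun J F A => ∀ (V C : Type) (z : PtT F → V) (z' : LnT F → V)
      (G : V → MvPolynomial (Option (Fin m)) ℝ) (c : LnT F → C), Ψ J F A V C z z' G c →
      ∀ u₀ : F.Ω → U₀, Qu.P K₀ e J F A u₀ →
      ∃ (V₁ : Type) (z₁ : F.Ω → V₁), Cl2 (f J F) (vg a J F) A z₁ ∧
      CH (Pool.Agent.H49.Ent.cond F.p A True) (fun ω => c (vg w J F ω))
        (fun ω => (u₀ ω, (z₁ ω, y J F ω))) ≤ δ * q * J)) →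
    (∀ x : ℝ, 0 ≤ x → x ≤ q → Bas S (fun J F A => ∀ (V C : Type) (z : PtT F → V)
      (z' : LnT F → V) (G : V → MvPolynomial (Option (Fin m)) ℝ) (c : LnT F → C),
      Ψ J F A V C z z' G c →
      CH (Pool.Agent.H49.Ent.cond F.p A True)
        (fun ω => ⌊(2 : ℝ) ^ ((p + q) * J) * ojet F κ 0 (G (z' (slam F ⌊w * J⌋₊ ω))) ω⌋)
        (fun ω => (⌊(2 : ℝ) ^ ((p + x) * J) * ojet F κ 0 (G (z' (slam F ⌊w * J⌋₊ ω))) ω⌋,
          (z' (slam F ⌊w * J⌋₊ ω), (c (slam F ⌊w * J⌋₊ ω), F.W ω)))) ≤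
        ((1 - h) * (q - x) * Real.log 2 + δ * q) * J)) →
    ∑ j ∈ range (K + 3), η j ≤ δ * q →
    (∀ j < K + 3, F1 S f (vg a) y Qu
      (qJet m I κ j w p (if j = k then p - k * w else p + q - j * w)) e (η j)) →
    ∀ K₀ : ℕ, Bas S (fun J F A => ∀ (V C : Type) (z : PtT F → V) (z' : LnT F → V)
        (G : V → MvPolynomial (Option (Fin m)) ℝ) (c : LnT F → C), Ψ J F A V C z z' G c →
        ∀ u₀ : F.Ω → U₀, Qu.P K₀ e J F A u₀ →
        ∃ (V₁ : Type) (z₁ : F.Ω → V₁), Cl2 (f J F) (vg a J F) A z₁ ∧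
          CH (Pool.Agent.H49.Ent.cond F.p A True)
            (fun ω => ((z' (vg w J F ω), (vg w J F ω).2), (c (vg w J F ω),
              fun j : Fin (K + 3) => ⌊jr F ⌊w * J⌋₊ (2 ^ ((p + q) * J)) κ z' G j (vg w J F ω)⌋)))
            (fun ω => (u₀ ω, (z₁ ω, y J F ω))) ≤ ε * q * J) := by
  classical
  obtain ⟨δ₁, hδ₁, c₀, hc₀, Hnpl⟩ := npl hk hh hh1 (ε / 2) (half_pos hε)
  obtain ⟨δ, hδ⟩ : ∃ δ : ℝ, δ = min (δ₁ / 16) (ε / 16) := ⟨_, rfl⟩
  have hδ0 : 0 < δ := by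
    rw [hδ]
    exact lt_min (by positivity) (by positivity)
  have hδa : δ ≤ δ₁ / 16 := by rw [hδ]; exact min_le_left _ _
  have hδb : δ ≤ ε / 16 := by rw [hδ]; exact min_le_right _ _
  refine ⟨δ, hδ0, ?_⟩
  intro m S C₀ htm I κ w a p q r hw0 hwa ha hq hwq hr U₀ Qu α γ f y hf hy e he K η Ψ hΨl hΨ hc
    hnf hsη hjet K₀
  have hw1 : w < 1 := by linarith
  have hk1 : 1 ≤ k := by rcases hk with rfl | rfl <;> norm_num
  obtain ⟨D, hD⟩ : ∃ D : ℕ, D = K + 2 := ⟨_, rfl⟩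
  have hD2 : 2 ≤ D := by omega
  have hD1 : (0 : ℝ) < D + 1 := by positivity
  obtain ⟨K₁, hK₁, Hj⟩ := jnpl D
  obtain ⟨C, hC, Hc⟩ := jc0 D
  obtain ⟨N₀, hN₀⟩ := exists_nat_ge (16 / δ₁)
  have hN0 : (0 : ℝ) < N₀ := lt_of_lt_of_le (by positivity) hN₀
  obtain ⟨A', hA'⟩ := exists_nat_ge (2 / q)
  obtain ⟨Q₀, Hnpl⟩ := Hnpl K₁ A'
  have hδq : 0 < δ * q := by positivity
  -- the jets
  obtain ⟨Nj, hNj⟩ : ∃ Nj : ℕ → ℝ, Nj = fun j => if j = k then p - k * w else p + q - j * w :=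
    ⟨_, rfl⟩
  have hser : ∑ j ∈ range (D + 1), η j ≤ 3 * (δ * q) := by
    rw [hD]
    linarith
  have hF : ∀ j < D + 1, F1 S f (vg a) y Qu (qJet m I κ j w p (Nj j)) e (η j) := by
    intro j hj
    rw [hNj]
    exact hjet j (by omega)
  choose M Jm hcnt using fun j : ℕ => cnt_jet m K j (N := Nj j) (w := w) hr he
  obtain ⟨M', hM'⟩ : ∃ M' : ℕ, M' = K₀ + K + ∑ j ∈ range (D + 1), M j := ⟨_, rfl⟩
  obtain ⟨J₁, hJ₁⟩ : ∃ J₁ : ℕ, J₁ = ∑ j ∈ range (D + 1), Jm j := ⟨_, rfl⟩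
  -- the limits
  obtain ⟨c₅, hc₅⟩ : ∃ c₅ : ℝ, c₅ = Real.log (4 * ((D + 1 : ℕ) : ℝ) + 5) := ⟨_, rfl⟩
  obtain ⟨c₆, hc₆⟩ : ∃ c₆ : ℝ, c₆ = (D + 4) * Real.log (C * (2 + 2)) := ⟨_, rfl⟩
  obtain ⟨CC, hCC⟩ : ∃ CC : ℝ, CC = δ₁ + 1 + Real.log 3 + c₆ + 2 * c₅ := ⟨_, rfl⟩
  have l3 : 0 ≤ Real.log 3 := Real.log_nonneg (by norm_num)
  have l4 : 0 ≤ Real.log (C * (2 + 2)) := Real.log_nonneg (by linarith)
  have l5 : 0 ≤ c₅ := by
    rw [hc₅]
    refine Real.log_nonneg ?_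
    have : (0 : ℝ) ≤ ((D + 1 : ℕ) : ℝ) := Nat.cast_nonneg _
    linarith
  have l6 : 0 ≤ c₆ := by
    rw [hc₆]
    positivity
  obtain ⟨J₂, hJ₂⟩ := exists_nat_ge (CC / (δ₁ / 4 * q) + (Q₀ + 2) / q)
  refine Bas.mono (max J₁ J₂) (((Bas.all (D + 1) fun j hj => hF j hj M').and
    (Bas.all (N₀ + 1) fun i hi => Pool.GRW.bas_part (hnf (q * i / N₀) (by positivity) (by
      rw [div_le_iff₀ hN0]
      refine mul_le_mul_of_nonneg_left ?_ hq.le
      exact_mod_cast Nat.lt_succ_iff.mp hi)) (c := 1 / c₀) (by positivity))).and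
    ((hc K₀).and (Pool.GRW.tmc_bas htm (ψ := δ₁ / 8 * q) (by positivity)))) ?_
  rintro J hJ F A ⟨⟨HF, HN⟩, hcA, hA, hT⟩ V Cc z z' G c hcΨ u₀ hu₀
  obtain ⟨Vc, zc, hzc, hc⟩ := hcA V Cc z z' G c hcΨ u₀ hu₀
  have hlb := hΨl J F A V Cc z z' G c hcΨ
  have hJ1 : J₁ ≤ J := (le_max_left _ _).trans hJ
  have hJ2 : (J₂ : ℝ) ≤ J := by exact_mod_cast (le_max_right _ _).trans hJ
  have hJ0 : (0 : ℝ) ≤ J := Nat.cast_nonneg J
  have hl2 : 0 < Real.log 2 := Real.log_pos one_lt_two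
  have hl21 : Real.log 2 ≤ 1 := by
    have := Real.log_two_lt_d9
    linarith
  obtain ⟨W, hW⟩ : ∃ W : ℕ, W = ⌊w * J⌋₊ := ⟨_, rfl⟩
  obtain ⟨Q, hQ⟩ : ∃ Q : ℕ, Q = ⌊q * J⌋₊ := ⟨_, rfl⟩
  have hQ1 : (Q : ℝ) ≤ q * J := by
    rw [hQ]
    exact Nat.floor_le (by positivity)
  have hQ2 : q * J < Q + 1 := by
    rw [hQ]
    exact Nat.lt_floor_add_one _
  have hW1 : (W : ℝ) ≤ w * J := by
    rw [hW]
    exact Nat.floor_le (by positivity)
  have b1 : 0 ≤ CC / (δ₁ / 4 * q) := by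
    rw [hCC]
    positivity
  have b2 : 0 < ((Q₀ : ℝ) + 2) / q := by positivity
  have f1 : CC ≤ δ₁ / 4 * (q * J) := by
    have : CC / (δ₁ / 4 * q) ≤ J := by linarith
    rw [div_le_iff₀ (by positivity)] at this
    linarith
  have f2 : (Q₀ : ℝ) + 2 ≤ q * J := by
    have : ((Q₀ : ℝ) + 2) / q ≤ J := by linarith
    rw [div_le_iff₀ hq] at this
    linarith
  have hQ0 : Q₀ ≤ Q := by
    have : (Q₀ : ℝ) < Q := by linarith
    exact_mod_cast this.le
  have hWQ : W + Q ≤ J := by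
    have h1 : ((W + Q : ℕ) : ℝ) ≤ J := by
      push_cast
      have h2 : (w + q) * J ≤ 1 * J := mul_le_mul_of_nonneg_right hwq hJ0
      linarith
    exact_mod_cast h1
  have hWJ : W ≤ J := by omega
  have hM2 : J - W ≤ A' * Q := by
    have h1 : (2 : ℝ) ≤ q * J := by
      have : (0 : ℝ) ≤ Q₀ := Nat.cast_nonneg _
      linarith
    have h2 : (J : ℝ) ≤ A' * Q := by
      have h3 : q * J / 2 ≤ Q := by linarith
      have h4 : 2 / q * (q * J / 2) ≤ A' * Q :=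
        mul_le_mul hA' h3 (by positivity) (Nat.cast_nonneg _)
      have h5 : 2 / q * (q * J / 2) = J := by field_simp
      linarith
    have h3 : J ≤ A' * Q := by exact_mod_cast h2
    omega
  -- the constants
  have f3 : δ₁ * (q * J) - δ₁ ≤ δ₁ * Q := by
    have := mul_le_mul_of_nonneg_left hQ2.le hδ₁.le
    linarith only [this]
  have f4 : 0 ≤ δ₁ * (q * J) := by positivity
  have f5 : δ * q * J ≤ δ₁ / 16 * (q * J) := by
    rw [mul_assoc]
    exact mul_le_mul_of_nonneg_right hδa (by positivity)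
  have fa : Real.log 3 + δ₁ ≤ δ₁ / 4 * (q * J) := by
    rw [hCC] at f1
    linarith only [f1, l6, l5]
  have fb : c₆ + δ₁ ≤ δ₁ / 4 * (q * J) := by
    rw [hCC] at f1
    linarith only [f1, l3, l5]
  have fc : 2 * c₅ + 1 + δ₁ ≤ δ₁ / 4 * (q * J) := by
    rw [hCC] at f1
    linarith only [f1, l3, l6]
  clear f1 b1 b2 hJ₂ hCC
  obtain ⟨σ, hσ⟩ : ∃ σ : ℝ, σ = 2 ^ ((p + q) * J) := ⟨_, rfl⟩
  have hσ0 : 0 < σ := by
    rw [hσ]
    exact Real.rpow_pos_of_pos (by norm_num) _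
  obtain ⟨q', hq'⟩ : ∃ q' : F.Ω → ℝ, q' = Pool.Agent.H49.Ent.cond F.p A True := ⟨_, rfl⟩
  have hq'l : IsLaw q' := by
    rw [hq']
    exact isLaw_cond F.isLaw hA
  have h0 := hq'l.nonneg
  have hq'A : ∀ ω, 0 < q' ω → A ω := fun ω hω => by
    rw [hq'] at hω
    exact of_cond_pos hω
  rw [← hq'] at hc hT
  rw [← hq', ← hσ, ← hW]
  rw [← hW] at hlb
  have hvg : ∀ ω, vg w J F ω = slam F W ω := fun ω => by rw [hW]; rfl
  simp only [hvg] at hc ⊢
  have hdeg : ∀ v, (X (some κ) - G v).totalDegree ≤ D := fun v => by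
    refine (MvPolynomial.totalDegree_sub _ _).trans (max_le ?_ ?_)
    · exact (totalDegree_X _).le.trans (by omega)
    · exact (hlb.deg v).trans (by omega)
  -- the jets as integers
  obtain ⟨U, hU⟩ : ∃ U : F.Ω → Fin (D + 1) → ℤ, U = fun ω (j : Fin (D + 1)) =>
    ⌊(2 : ℝ) ^ (Nj (j : ℕ) * J) * ojet F κ (j : ℕ) (G (z' (slam F W ω))) ω⌋ := ⟨_, rfl⟩
  have hz : ∀ j : Fin (D + 1), ∃ (V₂ : Type) (z₂ : F.Ω → V₂), Cl2 (f J F) (vg a J F) A z₂ ∧
      CH q' (fun ω => U ω j) (fun ω => (u₀ ω, (z₂ ω, y J F ω))) ≤ η j * J := by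
    intro j
    have h1 := HF j j.2 u₀ (fun ω => U ω j) (Qu.mono (by omega) le_rfl hu₀)
      ⟨?_, V, z, z', G, ?_, fun ω _ => by rw [hU, hW]⟩
    · rw [← hq'] at h1
      exact h1
    · have hMj : M j ≤ M' := by
        rw [hM']
        have := Finset.single_le_sum (f := M) (fun i _ => Nat.zero_le _)
          (Finset.mem_range.2 j.2)
        omega
      have hJj : Jm j ≤ J := by
        have := Finset.single_le_sum (f := Jm) (fun i _ => Nat.zero_le _)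
          (Finset.mem_range.2 j.2)
        omega
      have h2 := hcnt j J hJj F I κ _ A V z z' G (by rw [← hW]; exact hlb)
      rw [← hW] at h2
      rw [hU]
      refine h2.trans (Real.exp_le_exp.2 (mul_le_mul_of_nonneg_right ?_ hJ0))
      exact_mod_cast hMj
    · rw [← hW]
      exact (LbP.of hlb).mono (Finset.Subset.refl _) (by omega) le_rfl
  choose Vz zz hzz hCz using hz
  -- the record of the ball
  obtain ⟨Y, hY⟩ : ∃ Y : F.Ω → U₀ × ((V × (F.ζ × ℕ)) × (Vc × (∀ j, Vz j))) × γ J F, Y = fun ω =>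
    (u₀ ω, ((z' (slam F W ω), (slam F W ω).2), (zc ω, fun j => zz j ω)), y J F ω) := ⟨_, rfl⟩
  obtain ⟨Gm, hGm⟩ : ∃ Gm : F.Ω →
      (U₀ × ((V × (F.ζ × ℕ)) × (Vc × (∀ j, Vz j))) × γ J F) × (ℤ × ℤ),
    Gm = fun ω => (Y ω, (U ω ⟨0, by omega⟩, if k = 2 then U ω ⟨1, by omega⟩ else 0)) := ⟨_, rfl⟩
  have hYU : CH q' U Y ≤ 3 * (δ * q) * J := by
    refine (CH_pis h0 U Y).trans ?_
    have h1 : ∀ j ∈ (univ : Finset (Fin (D + 1))), CH q' (fun ω => U ω j) Y ≤ η j * J := by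
      intro j _
      refine le_trans (CH_mono_cond h0 fun ω ω' _ _ hh => ?_) (hCz j)
      rw [hY] at hh
      simp only [Prod.mk.injEq] at hh ⊢
      exact ⟨hh.1, congrFun hh.2.1.2.2 j, hh.2.2⟩
    refine (Finset.sum_le_sum h1).trans ?_
    rw [← Finset.sum_mul, Fin.sum_univ_eq_sum_range η (D + 1)]
    exact mul_le_mul_of_nonneg_right hser hJ0
  have hYc : CH q' (fun ω => c (slam F W ω)) Y ≤ δ * q * J := by
    refine le_trans (CH_mono_cond h0 fun ω ω' _ _ hh => ?_) hc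
    rw [hY] at hh
    simp only [Prod.mk.injEq] at hh ⊢
    exact ⟨hh.1, hh.2.1.2.1, hh.2.2⟩
  have hGY : ∀ ω ω', Gm ω = Gm ω' → Y ω = Y ω' := fun ω ω' e => by
    rw [hGm] at e
    exact (Prod.ext_iff.mp e).1
  have hGT : ∀ ω ω', Gm ω = Gm ω' → F.T ω = F.T ω' ∧
      z' (slam F W ω) = z' (slam F W ω') ∧ (slam F W ω).2 = (slam F W ω').2 := fun ω ω' e => by
    have e1 := hGY ω ω' e
    rw [hY] at e1
    simp only [Prod.mk.injEq] at e1
    obtain ⟨φ, hφ⟩ := hy J F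
    refine ⟨?_, e1.2.1.1.1, e1.2.1.1.2⟩
    rw [hφ, hφ, e1.2.2]
  -- the scales
  have hU1 : ∀ (j : ℕ) (hj : j < D + 1), j ≠ k → ∀ ω ω', U ω ⟨j, hj⟩ = U ω' ⟨j, hj⟩ →
      |σ * (1 / 2 ^ (W + 1)) ^ j * ojet F κ j (G (z' (slam F W ω))) ω -
        σ * (1 / 2 ^ (W + 1)) ^ j * ojet F κ j (G (z' (slam F W ω'))) ω'| ≤ 1 := by
    intro j hj hjk ω ω' e
    rw [hU] at e
    have e1 : Nj j = p + q - j * w := by
      rw [hNj]
      exact if_neg hjk
    simp only [e1] at e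
    refine fl_scale (by positivity) ?_ (Real.rpow_pos_of_pos (by norm_num) _) e
    rw [one_mul, hσ, hW]
    exact (scale_le hw0 J j).1
  have hUk : ∀ (hj : k < D + 1) (ω ω' : F.Ω), U ω ⟨k, hj⟩ = U ω' ⟨k, hj⟩ →
      |σ * (1 / 2 ^ (W + 1)) ^ k * ojet F κ k (G (z' (slam F W ω))) ω -
        σ * (1 / 2 ^ (W + 1)) ^ k * ojet F κ k (G (z' (slam F W ω'))) ω'| ≤ 2 * 2 ^ Q := by
    intro hj ω ω' e
    rw [hU] at e
    have e1 : Nj k = p - k * w := by
      rw [hNj]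
      exact if_pos rfl
    simp only [e1] at e
    refine fl_scale (by positivity) ?_ (Real.rpow_pos_of_pos (by norm_num) _) e
    have e2 : σ * (1 / 2 ^ (W + 1)) ^ k ≤ 2 ^ ((p + q - k * w) * J) := by
      rw [hσ, hW]
      exact (scale_le hw0 J k).1
    refine e2.trans ?_
    have e3 : (2 : ℝ) ^ ((p + q - k * w) * J) = 2 ^ (q * J) * 2 ^ ((p - k * w) * J) := by
      rw [← Real.rpow_add (by norm_num)]
      congr 1
      ring
    rw [e3]
    refine mul_le_mul_of_nonneg_right ?_ (Real.rpow_pos_of_pos (by norm_num) _).le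
    have e4 : (2 : ℝ) * 2 ^ Q = 2 ^ ((Q : ℝ) + 1) := by
      rw [Real.rpow_add (by norm_num), Real.rpow_one, Real.rpow_natCast, mul_comm]
    rw [e4]
    exact Real.rpow_le_rpow_of_exponent_le (by norm_num) hQ2.le
  -- the data
  have hG : ∀ ω ω', 0 < q' ω → 0 < q' ω' → Gm ω = Gm ω' → F.T ω = F.T ω' ∧
      |σ * ojet F κ 0 (G (z' (slam F W ω))) ω - σ * ojet F κ 0 (G (z' (slam F W ω'))) ω'| ≤ 1 ∧
      (k = 2 → |σ * (1 / 2 ^ (W + 1)) * ojet F κ 1 (G (z' (slam F W ω))) ω -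
        σ * (1 / 2 ^ (W + 1)) * ojet F κ 1 (G (z' (slam F W ω'))) ω'| ≤ 1) := by
    intro ω ω' _ _ e
    have e1 : (U ω ⟨0, by omega⟩, if k = 2 then U ω ⟨1, by omega⟩ else 0) =
        (U ω' ⟨0, by omega⟩, if k = 2 then U ω' ⟨1, by omega⟩ else 0) := by
      rw [hGm] at e
      exact (Prod.ext_iff.mp e).2
    refine ⟨(hGT ω ω' e).1, ?_, fun hk2 => ?_⟩
    · have := hU1 0 (by omega) (by omega) ω ω' (Prod.ext_iff.mp e1).1
      rwa [pow_zero, mul_one] at this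
    · have e2 := (Prod.ext_iff.mp e1).2
      simp only [if_pos hk2] at e2
      have := hU1 1 (by omega) (by omega) ω ω' e2
      rwa [pow_one] at this
  have hc0 : CH q' (fun ω => cty Q (jctx F W σ κ z' G k D c) (jr F W σ κ z' G 0)
      (jr F W σ κ z' G 1) (fun x => if k = 1 then 0 else jr F W σ κ z' G 2 x) 0 (slam F W ω))
      Gm ≤ δ₁ * Q := by
    have h1 := Hc hk (Q := Q) (σ := σ) (κ := κ) (zl := z') (G := G) hq'l hdeg hWJ c Gm U
      (B := 2) (by norm_num) (fun ω ω' _ _ e => hGT ω ω' e) (fun ω ω' _ _ _ e =>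
        ⟨fun j hj hjk => hU1 j (by omega) hjk ω ω' (congrFun e _),
          hUk (by omega) ω ω' (congrFun e _)⟩)
    have h2 : CH q' (fun ω => c (slam F W ω)) Gm ≤ δ * q * J :=
      (CH_mono_cond h0 fun ω ω' _ _ e => hGY ω ω' e).trans hYc
    have h3 : CH q' U Gm ≤ 3 * (δ * q) * J :=
      (CH_mono_cond h0 fun ω ω' _ _ e => hGY ω ω' e).trans hYU
    rw [← hc₆] at h1
    linarith only [h1, h2, h3, f5, fb, f3, f4]
  have hnf' : ∀ E : F.Ω → Prop, c₀ ≤ Pool.Agent.H49.Ent.law q' E True → ∀ y' ≤ Q,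
      CH (Pool.Agent.H49.Ent.cond q' E True)
        (fun ω => ⌊pth (2 ^ (J - W)) (jctx F W σ κ z' G k D c) (jr F W σ κ z' G 0)
          (jr F W σ κ z' G 1) (fun x => if k = 1 then 0 else jr F W σ κ z' G 2 x)
          (jg (2 ^ (J - W)) D) (slam F W ω) (tw F W ω)⌋)
        (fun ω => (⌊pth (2 ^ (J - W)) (jctx F W σ κ z' G k D c) (jr F W σ κ z' G 0)
          (jr F W σ κ z' G 1) (fun x => if k = 1 then 0 else jr F W σ κ z' G 2 x)
          (jg (2 ^ (J - W)) D) (slam F W ω) (tw F W ω) / 2 ^ (Q - y')⌋,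
          (tw F W ω, jctx F W σ κ z' G k D c (slam F W ω)))) ≤
        (1 - h) * (((Q : ℝ) - y') * Real.log 2) + δ₁ * Q := by
    intro E hE y' hy'
    have hyr : (y' : ℝ) ≤ Q := by exact_mod_cast hy'
    obtain ⟨B, hB⟩ : ∃ B : F.Ω → Prop, B = fun ω => A ω ∧ E ω := ⟨_, rfl⟩
    have hBA : Sub B A := fun ω hω => by
      rw [hB] at hω
      exact hω.1
    have e1 : Pool.Agent.H49.Ent.cond q' E True = Pool.Agent.H49.Ent.cond F.p B True := by
      rw [hq', hB]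
      exact Pool.K2S.Piece.cond_inter hA.ne'
    have e2 : Pool.Agent.H49.Ent.law q' E True = Pe F.p B / Pe F.p A := by
      rw [hq', hB]
      exact Pool.K2S.Pe_cond E
    rw [e2, le_div_iff₀ hA] at hE
    have hPB : 0 < Pe F.p B := lt_of_lt_of_le (by positivity) hE
    have hpart : Pe F.p A ≤ 1 / c₀ * Pe F.p B := by
      rw [one_div, ← div_eq_inv_mul, le_div_iff₀ hc₀]
      linarith
    have hBl : IsLaw (Pool.Agent.H49.Ent.cond F.p B True) := isLaw_cond F.isLaw hPB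
    -- the mesh
    have hqJ : 0 < q * J := by linarith [(Nat.cast_nonneg Q₀ : (0 : ℝ) ≤ Q₀)]
    obtain ⟨i, hi⟩ : ∃ i : ℕ, i = ⌊(y' : ℝ) * N₀ / (q * J)⌋₊ := ⟨_, rfl⟩
    have i1 : (i : ℝ) * (q * J) ≤ y' * N₀ := by
      rw [← le_div_iff₀ hqJ, hi]
      exact Nat.floor_le (by positivity)
    have i2 : (y' : ℝ) * N₀ < (i + 1) * (q * J) := by
      rw [← div_lt_iff₀ hqJ, hi]
      exact Nat.lt_floor_add_one _
    have i3 : i < N₀ + 1 := by
      have h1 : (i : ℝ) * (q * J) ≤ N₀ * (q * J) := by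
        refine i1.trans ?_
        rw [mul_comm]
        exact mul_le_mul_of_nonneg_left (hyr.trans hQ1) hN0.le
      have h2 : (i : ℝ) ≤ N₀ := le_of_mul_le_mul_right h1 hqJ
      have h3 : i ≤ N₀ := by exact_mod_cast h2
      omega
    obtain ⟨x, hx⟩ : ∃ x : ℝ, x = q * i / N₀ := ⟨_, rfl⟩
    have x1 : x * J ≤ y' := by
      rw [hx, div_mul_eq_mul_div, div_le_iff₀ hN0]
      linarith
    have x2 : y' ≤ x * J + q * J / N₀ := by
      rw [hx]
      have : q * i / N₀ * J + q * J / N₀ = ((i + 1) * (q * J)) / N₀ := by ring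
      rw [this, le_div_iff₀ hN0]
      exact i2.le
    have h1 := HN i i3 B hBA hpart V Cc z z' G c (hΨ _ _ _ _ _ _ _ _ _ _ hBA hcΨ)
    rw [← hx, ← hW, ← hσ] at h1
    -- the change of the height
    rw [e1]
    obtain ⟨P, hP⟩ : ∃ P : F.Ω → ℝ, P = fun ω => pth (2 ^ (J - W))
      (jctx F W σ κ z' G k D c) (jr F W σ κ z' G 0) (jr F W σ κ z' G 1)
      (fun x => if k = 1 then 0 else jr F W σ κ z' G 2 x) (jg (2 ^ (J - W)) D)
      (slam F W ω) (tw F W ω) := ⟨_, rfl⟩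
    have hXP : ∀ ω, |σ * ojet F κ 0 (G (z' (slam F W ω))) ω - P ω| ≤ ((D + 1 : ℕ) : ℝ) := by
      intro ω
      have g1 := jpth_near (w := W) (σ := σ) (zl := z') hk hD2 hdeg c (slam F W ω)
        (Nat.one_le_two_pow (n := J - W)) (tw_abs F W ω)
      have g2 := jR_jet (σ := σ) (κ := κ) (zl := z') (G := G) hWJ ω 0
      rw [Function.iterate_zero, id, pow_zero, mul_one] at g2
      have g3 : uw F W ω = ((tw F W ω : ℤ) : ℝ) / ((2 ^ (J - W) : ℕ) : ℝ) := rfl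
      rw [g3] at g2
      rw [g2] at g1
      rw [hP]
      push_cast at g1 ⊢
      exact g1
    obtain ⟨t, ht⟩ : ∃ t : ℝ, t = 2 ^ (-((q - x) * J)) := ⟨_, rfl⟩
    have ht0 : 0 < t := by
      rw [ht]
      exact Real.rpow_pos_of_pos (by norm_num) _
    have key := row_nf hBl (fun ω => σ * ojet F κ 0 (G (z' (slam F W ω))) ω) P
      (fun ω _ => hXP ω) (μ := 2 ^ (Q - y')) (t := t) (one_le_pow₀ (by norm_num)) ht0.le (by
        rw [ht, ← Real.rpow_natCast, ← Real.rpow_add (by norm_num)]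
        refine Real.rpow_le_one_of_one_le_of_nonpos (by norm_num) ?_
        rw [Nat.cast_sub hy']
        linarith)
      (fun ω => (tw F W ω, jctx F W σ κ z' G k D c (slam F W ω)))
      (fun ω => (z' (slam F W ω), (c (slam F W ω), F.W ω))) (fun ω ω' _ _ e => by
        unfold jctx at e
        simp only [Prod.mk.injEq] at e
        obtain ⟨e3, ⟨e4, e5⟩, e6, -⟩ := e
        have e7 : F.Z ω = F.Z ω' := (Prod.ext_iff.mp e5).1
        have e8 : F.T1 W ω = F.T1 W ω' := (Prod.ext_iff.mp e5).2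
        have e9 : F.W ω = F.W ω' := Prod.ext (T_tw F W e8 e3) e7
        rw [e4, e6, e9])
    rw [hP, ← hc₅] at key
    refine key.trans ?_
    have e3 : (fun ω => (⌊t * (σ * ojet F κ 0 (G (z' (slam F W ω))) ω)⌋,
        (z' (slam F W ω), (c (slam F W ω), F.W ω)))) = (fun ω =>
        (⌊(2 : ℝ) ^ ((p + x) * J) * ojet F κ 0 (G (z' (slam F W ω))) ω⌋,
          (z' (slam F W ω), (c (slam F W ω), F.W ω)))) := by
      funext ω
      have : t * σ = 2 ^ ((p + x) * J) := by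
        rw [ht, hσ, ← Real.rpow_add (by norm_num)]
        congr 1
        ring
      rw [← mul_assoc, this]
    rw [e3]
    have g1 : (q - x) * J ≤ (Q - y') + (1 + q * J / N₀) := by linarith
    have g2 : q * J / N₀ ≤ δ₁ / 16 * (q * J) := by
      rw [div_le_iff₀ hN0]
      have a1 : 1 ≤ δ₁ / 16 * N₀ := by
        rw [div_le_iff₀ hδ₁] at hN₀
        linarith only [hN₀]
      have a2 := mul_le_mul_of_nonneg_left a1 hqJ.le
      linarith only [a2]
    have g3 : (1 - h) * (q - x) * Real.log 2 * J ≤ (1 - h) * (((Q : ℝ) - y') * Real.log 2) +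
        (1 + q * J / N₀) := by
      have g4 : (1 - h) * Real.log 2 * ((q - x) * J) ≤
          (1 - h) * Real.log 2 * ((Q - y') + (1 + q * J / N₀)) :=
        mul_le_mul_of_nonneg_left g1 (mul_nonneg (by linarith only [hh1]) hl2.le)
      have g5 : (1 - h) * Real.log 2 ≤ 1 := by
        have a1 := mul_le_mul_of_nonneg_left hl21 (by linarith only [hh1] : 0 ≤ 1 - h)
        linarith only [a1, hh]
      have g6 : 0 ≤ 1 + q * J / N₀ := by positivity
      have g7 := mul_le_mul_of_nonneg_right g5 g6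
      linarith only [g4, g7]
    linarith only [h1, g3, g2, f5, fc, f3, f4]
  have htf : Real.log (2 * ((2 ^ (J - W) : ℕ) : ℝ) + 1) - δ₁ * Q ≤
      CH q' (tw F W) (slam F W) := by
    have h1 := tw_full F hq'l hWJ (e := δ₁ / 8 * q * J) hT
    linarith only [h1, f3, f4, fa]
  have hdat := Hj (k := k) (A' := A') hk hD2 (F := F) (w := W) (Q := Q) (σ := σ) (κ := κ)
    (zl := z') (G := G) (q := q') hq'l hdeg hWQ hM2 hσ0.le c Gm (h := h) (δ := δ₁)
    (c₀ := c₀) hG htf hδ₁.le hc0 hnf'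
  have hfin := Hnpl Q hQ0 _ _ _ _ _ _ _ _ _ _ _ _ _ _ _ _ _ hdat
  -- the end
  obtain ⟨φf, hφf⟩ := hf J F
  obtain ⟨φg, hφg⟩ := vg_mono hwa ha J F
  refine ⟨_, fun ω => ((z' (slam F W ω), (slam F W ω).2), (zc ω, fun j => zz j ω)),
    Cl2.join ⟨?_, ?_⟩ (Cl2.join hzc (Cl2.pi hzz)), ?_⟩
  · refine ⟨fun x => (z (φf x), ((φf x).2.2, (φf x).2.1 / 2 ^ (J - W))), fun ω hω => ?_⟩
    dsimp only
    rw [← hφf ω, hlb.cls ω hω]
    rfl
  · refine ⟨fun x => (z' (φg x), (φg x).2), fun ω _ => ?_⟩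
    dsimp only
    rw [← hφg ω, hvg ω]
  · have s1 := CH_le_add h0 (fun ω => ((z' (slam F W ω), (slam F W ω).2),
      (c (slam F W ω), fun j : Fin (K + 3) => ⌊jr F W σ κ z' G j (slam F W ω)⌋))) U Y
    have s2 : CH q' (fun ω => ((z' (slam F W ω), (slam F W ω).2),
        (c (slam F W ω), fun j : Fin (K + 3) => ⌊jr F W σ κ z' G j (slam F W ω)⌋)))
        (fun ω => (U ω, Y ω)) ≤ ε / 2 * Q := by
      refine le_trans ?_ hfin
      refine (CH_mono_cond h0 (W := Gm) fun ω ω' _ _ e => ?_).trans (CH_mono_left h0 ?_)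
      · simp only [Prod.mk.injEq] at e
        rw [hGm]
        dsimp only
        rw [e.1, e.2]
      · intro ω ω' _ _ e
        have e0 := (Prod.ext_iff.mp e).1
        unfold jctx at e0
        simp only [Prod.mk.injEq] at e0
        obtain ⟨⟨⟨e1, e2⟩, e3, e4⟩, e5, e6, e7⟩ := e0
        have e8 : ∀ j : Fin (D + 1), ⌊jr F W σ κ z' G j (slam F W ω)⌋ =
            ⌊jr F W σ κ z' G j (slam F W ω')⌋ := by
          intro j
          by_cases hj : k < (j : ℕ)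
          · have := congrFun e4 j
            simp only [if_pos hj] at this
            exact this
          · obtain ⟨j, hj2⟩ := j
            simp only at hj ⊢
            have hj3 : j ≤ 2 := by
              rcases hk with rfl | rfl <;> omega
            interval_cases j
            · exact e5
            · exact e6
            · have hk2 : ¬ k = 1 := by omega
              simp only [if_neg hk2] at e7
              exact e7
        subst hD
        simp only [Prod.mk.injEq]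
        exact ⟨⟨e1, e2⟩, e3, funext fun j => e8 j⟩
    have s3 : CH q' (fun ω => ((z' (slam F W ω), (slam F W ω).2),
        (c (slam F W ω), fun j : Fin (K + 3) => ⌊jr F W σ κ z' G j (slam F W ω)⌋))) Y ≤
        ε * q * J := by
      have g1 : ε / 2 * Q ≤ ε / 2 * (q * J) := mul_le_mul_of_nonneg_left hQ1 (by positivity)
      have g2 : δ * q * J ≤ ε / 16 * (q * J) := by
        rw [mul_assoc]
        exact mul_le_mul_of_nonneg_right hδb (by positivity)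
      have g3 : 0 ≤ ε * (q * J) := by positivity
      linarith only [s1, s2, hYU, g1, g2, g3]
    rw [hY] at s3
    exact s3

end Pool.OWN68
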