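import Pool.Agent.H68.OWN.Ni

/-!
# Chains of windows with moving charts, over a nested chain

`chainM`: the jets of `κ` over the labels of the windows `b 0, …, b n`, relative to a quantity `Q`
which determines the jets of the chain over the labels of EVERY window. `chain_to`: from a window `x`
to a window `y`, in small steps. `jet_lo`, `jet_hi`, `jet_al`: the jets of order below, above and
equal to `k`, to the digits `P β + (λ - (β - w)⁺) - j β`.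
-/

set_option autoImplicit false

namespace Pool.OWN68

open Finset Real MvPolynomial
open Pool.Agent.H49.Ent Pool.Agent.H32.Dense Pool.STK Pool.KA Pool.KSAT Pool.K2S Pool.PB Pool.GEN
open Pool.S6C Pool.RCD Pool.LA91

variable {m : ℕ} {U : Type} {α γ : ∀ J : ℕ, Fam m J → Type}
  {f : ∀ (J : ℕ) (F : Fam m J), F.Ω → α J F} {y : ∀ (J : ℕ) (F : Fam m J), F.Ω → γ J F}
  {S : PCl m} {C₀ : ℝ}

/-- **A chain of windows**, with the jets of the chain at every window. -/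
theorem chainM (htm : TmC S C₀) {c : ℕ → Fin m} {r₀ r : ℕ} {κ : Fin m} {j : ℕ}
    {a rk p₀ lam N N₁ ρ : ℝ} {Pv : ℕ → ℝ → ℝ} {Lm : ℕ → ℝ → ℝ} {Q : Qt m U}
    (hrk : 0 ≤ rk) (ha : a < 1) (hap : a < p₀) (hp0 : p₀ ≤ 1) (hlam : 0 < lam) (hρ : 0 < ρ)
    (hf : ∀ (J : ℕ) (F : Fam m J), ∃ φ : α J F → PtT F, ∀ ω, ptr F J ω = φ (f J F ω))
    (hy : Kn ((range r₀).image c) p₀ lam y) (hN : N ≤ N₁)
    (b P : ℕ → ℝ)
    (hst : ∀ h : ℝ, 0 < h → F1 S f (vg a) y Q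
      (qJet m ((range r).image c) κ j (b 0) (P 0) N₁) (ρ / 8) h) : ∀ n : ℕ,
    (∀ i ≤ n, 0 ≤ b i) → (∀ i ≤ n, b i ≤ a) →
    (∀ i ≤ n, Att S ((range r).image c) κ (b i) (P i) rk) →
    (∀ i ≤ n, ∃ (u₁ : ℝ) (rd : ℕ → ℝ), Chn S c r₀ r (b i) (b i) u₁ (fun l => Pv l (b i)) rd ∧
      ∀ l, r₀ ≤ l → l < r → 0 ≤ rd l) →
    (∀ i ≤ n, ∀ h : ℝ, 0 < h → F1 S f (vg a) y Q
      (qJets m c r₀ r j (fun _ _ => b i) (fun l _ => Pv l (b i))
        (fun l j' => Pv l (b i) + Lm l (b i) - j' * b i)) (ρ / 8) h) →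
    (∀ i ≤ n, ∀ l, r₀ ≤ l → l < r → ρ < Lm l (b i)) →
    (∀ i ≤ n, ∀ l, r₀ ≤ l → l < r → Lm l (b i) ≤ min lam (p₀ - b i)) →
    (∀ i ≤ n, ∀ l, r₀ ≤ l → l < r → ∀ l', r₀ ≤ l' → l' < l →
      Lm l (b i) + ρ ≤ Lm l' (b i)) →
    N + j * b 0 + ρ ≤ P 0 + min lam (p₀ - b 0) →
    (∀ l, r₀ ≤ l → l < r → N + j * b 0 + 2 * ρ ≤ P 0 + Lm l (b 0)) →
    (∀ i < n, N + j * max (b i) (b (i + 1)) + ρ ≤
      min (P i) (P (i + 1)) + min lam (p₀ - max (b i) (b (i + 1)))) →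
    (∀ i < n, ∀ l, r₀ ≤ l → l < r → N + j * max (b i) (b (i + 1)) + 2 * ρ ≤
      min (P i) (P (i + 1)) + Lm l (max (b i) (b (i + 1)))) →
    ∀ h : ℝ, 0 < h → F1 S f (vg a) y Q (qJet m ((range r).image c) κ j (b n) (P n) N)
      (ρ / 8) h := by
  -- one step
  have step : ∀ (w₁ w₂ β p₁ p₂ Na Nb : ℝ), w₁ ≤ β → w₂ ≤ β → β ≤ a → 0 ≤ β →
      Att S ((range r).image c) κ w₁ p₁ rk →
      (∃ (u₁ : ℝ) (rd : ℕ → ℝ), Chn S c r₀ r β β u₁ (fun l => Pv l β) rd ∧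
        ∀ l, r₀ ≤ l → l < r → 0 ≤ rd l) →
      (∀ h : ℝ, 0 < h → F1 S f (vg a) y Q
        (qJets m c r₀ r j (fun _ _ => β) (fun l _ => Pv l β)
          (fun l j' => Pv l β + Lm l β - j' * β)) (ρ / 8) h) →
      (∀ l, r₀ ≤ l → l < r → ρ < Lm l β) →
      (∀ l, r₀ ≤ l → l < r → Lm l β ≤ min lam (p₀ - β)) →
      (∀ l, r₀ ≤ l → l < r → ∀ l', r₀ ≤ l' → l' < l → Lm l β + ρ ≤ Lm l' β) → Nb ≤ Na →
      Nb + j * β + ρ ≤ min p₁ p₂ + min lam (p₀ - β) →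
      (∀ l, r₀ ≤ l → l < r → Nb + j * β + 2 * ρ ≤ min p₁ p₂ + Lm l β) →
      (∀ h : ℝ, 0 < h → F1 S f (vg a) y Q (qJet m ((range r).image c) κ j w₁ p₁ Na)
        (ρ / 8) h) →
      ∀ h : ℝ, 0 < h → F1 S f (vg a) y Q (qJet m ((range r).image c) κ j w₂ p₂ Nb)
        (ρ / 8) h := by
    intro w₁ w₂ β p₁ p₂ Na Nb h1 h2 h3 h4 h5 h6 h7 h8 h9 h10 h11 h12 h13 h14 h hh
    obtain ⟨u₁, rd, hch, hrd⟩ := h6
    have e2 := jetN_F1 (y := y) htm hch (k := κ) (j := j) (wv := fun _ _ => β)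
      (pv := fun i _ => Pv i β) (Nv := fun l j' => Pv l β + Lm l β - j' * β)
      (lv := fun l => Lm l β - ρ) (w₁ := w₁) (w₂ := w₂)
      (p₁ := p₁) (p₂ := p₂) (N₁ := Na) (N₂ := Nb) (p₀ := p₀) (lam := lam) (σ₀ := ρ)
      (fun _ _ _ _ _ => le_rfl) h1 h2 (lt_of_le_of_lt h3 hap) hp0 hlam hρ
      (fun l x1 x2 => by linarith [h8 l x1 x2])
      (fun l x1 x2 j' _ => le_of_eq (by ring))
      (fun l x1 x2 j' _ => by
        rw [min_self]
        linarith [h9 l x1 x2])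
      (fun l x1 x2 j' _ l' x3 x4 => by
        rw [min_self]
        linarith [h10 l x1 x2 l' x3 x4]) h11 h12
      (fun l x1 x2 => by linarith [h13 l x1 x2]) hf hy (h := h / 3) (by linarith)
    have e3 := F1.pair htm (h7 (h / 3) (by linarith)) (h14 (h / 3) (by linarith))
    have e4 := F1.trans htm ((exs_qjets fun i hi0 hi j' _ => exs_jet (hrd i hi0 hi)
      (hch.att i hi0 hi)).prod (exs_jet hrk h5)) (by linarith) e3 (e2.up h3 ha.le)
    have e5 : h / 3 + h / 3 + h / 3 = h := by ring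
    rwa [e5] at e4
  intro n
  induction n with
  | zero =>
    intro h0 h1 h3 h4 hV h5 h6 h7 h8 h9 h10 h11 h hh
    exact step (b 0) (b 0) (b 0) (P 0) (P 0) N₁ N le_rfl le_rfl (h1 0 le_rfl) (h0 0 le_rfl)
      (h3 0 le_rfl) (h4 0 le_rfl) (hV 0 le_rfl) (h5 0 le_rfl) (h6 0 le_rfl) (h7 0 le_rfl) hN
      (by rw [min_self]; exact h8) (fun l a b => by rw [min_self]; exact h9 l a b) hst h hh
  | succ n ih =>
    intro h0 h1 h3 h4 hV h5 h6 h7 h8 h9 h10 h11 h hh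
    have e1 := ih (fun i hi => h0 i (by omega)) (fun i hi => h1 i (by omega))
      (fun i hi => h3 i (by omega)) (fun i hi => h4 i (by omega)) (fun i hi => hV i (by omega))
      (fun i hi => h5 i (by omega)) (fun i hi => h6 i (by omega)) (fun i hi => h7 i (by omega))
      h8 h9 (fun i hi => h10 i (by omega)) (fun i hi => h11 i (by omega))
    obtain ⟨β, hβ⟩ : ∃ β : ℝ, β = max (b n) (b (n + 1)) := ⟨_, rfl⟩
    have hm1 : β ≤ a := by
      rw [hβ]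
      exact max_le (h1 n (by omega)) (h1 (n + 1) le_rfl)
    have hbn : b n ≤ β := by rw [hβ]; exact le_max_left _ _
    have hbn1 : b (n + 1) ≤ β := by rw [hβ]; exact le_max_right _ _
    have hβc : ∃ i ≤ n + 1, b i = β := by
      rcases max_cases (b n) (b (n + 1)) with ⟨e, -⟩ | ⟨e, -⟩
      · exact ⟨n, by omega, by rw [hβ, e]⟩
      · exact ⟨n + 1, le_rfl, by rw [hβ, e]⟩
    obtain ⟨i₀, hi₀, hbi⟩ := hβc
    have g10 := h10 n (Nat.lt_succ_self n)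
    have g11 := h11 n (Nat.lt_succ_self n)
    rw [← hβ] at g10 g11
    have a0 := h0 i₀ hi₀
    have a4 := h4 i₀ hi₀
    have aV := hV i₀ hi₀
    have a5 := h5 i₀ hi₀
    have a6 := h6 i₀ hi₀
    have a7 := h7 i₀ hi₀
    rw [hbi] at a0 a4 aV a5 a6 a7
    exact step (b n) (b (n + 1)) β (P n) (P (n + 1)) N N hbn hbn1 hm1 a0 (h3 n (by omega)) a4 aV
      a5 a6 a7 le_rfl g10 g11 e1 h hh

/-- **From a window to another window**, in small steps. -/
theorem chain_to (htm : TmC S C₀) {c : ℕ → Fin m} {r₀ r : ℕ} {κ : Fin m} {G : ℝ → Prop}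
    {Pv : ℕ → ℝ → ℝ} {P : ℝ → ℝ} {rk lo hi S₁ S₂ τ : ℝ} {a w lam ρ ν N N₁ : ℝ} {j : ℕ}
    {Lm : ℕ → ℝ → ℝ} {Q : Qt m U} (hP : ProfN S c r₀ r κ G Pv P rk lo hi S₁ S₂ τ)
    (hrk : 0 ≤ rk) (hlo : 0 ≤ lo) (hhi : hi ≤ a) (ha : a < w + lam) (hwl : w + lam ≤ 1)
    (hlam : 0 < lam) (hS₂ : 0 ≤ S₂)
    (hf : ∀ (J : ℕ) (F : Fam m J), ∃ φ : α J F → PtT F, ∀ ω, ptr F J ω = φ (f J F ω))
    (hy : Kn ((range r₀).image c) (w + lam) lam y) (hρ : 0 < ρ) (hν : 0 < ν)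
    (hV : ∀ β : ℝ, lo ≤ β → β ≤ hi → G β → ∀ h : ℝ, 0 < h → F1 S f (vg a) y Q
      (qJets m c r₀ r j (fun _ _ => β) (fun l _ => Pv l β)
        (fun l j' => Pv l β + Lm l β - j' * β)) (ρ / 8) h)
    (hl0 : ∀ β : ℝ, lo ≤ β → β ≤ hi → ∀ l, r₀ ≤ l → l < r → ρ < Lm l β)
    (hl2 : ∀ β : ℝ, lo ≤ β → β ≤ hi → ∀ l, r₀ ≤ l → l < r → Lm l β ≤ min lam (w + lam - β))
    (hl3 : ∀ β : ℝ, lo ≤ β → β ≤ hi → ∀ l, r₀ ≤ l → l < r → ∀ l', r₀ ≤ l' → l' < l →
      Lm l β + ρ ≤ Lm l' β)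
    {x z : ℝ} (hx : lo ≤ x) (hx' : x ≤ hi) (hGx : G x) (hz : lo ≤ z) (hz' : z ≤ hi) (hGz : G z)
    (hst : ∀ h : ℝ, 0 < h → F1 S f (vg a) y Q
      (qJet m ((range r).image c) κ j x (P x) N₁) (ρ / 8) h) (hN : N ≤ N₁)
    (hc1 : ∀ β : ℝ, min x z ≤ β → β ≤ max x z →
      N + j * β + ρ + τ + ν ≤ P β + min lam (w + lam - β))
    (hc2 : ∀ β : ℝ, min x z ≤ β → β ≤ max x z → ∀ l, r₀ ≤ l → l < r →
      N + j * β + 2 * ρ + τ + ν ≤ P β + Lm l β) :
    ∀ h : ℝ, 0 < h → F1 S f (vg a) y Q (qJet m ((range r).image c) κ j z (P z) N)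
      (ρ / 8) h := by
  have hS1 : 0 < S₂ + 1 := by linarith
  obtain ⟨μ, hμ⟩ : ∃ μ : ℝ, μ = ν / (S₂ + 1) := ⟨_, rfl⟩
  have hμ0 : 0 < μ := by
    rw [hμ]
    exact div_pos hν hS1
  have hμ2 : S₂ * μ ≤ ν := by
    have e1 : μ * (S₂ + 1) = ν := by
      rw [hμ]
      field_simp
    linarith
  have hτ : 0 ≤ τ := by
    have := hP.up x x hx le_rfl hx'
    rw [sub_self, sub_self, mul_zero, zero_add] at this
    exact this
  -- a sequence of windows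
  have key : ∃ (n : ℕ) (b : ℕ → ℝ), b 0 = x ∧ b n = z ∧ (∀ i ≤ n, G (b i) ∧ min x z ≤ b i ∧
      b i ≤ max x z) ∧ ∀ i < n, max (b i) (b (i + 1)) ≤ min (b i) (b (i + 1)) + μ := by
    rcases le_total x z with hxz | hxz
    · obtain ⟨n, b, hB0, hBn, hBs, hBG⟩ := mesh hxz hGx hGz (hP.dns.sub hx hz') hμ0
      rw [min_eq_left hxz, max_eq_right hxz]
      refine ⟨n, b, hB0, hBn, hBG, fun i hi => ?_⟩
      rw [max_eq_right (hBs i hi).1, min_eq_left (hBs i hi).1]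
      exact (hBs i hi).2
    · obtain ⟨n, b', hb0, hbn, hbs, hbG⟩ := mesh hxz hGz hGx (hP.dns.sub hz hx') hμ0
      rw [min_eq_right hxz, max_eq_left hxz]
      refine ⟨n, fun i => b' (n - i), ?_, ?_, fun i hi => hbG _ (Nat.sub_le _ _),
        fun i hi => ?_⟩
      · show b' (n - 0) = x
        rw [Nat.sub_zero, hbn]
      · show b' (n - n) = z
        rw [Nat.sub_self, hb0]
      · have h1 := hbs (n - (i + 1)) (by omega)
        have e1 : n - (i + 1) + 1 = n - i := by omega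
        rw [e1] at h1
        show max (b' (n - i)) (b' (n - (i + 1))) ≤ min (b' (n - i)) (b' (n - (i + 1))) + μ
        rw [max_eq_left h1.1, min_eq_right h1.1]
        exact h1.2
  obtain ⟨n, b, hB0, hBn, hBG, hBs⟩ := key
  have hmn : lo ≤ min x z := le_min hx hz
  have hmx : max x z ≤ hi := max_le hx' hz'
  have hBl : ∀ i ≤ n, lo ≤ b i := fun i hi => hmn.trans (hBG i hi).2.1
  have hBh : ∀ i ≤ n, b i ≤ hi := fun i hi' => (hBG i hi').2.2.trans hmx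
  -- the smaller of two neighbours
  have hnb : ∀ i < n, P (max (b i) (b (i + 1))) - ν - τ ≤ min (P (b i)) (P (b (i + 1))) := by
    intro i hi
    have h1 := hBs i hi
    have g1 := hBl i hi.le
    have g2 := hBl (i + 1) hi
    have g3 := hBh i hi.le
    have g4 := hBh (i + 1) hi
    rcases le_total (b i) (b (i + 1)) with hb | hb
    · rw [max_eq_right hb] at h1 ⊢
      rw [min_eq_left hb] at h1
      have h2 := hP.up (b i) (b (i + 1)) g1 hb g4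
      have h3 : S₂ * (b (i + 1) - b i) ≤ S₂ * μ := mul_le_mul_of_nonneg_left (by linarith) hS₂
      refine le_min (by linarith) (by linarith)
    · rw [max_eq_left hb] at h1 ⊢
      rw [min_eq_right hb] at h1
      have h2 := hP.up (b (i + 1)) (b i) g2 hb g3
      have h3 : S₂ * (b i - b (i + 1)) ≤ S₂ * μ := mul_le_mul_of_nonneg_left (by linarith) hS₂
      refine le_min (by linarith) (by linarith)
  have hmaxr : ∀ i < n, min x z ≤ max (b i) (b (i + 1)) ∧ max (b i) (b (i + 1)) ≤ max x z :=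
    fun i hi => ⟨(hBG i hi.le).2.1.trans (le_max_left _ _),
      max_le (hBG i hi.le).2.2 (hBG (i + 1) hi).2.2⟩
  have hx0 : min x z ≤ b 0 ∧ b 0 ≤ max x z := by
    rw [hB0]
    exact ⟨min_le_left _ _, le_max_left _ _⟩
  have res := chainM (y := y) htm (c := c) (r₀ := r₀) (r := r) (κ := κ) (j := j) (a := a)
    (rk := rk) (p₀ := w + lam) (lam := lam) (N := N) (N₁ := N₁) (ρ := ρ) (Pv := Pv) (Lm := Lm)
    (Q := Q) hrk (ha.trans_le hwl) ha hwl hlam hρ hf hy hN b (fun i => P (b i))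
    (by rw [hB0]; exact hst) n
    (fun i hi => hlo.trans (hBl i hi)) (fun i hi' => (hBh i hi').trans hhi)
    (fun i hi => hP.att _ (hBl i hi) (hBh i hi) (hBG i hi).1)
    (fun i hi => hP.chn _ (hBl i hi) (hBh i hi) (hBG i hi).1)
    (fun i hi => hV _ (hBl i hi) (hBh i hi) (hBG i hi).1)
    (fun i hi => hl0 _ (hBl i hi) (hBh i hi)) (fun i hi => hl2 _ (hBl i hi) (hBh i hi))
    (fun i hi => hl3 _ (hBl i hi) (hBh i hi))
    (by
      have := hc1 _ hx0.1 hx0.2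
      linarith)
    (fun l a b => by
      have := hc2 _ hx0.1 hx0.2 l a b
      linarith)
    (fun i hi => by
      have h1 := hc1 _ (hmaxr i hi).1 (hmaxr i hi).2
      have h2 := hnb i hi
      linarith)
    (fun i hi l a b => by
      have h1 := hc2 _ (hmaxr i hi).1 (hmaxr i hi).2 l a b
      have h2 := hnb i hi
      linarith)
  intro h hh
  have res2 := res h hh
  simp only [hBn] at res2
  exact res2

/-! ### The jets of all orders -/

/-- The margin. -/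
noncomputable def mg (w ell β : ℝ) : ℝ := ell - max (β - w) 0

theorem mg_le (w ell β : ℝ) : mg w ell β ≤ ell := by
  unfold mg
  linarith [le_max_right (β - w) 0]

theorem mg_ge {w ell β : ℝ} : ell + w - β ≤ mg w ell β ∨ mg w ell β = ell := by
  unfold mg
  rcases max_cases (β - w) 0 with ⟨e, -⟩ | ⟨e, -⟩
  · left
    rw [e]
    linarith
  · right
    rw [e]
    ring

/-- The margin changes with speed at most `1`. -/
theorem mg_lip {w ell β β' : ℝ} (h : β ≤ β') : mg w ell β ≤ mg w ell β' + (β' - β) := by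
  unfold mg
  rcases max_cases (β' - w) 0 with ⟨e, h1⟩ | ⟨e, h1⟩
  · rcases max_cases (β - w) 0 with ⟨e', h2⟩ | ⟨e', h2⟩
    · rw [e, e']
      linarith
    · rw [e, e']
      linarith
  · rcases max_cases (β - w) 0 with ⟨e', h2⟩ | ⟨e', h2⟩
    · rw [e, e']
      linarith
    · rw [e, e']
      linarith

theorem mg_anti {w ell β β' : ℝ} (h : β ≤ β') : mg w ell β' ≤ mg w ell β := by
  unfold mg
  linarith [max_le_max_right 0 (sub_le_sub_right h w)]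

theorem mg_sub (w ell ell' β : ℝ) : mg w ell β - mg w ell' β = ell - ell' := by
  unfold mg
  ring

theorem mg_w (w ell : ℝ) : mg w ell w = ell := by
  unfold mg
  rw [sub_self, max_self, sub_zero]

theorem mg_lam {w lam ell β : ℝ} (h : ell ≤ lam) : mg w ell β ≤ min lam (w + lam - β) := by
  refine le_min ((mg_le w ell β).trans h) ?_
  unfold mg
  linarith [le_max_left (β - w) 0]

/-- The numbers of a coordinate over a chain. -/
structure NumJ (k : ℕ) (r₀ r : ℕ) (ell : ℕ → ℝ) (a w lam ρ ν τ el lo hi S₁ S₂ : ℝ) : Prop where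
  ρ0 : 0 < ρ
  ν0 : 0 < ν
  τ0 : 0 ≤ τ
  lo0 : 0 ≤ lo
  low : lo ≤ w
  whi : w ≤ hi
  hia : hi ≤ a
  al : a < w + lam
  l1 : w + lam ≤ 1
  k1 : (k : ℝ) ≤ S₁
  k2 : S₂ ≤ k + 1
  S20 : 0 ≤ S₂
  hlm : el + ρ + 2 * τ + ν ≤ lam
  el0 : 0 ≤ el
  hel : ∀ l, r₀ ≤ l → l < r → el + 2 * ρ + 2 * τ + ν ≤ ell l
  hel1 : ∀ l, r₀ ≤ l → l < r → ell l ≤ lam
  nest : ∀ l, r₀ ≤ l → l < r → ∀ l', r₀ ≤ l' → l' < l → ell l + ρ ≤ ell l'
  hil : ∀ l, r₀ ≤ l → l < r → hi + ρ < w + ell l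

section jets

variable {c : ℕ → Fin m} {r₀ r : ℕ} {κ : Fin m} {G : ℝ → Prop}
  {Pv : ℕ → ℝ → ℝ} {P : ℝ → ℝ} {rk lo hi S₁ S₂ τ : ℝ} {a w lam ρ ν el : ℝ} {k j : ℕ}
  {ell : ℕ → ℝ} {Q : Qt m U}

/-- All jets of the chain at all windows of an interval. -/
def AllV (S : PCl m) {α γ : ∀ J : ℕ, Fam m J → Type} {U : Type}
    (f : ∀ (J : ℕ) (F : Fam m J), F.Ω → α J F) (y : ∀ (J : ℕ) (F : Fam m J), F.Ω → γ J F)
    (Q : Qt m U) (c : ℕ → Fin m) (r₀ r : ℕ) (G : ℝ → Prop) (Pv : ℕ → ℝ → ℝ) (ell : ℕ → ℝ)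
    (a w ρ lo hi : ℝ) : Prop :=
  ∀ l, r₀ ≤ l → l < r → ∀ β : ℝ, lo ≤ β → β ≤ hi → G β → ∀ j : ℕ, ∀ h : ℝ, 0 < h →
    F1 S f (vg a) y Q (qJet m ((range l).image c) (c l) j β (Pv l β)
      (Pv l β + mg w (ell l) β - j * β)) (ρ / 8) h

theorem AllV.qjets (htm : TmC S C₀) {c : ℕ → Fin m} {r₀ r : ℕ} {G : ℝ → Prop} {Pv : ℕ → ℝ → ℝ}
    {ell : ℕ → ℝ} {a w ρ lo hi : ℝ} (hV : AllV S f y Q c r₀ r G Pv ell a w ρ lo hi) (j : ℕ)
    {β : ℝ} (h1 : lo ≤ β) (h2 : β ≤ hi) (hG : G β) {h : ℝ} (hh : 0 < h) :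
    F1 S f (vg a) y Q (qJets m c r₀ r j (fun _ _ => β) (fun l _ => Pv l β)
      (fun l j' => Pv l β + mg w (ell l) β - j' * β)) (ρ / 8) h := by
  have hc : (0 : ℝ) ≤ (r * (j + 1) : ℕ) := Nat.cast_nonneg _
  have e1 := F1.qjets (y := y) htm (Q := Q) (c := c) (r₀ := r₀) (r := r) (j := j)
    (w := fun _ _ => β) (p := fun l _ => Pv l β)
    (N := fun l j' => Pv l β + mg w (ell l) β - j' * β) (e := ρ / 8)
    (η := h / ((r * (j + 1) : ℕ) + 1)) (by positivity)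
    (fun l a b j' _ => hV l a b β h1 h2 hG j' _ (by positivity))
  refine e1.mono le_rfl ?_
  rw [mul_div_assoc', div_le_iff₀ (by positivity)]
  nlinarith

theorem AllV.mono {c : ℕ → Fin m} {r₀ r : ℕ} {G : ℝ → Prop} {Pv : ℕ → ℝ → ℝ}
    {ell : ℕ → ℝ} {a w ρ lo hi lo' hi' : ℝ} (hV : AllV S f y Q c r₀ r G Pv ell a w ρ lo hi)
    (h1 : lo ≤ lo') (h2 : hi' ≤ hi) : AllV S f y Q c r₀ r G Pv ell a w ρ lo' hi' :=
  fun l x1 x2 β y1 y2 => hV l x1 x2 β (h1.trans y1) (y2.trans h2)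

/-- A chain of windows with the numbers `NumJ`. -/
theorem NumJ.to (htm : TmC S C₀) (hn : NumJ k r₀ r ell a w lam ρ ν τ el lo hi S₁ S₂)
    (hP : ProfN S c r₀ r κ G Pv P rk lo hi S₁ S₂ τ) (hrk : 0 ≤ rk)
    (hf : ∀ (J : ℕ) (F : Fam m J), ∃ φ : α J F → PtT F, ∀ ω, ptr F J ω = φ (f J F ω))
    (hy : Kn ((range r₀).image c) (w + lam) lam y)
    (hV : AllV S f y Q c r₀ r G Pv ell a w ρ lo hi) {N N₁ : ℝ}
    {x z : ℝ} (hx : lo ≤ x) (hx' : x ≤ hi) (hGx : G x) (hz : lo ≤ z) (hz' : z ≤ hi) (hGz : G z)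
    (hst : ∀ h : ℝ, 0 < h → F1 S f (vg a) y Q
      (qJet m ((range r).image c) κ j x (P x) N₁) (ρ / 8) h) (hN : N ≤ N₁)
    (hc : ∀ β : ℝ, min x z ≤ β → β ≤ max x z →
      N + j * β ≤ P β + τ + mg w el β) :
    ∀ h : ℝ, 0 < h → F1 S f (vg a) y Q (qJet m ((range r).image c) κ j z (P z) N)
      (ρ / 8) h := by
  have hlam : 0 < lam := by linarith [hn.hlm, hn.el0, hn.ρ0, hn.τ0, hn.ν0]
  refine chain_to htm hP hrk hn.lo0 hn.hia hn.al hn.l1 hlam hn.S20 hf hy hn.ρ0 hn.ν0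
    (Lm := fun l β => mg w (ell l) β)
    (fun β h1 h2 hG h hh => hV.qjets htm j h1 h2 hG hh) ?_ ?_ ?_ hx hx' hGx hz hz' hGz hst hN ?_ ?_
  · intro β _ h2 l a b
    have := hn.hil l a b
    rcases mg_ge (w := w) (ell := ell l) (β := β) with g | g
    · linarith
    · rw [g]
      linarith [hn.hel l a b, hn.el0, hn.ρ0, hn.τ0, hn.ν0]
  · intro β _ _ l a b
    exact mg_lam (hn.hel1 l a b)
  · intro β _ _ l a b l' a' b'
    have := mg_sub w (ell l) (ell l') β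
    have := hn.nest l a b l' a' b'
    linarith
  · intro β h1 h2
    have g1 := hc β h1 h2
    have g2 := mg_lam (w := w) (β := β) (le_refl lam)
    have g3 := mg_sub w el lam β
    have g4 := hn.hlm
    linarith
  · intro β h1 h2 l a b
    have g1 := hc β h1 h2
    have g3 := mg_sub w el (ell l) β
    have g4 := hn.hel l a b
    linarith

/-- **The jets of order below `k`.** -/
theorem jet_lo (htm : TmC S C₀) (hn : NumJ k r₀ r ell a w lam ρ ν τ el lo hi S₁ S₂)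
    (hP : ProfN S c r₀ r κ G Pv P rk lo hi S₁ S₂ τ) (hrk : 0 ≤ rk)
    (hf : ∀ (J : ℕ) (F : Fam m J), ∃ φ : α J F → PtT F, ∀ ω, ptr F J ω = φ (f J F ω))
    (hy : Kn ((range r₀).image c) (w + lam) lam y)
    (hV : AllV S f y Q c r₀ r G Pv ell a w ρ lo hi) (hGh : G hi) (hh : w + el + ρ + τ ≤ hi)
    (hj : j < k) {β : ℝ} (h1 : lo ≤ β) (h2 : β ≤ hi) (hG : G β) :
    ∀ h : ℝ, 0 < h → F1 S f (vg a) y Q (qJet m ((range r).image c) κ j β (P β)
      (P β + mg w el β - j * β)) (ρ / 8) h := by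
  have hj1 : (j : ℝ) + 1 ≤ S₁ := by
    have : ((j + 1 : ℕ) : ℝ) ≤ k := by exact_mod_cast hj
    push_cast at this
    linarith [hn.k1]
  have hhi0 : lo ≤ hi := hn.low.trans hn.whi
  have hj0 : (0 : ℝ) ≤ j := Nat.cast_nonneg j
  refine NumJ.to htm hn hP hrk hf hy hV hhi0 le_rfl hGh h1 h2 hG
    (N₁ := P β + mg w el β - j * β) ?_ le_rfl ?_
  · intro h hh'
    refine F1.of0 htm ((few0_room htm (hn.lo0.trans hhi0)
      (lt_of_le_of_lt hn.hia (hn.al.trans_le hn.l1)) hn.ρ0 ?_ f (vg a) y hh').mono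
        (by linarith [hn.ρ0]) le_rfl)
    have g1 := hP.lo β hi h1 h2 le_rfl
    have g2 : (hi - β) * (j + 1) ≤ (hi - β) * S₁ := mul_le_mul_of_nonneg_left hj1 (by linarith)
    have g3 := mg_lip (w := w) (ell := el) h2
    rcases mg_ge (w := w) (ell := el) (β := β) with g | g
    · have g4 : mg w el β ≤ hi - β - ρ - τ := by
        unfold mg at g ⊢
        have := le_max_left (β - w) 0
        linarith
      linarith
    · have g4 : mg w el β ≤ hi - β - ρ - τ := by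
        have := le_max_left (β - w) 0
        unfold mg
        linarith
      linarith
  · intro β' hb1 hb2
    rw [min_eq_right h2] at hb1
    rw [max_eq_left h2] at hb2
    have g1 := hP.lo β β' h1 hb1 hb2
    have g2 : (β' - β) * (j + 1) ≤ (β' - β) * S₁ := mul_le_mul_of_nonneg_left hj1 (by linarith)
    have g3 := mg_lip (w := w) (ell := el) hb1
    linarith

/-- **The jets of order above `k`.** -/
theorem jet_hi (htm : TmC S C₀) (hn : NumJ k r₀ r ell a w lam ρ ν τ el lo hi S₁ S₂)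
    (hP : ProfN S c r₀ r κ G Pv P rk lo hi S₁ S₂ τ) (hrk : 0 ≤ rk)
    (hf : ∀ (J : ℕ) (F : Fam m J), ∃ φ : α J F → PtT F, ∀ ω, ptr F J ω = φ (f J F ω))
    (hy : Kn ((range r₀).image c) (w + lam) lam y)
    (hV : AllV S f y Q c r₀ r G Pv ell a w ρ lo hi) (hGl : G lo)
    (hj : k < j) {β : ℝ} (h1 : lo ≤ β) (hh : el + ρ + τ ≤ (k + 1 - S₂) * (β - lo))
    (h2 : β ≤ hi) (hG : G β) :
    ∀ h : ℝ, 0 < h → F1 S f (vg a) y Q (qJet m ((range r).image c) κ j β (P β)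
      (P β + mg w el β - j * β)) (ρ / 8) h := by
  have hj1 : (k : ℝ) + 1 ≤ j := by exact_mod_cast hj
  have hhi0 : lo ≤ hi := hn.low.trans hn.whi
  have hj0 : (0 : ℝ) ≤ j := Nat.cast_nonneg j
  refine NumJ.to htm hn hP hrk hf hy hV le_rfl hhi0 hGl h1 h2 hG
    (N₁ := P β + mg w el β - j * β) ?_ le_rfl ?_
  · intro h hh'
    refine F1.of0 htm ((few0_room htm hn.lo0
      (lt_of_le_of_lt hhi0 (lt_of_le_of_lt hn.hia (hn.al.trans_le hn.l1))) hn.ρ0 ?_ f (vg a) y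
        hh').mono (by linarith [hn.ρ0]) le_rfl)
    have g1 := hP.up lo β le_rfl h1 h2
    have g2 : (k + 1 - S₂) * (β - lo) ≤ (j - S₂) * (β - lo) :=
      mul_le_mul_of_nonneg_right (by linarith) (by linarith)
    have g3 := mg_le w el β
    linarith
  · intro β' hb1 hb2
    rw [min_eq_left h1] at hb1
    rw [max_eq_right h1] at hb2
    have g1 := hP.up β' β hb1 hb2 h2
    have g2 : 0 ≤ (j - S₂) * (β - β') := mul_nonneg (by linarith [hn.k2]) (by linarith)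
    have g3 := mg_anti (w := w) (ell := el) hb2
    linarith

/-- **The jets of order `k`**, from the window `w`. -/
theorem jet_al (htm : TmC S C₀) (hn : NumJ k r₀ r ell a w lam ρ ν τ el lo hi S₁ S₂)
    (hP : ProfN S c r₀ r κ G Pv P rk lo hi S₁ S₂ τ) (hrk : 0 ≤ rk)
    (hf : ∀ (J : ℕ) (F : Fam m J), ∃ φ : α J F → PtT F, ∀ ω, ptr F J ω = φ (f J F ω))
    (hy : Kn ((range r₀).image c) (w + lam) lam y)
    (hV : AllV S f y Q c r₀ r G Pv ell a w ρ lo hi) (hGw : G w)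
    (hst : ∀ h : ℝ, 0 < h → F1 S f (vg a) y Q
      (qJet m ((range r).image c) κ k w (P w) (P w + (el + τ) - k * w)) (ρ / 8) h)
    {β : ℝ} (h1 : lo ≤ β) (h2 : β ≤ hi) (hG : G β) :
    ∀ h : ℝ, 0 < h → F1 S f (vg a) y Q (qJet m ((range r).image c) κ k β (P β)
      (P β + mg w el β - k * β)) (ρ / 8) h := by
  refine NumJ.to htm hn hP hrk hf hy hV hn.low hn.whi hGw h1 h2 hG hst ?_ ?_
  · rcases le_total β w with hb | hb
    · have g1 := hP.lo β w h1 hb hn.whi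
      have g2 : (w - β) * k ≤ (w - β) * S₁ := mul_le_mul_of_nonneg_left hn.k1 (by linarith)
      have g3 := mg_le w el β
      linarith
    · have g1 := hP.up w β hn.low hb h2
      have g2 : (β - w) * S₂ ≤ (β - w) * (k + 1) := mul_le_mul_of_nonneg_left hn.k2 (by linarith)
      have g3 : mg w el β ≤ el - (β - w) := by
        unfold mg
        linarith [le_max_left (β - w) 0]
      linarith
  · intro β' hb1 hb2
    rcases le_total β w with hb | hb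
    · rw [min_eq_right hb] at hb1
      rw [max_eq_left hb] at hb2
      have g1 := hP.lo β β' h1 hb1 (hb2.trans hn.whi)
      have g2 : (β' - β) * k ≤ (β' - β) * S₁ := mul_le_mul_of_nonneg_left hn.k1 (by linarith)
      have g3 := mg_le w el β
      have g4 : mg w el β' = el := by
        unfold mg
        rw [max_eq_right (by linarith), sub_zero]
      linarith
    · rw [min_eq_left hb] at hb1
      rw [max_eq_right hb] at hb2
      have g1 := hP.up β' β (hn.low.trans hb1) hb2 h2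
      have g2 : (β - β') * S₂ ≤ (β - β') * (k + 1) :=
        mul_le_mul_of_nonneg_left hn.k2 (by linarith)
      have g3 : mg w el β = el - (β - w) := by
        unfold mg
        rw [max_eq_left (by linarith)]
      have g4 : mg w el β' = el - (β' - w) := by
        unfold mg
        rw [max_eq_left (by linarith)]
      rw [g3, g4]
      linarith

end jets

/-! ### Induction over the chain -/

/-- **The numbers of a chain**: for every coordinate the alive order `k l`, the slopes, the windows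
`lo l ≤ lo' l ≤ w ≤ hi l` and the margins `ell l`. -/
structure ChJ (S : PCl m) (c : ℕ → Fin m) (r₀ r : ℕ) (G : ℝ → Prop) (Pv : ℕ → ℝ → ℝ)
    (k : ℕ → ℕ) (ell : ℕ → ℝ) (a w lam ρ ν τ : ℝ) (lo lo' hi S₁ S₂ rk : ℕ → ℝ) : Prop where
  num : ∀ l, r₀ ≤ l → l < r →
    NumJ (k l) r₀ l ell a w lam ρ ν τ (ell l) (lo l) (hi l) (S₁ l) (S₂ l)
  prof : ∀ l, r₀ ≤ l → l < r →
    ProfN S c r₀ l (c l) G Pv (Pv l) (rk l) (lo l) (hi l) (S₁ l) (S₂ l) τ
  rk0 : ∀ l, r₀ ≤ l → l < r → 0 ≤ rk l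
  Gw : G w
  Glo : ∀ l, r₀ ≤ l → l < r → G (lo l)
  Ghi : ∀ l, r₀ ≤ l → l < r → G (hi l)
  hhi : ∀ l, r₀ ≤ l → l < r → w + ell l + ρ + τ ≤ hi l
  hlo : ∀ l, r₀ ≤ l → l < r → lo l ≤ lo' l ∧
    ell l + ρ + τ ≤ (k l + 1 - S₂ l) * (lo' l - lo l)
  nlo : ∀ l, r₀ ≤ l → l < r → ∀ l', r₀ ≤ l' → l' < l → lo' l' ≤ lo l
  nhi : ∀ l, r₀ ≤ l → l < r → ∀ l', r₀ ≤ l' → l' < l → hi l ≤ hi l'

/-- **All jets of the chain**, from the jets of the alive orders at the window `w`. -/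
theorem allV_of (htm : TmC S C₀) {c : ℕ → Fin m} {r₀ r : ℕ} {G : ℝ → Prop} {Pv : ℕ → ℝ → ℝ}
    {k : ℕ → ℕ} {ell : ℕ → ℝ} {a w lam ρ ν τ : ℝ} {lo lo' hi S₁ S₂ rk : ℕ → ℝ} {Q : Qt m U}
    (hC : ChJ S c r₀ r G Pv k ell a w lam ρ ν τ lo lo' hi S₁ S₂ rk)
    (hf : ∀ (J : ℕ) (F : Fam m J), ∃ φ : α J F → PtT F, ∀ ω, ptr F J ω = φ (f J F ω))
    (hy : Kn ((range r₀).image c) (w + lam) lam y)
    (hQ : ∀ l, r₀ ≤ l → l < r → ∀ h : ℝ, 0 < h → F1 S f (vg a) y Q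
      (qJet m ((range l).image c) (c l) (k l) w (Pv l w) (Pv l w + (ell l + τ) - k l * w))
        (ρ / 8) h) :
    ∀ n ≤ r, ∀ l, r₀ ≤ l → l < n → ∀ β : ℝ, lo' l ≤ β → β ≤ hi l → G β → ∀ j : ℕ,
      ∀ h : ℝ, 0 < h → F1 S f (vg a) y Q (qJet m ((range l).image c) (c l) j β (Pv l β)
        (Pv l β + mg w (ell l) β - j * β)) (ρ / 8) h := by
  intro n
  induction n with
  | zero =>
    intro _ l _ hl
    exact absurd hl (Nat.not_lt_zero l)
  | succ n ih =>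
    intro hn l hl0 hl β h1 h2 hG j h hh
    have ih := ih (by omega)
    rcases Nat.lt_or_ge l n with h3 | h3
    · exact ih l hl0 h3 β h1 h2 hG j h hh
    · obtain rfl : l = n := by omega
      have hlr : l < r := by omega
      have hV : AllV S f y Q c r₀ l G Pv ell a w ρ (lo l) (hi l) :=
        fun l' x1 x2 β' y1 y2 hG' j' h' hh' => ih l' x1 x2 β'
          ((hC.nlo l hl0 hlr l' x1 x2).trans y1) (y2.trans (hC.nhi l hl0 hlr l' x1 x2)) hG' j' h' hh'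
      have hlo := hC.hlo l hl0 hlr
      rcases Nat.lt_trichotomy j (k l) with hj | hj | hj
      · exact jet_lo htm (hC.num l hl0 hlr) (hC.prof l hl0 hlr) (hC.rk0 l hl0 hlr) hf hy hV
          (hC.Ghi l hl0 hlr) (hC.hhi l hl0 hlr) hj (hlo.1.trans h1) h2 hG h hh
      · subst hj
        exact jet_al htm (hC.num l hl0 hlr) (hC.prof l hl0 hlr) (hC.rk0 l hl0 hlr) hf hy hV
          hC.Gw (hQ l hl0 hlr) (hlo.1.trans h1) h2 hG h hh
      · refine jet_hi htm (hC.num l hl0 hlr) (hC.prof l hl0 hlr) (hC.rk0 l hl0 hlr) hf hy hV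
          (hC.Glo l hl0 hlr) hj (hlo.1.trans h1) (hlo.2.trans ?_) h2 hG h hh
        refine mul_le_mul_of_nonneg_left (by linarith) ?_
        have := (hC.num l hl0 hlr).k2
        linarith

/-- The jets of the chain, at all windows between. -/
theorem ChJ.allV (htm : TmC S C₀) {c : ℕ → Fin m} {r₀ r : ℕ} {G : ℝ → Prop} {Pv : ℕ → ℝ → ℝ}
    {k : ℕ → ℕ} {ell : ℕ → ℝ} {a w lam ρ ν τ : ℝ} {lo lo' hi S₁ S₂ rk : ℕ → ℝ} {Q : Qt m U}
    (hC : ChJ S c r₀ r G Pv k ell a w lam ρ ν τ lo lo' hi S₁ S₂ rk)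
    (hf : ∀ (J : ℕ) (F : Fam m J), ∃ φ : α J F → PtT F, ∀ ω, ptr F J ω = φ (f J F ω))
    (hy : Kn ((range r₀).image c) (w + lam) lam y)
    (hQ : ∀ l, r₀ ≤ l → l < r → ∀ h : ℝ, 0 < h → F1 S f (vg a) y Q
      (qJet m ((range l).image c) (c l) (k l) w (Pv l w) (Pv l w + (ell l + τ) - k l * w))
        (ρ / 8) h) {x z : ℝ} (hx : ∀ l, r₀ ≤ l → l < r → lo' l ≤ x)
    (hz : ∀ l, r₀ ≤ l → l < r → z ≤ hi l) : AllV S f y Q c r₀ r G Pv ell a w ρ x z :=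
  fun l x1 x2 β y1 y2 hG j h hh => allV_of htm hC hf hy hQ r le_rfl l x1 x2 β
    ((hx l x1 x2).trans y1) (y2.trans (hz l x1 x2)) hG j h hh

/-- `JetV` from all jets at the window `w`. -/
theorem AllV.jetV {c : ℕ → Fin m} {r₀ r : ℕ} {G : ℝ → Prop} {Pv : ℕ → ℝ → ℝ} {ell : ℕ → ℝ}
    {a w ρ x z : ℝ} {Q : Qt m U} (hV : AllV S f y Q c r₀ r G Pv ell a w ρ x z) (hx : x ≤ w)
    (hz : w ≤ z) (hG : G w) {δ : ℝ} (hδ : 0 < δ) :
    JetV S f (vg a) y Q c r₀ r w (fun l => Pv l w) (fun l => Pv l w + ell l) (ρ / 8) δ := by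
  intro K
  have hR : (0 : ℝ) < ((r : ℝ) + 1) * ((K : ℝ) + 3) := by positivity
  refine ⟨fun _ _ => δ / (((r : ℝ) + 1) * ((K : ℝ) + 3)), ?_, fun l a b j hj => ?_⟩
  · rw [Finset.sum_const, Finset.sum_const, Nat.card_Ico, Finset.card_range, smul_smul,
      nsmul_eq_mul, mul_div_assoc', div_le_iff₀ hR]
    have e1 : (((r - r₀) * (K + 3) : ℕ) : ℝ) ≤ ((r : ℝ) + 1) * ((K : ℝ) + 3) := by
      push_cast
      refine mul_le_mul_of_nonneg_right ?_ (by positivity)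
      have : ((r - r₀ : ℕ) : ℝ) ≤ r := by exact_mod_cast Nat.sub_le r r₀
      linarith
    nlinarith
  · have e1 := hV l a b w hx hz hG j (δ / (((r : ℝ) + 1) * ((K : ℝ) + 3))) (by positivity)
    rwa [mg_w] at e1

/-- **`JetN`**: the jets of the coordinate of order different from `k` at the window `w`. -/
theorem jetN_of (htm : TmC S C₀) {c : ℕ → Fin m} {r₀ r : ℕ} {κ : Fin m} {G : ℝ → Prop}
    {Pv : ℕ → ℝ → ℝ} {P : ℝ → ℝ} {rk lo hi S₁ S₂ τ : ℝ} {a w lam ρ ν q : ℝ} {k : ℕ}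
    {ell : ℕ → ℝ} {Q : Qt m U} (hn : NumJ k r₀ r ell a w lam ρ ν τ q lo hi S₁ S₂)
    (hP : ProfN S c r₀ r κ G Pv P rk lo hi S₁ S₂ τ) (hrk : 0 ≤ rk)
    (hf : ∀ (J : ℕ) (F : Fam m J), ∃ φ : α J F → PtT F, ∀ ω, ptr F J ω = φ (f J F ω))
    (hy : Kn ((range r₀).image c) (w + lam) lam y)
    (hV : AllV S f y Q c r₀ r G Pv ell a w ρ lo hi) (hGl : G lo) (hGh : G hi) (hGw : G w)
    (hh : w + q + ρ + τ ≤ hi) (hh' : q + ρ + τ ≤ (k + 1 - S₂) * (w - lo)) {δ : ℝ}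
    (hδ : 0 < δ) : ∃ e₁ : ℝ, 0 < e₁ ∧ e₁ ≤ ρ / 8 ∧
      JetN S f (vg a) y Q ((range r).image c) κ k w (P w) q e₁ δ := by
  have hw0 : 0 ≤ w := hn.lo0.trans hn.low
  have hw1 : w < 1 := lt_of_le_of_lt (hn.whi.trans hn.hia) (hn.al.trans_le hn.l1)
  obtain ⟨ek, hek, hjk⟩ := few0_jet htm (I := (range r).image c) (k := κ) (j := k) (w := w)
    (p := P w) (N := P w - k * w) hw0 hw1 (by linarith) f (vg a) y (δ / 2) (by linarith)
  have hρ := hn.ρ0
  refine ⟨min (ρ / 8) ek, lt_min (by linarith) hek, min_le_left _ _, fun K => ?_⟩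
  have hK : (0 : ℝ) < (K : ℝ) + 3 := by positivity
  refine ⟨fun j => if j = k then δ / 2 else δ / (2 * ((K : ℝ) + 3)), ?_, fun j _ => ?_⟩
  · have h1 : ∀ j ∈ range (K + 3), (if j = k then δ / 2 else δ / (2 * ((K : ℝ) + 3))) ≤
        (if j = k then δ / 2 else 0) + δ / (2 * ((K : ℝ) + 3)) := by
      intro j _
      have : 0 ≤ δ / (2 * ((K : ℝ) + 3)) := by positivity
      split_ifs <;> linarith
    refine (Finset.sum_le_sum h1).trans ?_
    rw [Finset.sum_add_distrib, Finset.sum_const, Finset.card_range, nsmul_eq_mul,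
      Finset.sum_ite_eq']
    have h2 : ((K + 3 : ℕ) : ℝ) * (δ / (2 * ((K : ℝ) + 3))) = δ / 2 := by
      push_cast
      field_simp
    rw [h2]
    split_ifs <;> linarith
  · by_cases hj : j = k
    · simp only [if_pos hj]
      subst hj
      exact F1.of0 htm (F0.mono (e := ek) hjk (min_le_right _ _) le_rfl)
    · simp only [if_neg hj]
      have e0 : P w + q - j * w = P w + mg w q w - j * w := by rw [mg_w]
      rw [e0]
      rcases Nat.lt_or_ge j k with hjk' | hjk'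
      · exact (jet_lo htm hn hP hrk hf hy hV hGh hh hjk' hn.low hn.whi hGw _
          (by positivity)).mono (min_le_left _ _) le_rfl
      · exact (jet_hi htm hn hP hrk hf hy hV hGl (by omega) hn.low hh' hn.whi hGw _
          (by positivity)).mono (min_le_left _ _) le_rfl

end Pool.OWN68
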