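import Pool.Agent.H68.OWN.Jp

/-!
# The path law, for any family of polynomials on the lines

`R x`: a polynomial in the parameter of the window, in units of the last digit, for every line `x`.
`pj F R w j`: its jets at the time of the sample. `path_law`: if the jets of order different from
`k` are few bits, the context is few bits and the rows of the height are not full given the context
and the time, on all large events, then the path is few bits.
-/

set_option autoImplicit false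

namespace Pool.OWN68

open Finset Real MvPolynomial
open Pool.Agent.H49.Ent Pool.Agent.H32.Dense Pool.STK Pool.KA Pool.KSAT Pool.K2S Pool.PB Pool.GEN
open Pool.S6C Pool.LA91

variable {m J : ℕ}

/-! ### The coefficients -/

section

variable (F : Fam m J) (R : LnT F → Polynomial ℝ)

/-- The coefficients of a path, in units of the last digit. -/
noncomputable def pr (j : ℕ) (x : LnT F) : ℝ := (R x).coeff j

/-- The context of a line. -/
noncomputable def pctx {𝒞 : Type} (k D : ℕ) (c : LnT F → 𝒞) (x : LnT F) :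
    (F.ζ × ℕ) × (𝒞 × (Fin (D + 1) → ℤ)) :=
  (x.2, (c x, fun j => if k < (j : ℕ) then ⌊pr F R j x⌋ else 0))

/-- The jets of a path at the time of the sample. -/
noncomputable def pj (w j : ℕ) (ω : F.Ω) : ℝ :=
  (Polynomial.derivative^[j] (R (slam F w ω))).eval (uw F w ω)

variable {F R} {w : ℕ}

/-- The path is near the exact height. -/
theorem ppth_near {k D : ℕ} (hk : k = 1 ∨ k = 2) (hD : 2 ≤ D)
    (hdeg : ∀ x, (R x).natDegree ≤ D) {𝒞 : Type} (c : LnT F → 𝒞) (x : LnT F)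
    {M : ℕ} (hM : 1 ≤ M) {τ : ℤ} (hτ : |τ| ≤ (M : ℤ)) :
    |(R x).eval ((τ : ℝ) / M) - pth M (pctx F R k D c)
      (pr F R 0) (pr F R 1)
      (fun x => if k = 1 then 0 else pr F R 2 x) (jg M D) x τ| ≤ D + 1 := by
  have hu := unit_le hM hτ
  set u : ℝ := (τ : ℝ) / M with hu'
  set a : ℕ → ℝ := fun j => if k < j then (⌊pr F R j x⌋ : ℝ) else pr F R j x
    with ha
  have h1 := near_sum (D := D) (hdeg x) hu a (fun j => by
    rw [ha]
    dsimp only
    split_ifs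
    · exact fl_one _
    · unfold pr
      rw [sub_self, abs_zero]
      exact zero_le_one)
  have h2 : pth M (pctx F R k D c) (pr F R 0) (pr F R 1)
      (fun x => if k = 1 then 0 else pr F R 2 x) (jg M D) x τ =
      ∑ j ∈ range (D + 1), a j * u ^ j := by
    unfold pth jg pctx
    simp only
    rw [← hu']
    have e1 : ∑ j : Fin (D + 1), (((if k < (j : ℕ) then ⌊pr F R j x⌋ else 0 : ℤ)) : ℝ) *
        u ^ (j : ℕ) = ∑ j ∈ range (D + 1),
        (if k < j then (⌊pr F R j x⌋ : ℝ) * u ^ j else 0) := by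
      rw [← Fin.sum_univ_eq_sum_range (fun j =>
        (if k < j then (⌊pr F R j x⌋ : ℝ) * u ^ j else 0))]
      refine Finset.sum_congr rfl fun j _ => ?_
      split_ifs <;> simp
    rw [e1]
    have e2 : pr F R 0 x + pr F R 1 x * u +
        (if k = 1 then 0 else pr F R 2 x) * u ^ 2 = ∑ j ∈ range (D + 1),
        (if k < j then 0 else pr F R j x * u ^ j) := by
      have e3 : ∑ j ∈ range (D + 1), (if k < j then 0 else pr F R j x * u ^ j) =
          ∑ j ∈ range 3, (if k < j then 0 else pr F R j x * u ^ j) := by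
        symm
        refine Finset.sum_subset (fun j hj => ?_) (fun j _ hj => ?_)
        · rw [Finset.mem_range] at hj ⊢
          omega
        · rw [Finset.mem_range] at hj
          rw [if_pos]
          rcases hk with rfl | rfl <;> omega
      rw [e3, Finset.sum_range_succ, Finset.sum_range_succ, Finset.sum_range_succ,
        Finset.sum_range_zero]
      rcases hk with rfl | rfl
      · simp
      · simp
    rw [e2, ← Finset.sum_add_distrib]
    refine Finset.sum_congr rfl fun j _ => ?_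
    rw [ha]
    dsimp only
    split_ifs <;> ring
  rw [h2]
  exact h1

/-- **The data `Npl` of the own path.** -/
theorem pnpl (D : ℕ) : ∃ K₁ : ℕ, 2 * D + 4 ≤ K₁ ∧ ∀ {k A' : ℕ} (hk : k = 1 ∨ k = 2) (hD : 2 ≤ D)
    {m J : ℕ} {F : Fam m J} {R : LnT F → Polynomial ℝ} {w Q : ℕ} {q : F.Ω → ℝ} (hq : IsLaw q)
    (hdeg : ∀ x, (R x).natDegree ≤ D) (hwQ : w + Q ≤ J)
    (hM2 : J - w ≤ A' * Q) {𝒞 Γ : Type} (c : LnT F → 𝒞) (Gm : F.Ω → Γ)
    {h δ c₀ : ℝ}
    (hG : ∀ ω ω', 0 < q ω → 0 < q ω' → Gm ω = Gm ω' → F.T ω = F.T ω' ∧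
      |pj F R w 0 ω - pj F R w 0 ω'| ≤ 1 ∧
      (k = 2 → |pj F R w 1 ω -
        pj F R w 1 ω'| ≤ 1))
    (htf : Real.log (2 * ((2 ^ (J - w) : ℕ) : ℝ) + 1) - δ * Q ≤ CH q (tw F w) (slam F w))
    (hδ : 0 ≤ δ)
    (hc0 : CH q (fun ω => cty Q (pctx F R k D c) (pr F R 0)
      (pr F R 1) (fun x => if k = 1 then 0 else pr F R 2 x) 0 (slam F w ω))
      Gm ≤ δ * Q)
    (hnf : ∀ E : F.Ω → Prop, c₀ ≤ Pool.Agent.H49.Ent.law q E True → ∀ y ≤ Q,
      CH (Pool.Agent.H49.Ent.cond q E True)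
        (fun ω => ⌊pth (2 ^ (J - w)) (pctx F R k D c) (pr F R 0)
          (pr F R 1) (fun x => if k = 1 then 0 else pr F R 2 x)
          (jg (2 ^ (J - w)) D) (slam F w ω) (tw F w ω)⌋)
        (fun ω => (⌊pth (2 ^ (J - w)) (pctx F R k D c) (pr F R 0)
          (pr F R 1) (fun x => if k = 1 then 0 else pr F R 2 x)
          (jg (2 ^ (J - w)) D) (slam F w ω) (tw F w ω) / 2 ^ (Q - y)⌋,
          (tw F w ω, pctx F R k D c (slam F w ω)))) ≤
        (1 - h) * (((Q : ℝ) - y) * Real.log 2) + δ * Q),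
    Npl k K₁ A' h δ c₀ Q q (slam F w) (tw F w) Gm (pctx F R k D c)
      (pr F R 0) (pr F R 1)
      (fun x => if k = 1 then 0 else pr F R 2 x) (jg (2 ^ (J - w)) D)
      (fun _ => ()) (2 ^ (J - w)) 0 := by
  obtain ⟨C, hC, hder⟩ := der_small D
  obtain ⟨K₂, hK₂⟩ := exists_nat_ge (C + 1)
  obtain ⟨K₁, hK₁, hK₁'⟩ : ∃ K₁ : ℕ, 2 * D + 4 ≤ K₁ ∧ K₂ ≤ K₁ :=
    ⟨max (2 * D + 4) K₂, le_max_left _ _, le_max_right _ _⟩
  refine ⟨K₁, hK₁, ?_⟩
  intro k A' hk hD m J F R w Q q hq hdeg hwQ hM2 𝒞 Γ c Gm h δ c₀ hG htf hδ hc0 hnf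
  have hw : w ≤ J := by omega
  have h0 := hq.nonneg
  have hM : 1 ≤ 2 ^ (J - w) := Nat.one_le_two_pow
  have hKr : 2 * (D : ℝ) + 4 ≤ K₁ := by exact_mod_cast hK₁
  have hKr2 : (K₂ : ℝ) ≤ K₁ := by exact_mod_cast hK₁'
  have hTt : ∀ ω ω', F.T ω = F.T ω' → tw F w ω = tw F w ω' := fun ω ω' e => by
    unfold tw
    rw [e]
  -- the exact height
  have hht : ∀ ω, (R (slam F w ω)).eval (uw F w ω) = pj F R w 0 ω := fun _ => rfl
  have hnr := fun ω => ppth_near hk hD hdeg c (slam F w ω) hM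
    (tw_abs F w ω)
  refine ⟨hq, ?_, ?_, fun ω _ => tw_abs F w ω, fun hk1 x => if_pos hk1, ?_, ?_, ?_, htf, ?_, ?_,
    hc0, ?_⟩
  · exact Nat.pow_le_pow_right (by norm_num) (by omega)
  · exact Nat.pow_le_pow_right (by norm_num) hM2
  · intro ω ω' hω hω' e
    exact hTt _ _ (hG ω ω' hω hω' e).1
  · intro ω ω' hω hω' e
    obtain ⟨g1, g2, -⟩ := hG ω ω' hω hω' e
    have e1 := hTt _ _ g1
    have n1 := hnr ω
    have n2 := hnr ω'
    rw [← e1] at n2
    have e2 : uw F w ω' = ((tw F w ω : ℤ) : ℝ) / ((2 ^ (J - w) : ℕ) : ℝ) := by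
      unfold uw
      rw [e1]
    have e3 : uw F w ω = ((tw F w ω : ℤ) : ℝ) / ((2 ^ (J - w) : ℕ) : ℝ) := rfl
    have f1 := hht ω
    have f2 := hht ω'
    rw [e3] at f1
    rw [e2] at f2
    rw [f1] at n1
    rw [f2] at n2
    rw [abs_le] at n1 n2 g2 ⊢
    constructor <;> linarith [n1.1, n1.2, n2.1, n2.2, g2.1, g2.2]
  · intro hk2 ω ω' hω hω' e ec
    obtain ⟨g1, -, g3⟩ := hG ω ω' hω hω' e
    have g3 := g3 hk2
    have e1 := hTt _ _ g1
    have hu : uw F w ω' = uw F w ω := by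
      unfold uw
      rw [e1]
    have hk1 : ¬ k = 1 := by omega
    -- the difference of the paths
    set E : Polynomial ℝ := R (slam F w ω) - R (slam F w ω') with hE
    set a₀ : ℝ := pr F R 0 (slam F w ω) - pr F R 0 (slam F w ω') with ha₀
    set a₁ : ℝ := pr F R 1 (slam F w ω) - pr F R 1 (slam F w ω') with ha₁
    set a₂ : ℝ := pr F R 2 (slam F w ω) - pr F R 2 (slam F w ω') with ha₂
    set B : Polynomial ℝ := Polynomial.C a₀ + Polynomial.C a₁ * Polynomial.X +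
      Polynomial.C a₂ * Polynomial.X ^ 2 with hB
    have hBd : B.natDegree ≤ D := by
      rw [hB]
      refine (Polynomial.natDegree_add_le _ _).trans (max_le ((Polynomial.natDegree_add_le _ _).trans
        (max_le ?_ ?_)) ?_)
      · rw [Polynomial.natDegree_C]
        exact Nat.zero_le _
      · refine (Polynomial.natDegree_C_mul_le _ _).trans ?_
        exact Polynomial.natDegree_X_le.trans (by omega)
      · refine (Polynomial.natDegree_C_mul_le _ _).trans ?_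
        rw [Polynomial.natDegree_X_pow]
        exact hD
    have hEd : (E - B).natDegree ≤ D :=
      (Polynomial.natDegree_sub_le _ _).trans (max_le ((Polynomial.natDegree_sub_le _ _).trans
        (max_le (hdeg _) (hdeg _))) hBd)
    have hco : ∀ j, 1 ≤ j → |(E - B).coeff j| ≤ 1 := by
      intro j _
      have hEc : ∀ j, E.coeff j = pr F R j (slam F w ω) -
          pr F R j (slam F w ω') := fun j => by
        rw [hE, Polynomial.coeff_sub]
        rfl
      rw [Polynomial.coeff_sub, hEc]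
      have hBc : B.coeff j = (if j = 0 then a₀ else 0) + (if j = 1 then a₁ else 0) +
          (if j = 2 then a₂ else 0) := by
        rw [hB]
        simp only [Polynomial.coeff_add, Polynomial.coeff_C, Polynomial.coeff_C_mul,
          Polynomial.coeff_X, Polynomial.coeff_X_pow]
        congr 1
        · congr 1
          by_cases hj1 : j = 1
          · simp [hj1]
          · rw [if_neg (fun h : 1 = j => hj1 h.symm), if_neg hj1, mul_zero]
        · split_ifs <;> simp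
      rw [hBc]
      by_cases j0 : j = 0
      · subst j0
        simp [ha₀]
      by_cases j1 : j = 1
      · subst j1
        simp [ha₁]
      by_cases j2 : j = 2
      · subst j2
        simp [ha₂]
      rw [if_neg j0, if_neg j1, if_neg j2]
      by_cases hjD : j ≤ D
      · have h3 : ⌊pr F R j (slam F w ω)⌋ = ⌊pr F R j (slam F w ω')⌋ := by
          unfold pctx at ec
          have e2 := congrFun (Prod.ext_iff.mp (Prod.ext_iff.mp ec).2).2
            (⟨j, by omega⟩ : Fin (D + 1))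
          simp only [hk2] at e2
          rw [if_pos (by omega), if_pos (by omega)] at e2
          exact e2
        have h4 := Int.floor_le (pr F R j (slam F w ω))
        have h5 := Int.lt_floor_add_one (pr F R j (slam F w ω))
        have h6 := Int.floor_le (pr F R j (slam F w ω'))
        have h7 := Int.lt_floor_add_one (pr F R j (slam F w ω'))
        rw [h3] at h4 h5
        rw [abs_le]
        constructor <;> linarith
      · unfold pr
        rw [Polynomial.coeff_eq_zero_of_natDegree_lt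
            (lt_of_le_of_lt (hdeg _) (by omega)),
          Polynomial.coeff_eq_zero_of_natDegree_lt
            (lt_of_le_of_lt (hdeg _) (by omega))]
        simp
    have h1 := hder (E - B) 1 (uw F w ω) 1 hEd (uw_abs F w ω) hco
    rw [mul_one, Function.iterate_one] at h1
    have h2 : (Polynomial.derivative (E - B)).eval (uw F w ω) =
        (pj F R w 1 ω -
          pj F R w 1 ω') -
        (a₁ + 2 * a₂ * uw F w ω) := by
      have d1 : (Polynomial.derivative (R (slam F w ω))).eval (uw F w ω) = pj F R w 1 ω := rfl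
      have d2 : (Polynomial.derivative (R (slam F w ω'))).eval (uw F w ω') = pj F R w 1 ω' := rfl
      rw [hu] at d2
      rw [Polynomial.derivative_sub, Polynomial.eval_sub, hE, Polynomial.derivative_sub,
        Polynomial.eval_sub, d1, d2, hB]
      simp only [Polynomial.derivative_add, Polynomial.derivative_C, Polynomial.derivative_C_mul,
        Polynomial.derivative_X, Polynomial.derivative_X_pow, Polynomial.eval_add,
        Polynomial.eval_mul, Polynomial.eval_C, Polynomial.eval_X, Polynomial.eval_zero,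
        Polynomial.eval_one, Polynomial.eval_pow]
      push_cast
      ring
    rw [h2] at h1
    simp only [if_neg hk1]
    rw [← ha₂]
    have e3 : ((tw F w ω : ℤ) : ℝ) / ((2 ^ (J - w) : ℕ) : ℝ) = uw F w ω := rfl
    rw [e3]
    rw [abs_le] at h1 g3 ⊢
    constructor <;> linarith [h1.1, h1.2, g3.1, g3.2]
  · intro r hr _
    exact (H_const hr.sum_one ()).le
  · have h3 : 0 ≤ CH q (fun _ : F.Ω => ()) Gm := CH_nonneg h0 _ _
    have h4 : 0 ≤ δ * Q := mul_nonneg hδ (Nat.cast_nonneg _)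
    linarith
  · intro E hE y hy
    refine le_trans ?_ (hnf E hE y hy)
    refine CH_mono_cond (cond_nonneg h0 E True) fun ω ω' _ _ e => ?_
    simp only [Prod.mk.injEq] at e ⊢
    exact ⟨e.1, e.2.2.1, e.2.2.2⟩

/-- **The context and the jets to `0` digits are few bits**, if the jets `U` are few bits. -/
theorem pc0 (D : ℕ) : ∃ C : ℝ, 1 ≤ C ∧ ∀ {k : ℕ} (hk : k = 1 ∨ k = 2) {m J : ℕ}
    {F : Fam m J} {R : LnT F → Polynomial ℝ} {w Q : ℕ} {q : F.Ω → ℝ} (hq : IsLaw q)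
    (hdeg : ∀ x, (R x).natDegree ≤ D) (hw : w ≤ J) {𝒞 Γ 𝒰 : Type}
    (c : LnT F → 𝒞) (Gm : F.Ω → Γ) (U : F.Ω → 𝒰) {B : ℝ} (hB : 0 ≤ B)
    (hG : ∀ ω ω', 0 < q ω → 0 < q ω' → Gm ω = Gm ω' → F.T ω = F.T ω' ∧
      (slam F w ω).2 = (slam F w ω').2)
    (hU : ∀ ω ω', 0 < q ω → 0 < q ω' → Gm ω = Gm ω' → U ω = U ω' →
      (∀ j ≤ D, j ≠ k → |pj F R w j ω -
        pj F R w j ω'| ≤ 1) ∧
      |pj F R w k ω -
        pj F R w k ω'| ≤ B * 2 ^ Q),
    CH q (fun ω => cty Q (pctx F R k D c) (pr F R 0)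
      (pr F R 1) (fun x => if k = 1 then 0 else pr F R 2 x) 0 (slam F w ω))
      Gm ≤ CH q (fun ω => c (slam F w ω)) Gm + CH q U Gm +
        (D + 4) * Real.log (C * (B + 2)) := by
  obtain ⟨C₁, hC₁, hcof⟩ := cof_small D
  refine ⟨2 * (C₁ + 3) + 1, by linarith, ?_⟩
  intro k hk m J F R w Q q hq hdeg hw 𝒞 Γ 𝒰 c Gm U B hB hG hU
  have h0 := hq.nonneg
  have hQ1 : (1 : ℝ) ≤ 2 ^ Q := one_le_pow₀ (by norm_num)
  set Z : F.Ω → 𝒰 × Γ := fun ω => (U ω, Gm ω) with hZ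
  -- the coefficients on a fibre
  have hco : ∀ ω ω', 0 < q ω → 0 < q ω' → Z ω = Z ω' →
      (∀ j, k < j → |pr F R j (slam F w ω) - pr F R j (slam F w ω')| ≤ C₁) ∧
      ∀ j, |pr F R j (slam F w ω) - pr F R j (slam F w ω')| ≤
        C₁ * ((B + 1) * 2 ^ Q) := by
    intro ω ω' hω hω' e
    have e1 : U ω = U ω' := (Prod.ext_iff.mp e).1
    have e2 : Gm ω = Gm ω' := (Prod.ext_iff.mp e).2
    obtain ⟨u1, u2⟩ := hU ω ω' hω hω' e2 e1
    have hT := (hG ω ω' hω hω' e2).1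
    have hu : uw F w ω' = uw F w ω := by
      unfold uw tw
      rw [hT]
    have hEd : (R (slam F w ω) - R (slam F w ω')).natDegree ≤ D :=
      (Polynomial.natDegree_sub_le _ _).trans (max_le (hdeg _) (hdeg _))
    have hEv : ∀ i, (Polynomial.derivative^[i] (R (slam F w ω) -
        R (slam F w ω'))).eval (uw F w ω) =
        pj F R w i ω -
          pj F R w i ω' := by
      intro i
      rw [Polynomial.iterate_derivative_sub, Polynomial.eval_sub]
      unfold pj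
      rw [hu]
    have hbig : ∀ i, D < i → |(Polynomial.derivative^[i] (R (slam F w ω) -
        R (slam F w ω'))).eval (uw F w ω)| ≤ 0 := by
      intro i hi
      rw [Polynomial.iterate_derivative_eq_zero (by omega), Polynomial.eval_zero, abs_zero]
    have hc : ∀ j, pr F R j (slam F w ω) - pr F R j (slam F w ω') =
        (R (slam F w ω) - R (slam F w ω')).coeff j := by
      intro j
      rw [Polynomial.coeff_sub]
      rfl
    refine ⟨fun j hj => ?_, fun j => ?_⟩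
    · rw [hc, ← mul_one C₁]
      refine hcof _ j (uw F w ω) 1 hEd (uw_abs F w ω) fun i hi => ?_
      by_cases hiD : i ≤ D
      · rw [hEv]
        exact u1 i hiD (by omega)
      · exact (hbig i (by omega)).trans zero_le_one
    · rw [hc]
      refine hcof _ j (uw F w ω) _ hEd (uw_abs F w ω) fun i _ => ?_
      by_cases hiD : i ≤ D
      · rw [hEv]
        by_cases hik : i = k
        · rw [hik]
          refine u2.trans ?_
          nlinarith
        · refine (u1 i hiD hik).trans ?_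
          nlinarith
      · exact (hbig i (by omega)).trans (by positivity)
  -- the costs
  have hlog : ∀ {X : F.Ω → ℤ} {N : ℝ}, N ≤ C₁ * (B + 1) →
      (∀ ω ω', 0 < q ω → 0 < q ω' → Z ω = Z ω' → |X ω - X ω'| ≤ ((⌈N⌉₊ + 1 : ℕ) : ℤ)) →
      CH q X Z ≤ Real.log ((2 * (C₁ + 3) + 1) * (B + 2)) := by
    intro X N hN hX
    refine (CH_pair hq X Z hX).trans (Real.log_le_log (by positivity) ?_)
    have h1 : (⌈N⌉₊ : ℝ) ≤ C₁ * (B + 1) + 1 := by
      have h2 : (⌈N⌉₊ : ℝ) ≤ (⌈C₁ * (B + 1)⌉₊ : ℝ) := by exact_mod_cast Nat.ceil_mono hN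
      have h3 := Nat.ceil_lt_add_one (by positivity : 0 ≤ C₁ * (B + 1))
      linarith
    push_cast
    nlinarith
  have hfl : ∀ {a b N : ℝ}, |a - b| ≤ N → |⌊a⌋ - ⌊b⌋| ≤ ((⌈N⌉₊ + 1 : ℕ) : ℤ) := by
    intro a b N hab
    exact floor_sub_le (hab.trans (Nat.le_ceil N))
  have hC1B : C₁ ≤ C₁ * (B + 1) := by nlinarith
  -- the parts
  have p1 : CH q (fun ω => (fun j : Fin (D + 1) => if k < (j : ℕ) then
      ⌊pr F R j (slam F w ω)⌋ else 0)) Z ≤
      (D + 1) * Real.log ((2 * (C₁ + 3) + 1) * (B + 2)) := by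
    refine (CH_pis h0 _ Z).trans ?_
    have h1 : ∀ j ∈ (univ : Finset (Fin (D + 1))), CH q (fun ω => (fun j : Fin (D + 1) =>
        if k < (j : ℕ) then ⌊pr F R j (slam F w ω)⌋ else 0) j) Z ≤
        Real.log ((2 * (C₁ + 3) + 1) * (B + 2)) := by
      intro j _
      refine hlog (N := C₁) hC1B fun ω ω' hω hω' e => ?_
      dsimp only
      split_ifs with hj
      · exact hfl ((hco ω ω' hω hω' e).1 _ hj)
      · rw [sub_self, abs_zero]
        exact Int.natCast_nonneg _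
    refine (Finset.sum_le_sum h1).trans (le_of_eq ?_)
    rw [Finset.sum_const, Finset.card_univ, Fintype.card_fin, nsmul_eq_mul]
    push_cast
    ring
  have p2 : ∀ j, CH q (fun ω => ⌊pr F R j (slam F w ω) / 2 ^ Q⌋) Z ≤
      Real.log ((2 * (C₁ + 3) + 1) * (B + 2)) := by
    intro j
    refine hlog (N := C₁ * (B + 1)) le_rfl fun ω ω' hω hω' e => hfl ?_
    have h1 := (hco ω ω' hω hω' e).2 j
    rw [← sub_div, abs_div, abs_of_pos (by positivity : (0 : ℝ) < 2 ^ Q),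
      div_le_iff₀ (by positivity)]
    linarith
  have p3 : CH q (fun ω => ⌊(if k = 1 then 0 else pr F R 2 (slam F w ω)) / 2 ^ Q⌋) Z ≤
      Real.log ((2 * (C₁ + 3) + 1) * (B + 2)) := by
    by_cases hk1 : k = 1
    · simp only [if_pos hk1]
      refine hlog (N := C₁) hC1B fun ω ω' _ _ _ => ?_
      rw [sub_self, abs_zero]
      exact Int.natCast_nonneg _
    · simp only [if_neg hk1]
      exact p2 2
  -- together
  have s1 := CH_le_add h0 (fun ω => cty Q (pctx F R k D c) (pr F R 0)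
      (pr F R 1) (fun x => if k = 1 then 0 else pr F R 2 x) 0 (slam F w ω)) U Gm
  have s2 : CH q (fun ω => cty Q (pctx F R k D c) (pr F R 0)
      (pr F R 1) (fun x => if k = 1 then 0 else pr F R 2 x) 0 (slam F w ω)) Z ≤
      CH q (fun ω => (c (slam F w ω), ((fun j : Fin (D + 1) => if k < (j : ℕ) then
        ⌊pr F R j (slam F w ω)⌋ else 0), (⌊pr F R 0 (slam F w ω) / 2 ^ Q⌋,
        (⌊pr F R 1 (slam F w ω) / 2 ^ Q⌋,
          ⌊(if k = 1 then 0 else pr F R 2 (slam F w ω)) / 2 ^ Q⌋))))) Z := by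
    refine CH_mono_left h0 fun ω ω' hω hω' e => ?_
    have e1 := (Prod.ext_iff.mp e).1
    have e2 : Gm ω = Gm ω' := (Prod.ext_iff.mp (Prod.ext_iff.mp e).2).2
    obtain ⟨-, g3⟩ := hG ω ω' hω hω' e2
    simp only [Prod.mk.injEq] at e1
    obtain ⟨f1, f2, f3, f4, f5⟩ := e1
    unfold cty pctx
    simp only [Nat.sub_zero, Prod.mk.injEq]
    exact ⟨⟨g3, f1, f2⟩, f3, f4, f5⟩
  have s3 := CH_subadd h0 (fun ω => c (slam F w ω)) (fun ω => ((fun j : Fin (D + 1) =>
    if k < (j : ℕ) then ⌊pr F R j (slam F w ω)⌋ else 0),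
    (⌊pr F R 0 (slam F w ω) / 2 ^ Q⌋, (⌊pr F R 1 (slam F w ω) / 2 ^ Q⌋,
      ⌊(if k = 1 then 0 else pr F R 2 (slam F w ω)) / 2 ^ Q⌋)))) Z
  have s4 := CH_subadd h0 (fun ω => (fun j : Fin (D + 1) =>
    if k < (j : ℕ) then ⌊pr F R j (slam F w ω)⌋ else 0))
    (fun ω => (⌊pr F R 0 (slam F w ω) / 2 ^ Q⌋,
      (⌊pr F R 1 (slam F w ω) / 2 ^ Q⌋,
      ⌊(if k = 1 then 0 else pr F R 2 (slam F w ω)) / 2 ^ Q⌋))) Z
  have s5 := CH_subadd h0 (fun ω => ⌊pr F R 0 (slam F w ω) / 2 ^ Q⌋)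
    (fun ω => (⌊pr F R 1 (slam F w ω) / 2 ^ Q⌋,
      ⌊(if k = 1 then 0 else pr F R 2 (slam F w ω)) / 2 ^ Q⌋)) Z
  have s6 := CH_subadd h0 (fun ω => ⌊pr F R 1 (slam F w ω) / 2 ^ Q⌋)
    (fun ω => ⌊(if k = 1 then 0 else pr F R 2 (slam F w ω)) / 2 ^ Q⌋) Z
  have s7 : CH q (fun ω => c (slam F w ω)) Z ≤ CH q (fun ω => c (slam F w ω)) Gm :=
    CH_mono_cond h0 fun _ _ _ _ e => (Prod.ext_iff.mp e).2
  have t1 := p2 0
  have t2 := p2 1
  have e9 : ((D : ℝ) + 4) * Real.log ((2 * (C₁ + 3) + 1) * (B + 2)) =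
      (D + 1) * Real.log ((2 * (C₁ + 3) + 1) * (B + 2)) +
        3 * Real.log ((2 * (C₁ + 3) + 1) * (B + 2)) := by ring
  rw [e9]
  linarith

end

/-- **The path law**: a family of polynomials on the lines. -/
theorem path_law {k : ℕ} (hk : k = 1 ∨ k = 2) {h : ℝ} (hh : 0 < h) (hh1 : h ≤ 1) {ε : ℝ}
    (hε : 0 < ε) : ∃ δ : ℝ, 0 < δ ∧ ∃ c₀ : ℝ, 0 < c₀ ∧ ∃ N₀ : ℕ, 0 < N₀ ∧
    ∀ (D : ℕ) (_ : 2 ≤ D) {w q : ℝ} (_ : 0 ≤ w) (_ : 0 < q) (_ : w + q ≤ 1),
    ∃ J₀ : ℕ, ∀ J ≥ J₀, ∀ {m : ℕ} (F : Fam m J) (A : F.Ω → Prop) (_ : 0 < Pe F.p A)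
      (R : LnT F → Polynomial ℝ) {𝒞 Γ : Type} (c : LnT F → 𝒞) (Y : F.Ω → Γ) (er : ℕ → ℝ),
    (∀ x, (R x).natDegree ≤ D) →
    (J : ℝ) * Real.log 2 - δ * q * J ≤
      CH (Pool.Agent.H49.Ent.cond F.p A True) F.T (fun ω => (F.l ω, F.Z ω)) →
    (∀ ω ω', A ω → A ω' → Y ω = Y ω' → F.T ω = F.T ω' ∧ F.Z ω = F.Z ω') →
    CH (Pool.Agent.H49.Ent.cond F.p A True) (fun ω => c (slam F ⌊w * J⌋₊ ω)) Y ≤ δ * q * J →
    ∑ j ∈ range (D + 1), er j ≤ δ * q →
    (∀ j ≤ D, j ≠ k → CH (Pool.Agent.H49.Ent.cond F.p A True)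
      (fun ω => ⌊pj F R ⌊w * J⌋₊ j ω⌋) Y ≤ er j * J) →
    CH (Pool.Agent.H49.Ent.cond F.p A True)
      (fun ω => ⌊pj F R ⌊w * J⌋₊ k ω / 2 ^ ⌊q * J⌋₊⌋) Y ≤ er k * J →
    (∀ B : F.Ω → Prop, Sub B A → c₀ * Pe F.p A ≤ Pe F.p B → ∀ i ≤ N₀,
      CH (Pool.Agent.H49.Ent.cond F.p B True) (fun ω => ⌊pj F R ⌊w * J⌋₊ 0 ω⌋)
        (fun ω => (⌊pj F R ⌊w * J⌋₊ 0 ω / 2 ^ ((q - q * i / N₀) * J)⌋,
          (c (slam F ⌊w * J⌋₊ ω), F.W ω))) ≤
        ((1 - h) * (q - q * i / N₀) * Real.log 2 + δ * q) * J) →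
    CH (Pool.Agent.H49.Ent.cond F.p A True)
      (fun ω => (c (slam F ⌊w * J⌋₊ ω), fun j : Fin (D + 1) =>
        ⌊(R (slam F ⌊w * J⌋₊ ω)).coeff j⌋)) Y ≤ ε * q * J := by
  classical
  obtain ⟨δ₁, hδ₁, c₀, hc₀, Hnpl⟩ := npl hk hh hh1 (ε / 2) (half_pos hε)
  obtain ⟨δ, hδ⟩ : ∃ δ : ℝ, δ = min (δ₁ / 16) (ε / 16) := ⟨_, rfl⟩
  have hδ0 : 0 < δ := by
    rw [hδ]
    exact lt_min (by positivity) (by positivity)
  have hδa : δ ≤ δ₁ / 16 := by rw [hδ]; exact min_le_left _ _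
  have hδb : δ ≤ ε / 16 := by rw [hδ]; exact min_le_right _ _
  obtain ⟨N₀, hN₀⟩ := exists_nat_ge (16 / δ₁)
  have hN0 : (0 : ℝ) < N₀ := lt_of_lt_of_le (by positivity) hN₀
  refine ⟨δ, hδ0, c₀, hc₀, N₀, by exact_mod_cast hN0, ?_⟩
  intro D hD2 w q hw0 hq hwq
  have hk1 : 1 ≤ k := by rcases hk with rfl | rfl <;> norm_num
  have hk2 : k ≤ 2 := by rcases hk with rfl | rfl <;> norm_num
  have hD1 : (0 : ℝ) < D + 1 := by positivity
  obtain ⟨K₁, hK₁, Hj⟩ := pnpl D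
  obtain ⟨C, hC, Hc⟩ := pc0 D
  obtain ⟨A', hA'⟩ := exists_nat_ge (2 / q)
  obtain ⟨Q₀, Hnpl⟩ := Hnpl K₁ A'
  have hδq : 0 < δ * q := by positivity
  -- the limits
  obtain ⟨c₅, hc₅⟩ : ∃ c₅ : ℝ, c₅ = Real.log (4 * ((D + 1 : ℕ) : ℝ) + 5) := ⟨_, rfl⟩
  obtain ⟨c₆, hc₆⟩ : ∃ c₆ : ℝ, c₆ = (D + 4) * Real.log (C * (1 + 2)) := ⟨_, rfl⟩
  obtain ⟨CC, hCC⟩ : ∃ CC : ℝ, CC = δ₁ + 1 + Real.log 3 + c₆ + 2 * c₅ := ⟨_, rfl⟩
  have l3 : 0 ≤ Real.log 3 := Real.log_nonneg (by norm_num)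
  have l4 : 0 ≤ Real.log (C * (1 + 2)) := Real.log_nonneg (by linarith)
  have l5 : 0 ≤ c₅ := by
    rw [hc₅]
    refine Real.log_nonneg ?_
    have : (0 : ℝ) ≤ ((D + 1 : ℕ) : ℝ) := Nat.cast_nonneg _
    linarith
  have l6 : 0 ≤ c₆ := by
    rw [hc₆]
    positivity
  obtain ⟨J₂, hJ₂⟩ := exists_nat_ge (CC / (δ₁ / 4 * q) + (Q₀ + 2) / q)
  refine ⟨J₂, ?_⟩
  intro J hJ m F A hA R 𝒞 Γ c Y er hdeg hT hY hc hser hjet hjk hrow
  have hJ2 : (J₂ : ℝ) ≤ J := by exact_mod_cast hJ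
  have hJ0 : (0 : ℝ) ≤ J := Nat.cast_nonneg J
  have hl2 : 0 < Real.log 2 := Real.log_pos one_lt_two
  have hl21 : Real.log 2 ≤ 1 := by
    have := Real.log_two_lt_d9
    linarith
  obtain ⟨W, hW⟩ : ∃ W : ℕ, W = ⌊w * J⌋₊ := ⟨_, rfl⟩
  obtain ⟨Q, hQ⟩ : ∃ Q : ℕ, Q = ⌊q * J⌋₊ := ⟨_, rfl⟩
  have hQ1 : (Q : ℝ) ≤ q * J := by
    rw [hQ]
    exact Nat.floor_le (by positivity)
  have hQ2 : q * J < Q + 1 := by
    rw [hQ]
    exact Nat.lt_floor_add_one _
  have hW1 : (W : ℝ) ≤ w * J := by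
    rw [hW]
    exact Nat.floor_le (by positivity)
  have b1 : 0 ≤ CC / (δ₁ / 4 * q) := by
    rw [hCC]
    positivity
  have b2 : 0 < ((Q₀ : ℝ) + 2) / q := by positivity
  have f1 : CC ≤ δ₁ / 4 * (q * J) := by
    have : CC / (δ₁ / 4 * q) ≤ J := by linarith
    rw [div_le_iff₀ (by positivity)] at this
    linarith
  have f2 : (Q₀ : ℝ) + 2 ≤ q * J := by
    have : ((Q₀ : ℝ) + 2) / q ≤ J := by linarith
    rw [div_le_iff₀ hq] at this
    linarith
  have hQ0 : Q₀ ≤ Q := by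
    have : (Q₀ : ℝ) < Q := by linarith
    exact_mod_cast this.le
  have hWQ : W + Q ≤ J := by
    have h1 : ((W + Q : ℕ) : ℝ) ≤ J := by
      push_cast
      have h2 : (w + q) * J ≤ 1 * J := mul_le_mul_of_nonneg_right hwq hJ0
      linarith
    exact_mod_cast h1
  have hWJ : W ≤ J := by omega
  have hM2 : J - W ≤ A' * Q := by
    have h1 : (2 : ℝ) ≤ q * J := by
      have : (0 : ℝ) ≤ Q₀ := Nat.cast_nonneg _
      linarith
    have h2 : (J : ℝ) ≤ A' * Q := by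
      have h3 : q * J / 2 ≤ Q := by linarith
      have h4 : 2 / q * (q * J / 2) ≤ A' * Q :=
        mul_le_mul hA' h3 (by positivity) (Nat.cast_nonneg _)
      have h5 : 2 / q * (q * J / 2) = J := by field_simp
      linarith
    have h3 : J ≤ A' * Q := by exact_mod_cast h2
    omega
  have hqJ : 0 < q * J := by linarith [(Nat.cast_nonneg Q₀ : (0 : ℝ) ≤ Q₀)]
  -- the constants
  have f3 : δ₁ * (q * J) - δ₁ ≤ δ₁ * Q := by
    have := mul_le_mul_of_nonneg_left hQ2.le hδ₁.le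
    linarith only [this]
  have f4 : 0 ≤ δ₁ * (q * J) := by positivity
  have f5 : δ * q * J ≤ δ₁ / 16 * (q * J) := by
    rw [mul_assoc]
    exact mul_le_mul_of_nonneg_right hδa (by positivity)
  have fa : Real.log 3 + δ₁ ≤ δ₁ / 4 * (q * J) := by
    rw [hCC] at f1
    linarith only [f1, l6, l5]
  have fb : c₆ + δ₁ ≤ δ₁ / 4 * (q * J) := by
    rw [hCC] at f1
    linarith only [f1, l3, l5]
  have fc : 2 * c₅ + 1 + δ₁ ≤ δ₁ / 4 * (q * J) := by
    rw [hCC] at f1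
    linarith only [f1, l3, l6]
  clear f1 b1 b2 hJ₂ hCC
  obtain ⟨q', hq'⟩ : ∃ q' : F.Ω → ℝ, q' = Pool.Agent.H49.Ent.cond F.p A True := ⟨_, rfl⟩
  have hq'l : IsLaw q' := by
    rw [hq']
    exact isLaw_cond F.isLaw hA
  have h0 := hq'l.nonneg
  have hq'A : ∀ ω, 0 < q' ω → A ω := fun ω hω => by
    rw [hq'] at hω
    exact of_cond_pos hω
  rw [← hq', ← hW, ← hQ] at hjk
  rw [← hq', ← hW] at hjet hc
  rw [← hq'] at hT
  rw [← hq', ← hW]
  rw [← hW] at hrow
  -- the jets as integers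
  obtain ⟨U, hU⟩ : ∃ U : F.Ω → Fin (D + 1) → ℤ, U = fun ω (j : Fin (D + 1)) =>
    if (j : ℕ) = k then ⌊pj F R W k ω / 2 ^ Q⌋ else ⌊pj F R W (j : ℕ) ω⌋ := ⟨_, rfl⟩
  obtain ⟨Gm, hGm⟩ : ∃ Gm : F.Ω → Γ × (ℤ × ℤ),
    Gm = fun ω => (Y ω, (U ω ⟨0, by omega⟩, if k = 2 then U ω ⟨1, by omega⟩ else 0)) := ⟨_, rfl⟩
  have hYU : CH q' U Y ≤ δ * q * J := by
    refine (CH_pis h0 U Y).trans ?_
    have h1 : ∀ j ∈ (univ : Finset (Fin (D + 1))), CH q' (fun ω => U ω j) Y ≤ er j * J := by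
      intro j _
      rw [hU]
      by_cases hj : (j : ℕ) = k
      · simp only [if_pos hj]
        rw [hj]
        exact hjk
      · simp only [if_neg hj]
        exact hjet j (by omega) hj
    refine (Finset.sum_le_sum h1).trans ?_
    rw [← Finset.sum_mul, Fin.sum_univ_eq_sum_range er (D + 1)]
    exact mul_le_mul_of_nonneg_right hser hJ0
  have hGY : ∀ ω ω', Gm ω = Gm ω' → Y ω = Y ω' := fun ω ω' e => by
    rw [hGm] at e
    exact (Prod.ext_iff.mp e).1
  have hGT : ∀ ω ω', 0 < q' ω → 0 < q' ω' → Gm ω = Gm ω' → F.T ω = F.T ω' ∧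
      (slam F W ω).2 = (slam F W ω').2 := fun ω ω' hω hω' e => by
    obtain ⟨e1, e2⟩ := hY ω ω' (hq'A ω hω) (hq'A ω' hω') (hGY ω ω' e)
    refine ⟨e1, ?_⟩
    unfold slam Fam.T1
    simp only [Prod.mk.injEq]
    exact ⟨e2, by rw [e1]⟩
  have hfl : ∀ {a b : ℝ}, ⌊a⌋ = ⌊b⌋ → |a - b| ≤ 1 := fun {a b} e => by
    have := fl_scale (s := 1) (t := 1) (a := a) (b := b) (B := 1) zero_le_one
      (by norm_num) one_pos (by rw [one_mul, one_mul]; exact e)
    rwa [one_mul, one_mul] at this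
  have hU1 : ∀ (j : ℕ) (hj : j < D + 1), j ≠ k → ∀ ω ω', U ω ⟨j, hj⟩ = U ω' ⟨j, hj⟩ →
      |pj F R W j ω - pj F R W j ω'| ≤ 1 := by
    intro j hj hjk ω ω' e
    rw [hU] at e
    simp only [if_neg hjk] at e
    exact hfl e
  have hUk : ∀ (hj : k < D + 1) (ω ω' : F.Ω), U ω ⟨k, hj⟩ = U ω' ⟨k, hj⟩ →
      |pj F R W k ω - pj F R W k ω'| ≤ 1 * 2 ^ Q := by
    intro hj ω ω' e
    rw [hU] at e
    simp only [if_true] at e
    rw [one_mul]
    exact of_floor_div (by positivity) e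
  -- the data
  have hG : ∀ ω ω', 0 < q' ω → 0 < q' ω' → Gm ω = Gm ω' → F.T ω = F.T ω' ∧
      |pj F R W 0 ω - pj F R W 0 ω'| ≤ 1 ∧ (k = 2 → |pj F R W 1 ω - pj F R W 1 ω'| ≤ 1) := by
    intro ω ω' hω hω' e
    have e1 : (U ω ⟨0, by omega⟩, if k = 2 then U ω ⟨1, by omega⟩ else 0) =
        (U ω' ⟨0, by omega⟩, if k = 2 then U ω' ⟨1, by omega⟩ else 0) := by
      rw [hGm] at e
      exact (Prod.ext_iff.mp e).2
    refine ⟨(hGT ω ω' hω hω' e).1, ?_, fun hk2 => ?_⟩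
    · exact hU1 0 (by omega) (by omega) ω ω' (Prod.ext_iff.mp e1).1
    · have e2 := (Prod.ext_iff.mp e1).2
      simp only [if_pos hk2] at e2
      exact hU1 1 (by omega) (by omega) ω ω' e2
  have hc0 : CH q' (fun ω => cty Q (pctx F R k D c) (pr F R 0)
      (pr F R 1) (fun x => if k = 1 then 0 else pr F R 2 x) 0 (slam F W ω))
      Gm ≤ δ₁ * Q := by
    have h1 := Hc hk (R := R) (w := W) (Q := Q) hq'l hdeg hWJ c Gm U
      (B := 1) (by norm_num) (fun ω ω' hω hω' e => hGT ω ω' hω hω' e) (fun ω ω' _ _ _ e =>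
        ⟨fun j hj hjk => hU1 j (by omega) hjk ω ω' (congrFun e _),
          hUk (by omega) ω ω' (congrFun e _)⟩)
    have h2 : CH q' (fun ω => c (slam F W ω)) Gm ≤ δ * q * J :=
      (CH_mono_cond h0 fun ω ω' _ _ e => hGY ω ω' e).trans hc
    have h3 : CH q' U Gm ≤ δ * q * J :=
      (CH_mono_cond h0 fun ω ω' _ _ e => hGY ω ω' e).trans hYU
    rw [← hc₆] at h1
    linarith only [h1, h2, h3, f5, fb, f3, f4]
  have hnf' : ∀ E : F.Ω → Prop, c₀ ≤ Pool.Agent.H49.Ent.law q' E True → ∀ y' ≤ Q,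
      CH (Pool.Agent.H49.Ent.cond q' E True)
        (fun ω => ⌊pth (2 ^ (J - W)) (pctx F R k D c) (pr F R 0)
          (pr F R 1) (fun x => if k = 1 then 0 else pr F R 2 x)
          (jg (2 ^ (J - W)) D) (slam F W ω) (tw F W ω)⌋)
        (fun ω => (⌊pth (2 ^ (J - W)) (pctx F R k D c) (pr F R 0)
          (pr F R 1) (fun x => if k = 1 then 0 else pr F R 2 x)
          (jg (2 ^ (J - W)) D) (slam F W ω) (tw F W ω) / 2 ^ (Q - y')⌋,
          (tw F W ω, pctx F R k D c (slam F W ω)))) ≤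
        (1 - h) * (((Q : ℝ) - y') * Real.log 2) + δ₁ * Q := by
    intro E hE y' hy'
    have hyr : (y' : ℝ) ≤ Q := by exact_mod_cast hy'
    obtain ⟨B, hB⟩ : ∃ B : F.Ω → Prop, B = fun ω => A ω ∧ E ω := ⟨_, rfl⟩
    have hBA : Sub B A := fun ω hω => by
      rw [hB] at hω
      exact hω.1
    have e1 : Pool.Agent.H49.Ent.cond q' E True = Pool.Agent.H49.Ent.cond F.p B True := by
      rw [hq', hB]
      exact Pool.K2S.Piece.cond_inter hA.ne'
    have e2 : Pool.Agent.H49.Ent.law q' E True = Pe F.p B / Pe F.p A := by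
      rw [hq', hB]
      exact Pool.K2S.Pe_cond E
    rw [e2, le_div_iff₀ hA] at hE
    have hPB : 0 < Pe F.p B := lt_of_lt_of_le (by positivity) hE
    have hBl : IsLaw (Pool.Agent.H49.Ent.cond F.p B True) := isLaw_cond F.isLaw hPB
    -- the mesh
    obtain ⟨i, hi⟩ : ∃ i : ℕ, i = ⌊(y' : ℝ) * N₀ / (q * J)⌋₊ := ⟨_, rfl⟩
    have i1 : (i : ℝ) * (q * J) ≤ y' * N₀ := by
      rw [← le_div_iff₀ hqJ, hi]
      exact Nat.floor_le (by positivity)
    have i2 : (y' : ℝ) * N₀ < (i + 1) * (q * J) := by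
      rw [← div_lt_iff₀ hqJ, hi]
      exact Nat.lt_floor_add_one _
    have i3 : i ≤ N₀ := by
      have h1 : (i : ℝ) * (q * J) ≤ N₀ * (q * J) := by
        refine i1.trans ?_
        rw [mul_comm]
        exact mul_le_mul_of_nonneg_left (hyr.trans hQ1) hN0.le
      have h2 : (i : ℝ) ≤ N₀ := le_of_mul_le_mul_right h1 hqJ
      exact_mod_cast h2
    have h1 := hrow B hBA hE i i3
    obtain ⟨x, hx⟩ : ∃ x : ℝ, x = q * i / N₀ := ⟨_, rfl⟩
    have x1 : x * J ≤ y' := by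
      rw [hx, div_mul_eq_mul_div, div_le_iff₀ hN0]
      linarith
    have x2 : y' ≤ x * J + q * J / N₀ := by
      rw [hx]
      have : q * i / N₀ * J + q * J / N₀ = ((i + 1) * (q * J)) / N₀ := by ring
      rw [this, le_div_iff₀ hN0]
      exact i2.le
    rw [← hx] at h1
    -- the change of the height
    rw [e1]
    obtain ⟨P, hP⟩ : ∃ P : F.Ω → ℝ, P = fun ω => pth (2 ^ (J - W))
      (pctx F R k D c) (pr F R 0) (pr F R 1)
      (fun x => if k = 1 then 0 else pr F R 2 x) (jg (2 ^ (J - W)) D)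
      (slam F W ω) (tw F W ω) := ⟨_, rfl⟩
    have hXP : ∀ ω, |pj F R W 0 ω - P ω| ≤ ((D + 1 : ℕ) : ℝ) := by
      intro ω
      have g1 := ppth_near (R := R) hk hD2 hdeg c (slam F W ω)
        (Nat.one_le_two_pow (n := J - W)) (tw_abs F W ω)
      have g3 : pj F R W 0 ω = (R (slam F W ω)).eval
        (((tw F W ω : ℤ) : ℝ) / ((2 ^ (J - W) : ℕ) : ℝ)) := rfl
      rw [← g3] at g1
      rw [hP]
      push_cast at g1 ⊢
      exact g1
    obtain ⟨t, ht⟩ : ∃ t : ℝ, t = 2 ^ (-((q - x) * J)) := ⟨_, rfl⟩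
    have ht0 : 0 < t := by
      rw [ht]
      exact Real.rpow_pos_of_pos (by norm_num) _
    have key := row_nf hBl (fun ω => pj F R W 0 ω) P
      (fun ω _ => hXP ω) (μ := 2 ^ (Q - y')) (t := t) (one_le_pow₀ (by norm_num)) ht0.le (by
        rw [ht, ← Real.rpow_natCast, ← Real.rpow_add (by norm_num)]
        refine Real.rpow_le_one_of_one_le_of_nonpos (by norm_num) ?_
        rw [Nat.cast_sub hy']
        linarith)
      (fun ω => (tw F W ω, pctx F R k D c (slam F W ω)))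
      (fun ω => (c (slam F W ω), F.W ω)) (fun ω ω' _ _ e => by
        unfold pctx at e
        simp only [Prod.mk.injEq] at e
        obtain ⟨e3, e5, e6, -⟩ := e
        have e7 : F.Z ω = F.Z ω' := (Prod.ext_iff.mp e5).1
        have e8 : F.T1 W ω = F.T1 W ω' := (Prod.ext_iff.mp e5).2
        have e9 : F.W ω = F.W ω' := Prod.ext (T_tw F W e8 e3) e7
        rw [e6, e9])
    rw [hP, ← hc₅] at key
    refine key.trans ?_
    have e3 : (fun ω => (⌊t * pj F R W 0 ω⌋, (c (slam F W ω), F.W ω))) = (fun ω =>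
        (⌊pj F R W 0 ω / 2 ^ ((q - x) * J)⌋, (c (slam F W ω), F.W ω))) := by
      funext ω
      rw [ht, Real.rpow_neg (by norm_num), div_eq_mul_inv, mul_comm]
    rw [e3]
    have g1 : (q - x) * J ≤ (Q - y') + (1 + q * J / N₀) := by linarith
    have g2 : q * J / N₀ ≤ δ₁ / 16 * (q * J) := by
      rw [div_le_iff₀ hN0]
      have a1 : 1 ≤ δ₁ / 16 * N₀ := by
        rw [div_le_iff₀ hδ₁] at hN₀
        linarith only [hN₀]
      have a2 := mul_le_mul_of_nonneg_left a1 hqJ.le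
      linarith only [a2]
    have g3 : (1 - h) * (q - x) * Real.log 2 * J ≤ (1 - h) * (((Q : ℝ) - y') * Real.log 2) +
        (1 + q * J / N₀) := by
      have g4 : (1 - h) * Real.log 2 * ((q - x) * J) ≤
          (1 - h) * Real.log 2 * ((Q - y') + (1 + q * J / N₀)) :=
        mul_le_mul_of_nonneg_left g1 (mul_nonneg (by linarith only [hh1]) hl2.le)
      have g5 : (1 - h) * Real.log 2 ≤ 1 := by
        have a1 := mul_le_mul_of_nonneg_left hl21 (by linarith only [hh1] : 0 ≤ 1 - h)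
        linarith only [a1, hh]
      have g6 : 0 ≤ 1 + q * J / N₀ := by positivity
      have g7 := mul_le_mul_of_nonneg_right g5 g6
      linarith only [g4, g7]
    linarith only [h1, g3, g2, f5, fc, f3, f4]
  have htf : Real.log (2 * ((2 ^ (J - W) : ℕ) : ℝ) + 1) - δ₁ * Q ≤
      CH q' (tw F W) (slam F W) := by
    have h1 := tw_full F hq'l hWJ (e := δ * q * J) hT
    linarith only [h1, f3, f4, f5, fa]
  have hdat := Hj (k := k) (A' := A') hk hD2 (F := F) (R := R) (w := W) (Q := Q) (q := q') hq'l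
    hdeg hWQ hM2 c Gm (h := h) (δ := δ₁) (c₀ := c₀) hG htf hδ₁.le hc0 hnf'
  have hfin := Hnpl Q hQ0 _ _ _ _ _ _ _ _ _ _ _ _ _ _ _ _ _ hdat
  -- the end
  have s1 := CH_le_add h0 (fun ω => (c (slam F W ω), fun j : Fin (D + 1) =>
    ⌊(R (slam F W ω)).coeff j⌋)) U Y
  have s2 : CH q' (fun ω => (c (slam F W ω), fun j : Fin (D + 1) =>
      ⌊(R (slam F W ω)).coeff j⌋)) (fun ω => (U ω, Y ω)) ≤ ε / 2 * Q := by
    refine le_trans ?_ hfin
    refine (CH_mono_cond h0 (W := Gm) fun ω ω' _ _ e => ?_).trans (CH_mono_left h0 ?_)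
    · simp only [Prod.mk.injEq] at e
      rw [hGm]
      dsimp only
      rw [e.1, e.2]
    · intro ω ω' _ _ e
      have e0 := (Prod.ext_iff.mp e).1
      unfold pctx at e0
      simp only [Prod.mk.injEq] at e0
      obtain ⟨⟨-, e3, e4⟩, e5, e6, e7⟩ := e0
      have e8 : ∀ j : Fin (D + 1), ⌊pr F R j (slam F W ω)⌋ = ⌊pr F R j (slam F W ω')⌋ := by
        intro j
        by_cases hj : k < (j : ℕ)
        · have := congrFun e4 j
          simp only [if_pos hj] at this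
          exact this
        · obtain ⟨j, hj2⟩ := j
          simp only at hj ⊢
          have hj3 : j ≤ 2 := by omega
          interval_cases j
          · exact e5
          · exact e6
          · have hk2 : ¬ k = 1 := by omega
            simp only [if_neg hk2] at e7
            exact e7
      simp only [Prod.mk.injEq]
      exact ⟨e3, funext fun j => e8 j⟩
  have g1 : ε / 2 * Q ≤ ε / 2 * (q * J) := mul_le_mul_of_nonneg_left hQ1 (by positivity)
  have g2 : δ * q * J ≤ ε / 16 * (q * J) := by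
    rw [mul_assoc]
    exact mul_le_mul_of_nonneg_right hδb (by positivity)
  have g3 : 0 ≤ ε * (q * J) := by positivity
  linarith only [s1, s2, hYU, g1, g2, g3]

end Pool.OWN68
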