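import Pool.Agent.H68.OWN.Nf

/-!
# The rows of the value at the centre of the tube (92's `S0`)

`rows_ctr`: `P` is the value at the centre of the tube, `o` the own height, which differs from `P`
by a function of the near digits `xi`, the context `c` and `w`. If the rows of `o` are not full given
`b` (a function of `xi`, `c`, `w`), the near digits are full given the record `z`, `E` and `w`, and
`c` and `P` are few bits given the record, then the rows of `P` are not full given `c` and `w`.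
-/

set_option autoImplicit false

namespace Pool.OWN68

open Finset Real
open Pool.Agent.H49.Ent Pool.Agent.H32.Dense Pool.STK Pool.KA Pool.KSAT Pool.K2S Pool.PB Pool.GEN

/-- **The rows of the value at the centre of the tube are not full.** -/
theorem rows_ctr {Ω Z C Ξ E W β : Type} [Fintype Ω] {q' : Ω → ℝ} (hq' : IsLaw q') (P o : Ω → ℝ)
    (c : Ω → C) (z : Ω → Z) (xi : Ω → Ξ) (ee : Ω → E) (w : Ω → W) (b : Ω → β) {s s' : ℝ}
    (hs' : 0 < s') (hss : s' ≤ s) {D : ℕ} {R Fx e e₁ e₂ : ℝ}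
    (hrel : ∀ ω ω', 0 < q' ω → 0 < q' ω' → xi ω = xi ω' → c ω = c ω' → w ω = w ω' →
      |s * ((P ω - P ω') - (o ω - o ω'))| ≤ D)
    (hb : ∀ ω ω', 0 < q' ω → 0 < q' ω' → xi ω = xi ω' → c ω = c ω' → w ω = w ω' → b ω = b ω')
    (hnf : CH q' (fun ω => ⌊s * o ω⌋) (fun ω => (⌊s' * o ω⌋, (b ω, w ω))) ≤ R)
    (hfull : Fx - e ≤ CH q' xi (fun ω => (z ω, (ee ω, w ω))))
    (hcnt : CH q' xi (fun ω => (c ω, w ω)) ≤ Fx)
    (hc : CH q' c (fun ω => (z ω, (ee ω, w ω))) ≤ e₁)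
    (hP : CH q' (fun ω => ⌊s * P ω⌋) (fun ω => (c ω, (z ω, (ee ω, w ω)))) ≤ e₂) :
    CH q' (fun ω => ⌊s * P ω⌋) (fun ω => (⌊s' * P ω⌋, (c ω, w ω))) ≤
      R + e + e₁ + e₂ + (Real.log 5 + 2 * Real.log (2 * ((D + 1 + 1 : ℕ) : ℝ) + 1)) := by
  have h0 := hq'.nonneg
  have hs : 0 < s := hs'.trans_le hss
  obtain ⟨A, hA⟩ : ∃ A : Ω → ℤ, A = fun ω => ⌊s * P ω⌋ := ⟨_, rfl⟩
  obtain ⟨A', hA'⟩ : ∃ A' : Ω → ℤ, A' = fun ω => ⌊s' * P ω⌋ := ⟨_, rfl⟩
  obtain ⟨O, hO⟩ : ∃ O : Ω → ℤ, O = fun ω => ⌊s * o ω⌋ := ⟨_, rfl⟩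
  obtain ⟨O', hO'⟩ : ∃ O' : Ω → ℤ, O' = fun ω => ⌊s' * o ω⌋ := ⟨_, rfl⟩
  rw [← hA] at hP ⊢
  rw [← hO] at hnf
  have eA : (fun ω => (⌊s' * P ω⌋, (c ω, w ω))) = fun ω => (A' ω, (c ω, w ω)) := by rw [hA']
  have eO : (fun ω => (⌊s' * o ω⌋, (b ω, w ω))) = fun ω => (O' ω, (b ω, w ω)) := by rw [hO']
  rw [eA]
  rw [eO] at hnf
  -- the first term
  have t1 := CH_exch h0 A xi (fun ω => (A' ω, (c ω, w ω)))
  have t2 : CH q' xi (fun ω => (A' ω, (c ω, w ω))) ≤ Fx :=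
    (CH_mono_cond h0 fun ω ω' _ _ e => by
      simp only [Prod.mk.injEq] at e ⊢
      exact e.2).trans hcnt
  -- the near digits given the record
  have t3 : CH q' xi (fun ω => ((A ω, (A' ω, c ω)), (z ω, (ee ω, w ω)))) ≤
      CH q' xi (fun ω => (A ω, (A' ω, (c ω, w ω)))) :=
    CH_mono_cond h0 fun ω ω' _ _ e => by
      simp only [Prod.mk.injEq] at e ⊢
      exact ⟨e.1.1, e.1.2.1, e.1.2.2, e.2.2.2⟩
  have t4 := CH_exch h0 xi (fun ω => (A ω, (A' ω, c ω))) (fun ω => (z ω, (ee ω, w ω)))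
  have t5 : 0 ≤ CH q' (fun ω => (A ω, (A' ω, c ω))) (fun ω => (xi ω, (z ω, (ee ω, w ω)))) :=
    CH_nonneg h0 _ _
  have t6 : CH q' (fun ω => (A ω, (A' ω, c ω))) (fun ω => (z ω, (ee ω, w ω))) ≤
      CH q' (fun ω => (A' ω, (A ω, c ω))) (fun ω => (z ω, (ee ω, w ω))) :=
    CH_mono_left h0 fun ω ω' _ _ e => by
      simp only [Prod.mk.injEq] at e ⊢
      exact ⟨e.1.2.1, e.1.1, e.1.2.2⟩
  have t7 := CH_chain h0 A' (fun ω => (A ω, c ω)) (fun ω => (z ω, (ee ω, w ω)))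
  have t8 := CH_chain h0 A c (fun ω => (z ω, (ee ω, w ω)))
  have t9 : CH q' A' (fun ω => ((A ω, c ω), (z ω, (ee ω, w ω)))) ≤ Real.log 5 := by
    have e5 : (5 : ℝ) = 2 * ((1 + 1 : ℕ) : ℝ) + 1 := by norm_num
    rw [e5]
    refine CH_pair hq' _ _ fun ω ω' hω hω' e => ?_
    have e1 := (Prod.ext_iff.mp (Prod.ext_iff.mp e).1).1
    rw [hA] at e1
    have g1 := fl_one_mul hs e1
    rw [hA']
    refine floor_sub_le (D := 1) ?_
    rw [← mul_sub, abs_mul, abs_of_pos hs']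
    rw [abs_mul, abs_of_pos hs] at g1
    push_cast
    exact (mul_le_mul_of_nonneg_right hss (abs_nonneg _)).trans g1
  -- the own height
  obtain ⟨Y, hY⟩ : ∃ Y : Ω → Ξ × (ℤ × (C × W)), Y = fun ω => (xi ω, (A' ω, (c ω, w ω))) :=
    ⟨_, rfl⟩
  have u1 := CH_le_add h0 A O Y
  have u2 := CH_le_add h0 O O' Y
  have u3 : CH q' A (fun ω => (O ω, Y ω)) ≤ Real.log (2 * ((D + 1 + 1 : ℕ) : ℝ) + 1) := by
    refine CH_pair hq' _ _ fun ω ω' hω hω' e => ?_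
    rw [hY] at e
    simp only [Prod.mk.injEq] at e
    obtain ⟨e1, e2, e3, e4, e5⟩ := e
    rw [hO] at e1
    have g1 := fl_one_mul hs e1
    have g2 := hrel ω ω' hω hω' e2 e4 e5
    rw [hA]
    refine floor_sub_le (D := D + 1) ?_
    rw [← mul_sub]
    have g3 : s * (P ω - P ω') = s * ((P ω - P ω') - (o ω - o ω')) + s * (o ω - o ω') := by ring
    rw [g3]
    push_cast
    exact (abs_add_le _ _).trans (add_le_add g2 g1)
  have u4 : CH q' O' Y ≤ Real.log (2 * ((D + 1 + 1 : ℕ) : ℝ) + 1) := by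
    refine CH_pair hq' _ _ fun ω ω' hω hω' e => ?_
    rw [hY] at e
    simp only [Prod.mk.injEq] at e
    obtain ⟨e2, e3, e4, e5⟩ := e
    rw [hA'] at e3
    have g1 := fl_one_mul hs' e3
    have g2 := hrel ω ω' hω hω' e2 e4 e5
    rw [hO']
    refine floor_sub_le (D := D + 1) ?_
    rw [← mul_sub]
    have g3 : s' * (o ω - o ω') = -(s' * ((P ω - P ω') - (o ω - o ω'))) +
      s' * (P ω - P ω') := by ring
    have g4 : |s' * ((P ω - P ω') - (o ω - o ω'))| ≤ D := by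
      rw [abs_mul, abs_of_pos hs']
      rw [abs_mul, abs_of_pos hs] at g2
      exact (mul_le_mul_of_nonneg_right hss (abs_nonneg _)).trans g2
    rw [g3]
    push_cast
    refine (abs_add_le _ _).trans (add_le_add ?_ g1)
    rw [abs_neg]
    exact g4
  have u5 : CH q' O (fun ω => (O' ω, Y ω)) ≤ R :=
    (CH_mono_cond h0 fun ω ω' hω hω' e => by
      rw [hY] at e
      simp only [Prod.mk.injEq] at e ⊢
      obtain ⟨e1, e2, e3, e4, e5⟩ := e
      exact ⟨e1, hb ω ω' hω hω' e2 e4 e5, e5⟩).trans hnf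
  rw [hY] at u1 u2 u3 u4 u5
  linarith only [t1, t2, t3, t4, t5, t6, t7, t8, t9, u1, u2, u3, u4, u5, hfull, hc, hP]

end Pool.OWN68
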